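import Pool.Agent.P.MP_9ae58c_an.B.Tools

/-! The reduced isosceles problem in the true anomaly clock, its variational equation and its
symmetries. -/

namespace Pool.Agent.P.MP_9ae58c_an.B

open Set Filter Topology Complex

/-- eccentricity vector, height, vertical velocity -/
abbrev St : Type := ℂ × ℝ × ℝ

/-- radius of the binary -/
noncomputable def rr (p : St) : ℝ := 1 / (1 + p.1.re)

/-- inverse distance -/
noncomputable def WW (p : St) : ℝ := 1 / √(p.2.1 ^ 2 + rr p ^ 2)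

/-- forcing -/
noncomputable def gg (p : St) : ℝ := 8 * rr p ^ 3 * WW p ^ 3

/-- the vector field -/
noncomputable def fld (μ : ℝ) (p : St) : St :=
  (I * (p.1 - (μ * gg p : ℝ)), rr p ^ 2 * p.2.2, -(8 * (1 + μ) * rr p ^ 2 * p.2.1 * WW p ^ 3))

/-- binding energy of the third body -/
noncomputable def eps (μ : ℝ) (p : St) : ℝ := 16 * (1 + μ) * WW p - p.2.2 ^ 2

/-- the first integral -/
noncomputable def Hh (μ : ℝ) (p : St) : ℝ := ‖p.1‖ ^ 2 - μ / (1 + μ) * eps μ p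

/-- differential of `WW` -/
noncomputable def dW (p ξ : St) : ℝ := rr p ^ 3 * WW p ^ 3 * ξ.1.re - p.2.1 * WW p ^ 3 * ξ.2.1

/-- differential of `gg` -/
noncomputable def dg (p ξ : St) : ℝ :=
  24 * rr p ^ 3 * WW p ^ 2 * dW p ξ - 24 * rr p ^ 4 * WW p ^ 3 * ξ.1.re

/-- differential of `fld` -/
noncomputable def lin (μ : ℝ) (p ξ : St) : St :=
  (I * (ξ.1 - (μ * dg p ξ : ℝ)), rr p ^ 2 * ξ.2.2 - 2 * rr p ^ 3 * p.2.2 * ξ.1.re,
    -(8 * (1 + μ) * (rr p ^ 2 * WW p ^ 3 * ξ.2.1 - 2 * rr p ^ 3 * p.2.1 * WW p ^ 3 * ξ.1.re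
      + 3 * rr p ^ 2 * p.2.1 * WW p ^ 2 * dW p ξ)))

/-- differential of `eps` -/
noncomputable def de (μ : ℝ) (p ξ : St) : ℝ := 16 * (1 + μ) * dW p ξ - 2 * p.2.2 * ξ.2.2

/-- differential of `Hh`, normalised -/
noncomputable def dh (μ : ℝ) (p ξ : St) : ℝ := 2 * (1 + μ) / μ * ip p.1 ξ.1 - de μ p ξ

/-- the region where the equations hold -/
def Reg (p : St) : Prop := ‖p.1‖ ≤ 1 / 4 ∧ |p.2.2| ≤ 10

/-- a smaller region -/
def Rg (p : St) : Prop := ‖p.1‖ ≤ 1 / 8 ∧ |p.2.2| ≤ 9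

/-- the reversor -/
def Rv (p : St) : St := ((starRingEnd ℂ) p.1, p.2.1, -p.2.2)

/-- the reflection -/
def Fp (p : St) : St := (p.1, -p.2.1, -p.2.2)

/-- time reversal -/
def rev (u : ℝ → St) (T : ℝ) : ℝ → St := fun t => Rv (u (T - t))

/-- reflection of a curve -/
def fp (u : ℝ → St) : ℝ → St := fun t => Fp (u t)

/-- time shift -/
def sh (u : ℝ → St) (c : ℝ) : ℝ → St := fun t => u (t + c)

/-- the amplitude in the rotating frame -/
noncomputable def bb (u : ℝ → St) (t : ℝ) : ℂ := ex (-t) * (u t).1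

/-- a curve that solves the equations wherever it is in the region -/
structure Glob (μ : ℝ) (u : ℝ → St) : Prop where
  pos : 0 < μ
  le : μ ≤ 1 / 10 ^ 8
  cont : Continuous u
  der : ∀ t, Reg (u t) → HasDerivAt u (fld μ (u t)) t

/-- admissible points -/
structure Adm (μ : ℝ) (p : St) : Prop where
  pos : 0 < μ
  le : μ ≤ 1 / 10 ^ 8
  na : ‖p.1‖ ≤ 100 * μ
  nH : |Hh μ p| ≤ μ ^ 2

/-- an admissible piece of a solution -/
structure Sol (μ : ℝ) (u : ℝ → St) (a b : ℝ) : Prop where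
  gl : Glob μ u
  adm : ∀ t ∈ Icc a b, Adm μ (u t)

/-- solutions of the variational equation -/
def Var (μ : ℝ) (u ξ : ℝ → St) : Prop := ∀ t, Reg (u t) → HasDerivAt ξ (lin μ (u t) (ξ t)) t

/-- solutions of the variational equation with a bounded source -/
def Inh (μ : ℝ) (u ξ : ℝ → St) (F a b : ℝ) : Prop :=
  ∀ t ∈ Icc a b, ∃ φ, HasDerivAt ξ (lin μ (u t) (ξ t) + φ) t ∧ ‖φ‖ ≤ F

/-- a variation corrected by a time shift -/
noncomputable def syn (μ : ℝ) (u ξ : ℝ → St) (c : ℝ) : ℝ → St := fun t => ξ t + c • fld μ (u t)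

/-- the time shift that keeps the height fixed -/
noncomputable def cz (p ξ : St) : ℝ := -ξ.2.1 / (rr p ^ 2 * p.2.2)

variable {μ a b c t T F : ℝ} {p q ξ ζ : St} {u w x y : ℝ → St}

/-! ### Norms -/

theorem n1 (ξ : St) : ‖ξ.1‖ ≤ ‖ξ‖ := norm_fst_le ξ

theorem n2 (ξ : St) : |ξ.2.1| ≤ ‖ξ‖ := (norm_fst_le ξ.2).trans (norm_snd_le ξ)

theorem n3 (ξ : St) : |ξ.2.2| ≤ ‖ξ‖ := (norm_snd_le ξ.2).trans (norm_snd_le ξ)

theorem norm_le_of {C : ℝ} (h1 : ‖ξ.1‖ ≤ C) (h2 : |ξ.2.1| ≤ C) (h3 : |ξ.2.2| ≤ C) : ‖ξ‖ ≤ C :=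
  max_le h1 (max_le h2 h3)

@[simp] theorem norm_bb (u : ℝ → St) (t : ℝ) : ‖bb u t‖ = ‖(u t).1‖ := by simp [bb]

theorem ex_mul_bb (u : ℝ → St) (t : ℝ) : ex t * bb u t = (u t).1 := by
  rw [bb, ← mul_assoc, ex_mul_neg, one_mul]

/-! ### Calculus along curves -/

theorem d1 (h : HasDerivAt u ξ t) : HasDerivAt (fun t => (u t).1) ξ.1 t := h.fst

theorem dre (h : HasDerivAt u ξ t) : HasDerivAt (fun t => (u t).1.re) ξ.1.re t :=
  reCLM.hasFDerivAt.comp_hasDerivAt t h.fst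

theorem dim (h : HasDerivAt u ξ t) : HasDerivAt (fun t => (u t).1.im) ξ.1.im t :=
  imCLM.hasFDerivAt.comp_hasDerivAt t h.fst

theorem d2 (h : HasDerivAt u ξ t) : HasDerivAt (fun t => (u t).2.1) ξ.2.1 t := h.snd.fst

theorem d3 (h : HasDerivAt u ξ t) : HasDerivAt (fun t => (u t).2.2) ξ.2.2 t := h.snd.snd

theorem dbb (h : HasDerivAt u ξ t) : HasDerivAt (bb u) (ex (-t) * (ξ.1 - I * (u t).1)) t :=
  (((hasDerivAt_ex (-t)).scomp t (hasDerivAt_neg t)).mul h.fst).congr_deriv (by simp; ring)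

theorem Reg.re (h : Reg p) : |p.1.re| ≤ 1 / 4 := (abs_re_le_norm _).trans h.1

theorem Reg.r (h : Reg p) : 4 / 5 ≤ rr p ∧ rr p ≤ 4 / 3 := by
  have := abs_le.1 h.re
  rw [rr, le_div_iff₀ (by linarith), div_le_iff₀ (by linarith)]
  constructor <;> linarith

theorem Reg.r_mul (h : Reg p) : rr p * (1 + p.1.re) = 1 :=
  one_div_mul_cancel (by linarith [abs_le.1 h.re])

theorem Reg.D (h : Reg p) : 0 < p.2.1 ^ 2 + rr p ^ 2 := by nlinarith [h.r.1, sq_nonneg p.2.1]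

theorem Reg.W (h : Reg p) : 0 < WW p := one_div_pos.2 (Real.sqrt_pos.2 h.D)

theorem Reg.W_sq (h : Reg p) : WW p ^ 2 * (p.2.1 ^ 2 + rr p ^ 2) = 1 := by
  rw [WW, div_pow, Real.sq_sqrt h.D.le, one_pow, one_div_mul_cancel h.D.ne']

theorem Reg.zW (h : Reg p) : |p.2.1| * WW p ≤ 1 := by
  refine abs_le_one_iff_mul_self_le_one.2 ?_ |> (le_abs_self _).trans
  nlinarith [h.W_sq, sq_abs p.2.1, sq_nonneg (WW p * rr p)]

theorem Reg.rW (h : Reg p) : rr p * WW p ≤ 1 := by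
  refine abs_le_one_iff_mul_self_le_one.2 ?_ |> (le_abs_self _).trans
  nlinarith [h.W_sq, sq_nonneg (WW p * p.2.1)]

theorem Reg.W_ge (h : Reg p) : 1 ≤ (|p.2.1| + rr p) * WW p := by
  have h1 := mul_pos (show 0 < rr p by linarith [h.r.1]) h.W
  have h2 := mul_nonneg (abs_nonneg p.2.1) h.W.le
  have h3 : (|p.2.1| * WW p) ^ 2 + (rr p * WW p) ^ 2 = 1 := by
    rw [mul_pow, sq_abs]; linarith [h.W_sq]
  nlinarith [mul_nonneg h1.le h2]

theorem drr (hp : Reg (u t)) (h : HasDerivAt u ξ t) :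
    HasDerivAt (fun t => rr (u t)) (-(rr (u t) ^ 2 * ξ.1.re)) t := by
  have e : 1 + (u t).1.re ≠ 0 := by linarith [abs_le.1 hp.re]
  refine ((hasDerivAt_const t (1 : ℝ)).fun_div ((dre h).const_add 1) e).congr_deriv ?_
  rw [rr]
  field_simp
  ring

theorem dWW (hp : Reg (u t)) (h : HasDerivAt u ξ t) :
    HasDerivAt (fun t => WW (u t)) (dW (u t) ξ) t := by
  have e := (Real.sqrt_pos.2 hp.D).ne'
  refine ((hasDerivAt_const t (1 : ℝ)).fun_div ((((d2 h).fun_pow 2).fun_add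
    ((drr hp h).fun_pow 2)).sqrt hp.D.ne') e).congr_deriv ?_
  rw [dW, WW]
  field_simp
  ring

theorem dgg (hp : Reg (u t)) (h : HasDerivAt u ξ t) :
    HasDerivAt (fun t => gg (u t)) (dg (u t) ξ) t :=
  ((((drr hp h).fun_pow 3).const_mul 8).fun_mul ((dWW hp h).fun_pow 3)).congr_deriv
    (by rw [dg]; norm_num; ring)

theorem deps (hp : Reg (u t)) (h : HasDerivAt u ξ t) :
    HasDerivAt (fun t => eps μ (u t)) (de μ (u t) ξ) t :=
  (((dWW hp h).const_mul _).fun_sub ((d3 h).fun_pow 2)).congr_deriv (by rw [de]; norm_num)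

theorem dfld (hp : Reg (u t)) (h : HasDerivAt u ξ t) :
    HasDerivAt (fun t => fld μ (u t)) (lin μ (u t) ξ) t :=
  (((d1 h).fun_sub ((dgg hp h).const_mul μ).ofReal_comp).const_mul I).prodMk
    (((((drr hp h).fun_pow 2).fun_mul (d3 h)).congr_deriv (by norm_num; ring)).prodMk
      (((((((drr hp h).fun_pow 2).const_mul _).fun_mul (d2 h)).fun_mul
        ((dWW hp h).fun_pow 3)).fun_neg).congr_deriv (by norm_num; ring)))

theorem dnsq (h : HasDerivAt u ξ t) : HasDerivAt (fun t => ‖(u t).1‖ ^ 2) (2 * ip (u t).1 ξ.1) t := by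
  simp only [← ip_self, ip]
  exact (((dre h).fun_mul (dre h)).fun_add ((dim h).fun_mul (dim h))).congr_deriv (by ring)

theorem dHh (hp : Reg (u t)) (h : HasDerivAt u ξ t) :
    HasDerivAt (fun t => Hh μ (u t)) (2 * ip (u t).1 ξ.1 - μ / (1 + μ) * de μ (u t) ξ) t :=
  (dnsq h).fun_sub ((deps hp h).const_mul _)

theorem dh_eq (h : 0 < μ) (p ξ : St) :
    2 * ip p.1 ξ.1 - μ / (1 + μ) * de μ p ξ = μ / (1 + μ) * dh μ p ξ := by
  rw [dh]
  field_simp

theorem fld_re (μ : ℝ) (p : St) : (fld μ p).1.re = -p.1.im := by simp [fld]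

theorem fld_im (μ : ℝ) (p : St) : (fld μ p).1.im = p.1.re - μ * gg p := by simp [fld]

theorem lin_re (μ : ℝ) (p ξ : St) : (lin μ p ξ).1.re = -ξ.1.im := by simp [lin]

theorem lin_im (μ : ℝ) (p ξ : St) : (lin μ p ξ).1.im = ξ.1.re - μ * dg p ξ := by simp [lin]

theorem dW_fld (μ : ℝ) (p : St) : dW p (fld μ p) =
    -(rr p ^ 3 * WW p ^ 3 * p.1.im) - p.2.1 * WW p ^ 3 * (rr p ^ 2 * p.2.2) := by
  rw [dW, fld_re]; simp [fld]

theorem de_fld (μ : ℝ) (p : St) : de μ p (fld μ p) = -(2 * (1 + μ) * gg p * p.1.im) := by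
  rw [de, dW_fld, gg]; simp only [fld]; ring

theorem dh_fld (h : 0 < μ) (p : St) : dh μ p (fld μ p) = 0 := by
  rw [dh, de_fld, ip, fld_re, fld_im]
  field_simp
  ring

/-! ### Linearity -/

theorem dW_add (p ξ ζ : St) : dW p (ξ + ζ) = dW p ξ + dW p ζ := by simp [dW]; ring

theorem dW_smul (p ξ : St) (c : ℝ) : dW p (c • ξ) = c * dW p ξ := by simp [dW]; ring

theorem dg_add (p ξ ζ : St) : dg p (ξ + ζ) = dg p ξ + dg p ζ := by simp [dg, dW_add]; ring

theorem dg_smul (p ξ : St) (c : ℝ) : dg p (c • ξ) = c * dg p ξ := by simp [dg, dW_smul]; ring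

theorem de_add (μ : ℝ) (p ξ ζ : St) : de μ p (ξ + ζ) = de μ p ξ + de μ p ζ := by
  simp [de, dW_add]; ring

theorem de_smul (μ : ℝ) (p ξ : St) (c : ℝ) : de μ p (c • ξ) = c * de μ p ξ := by
  simp [de, dW_smul]; ring

theorem dh_add (μ : ℝ) (p ξ ζ : St) : dh μ p (ξ + ζ) = dh μ p ξ + dh μ p ζ := by
  simp [dh, de_add, ip]; ring

theorem dh_smul (μ : ℝ) (p ξ : St) (c : ℝ) : dh μ p (c • ξ) = c * dh μ p ξ := by
  simp [dh, de_smul, ip]; ring

theorem lin_add (μ : ℝ) (p ξ ζ : St) : lin μ p (ξ + ζ) = lin μ p ξ + lin μ p ζ := by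
  simp only [lin, dg_add, dW_add, Prod.mk_add_mk, Prod.fst_add, Prod.snd_add, add_re]
  congr 1
  · push_cast; ring
  · congr 1 <;> ring

theorem lin_smul (μ : ℝ) (p ξ : St) (c : ℝ) : lin μ p (c • ξ) = c • lin μ p ξ := by
  simp only [lin, dg_smul, dW_smul, Prod.smul_mk, Prod.smul_fst, Prod.smul_snd,
    smul_eq_mul, real_smul, re_ofReal_mul]
  congr 1
  · push_cast; ring
  · congr 1 <;> ring

theorem lin_sub (μ : ℝ) (p ξ ζ : St) : lin μ p (ξ - ζ) = lin μ p ξ - lin μ p ζ := by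
  rw [sub_eq_add_neg, lin_add, ← neg_one_smul ℝ, lin_smul, neg_one_smul, sub_eq_add_neg]

theorem Var.add (h : Var μ u x) (h' : Var μ u y) : Var μ u fun t => x t + y t :=
  fun t ht => lin_add μ _ _ _ ▸ (h t ht).fun_add (h' t ht)

theorem Var.sub (h : Var μ u x) (h' : Var μ u y) : Var μ u fun t => x t - y t :=
  fun t ht => lin_sub μ _ _ _ ▸ (h t ht).fun_sub (h' t ht)

theorem Var.smul (h : Var μ u x) (c : ℝ) : Var μ u fun t => c • x t :=
  fun t ht => lin_smul μ _ _ c ▸ (h t ht).fun_const_smul c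

theorem Glob.var (h : Glob μ u) : Var μ u fun t => fld μ (u t) := fun t ht => dfld ht (h.der t ht)

theorem Var.syn (h : Var μ u x) (hu : Glob μ u) (c : ℝ) : Var μ u (syn μ u x c) :=
  h.add (hu.var.smul c)

theorem syn_syn (μ : ℝ) (u x : ℝ → St) (c d : ℝ) : syn μ u (syn μ u x c) d = syn μ u x (c + d) := by
  funext t; simp only [syn, add_smul, add_assoc]

theorem syn_zero (μ : ℝ) (u x : ℝ → St) : syn μ u x 0 = x := by funext t; simp [syn]

theorem dh_syn (h : 0 < μ) (u x : ℝ → St) (c t : ℝ) :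
    dh μ (u t) (syn μ u x c t) = dh μ (u t) (x t) := by
  rw [syn, dh_add, dh_smul, dh_fld h, mul_zero, add_zero]

theorem syn_fst (μ : ℝ) (u x : ℝ → St) (c t : ℝ) :
    (syn μ u x c t).1 = (x t).1 + c * (I * ((u t).1 - (μ * gg (u t) : ℝ))) := by simp [syn, fld]

theorem syn_z (μ : ℝ) (u x : ℝ → St) (c t : ℝ) :
    (syn μ u x c t).2.1 = (x t).2.1 + c * (rr (u t) ^ 2 * (u t).2.2) := rfl

theorem syn_cz (hp : Reg (u t)) (hv : (u t).2.2 ≠ 0) :
    (syn μ u x (cz (u t) (x t)) t).2.1 = 0 := by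
  have : rr (u t) ≠ 0 := by linarith [hp.r.1]
  rw [syn_z, cz]
  field_simp
  ring

theorem cz_syn (hp : Reg (u t)) (hv : (u t).2.2 ≠ 0) :
    cz (u t) (syn μ u x c t) = cz (u t) (x t) - c := by
  have : rr (u t) ≠ 0 := by linarith [hp.r.1]
  rw [cz, syn_z, cz]
  field_simp
  ring

theorem Inh.sub_var (h : Inh μ u x F a b) (h' : Var μ u y) (hr : ∀ t ∈ Icc a b, Reg (u t)) :
    Inh μ u (fun t => x t - y t) F a b := fun t ht =>
  let ⟨φ, h1, h2⟩ := h t ht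
  ⟨φ, (h1.fun_sub (h' t (hr t ht))).congr_deriv (by rw [lin_sub]; abel), h2⟩

theorem Var.inh (h : Var μ u x) (hr : ∀ t ∈ Icc a b, Reg (u t)) : Inh μ u x 0 a b :=
  fun t ht => ⟨0, by simpa using h t (hr t ht), by simp⟩

theorem Inh.mono (h : Inh μ u x F a b) {a' b' : ℝ} (ha : a ≤ a') (hb : b' ≤ b) :
    Inh μ u x F a' b' := fun t ht => h t (Icc_subset_Icc ha hb ht)

/-! ### First integrals -/

theorem const_of {f : ℝ → ℝ} (h : ∀ t ∈ Icc a b, HasDerivAt f 0 t) {s t : ℝ} (hs : s ∈ Icc a b)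
    (ht : t ∈ Icc a b) : f s = f t := by
  have := fun t ht => norm_sub_le_of h (fun t _ => hasDerivAt_const t (0 : ℝ)) (by simp) t ht
  simp only [sub_self, norm_le_zero_iff, sub_eq_zero] at this
  rw [this s hs, this t ht]

theorem Glob.Hh_eq (h : Glob μ u) (hr : ∀ t ∈ Icc a b, Reg (u t)) {s t : ℝ} (hs : s ∈ Icc a b)
    (ht : t ∈ Icc a b) : Hh μ (u s) = Hh μ (u t) :=
  const_of (fun t ht => (dHh (hr t ht) (h.der t (hr t ht))).congr_deriv
    (by rw [dh_eq h.pos, dh_fld h.pos, mul_zero])) hs ht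

theorem Var.dh_eq (hx : Var μ u x) (h : Glob μ u) (hr : ∀ t ∈ Icc a b, Reg (u t)) {s t : ℝ}
    (hs : s ∈ Icc a b) (ht : t ∈ Icc a b) : dh μ (u s) (x s) = dh μ (u t) (x t) := by
  refine const_of (f := fun t => dh μ (u t) (x t)) (fun t ht => ?_) hs ht
  have p := hr t ht
  have h1 := h.der t p
  have h2 := hx t p
  have W := (dWW p h1).fun_pow 3
  refine ((((((dre h1).fun_mul (dre h2)).fun_add ((dim h1).fun_mul (dim h2))).const_mul _).fun_sub
    (((((((drr p h1).fun_pow 3).fun_mul W).fun_mul (dre h2)).fun_sub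
      (((d2 h1).fun_mul W).fun_mul (d2 h2))).const_mul _).fun_sub
      (((d3 h1).const_mul 2).fun_mul (d3 h2)))).congr_deriv ?_)
  have := h.pos.ne'
  simp only [fld_re, fld_im, lin_re, lin_im, dW_fld]
  simp only [fld, lin, gg, dg, dW]
  field_simp
  ring

end Pool.Agent.P.MP_9ae58c_an.B
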