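import Pool.Agent.P.MP_9ae58c_an.Num
import Pool.Agent.P.MP_9ae58c_an.B.Base

/-! Recursively enumerable predicates and uniformly computable families of reals (by cuts). -/

namespace Pool.Agent.P.MP_9ae58c_an.B

open Set

variable {α β : Type} [Primcodable α] [Primcodable β]

/-- recursively enumerable predicates -/
def RE (p : α → Prop) : Prop := ∃ R : α × ℕ → Prop, PrimrecPred R ∧ ∀ a, p a ↔ ∃ n, R (a, n)

/-- predicates that agree on `S` with a recursively enumerable one -/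
def REon (S : Set α) (p : α → Prop) : Prop := ∃ p', RE p' ∧ ∀ a ∈ S, (p a ↔ p' a)

/-- families of reals that are uniformly computable on `S` -/
def CF (S : Set α) (φ : α → ℝ) : Prop :=
  REon {x : α × ℤ × ℕ | x.1 ∈ S} (fun x => frac x.2 < φ x.1) ∧
    REon {x : α × ℤ × ℕ | x.1 ∈ S} (fun x => φ x.1 < frac x.2)

/-- families of states that are uniformly computable on `S` -/
def CS (S : Set α) (x : α → St) : Prop :=
  CF S (fun a => (x a).1.re) ∧ CF S (fun a => (x a).1.im) ∧ CF S (fun a => (x a).2.1) ∧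
    CF S (fun a => (x a).2.2)

/-- computable reals -/
def CR (x : ℝ) : Prop := CF univ fun _ : Unit => x

variable {S S' : Set α} {T : Set β} {p q : α → Prop} {φ ψ : α → ℝ}

theorem cf_forall_lt {f : α → ℕ} {R : α → ℕ → Prop} (hf : Primrec f)
    (hR : PrimrecPred fun p : α × ℕ => R p.1 p.2) : PrimrecPred fun a => ∀ x < f a, R a x := by
  have h : PrimrecRel fun (x : ℕ) (a : α) => R a x :=
    PrimrecPred.comp hR (Primrec.snd.pair Primrec.fst)
  exact (h.forall_mem_list.comp (Primrec.list_range.comp hf) Primrec.id).of_eq (by simp)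

theorem cf_exists_lt {f : α → ℕ} {R : α → ℕ → Prop} (hf : Primrec f)
    (hR : PrimrecPred fun p : α × ℕ => R p.1 p.2) : PrimrecPred fun a => ∃ x < f a, R a x := by
  have h : PrimrecRel fun (x : ℕ) (a : α) => R a x :=
    PrimrecPred.comp hR (Primrec.snd.pair Primrec.fst)
  exact (h.exists_mem_list.comp (Primrec.list_range.comp hf) Primrec.id).of_eq (by simp)

theorem cf_primrec_pow : Primrec₂ (fun a b : ℕ => a ^ b) :=
  Primrec₂.unpaired'.1 Nat.Primrec.pow

theorem cf_pp_true : PrimrecPred fun _ : α => True :=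
  (Primrec.eq.comp (Primrec.const (0 : ℕ)) (Primrec.const 0)).of_eq fun _ => by simp

theorem cf_un1 : Primrec fun x : α × ℕ => x.2.unpair.1 :=
  Primrec.fst.comp (Primrec.unpair.comp Primrec.snd)

theorem cf_un2 : Primrec fun x : α × ℕ => x.2.unpair.2 :=
  Primrec.snd.comp (Primrec.unpair.comp Primrec.snd)

theorem cf_dec (b₀ : β) : ∃ dec : ℕ → β, Primrec dec ∧ ∀ b, ∃ n, dec n = b :=
  ⟨fun m => (Encodable.decode m).getD b₀,
    Primrec.option_getD.comp Primrec.decode (Primrec.const b₀),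
    fun b => ⟨Encodable.encode b, by simp⟩⟩

theorem RE.of_eq (h : RE p) (e : ∀ a, p a ↔ q a) : RE q := by
  obtain ⟨R, hR, h⟩ := h
  exact ⟨R, hR, fun a => (e a).symm.trans (h a)⟩

theorem RE.prim (h : PrimrecPred p) : RE p :=
  ⟨fun x => p x.1, h.comp Primrec.fst, fun a => by simp⟩

theorem RE.pcomp {r : β → Prop} {f : α → β} (h : RE r) (hf : Primrec f) :
    RE fun a => r (f a) := by
  obtain ⟨R, hR, h⟩ := h
  exact ⟨fun x => R (f x.1, x.2), hR.comp ((hf.comp Primrec.fst).pair Primrec.snd),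
    fun a => h (f a)⟩

theorem RE.and (h : RE p) (h' : RE q) : RE fun a => p a ∧ q a := by
  obtain ⟨R, hR, h⟩ := h
  obtain ⟨R', hR', h'⟩ := h'
  refine ⟨fun x => R (x.1, x.2.unpair.1) ∧ R' (x.1, x.2.unpair.2),
    (hR.comp (Primrec.fst.pair cf_un1)).and (hR'.comp (Primrec.fst.pair cf_un2)), fun a => ?_⟩
  simp only [h, h']
  constructor
  · rintro ⟨⟨n, hn⟩, m, hm⟩
    exact ⟨Nat.pair n m, by simpa using ⟨hn, hm⟩⟩
  · rintro ⟨n, h1, h2⟩
    exact ⟨⟨_, h1⟩, _, h2⟩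

theorem RE.or (h : RE p) (h' : RE q) : RE fun a => p a ∨ q a := by
  obtain ⟨R, hR, h⟩ := h
  obtain ⟨R', hR', h'⟩ := h'
  refine ⟨fun x => R x ∨ R' x, hR.or hR', fun a => ?_⟩
  simp only [h, h', exists_or]

theorem RE.ex {r : α → β → Prop} (h : RE fun x : α × β => r x.1 x.2) : RE fun a => ∃ b, r a b := by
  rcases isEmpty_or_nonempty β with hβ | ⟨⟨b₀⟩⟩
  · exact (RE.prim cf_pp_true.not).of_eq fun a => by simp
  obtain ⟨R, hR, h⟩ := h
  obtain ⟨dec, hd, hs⟩ := cf_dec b₀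
  refine ⟨fun x => R ((x.1, dec x.2.unpair.1), x.2.unpair.2),
    hR.comp ((Primrec.fst.pair (hd.comp cf_un1)).pair cf_un2), fun a => ?_⟩
  constructor
  · rintro ⟨b, hb⟩
    obtain ⟨n, hn⟩ := (h (a, b)).1 hb
    obtain ⟨m, rfl⟩ := hs b
    exact ⟨Nat.pair m n, by simpa using hn⟩
  · rintro ⟨n, hn⟩
    exact ⟨_, (h (a, _)).2 ⟨_, hn⟩⟩

theorem RE.graph {f : α → β} (hf : Computable f) : RE fun x : α × β => f x.1 = x.2 := by
  obtain ⟨c, hc⟩ := Nat.Partrec.Code.exists_code.1 hf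
  refine ⟨fun x => Nat.Partrec.Code.evaln x.2 c (Encodable.encode x.1.1) =
      some (Encodable.encode x.1.2),
    Primrec.eq.comp (Nat.Partrec.Code.primrec_evaln.comp
      ((Primrec.snd.pair (Primrec.const c)).pair
        (Primrec.encode.comp (Primrec.fst.comp Primrec.fst))))
      (Primrec.option_some.comp (Primrec.encode.comp (Primrec.snd.comp Primrec.fst))),
    fun x => ?_⟩
  have h := @Nat.Partrec.Code.evaln_complete c (Encodable.encode x.1) (Encodable.encode x.2)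
  simp only [Option.mem_def] at h
  rw [← h, hc]
  simp [eq_comm]

theorem RE.comp {r : β → Prop} {f : α → β} (h : RE r) (hf : Computable f) :
    RE fun a => r (f a) :=
  (RE.ex (r := fun a b => f a = b ∧ r b) ((RE.graph hf).and (h.pcomp Primrec.snd))).of_eq
    fun a => by simp

theorem cf_bound {P : ℕ → ℕ → Prop} {m : ℕ} (h : ∀ i < m, ∃ n, P i n) :
    ∃ B, ∀ i < m, ∃ n < B, P i n := by
  induction m with
  | zero => exact ⟨0, by simp⟩
  | succ m ih =>
    obtain ⟨B, hB⟩ := ih fun i hi => h i (by omega)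
    obtain ⟨n, hn⟩ := h m (by omega)
    refine ⟨B + n + 1, fun i hi => ?_⟩
    rcases Nat.lt_succ_iff_lt_or_eq.1 hi with hi | rfl
    · obtain ⟨k, hk, hP⟩ := hB i hi
      exact ⟨k, by omega, hP⟩
    · exact ⟨n, by omega, hn⟩

theorem RE.ball {r : α → ℕ → Prop} {f : α → ℕ} (h : RE fun x : α × ℕ => r x.1 x.2)
    (hf : Computable f) : RE fun a => ∀ i < f a, r a i := by
  have key : RE fun x : α × ℕ => ∀ i < x.2, r x.1 i := by
    obtain ⟨R, hR, h⟩ := h
    refine ⟨fun y => ∀ i < y.1.2, ∃ n < y.2, R ((y.1.1, i), n), ?_, fun x => ?_⟩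
    · refine cf_forall_lt (Primrec.snd.comp Primrec.fst) ?_
      refine cf_exists_lt (Primrec.snd.comp Primrec.fst) ?_
      exact hR.comp (((Primrec.fst.comp (Primrec.fst.comp (Primrec.fst.comp Primrec.fst))).pair
        (Primrec.snd.comp Primrec.fst)).pair Primrec.snd)
    · constructor
      · intro hx
        exact cf_bound fun i hi => (h (x.1, i)).1 (hx i hi)
      · rintro ⟨B, hB⟩ i hi
        obtain ⟨n, -, hn⟩ := hB i hi
        exact (h (x.1, i)).2 ⟨n, hn⟩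
  exact key.comp (Computable.id.pair hf)

theorem RE.pchoice {r : α → β → Prop} (h : RE fun x : α × β => r x.1 x.2) :
    ∃ f : α →. β, Partrec f ∧ ∀ a, (∃ b, r a b) → ∃ b ∈ f a, r a b := by
  classical
  rcases isEmpty_or_nonempty β with hβ | ⟨⟨b₀⟩⟩
  · exact ⟨fun _ => Part.none, Partrec.none, fun a ⟨b, _⟩ => hβ.elim b⟩
  obtain ⟨R, hR, h⟩ := h
  obtain ⟨dec, hd, hs⟩ := cf_dec b₀
  let P : α → ℕ → Bool := fun a m => decide (R ((a, dec m.unpair.1), m.unpair.2))
  have hP : Primrec₂ P :=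
    (PrimrecPred.comp hR ((Primrec.fst.pair (hd.comp cf_un1)).pair cf_un2)).decide
  refine ⟨fun a => (Nat.rfind fun m => Part.some (P a m)).map fun m => dec m.unpair.1,
    (Partrec.rfind hP.to_comp.partrec₂).map (hd.comp cf_un1).to_comp.to₂, ?_⟩
  rintro a ⟨b, hb⟩
  obtain ⟨n, hn⟩ := (h (a, b)).1 hb
  obtain ⟨m, rfl⟩ := hs b
  obtain ⟨w, hw, -⟩ := Nat.rfind_min' (p := P a) (m := Nat.pair m n) (by simpa [P] using hn)
  refine ⟨_, Part.mem_map _ hw, (h (a, _)).2 ⟨w.unpair.2, ?_⟩⟩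
  have := Nat.rfind_spec hw
  simpa [P] using this

theorem RE.choice {r : α → β → Prop} (h : RE fun x : α × β => r x.1 x.2) (hx : ∀ a, ∃ b, r a b) :
    ∃ f : α → β, Computable f ∧ ∀ a, r a (f a) := by
  obtain ⟨f, hf, h⟩ := h.pchoice
  choose g hg hr using fun a => h a (hx a)
  exact ⟨g, hf.of_eq_tot hg, hr⟩

theorem RE.seq {r : ℕ → α → α → Prop} (h : RE fun x : ℕ × α × α => r x.1 x.2.1 x.2.2)
    (I : ℕ → α → Prop) (x₀ : α) (h0 : I 0 x₀) (hex : ∀ k x, I k x → ∃ y, r k x y)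
    (hst : ∀ k x y, I k x → r k x y → I (k + 1) y) :
    ∃ f : ℕ → α, Computable f ∧ f 0 = x₀ ∧ ∀ k, I k (f k) ∧ r k (f k) (f (k + 1)) := by
  obtain ⟨step, hstep, hs⟩ := RE.pchoice (r := fun (x : ℕ × α) (y : α) => r x.1 x.2 y)
    (h.pcomp ((Primrec.fst.comp Primrec.fst).pair
      ((Primrec.snd.comp Primrec.fst).pair Primrec.snd)))
  let sq : ℕ →. α := fun k =>
    Nat.rec (motive := fun _ => Part α) (Part.some x₀) (fun y IH => IH.bind fun i => step (y, i)) k
  have hsq : Partrec sq :=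
    Partrec.nat_rec (f := fun k : ℕ => k) (g := fun _ => Part.some x₀)
      (h := fun _ p => step p) Computable.id (Computable.const x₀).partrec
      (hstep.comp Computable.snd).to₂
  have hs' : ∀ k x, I k x → ∃ y ∈ step (k, x), r k x y := fun k x hx => hs (k, x) (hex k x hx)
  choose! nx hnx using hs'
  let f : ℕ → α := fun k => Nat.rec (motive := fun _ => α) x₀ (fun k x => nx k x) k
  have hI : ∀ k, I k (f k) := by
    intro k
    induction k with
    | zero => exact h0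
    | succ k ih => exact hst k _ _ ih (hnx k _ ih).2
  refine ⟨f, hsq.of_eq_tot fun k => ?_, rfl, fun k => ⟨hI k, (hnx k _ (hI k)).2⟩⟩
  induction k with
  | zero => exact Part.mem_some _
  | succ k ih => exact Part.mem_bind ih (hnx k _ (hI k)).1

theorem RE.on (h : RE p) : REon S p := ⟨p, h, fun _ _ => Iff.rfl⟩

theorem REon.re (h : REon univ p) : RE p := by
  obtain ⟨p', h, e⟩ := h
  exact h.of_eq fun a => (e a trivial).symm

theorem REon.prim (h : PrimrecPred p) : REon S p := (RE.prim h).on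

theorem REon.congr (h : REon S p) (e : ∀ a ∈ S, p a ↔ q a) : REon S q := by
  obtain ⟨p', h, e'⟩ := h
  exact ⟨p', h, fun a ha => (e a ha).symm.trans (e' a ha)⟩

theorem REon.mono (h : REon S p) (e : S' ⊆ S) : REon S' p := by
  obtain ⟨p', h, e'⟩ := h
  exact ⟨p', h, fun a ha => e' a (e ha)⟩

theorem REon.and (h : REon S p) (h' : REon S q) : REon S fun a => p a ∧ q a := by
  obtain ⟨p', h, e⟩ := h
  obtain ⟨q', h', e'⟩ := h'
  exact ⟨_, h.and h', fun a ha => and_congr (e a ha) (e' a ha)⟩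

theorem REon.or (h : REon S p) (h' : REon S q) : REon S fun a => p a ∨ q a := by
  obtain ⟨p', h, e⟩ := h
  obtain ⟨q', h', e'⟩ := h'
  exact ⟨_, h.or h', fun a ha => or_congr (e a ha) (e' a ha)⟩

theorem REon.comp {r : β → Prop} {f : α → β} (h : REon T r) (hf : Computable f)
    (m : ∀ a ∈ S, f a ∈ T) : REon S fun a => r (f a) := by
  obtain ⟨p', h, e⟩ := h
  exact ⟨_, h.comp hf, fun a ha => e _ (m a ha)⟩

theorem REon.ex {r : α → β → Prop} (h : REon {x : α × β | x.1 ∈ S} fun x => r x.1 x.2) :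
    REon S fun a => ∃ b, r a b := by
  obtain ⟨p', h, e⟩ := h
  exact ⟨_, RE.ex (r := fun a b => p' (a, b)) h, fun a ha => exists_congr fun b => e (a, b) ha⟩

theorem REon.ball {r : α → ℕ → Prop} {f : α → ℕ}
    (h : REon {x : α × ℕ | x.1 ∈ S ∧ x.2 < f x.1} fun x => r x.1 x.2) (hf : Computable f) :
    REon S fun a => ∀ i < f a, r a i := by
  obtain ⟨p', h, e⟩ := h
  exact ⟨_, RE.ball (r := fun a b => p' (a, b)) h hf,
    fun a ha => forall₂_congr fun i hi => e (a, i) ⟨ha, hi⟩⟩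

theorem REon.guard (h : REon S p) (h' : REon {a | a ∈ S ∧ p a} q) :
    REon S fun a => p a ∧ q a := by
  obtain ⟨p', h, e⟩ := h
  obtain ⟨q', h', e'⟩ := h'
  refine ⟨_, h.and h', fun a ha => ?_⟩
  rw [← e a ha]
  exact and_congr_right fun hp => e' a ⟨ha, hp⟩

theorem REon.imp (h : PrimrecPred p) (h' : REon {a | a ∈ S ∧ p a} q) :
    REon S fun a => p a → q a := by
  obtain ⟨q', h', e'⟩ := h'
  refine ⟨_, (RE.prim h.not).or h', fun a ha => ?_⟩
  rw [← imp_iff_not_or]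
  exact imp_congr_right fun hp => e' a ⟨ha, hp⟩

theorem exists_frac_btwn {x y : ℝ} (h : x < y) : ∃ q, x < frac q ∧ frac q < y := by
  obtain ⟨r, h1, h2⟩ := exists_rat_btwn h
  have e : frac (r.num, r.den - 1) = r := by
    rw [frac, Nat.cast_sub r.den_pos, Rat.cast_def]
    simp
  exact ⟨_, e ▸ h1, e ▸ h2⟩

theorem cf_frac_lt : PrimrecPred fun x : (ℤ × ℕ) × ℤ × ℕ => frac x.1 < frac x.2 := by
  have c1 : Primrec fun x : ℤ × ℕ => ((x.2 + 1 : ℕ) : ℤ) :=
    primrec_int_cast.comp (Primrec.succ.comp Primrec.snd)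
  refine (primrec_int_lt.comp
    (primrec_int_mul.comp (Primrec.fst.comp Primrec.fst) (c1.comp Primrec.snd))
    (primrec_int_mul.comp (Primrec.fst.comp Primrec.snd) (c1.comp Primrec.fst))).of_eq fun x => ?_
  rw [frac, frac, div_lt_div_iff₀ (by positivity) (by positivity)]
  exact_mod_cast Iff.rfl

/-- negative of a fraction -/
def qneg (a : ℤ × ℕ) : ℤ × ℕ := (-a.1, a.2)

/-- difference of two fractions -/
def qsub (a b : ℤ × ℕ) : ℤ × ℕ :=
  (a.1 * ((b.2 + 1 : ℕ) : ℤ) - b.1 * ((a.2 + 1 : ℕ) : ℤ), a.2 * b.2 + a.2 + b.2)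

/-- product of two fractions -/
def qmul (a b : ℤ × ℕ) : ℤ × ℕ := (a.1 * b.1, a.2 * b.2 + a.2 + b.2)

theorem frac_qneg (a : ℤ × ℕ) : frac (qneg a) = -frac a := by
  simp [frac, qneg, neg_div]

theorem cf_den (a b : ℕ) : ((a * b + a + b : ℕ) : ℝ) + 1 = (a + 1) * (b + 1) := by
  push_cast; ring

theorem frac_qsub (a b : ℤ × ℕ) : frac (qsub a b) = frac a - frac b := by
  simp only [frac, qsub, cf_den]
  push_cast
  field_simp

theorem frac_qmul (a b : ℤ × ℕ) : frac (qmul a b) = frac a * frac b := by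
  simp only [frac, qmul, cf_den]
  push_cast
  field_simp

theorem prim_qneg : Primrec qneg := (primrec_int_neg.comp Primrec.fst).pair Primrec.snd

theorem cf_prim_den : Primrec fun x : (ℤ × ℕ) × ℤ × ℕ => x.1.2 * x.2.2 + x.1.2 + x.2.2 :=
  Primrec.nat_add.comp (Primrec.nat_add.comp (Primrec.nat_mul.comp (Primrec.snd.comp Primrec.fst)
    (Primrec.snd.comp Primrec.snd)) (Primrec.snd.comp Primrec.fst)) (Primrec.snd.comp Primrec.snd)

theorem prim_qsub : Primrec₂ qsub := by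
  have c1 : Primrec fun x : ℤ × ℕ => ((x.2 + 1 : ℕ) : ℤ) :=
    primrec_int_cast.comp (Primrec.succ.comp Primrec.snd)
  exact (primrec_int_sub.comp
    (primrec_int_mul.comp (Primrec.fst.comp Primrec.fst) (c1.comp Primrec.snd))
    (primrec_int_mul.comp (Primrec.fst.comp Primrec.snd) (c1.comp Primrec.fst))).pair cf_prim_den

theorem prim_qmul : Primrec₂ qmul :=
  (primrec_int_mul.comp (Primrec.fst.comp Primrec.fst) (Primrec.fst.comp Primrec.snd)).pair
    cf_prim_den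

theorem CF.congr (h : CF S φ) (e : ∀ a ∈ S, φ a = ψ a) : CF S ψ :=
  ⟨h.1.congr fun x hx => by rw [e _ hx], h.2.congr fun x hx => by rw [e _ hx]⟩

theorem CF.mono (h : CF S φ) (e : S' ⊆ S) : CF S' φ :=
  ⟨h.1.mono fun _ hx => e hx, h.2.mono fun _ hx => e hx⟩

theorem CF.comp {χ : β → ℝ} {f : α → β} (h : CF T χ) (hf : Computable f)
    (m : ∀ a ∈ S, f a ∈ T) : CF S fun a => χ (f a) :=
  ⟨h.1.comp ((hf.comp Computable.fst).pair Computable.snd) fun _ hx => m _ hx,
    h.2.comp ((hf.comp Computable.fst).pair Computable.snd) fun _ hx => m _ hx⟩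

theorem CF.frac {f : α → ℤ × ℕ} (hf : Computable f) : CF S fun a => frac (f a) :=
  ⟨((RE.prim cf_frac_lt).comp (Computable.snd.pair (hf.comp Computable.fst))).on,
    ((RE.prim cf_frac_lt).comp ((hf.comp Computable.fst).pair Computable.snd)).on⟩

theorem CF.int {f : α → ℤ} (hf : Computable f) : CF S fun a => (f a : ℝ) :=
  (CF.frac (hf.pair (Computable.const 0))).congr fun a _ => by simp [MP_9ae58c_an.frac]

theorem CF.nat {f : α → ℕ} (hf : Computable f) : CF S fun a => (f a : ℝ) :=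
  (CF.int (primrec_int_cast.to_comp.comp hf)).congr fun a _ => by simp

theorem CF.ofNat (n : ℕ) : CF S fun _ => (n : ℝ) := CF.nat (Computable.const n)

theorem CF.zero : CF S fun _ => (0 : ℝ) := (CF.ofNat 0).congr fun _ _ => by simp

theorem CF.one : CF S fun _ => (1 : ℝ) := (CF.ofNat 1).congr fun _ _ => by simp

theorem CR.cf {x : ℝ} (h : CR x) : CF S fun _ => x :=
  CF.comp h (Computable.const ()) fun _ _ => trivial

theorem CF.lift (h : CF S φ) : CF {x : α × β | x.1 ∈ S} fun x => φ x.1 :=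
  h.comp Computable.fst fun _ hx => hx

theorem CF.lt (h : CF S φ) (h' : CF S ψ) : REon S fun a => φ a < ψ a := by
  refine (REon.ex (r := fun a q => φ a < MP_9ae58c_an.frac q ∧ MP_9ae58c_an.frac q < ψ a)
    (h.2.and h'.1)).congr fun a _ => ⟨?_, exists_frac_btwn⟩
  rintro ⟨q, h1, h2⟩
  exact h1.trans h2

theorem cf_qneg : Computable fun x : α × ℤ × ℕ => (x.1, qneg x.2) :=
  Computable.fst.pair (prim_qneg.to_comp.comp Computable.snd)

theorem CF.neg (h : CF S φ) : CF S fun a => -φ a :=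
  ⟨(h.2.comp cf_qneg fun _ hx => hx).congr fun x _ => by
      simp only [frac_qneg]; exact lt_neg,
    (h.1.comp cf_qneg fun _ hx => hx).congr fun x _ => by
      simp only [frac_qneg]; exact neg_lt⟩

theorem cf_of_lo (h : REon {x : α × ℤ × ℕ | x.1 ∈ S} fun x => frac x.2 < φ x.1)
    (h' : REon {x : α × ℤ × ℕ | x.1 ∈ S} fun x => frac x.2 < -φ x.1) : CF S φ :=
  ⟨h, (h'.comp cf_qneg fun _ hx => hx).congr fun x _ => by
    simp only [frac_qneg]; exact neg_lt_neg_iff⟩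

theorem cf_lo_add (h : CF S φ) (h' : CF S ψ) :
    REon {x : α × ℤ × ℕ | x.1 ∈ S} fun x => frac x.2 < φ x.1 + ψ x.1 := by
  have c1 : Computable fun y : (α × ℤ × ℕ) × ℤ × ℕ => (y.1.1, y.2) :=
    (Computable.fst.comp Computable.fst).pair Computable.snd
  have c2 : Computable fun y : (α × ℤ × ℕ) × ℤ × ℕ => (y.1.1, qsub y.1.2 y.2) :=
    (Computable.fst.comp Computable.fst).pair
      (prim_qsub.comp (Primrec.snd.comp Primrec.fst) Primrec.snd).to_comp
  refine (REon.ex (S := {x : α × ℤ × ℕ | x.1 ∈ S})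
    (r := fun x p => frac p < φ x.1 ∧ frac (qsub x.2 p) < ψ x.1)
    ((h.1.comp c1 fun _ hx => hx).and (h'.1.comp c2 fun _ hx => hx))).congr fun x _ => ?_
  simp only [frac_qsub]
  constructor
  · rintro ⟨p, h1, h2⟩
    linarith
  · intro hx
    obtain ⟨p, h1, h2⟩ := exists_frac_btwn (show frac x.2 - ψ x.1 < φ x.1 by linarith)
    exact ⟨p, h2, by linarith⟩

theorem CF.add (h : CF S φ) (h' : CF S ψ) : CF S fun a => φ a + ψ a :=
  cf_of_lo (cf_lo_add h h') ((cf_lo_add h.neg h'.neg).congr fun x _ => by rw [neg_add])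

theorem CF.sub (h : CF S φ) (h' : CF S ψ) : CF S fun a => φ a - ψ a :=
  (h.add h'.neg).congr fun _ _ => (sub_eq_add_neg _ _).symm

theorem cf_lo_mul (h : CF S φ) (H : CF {x : α × ℤ × ℕ | x.1 ∈ S} fun x => frac x.2 * ψ x.1) :
    REon {x : α × ℤ × ℕ | x.1 ∈ S} fun x => frac x.2 < φ x.1 * ψ x.1 := by
  have c1 : Computable fun y : (α × ℤ × ℕ) × (ℤ × ℕ) × ℤ × ℕ => (y.1.1, y.2.1) :=
    (Computable.fst.comp Computable.fst).pair (Computable.fst.comp Computable.snd)
  have c2 : Computable fun y : (α × ℤ × ℕ) × (ℤ × ℕ) × ℤ × ℕ => (y.1.1, y.2.2) :=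
    (Computable.fst.comp Computable.fst).pair (Computable.snd.comp Computable.snd)
  have c3 : Computable fun y : (α × ℤ × ℕ) × (ℤ × ℕ) × ℤ × ℕ => y.1.2 :=
    Computable.snd.comp Computable.fst
  refine (REon.ex (S := {x : α × ℤ × ℕ | x.1 ∈ S}) (r := fun x (p : (ℤ × ℕ) × ℤ × ℕ) =>
      (frac p.1 < φ x.1 ∧ φ x.1 < frac p.2) ∧
        frac x.2 < frac p.1 * ψ x.1 ∧ frac x.2 < frac p.2 * ψ x.1)
    (((h.1.comp c1 fun _ hx => hx).and (h.2.comp c2 fun _ hx => hx)).and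
      ((H.1.comp (c1.pair c3) fun _ hx => hx).and
        (H.1.comp (c2.pair c3) fun _ hx => hx)))).congr fun x _ => ?_
  constructor
  · rintro ⟨p, ⟨h1, h2⟩, h3, h4⟩
    rcases le_total 0 (ψ x.1) with h0 | h0
    · exact h3.trans_le (mul_le_mul_of_nonneg_right h1.le h0)
    · exact h4.trans_le (mul_le_mul_of_nonpos_right h2.le h0)
  · intro hx
    have ho : IsOpen {t : ℝ | frac x.2 < t * ψ x.1} := isOpen_lt continuous_const (by fun_prop)
    obtain ⟨l, u, ⟨h1, h2⟩, h3⟩ := mem_nhds_iff_exists_Ioo_subset.1 (ho.mem_nhds hx)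
    obtain ⟨p, p1, p2⟩ := exists_frac_btwn h1
    obtain ⟨r, r1, r2⟩ := exists_frac_btwn h2
    exact ⟨(p, r), ⟨p2, r1⟩, h3 ⟨p1, p2.trans h2⟩, h3 ⟨h1.trans r1, r2⟩⟩

theorem cf_mul (h : CF S φ) (H : CF {x : α × ℤ × ℕ | x.1 ∈ S} fun x => frac x.2 * ψ x.1) :
    CF S fun a => φ a * ψ a :=
  cf_of_lo (cf_lo_mul h H) ((cf_lo_mul h.neg H).congr fun x _ => by rw [neg_mul])

theorem CF.mul (h : CF S φ) (h' : CF S ψ) : CF S fun a => φ a * ψ a := by
  refine cf_mul h ((cf_mul (ψ := fun x : α × ℤ × ℕ => MP_9ae58c_an.frac x.2) h'.lift ?_).congr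
    fun x _ => mul_comm _ _)
  exact (CF.frac (prim_qmul.comp Primrec.snd (Primrec.snd.comp Primrec.fst)).to_comp).congr
    fun x _ => frac_qmul _ _

theorem CF.pow (h : CF S φ) (k : ℕ) : CF S fun a => φ a ^ k := by
  induction k with
  | zero => exact CF.one.congr fun _ _ => by simp
  | succ k ih => exact (ih.mul h).congr fun _ _ => (pow_succ _ _).symm

theorem CF.div (h : CF S φ) (h' : CF S ψ) (p : ∀ a ∈ S, 0 < ψ a) : CF S fun a => φ a / ψ a :=
  ⟨(((CF.frac Computable.snd).mul h'.lift).lt h.lift).congr fun _ hx =>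
      (lt_div_iff₀ (p _ hx)).symm,
    (h.lift.lt ((CF.frac Computable.snd).mul h'.lift)).congr fun _ hx =>
      (div_lt_iff₀ (p _ hx)).symm⟩

theorem CF.abs (h : CF S φ) : CF S fun a => |φ a| :=
  ⟨(h.1.or h.neg.1).congr fun _ _ => lt_abs.symm,
    (h.2.and h.neg.2).congr fun _ _ => by
      rw [abs_lt, neg_lt, and_comm]⟩

theorem cf_gen {G : α × β → Prop} {χ ε : α × β → ℝ} (hG : REon {x | x.1 ∈ S} G)
    (hχ : CF {x | x.1 ∈ S} χ) (hε : CF {x | x.1 ∈ S} ε)
    (h1 : ∀ a ∈ S, ∀ δ > 0, ∃ c, G (a, c) ∧ ε (a, c) < δ)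
    (h2 : ∀ a ∈ S, ∀ c, G (a, c) → |φ a - χ (a, c)| ≤ ε (a, c)) : CF S φ := by
  have c1 : Computable fun y : (α × ℤ × ℕ) × β => (y.1.1, y.2) :=
    (Computable.fst.comp Computable.fst).pair Computable.snd
  have c3 : Computable fun y : (α × ℤ × ℕ) × β => y.1.2 := Computable.snd.comp Computable.fst
  constructor
  · refine (REon.ex (S := {x : α × ℤ × ℕ | x.1 ∈ S})
      (r := fun x c => G (x.1, c) ∧ frac x.2 < χ (x.1, c) - ε (x.1, c))
      ((hG.comp c1 fun _ hx => hx).and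
        ((hχ.sub hε).1.comp (c1.pair c3) fun _ hx => hx))).congr fun x hx => ?_
    constructor
    · rintro ⟨c, g, h⟩
      linarith [(abs_le.1 (h2 _ hx c g)).1]
    · intro h
      obtain ⟨c, g, h'⟩ := h1 _ hx ((φ x.1 - frac x.2) / 2) (by linarith)
      exact ⟨c, g, by linarith [(abs_le.1 (h2 _ hx c g)).2]⟩
  · refine (REon.ex (S := {x : α × ℤ × ℕ | x.1 ∈ S})
      (r := fun x c => G (x.1, c) ∧ χ (x.1, c) + ε (x.1, c) < frac x.2)
      ((hG.comp c1 fun _ hx => hx).and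
        ((hχ.add hε).2.comp (c1.pair c3) fun _ hx => hx))).congr fun x hx => ?_
    constructor
    · rintro ⟨c, g, h⟩
      linarith [(abs_le.1 (h2 _ hx c g)).2]
    · intro h
      obtain ⟨c, g, h'⟩ := h1 _ hx ((frac x.2 - φ x.1) / 2) (by linarith)
      exact ⟨c, g, by linarith [(abs_le.1 (h2 _ hx c g)).1]⟩

theorem cf_inv {f : α → ℕ} (hf : Computable f) : CF S fun a => 1 / ((f a : ℝ) + 1) :=
  (CF.frac ((Computable.const 1).pair hf)).congr fun a _ => by simp [frac]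

theorem CF.of_rel {P : α × ℕ × ℤ × ℕ → Prop} (h : REon {x | x.1 ∈ S} P)
    (h1 : ∀ a ∈ S, ∀ n, ∃ q, P (a, n, q))
    (h2 : ∀ a ∈ S, ∀ n q, P (a, n, q) → |φ a - MP_9ae58c_an.frac q| ≤ 1 / (n + 1)) : CF S φ := by
  refine cf_gen h (CF.frac (Computable.snd.comp Computable.snd))
    (cf_inv (Computable.fst.comp Computable.snd)) (fun a ha δ hδ => ?_)
    fun a ha c g => h2 a ha c.1 c.2 g
  obtain ⟨n, hn⟩ := exists_nat_one_div_lt hδ
  obtain ⟨q, hq⟩ := h1 a ha n
  exact ⟨(n, q), hq, hn⟩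

theorem CF.lim {χ : α → ℕ → ℝ} (h : CF {x : α × ℕ | x.1 ∈ S} fun x => χ x.1 x.2)
    (e : ∀ a ∈ S, ∀ n, |φ a - χ a n| ≤ 1 / (n + 1)) : CF S φ := by
  refine cf_gen (REon.prim cf_pp_true) h (cf_inv Computable.snd) (fun a _ δ hδ => ?_)
    fun a ha c _ => e a ha c
  obtain ⟨n, hn⟩ := exists_nat_one_div_lt hδ
  exact ⟨n, trivial, hn⟩

theorem CR.compReal {x : ℝ} (h : CR x) : CompReal x := by
  have c : Computable fun y : ℕ × ℤ × ℕ => 2 ^ y.1 :=
    (cf_primrec_pow.comp (Primrec.const 2) Primrec.fst).to_comp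
  have c' : CF (univ : Set (ℕ × ℤ × ℕ)) fun y => (1 : ℝ) / 2 ^ y.1 :=
    (CF.one.div (CF.nat c) fun _ _ => by positivity).congr fun _ _ => by simp
  obtain ⟨f, hf, hr⟩ := RE.choice (r := fun (n : ℕ) q => |x - frac q| < 1 / 2 ^ n)
    ((h.cf.sub (CF.frac Computable.snd)).abs.lt c').re fun n => by
      have h0 : (0 : ℝ) < 1 / 2 ^ n := by positivity
      obtain ⟨q, h1, h2⟩ := exists_frac_btwn (show x < x + 1 / 2 ^ n by linarith)
      exact ⟨q, abs_lt.2 ⟨by linarith, by linarith⟩⟩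
  exact ⟨f, hf, fun n => (hr n).le⟩

theorem CS.comp {x : β → St} {f : α → β} (h : CS T x) (hf : Computable f)
    (m : ∀ a ∈ S, f a ∈ T) : CS S fun a => x (f a) :=
  ⟨h.1.comp hf m, h.2.1.comp hf m, h.2.2.1.comp hf m, h.2.2.2.comp hf m⟩

end Pool.Agent.P.MP_9ae58c_an.B
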