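import Pool.Agent.P.MP_9ae58c_an.B.Sym

/-! Excursions, growth bounds and the quantities followed along a variation. -/

namespace Pool.Agent.P.MP_9ae58c_an.B

open Set Filter Topology Complex

/-- the height along a curve -/
def zz (u : ℝ → St) : ℝ → ℝ := fun t => (u t).2.1

/-- the vertical velocity along a curve -/
def vv (u : ℝ → St) : ℝ → ℝ := fun t => (u t).2.2

/-- the variation synchronised at time `T` -/
noncomputable def sy (μ : ℝ) (u x : ℝ → St) (T : ℝ) : ℝ → St := syn μ u x (cz (u T) (x T))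

/-- size of a synchronised variation -/
noncomputable def nn (μ : ℝ) (p ξ : St) : ℝ := ‖ξ.1‖ + |dh μ p ξ|

/-- the time shift read on the velocity -/
noncomputable def Qv (p ξ : St) : ℝ := ξ.2.2 / (p.2.1 * WW p ^ 3)

/-- the averaged variation of the energy -/
noncomputable def Ev (μ : ℝ) (p ξ : St) : ℝ := de μ p ξ - 2 * (1 + μ) * gg p * ξ.1.re

/-- the weight of the energy in the time shift -/
noncomputable def wt (p : St) : ℝ := rr p ^ 2 * (2 - rr p ^ 2 / p.2.1 ^ 2) / (2 * WW p)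

/-- rising motion far from the binary, with gauge `η + v` -/
structure Gau (μ : ℝ) (u : ℝ → St) (η a b : ℝ) : Prop where
  sol : Sol μ u a b
  le : a ≤ b
  η0 : 0 ≤ η
  η1 : η ≤ 1
  far : ∀ t ∈ Icc a b, 3 ≤ (u t).2.1 ∧ 0 ≤ (u t).2.2 ∧ (η + (u t).2.2) ^ 2 / 70 ≤ WW (u t) ∧
    WW (u t) ≤ (η + (u t).2.2) ^ 2 / 8

/-- rising motion that starts on the plane of the binary -/
structure Up (μ : ℝ) (u : ℝ → St) (η a b : ℝ) : Prop where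
  sol : Sol μ u a b
  z0 : (u a).2.1 = 0
  ex : ∃ c ∈ Icc a (a + 3 / 2), (∀ t ∈ Icc a c, 0 ≤ (u t).2.1 ∧ (u t).2.1 ≤ 3 ∧ 2 ≤ (u t).2.2) ∧
    Gau μ u η c b

/-- an excursion from the plane to the plane, with apex at time `tp` -/
structure Exc (μ : ℝ) (u : ℝ → St) (η a tp b : ℝ) : Prop where
  up : Up μ u η a tp
  v0 : (u tp).2.2 = 0
  en : η ^ 2 = eps μ (u tp)
  pos : 0 < η
  dn : Up μ (rev u b) η 0 (b - tp)

/-- growth bound for the variational equation with source -/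
def Gr (μ : ℝ) (u : ℝ → St) (a b X : ℝ) : Prop :=
  ∀ (x : ℝ → St) (F a' b' : ℝ), a ≤ a' → b' ≤ b → 0 ≤ F → Inh μ u x F a' b' →
    ∀ s ∈ Icc a' b', ∀ t ∈ Icc a' b', ‖x t‖ ≤ X * (‖x s‖ + F)

/-- decay of the tidal coefficient away from the end points -/
def Pw (u : ℝ → St) (a b : ℝ) : Prop :=
  ∀ t ∈ Icc a b, Reg (u t) ∧ WW (u t) ^ 3 * (1 + min (t - a) (b - t)) ^ 2 ≤ 10 ^ 5

/-- bounds, Lipschitz bounds and Taylor bounds on the region `Reg` -/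
structure Lc (L : ℝ) : Prop where
  one : 1 ≤ L
  f0 : ∀ μ ∈ Icc (0 : ℝ) 1, ∀ p, Reg p → ‖fld μ p‖ ≤ L
  l0 : ∀ μ ∈ Icc (0 : ℝ) 1, ∀ p ξ, Reg p → ‖lin μ p ξ‖ ≤ L * ‖ξ‖
  f1 : ∀ μ ∈ Icc (0 : ℝ) 1, ∀ p q, Reg p → Reg q → ‖fld μ p - fld μ q‖ ≤ L * ‖p - q‖
  l1 : ∀ μ ∈ Icc (0 : ℝ) 1, ∀ p q ξ, Reg p → Reg q → ‖lin μ p ξ - lin μ q ξ‖ ≤ L * ‖p - q‖ * ‖ξ‖
  f2 : ∀ μ ∈ Icc (0 : ℝ) 1, ∀ p q, Reg p → Reg q →
    ‖fld μ q - fld μ p - lin μ p (q - p)‖ ≤ L * ‖q - p‖ ^ 2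
  g0 : ∀ p ξ, Reg p → |dg p ξ| ≤ L * ‖ξ‖
  e1 : ∀ μ ∈ Icc (0 : ℝ) 1, ∀ p q ξ, Reg p → Reg q → |de μ p ξ - de μ q ξ| ≤ L * ‖p - q‖ * ‖ξ‖
  e2 : ∀ μ ∈ Icc (0 : ℝ) 1, ∀ p q, Reg p → Reg q →
    |eps μ q - eps μ p - de μ p (q - p)| ≤ L * ‖q - p‖ ^ 2

/-- the relative error of an excursion -/
noncomputable def tt (μ A w : ℝ) : ℝ := A / w ^ 3 + μ * w ^ 3 + A ^ 2 / (μ * w ^ 5)

/-- the amplification that does not come from the energy -/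
noncomputable def RR (A η w : ℝ) : ℝ := A / η ^ 3 + 1 / w ^ 5

/-- an orbit that comes from infinity with a circular binary and reaches the plane at time `0` -/
structure Tail (μ K₀ : ℝ) (h : ℝ → St) : Prop where
  gl : Glob μ h
  H0 : Hh μ (h 0) = 0
  up : ∀ b, 2 ≤ b → Up μ (rev h 0) 0 0 b
  dec : ∀ t, 0 ≤ t → ‖(h (-t)).1‖ ≤ K₀ * μ / (1 + t) ^ 2

/-- a symmetric orbit homoclinic to infinity -/
structure Hom (μ K₀ : ℝ) (h : ℝ → St) (T : ℝ) : Prop where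
  tail : Tail μ K₀ h
  exc : ∃ η tp, Exc μ (fp h) η 0 tp T ∧ μ / 100 ≤ η ^ 2 ∧ η ^ 2 ≤ 4000 * μ ∧ μ / 5 ≤ ‖(h tp).1‖
  sym : rev h T = h

/-- the data of a strong shear -/
structure Shr (K : ℝ) (m ω n : ℂ) : Prop where
  nm : ‖m‖ = 1
  nω : ‖ω‖ = 1
  nn : ‖n + I * ω * m‖ ≤ 1 / 10 ^ 4
  K1 : 10 ^ 4 ≤ K

/-- the shear -/
noncomputable def shr (K : ℝ) (m ω n β : ℂ) : ℂ := (K * ip m β : ℝ) * n + ω * β

/-- the linearised passage along the homoclinic orbit, from time `-T₀` to time `T + T₀` -/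
def Lin (μ : ℝ) (h : ℝ → St) (T T₀ K G : ℝ) (m ω n : ℂ) : Prop :=
  Shr K m ω n ∧ K ≤ G ∧ ∀ x, Var μ h x → (x 0).2.1 = 0 →
    ‖bb (sh (sy μ h x T) T) T₀ - shr K m ω n (bb x (-T₀))‖ ≤
      ‖bb x (-T₀)‖ / 10 ^ 4 + G * |dh μ (h 0) (x 0)|

/-- the double passage of an orbit that reaches the plane at time `0` with a small amplitude -/
def PassAt (μ K C : ℝ) (m ω n : ℂ) (l ρ : ℝ) : Prop :=
  ∀ u, Up μ (rev u 0) 0 0 (1 / l ^ 3) → |Hh μ (u 0)| ≤ 2 * ρ ^ 2 → ‖bb u (-(1 / l ^ 3))‖ ≤ 2 * ρ →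
    ∃ η tp T, Exc μ (fp u) η 0 tp T ∧ μ / 100 ≤ η ^ 2 ∧ T ≤ C ∧ ‖(u T).1‖ ≤ 57 * μ ∧
      Up μ (sh u T) 0 0 (1 / l ^ 3) ∧
      ‖bb (sh u T) (1 / l ^ 3) - shr K m ω n (bb u (-(1 / l ^ 3)))‖ ≤ 5 * ρ / 10 ^ 4 ∧
      ∀ x, Var μ u x → (x 0).2.1 = 0 → |cz (u T) (x T)| + ‖sy μ u x T T‖ ≤ C * ‖x 0‖ ∧
        ‖bb (sh (sy μ u x T) T) (1 / l ^ 3) - shr K m ω n (bb x (-(1 / l ^ 3)))‖ ≤
          2 * ‖bb x (-(1 / l ^ 3))‖ / 10 ^ 4 + C * |dh μ (u 0) (x 0)|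

/-- arrival on the plane at time `0`, with a variation dominated by a time shift -/
structure Arr (μ l ρ : ℝ) (u x : ℝ → St) : Prop where
  var : Var μ u x
  up : Up μ (rev u 0) 0 0 (1 / l ^ 3)
  nH : |Hh μ (u 0) - ρ ^ 2| ≤ l * ρ ^ 2
  b1 : 9 / 10 * ρ ≤ ‖bb u (-(1 / l ^ 3))‖
  b2 : ‖bb u (-(1 / l ^ 3))‖ ≤ 2 * ρ
  cone : ‖bb (sy μ u x 0) (-(1 / l ^ 3)) - cz (u 0) (x 0) * I * bb u (-(1 / l ^ 3))‖ ≤
    ρ * |cz (u 0) (x 0)| / 10 ^ 4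
  nh : |dh μ (u 0) (x 0)| ≤ l * ρ ^ 2 * |cz (u 0) (x 0)|

/-- a long excursion that starts at time `0` with amplitude of order `ρ` -/
structure Lg (μ l ρ a : ℝ) (u : ℝ → St) (η tp b : ℝ) : Prop where
  exc : Exc μ u η 0 tp b
  e1 : a * ρ ^ 2 ≤ 2 * μ * η ^ 2
  e2 : μ * η ^ 2 ≤ 3 * ρ ^ 2
  t1 : 1 / l ^ 3 ≤ tp
  t2 : tp + 1 / l ^ 3 ≤ b
  nb : ‖bb u (1 / l ^ 3)‖ ≤ 2 * ρ
  cl : ∀ t ∈ Icc (1 / l ^ 3) (b - 1 / l ^ 3), ‖bb u t - bb u (1 / l ^ 3)‖ ≤ l * ρ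
  up : Up μ (rev u b) 0 0 (1 / l ^ 3)

/-- a piece of orbit that ends on the plane, with bounds on its length and on its derivative -/
structure Seg (μ : ℝ) (u : ℝ → St) (a b U D : ℝ) : Prop where
  sol : Sol μ u a b
  pw : Pw u a b
  le : a ≤ b
  len : b ≤ a + D
  v2 : 2 ≤ |(u b).2.2|
  amp : ∀ x, Var μ u x → (x a).2.1 = 0 → |cz (u b) (x b)| + ‖sy μ u x b b‖ ≤ U * ‖x a‖

/-- the time shift of a variation at the crossing number `i` -/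
noncomputable def cs (u x : ℝ → St) (i : ℕ) : ℝ := cz (u (cr (zz u) i)) (x (cr (zz u) i))

/-- the amplitude of `y` at time `θ` from the crossing number `i` of `u` -/
noncomputable def am (u y : ℝ → St) (i : ℕ) (θ : ℝ) : ℂ := bb (sh y (cr (zz u) i)) θ

/-- the orbit has reached its arrival number `k` -/
structure Gd (μ l ρ Z : ℝ) (u x : ℝ → St) (k : ℕ) : Prop where
  alt : Alt (zz u) (2 * k + 1)
  sol : Sol μ u 0 (cr (zz u) (2 * k + 1))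
  ht : ∀ t ∈ Icc 0 (cr (zz u) (2 * k + 1)), |(u t).2.1| ≤ Z
  lag : 1 / l ^ 3 ≤ cr (zz u) (2 * k + 1)
  arr : Arr μ l ρ (sh u (cr (zz u) (2 * k + 1))) (sh x (cr (zz u) (2 * k + 1)))

/-- the departure that follows the arrival number `k` -/
structure Dep (μ K C : ℝ) (m ω n : ℂ) (l ρ Z : ℝ) (u x : ℝ → St) (k : ℕ) : Prop where
  alt : Alt (zz u) (2 * k + 2)
  sol : Sol μ u 0 (cr (zz u) (2 * k + 2) + 1 / l ^ 3)
  ht : ∀ t ∈ Icc 0 (cr (zz u) (2 * k + 2)), |(u t).2.1| ≤ Z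
  up : Up μ (sh u (cr (zz u) (2 * k + 2))) 0 0 (1 / l ^ 3)
  na : ‖(u (cr (zz u) (2 * k + 2))).1‖ ≤ 57 * μ
  nH : |Hh μ (u (cr (zz u) (2 * k + 2))) - ρ ^ 2| ≤ l * ρ ^ 2
  nb : ‖am u u (2 * k + 2) (1 / l ^ 3) - shr K m ω n (am u u (2 * k + 1) (-(1 / l ^ 3)))‖ ≤
    5 * ρ / 10 ^ 4
  nd : ‖am u (sy μ u x (cr (zz u) (2 * k + 2))) (2 * k + 2) (1 / l ^ 3) -
    shr K m ω n (am u (sy μ u x (cr (zz u) (2 * k + 1))) (2 * k + 1) (-(1 / l ^ 3)))‖ ≤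
      5 * ρ * |cs u x (2 * k + 1)| / 10 ^ 4
  nc : |cs u x (2 * k + 2)| ≤ 2 * |cs u x (2 * k + 1)|
  nh : |dh μ (u (cr (zz u) (2 * k + 2))) (x (cr (zz u) (2 * k + 2)))| ≤
    l * ρ ^ 2 * |cs u x (2 * k + 1)|
  n1 : ‖sy μ u x (cr (zz u) (2 * k + 1)) (cr (zz u) (2 * k + 1))‖ ≤ |cs u x (2 * k + 1)|
  n2 : ‖sy μ u x (cr (zz u) (2 * k + 2)) (cr (zz u) (2 * k + 2))‖ ≤ |cs u x (2 * k + 1)|
  seg : Seg μ u (cr (zz u) (2 * k + 1)) (cr (zz u) (2 * k + 2)) C C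

/-- a family of orbits with its derivative in the parameter -/
structure Fam (μ : ℝ) (u x : ℝ → ℝ → St) : Prop where
  gl : ∀ s, Glob μ (u s)
  var : ∀ s, Var μ (u s) (x s)
  cont : ∀ s, 0 < s → ∀ t, ContinuousAt (fun y : ℝ × ℝ => u y.1 y.2) (s, t)
  der : ∀ s, 0 < s → HasDerivAt (fun s => u s 0) (x s 0) s

/-- the initial point -/
noncomputable def ini (ρ z₀ s₀ s : ℝ) : St := (((1 + ρ) * s / s₀ - 1 : ℝ), z₀ * s₀ / s, 0)

/-- its derivative in the parameter -/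
noncomputable def ini' (ρ z₀ s₀ s : ℝ) : St := (((1 + ρ) / s₀ : ℝ), -(z₀ * s₀ / s ^ 2), 0)

/-- a far away point with a circular binary and almost parabolic velocity -/
noncomputable def pj (μ j : ℝ) : St := (0, 16 * (1 + μ) * j ^ 2, -(1 / j))

/-- the first crossing of the orbit of `pj` -/
noncomputable def xj (Y : ℝ → St → ℝ → St) (μ j : ℝ) : St :=
  Y μ (pj μ j) (cr (zz (Y μ (pj μ j))) 1)

/-- the escaping orbits -/
def Esc (μ : ℝ) (u : ℝ → St) : Prop := (∀ t, 0 ≤ t → Adm μ (u t)) ∧ Tendsto (zz u) atTop atTop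

variable {μ η a b c t T X tp : ℝ} {p ξ : St} {u x y : ℝ → St}

theorem Glob.mu (h : Glob μ u) : μ ∈ Icc (0 : ℝ) 1 := ⟨h.pos.le, h.le.trans (by norm_num)⟩

theorem Sol.reg (h : Sol μ u a b) : ∀ t ∈ Icc a b, Reg (u t) := fun t ht => (h.adm t ht).reg

theorem Sol.rg (h : Sol μ u a b) : ∀ t ∈ Icc a b, Rg (u t) := fun t ht => (h.adm t ht).rg

theorem Sol.der (h : Sol μ u a b) (ht : t ∈ Icc a b) : HasDerivAt u (fld μ (u t)) t :=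
  h.gl.der t (h.reg t ht)

theorem Var.sy (h : Var μ u x) (hu : Glob μ u) (T : ℝ) : Var μ u (sy μ u x T) := h.syn hu _

theorem sy_z (hp : Reg (u T)) (hv : (u T).2.2 ≠ 0) : (sy μ u x T T).2.1 = 0 := syn_cz hp hv

theorem sy_syn (hp : Reg (u T)) (hv : (u T).2.2 ≠ 0) : sy μ u (syn μ u x c) T = sy μ u x T := by
  rw [sy, cz_syn hp hv, syn_syn, add_sub_cancel, sy]

theorem sy_of_z (h : (x T).2.1 = 0) : sy μ u x T = x := by simp [sy, cz, h, syn_zero]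

theorem sh_sy (μ : ℝ) (u x : ℝ → St) (T c : ℝ) :
    sh (sy μ u x (T + c)) c = sy μ (sh u c) (sh x c) T := rfl

theorem rev_sy (μ : ℝ) (u x : ℝ → St) (S T : ℝ) :
    rev (sy μ u x (T - S)) T = sy μ (rev u T) (rev x T) S := by
  rw [sy, rev_syn, sy, rev, rev, cz_Rv]

theorem fp_sy (μ : ℝ) (u x : ℝ → St) (T : ℝ) : fp (sy μ u x T) = sy μ (fp u) (fp x) T := by
  rw [sy, fp_syn, sy, fp, fp, cz_Fp]

@[simp] theorem Qv_Rv (p ξ : St) : Qv (Rv p) (Rv ξ) = -Qv p ξ := by simp [Qv, neg_div]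

@[simp] theorem Ev_Rv (μ : ℝ) (p ξ : St) : Ev μ (Rv p) (Rv ξ) = Ev μ p ξ := by simp [Ev]

@[simp] theorem nn_Rv (μ : ℝ) (p ξ : St) : nn μ (Rv p) (Rv ξ) = nn μ p ξ := by simp [nn]

@[simp] theorem nn_Fp (μ : ℝ) (p ξ : St) : nn μ (Fp p) (Fp ξ) = nn μ p ξ := by simp [nn]

theorem Ev_syn (μ : ℝ) (u x : ℝ → St) (c t : ℝ) :
    Ev μ (u t) (syn μ u x c t) = Ev μ (u t) (x t) := by
  simp only [Ev, syn, de_add, de_smul, de_fld, Prod.fst_add, Prod.smul_fst, add_re, real_smul,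
    re_ofReal_mul, fld_re]
  ring

theorem Qv_syn (hp : Reg (u t)) (hz : (u t).2.1 ≠ 0) :
    Qv (u t) (syn μ u x c t) = Qv (u t) (x t) - 8 * (1 + μ) * rr (u t) ^ 2 * c := by
  have := hp.W.ne'
  simp only [Qv, syn, fld, Prod.snd_add, Prod.smul_snd, smul_eq_mul]
  field_simp
  ring

theorem Adm.nn_le (h : Adm μ p) (ξ : St) : nn μ p ξ ≤ 243 * ‖ξ‖ := by
  linarith [h.dh_le ξ, n1 ξ, show nn μ p ξ = ‖ξ.1‖ + |dh μ p ξ| from rfl]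

theorem Adm.le_nn (h : Adm μ p) (hz : p.2.1 = 0) (hξ : ξ.2.1 = 0) : ‖ξ‖ ≤ 28 * nn μ p ξ :=
  h.cross_norm hz hξ

theorem Gau.mono (h : Gau μ u η a b) {a' b' : ℝ} (ha : a ≤ a') (hab : a' ≤ b') (hb : b' ≤ b) :
    Gau μ u η a' b' :=
  ⟨h.sol.mono ha hb, hab, h.η0, h.η1, fun t ht => h.far t (Icc_subset_Icc ha hb ht)⟩

theorem Gau.sh (h : Gau μ u η a b) (c : ℝ) : Gau μ (sh u c) η (a - c) (b - c) :=
  ⟨h.sol.sh c, by linarith [h.le], h.η0, h.η1,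
    fun t ht => h.far (t + c) ⟨by linarith [ht.1], by linarith [ht.2]⟩⟩

theorem Gau.G (h : Gau μ u η a b) (ht : t ∈ Icc a b) :
    0 < η + (u t).2.2 ∧ η + (u t).2.2 ≤ 5.01 := by
  obtain ⟨-, h2, -, h4⟩ := h.far t ht
  refine ⟨(add_nonneg h.η0 h2).lt_of_ne' fun e => ?_,
    by linarith [h.η1, (abs_le.1 (h.sol.adm t ht).v).2]⟩
  rw [e] at h4
  linarith [(h.sol.adm t ht).W]

/-- the gauge decreases at the rate of its fourth power -/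
theorem Gau.dv (h : Gau μ u η a b) (ht : t ∈ Icc a b) :
    HasDerivAt (fun t => η + (u t).2.2) (fld μ (u t)).2.2 t ∧
      (η + (u t).2.2) ^ 4 / 700 ≤ -(fld μ (u t)).2.2 ∧
      -(fld μ (u t)).2.2 ≤ (η + (u t).2.2) ^ 4 / 7 := by
  obtain ⟨h1, -, h3, h4⟩ := h.far t ht
  obtain ⟨a1, a2⟩ := (h.sol.adm t ht).acc h1
  have w := (h.sol.adm t ht).W
  have b1 : ((η + (u t).2.2) ^ 2 / 70) ^ 2 ≤ WW (u t) ^ 2 := by gcongr
  have b2 : WW (u t) ^ 2 ≤ ((η + (u t).2.2) ^ 2 / 8) ^ 2 := by gcongr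
  have b3 := sq_nonneg ((η + (u t).2.2) ^ 2)
  exact ⟨(d3 (h.sol.der ht)).const_add η, by nlinarith, by nlinarith⟩

theorem Gau.anti (h : Gau μ u η a b) {s t : ℝ} (hs : s ∈ Icc a b) (ht : t ∈ Icc a b) (e : s ≤ t) :
    (u t).2.2 ≤ (u s).2.2 := by
  have := le_of_deriv (fun t ht => (h.dv ht).1.fun_neg)
    (fun t ht => le_trans (by positivity) (h.dv ht).2.1) hs ht e
  linarith

theorem Up.le (h : Up μ u η a b) : a ≤ b :=
  let ⟨_, h1, _, h3⟩ := h.ex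
  h1.1.trans h3.le

theorem Up.η0 (h : Up μ u η a b) : 0 ≤ η :=
  let ⟨_, _, _, h3⟩ := h.ex
  h3.η0

theorem Up.η1 (h : Up μ u η a b) : η ≤ 1 :=
  let ⟨_, _, _, h3⟩ := h.ex
  h3.η1

theorem Up.gau (h : Up μ u η a b) {s t : ℝ} (hs : a + 3 / 2 ≤ s) (e : s ≤ t) (ht : t ≤ b) :
    Gau μ u η s t :=
  let ⟨_, h1, _, h3⟩ := h.ex
  h3.mono (h1.2.trans hs) e ht

theorem Up.mono (h : Up μ u η a b) (h1 : a + 3 / 2 ≤ t) (h2 : t ≤ b) : Up μ u η a t :=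
  let ⟨c, e1, e2, e3⟩ := h.ex
  ⟨h.sol.mono le_rfl h2, h.z0, c, e1, e2, e3.mono le_rfl (e1.2.trans h1) h2⟩

theorem Up.sh (h : Up μ u η a b) (c : ℝ) : Up μ (sh u c) η (a - c) (b - c) :=
  let ⟨d, e1, e2, e3⟩ := h.ex
  ⟨h.sol.sh c, by simpa [B.sh] using h.z0, d - c, ⟨by linarith [e1.1], by linarith [e1.2]⟩,
    fun t ht => e2 (t + c) ⟨by linarith [ht.1], by linarith [ht.2]⟩, e3.sh c⟩

theorem Up.nonneg (h : Up μ u η a b) (ht : t ∈ Icc a b) : 0 ≤ (u t).2.1 ∧ 0 ≤ (u t).2.2 := by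
  obtain ⟨c, -, e2, e3⟩ := h.ex
  rcases le_total t c with e | e
  · exact ⟨(e2 t ⟨ht.1, e⟩).1, by linarith [(e2 t ⟨ht.1, e⟩).2.2]⟩
  · exact ⟨by linarith [(e3.far t ⟨e, ht.2⟩).1], (e3.far t ⟨e, ht.2⟩).2.1⟩

theorem Up.v0 (h : Up μ u η a b) : 2 ≤ (u a).2.2 :=
  let ⟨_, e1, e2, _⟩ := h.ex
  (e2 a ⟨le_rfl, e1.1⟩).2.2

theorem Up.zb (h : Up μ u η a b) : 3 ≤ (u b).2.1 :=
  let ⟨_, _, _, e3⟩ := h.ex
  (e3.far b ⟨e3.le, le_rfl⟩).1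

theorem Exc.sh (h : Exc μ u η a tp b) (c : ℝ) : Exc μ (sh u c) η (a - c) (tp - c) (b - c) :=
  ⟨h.up.sh c, by simpa [B.sh] using h.v0, by simpa [B.sh] using h.en, h.pos,
    by simpa [rev_sh] using h.dn⟩

theorem Exc.rev (h : Exc μ u η a tp b) : Exc μ (rev u b) η 0 (b - tp) (b - a) := by
  refine ⟨h.dn, by simpa [B.rev] using h.v0, by simpa [B.rev] using h.en, h.pos, ?_⟩
  have e : B.rev (B.rev u b) (b - a) = B.sh u a := by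
    funext t; simp only [B.rev, B.sh, Rv_Rv]; congr 1; ring
  simpa [e] using h.up.sh a

theorem Exc.sol (h : Exc μ u η a tp b) : Sol μ u a b :=
  h.up.sol.trans (by simpa using h.dn.sol.rev b)

theorem Gr.mono (h : Gr μ u a b X) {a' b' X' : ℝ} (ha : a ≤ a') (hb : b' ≤ b) (hX : X ≤ X') :
    Gr μ u a' b' X' := fun x F c d h1 h2 h3 h4 s hs t ht =>
  (h x F c d (ha.trans h1) (h2.trans hb) h3 h4 s hs t ht).trans (by gcongr)

theorem Gr.sh (h : Gr μ u a b X) (c : ℝ) : Gr μ (sh u c) (a - c) (b - c) X :=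
  fun x F a' b' h1 h2 h3 h4 s hs t ht => by
    have := h (B.sh x (-c)) F (a' - -c) (b' - -c) (by linarith) (by linarith) h3
      (by simpa [sh_sh] using h4.sh (-c)) (s + c) ⟨by linarith [hs.1], by linarith [hs.2]⟩ (t + c)
      ⟨by linarith [ht.1], by linarith [ht.2]⟩
    simpa [B.sh] using this

theorem Gr.rev (h : Gr μ u a b X) (T : ℝ) : Gr μ (rev u T) (T - b) (T - a) X :=
  fun x F a' b' h1 h2 h3 h4 s hs t ht => by
    have := h (B.rev x T) F (T - b') (T - a') (by linarith) (by linarith) h3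
      (by simpa using h4.rev T) (T - s) ⟨by linarith [hs.2], by linarith [hs.1]⟩ (T - t)
      ⟨by linarith [ht.2], by linarith [ht.1]⟩
    simpa [B.rev] using this

theorem Gr.var (h : Gr μ u a b X) (hx : Var μ u x) (hr : ∀ t ∈ Icc a b, Reg (u t)) {s t : ℝ}
    (hs : s ∈ Icc a b) (ht : t ∈ Icc a b) : ‖x t‖ ≤ X * ‖x s‖ := by
  simpa using h x 0 a b le_rfl le_rfl le_rfl (hx.inh hr) s hs t ht

theorem Pw.sh (h : Pw u a b) (c : ℝ) : Pw (sh u c) (a - c) (b - c) := fun t ht => by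
  have := h (t + c) ⟨by linarith [ht.1], by linarith [ht.2]⟩
  rwa [show t + c - a = t - (a - c) by ring, show b - (t + c) = b - c - t by ring] at this

theorem cz_sub (p ξ ζ : St) : cz p (ξ - ζ) = cz p ξ - cz p ζ := by
  simp only [cz, Prod.snd_sub, Prod.fst_sub]; ring

theorem sy_sub (μ : ℝ) (u x y : ℝ → St) (T t : ℝ) :
    sy μ u (fun t => x t - y t) T t = sy μ u x T t - sy μ u y T t := by
  simp only [sy, syn, cz_sub, sub_smul]; abel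

theorem Alt.zero {Z : ℝ → ℝ} {k : ℕ} (h : Alt Z (k + 1)) : Z (cr Z (k + 1)) = 0 := by
  obtain ⟨h1, h2⟩ := h.1 k k.lt_succ_self
  have a1 := h2 _ ⟨by linarith, le_rfl⟩
  have a2 := h.2 _ ⟨le_rfl, by linarith⟩
  rw [sub_self, min_eq_right (by linarith : (0 : ℝ) ≤ _), min_eq_right zero_le_one] at a1
  rw [sub_self, min_eq_right zero_le_one, pow_succ] at a2
  have : (-1 : ℝ) ^ k * Z (cr Z (k + 1)) = 0 := by linarith
  simpa using this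

theorem Alt.nonneg {Z : ℝ → ℝ} {k : ℕ} (h : Alt Z k) : 0 ≤ cr Z k :=
  le_trans (by positivity) h.1.le

theorem shr_sub (K : ℝ) (m ω n β γ : ℂ) :
    shr K m ω n (β - γ) = shr K m ω n β - shr K m ω n γ := by
  simp only [shr, ip_sub]; push_cast; ring

theorem Shr.norm_le {K : ℝ} {m ω n : ℂ} (h : Shr K m ω n) (β : ℂ) :
    ‖shr K m ω n β‖ ≤ 1.001 * K * ‖β‖ := by
  have h1 : ‖n‖ ≤ 1.0001 := by
    have := norm_sub_le (n + I * ω * m) (I * ω * m)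
    simp only [add_sub_cancel_right, norm_mul, norm_I, h.nm, h.nω] at this
    linarith [h.nn]
  have h2 : |ip m β| ≤ ‖β‖ := by simpa [h.nm] using abs_ip_le m β
  have K1 := h.K1
  refine (norm_add_le _ _).trans ?_
  rw [norm_mul, norm_mul, norm_real, Real.norm_eq_abs, abs_mul, abs_of_pos (by linarith), h.nω]
  have : K * |ip m β| * ‖n‖ ≤ K * ‖β‖ * 1.0001 := by gcongr
  nlinarith [norm_nonneg β]

end Pool.Agent.P.MP_9ae58c_an.B
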