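import Pool.Agent.P.MP_9ae58c_an.B.IfA

section

/-! Step POLY. -/

namespace Pool.Agent.P.MP_9ae58c_an.B

open Set Filter Topology Complex

section

variable {E : Type*} [NormedAddCommGroup E] [NormedSpace ℝ E] {f f' : ℝ → E} {a b G : ℝ}
  {K K' : ℝ → ℝ}

/-- Gronwall inequality with a variable rate -/
theorem POLY_fw (hf : ∀ t ∈ Icc a b, HasDerivAt f (f' t) t)
    (hK : ∀ t ∈ Icc a b, HasDerivAt K (K' t) t) (h0 : ∀ t ∈ Icc a b, 0 ≤ K' t) (hG : 0 ≤ G)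
    (h : ∀ t ∈ Icc a b, ‖f' t‖ ≤ K' t * ‖f t‖ + G) (hab : a ≤ b) :
    ‖f b‖ ≤ Real.exp (K b - K a) * (‖f a‖ + G * (b - a)) := by
  refine le_of_forall_pos_le_add fun ε hε => ?_
  have hb : 0 < Real.exp (K b - K a) * (b - a + 1) := by
    have : 0 < b - a + 1 := by linarith
    positivity
  set δ := ε / (Real.exp (K b - K a) * (b - a + 1)) with hδ
  have e : 0 < δ := div_pos hε hb
  have hB : ∀ t ∈ Icc a b, HasDerivAt
      (fun u => Real.exp (K u - K a) * (‖f a‖ + (G + δ) * (u - a)))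
      (Real.exp (K t - K a) * K' t * (‖f a‖ + (G + δ) * (t - a)) +
        Real.exp (K t - K a) * (G + δ)) t := fun t ht =>
    (((hK t ht).sub_const (K a)).exp.fun_mul
      ((((hasDerivAt_id' t).sub_const a).const_mul (G + δ)).const_add ‖f a‖)).congr_deriv (by simp)
  have := image_norm_le_of_norm_deriv_right_lt_deriv_boundary' (f := f) (f' := f') (contOn_of hf)
    (fun u hu => (hf u (Ico_subset_Icc_self hu)).hasDerivWithinAt) (by simp) (contOn_of hB)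
    (fun u hu => (hB u (Ico_subset_Icc_self hu)).hasDerivWithinAt)
    (fun u hu e1 => by
      have hu' := Ico_subset_Icc_self hu
      have h3 := le_of_deriv hK h0 ⟨le_rfl, hab⟩ hu' hu.1
      have h4 : 1 ≤ Real.exp (K u - K a) := Real.one_le_exp (by linarith)
      have h5 := h u hu'
      rw [e1] at h5
      nlinarith) ⟨hab, le_rfl⟩
  have h6 : δ * (Real.exp (K b - K a) * (b - a + 1)) = ε := div_mul_cancel₀ _ hb.ne'
  nlinarith [mul_pos e (Real.exp_pos (K b - K a))]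

/-- the same in both directions -/
theorem POLY_two (hf : ∀ t ∈ Icc a b, HasDerivAt f (f' t) t)
    (hK : ∀ t ∈ Icc a b, HasDerivAt K (K' t) t) (h0 : ∀ t ∈ Icc a b, 0 ≤ K' t) (hG : 0 ≤ G)
    (h : ∀ t ∈ Icc a b, ‖f' t‖ ≤ K' t * ‖f t‖ + G) {s t : ℝ} (hs : s ∈ Icc a b)
    (ht : t ∈ Icc a b) : ‖f t‖ ≤ Real.exp (K b - K a) * (‖f s‖ + G * (b - a)) := by
  have hab := hs.1.trans hs.2
  have ia : a ∈ Icc a b := ⟨le_rfl, hab⟩
  have ib : b ∈ Icc a b := ⟨hab, le_rfl⟩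
  have key : ∀ {c d y z : ℝ}, c ∈ Icc a b → d ∈ Icc a b → c ≤ d → 0 ≤ z →
      y ≤ Real.exp (K d - K c) * (z + G * (d - c)) →
      y ≤ Real.exp (K b - K a) * (z + G * (b - a)) := fun hc hd e hz hy => hy.trans (by
    have h1 := le_of_deriv hK h0 ia hc hc.1
    have h2 := le_of_deriv hK h0 hd ib hd.2
    have h3 := sub_nonneg.2 e
    gcongr
    exacts [hd.2, hc.1])
  rcases le_total s t with e | e
  · have i : Icc s t ⊆ Icc a b := Icc_subset_Icc hs.1 ht.2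
    exact key hs ht e (norm_nonneg _) (POLY_fw (fun u hu => hf u (i hu)) (fun u hu => hK u (i hu))
      (fun u hu => h0 u (i hu)) hG (fun u hu => h u (i hu)) e)
  · have i : Icc t s ⊆ Icc a b := Icc_subset_Icc ht.1 hs.2
    have m : ∀ u ∈ Icc (-s) (-t), -u ∈ Icc a b := fun u hu =>
      i ⟨by linarith [hu.2], by linarith [hu.1]⟩
    have := POLY_fw (G := G) (rev_der fun u hu => hf u (i hu))
      (fun u hu => (rev_der (fun u hu => hK u (i hu)) u hu).fun_neg)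
      (fun u hu => by simpa using h0 _ (m u hu)) hG (fun u hu => by simpa using h _ (m u hu))
      (neg_le_neg e)
    refine key ht hs e (norm_nonneg _) ?_
    simp only [neg_neg] at this
    rwa [show -K t - -K s = K s - K t by ring, show -t - -s = s - t by ring] at this

end

variable {μ τ N F : ℝ} {p ξ φ : St}

theorem POLY_W (hp : Reg p) : WW p ≤ 5 / 4 := by nlinarith [hp.rW, hp.r.1, hp.W]

theorem POLY_dW (hp : Reg p) (ξ : St) :
    |dW p ξ| ≤ rr p ^ 3 * WW p ^ 3 * ‖ξ.1‖ + WW p ^ 2 * |ξ.2.1| := by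
  have w := hp.W
  have r : 0 < rr p := by linarith [hp.r.1]
  refine (abs_sub _ _).trans (add_le_add ?_ ?_)
  · rw [abs_mul, abs_of_pos (by positivity)]
    gcongr
    exact abs_re_le_norm _
  · rw [abs_mul, abs_mul, abs_of_pos (pow_pos w 3), pow_succ' _ 2, ← mul_assoc]
    have := hp.zW
    have : |p.2.1| * WW p * WW p ^ 2 ≤ 1 * WW p ^ 2 := by gcongr
    gcongr
    linarith

theorem POLY_dg (hp : Reg p) (h1 : ‖ξ.1‖ ≤ N) (h2 : |ξ.2.1| ≤ N) :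
    |dg p ξ| ≤ 200 * WW p ^ 3 * N := by
  have w := hp.W
  obtain ⟨r1, r2⟩ := hp.r
  have r : 0 < rr p := by linarith
  have rw := hp.rW
  have N0 := (norm_nonneg _).trans h1
  have a1 : |24 * rr p ^ 3 * WW p ^ 2 * dW p ξ| ≤
      24 * rr p ^ 3 * WW p ^ 2 * (rr p ^ 3 * WW p ^ 3 * N + WW p ^ 2 * N) := by
    rw [abs_mul, abs_of_pos (by positivity)]
    gcongr
    exact (POLY_dW hp ξ).trans (by gcongr)
  have a2 : |24 * rr p ^ 4 * WW p ^ 3 * ξ.1.re| ≤ 24 * (4 / 3) ^ 4 * WW p ^ 3 * N := by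
    rw [abs_mul, abs_of_pos (by positivity)]
    gcongr
    exact (abs_re_le_norm _).trans h1
  have a3 : rr p ^ 4 * (rr p * WW p) ^ 2 * (WW p ^ 3 * N) ≤ (4 / 3) ^ 4 * 1 ^ 2 * (WW p ^ 3 * N) := by
    gcongr
  have a4 : rr p ^ 2 * (rr p * WW p) * (WW p ^ 3 * N) ≤ (4 / 3) ^ 2 * 1 * (WW p ^ 3 * N) := by
    gcongr
  have a5 : 0 ≤ WW p ^ 3 * N := by positivity
  exact (abs_sub _ _).trans (by nlinarith)

theorem POLY_acc (hμ : μ ∈ Icc (0 : ℝ) 1) (hp : Reg p) :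
    |(lin μ p ξ).2.2| ≤ 200 * (WW p ^ 3 * |ξ.2.1| + WW p ^ 2 * ‖ξ.1‖) := by
  have w := hp.W
  obtain ⟨r1, r2⟩ := hp.r
  obtain ⟨m0, m1⟩ := hμ
  have r : 0 < rr p := by linarith
  have rw := hp.rW
  have zw := hp.zW
  have a1 : |rr p ^ 2 * WW p ^ 3 * ξ.2.1| ≤ (4 / 3) ^ 2 * (WW p ^ 3 * |ξ.2.1|) := by
    rw [abs_mul, abs_of_pos (by positivity), mul_assoc]
    gcongr
  have a2 : |2 * rr p ^ 3 * p.2.1 * WW p ^ 3 * ξ.1.re| ≤
      2 * (4 / 3) ^ 3 * 1 * (WW p ^ 2 * ‖ξ.1‖) := by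
    rw [show 2 * rr p ^ 3 * p.2.1 * WW p ^ 3 * ξ.1.re =
      2 * rr p ^ 3 * (p.2.1 * WW p) * (WW p ^ 2 * ξ.1.re) by ring, abs_mul, abs_mul,
      abs_of_pos (by positivity : 0 < 2 * rr p ^ 3), abs_mul, abs_mul, abs_of_pos w,
      abs_of_pos (pow_pos w 2)]
    gcongr
    exact abs_re_le_norm _
  have a3 : |3 * rr p ^ 2 * p.2.1 * WW p ^ 2 * dW p ξ| ≤
      3 * rr p ^ 2 * 1 * (WW p * (rr p ^ 3 * WW p ^ 3 * ‖ξ.1‖ + WW p ^ 2 * |ξ.2.1|)) := by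
    rw [show 3 * rr p ^ 2 * p.2.1 * WW p ^ 2 * dW p ξ =
      3 * rr p ^ 2 * (p.2.1 * WW p) * (WW p * dW p ξ) by ring, abs_mul, abs_mul,
      abs_of_pos (by positivity : 0 < 3 * rr p ^ 2), abs_mul, abs_mul, abs_of_pos w]
    gcongr
    exact POLY_dW hp ξ
  have a4 : rr p ^ 3 * (rr p * WW p) ^ 2 * (WW p ^ 2 * ‖ξ.1‖) ≤
      (4 / 3) ^ 3 * 1 ^ 2 * (WW p ^ 2 * ‖ξ.1‖) := by gcongr
  have a5 : rr p ^ 2 * (WW p ^ 3 * |ξ.2.1|) ≤ (4 / 3) ^ 2 * (WW p ^ 3 * |ξ.2.1|) := by gcongr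
  have a6 : 0 ≤ WW p ^ 3 * |ξ.2.1| := by positivity
  have a7 : 0 ≤ WW p ^ 2 * ‖ξ.1‖ := by positivity
  have a8 : |rr p ^ 2 * WW p ^ 3 * ξ.2.1 - 2 * rr p ^ 3 * p.2.1 * WW p ^ 3 * ξ.1.re
      + 3 * rr p ^ 2 * p.2.1 * WW p ^ 2 * dW p ξ| ≤
      12 * (WW p ^ 3 * |ξ.2.1| + WW p ^ 2 * ‖ξ.1‖) :=
    (abs_add_le _ _).trans ((add_le_add_left (abs_sub _ _) _).trans (by nlinarith))
  simp only [lin]
  rw [abs_neg, abs_mul, abs_of_pos (by positivity)]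
  nlinarith [abs_nonneg (rr p ^ 2 * WW p ^ 3 * ξ.2.1 - 2 * rr p ^ 3 * p.2.1 * WW p ^ 3 * ξ.1.re
      + 3 * rr p ^ 2 * p.2.1 * WW p ^ 2 * dW p ξ)]

theorem POLY_vel (hp : Reg p) : |(lin μ p ξ).2.1| ≤ 2 * |ξ.2.2| + 48 * ‖ξ.1‖ := by
  obtain ⟨r1, r2⟩ := hp.r
  have r : 0 < rr p := by linarith
  have a1 : |rr p ^ 2 * ξ.2.2| ≤ (4 / 3) ^ 2 * |ξ.2.2| := by
    rw [abs_mul, abs_of_pos (by positivity)]
    gcongr
  have a2 : |2 * rr p ^ 3 * p.2.2 * ξ.1.re| ≤ 2 * (4 / 3) ^ 3 * 10 * ‖ξ.1‖ := by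
    rw [abs_mul, abs_mul, abs_of_pos (by positivity)]
    gcongr
    exacts [hp.2, abs_re_le_norm _]
  exact (abs_sub _ _).trans (by nlinarith [abs_nonneg ξ.2.2, norm_nonneg ξ.1])

/-- the weighted variation -/
noncomputable def POLY_f (a : ℝ) (x : ℝ → St) (t : ℝ) : St :=
  (((1 + t - a : ℝ) : ℂ) * bb x t, (x t).2.1, (1 + t - a) * (x t).2.2)

/-- its derivative -/
noncomputable def POLY_d (a : ℝ) (x : ℝ → St) (ξ : St) (t : ℝ) : St :=
  (bb x t + ((1 + t - a : ℝ) : ℂ) * (ex (-t) * (ξ.1 - I * (x t).1)), ξ.2.1,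
    (x t).2.2 + (1 + t - a) * ξ.2.2)

theorem POLY_der {a t : ℝ} {x : ℝ → St} (h : HasDerivAt x ξ t) :
    HasDerivAt (POLY_f a x) (POLY_d a x ξ t) t := by
  have e : HasDerivAt (fun t : ℝ => 1 + t - a) 1 t := ((hasDerivAt_id' t).const_add 1).sub_const a
  exact ((e.ofReal_comp.fun_mul (dbb h)).congr_deriv (by simp)).prodMk ((d2 h).prodMk
    ((e.fun_mul (d3 h)).congr_deriv (by simp)))

theorem POLY_norm {a t : ℝ} (x : ℝ → St) (h : a ≤ t) :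
    (1 + t - a) * ‖(x t).1‖ ≤ ‖POLY_f a x t‖ ∧ |(x t).2.1| ≤ ‖POLY_f a x t‖ ∧
      (1 + t - a) * |(x t).2.2| ≤ ‖POLY_f a x t‖ ∧ ‖x t‖ ≤ ‖POLY_f a x t‖ ∧
      ‖POLY_f a x t‖ ≤ (1 + t - a) * ‖x t‖ := by
  have e : 0 < 1 + t - a := by linarith
  have e1 : ‖(POLY_f a x t).1‖ = (1 + t - a) * ‖(x t).1‖ := by
    simp only [POLY_f, norm_mul, norm_real, norm_bb, Real.norm_eq_abs, abs_of_pos e]
  have e3 : |(POLY_f a x t).2.2| = (1 + t - a) * |(x t).2.2| := by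
    simp only [POLY_f, abs_mul, abs_of_pos e]
  have b1 := n1 (POLY_f a x t)
  have b2 : |(x t).2.1| ≤ _ := n2 (POLY_f a x t)
  have b3 := n3 (POLY_f a x t)
  rw [e1] at b1
  rw [e3] at b3
  refine ⟨b1, b2, b3, norm_le_of (by nlinarith [norm_nonneg (x t).1]) b2
    (by nlinarith [abs_nonneg (x t).2.2]), norm_le_of ?_ ?_ ?_⟩
  · rw [e1]; gcongr; exact n1 _
  · exact (n2 (x t)).trans (by nlinarith [norm_nonneg (x t)])
  · rw [e3]; gcongr; exact n3 _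

theorem POLY_rate {a t : ℝ} {x : ℝ → St} (hμ : μ ∈ Icc (0 : ℝ) 1) (hp : Reg p) (h : a ≤ t)
    (hw : WW p ^ 3 * (1 + t - a) ^ 2 ≤ 10 ^ 5) (hφ : ‖φ‖ ≤ F) :
    ‖POLY_d a x (lin μ p (x t) + φ) t‖ ≤
      (10 ^ 8 : ℕ) * (1 / (1 + t - a)) * ‖POLY_f a x t‖ + (1 + t - a) * F := by
  obtain ⟨b1, b2, b3, -, -⟩ := POLY_norm x h
  have e : 1 ≤ 1 + t - a := by linarith
  have F0 := (norm_nonneg _).trans hφ
  have w := hp.W
  have w1 := POLY_W hp
  have c1 := (n1 φ).trans hφ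
  have c2 := (n2 φ).trans hφ
  have c3 := (n3 φ).trans hφ
  have N0 := norm_nonneg (POLY_f a x t)
  simp only [POLY_d]
  generalize 1 + t - a = τ at *
  generalize ‖POLY_f a x t‖ = N at *
  have e0 : 0 < τ := by linarith
  obtain ⟨M, rfl⟩ : ∃ M, N = τ * M := ⟨N / τ, by field_simp⟩
  have M0 : 0 ≤ M := nonneg_of_mul_nonneg_right N0 e0
  replace b1 := le_of_mul_le_mul_left b1 e0
  replace b3 := le_of_mul_le_mul_left b3 e0
  have eM : ((10 ^ 8 : ℕ) : ℝ) * (1 / τ) * (τ * M) = 10 ^ 8 * M := by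
    push_cast; field_simp; ring
  have w2 : WW p ^ 2 * τ ≤ 10 ^ 5 := by nlinarith [mul_nonneg w.le (sq_nonneg (WW p * τ - 1))]
  have w3 : WW p ^ 3 * τ ^ 2 * M ≤ 10 ^ 5 * M := by gcongr
  have w4 : WW p ^ 2 * τ * M ≤ 10 ^ 5 * M := by gcongr
  rw [eM]
  refine norm_le_of ?_ ?_ ?_
  · have g := POLY_dg (ξ := x t) (N := τ * M) hp (by nlinarith) b2
    have e2 : (lin μ p (x t) + φ).1 - I * (x t).1 = φ.1 - I * (μ * dg p (x t) : ℝ) := by
      simp only [lin, Prod.fst_add]; ring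
    have e3 : ‖φ.1 - I * (μ * dg p (x t) : ℝ)‖ ≤ F + 1 * (200 * WW p ^ 3 * (τ * M)) := by
      refine (norm_sub_le _ _).trans (add_le_add c1 ?_)
      rw [norm_mul, norm_I, one_mul, norm_real, Real.norm_eq_abs, abs_mul, abs_of_nonneg hμ.1]
      gcongr
      exact hμ.2
    refine (norm_add_le _ _).trans ?_
    rw [e2, norm_bb, norm_mul, norm_mul, norm_ex, one_mul, norm_real, Real.norm_eq_abs,
      abs_of_pos e0]
    nlinarith [mul_le_mul_of_nonneg_left e3 e0.le]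
  · have g := POLY_vel (μ := μ) (ξ := x t) hp
    refine (abs_add_le _ _).trans ?_
    nlinarith
  · have g := POLY_acc (ξ := x t) hμ hp
    have e3 : |(lin μ p (x t) + φ).2.2| ≤ 200 * (WW p ^ 3 * (τ * M) + WW p ^ 2 * M) + F :=
      (abs_add_le _ _).trans (add_le_add (g.trans (by gcongr)) c3)
    refine (abs_add_le _ _).trans ?_
    rw [abs_mul, abs_of_pos e0]
    nlinarith [mul_le_mul_of_nonneg_left e3 e0.le]

/-- the bound on a piece where the tidal coefficient decays -/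
theorem POLY_half {u : ℝ → St} {a b T : ℝ} (hμ : μ ∈ Icc (0 : ℝ) 1)
    (h : ∀ t ∈ Icc a b, Reg (u t) ∧ WW (u t) ^ 3 * (1 + t - a) ^ 2 ≤ 10 ^ 5) (hT : 1 + b - a ≤ T) :
    Gr μ u a b (T ^ (10 ^ 8 + 2)) := by
  intro x F c d h1 h2 h3 h4 s hs t ht
  have i : Icc c d ⊆ Icc a b := Icc_subset_Icc h1 h2
  have cd := hs.1.trans hs.2
  have T1 : 1 ≤ T := by linarith
  choose! φ p1 p2 using h4
  have hK : ∀ v ∈ Icc c d, HasDerivAt (fun v => ((10 ^ 8 : ℕ) : ℝ) * Real.log (1 + v - a))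
      ((10 ^ 8 : ℕ) * (1 / (1 + v - a))) v := fun v hv =>
    ((((hasDerivAt_id' v).const_add 1).sub_const a).log
      (by linarith [(i hv).1] : 0 < 1 + v - a).ne').const_mul _
  have k := POLY_two (G := T * F) (fun v hv => POLY_der (a := a) (p1 v hv)) hK
    (fun v hv => by have : 0 < 1 + v - a := by linarith [(i hv).1]
                    positivity) (by positivity)
    (fun v hv => (POLY_rate hμ (h v (i hv)).1 (i hv).1 (h v (i hv)).2 (p2 v hv)).trans (by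
      gcongr
      linarith [(i hv).2])) hs ht
  have l1 : 0 ≤ Real.log (1 + c - a) := Real.log_nonneg (by linarith)
  have l2 : Real.log (1 + d - a) ≤ Real.log T := Real.log_le_log (by linarith) (by linarith)
  have l3 : Real.exp (((10 ^ 8 : ℕ) : ℝ) * Real.log (1 + d - a) -
      (10 ^ 8 : ℕ) * Real.log (1 + c - a)) ≤ T ^ 10 ^ 8 := by
    rw [← Real.exp_log (by positivity : 0 < T ^ 10 ^ 8), Real.log_pow]
    generalize 10 ^ 8 = n
    gcongr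
    nlinarith [Nat.cast_nonneg (α := ℝ) n]
  have q1 := (POLY_norm x (i ht).1).2.2.2.1
  have q2 := (POLY_norm x (i hs).1).2.2.2.2
  have q3 : ‖POLY_f a x s‖ + T * F * (d - c) ≤ T ^ 2 * (‖x s‖ + F) := by
    have : (1 + s - a) * ‖x s‖ ≤ T ^ 2 * ‖x s‖ := by
      gcongr
      nlinarith [(i hs).2]
    have : T * F * (d - c) ≤ T * F * T := by
      gcongr
      linarith
    nlinarith
  have q4 : 0 ≤ d - c := sub_nonneg.2 cd
  refine (q1.trans k).trans ?_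
  rw [pow_add, mul_assoc (T ^ _)]
  exact mul_le_mul l3 q3 (by positivity) (by positivity)

theorem POLY_trans {u : ℝ → St} {a m b X : ℝ} (h1 : Gr μ u a m X) (h2 : Gr μ u m b X)
    (hX : 1 ≤ X) : Gr μ u a b (2 * X ^ 2) := by
  intro x F c d ha hb h3 h4 s hs t ht
  have k1 : ∀ s ∈ Icc c d, ∀ t ∈ Icc c d, s ≤ m → t ≤ m → ‖x t‖ ≤ X * (‖x s‖ + F) :=
    fun s hs t ht e1 e2 => h1 x F c (min d m) ha (min_le_right _ _) h3
      (h4.mono le_rfl (min_le_left _ _)) s ⟨hs.1, le_min hs.2 e1⟩ t ⟨ht.1, le_min ht.2 e2⟩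
  have k2 : ∀ s ∈ Icc c d, ∀ t ∈ Icc c d, m ≤ s → m ≤ t → ‖x t‖ ≤ X * (‖x s‖ + F) :=
    fun s hs t ht e1 e2 => h2 x F (max c m) d (le_max_right _ _) hb h3
      (h4.mono (le_max_left _ _) le_rfl) s ⟨max_le hs.1 e1, hs.2⟩ t ⟨max_le ht.1 e2, ht.2⟩
  have n0 := norm_nonneg (x s)
  have k3 : X * (‖x s‖ + F) ≤ 2 * X ^ 2 * (‖x s‖ + F) := by
    gcongr
    nlinarith
  have k4 : ‖x m‖ ≤ X * (‖x s‖ + F) → ‖x t‖ ≤ X * (‖x m‖ + F) →
      ‖x t‖ ≤ 2 * X ^ 2 * (‖x s‖ + F) := fun e1 e2 => by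
    have : X * (‖x m‖ + F) ≤ X * (X * (‖x s‖ + F) + X * (‖x s‖ + F)) := by
      gcongr
      nlinarith
    nlinarith
  rcases le_total s m with e1 | e1 <;> rcases le_total t m with e2 | e2
  · exact (k1 s hs t ht e1 e2).trans k3
  · have hm : m ∈ Icc c d := ⟨hs.1.trans e1, e2.trans ht.2⟩
    exact k4 (k1 s hs m hm e1 le_rfl) (k2 m hm t ht le_rfl e2)
  · have hm : m ∈ Icc c d := ⟨ht.1.trans e2, e1.trans hs.2⟩
    exact k4 (k2 s hs m hm e1 le_rfl) (k1 m hm t ht le_rfl e2)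
  · exact (k2 s hs t ht e1 e2).trans k3

theorem p_POLY :
    S_POLY := by
  obtain ⟨n, hn⟩ : ∃ n : ℕ, ∀ μ ∈ Icc (0 : ℝ) 1, ∀ (u : ℝ → St) (a b T : ℝ),
      (∀ t ∈ Icc a b, Reg (u t) ∧ WW (u t) ^ 3 * (1 + t - a) ^ 2 ≤ 10 ^ 5) → 1 + b - a ≤ T →
      Gr μ u a b (T ^ n) := ⟨_, fun _ hμ _ _ _ _ h hT => POLY_half hμ h hT⟩
  refine ⟨n * 2 + 1, by omega, fun μ hμ u a b h => ?_⟩
  rcases lt_or_ge b a with e | e
  · exact fun x F c d h1 h2 _ _ s hs => absurd (hs.1.trans hs.2) (by linarith)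
  have h1 := hn μ hμ u a ((a + b) / 2) (2 + b - a) (fun t ht => by
    have := h t ⟨ht.1, by linarith [ht.2]⟩
    rwa [min_eq_left (by linarith [ht.2]), ← add_sub_assoc] at this) (by linarith)
  have h2 := (hn μ hμ (rev u b) 0 ((b - a) / 2) (2 + b - a) (fun t ht => by
    have := h (b - t) ⟨by linarith [ht.2], by linarith [ht.1]⟩
    rw [min_eq_right (by linarith [ht.2]), sub_sub_cancel] at this
    simpa [rev] using this) (by linarith)).rev b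
  rw [rev_rev, sub_zero, show b - (b - a) / 2 = (a + b) / 2 by ring] at h2
  refine (POLY_trans h1 h2 (one_le_pow₀ (by linarith))).mono le_rfl le_rfl ?_
  rw [← pow_mul, pow_succ']
  exact mul_le_mul_of_nonneg_right (by linarith) (pow_nonneg (by linarith) _)

end Pool.Agent.P.MP_9ae58c_an.B

end

section

/-! Step PERT. -/

namespace Pool.Agent.P.MP_9ae58c_an.B

open Set Filter Topology Complex

variable {L μ a b X d s B : ℝ} {u w : ℝ → St}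

theorem PERT_reg {p q : St} (h : Rg p) (e : ‖q - p‖ ≤ 1 / 8) : Reg q := by
  have h1 := n1 (q - p)
  have h3 := n3 (q - p)
  rw [Prod.fst_sub] at h1
  rw [Prod.snd_sub, Prod.snd_sub] at h3
  exact ⟨by linarith [norm_sub_norm_le q.1 p.1, h.1],
    by linarith [abs_sub_abs_le_abs_sub q.2.2 p.2.2, h.2]⟩

theorem PERT_inh (hL : Lc L) (hu : Glob μ u) (hw : Glob μ w) (hr : ∀ t ∈ Icc a b, Rg (u t))
    (hB : ∀ t ∈ Icc a b, ‖w t - u t‖ ≤ B) (h8 : B ≤ 1 / 8) :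
    Inh μ u (fun t => w t - u t) (L * B ^ 2) a b := fun t ht => by
  have r1 := (hr t ht).reg
  have r2 := PERT_reg (hr t ht) ((hB t ht).trans h8)
  refine ⟨fld μ (w t) - fld μ (u t) - lin μ (u t) (w t - u t),
    ((hw.der t r2).fun_sub (hu.der t r1)).congr_deriv (by abel), (hL.f2 μ hu.mu _ _ r1 r2).trans ?_⟩
  have := hL.one
  have := hB t ht
  gcongr

theorem PERT_fwd (hL : Lc L) (hu : Glob μ u) (hw : Glob μ w) (hr : ∀ t ∈ Icc a b, Rg (u t))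
    (hG : Gr μ u a b X) (hX : 1 ≤ X) (hd : ‖w a - u a‖ ≤ d) (h8 : B ≤ 1 / 8)
    (hB : X * (d + L * B ^ 2) < B) : ∀ t ∈ Icc a b, ‖w t - u t‖ ≤ B := by
  have hc : Continuous fun t => ‖w t - u t‖ := (hw.cont.sub hu.cont).norm
  have l0 : 0 ≤ L * B ^ 2 := mul_nonneg (by linarith [hL.one]) (sq_nonneg B)
  have d0 := (norm_nonneg _).trans hd
  refine real_ind (P := fun t => ‖w t - u t‖ ≤ B) (by nlinarith) (fun t ht h => ?_)
    fun t ht h => ?_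
  · have := (isClosed_le hc continuous_const).closure_subset_iff.2 h
    rw [closure_Ico ht.1.ne] at this
    exact this (right_mem_Icc.2 ht.1.le)
  · have h1 := hG _ _ a t le_rfl ht.2.le l0 (PERT_inh hL hu hw
      (fun r hr' => hr r ⟨hr'.1, hr'.2.trans ht.2.le⟩) h h8) a (left_mem_Icc.2 ht.1) t
      (right_mem_Icc.2 ht.1)
    have h2 : ‖w t - u t‖ < B := (h1.trans (by gcongr)).trans_lt hB
    exact ((hc.continuousAt.eventually_lt continuousAt_const h2).mono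
      fun _ => le_of_lt).filter_mono nhdsWithin_le_nhds

theorem PERT_two (hL : Lc L) (hu : Glob μ u) (hw : Glob μ w) (hr : ∀ t ∈ Icc a b, Rg (u t))
    (hG : Gr μ u a b X) (hX : 1 ≤ X) (hs : s ∈ Icc a b) (hd : ‖w s - u s‖ ≤ d) (h8 : B ≤ 1 / 8)
    (hB : X * (d + L * B ^ 2) < B) : ∀ t ∈ Icc a b, ‖w t - u t‖ ≤ B := fun t ht => by
  rcases le_total s t with e | e
  · exact PERT_fwd hL hu hw (fun r h => hr r ⟨hs.1.trans h.1, h.2⟩) (hG.mono hs.1 le_rfl le_rfl)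
      hX hd h8 hB t ⟨e, ht.2⟩
  · have := PERT_fwd hL (hu.rev 0) (hw.rev 0) (a := 0 - s) (b := 0 - a)
      (fun r h => rg_Rv.2 (hr _ ⟨by linarith [h.2], by linarith [h.1, hs.2]⟩))
      ((hG.mono le_rfl hs.2 le_rfl).rev 0) hX (d := d) (by simpa [rev, ← Rv_sub] using hd) h8 hB
      (0 - t) ⟨by linarith, by linarith [ht.1]⟩
    simpa [rev, ← Rv_sub] using this

theorem PERT_sup {f : ℝ → St} {A : ℝ} (hf : ContinuousOn f (Icc a b))
    (h : ∀ r ∈ Icc a b, (∀ t ∈ Icc a b, ‖f t‖ ≤ ‖f r‖) → ‖f r‖ ≤ A) :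
    ∀ t ∈ Icc a b, ‖f t‖ ≤ A := fun t ht =>
  let ⟨r, h1, h2⟩ := isCompact_Icc.exists_isMaxOn ⟨t, ht⟩ hf.norm
  (h2 ht).trans (h r h1 fun _ hs => h2 hs)

theorem PERT_lin (hL : Lc L) (hu : Glob μ u) {y : ℝ → St} {M : ℝ} (hy : Var μ w y)
    (hr : ∀ t ∈ Icc a b, Reg (u t)) (hw : ∀ t ∈ Icc a b, Reg (w t) ∧ ‖w t - u t‖ ≤ B)
    (hM : ∀ t ∈ Icc a b, ‖y t‖ ≤ M) : Inh μ u y (L * B * M) a b := fun t ht => by
  refine ⟨lin μ (w t) (y t) - lin μ (u t) (y t), (hy t (hw t ht).1).congr_deriv (by abel),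
    (hL.l1 μ hu.mu _ _ _ (hw t ht).1 (hr t ht)).trans ?_⟩
  have := hL.one
  have h1 := (hw t ht).2
  have := hM t ht
  have := (norm_nonneg _).trans h1
  gcongr

theorem p_PERT (hTAY : S_TAY) :
    S_PERT := by
  obtain ⟨L, hL⟩ := hTAY
  have l1 := hL.one
  refine ⟨64 * L, by linarith, fun μ u w a b X d s hu hw hr hG hX hs hd hC => ?_⟩
  have d0 := (norm_nonneg _).trans hd
  have hr' : ∀ t ∈ Icc a b, Reg (u t) := fun t ht => (hr t ht).reg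
  have lx : 1 ≤ L * X := by nlinarith
  obtain ⟨B, hB⟩ : ∃ B, L * X * B = 1 / 8 := ⟨1 / 8 / (L * X), by field_simp⟩
  have B0 : 0 < B := by nlinarith
  have B8 : B ≤ 1 / 8 := by nlinarith
  have xd : 8 * (X * d) ≤ B := le_of_mul_le_mul_left (a := L * X) (by nlinarith) (by linarith)
  have h0 := PERT_two hL hu hw hr hG hX hs hd B8 (by nlinarith)
  have h1 : ∀ t ∈ Icc a b, ‖w t - u t‖ ≤ 2 * X * d := by
    refine PERT_sup (hw.cont.sub hu.cont).continuousOn fun r hr1 h => ?_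
    have e := hG _ _ a b le_rfl le_rfl (by positivity)
      (PERT_inh hL hu hw hr h ((h0 r hr1).trans B8)) s hs r hr1
    have e1 := h0 r hr1
    have e2 := norm_nonneg (w r - u r)
    have e3 : L * X * ‖w r - u r‖ * ‖w r - u r‖ ≤ L * X * B * ‖w r - u r‖ := by gcongr
    have e4 : X * ‖w s - u s‖ ≤ X * d := by gcongr
    rw [hB] at e3
    nlinarith [mul_nonneg (zero_le_one.trans hX) d0]
  have h2 : ∀ t ∈ Icc a b, Reg (w t) ∧ ‖w t - u t‖ ≤ 2 * X * d :=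
    fun t ht => ⟨PERT_reg (hr t ht) ((h0 t ht).trans B8), h1 t ht⟩
  refine ⟨h2, fun x hx t ht => ?_, fun x y hx hy => ?_⟩
  · have e := hG _ _ a b le_rfl le_rfl (by positivity)
      ((PERT_inh hL hu hw hr h1 (by linarith)).sub_var hx hr') s hs t ht
    have : 0 ≤ L * X ^ 3 * d ^ 2 := by positivity
    nlinarith
  have h3 : ∀ t ∈ Icc a b, ‖y t‖ ≤ 2 * X * ‖y s‖ := by
    refine PERT_sup (fun t ht => (hy t (h2 t ht).1).continuousAt.continuousWithinAt)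
      fun r hr1 h => ?_
    have e := hG _ _ a b le_rfl le_rfl (by positivity) (PERT_lin hL hu hy hr' h2 h) s hs r hr1
    have e3 : 64 * L * X ^ 2 * d * ‖y r‖ ≤ 1 * ‖y r‖ := by gcongr
    nlinarith [mul_nonneg (zero_le_one.trans hX) (norm_nonneg (y s))]
  refine fun t ht => ⟨h3 t ht, ?_⟩
  have e := hG _ _ a b le_rfl le_rfl (by positivity)
    ((PERT_lin hL hu hy hr' h2 h3).sub_var hx hr') s hs t ht
  have : 0 ≤ L * X ^ 3 * d * ‖y s‖ := by positivity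
  nlinarith

end Pool.Agent.P.MP_9ae58c_an.B

end

section

/-! Step UNIQ. -/

namespace Pool.Agent.P.MP_9ae58c_an.B

open Set Filter Topology Complex

theorem p_UNIQ (hTAY : S_TAY) (hGRON : S_GRON) (hPERT : S_PERT) :
    S_UNIQ := by
  intro μ u w a b s hu hw hr hs he t ht
  obtain ⟨L, hL⟩ := hTAY
  obtain ⟨C, _, hC⟩ := hPERT
  have hμ : μ ∈ Icc (0 : ℝ) 1 := ⟨hu.pos.le, hu.le.trans (by norm_num)⟩
  have hab : 0 ≤ b - a := by linarith [hs.1, hs.2]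
  have hX : 1 ≤ Real.exp (L * (b - a)) :=
    Real.one_le_exp (mul_nonneg (by linarith [hL.one]) hab)
  have hg := hGRON L hL μ hμ u a b fun t ht => (hr t ht).reg
  have h := (hC μ u w a b _ 0 s hu hw hr hg hX hs (by simp [he]) (by simp)).1 t ht
  have h2 : ‖w t - u t‖ ≤ 0 := by simpa using h.2
  exact sub_eq_zero.mp (norm_le_zero_iff.mp h2)

end Pool.Agent.P.MP_9ae58c_an.B

end
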