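import Pool.Agent.P.MP_9ae58c_an.B.IfA

section

/-! Step DIST. -/

namespace Pool.Agent.P.MP_9ae58c_an.B

open Set Filter Topology Complex

theorem DIST_den {μ : ℝ} {p : St} (h : Adm μ p) (hv : 1 ≤ |p.2.2|) :
    1 / 2 ≤ |rr p ^ 2 * p.2.2| := by
  have h1 := h.r.1
  have h2 : 1 / 2 ≤ rr p ^ 2 := by nlinarith
  rw [abs_mul, abs_of_nonneg (sq_nonneg _)]
  nlinarith

theorem DIST_cz {μ : ℝ} {p : St} (h : Adm μ p) (hv : 1 ≤ |p.2.2|) (ξ : St) :
    |cz p ξ| ≤ 2 * ‖ξ‖ := by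
  have h1 := DIST_den h hv
  rw [cz, abs_div, abs_neg, div_le_iff₀ (by linarith)]
  nlinarith [n2 ξ, norm_nonneg ξ]

theorem DIST_cz2 {μ L : ℝ} (hL : Lc L) {p q : St} (h : Adm μ p) (hv : 1 ≤ |p.2.2|) (h' : Adm μ q)
    (hv' : 1 ≤ |q.2.2|) (ξ ζ : St) :
    |cz q ζ - cz p ξ| ≤ 2 * ‖ζ - ξ‖ + 4 * L * ‖q - p‖ * ‖ζ‖ := by
  have hμ : μ ∈ Icc (0 : ℝ) 1 := ⟨h.pos.le, h.le.trans (by norm_num)⟩
  have h1 := DIST_den h hv
  have h2 := DIST_den h' hv'
  have h3 : |rr q ^ 2 * q.2.2 - rr p ^ 2 * p.2.2| ≤ L * ‖q - p‖ :=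
    (n2 (fld μ q - fld μ p)).trans (hL.f1 μ hμ q p h'.reg h.reg)
  have n1 : rr p ^ 2 * p.2.2 ≠ 0 := fun e => by rw [e] at h1; norm_num at h1
  have e : cz q ζ - cz p ξ = cz p (ζ - ξ) -
      cz q ζ * (rr q ^ 2 * q.2.2 - rr p ^ 2 * p.2.2) / (rr p ^ 2 * p.2.2) := by
    have n2 : rr q ^ 2 * q.2.2 ≠ 0 := fun e => by rw [e] at h2; norm_num at h2
    simp only [cz, Prod.snd_sub, Prod.fst_sub]
    generalize rr p ^ 2 * p.2.2 = A at n1
    generalize rr q ^ 2 * q.2.2 = B at n2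
    field_simp
    ring
  have h4 := DIST_cz h hv (ζ - ξ)
  have h5 := DIST_cz h' hv' ζ
  have h6 : |cz q ζ * (rr q ^ 2 * q.2.2 - rr p ^ 2 * p.2.2) / (rr p ^ 2 * p.2.2)| ≤
      4 * L * ‖q - p‖ * ‖ζ‖ := by
    rw [abs_div, abs_mul, div_le_iff₀ (by linarith)]
    have h7 := mul_le_mul h5 h3 (abs_nonneg _) (by positivity)
    have h8 : 0 ≤ L * ‖q - p‖ * ‖ζ‖ := by have := hL.one; positivity
    nlinarith
  rw [e]
  exact (abs_sub _ _).trans (add_le_add h4 h6)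

theorem DIST_one {μ L : ℝ} (hL : Lc L) {p : St} (h : Adm μ p) (hv : 1 ≤ |p.2.2|) (ξ : St) :
    |cz p ξ| + ‖ξ + cz p ξ • fld μ p‖ ≤ 5 * L * ‖ξ‖ := by
  have hμ : μ ∈ Icc (0 : ℝ) 1 := ⟨h.pos.le, h.le.trans (by norm_num)⟩
  have h1 := DIST_cz h hv ξ
  have h2 := norm_add_le ξ (cz p ξ • fld μ p)
  rw [norm_smul, Real.norm_eq_abs] at h2
  have h3 := mul_le_mul h1 (hL.f0 μ hμ p h.reg) (norm_nonneg _) (by positivity)
  nlinarith [hL.one, norm_nonneg ξ]

theorem DIST_two {μ L : ℝ} (hL : Lc L) {p q : St} (h : Adm μ p) (hv : 1 ≤ |p.2.2|) (h' : Adm μ q)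
    (hv' : 1 ≤ |q.2.2|) (ξ ζ : St) :
    |cz q ζ - cz p ξ| + ‖(ζ + cz q ζ • fld μ q) - (ξ + cz p ξ • fld μ p)‖ ≤
      5 * L * ‖ζ - ξ‖ + 10 * L ^ 2 * (‖q - p‖ * ‖ζ‖) := by
  have hμ : μ ∈ Icc (0 : ℝ) 1 := ⟨h.pos.le, h.le.trans (by norm_num)⟩
  have h1 := DIST_cz2 hL h hv h' hv' ξ ζ
  have h2 := DIST_cz h' hv' ζ
  have hl := hL.one
  have e : (ζ + cz q ζ • fld μ q) - (ξ + cz p ξ • fld μ p) =
      (ζ - ξ) + (cz q ζ - cz p ξ) • fld μ p + cz q ζ • (fld μ q - fld μ p) := by module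
  have h3 := norm_add₃_le (a := ζ - ξ) (b := (cz q ζ - cz p ξ) • fld μ p)
    (c := cz q ζ • (fld μ q - fld μ p))
  rw [norm_smul, norm_smul, Real.norm_eq_abs, Real.norm_eq_abs, ← e] at h3
  have h4 := mul_le_mul h1 (hL.f0 μ hμ p h.reg) (norm_nonneg _) (by positivity)
  have h5 := mul_le_mul h2 (hL.f1 μ hμ q p h'.reg h.reg) (norm_nonneg _) (by positivity)
  have h6 : 0 ≤ ‖q - p‖ * ‖ζ‖ := by positivity
  have h7 : L * (‖q - p‖ * ‖ζ‖) ≤ L ^ 2 * (‖q - p‖ * ‖ζ‖) := by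
    gcongr; nlinarith
  nlinarith [norm_nonneg (ζ - ξ)]

theorem DIST_lip {f f' : ℝ → St} {a b M : ℝ} (hab : a ≤ b)
    (hf : ∀ t ∈ Icc a b, HasDerivAt f (f' t) t) (h : ∀ t ∈ Icc a b, ‖f' t‖ ≤ M) :
    ‖f b - f a‖ ≤ M * (b - a) := by
  have := norm_sub_le_of (Φ := fun t => M * t) (Φ' := fun _ => M) hf
    (fun t _ => by simpa using (hasDerivAt_id t).const_mul M) h b ⟨hab, le_rfl⟩
  linarith

theorem p_DIST (hTAY : S_TAY) (hGRON : S_GRON) (hPERT : S_PERT) :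
    S_DIST := by
  obtain ⟨L, hL⟩ := hTAY
  obtain ⟨P, hP, hPERT⟩ := hPERT
  have hl := hL.one
  have l2 : L ≤ L ^ 2 := by nlinarith
  have l3 : L ^ 2 ≤ L ^ 3 := by nlinarith
  have c1 : L ^ 3 ≤ L ^ 3 * P := by nlinarith
  have c2 : P ≤ L * P := by nlinarith
  have c3 : L * P ≤ L ^ 3 * P := by gcongr; linarith
  refine ⟨300 * (L ^ 3 * P), by linarith, ?_⟩
  intro μ u w x y b b' X d hu hw hG hX hb hb' hd h0 hC hv hv' hx hy
  have hμ := hu.gl.mu
  have d0 : 0 ≤ d := (abs_nonneg _).trans hd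
  have x2 : 1 ≤ X ^ 2 := one_le_pow₀ hX
  have x3 : X ≤ X ^ 2 := by nlinarith
  have x4 : X ^ 2 ≤ X ^ 3 := by nlinarith
  have hPd : P * X ^ 2 * d ≤ 1 := le_trans (by gcongr; linarith) hC
  have hLd : L * d ≤ 1 := by
    refine le_trans ?_ hC
    gcongr
    nlinarith
  obtain ⟨p1, -, p3⟩ := hPERT μ u w 0 b X d 0 hu.gl hw.gl hu.rg hG hX ⟨le_rfl, hb⟩ h0 hPd
  have p3 := p3 x y hx hy
  have hxb : ∀ t ∈ Icc 0 b, ‖x t‖ ≤ X * ‖x 0‖ := fun t ht => hG.var hx hu.reg ⟨le_rfl, hb⟩ ht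
  obtain ⟨e, he⟩ : ∃ e, e = ‖y 0 - x 0‖ := ⟨_, rfl⟩
  obtain ⟨n, hn⟩ : ∃ n, n = ‖y 0‖ := ⟨_, rfl⟩
  have e0 : 0 ≤ e := he ▸ norm_nonneg _
  have n0 : 0 ≤ n := hn ▸ norm_nonneg _
  have hx0 : ‖x 0‖ ≤ n + e := by
    have := norm_sub_le (y 0) (y 0 - x 0)
    rwa [sub_sub_cancel, ← hn, ← he] at this
  rw [← he, ← hn] at p3 ⊢
  have dn : 0 ≤ d * n := mul_nonneg d0 n0
  have k1 : X * (d * n) ≤ X ^ 3 * (d * n) := by gcongr; linarith
  have key : ‖w b' - u b‖ ≤ 3 * L * (X * d) ∧ ‖y b'‖ ≤ 6 * X * n ∧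
      ‖y b' - x b‖ ≤ 2 * (X * e) + (P + 6 * L) * (X ^ 3 * (d * n)) := by
    have xd : d ≤ X * d := by nlinarith
    have xn : 0 ≤ X * n := by positivity
    have xe : 0 ≤ X * e := by positivity
    have lx : X * d ≤ L * (X * d) := by nlinarith
    have lx2 : L * d ≤ L * (X * d) := by gcongr
    have lk : L * (X * (d * n)) ≤ L * (X ^ 3 * (d * n)) := by gcongr
    have lk0 : 0 ≤ L * (X ^ 3 * (d * n)) := by positivity
    rcases le_total b' b with h | h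
    · have i : Icc b' b ⊆ Icc 0 b := Icc_subset_Icc_left hb'
      have hdd : b - b' ≤ d := by linarith [abs_le.1 hd]
      have a1 := DIST_lip h (fun t ht => hu.der (i ht)) fun t ht => hL.f0 μ hμ _ (hu.reg t (i ht))
      have a2 := DIST_lip (M := L * (X * (n + e))) h (fun t ht => hx t (hu.reg t (i ht)))
        fun t ht => (hL.l0 μ hμ _ _ (hu.reg t (i ht))).trans (by
          gcongr; exact (hxb t (i ht)).trans (by gcongr))
      have a3 := (p1 b' ⟨hb', h⟩).2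
      obtain ⟨a4, a5⟩ := p3 b' ⟨hb', h⟩
      have a6 := norm_sub_le (w b' - u b') (u b - u b')
      have a7 := norm_sub_le (y b' - x b') (x b - x b')
      rw [sub_sub_sub_cancel_right] at a6 a7
      have a8 : L * (b - b') ≤ L * d := by gcongr
      have a9 : L * (X * (n + e)) * (b - b') ≤ L * (X * (n + e)) * d := by gcongr
      have a10 : L * d * (X * e) ≤ 1 * (X * e) := by gcongr
      exact ⟨by linarith, by linarith, by linarith⟩
    · have i : Icc b b' ⊆ Icc 0 b' := Icc_subset_Icc_left hb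
      have hdd : b' - b ≤ d := by linarith [abs_le.1 hd]
      have a8 : L * (b' - b) ≤ L * d := by gcongr
      obtain ⟨a4, a5⟩ := p3 b ⟨hb, le_rfl⟩
      have hyb : ∀ t ∈ Icc b b', ‖y t‖ ≤ 6 * X * n := fun t ht => by
        have g1 := (hGRON L hL μ hμ w b b' fun t ht => hw.reg t (i ht)).var hy
          (fun t ht => hw.reg t (i ht)) ⟨le_rfl, h⟩ ht
        have g2 : Real.exp (L * (b' - b)) ≤ 3 :=
          (Real.exp_le_exp.2 (a8.trans hLd)).trans (Real.exp_one_lt_d9.le.trans (by norm_num))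
        have g3 := mul_le_mul g2 a4 (norm_nonneg _) (by norm_num)
        linarith
      have a1 := DIST_lip h (fun t ht => hw.der (i ht)) fun t ht => hL.f0 μ hμ _ (hw.reg t (i ht))
      have a2 := DIST_lip (M := L * (6 * X * n)) h (fun t ht => hy t (hw.reg t (i ht)))
        fun t ht => (hL.l0 μ hμ _ _ (hw.reg t (i ht))).trans (by gcongr; exact hyb t ht)
      have a3 := (p1 b ⟨hb, le_rfl⟩).2
      have a6 := norm_add_le (w b' - w b) (w b - u b)
      have a7 := norm_add_le (y b' - y b) (y b - x b)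
      rw [sub_add_sub_cancel] at a6 a7
      have a9 : L * (6 * X * n) * (b' - b) ≤ L * (6 * X * n) * d := by gcongr
      exact ⟨by linarith, hyb b' ⟨h, le_rfl⟩, by linarith⟩
  obtain ⟨k2, k3, k4⟩ := key
  have xd0 : 0 ≤ X * d := by positivity
  refine ⟨k2.trans ?_, ?_, ?_⟩
  · rw [mul_assoc (300 * _)]
    exact mul_le_mul_of_nonneg_right (by linarith) xd0
  · refine (DIST_one hL (hu.adm b ⟨hb, le_rfl⟩) hv (x b)).trans ?_
    rw [mul_assoc (300 * _)]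
    exact mul_le_mul (by linarith) (hxb b ⟨hb, le_rfl⟩) (norm_nonneg _) (by linarith)
  · refine (DIST_two hL (hu.adm b ⟨hb, le_rfl⟩) hv (hw.adm b' ⟨hb', le_rfl⟩) hv' (x b)
      (y b')).trans ?_
    have m1 := mul_le_mul k2 k3 (norm_nonneg _) (by positivity)
    have m2 : X ^ 2 * (d * n) ≤ X ^ 3 * (d * n) := by gcongr
    have m3 : ‖w b' - u b‖ * ‖y b'‖ ≤ 18 * L * (X ^ 3 * (d * n)) := by
      have : L * (X ^ 2 * (d * n)) ≤ L * (X ^ 3 * (d * n)) := by gcongr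
      linarith
    obtain ⟨A, hA⟩ : ∃ A, A = X ^ 3 * (d * n) := ⟨_, rfl⟩
    obtain ⟨B, hB⟩ : ∃ B, B = X * e := ⟨_, rfl⟩
    have A0 : 0 ≤ A := hA ▸ by positivity
    have B0 : 0 ≤ B := hB ▸ by positivity
    rw [← hA] at m3
    rw [← hA, ← hB] at k4
    have m4 : 5 * L * ‖y b' - x b‖ ≤ 5 * L * (2 * B + (P + 6 * L) * A) := by gcongr
    have m5 : 10 * L ^ 2 * (‖w b' - u b‖ * ‖y b'‖) ≤ 10 * L ^ 2 * (18 * L * A) := by gcongr
    have m6 : 10 * L * B ≤ 300 * (L ^ 3 * P) * B :=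
      mul_le_mul_of_nonneg_right (by linarith) B0
    have m7 : (5 * (L * P) + 30 * L ^ 2 + 180 * L ^ 3) * A ≤ 300 * (L ^ 3 * P) * A :=
      mul_le_mul_of_nonneg_right (by linarith) A0
    calc _ ≤ 300 * (L ^ 3 * P) * B + 300 * (L ^ 3 * P) * A := by linarith
      _ = _ := by rw [hA, hB]; ring

end Pool.Agent.P.MP_9ae58c_an.B

end

section

/-! Step VEX. -/

namespace Pool.Agent.P.MP_9ae58c_an.B

open Set Filter Topology Complex

section
variable {E : Type*} [NormedAddCommGroup E] [NormedSpace ℝ E] [CompleteSpace E]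

/-- the terms of the series of iterated integrals -/
noncomputable def VEX_X (A : ℝ → E →L[ℝ] E) (s : ℝ) (p : E) : ℕ → ℝ → E
  | 0 => fun _ => p
  | n + 1 => fun t => ∫ τ in s..t, A τ (VEX_X A s p n τ)

theorem VEX_cont {A : ℝ → E →L[ℝ] E} (hA : Continuous A) (s : ℝ) (p : E) (n : ℕ) :
    Continuous (VEX_X A s p n) := by
  induction n with
  | zero => exact continuous_const
  | succ n ih =>
    exact continuous_iff_continuousAt.2 fun t =>
      ((hA.clm_apply ih).integral_hasStrictDerivAt s t).hasDerivAt.continuousAt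

theorem VEX_der {A : ℝ → E →L[ℝ] E} (hA : Continuous A) (s : ℝ) (p : E) (n : ℕ) (t : ℝ) :
    HasDerivAt (VEX_X A s p (n + 1)) (A t (VEX_X A s p n t)) t :=
  ((hA.clm_apply (VEX_cont hA s p n)).integral_hasStrictDerivAt s t).hasDerivAt

omit [CompleteSpace E] in
theorem VEX_bd {A : ℝ → E →L[ℝ] E} {L : ℝ} (h0 : 0 ≤ L) (hL : ∀ t x, ‖A t x‖ ≤ L * ‖x‖) (s : ℝ)
    (p : E) (n : ℕ) (t : ℝ) :
    ‖VEX_X A s p n t‖ ≤ ‖p‖ * L ^ n / n.factorial * |t - s| ^ n := by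
  induction n generalizing t with
  | zero => simp [VEX_X]
  | succ n ih =>
    have h1 : ‖VEX_X A s p (n + 1) t‖ ≤
        ∫ τ in uIoc s t, L * (‖p‖ * L ^ n / n.factorial) * |τ - s| ^ n := by
      rw [VEX_X, intervalIntegral.norm_intervalIntegral_eq]
      refine MeasureTheory.norm_integral_le_of_norm_le
        (Continuous.integrableOn_uIoc (by fun_prop)) (Eventually.of_forall fun τ => ?_)
      refine (hL _ _).trans ?_
      rw [mul_assoc]
      exact mul_le_mul_of_nonneg_left (ih τ) h0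
    rw [MeasureTheory.integral_const_mul, integral_pow_abs_sub_uIoc] at h1
    refine h1.trans (le_of_eq ?_)
    rw [Nat.factorial_succ]
    push_cast
    field_simp
    ring

/-- global solutions of a bounded linear equation -/
theorem VEX_gen {A : ℝ → E →L[ℝ] E} (hA : Continuous A) {L : ℝ} (h0 : 0 ≤ L)
    (hL : ∀ t x, ‖A t x‖ ≤ L * ‖x‖) (s : ℝ) (p : E) :
    ∃ x : ℝ → E, x s = p ∧ ∀ t, HasDerivAt x (A t (x t)) t := by
  have hs : ∀ c R : ℝ, Summable fun n : ℕ => c * (‖p‖ * L ^ n / n.factorial * R ^ n) := by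
    intro c R
    refine (((Real.summable_pow_div_factorial (L * R)).mul_left ‖p‖).mul_left c).congr fun n => ?_
    rw [mul_pow]
    ring
  have hX : ∀ t, Summable fun n => VEX_X A s p n t := fun t =>
    .of_norm_bounded (hs 1 |t - s|) fun n => by simpa using VEX_bd h0 hL s p n t
  refine ⟨fun t => p + ∑' n, VEX_X A s p (n + 1) t, by simp [VEX_X], fun t => ?_⟩
  have h1 := hasDerivAt_tsum_of_isPreconnected (hs L (|t - s| + 1))
    (t := Metric.ball s (|t - s| + 1)) (g := fun n => VEX_X A s p (n + 1))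
    (g' := fun n y => A y (VEX_X A s p n y)) (y₀ := s) (y := t) Metric.isOpen_ball
    (convex_ball _ _).isPreconnected (fun n y _ => VEX_der hA s p n y)
    (fun n y hy => (hL _ _).trans (mul_le_mul_of_nonneg_left ((VEX_bd h0 hL s p n y).trans (by
      have : |y - s| ≤ |t - s| + 1 := (show |y - s| < _ from hy).le
      gcongr)) h0))
    (Metric.mem_ball_self (by positivity)) (by simp [VEX_X, summable_zero])
    (show |t - s| < _ by linarith)
  refine (h1.const_add p).congr_deriv ?_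
  rw [← (A t).map_tsum (hX t), (hX t).tsum_eq_zero_add]
  rfl

end

/-- a retraction onto the region -/
noncomputable def VEX_cl (p : St) : St :=
  (((1 / 4 / max ‖p.1‖ (1 / 4) : ℝ) : ℂ) * p.1, p.2.1, max (-10) (min p.2.2 10))

theorem VEX_cl_cont : Continuous VEX_cl := by
  unfold VEX_cl
  refine Continuous.prodMk (Continuous.mul (continuous_ofReal.comp ?_) (by fun_prop)) (by fun_prop)
  exact continuous_const.div (by fun_prop) fun p => (lt_max_of_lt_right (by norm_num)).ne'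

theorem VEX_cl_reg (p : St) : Reg (VEX_cl p) := by
  have h : (0 : ℝ) < max ‖p.1‖ (1 / 4) := lt_max_of_lt_right (by norm_num)
  refine ⟨?_, abs_le.2 ⟨le_max_left _ _, max_le (by norm_num) (min_le_right _ _)⟩⟩
  simp only [VEX_cl, norm_mul, norm_real, Real.norm_eq_abs]
  rw [abs_of_pos (by positivity), div_mul_eq_mul_div, div_le_iff₀ h]
  exact mul_le_mul_of_nonneg_left (le_max_left _ _) (by norm_num)

theorem VEX_cl_eq {p : St} (h : Reg p) : VEX_cl p = p := by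
  have h2 := abs_le.1 h.2
  rw [VEX_cl, max_eq_right h.1, min_eq_left h2.2, max_eq_right h2.1]
  simp

/-- the linearised field as a linear map -/
noncomputable def VEX_l (μ : ℝ) (p : St) : St →L[ℝ] St :=
  LinearMap.toContinuousLinearMap
    { toFun := lin μ p, map_add' := lin_add μ p, map_smul' := fun c ξ => lin_smul μ p ξ c }

theorem p_VEX (hTAY : S_TAY) :
    S_VEX := by
  obtain ⟨L, hL⟩ := hTAY
  intro μ u hu s p
  have h0 : 0 ≤ L := zero_le_one.trans hL.one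
  have hc : Continuous fun t => VEX_cl (u t) := VEX_cl_cont.comp hu.cont
  have hA : Continuous fun t => VEX_l μ (VEX_cl (u t)) := by
    refine continuous_iff_continuousAt.2 fun t => tendsto_iff_norm_sub_tendsto_zero.2 ?_
    have h1 : Tendsto (fun y => L * ‖VEX_cl (u y) - VEX_cl (u t)‖) (𝓝 t) (𝓝 0) := by
      simpa using (tendsto_iff_norm_sub_tendsto_zero.1 (hc.tendsto t)).const_mul L
    exact squeeze_zero (fun _ => norm_nonneg _) (fun y => ContinuousLinearMap.opNorm_le_bound _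
      (by positivity) fun ξ => hL.l1 μ hu.mu _ _ ξ (VEX_cl_reg _) (VEX_cl_reg _)) h1
  obtain ⟨x, hx0, hx⟩ := VEX_gen hA h0 (fun t ξ => hL.l0 μ hu.mu _ ξ (VEX_cl_reg _)) s p
  refine ⟨x, fun t ht => ?_, hx0⟩
  have := hx t
  rwa [VEX_cl_eq ht] at this

end Pool.Agent.P.MP_9ae58c_an.B

end

section

/-! Step DIFF. -/

namespace Pool.Agent.P.MP_9ae58c_an.B

open Set Filter Topology Complex Asymptotics

theorem DIFF_abs {u : ℝ → ℝ → St} {x : ℝ → St} {v : St} {s t X K : ℝ}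
    (h0 : HasDerivAt (fun σ => u σ 0) (x 0) s) (h1 : HasDerivAt (u s) v t)
    (h2 : ContinuousAt x t)
    (h3 : ∀ᶠ y : ℝ × ℝ in 𝓝 (s, t), ‖u y.1 y.2 - u s y.2 - (y.1 - s) • x y.2‖ ≤
      X * ‖u y.1 0 - u s 0 - (y.1 - s) • x 0‖ + K * ‖u y.1 0 - u s 0‖ ^ 2) :
    HasFDerivAt (fun y : ℝ × ℝ => u y.1 y.2)
      ((ContinuousLinearMap.fst ℝ ℝ ℝ).smulRight (x t) +
        (ContinuousLinearMap.snd ℝ ℝ ℝ).smulRight v) (s, t) := by
  have t1 : Tendsto Prod.fst (𝓝 (s, t)) (𝓝 s) := continuous_fst.tendsto (s, t)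
  have t2 : Tendsto Prod.snd (𝓝 (s, t)) (𝓝 t) := continuous_snd.tendsto (s, t)
  have o1 : (fun y : ℝ × ℝ => y.1 - s) =O[𝓝 (s, t)] fun y => y - (s, t) :=
    (IsBigO.of_norm_le fun y => norm_fst_le (y - (s, t))).of_norm_right
  have o2 : (fun y : ℝ × ℝ => y.2 - t) =O[𝓝 (s, t)] fun y => y - (s, t) :=
    (IsBigO.of_norm_le fun y => norm_snd_le (y - (s, t))).of_norm_right
  have a1 : (fun σ => ‖u σ 0 - u s 0‖) =o[𝓝 s] fun _ => (1 : ℝ) :=
    ((isLittleO_one_iff ℝ).2 (tendsto_sub_nhds_zero_iff.2 h0.continuousAt)).norm_left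
  have a2 : (fun σ => X * ‖u σ 0 - u s 0 - (σ - s) • x 0‖ + K * ‖u σ 0 - u s 0‖ ^ 2) =o[𝓝 s]
      fun σ => σ - s :=
    (h0.isLittleO.norm_left.const_mul_left X).add (IsLittleO.const_mul_left (by
      simpa only [sq, mul_one] using h0.isBigO_sub.norm_left.mul_isLittleO a1) K)
  have a3 := (IsBigO.of_bound' (h3.mono fun y h => h.trans (le_abs_self _))).trans_isLittleO
    ((a2.comp_tendsto t1).trans_isBigO o1)
  have a4 := (h1.isLittleO.comp_tendsto t2).trans_isBigO o2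
  have a5 : (fun y : ℝ × ℝ => (y.1 - s) • (x y.2 - x t)) =o[𝓝 (s, t)] fun y => y - (s, t) := by
    refine IsLittleO.trans_isBigO ?_ o1
    exact ((isBigO_refl (fun y : ℝ × ℝ => y.1 - s) _).smul_isLittleO ((isLittleO_one_iff ℝ).2
      (tendsto_sub_nhds_zero_iff.2 (h2.tendsto.comp t2)))).congr_right fun y => mul_one _
  refine hasFDerivAt_iff_isLittleO.2 (((a3.add a4).add a5).congr_left fun y => ?_)
  simp only [Function.comp, _root_.add_apply, ContinuousLinearMap.smulRight_apply,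
    ContinuousLinearMap.coe_fst', ContinuousLinearMap.coe_snd', Prod.fst_sub, Prod.snd_sub, smul_sub]
  abel

theorem p_DIFF (hTAY : S_TAY) (hGRON : S_GRON) (hPERT : S_PERT) :
    S_DIFF := by
  intro μ u x s b hg hs hx h0 t ht
  obtain ⟨L, hL⟩ := hTAY
  obtain ⟨C, -, hC⟩ := hPERT
  have hc := (hg s).cont
  have ha := hs.adm t ht
  have e1 : ∀ᶠ r in 𝓝 t, ‖(u s r).1‖ < 1 / 8 :=
    (hc.fst.norm.tendsto t).eventually_lt_const (ha.na'.trans_lt (by norm_num))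
  have e2 : ∀ᶠ r in 𝓝 t, |(u s r).2.2| < 9 :=
    (hc.snd.snd.abs.tendsto t).eventually_lt_const (ha.v.trans_lt (by norm_num))
  obtain ⟨e, he, h1⟩ := Metric.eventually_nhds_iff.1 (e1.and e2)
  have hr : ∀ r ∈ Icc (min 0 (t - e / 2)) (t + e / 2), Rg (u s r) := fun r hr => by
    by_cases h : r ∈ Icc 0 b
    · exact hs.rg r h
    have : dist r t < e := by
      rw [Real.dist_eq, abs_lt]
      rcases min_le_iff.1 hr.1 with h2 | h2
      · have : ¬ r ≤ b := fun h3 => h ⟨h2, h3⟩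
        constructor <;> linarith [hr.2, ht.2]
      · constructor <;> linarith [hr.2]
    exact ⟨(h1 this).1.le, (h1 this).2.le⟩
  have m0 : (0 : ℝ) ∈ Icc (min 0 (t - e / 2)) (t + e / 2) := ⟨min_le_left _ _, by linarith [ht.1]⟩
  have hG := hGRON L hL μ (hg s).mu (u s) _ _ fun r h => (hr r h).reg
  set X := Real.exp (L * (t + e / 2 - min 0 (t - e / 2)))
  have hX : 1 ≤ X := Real.one_le_exp (mul_nonneg (zero_le_one.trans hL.one)
    (sub_nonneg.2 (m0.1.trans m0.2)))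
  refine DIFF_abs (X := X) (K := C * X ^ 3) h0 ((hg s).der t ha.reg) (hx t ha.reg).continuousAt ?_
  have e3 : ∀ᶠ σ in 𝓝 s, C * X ^ 2 * ‖u σ 0 - u s 0‖ < 1 :=
    ((tendsto_sub_nhds_zero_iff.2 h0.continuousAt).norm.const_mul _).eventually_lt_const (by simp)
  have e4 : ∀ᶠ r in 𝓝 t, r ∈ Icc (min 0 (t - e / 2)) (t + e / 2) :=
    Icc_mem_nhds ((min_le_right _ _).trans_lt (by linarith)) (by linarith)
  filter_upwards [e3.prod_nhds e4] with y hy
  exact (hC μ (u s) (u y.1) _ _ X _ 0 (hg s) (hg y.1) hr hG hX m0 le_rfl hy.1.le).2.1 _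
    (hx.smul (y.1 - s)) y.2 hy.2

end Pool.Agent.P.MP_9ae58c_an.B

end

section

/-! Step NZC. -/

namespace Pool.Agent.P.MP_9ae58c_an.B

open Set Filter Topology Complex

theorem NZC_loc {Y : ℝ → ℝ} (hY : Continuous Y) {c a b w ε : ℝ} (hac : a ≤ c) (hcb : c ≤ b)
    (hbw : b ≤ w) (hp : ∀ t ∈ Icc a b, 0 < ε * Y t) (hn : ε * Y w < 0) :
    sInf {t | c ≤ t ∧ Y t = 0} ∈ Icc b w ∧ Y (sInf {t | c ≤ t ∧ Y t = 0}) = 0 := by
  have h1 := hp b ⟨hac.trans hcb, le_rfl⟩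
  obtain ⟨z, hz, hz0⟩ := intermediate_value_Icc' hbw (continuous_const.mul hY).continuousOn
    (⟨hn.le, h1.le⟩ : (0 : ℝ) ∈ Icc (ε * Y w) (ε * Y b))
  have hε : ε ≠ 0 := by rintro rfl; simp at hn
  have hzS : z ∈ {t | c ≤ t ∧ Y t = 0} :=
    ⟨hcb.trans hz.1, (mul_eq_zero.1 hz0).resolve_left hε⟩
  have hb : BddBelow {t | c ≤ t ∧ Y t = 0} := ⟨c, fun t ht => ht.1⟩
  have hc : IsClosed {t | c ≤ t ∧ Y t = 0} :=
    (isClosed_le continuous_const continuous_id).inter (isClosed_eq hY continuous_const)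
  have hm := hc.csInf_mem ⟨z, hzS⟩ hb
  refine ⟨⟨not_lt.1 fun h => ?_, (csInf_le hb hzS).trans hz.2⟩, hm.2⟩
  have := hp _ ⟨hac.trans hm.1, h.le⟩
  rw [hm.2] at this
  simp at this

theorem p_NZC :
    S_NZC := by
  intro Z t₀ s T ε hZ hJ ht hT hp hn
  have hJ' : ∀ t, ContinuousAt (fun y : ℝ × ℝ => ε * Z y.1 y.2) (s, t) :=
    fun t => continuousAt_const.mul (hJ t)
  obtain ⟨d, hd, hd'⟩ : ∃ d > 0, ∀ t, dist t (t₀ s + 1) < d → 0 < ε * Z s t :=
    Metric.eventually_nhds_iff.1 ((continuous_const.mul (hZ s)).continuousAt.eventually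
      (lt_mem_nhds (hp _ ⟨le_rfl, hT⟩)))
  have key : ∀ δ, 0 < δ → t₀ s + 1 < T - δ → ∀ᶠ σ in 𝓝 s,
      nz (Z σ) (t₀ σ) ∈ Icc (T - δ) (T + δ) ∧ Z σ (nz (Z σ) (t₀ σ)) = 0 := by
    intro δ hδ hδT
    obtain ⟨w, hw, hw'⟩ := hn δ hδ
    have e1 : ∀ᶠ σ in 𝓝 s, ∀ t ∈ Icc (t₀ s + 1 - d / 2) (T - δ), 0 < ε * Z σ t := by
      refine isCompact_Icc.eventually_forall_of_forall_eventually
        (P := fun σ t => 0 < ε * Z σ t) fun t h => (hJ' t).eventually (lt_mem_nhds ?_)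
      by_cases h1 : t₀ s + 1 ≤ t
      · exact hp t ⟨h1, by linarith [h.2]⟩
      · exact hd' t (by rw [Real.dist_eq, abs_lt]; constructor <;> linarith [h.1])
    have e2 : ∀ᶠ σ in 𝓝 s, ε * Z σ w < 0 :=
      ((hJ' w).comp (f := fun σ : ℝ => (σ, w)) (by fun_prop)).eventually (gt_mem_nhds hw')
    have e3 : ∀ᶠ σ in 𝓝 s, t₀ s - d / 2 < t₀ σ := ht.eventually (lt_mem_nhds (by linarith))
    have e4 : ∀ᶠ σ in 𝓝 s, t₀ σ < T - δ - 1 := ht.eventually (gt_mem_nhds (by linarith))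
    filter_upwards [e1, e2, e3, e4] with σ h1 h2 h3 h4
    obtain ⟨h5, h6⟩ := NZC_loc (hZ σ) (c := t₀ σ + 1) (by linarith) (by linarith)
      (by linarith [hw.1]) h1 h2
    exact ⟨⟨h5.1, h5.2.trans hw.2.le⟩, h6⟩
  refine ⟨Metric.tendsto_nhds.2 fun η hη => ?_,
    (key ((T - (t₀ s + 1)) / 2) (by linarith) (by linarith)).mono fun σ h => h.2⟩
  have h1 := min_le_left (η / 2) ((T - (t₀ s + 1)) / 2)
  have h2 := min_le_right (η / 2) ((T - (t₀ s + 1)) / 2)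
  refine (key (min (η / 2) ((T - (t₀ s + 1)) / 2)) (lt_min (by linarith) (by linarith))
    (by linarith)).mono fun σ h => ?_
  rw [Real.dist_eq, abs_lt]
  constructor <;> linarith [h.1.1, h.1.2]

end Pool.Agent.P.MP_9ae58c_an.B

end

section

/-! Step HITC. -/

namespace Pool.Agent.P.MP_9ae58c_an.B

open Set Filter Topology Complex

theorem p_HITC (hNZC : S_NZC) :
    S_HITC := by
  intro Z s k hZ hc
  induction k with
  | zero => exact fun _ => ⟨continuousAt_const, fun h => absurd rfl h⟩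
  | succ k ih =>
    intro h
    obtain ⟨h1, h2⟩ := h.1 k k.lt_succ_self
    obtain ⟨a, b⟩ := hNZC Z (fun σ => cr (Z σ) k) s (cr (Z s) (k + 1)) ((-1) ^ k) hZ hc
      (ih (h.1.alt k.lt_succ_self)).1 (by linarith)
      (fun t ht => lt_of_lt_of_le (lt_min one_pos (lt_min (by linarith [ht.1])
        (by linarith [ht.2]))) (h2 t ⟨by linarith [ht.1], ht.2.le⟩))
      (fun δ hδ => by
        have m1 := min_le_left δ 1
        have m2 := min_le_right δ 1
        have m0 : 0 < min δ 1 := lt_min hδ one_pos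
        refine ⟨cr (Z s) (k + 1) + min δ 1 / 2, ⟨by linarith, by linarith⟩, ?_⟩
        have a1 := h.2 (cr (Z s) (k + 1) + min δ 1 / 2) ⟨by linarith, by linarith⟩
        have a2 : 0 < min 1 (cr (Z s) (k + 1) + min δ 1 / 2 - cr (Z s) (k + 1)) :=
          lt_min one_pos (by linarith)
        rw [pow_succ] at a1
        linarith)
    exact ⟨a, fun _ => b⟩

end Pool.Agent.P.MP_9ae58c_an.B

end
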