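import Pool.Agent.P.MP_9ae58c_an.B.IfA

section

/-! Step FAMD. -/

namespace Pool.Agent.P.MP_9ae58c_an.B

open Set Filter Topology Complex

/-- derivative of an implicit function that is known to be continuous -/
theorem FAMD_imp {F : ℝ × ℝ → ℝ} {τ : ℝ → ℝ} {s α β : ℝ} {L : ℝ × ℝ →L[ℝ] ℝ}
    (hF : HasFDerivAt F L (s, τ s)) (hL : ∀ y, L y = y.1 * α + y.2 * β) (hβ : β ≠ 0)
    (hτ : ContinuousAt τ s) (h0 : ∀ᶠ σ in 𝓝 s, F (σ, τ σ) = 0) : HasDerivAt τ (-α / β) s := by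
  have h1 : HasFDerivAt (fun σ : ℝ => (σ, τ σ))
      (((ContinuousLinearMap.fst ℝ ℝ ℝ).prod
        (β⁻¹ • (ContinuousLinearMap.snd ℝ ℝ ℝ - α • ContinuousLinearMap.fst ℝ ℝ ℝ))) ∘L
        ((ContinuousLinearMap.id ℝ ℝ).prod 0)) s :=
    HasFDerivAt.of_comp_of_leftInverse (f := fun y : ℝ × ℝ => (y.1, F y))
      (f' := (ContinuousLinearMap.fst ℝ ℝ ℝ).prod L) (h := fun σ : ℝ => (σ, (0 : ℝ)))
      (continuousAt_id.prodMk hτ) (hasFDerivAt_fst.prodMk hF)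
      ((hasFDerivAt_id s).prodMk (hasFDerivAt_const _ _))
      (h0.mono fun σ h => by simp [h]) (fun y => by
        ext
        · simp
        · simp [hL]; field_simp; ring)
  refine h1.snd.hasDerivAt.congr_deriv ?_
  simp
  field_simp

theorem p_FAMD (hDIFF : S_DIFF) (hHITC : S_HITC) :
    S_FAMD := by
  intro μ u x s b θ i hF hs hi hA hS hb hθ
  have hD := hDIFF μ u (x s) s b hF.gl hS (hF.var s) (hF.der s hs)
  obtain ⟨hc, hz⟩ := hHITC (fun σ => zz (u σ)) s i (fun σ => (hF.gl σ).cont.snd.fst)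
    (fun t => (hF.cont s hs t).snd.fst) hA
  have hT : cr (zz (u s)) i ∈ Icc 0 b := ⟨hA.nonneg, hb⟩
  have hz0 : (u s (cr (zz (u s)) i)).2.1 = 0 := (hz hi).self_of_nhds
  have ha := hS.adm _ hT
  have hv : (u s (cr (zz (u s)) i)).2.2 ≠ 0 := fun e => by
    have := (ha.cross hz0).2
    rw [e, abs_zero] at this
    norm_num at this
  have hr : rr (u s (cr (zz (u s)) i)) ≠ 0 := by linarith [ha.reg.r.1]
  have h1 : HasDerivAt (fun σ => cr (zz (u σ)) i) (cs (u s) (x s) i) s :=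
    FAMD_imp (F := fun y : ℝ × ℝ => (u y.1 y.2).2.1) (τ := fun σ => cr (zz (u σ)) i)
      (α := (x s (cr (zz (u s)) i)).2.1)
      (β := rr (u s (cr (zz (u s)) i)) ^ 2 * (u s (cr (zz (u s)) i)).2.2)
      (hD _ hT).snd.fst (fun y => by simp [fld]) (mul_ne_zero (pow_ne_zero 2 hr) hv) hc (hz hi)
  refine ⟨h1, ?_⟩
  have h2 := (hD _ hθ).comp_hasDerivAt s
    (f := fun σ => (σ, cr (zz (u σ)) i + θ)) ((hasDerivAt_id s).prodMk (h1.add_const θ))
  refine h2.congr_deriv ?_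
  simp [sy, syn, cs]

end Pool.Agent.P.MP_9ae58c_an.B

end

section

/-! Step INT. -/

namespace Pool.Agent.P.MP_9ae58c_an.B

open Set Filter Topology Complex

theorem INT_key {μ : ℝ} {p : St} (h : Adm μ p) (hz : 0 ≤ p.2.1) :
    gg p * (1 + p.2.1) ^ 2 ≤
      3 * (8 * (1 + μ) * rr p ^ 2 * p.2.1 * WW p ^ 3 * (1 + p.2.1) + rr p ^ 2 * p.2.2 ^ 2) := by
  obtain ⟨r1, r2⟩ := h.r
  have w := pow_pos h.W 3
  have m := h.pos
  have w1 : WW p ^ 3 ≤ 1.00002 ^ 3 := by gcongr; exacts [h.W.le, h.W_le]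
  have key : WW p ^ 3 * ((1 + p.2.1) * (rr p * (1 + p.2.1) - 3 * (1 + μ) * p.2.1)) ≤
      3 / 8 * p.2.2 ^ 2 := by
    have a1 : rr p * (1 + p.2.1) ≤ 1.00001 * (1 + p.2.1) := by gcongr
    have a2 := mul_nonneg m.le hz
    rcases le_total p.2.1 1 with e | e
    · have v := (h.near (by rw [abs_of_nonneg hz]; linarith)).2
      have v2 : 2.2 ^ 2 ≤ p.2.2 ^ 2 := by rw [← sq_abs p.2.2]; gcongr
      have a3 : (1 + p.2.1) * (rr p * (1 + p.2.1) - 3 * (1 + μ) * p.2.1) ≤ 1.00001 := by nlinarith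
      nlinarith
    · have a3 : (1 + p.2.1) * (rr p * (1 + p.2.1) - 3 * (1 + μ) * p.2.1) ≤ 0 :=
        mul_nonpos_of_nonneg_of_nonpos (by linarith) (by nlinarith)
      nlinarith [sq_nonneg p.2.2, mul_nonpos_of_nonneg_of_nonpos w.le a3]
  have := mul_le_mul_of_nonneg_left key (show 0 ≤ 8 * rr p ^ 2 by positivity)
  rw [gg]
  nlinarith

theorem p_INT :
    S_INT := by
  intro μ u a b h hz t ht
  have m := h.gl.pos
  have pz : ∀ s ∈ Icc a b, 0 < 1 + (u s).2.1 := fun s hs => by linarith [hz s hs]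
  have bd : ∀ s ∈ Icc a b, |(u s).2.2 / (1 + (u s).2.1)| ≤ 4.01 := fun s hs => by
    rw [abs_div, abs_of_pos (pz s hs), div_le_iff₀ (pz s hs)]
    nlinarith [(h.adm s hs).v, hz s hs]
  have := norm_sub_le_of (fun s hs => h.gl.dbb (h.reg s hs))
    (fun s hs => ((d3 (h.der hs)).fun_div ((d2 (h.der hs)).const_add 1) (pz s hs).ne').const_mul
      (-(3 * μ)))
    (fun s hs => by
      have k := INT_key (h.adm s hs) (hz s hs)
      have g := (h.adm s hs).g.1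
      rw [norm_neg, norm_mul, norm_mul, norm_I, norm_ex, norm_real, Real.norm_eq_abs,
        abs_of_pos (mul_pos m g), ← mul_div_assoc, le_div_iff₀ (pow_pos (pz s hs) 2)]
      simp only [fld]
      nlinarith [mul_le_mul_of_nonneg_left k m.le]) t ht
  have b1 := abs_le.1 (bd t ht)
  have b2 := abs_le.1 (bd a ⟨le_rfl, ht.1.trans ht.2⟩)
  nlinarith

end Pool.Agent.P.MP_9ae58c_an.B

end

section

/-! Step ADM. -/

namespace Pool.Agent.P.MP_9ae58c_an.B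

open Set Filter Topology Complex

theorem ADM_lim {f : ℝ → ℝ} {a t c : ℝ} (hf : Continuous f) (h : a < t)
    (h1 : ∀ s ∈ Ico a t, f s ≤ c) : f t ≤ c :=
  le_of_tendsto ((hf.tendsto t).mono_left (nhdsWithin_le_nhds (s := Iio t)))
    (mem_of_superset (Ico_mem_nhdsLT h) h1)

theorem p_ADM (hINT : S_INT) :
    S_ADM := by
  intro μ u a b hg h1 h2 h3
  have c := hg.cont
  have m0 := hg.pos
  have m1 := hg.le
  have H : ∀ s, a ≤ s → (∀ w ∈ Icc a s, Reg (u w)) → |Hh μ (u s)| ≤ μ ^ 2 := fun s hs hr => by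
    rwa [← hg.Hh_eq hr ⟨le_rfl, hs⟩ ⟨hs, le_rfl⟩]
  suffices key : ∀ t ∈ Icc a b, Adm μ (u t) ∧ 0 ≤ (u t).2.1 from
    ⟨⟨hg, fun t ht => (key t ht).1⟩, fun t ht => (key t ht).2⟩
  intro t₀ ht₀
  refine real_ind (P := fun t => Adm μ (u t) ∧ 0 ≤ (u t).2.1)
    ⟨⟨m0, m1, by linarith, h2⟩, h3.elim (fun h => h a ⟨le_rfl, ht₀.1.trans ht₀.2⟩) And.left⟩
    (fun t ht h => ?_) (fun t ht h => ?_) t₀ ht₀
  · have a1 : ‖(u t).1‖ ≤ 100 * μ :=
      ADM_lim (f := fun s => ‖(u s).1‖) (by fun_prop) ht.1 fun s hs => (h s hs).1.na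
    have a2 : |(u t).2.2| ≤ 4.01 :=
      ADM_lim (f := fun s => |(u s).2.2|) (by fun_prop) ht.1 fun s hs => (h s hs).1.v
    have a3 : -(u t).2.1 ≤ 0 :=
      ADM_lim (f := fun s => -(u s).2.1) (by fun_prop) ht.1 fun s hs => neg_nonpos.2 (h s hs).2
    refine ⟨⟨m0, m1, a1, H t ht.1.le fun w hw => ?_⟩, neg_nonpos.1 a3⟩
    rcases hw.2.eq_or_lt with rfl | e
    · exact ⟨by linarith, by linarith⟩
    · exact (h w ⟨hw.1, e⟩).1.reg
  · have a1 := hINT μ u a t ⟨hg, fun s hs => (h s hs).1⟩ (fun s hs => (h s hs).2) t ⟨ht.1, le_rfl⟩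
    have a2 := norm_le_insert' (bb u t) (bb u a)
    rw [norm_bb, norm_bb] at a2
    have a3 := (h t ⟨ht.1, le_rfl⟩).1.v
    have e1 : ∀ᶠ s in 𝓝 t, ‖(u s).1‖ < 100 * μ :=
      (show Continuous fun s => ‖(u s).1‖ by fun_prop).continuousAt.eventually_lt
        continuousAt_const (by linarith)
    have e2 : ∀ᶠ s in 𝓝 t, |(u s).2.2| < 10 :=
      (show Continuous fun s => |(u s).2.2| by fun_prop).continuousAt.eventually_lt
        continuousAt_const (by linarith)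
    obtain ⟨d, hd, h4⟩ := mem_nhdsGT_iff_exists_Ioo_subset.1
      ((e1.and e2).filter_mono (nhdsWithin_le_nhds (s := Ioi t)))
    filter_upwards [Ioo_mem_nhdsGT (mem_Ioi.1 hd), Ioo_mem_nhdsGT ht.2] with s s1 s2
    have hs : a ≤ s := ht.1.trans s1.1.le
    have R : ∀ w ∈ Icc a s, Reg (u w) := fun w hw => (le_or_gt w t).elim
      (fun e => (h w ⟨hw.1, e⟩).1.reg) fun e =>
        let ⟨b1, b2⟩ := h4 ⟨e, hw.2.trans_lt s1.2⟩
        ⟨by linarith, b2.le⟩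
    refine ⟨⟨m0, m1, (h4 s1).1.le, H s hs R⟩, h3.elim (fun h5 => h5 s ⟨hs, s2.2.le⟩) fun h5 => ?_⟩
    exact h5.1.trans (le_of_deriv (fun w hw => d2 (hg.der w (R w hw)))
      (fun w hw => mul_nonneg (sq_nonneg _) (h5.2 w ⟨hw.1, hw.2.trans s2.2.le⟩))
      ⟨le_rfl, hs⟩ ⟨hs, le_rfl⟩ hs)

end Pool.Agent.P.MP_9ae58c_an.B

end

section

/-! Step MKUP. -/

namespace Pool.Agent.P.MP_9ae58c_an.B

open Set Filter Topology Complex

variable {μ a b : ℝ} {u : ℝ → St} {p q : St}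

/-- the height increases -/
theorem MKUP_mono (h : Sol μ u a b) (hv : ∀ t ∈ Icc a b, 0 ≤ (u t).2.2) {s t : ℝ}
    (hs : s ∈ Icc a b) (ht : t ∈ Icc a b) (e : s ≤ t) : (u s).2.1 ≤ (u t).2.1 :=
  le_of_deriv (fun _ ht => d2 (h.der ht)) (fun t ht => mul_nonneg (sq_nonneg _) (hv t ht)) hs ht e

/-- the rate of change of the energy -/
theorem MKUP_rate (hp : Adm μ p) (hq : Adm μ q) (h3 : 3 ≤ q.2.1) (h : q.2.1 ≤ p.2.1) :
    |de μ p (fld μ p)| ≤ 228 * μ * WW q * -(fld μ p).2.2 := by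
  have m := hp.pos
  have m' := hp.le
  have wp := hp.W
  have wq := hq.W
  obtain ⟨g0, g1⟩ := hp.g
  have a1 := (hp.acc (h3.trans h)).1
  have ep : |p.2.1| = p.2.1 := abs_of_pos (by linarith)
  have eq : |q.2.1| = q.2.1 := abs_of_pos (by linarith)
  have a2 := hp.reg.zW
  have a3 := (hq.far (eq.symm ▸ h3)).2
  rw [ep] at a2
  rw [eq] at a3
  have a4 : 0.94 * WW p ≤ WW q := by
    have b1 : 0.94 * WW p ≤ q.2.1 * WW q * WW p := by gcongr
    have b2 : q.2.1 * WW q * WW p ≤ p.2.1 * WW q * WW p := by gcongr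
    nlinarith
  have a5 : |p.1.im| ≤ 100 * μ := (abs_im_le_norm _).trans hp.na
  have a6 : |de μ p (fld μ p)| ≤ 2 * (1 + 1 / 10 ^ 8) * (8.001 * WW p ^ 3) * (100 * μ) := by
    rw [de_fld, abs_neg, abs_mul, abs_of_pos (by positivity)]
    gcongr
  have a7 : (0.94 * WW p) * (7.5 * WW p ^ 2) ≤ WW q * -(fld μ p).2.2 := by gcongr
  have a8 := mul_le_mul_of_nonneg_left a7 m.le
  have a9 : 0 ≤ μ * WW p ^ 3 := by positivity
  nlinarith

/-- the energy is almost constant far from the binary -/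
theorem MKUP_eps (h : Sol μ u a b) (hab : a ≤ b) (hv : ∀ t ∈ Icc a b, 0 ≤ (u t).2.2)
    (h3 : 3 ≤ (u a).2.1) :
    (u b).2.2 ≤ (u a).2.2 ∧ |eps μ (u a) - eps μ (u b)| ≤ WW (u a) / 10 ^ 5 := by
  have ha : a ∈ Icc a b := ⟨le_rfl, hab⟩
  have hb : b ∈ Icc a b := ⟨hab, le_rfl⟩
  have hz : ∀ t ∈ Icc a b, (u a).2.1 ≤ (u t).2.1 := fun t ht => MKUP_mono h hv ha ht ht.1
  have h1 := le_of_deriv (fun _ ht => (d3 (h.der ht)).fun_neg)
    (fun t ht => le_trans (by positivity) ((h.adm t ht).acc (h3.trans (hz t ht))).1) ha hb hab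
  have h2 := norm_sub_le_of' (fun t ht => deps (μ := μ) (h.reg t ht) (h.der ht))
    (fun _ ht => ((d3 (h.der ht)).fun_neg).const_mul (228 * μ * WW (u a)))
    (fun t ht => MKUP_rate (h.adm t ht) (h.adm a ha) h3 (hz t ht)) a ha
  rw [Real.norm_eq_abs] at h2
  refine ⟨by linarith, h2.trans ?_⟩
  have m := h.gl.pos
  have m' := h.gl.le
  have w := (h.adm a ha).W
  have v1 := (abs_le.1 (h.adm a ha).v).2
  have v2 := hv b hb
  have h4 : 228 * μ * WW (u a) * ((u a).2.2 - (u b).2.2) ≤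
      228 * (1 / 10 ^ 8) * WW (u a) * 4.01 := by
    gcongr
    · linarith
    · linarith
  nlinarith

theorem p_MKUP :
    S_MKUP := by
  intro μ u η a b h hab z0 hv zb η0 η1 he
  have ha : a ∈ Icc a b := ⟨le_rfl, hab⟩
  have hb : b ∈ Icc a b := ⟨hab, le_rfl⟩
  obtain ⟨c, hc, zc⟩ := intermediate_value_Icc hab (contOn_of fun _ ht => d2 (h.der ht))
    (show (3 : ℝ) ∈ Icc (u a).2.1 (u b).2.1 from ⟨by rw [z0]; norm_num, zb⟩)
  replace zc : (u c).2.1 = 3 := zc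
  have i1 : Icc a c ⊆ Icc a b := Icc_subset_Icc_right hc.2
  have i2 : Icc c b ⊆ Icc a b := Icc_subset_Icc_left hc.1
  have near : ∀ t ∈ Icc a c, 0 ≤ (u t).2.1 ∧ (u t).2.1 ≤ 3 ∧ 2.2 ≤ (u t).2.2 := by
    intro t ht
    have h1 := MKUP_mono h hv ha (i1 ht) ht.1
    have h2 := MKUP_mono h hv (i1 ht) hc ht.2
    rw [z0] at h1
    rw [zc] at h2
    have h3 := ((h.adm t (i1 ht)).near (abs_le.2 ⟨by linarith, h2⟩)).2
    rw [abs_of_nonneg (hv t (i1 ht))] at h3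
    exact ⟨h1, h2, h3⟩
  have len : c - a ≤ 3 / 2 := by
    have := sub_le_of (K := fun t => 2 * t) (K' := fun _ => 2 * 1)
      (fun t _ => (hasDerivAt_id' t).const_mul 2) (fun _ ht => d2 (h.der (i1 ht)))
      (fun t ht => by
        have h1 := (h.adm t (i1 ht)).r.1
        have h2 := (near t ht).2.2
        have h3 : 0.99999 ^ 2 * 2.2 ≤ rr (u t) ^ 2 * (u t).2.2 := by gcongr
        change 2 * 1 ≤ rr (u t) ^ 2 * (u t).2.2
        linarith) ⟨le_rfl, hc.1⟩ ⟨hc.1, le_rfl⟩ hc.1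
    rw [zc, z0] at this
    linarith
  refine ⟨h, z0, c, ⟨hc.1, by linarith⟩, fun t ht => ?_, h.mono hc.1 le_rfl, hc.2, η0, η1,
    fun t ht => ?_⟩
  · obtain ⟨h1, h2, h3⟩ := near t ht
    exact ⟨h1, h2, by linarith⟩
  · have h3 : 3 ≤ (u t).2.1 := zc ▸ MKUP_mono h hv hc (i2 ht) ht.1
    have i3 : Icc t b ⊆ Icc a b := Icc_subset_Icc_left (i2 ht).1
    obtain ⟨h4, h5⟩ := MKUP_eps (h.mono (i2 ht).1 le_rfl) ht.2 (fun s hs => hv s (i3 hs)) h3
    have v1 := hv t (i2 ht)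
    have v2 := hv b hb
    have h6 : (η + (u b).2.2) ^ 2 ≤ (η + (u t).2.2) ^ 2 := by gcongr
    have h7 := v_sq μ (u t)
    have w := (h.adm t (i2 ht)).W
    have m := mul_pos h.gl.pos w
    have m' := mul_le_mul_of_nonneg_right h.gl.le w.le
    obtain ⟨h8, h9⟩ := abs_le.1 h5
    obtain ⟨h10, h11⟩ := abs_le.1 he
    have h12 := mul_nonneg η0 v1
    have h13 := sq_nonneg (η - (u t).2.2)
    refine ⟨h3, v1, ?_, ?_⟩ <;> nlinarith

end Pool.Agent.P.MP_9ae58c_an.B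

end

section

/-! Step UPT. -/

namespace Pool.Agent.P.MP_9ae58c_an.B

open Set Filter Topology Complex

theorem UPT_inv {μ η c b : ℝ} {u : ℝ → St} (h : Gau μ u η c b) {t : ℝ} (ht : t ∈ Icc c b) :
    3 / 700 * (t - c) ≤ ((η + (u t).2.2) ^ 3)⁻¹ - ((η + (u c).2.2) ^ 3)⁻¹ ∧
      ((η + (u t).2.2) ^ 3)⁻¹ - ((η + (u c).2.2) ^ 3)⁻¹ ≤ 3 / 7 * (t - c) := by
  have d : ∀ s ∈ Icc c b, HasDerivAt (fun s => ((η + (u s).2.2) ^ 3)⁻¹)
      (3 * (-(fld μ (u s)).2.2 / (η + (u s).2.2) ^ 4)) s := fun s hs => by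
    have g := (h.G hs).1.ne'
    refine (((h.dv hs).1.fun_pow 3).fun_inv (pow_ne_zero 3 g)).congr_deriv ?_
    norm_num
    field_simp
  have hc : c ∈ Icc c b := ⟨le_rfl, h.le⟩
  have a1 := sub_le_of (fun s _ => (hasDerivAt_id' s).const_mul (3 / 700 : ℝ)) d (fun s hs => by
    have : 1 / 700 ≤ -(fld μ (u s)).2.2 / (η + (u s).2.2) ^ 4 := by
      rw [le_div_iff₀ (pow_pos (h.G hs).1 4)]
      linarith [(h.dv hs).2.1]
    linarith) hc ht ht.1
  have a2 := sub_le_of d (fun s _ => (hasDerivAt_id' s).const_mul (3 / 7 : ℝ)) (fun s hs => by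
    have : -(fld μ (u s)).2.2 / (η + (u s).2.2) ^ 4 ≤ 1 / 7 := by
      rw [div_le_iff₀ (pow_pos (h.G hs).1 4)]
      linarith [(h.dv hs).2.2]
    linarith) hc ht ht.1
  constructor <;> linarith

theorem UPT_v {μ η c b : ℝ} {u : ℝ → St} (h : Gau μ u η c b) {t : ℝ} (ht : t ∈ Icc c b) :
    (η + (u b).2.2) ^ 4 / 700 * (b - t) ≤ (u t).2.2 := by
  have hb : b ∈ Icc c b := ⟨h.le, le_rfl⟩
  have a := sub_le_of (fun s _ => (hasDerivAt_id' s).const_mul ((η + (u b).2.2) ^ 4 / 700))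
    (fun s hs => (h.dv hs).1.fun_neg) (fun s hs => by
      have g := (h.G hb).1.le
      have e := h.anti hs hb hs.2
      have : (η + (u b).2.2) ^ 4 ≤ (η + (u s).2.2) ^ 4 := by gcongr
      linarith [(h.dv hs).2.1]) ht hb ht.2
  linarith [(h.far b hb).2.1]

theorem p_UPT :
    S_UPT := by
  intro μ u η a b h t ht
  obtain ⟨c, e1, e2, e3⟩ := h.ex
  have η0 := e3.η0
  have η1 := e3.η1
  have hp := h.sol.adm t ht
  have t0 := ht.1
  rcases le_total t c with e | e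
  · obtain ⟨z0, z3, v2⟩ := e2 t ⟨t0, e⟩
    have w := (hp.near (by rwa [abs_of_nonneg z0])).1
    have v4 := (abs_le.1 hp.v).2
    have g1 : (2 : ℝ) ^ 3 ≤ (η + (u t).2.2) ^ 3 := by gcongr; linarith
    have g2 : (η + (u t).2.2) ^ 3 ≤ 5.01 ^ 3 := by gcongr; linarith
    have s := v_sq μ (u t)
    have ep := abs_le.1 hp.eps'
    have m0 := mul_pos hp.pos hp.W
    have m1 := mul_le_mul_of_nonneg_right hp.le hp.W.le
    have i : Icc a c ⊆ Icc a b := Icc_subset_Icc_right e3.le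
    have z := sub_le_of (fun s _ => hasDerivAt_id' s) (fun s hs => d2 (h.sol.der (i hs)))
      (fun s hs => by
        have r := (h.sol.adm s (i hs)).r.1
        have : 0.99999 ^ 2 * 2 ≤ rr (u s) ^ 2 * (u s).2.2 := by gcongr; exact (e2 s hs).2.2
        exact le_trans (by norm_num) this) ⟨le_rfl, e1.1⟩ ⟨t0, e⟩ t0
    refine ⟨by nlinarith, by nlinarith [e1.2], by nlinarith [sq_nonneg (η - (u t).2.2)],
      by nlinarith, (min_le_right _ _).trans (by linarith [h.z0]),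
      (min_le_left _ _).trans (by linarith), fun _ => by linarith⟩
  · have ht' : t ∈ Icc c b := ⟨e, ht.2⟩
    obtain ⟨z3, -, w1, w2⟩ := e3.far t ht'
    obtain ⟨a1, a2⟩ := UPT_inv e3 ht'
    have v := UPT_v e3 ht'
    have hb : b ∈ Icc c b := ⟨e3.le, le_rfl⟩
    have g := pow_pos (e3.G ht').1 3
    have gc := e3.G ⟨le_rfl, e3.le⟩
    have v2 := (e2 c ⟨e1.1, le_rfl⟩).2.2
    have g1 : ((η + (u c).2.2) ^ 3)⁻¹ ≤ (2 ^ 3)⁻¹ := by gcongr; linarith
    have g2 : (5.01 ^ 3)⁻¹ ≤ ((η + (u c).2.2) ^ 3)⁻¹ := by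
      have := gc.1
      gcongr
      exact gc.2
    have g4 : η ^ 4 ≤ (η + (u b).2.2) ^ 4 := by gcongr; linarith [(e3.far b hb).2.1]
    refine ⟨?_, ?_, w1, by nlinarith [sq_nonneg (η + (u t).2.2)],
      (min_le_left _ _).trans (by linarith), (min_le_right _ _).trans (le_trans ?_ v),
      fun l => lt_of_lt_of_le (mul_pos (div_pos (pow_pos (e3.G hb).1 4) (by norm_num))
        (sub_pos.2 l)) v⟩
    · rw [← div_le_iff₀ g, one_div]
      linarith [e1.1]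
    · rw [← le_div_iff₀ g, div_eq_mul_inv]
      norm_num at g2 ⊢
      linarith [e1.2]
    · gcongr
      linarith [ht.2]

end Pool.Agent.P.MP_9ae58c_an.B

end

section

/-! Step TAILA. -/

namespace Pool.Agent.P.MP_9ae58c_an.B

open Set Filter Topology Complex

theorem TAILA_num {g W G τ : ℝ} (hW : 0 < W) (hτ : 0 < τ) (h1 : g ≤ 8.001 * W ^ 3)
    (h2 : W ≤ G ^ 2 / 3) (h3 : 1 ≤ τ * G ^ 3) (h4 : τ * G ^ 3 ≤ 600) :
    g ≤ 2 * 10 ^ 5 / τ ^ 2 := by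
  have h5 : W ^ 3 ≤ (G ^ 2 / 3) ^ 3 := by gcongr
  have h6 : (τ * G ^ 3) ^ 2 ≤ 600 ^ 2 := by gcongr
  have h7 : W ^ 3 * τ ^ 2 ≤ (G ^ 2 / 3) ^ 3 * τ ^ 2 := by gcongr
  have h8 : g * τ ^ 2 ≤ 8.001 * W ^ 3 * τ ^ 2 := by gcongr
  have h9 : (G ^ 2 / 3) ^ 3 * τ ^ 2 = (τ * G ^ 3) ^ 2 / 27 := by ring
  rw [le_div_iff₀ (by positivity)]
  linarith

theorem p_TAILA (hUPT : S_UPT) :
    S_TAILA := by
  intro μ u η a b h t t' h1 h2 h3
  have m := h.sol.gl.pos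
  have i : Icc t t' ⊆ Icc a b := Icc_subset_Icc h1 h3
  have p : ∀ s ∈ Icc t t', 0 < 1 + s - a := fun s hs => by linarith [hs.1]
  have key := norm_sub_le_of (f := bb u) (Φ := fun s => -(2 * 10 ^ 5 * μ) / (1 + s - a))
    (Φ' := fun s => μ * (2 * 10 ^ 5 / (1 + s - a) ^ 2))
    (fun s hs => h.sol.gl.dbb (h.sol.reg s (i hs)))
    (fun s hs => ((hasDerivAt_const s _).fun_div (((hasDerivAt_id' s).const_add 1).sub_const a)
      (p s hs).ne').congr_deriv (by ring))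
    (fun s hs => by
      obtain ⟨e1, e2, -, e3, -⟩ := hUPT μ u η a b h s (i hs)
      have ad := h.sol.adm s (i hs)
      rw [norm_neg, norm_mul, norm_mul, norm_I, norm_ex, norm_real, one_mul, one_mul,
        Real.norm_of_nonneg (mul_pos m ad.g.1).le]
      exact mul_le_mul_of_nonneg_left (TAILA_num ad.W (p s hs) ad.g.2 e3 e1 e2) m.le)
    t' ⟨h2, le_rfl⟩
  have q : 0 ≤ 2 * 10 ^ 5 * μ / (1 + t' - a) :=
    div_nonneg (by positivity) (p t' ⟨h2, le_rfl⟩).le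
  simp only [neg_div] at key
  linarith

end Pool.Agent.P.MP_9ae58c_an.B

end
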