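import Pool.Agent.P.MP_9ae58c_an.B.IfA

section

/-! Step ADI. -/

namespace Pool.Agent.P.MP_9ae58c_an.B

open Set Filter Topology Complex

theorem ADI_dg {μ w A : ℝ} {p : St} (h : Adm μ p) (hz : 3 ≤ p.2.1) (hv : |p.2.2| ≤ w)
    (hW : WW p ≤ w ^ 2) (hA : ‖p.1‖ ≤ A) :
    |dg p (fld μ p)| ≤ 3.4 * (w ^ 5 + w ^ 2 * A) * -(fld μ p).2.2 := by
  obtain ⟨r1, r2⟩ := h.r
  have W := h.W
  have w0 : 0 ≤ w := (abs_nonneg _).trans hv
  have A0 : 0 ≤ A := (norm_nonneg _).trans hA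
  have e : dg p (fld μ p) = WW p ^ 2 * (24 * rr p ^ 4 * WW p * (1 - (rr p * WW p) ^ 2) * p.1.im -
      24 * rr p ^ 5 * WW p ^ 2 * (p.2.1 * WW p) * p.2.2) := by
    rw [dg, dW_fld, fld_re]; ring
  have b0 : |1 - (rr p * WW p) ^ 2| ≤ 1 := by
    have h1 := h.reg.rW
    have h2 : 0 ≤ rr p * WW p := by positivity
    rw [abs_le]; constructor <;> nlinarith
  have b1 : |24 * rr p ^ 4 * WW p * (1 - (rr p * WW p) ^ 2) * p.1.im| ≤
      24 * 1.00001 ^ 4 * w ^ 2 * 1 * A := by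
    rw [abs_mul, abs_mul, abs_of_pos (show 0 < 24 * rr p ^ 4 * WW p by positivity)]
    gcongr
    exact (abs_im_le_norm _).trans hA
  have b2 : |24 * rr p ^ 5 * WW p ^ 2 * (p.2.1 * WW p) * p.2.2| ≤
      24 * 1.00001 ^ 5 * (w ^ 2) ^ 2 * 1 * w := by
    rw [abs_mul, abs_mul, abs_of_pos (show 0 < 24 * rr p ^ 5 * WW p ^ 2 by positivity), abs_mul,
      abs_of_pos W]
    gcongr
    exact h.reg.zW
  have p1 : 0 ≤ w ^ 2 * A := by positivity
  have p2 : 0 ≤ w ^ 5 := by positivity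
  have b3 : |24 * rr p ^ 4 * WW p * (1 - (rr p * WW p) ^ 2) * p.1.im -
      24 * rr p ^ 5 * WW p ^ 2 * (p.2.1 * WW p) * p.2.2| ≤ 25 * (w ^ 5 + w ^ 2 * A) :=
    (abs_sub _ _).trans (by nlinarith)
  have b4 := (h.acc hz).1
  rw [e, abs_mul, abs_of_pos (pow_pos W 2)]
  calc _ ≤ WW p ^ 2 * (25 * (w ^ 5 + w ^ 2 * A)) := by gcongr
    _ ≤ 3.4 * (w ^ 5 + w ^ 2 * A) * (7.5 * WW p ^ 2) := by
      nlinarith [mul_nonneg (add_nonneg p2 p1) (sq_nonneg (WW p))]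
    _ ≤ _ := by gcongr

theorem ADI_one {μ a b w A : ℝ} {u : ℝ → St} (h : Sol μ u a b)
    (hf : ∀ t ∈ Icc a b, 3 ≤ (u t).2.1 ∧ |(u t).2.2| ≤ w ∧ WW (u t) ≤ w ^ 2)
    (hA : ∀ t ∈ Icc a b, ‖(u t).1‖ ≤ A) {s t : ℝ} (hs : s ∈ Icc a b) (ht : t ∈ Icc a b) :
    ‖bb u t - bb u s‖ ≤ 23 * μ * w ^ 6 + 7 * μ * w ^ 3 * A := by
  wlog hst : s ≤ t generalizing s t
  · rw [norm_sub_rev]
    exact this ht hs (le_of_not_ge hst)
  have m := h.gl.pos
  have w0 : 0 ≤ w := (abs_nonneg _).trans (hf s hs).2.1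
  have A0 : 0 ≤ A := (norm_nonneg _).trans (hA s hs)
  have i : Icc s t ⊆ Icc a b := Icc_subset_Icc hs.1 ht.2
  have d : ∀ x ∈ Icc s t, HasDerivAt (fun x => bb u x - ex (-x) * (μ * gg (u x) : ℝ))
      (-(ex (-x) * (μ * dg (u x) (fld μ (u x)) : ℝ))) x := fun x hx => by
    have r := h.reg x (i hx)
    refine ((h.gl.dbb r).fun_sub (((hasDerivAt_ex (-x)).scomp x (hasDerivAt_neg x)).fun_mul
      ((dgg r (h.gl.der x r)).const_mul μ).ofReal_comp)).congr_deriv ?_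
    simp
  have k := norm_sub_le_of d
    (fun x hx => ((d3 (h.der (i hx))).fun_neg).const_mul (μ * (3.4 * (w ^ 5 + w ^ 2 * A))))
    (fun x hx => by
      obtain ⟨f1, f2, f3⟩ := hf x (i hx)
      rw [norm_neg, norm_mul, norm_ex, one_mul, norm_real, Real.norm_eq_abs, abs_mul, abs_of_pos m,
        mul_assoc]
      exact mul_le_mul_of_nonneg_left (ADI_dg (h.adm x (i hx)) f1 f2 f3 (hA x (i hx))) m.le)
    t ⟨hst, le_rfl⟩
  have g : ∀ x ∈ Icc a b, ‖ex (-x) * (μ * gg (u x) : ℝ)‖ ≤ μ * (8.001 * w ^ 6) := fun x hx => by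
    obtain ⟨g1, g2⟩ := (h.adm x hx).g
    have W := (h.adm x hx).W
    have : WW (u x) ^ 3 ≤ (w ^ 2) ^ 3 := by gcongr; exact (hf x hx).2.2
    rw [norm_mul, norm_ex, one_mul, norm_real, Real.norm_eq_abs, abs_of_pos (mul_pos m g1)]
    exact mul_le_mul_of_nonneg_left (by nlinarith) m.le
  have v : -(u t).2.2 - -(u s).2.2 ≤ 2 * w := by
    linarith [abs_le.1 (hf s hs).2.1, abs_le.1 (hf t ht).2.1]
  have k2 : μ * (3.4 * (w ^ 5 + w ^ 2 * A)) * (-(u t).2.2 - -(u s).2.2) ≤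
      μ * (3.4 * (w ^ 5 + w ^ 2 * A)) * (2 * w) := by gcongr
  have e : bb u t - bb u s = (bb u t - ex (-t) * (μ * gg (u t) : ℝ) -
      (bb u s - ex (-s) * (μ * gg (u s) : ℝ))) + (ex (-t) * (μ * gg (u t) : ℝ) -
        ex (-s) * (μ * gg (u s) : ℝ)) := by ring
  rw [e]
  refine (norm_add_le _ _).trans ?_
  have n := norm_sub_le (ex (-t) * (μ * gg (u t) : ℝ)) (ex (-s) * (μ * gg (u s) : ℝ))
  have q1 : 0 ≤ μ * w ^ 6 := by positivity
  have q2 : 0 ≤ μ * w ^ 3 * A := by positivity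
  nlinarith [g t ht, g s hs]

theorem p_ADI :
    S_ADI := by
  refine ⟨24, by norm_num, fun μ u a b w h hw hf s hs t ht => ?_⟩
  have m := h.gl.pos
  have m' := h.gl.le
  have w0 : 0 ≤ w := (abs_nonneg _).trans (hf s hs).2.1
  have h1 : ∀ x ∈ Icc a b, ‖(u x).1‖ ≤ ‖(u s).1‖ + (23 * μ * w ^ 6 + 7 * μ * w ^ 3 * (100 * μ)) :=
    fun x hx => by
      have := ADI_one h hf (fun t ht => (h.adm t ht).na) hs hx
      have n := norm_le_insert' (bb u x) (bb u s)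
      rw [norm_bb, norm_bb] at n
      linarith
  refine (ADI_one h hf h1 hs ht).trans ?_
  have w3 : w ^ 3 ≤ 6 ^ 3 := by gcongr
  have c1 : μ * w ^ 3 ≤ 1 / 10 ^ 8 * 6 ^ 3 := by gcongr
  have c2 : μ * μ ≤ 1 / 10 ^ 8 * (1 / 10 ^ 8) := by gcongr
  have q1 : 0 ≤ μ * w ^ 6 := by positivity
  have q2 : 0 ≤ μ * w ^ 3 * ‖(u s).1‖ := by positivity
  nlinarith [mul_le_mul_of_nonneg_left c1 q1, mul_le_mul_of_nonneg_left c2 q1]

end Pool.Agent.P.MP_9ae58c_an.B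

end

section

/-! Step KAP. -/

namespace Pool.Agent.P.MP_9ae58c_an.B

open Set Filter Topology Complex

namespace KAP

variable {μ a b t : ℝ} {p : St} {u : ℝ → St}

theorem dimb (h : Sol μ u a b) (ht : t ∈ Icc a b) :
    HasDerivAt (fun t => (bb u t).im) (-(μ * gg (u t) * Real.cos t)) t := by
  have h1 : HasDerivAt (fun t => (bb u t).im) (-(I * ex (-t) * (μ * gg (u t) : ℝ))).im t :=
    imCLM.hasFDerivAt.comp_hasDerivAt t (h.gl.dbb (h.reg t ht))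
  refine h1.congr_deriv ?_
  rw [neg_im, im_mul_ofReal, I_mul_im, ex_re, Real.cos_neg]
  ring

theorem dz (h : Sol μ u a b) (ht : t ∈ Icc a b) :
    HasDerivAt (fun t => (u t).2.1) (rr (u t) ^ 2 * (u t).2.2) t := d2 (h.der ht)

theorem zle (h : Adm μ p) (hv : 0 ≤ p.2.2) : rr p ^ 2 * p.2.2 ≤ 4.0101 := by
  obtain ⟨r1, r2⟩ := h.r
  have v := (abs_le.1 h.v).2
  have : rr p ^ 2 * p.2.2 ≤ 1.00001 ^ 2 * 4.01 := by gcongr
  linarith

theorem zge (h : Adm μ p) (hv : 0 ≤ p.2.2) (hz : |p.2.1| ≤ 3) : 2.19 ≤ rr p ^ 2 * p.2.2 := by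
  obtain ⟨r1, r2⟩ := h.r
  have v := (h.near hz).2
  rw [abs_of_nonneg hv] at v
  have : 0.99999 ^ 2 * 2.2 ≤ rr p ^ 2 * p.2.2 := by gcongr
  linarith

theorem gge (h : Adm μ p) (h0 : 0 ≤ p.2.1) (hz : p.2.1 ≤ 1.003) : 2.8 ≤ gg p := by
  obtain ⟨r1, r2⟩ := h.r
  have w := h.W
  have h1 : p.2.1 ^ 2 + rr p ^ 2 ≤ 2.0061 := by nlinarith
  have h2 : 0.705 ≤ WW p := by
    by_contra hc
    have h3 : WW p ^ 2 ≤ 0.705 ^ 2 := by gcongr; exact (not_le.1 hc).le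
    have h4 : WW p ^ 2 * (p.2.1 ^ 2 + rr p ^ 2) ≤ 0.705 ^ 2 * 2.0061 := by
      have := h.reg.D
      gcongr
    rw [h.reg.W_sq] at h4
    norm_num at h4
  have h5 : 8 * 0.99999 ^ 3 * 0.705 ^ 3 ≤ 8 * rr p ^ 3 * WW p ^ 3 := by gcongr
  rw [gg]
  linarith [show (2.8 : ℝ) ≤ 8 * 0.99999 ^ 3 * 0.705 ^ 3 by norm_num]

theorem gle (h : Adm μ p) (hz : 3 ≤ p.2.1) :
    gg p ≤ 0.0667 * ((p.2.2 ^ 2 + 1.01 / 10 ^ 4) * -(fld μ p).2.2) := by
  have w := h.W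
  have a1 := (h.acc hz).1
  have a2 : 16 * WW p ≤ p.2.2 ^ 2 + 1.01 / 10 ^ 4 := by
    nlinarith [v_sq μ p, abs_le.1 h.eps', mul_pos h.pos w]
  have a3 : 16 * WW p * (7.5 * WW p ^ 2) ≤ (p.2.2 ^ 2 + 1.01 / 10 ^ 4) * -(fld μ p).2.2 :=
    mul_le_mul a2 a1 (by positivity) (by positivity)
  have a4 := pow_pos w 3
  nlinarith [h.g.2]

theorem vle (h : Adm μ p) (hz : 3 ≤ p.2.1) : p.2.2 ≤ 2.31 := by
  have w := h.W
  have a1 := (h.far (hz.trans (le_abs_self _))).1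
  have a2 : (1 + μ) * WW p ≤ (1 + 1 / 10 ^ 8) * (1 / 3) := by
    have := h.le
    have := h.pos
    gcongr
  have a3 : p.2.2 ^ 2 ≤ 2.31 ^ 2 := by nlinarith [v_sq μ p, abs_le.1 h.eps']
  exact (abs_le_of_sq_le_sq' a3 (by norm_num)).2

end KAP

open KAP in
theorem p_KAP :
    S_KAP := by
  intro μ u b h hb z0 hv zb
  have m := h.gl.pos
  have mono : ∀ s ∈ Icc 0 b, ∀ t ∈ Icc 0 b, s ≤ t → (u s).2.1 ≤ (u t).2.1 := fun s hs t ht e =>
    le_of_deriv (fun t ht => dz h ht) (fun t ht => mul_nonneg (sq_nonneg _) (hv t ht)) hs ht e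
  obtain ⟨c, hc, zc⟩ : ∃ c ∈ Icc 0 b, (u c).2.1 = 3 :=
    intermediate_value_Icc hb (contOn_of fun t ht => dz h ht) ⟨by simp [z0], zb⟩
  have i0 : Icc 0 c ⊆ Icc 0 b := Icc_subset_Icc_right hc.2
  have i1 : Icc c b ⊆ Icc 0 b := Icc_subset_Icc_left hc.1
  have l0 : (0 : ℝ) ∈ Icc 0 b := ⟨le_rfl, hb⟩
  have pos : ∀ t ∈ Icc 0 b, 0 ≤ (u t).2.1 := fun t ht => z0 ▸ mono 0 l0 t ht ht.1
  have up : ∀ t ∈ Icc 0 b, (u t).2.1 ≤ 4.0101 * t := fun t ht => by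
    have := sub_le_of (fun t ht => dz h ht) (fun t _ => (hasDerivAt_id' t).const_mul 4.0101)
      (fun t ht => by simpa using zle (h.adm t ht) (hv t ht)) l0 ht ht.1
    linarith
  have c1 : 1 / 4 ≤ c := by linarith [up c hc]
  have c2 : c ≤ 1.37 := by
    have := sub_le_of (a := 0) (b := c) (fun t _ => (hasDerivAt_id' t).const_mul 2.19)
      (fun t ht => dz h (i0 ht))
      (fun t ht => by
        have e : |(u t).2.1| ≤ 3 := by
          rw [abs_of_nonneg (pos t (i0 ht))]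
          exact zc ▸ mono t (i0 ht) c hc ht.2
        simpa using zge (h.adm t (i0 ht)) (hv t (i0 ht)) e) ⟨le_rfl, hc.1⟩ ⟨hc.1, le_rfl⟩ hc.1
    linarith
  have i2 : Icc (0 : ℝ) (1 / 4) ⊆ Icc 0 b := Icc_subset_Icc_right (c1.trans hc.2)
  have i3 : Icc (1 / 4 : ℝ) c ⊆ Icc 0 b := Icc_subset_Icc (by norm_num) hc.2
  have s1 := sub_le_of (a := 0) (b := 1 / 4) (fun t ht => dimb h (i2 ht))
    (fun t _ => (hasDerivAt_id' t).const_mul (-(2.7 * μ)))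
    (fun t ht => by
      have g := gge (h.adm t (i2 ht)) (pos t (i2 ht)) (by linarith [up t (i2 ht), ht.2])
      have k : 0.968 ≤ Real.cos t := by
        nlinarith [Real.one_sub_sq_div_two_le_cos (x := t), ht.1, ht.2]
      have : μ * 2.8 * 0.968 ≤ μ * gg (u t) * Real.cos t := by gcongr
      linarith) ⟨le_rfl, by norm_num⟩ ⟨by norm_num, le_rfl⟩ (by norm_num)
  have s2 := sub_le_of (a := 1 / 4) (b := c) (fun t ht => dimb h (i3 ht))
    (fun t _ => hasDerivAt_const t (0 : ℝ))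
    (fun t ht => by
      have g := (h.adm t (i3 ht)).g.1
      have k : 0 ≤ Real.cos t := Real.cos_nonneg_of_neg_pi_div_two_le_of_le
        (by linarith [Real.pi_gt_three, ht.1]) (by linarith [Real.pi_gt_three, ht.2])
      have : 0 ≤ μ * gg (u t) * Real.cos t := by positivity
      linarith) ⟨le_rfl, c1⟩ ⟨c1, le_rfl⟩ c1
  have s3 := sub_le_of (a := c) (b := b) (fun t ht => dimb h (i1 ht))
    (Φ := fun t => -(μ * 0.0667) * ((u t).2.2 ^ 3 / 3 + 1.01 / 10 ^ 4 * (u t).2.2))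
    (Φ' := fun t => μ * (0.0667 * (((u t).2.2 ^ 2 + 1.01 / 10 ^ 4) * -(fld μ (u t)).2.2)))
    (fun t ht => (((((d3 (h.der (i1 ht))).fun_pow 3).div_const 3).fun_add
      ((d3 (h.der (i1 ht))).const_mul (1.01 / 10 ^ 4))).const_mul (-(μ * 0.0667))).congr_deriv
        (by norm_num; ring))
    (fun t ht => by
      have g := (h.adm t (i1 ht)).g.1
      have g' := gle (h.adm t (i1 ht)) (zc ▸ mono c hc t (i1 ht) ht.1)
      have k : gg (u t) * -1 ≤ gg (u t) * Real.cos t :=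
        mul_le_mul_of_nonneg_left (Real.neg_one_le_cos t) g.le
      have : -(gg (u t) * Real.cos t) ≤
          0.0667 * (((u t).2.2 ^ 2 + 1.01 / 10 ^ 4) * -(fld μ (u t)).2.2) := by linarith
      have := mul_le_mul_of_nonneg_left this m.le
      linarith) ⟨le_rfl, hc.2⟩ ⟨hc.2, le_rfl⟩ hc.2
  have vc := vle (h.adm c hc) zc.ge
  have vc0 := hv c hc
  have vb := hv b ⟨hb, le_rfl⟩
  have v3 : (u c).2.2 ^ 3 ≤ 2.31 ^ 3 := by gcongr
  have v4 : 0 ≤ (u b).2.2 ^ 3 := by positivity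
  have e1 : μ * 0.0667 * ((u c).2.2 ^ 3 / 3 + 1.01 / 10 ^ 4 * (u c).2.2) ≤ μ * 0.0667 * 4.2 := by
    gcongr
    nlinarith
  have e2 : 0 ≤ μ * 0.0667 * ((u b).2.2 ^ 3 / 3 + 1.01 / 10 ^ 4 * (u b).2.2) := by positivity
  simp only [bb_zero] at s1
  linarith

end Pool.Agent.P.MP_9ae58c_an.B

end

section

/-! Step HOLD. -/

namespace Pool.Agent.P.MP_9ae58c_an.B

open Set Filter Topology Complex

theorem HOLD_seg {μ a b : ℝ} {u : ℝ → St} (h : Sol μ u a b) (hz : (u a).2.1 = 0)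
    (h0 : ∀ t ∈ Icc a b, 0 ≤ (u t).2.1) (hv : ∀ t ∈ Icc a b, 0 ≤ (u t).2.2) :
    (∀ s ∈ Icc a b, ∀ t ∈ Icc a b, s ≤ t → (u s).2.1 ≤ (u t).2.1) ∧
    ∀ t ∈ Icc a b, (t ≤ a + 3 → 1 ≤ (u t).2.2) ∧ min 1 (t - a) ≤ (u t).2.1 ∧
      (a + 3 / 2 ≤ t → 3 ≤ (u t).2.1) := by
  have dz : ∀ t ∈ Icc a b, HasDerivAt (fun t => (u t).2.1) (rr (u t) ^ 2 * (u t).2.2) t :=
    fun t ht => d2 (h.der ht)
  have r2 : ∀ t ∈ Icc a b, 0.9999 ≤ rr (u t) ^ 2 ∧ rr (u t) ^ 2 ≤ 1.0001 := fun t ht => by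
    obtain ⟨r1, r2⟩ := (h.adm t ht).r
    constructor <;> nlinarith
  have lin : ∀ (c t : ℝ), HasDerivAt (fun t => c * t) c t := fun c t => by
    simpa using (hasDerivAt_id t).const_mul c
  have mono : ∀ s ∈ Icc a b, ∀ t ∈ Icc a b, s ≤ t → (u s).2.1 ≤ (u t).2.1 := fun s hs t ht e =>
    le_of_deriv dz (fun t ht => mul_nonneg (sq_nonneg _) (hv t ht)) hs ht e
  refine ⟨mono, fun t ht => ?_⟩
  have ha : a ∈ Icc a b := ⟨le_rfl, ht.1.trans ht.2⟩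
  have A := h.adm t ht
  have up := sub_le_of dz (fun t _ => lin 4.02 t) (fun t ht => by
    nlinarith [r2 t ht, hv t ht, (abs_le.1 (h.adm t ht).v).2]) ha ht ht.1
  have low : 3 ≤ (u t).2.1 ∨ 2 * (t - a) ≤ (u t).2.1 := by
    refine (le_total 3 (u t).2.1).imp_right fun e => ?_
    have i : Icc a t ⊆ Icc a b := Icc_subset_Icc_right ht.2
    have := sub_le_of (fun t _ => lin 2 t) (fun s hs => dz s (i hs)) (fun s hs => by
      have h1 := ((h.adm s (i hs)).near (by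
        rw [abs_of_nonneg (h0 s (i hs))]; exact (mono s (i hs) t ht hs.2).trans e)).2
      rw [abs_of_nonneg (hv s (i hs))] at h1
      nlinarith [r2 s (i hs)]) ⟨le_rfl, ht.1⟩ ⟨ht.1, le_rfl⟩ ht.1
    linarith
  refine ⟨fun e => ?_, ?_, fun e => ?_⟩
  · have h1 := A.reg.W_ge
    rw [abs_of_nonneg (h0 t ht)] at h1
    have h2 : 1 ≤ 13.1 * WW (u t) := h1.trans (mul_le_mul_of_nonneg_right
      (by linarith [A.r.2]) A.W.le)
    have h3 : 1 ≤ (u t).2.2 ^ 2 := by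
      nlinarith [v_sq μ (u t), abs_le.1 A.eps', mul_pos A.pos A.W]
    nlinarith [hv t ht]
  · rcases low with e | e
    · exact (min_le_left _ _).trans (by linarith)
    · exact (min_le_right _ _).trans (by linarith [ht.1])
  · rcases low with e' | e' <;> linarith

theorem p_HOLD (hADM : S_ADM) :
    S_HOLD := by
  intro μ u a hu hz hv ha hH
  have cv : Continuous fun t => (u t).2.2 := hu.cont.snd.snd
  have ivt : ∀ t, a ≤ t → (u t).2.2 ≤ 0 → ∃ s ∈ Icc a t, (u s).2.2 = 0 := fun t ht e =>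
    intermediate_value_Icc' ht cv.continuousOn ⟨e, hv⟩
  have seg : ∀ b, (∀ t ∈ Icc a b, 0 ≤ (u t).2.2) → Sol μ u a b ∧
      (∀ s ∈ Icc a b, ∀ t ∈ Icc a b, s ≤ t → (u s).2.1 ≤ (u t).2.1) ∧
      ∀ t ∈ Icc a b, (t ≤ a + 3 → 1 ≤ (u t).2.2) ∧ min 1 (t - a) ≤ (u t).2.1 ∧
        (a + 3 / 2 ≤ t → 3 ≤ (u t).2.1) := fun b hb => by
    obtain ⟨h1, h2⟩ := hADM μ u a b hu ha hH (Or.inr ⟨hz.ge, hb⟩)
    exact ⟨h1, HOLD_seg h1 hz h2 hb⟩
  have first : (∀ t ∈ Icc a (a + 3), 0 ≤ (u t).2.2) → ∀ t ∈ Icc a (a + 3),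
      Adm μ (u t) ∧ min 1 (t - a) ≤ (u t).2.1 ∧ 1 ≤ (u t).2.2 ∧
        (a + 3 / 2 ≤ t → 3 ≤ (u t).2.1) := fun hb t ht => by
    obtain ⟨h1, -, h2⟩ := seg _ hb
    exact ⟨h1.adm t ht, (h2 t ht).2.1, (h2 t ht).1 ht.2, (h2 t ht).2.2⟩
  by_cases hS : ∃ t, a ≤ t ∧ (u t).2.2 = 0
  · have hc : IsClosed {t | a ≤ t ∧ (u t).2.2 = 0} :=
      isClosed_Ici.inter (isClosed_eq cv continuous_const)
    obtain ⟨⟨t1, t2⟩, t3⟩ := hc.isLeast_csInf hS ⟨a, fun t ht => ht.1⟩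
    generalize sInf {t | a ≤ t ∧ (u t).2.2 = 0} = tp at t1 t2 t3
    have hp : ∀ t ∈ Icc a tp, 0 ≤ (u t).2.2 := fun t ht => by
      by_contra e
      obtain ⟨s, hs, e'⟩ := ivt t ht.1 (not_le.1 e).le
      have : s = t := le_antisymm hs.2 (ht.2.trans (t3 ⟨hs.1, e'⟩))
      exact e (this ▸ e'.ge)
    obtain ⟨h1, -, h2⟩ := seg tp hp
    obtain ⟨h3, -, h4⟩ := h2 tp ⟨t1, le_rfl⟩
    have h5 : a + 3 ≤ tp := by
      by_contra e
      linarith [h3 (not_le.1 e).le]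
    exact ⟨first fun t ht => hp t ⟨ht.1, ht.2.trans h5⟩,
      Or.inl ⟨tp, t1, h1, hp, t2, h4 (by linarith)⟩⟩
  · have hp : ∀ t, a ≤ t → 0 < (u t).2.2 := fun t ht => by
      by_contra e
      obtain ⟨s, hs, e'⟩ := ivt t ht (not_lt.1 e)
      exact hS ⟨s, hs.1, e'⟩
    have sg := fun b => seg b fun t ht => (hp t ht.1).le
    refine ⟨first fun t ht => (hp t ht.1).le, Or.inr ⟨fun b => (sg b).1, hp, ?_⟩⟩
    refine tendsto_atTop.2 fun Z => ?_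
    suffices ∃ T, a ≤ T ∧ Z ≤ (u T).2.1 by
      obtain ⟨T, h1, h2⟩ := this
      filter_upwards [eventually_ge_atTop T] with t ht
      exact h2.trans ((sg t).2.1 T ⟨h1, ht⟩ t ⟨h1.trans ht, le_rfl⟩ ht)
    by_contra hn
    push Not at hn
    have hZ : 0 < Z := hz ▸ hn a le_rfl
    have q : 0 < (Z + 2) ^ 2 := by positivity
    obtain ⟨h1, -, h2⟩ := sg (a + 3 + 5 * (Z + 2) ^ 2)
    have i : Icc (a + 3) (a + 3 + 5 * (Z + 2) ^ 2) ⊆ Icc a (a + 3 + 5 * (Z + 2) ^ 2) :=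
      Icc_subset_Icc_left (by linarith)
    have e : a + 3 ≤ a + 3 + 5 * (Z + 2) ^ 2 := by linarith
    have := sub_le_of (K := fun t => t) (K' := fun _ => 1) (fun t _ => hasDerivAt_id' t)
      (fun t ht => ((d3 (h1.der (i ht))).fun_neg).const_mul ((Z + 2) ^ 2)) (fun t ht => by
        have A := h1.adm t (i ht)
        have z3 := (h2 t (i ht)).2.2 (by linarith [ht.1])
        have w := A.reg.W_ge
        rw [abs_of_nonneg (by linarith)] at w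
        have w2 : 1 ≤ (Z + 2) * WW (u t) := w.trans (mul_le_mul_of_nonneg_right
          (by linarith [A.r.2, hn t (i ht).1]) A.W.le)
        have w3 : 1 ≤ (Z + 2) ^ 2 * WW (u t) ^ 2 := by rw [← mul_pow]; exact one_le_pow₀ w2
        nlinarith [mul_le_mul_of_nonneg_left (A.acc z3).1 q.le]) ⟨le_rfl, e⟩ ⟨e, le_rfl⟩ e
    have v1 := (abs_le.1 (h1.adm _ (i ⟨le_rfl, e⟩)).v).2
    have v2 := hp (a + 3 + 5 * (Z + 2) ^ 2) (by linarith)
    nlinarith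

end Pool.Agent.P.MP_9ae58c_an.B

end

section

/-! Step FALL. -/

namespace Pool.Agent.P.MP_9ae58c_an.B

open Set Filter Topology Complex

theorem FALL_anti {μ a b : ℝ} {u : ℝ → St} (h : Sol μ u a b)
    (hz : ∀ t ∈ Icc a b, 0 ≤ (u t).2.1) {s t : ℝ} (hs : s ∈ Icc a b) (ht : t ∈ Icc a b)
    (e : s ≤ t) : (u t).2.2 ≤ (u s).2.2 := by
  have := le_of_deriv (fun t ht => (d3 (h.der ht)).fun_neg) (fun t ht => by
    have h1 := hz t ht
    have h2 := (h.reg t ht).W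
    have h3 := h.gl.pos
    simp only [fld, neg_neg]
    positivity) hs ht e
  linarith

theorem FALL_ivt {μ a t : ℝ} {u : ℝ → St} (h : Glob μ u) (ha : 0 ≤ (u a).2.1) (e : a ≤ t)
    (ht : (u t).2.1 ≤ 0) : ∃ c ∈ Icc a t, (u c).2.1 = 0 :=
  intermediate_value_Icc' e (f := fun t => (u t).2.1) h.cont.snd.fst.continuousOn ⟨ht, ha⟩

theorem FALL_zero (hADM : S_ADM) {μ a : ℝ} {u : ℝ → St} (h : Glob μ u) (h1 : 3 ≤ (u a).2.1)
    (h2 : (u a).2.2 ≤ 0) (h3 : ‖(u a).1‖ ≤ 70 * μ) (h4 : |Hh μ (u a)| ≤ μ ^ 2) :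
    ∃ t, a ≤ t ∧ (u t).2.1 = 0 := by
  by_contra hc
  push Not at hc
  have hp : ∀ t, a ≤ t → 0 < (u t).2.1 := fun t ht => not_le.1 fun e =>
    let ⟨c, h5, h6⟩ := FALL_ivt h (by linarith) ht e
    hc c h5.1 h6
  have hs : ∀ b, Sol μ u a b := fun b =>
    (hADM μ u a b h h3 h4 (Or.inl fun t ht => (hp t ht.1).le)).1
  obtain ⟨c, hc1, hc2⟩ := exists_hasDerivAt_eq_slope (fun t => (u t).2.2)
    (fun t => (fld μ (u t)).2.2) (show a < a + 1 by linarith) h.cont.snd.snd.continuousOn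
    fun t ht => d3 ((hs (a + 1)).der (Ioo_subset_Icc_self ht))
  have h5 : (fld μ (u c)).2.2 < 0 := by
    have a1 := hp c hc1.1.le
    have a2 := (hs (a + 1)).reg c (Ioo_subset_Icc_self hc1)
    have a3 := a2.W
    have a4 : 0 < rr (u c) := by linarith [a2.r.1]
    have a5 := h.pos
    simp only [fld, neg_lt_zero]
    positivity
  rw [hc2, add_sub_cancel_left, div_one] at h5
  obtain ⟨κ, hκ⟩ : ∃ κ, κ = -(u (a + 1)).2.2 / 2 := ⟨_, rfl⟩
  have κ0 : 0 < κ := by linarith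
  have z1 := hp (a + 1) (by linarith)
  have T0 : 0 < (u (a + 1)).2.1 / κ := div_pos z1 κ0
  set T := a + 1 + (u (a + 1)).2.1 / κ with hT
  have i : Icc (a + 1) T ⊆ Icc a T := Icc_subset_Icc_left (by linarith)
  have h6 := sub_le_of (a := a + 1) (b := T) (fun t ht => d2 ((hs T).der (i ht)))
    (fun t _ => (hasDerivAt_id' t).const_mul (-κ)) (fun t ht => by
      have a1 := FALL_anti (hs T) (fun t ht => (hp t ht.1).le)
        (i ⟨le_rfl, by linarith⟩) (i ht) ht.1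
      have a2 := ((hs T).reg t (i ht)).r.1
      have a3 : 1 / 2 ≤ rr (u t) ^ 2 := by nlinarith
      simp only [fld]
      nlinarith) ⟨le_rfl, by linarith⟩ ⟨by linarith, le_rfl⟩ (by linarith)
  have h7 : κ * T = κ * (a + 1) + (u (a + 1)).2.1 := by rw [hT]; field_simp
  linarith [hp T (by linarith)]

theorem p_FALL (hADM : S_ADM) (hMKUP : S_MKUP) :
    S_FALL := by
  intro μ u η a h h1 h2 h3 h4 η0 η1 h5
  have cl : IsClosed {t | a ≤ t ∧ (u t).2.1 = 0} :=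
    isClosed_Ici.inter (isClosed_eq h.cont.snd.fst continuous_const)
  have bd : BddBelow {t | a ≤ t ∧ (u t).2.1 = 0} := ⟨a, fun t ht => ht.1⟩
  obtain ⟨b1, b2⟩ := cl.csInf_mem (FALL_zero hADM h h1 h2 h3 h4) bd
  set b := sInf {t | a ≤ t ∧ (u t).2.1 = 0}
  have hz : ∀ t ∈ Icc a b, 0 ≤ (u t).2.1 := fun t ht => not_lt.1 fun e => by
    obtain ⟨c, h6, h7⟩ := FALL_ivt h (by linarith) ht.1 e.le
    have h8 : b ≤ c := csInf_le bd ⟨h6.1, h7⟩
    rw [le_antisymm ht.2 (h8.trans h6.2), b2] at e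
    exact lt_irrefl _ e
  have hs := (hADM μ u a b h h3 h4 (Or.inl hz)).1
  refine ⟨b, b1.lt_of_ne fun e => by rw [← e] at b2; linarith, hMKUP μ _ η 0 (b - a)
    (by simpa using hs.rev b) (by linarith) (by simpa [rev] using b2) (fun t ht => ?_)
    (by simpa [rev] using h1) η0 η1 (by simpa [rev, sub_eq_add_neg] using h5)⟩
  have := FALL_anti hs hz ⟨le_rfl, b1⟩ (t := b - t) ⟨by linarith [ht.2], by linarith [ht.1]⟩
    (by linarith [ht.2])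
  simp only [rev, Rv_3]
  linarith

end Pool.Agent.P.MP_9ae58c_an.B

end

section

/-! Step EXCU. -/

namespace Pool.Agent.P.MP_9ae58c_an.B

open Set Filter Topology Complex

theorem p_EXCU (hMKUP : S_MKUP) (hFALL : S_FALL) :
    S_EXCU := by
  intro μ u a tp h hle z0 hv v0 z3 na
  have ad := h.adm tp ⟨hle, le_rfl⟩
  have e0 : 0 < eps μ (u tp) := by
    have := v_sq μ (u tp)
    rw [v0] at this
    nlinarith [ad.W, ad.pos]
  have e1 : √(eps μ (u tp)) ^ 2 = eps μ (u tp) := Real.sq_sqrt e0.le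
  have e2 : √(eps μ (u tp)) ≤ 1 := Real.sqrt_le_one.2 (by linarith [(abs_le.1 ad.eps').2])
  obtain ⟨b, -, hb⟩ := hFALL μ u _ tp h.gl z3 v0.le na ad.nH (Real.sqrt_nonneg _) e2
    (by rw [e1, sub_self, abs_zero]; positivity)
  exact ⟨_, b, hMKUP μ u _ a tp h hle z0 hv z3 (Real.sqrt_nonneg _) e2
    (by rw [e1, sub_self, abs_zero]; positivity), v0, e1, Real.sqrt_pos.2 e0, hb⟩

end Pool.Agent.P.MP_9ae58c_an.B

end
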