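import Pool.Agent.P.MP_9ae58c_an.B.IfA

section

/-! Step EXCF. -/

namespace Pool.Agent.P.MP_9ae58c_an.B

open Set Filter Topology Complex

theorem EXCF_half (hUPT : S_UPT) {μ η a b : ℝ} {u : ℝ → St} (h : Up μ u η a b)
    (hv : (u b).2.2 = 0) (h0 : 0 < η) (h1 : η ≤ 1 / 50) :
    a + 100 ≤ b ∧ 1 / η ^ 3 ≤ 1 + b - a ∧ b - a ≤ 600 / η ^ 3 ∧
      ∀ t ∈ Icc a b, WW (u t) ^ 3 * (1 + t - a) ^ 2 ≤ 10 ^ 5 ∧ min 1 (t - a) ≤ (u t).2.1 ∧
        (u t).2.1 ≤ 70 / η ^ 2 ∧ (t < b → 0 < (u t).2.2) := by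
  have hab := h.le
  obtain ⟨a1, a2, -⟩ := hUPT μ u η a b h b ⟨hab, le_rfl⟩
  rw [hv, add_zero] at a1 a2
  have e3 : 0 < η ^ 3 := by positivity
  have e4 : η ^ 3 ≤ (1 / 50) ^ 3 := by gcongr
  refine ⟨?_, ?_, ?_, fun t ht => ?_⟩
  · have : (1 + b - a) * η ^ 3 ≤ (1 + b - a) * (1 / 50) ^ 3 :=
      mul_le_mul_of_nonneg_left e4 (by linarith)
    nlinarith
  · rw [div_le_iff₀ e3]; exact a1
  · rw [le_div_iff₀ e3]; nlinarith
  · obtain ⟨b1, b2, b3, b4, b5, -, b7⟩ := hUPT μ u η a b h t ht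
    obtain ⟨z0, v0⟩ := h.nonneg ht
    have hr := h.sol.reg t ht
    have w := hr.W
    refine ⟨?_, b5, ?_, b7⟩
    · have c1 : WW (u t) ^ 3 ≤ ((η + (u t).2.2) ^ 2 / 3) ^ 3 := by gcongr
      have c2 : ((1 + t - a) * (η + (u t).2.2) ^ 3) ^ 2 ≤ 600 ^ 2 := by
        gcongr
      have c3 : WW (u t) ^ 3 * (1 + t - a) ^ 2 ≤
          ((η + (u t).2.2) ^ 2 / 3) ^ 3 * (1 + t - a) ^ 2 :=
        mul_le_mul_of_nonneg_right c1 (sq_nonneg _)
      have c4 : ((η + (u t).2.2) ^ 2 / 3) ^ 3 * (1 + t - a) ^ 2 =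
          ((1 + t - a) * (η + (u t).2.2) ^ 3) ^ 2 / 27 := by ring
      linarith
    · have c1 : η ^ 2 ≤ (η + (u t).2.2) ^ 2 := by gcongr; linarith
      have c2 := hr.zW
      rw [abs_of_nonneg z0] at c2
      rw [le_div_iff₀ (by positivity)]
      have c3 : (u t).2.1 * (η ^ 2 / 70) ≤ (u t).2.1 * WW (u t) :=
        mul_le_mul_of_nonneg_left (by linarith) z0
      linarith

theorem p_EXCF (hUPT : S_UPT) :
    S_EXCF := by
  intro μ u η a tp b h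
  have h0 := h.pos
  have h1 : η ≤ 1 / 50 := by
    have e := (abs_le.1 (h.up.sol.adm tp ⟨h.up.le, le_rfl⟩).eps').2
    rw [← h.en] at e
    nlinarith
  obtain ⟨a1, a2, a3, a4⟩ := EXCF_half hUPT h.up h.v0 h0 h1
  obtain ⟨b1, b2, b3, b4⟩ := EXCF_half hUPT h.dn (by simpa [rev] using h.v0) h0 h1
  have b5 : ∀ t ∈ Icc tp b, WW (u t) ^ 3 * (1 + (b - t)) ^ 2 ≤ 10 ^ 5 ∧
      min 1 (b - t) ≤ (u t).2.1 ∧ (u t).2.1 ≤ 70 / η ^ 2 ∧ (tp < t → (u t).2.2 < 0) := by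
    intro t ht
    obtain ⟨c1, c2, c3, c4⟩ := b4 (b - t) ⟨by linarith [ht.2], by linarith [ht.1]⟩
    simp only [rev, sub_sub_cancel, WW_Rv, Rv_2, Rv_3, sub_zero] at c1 c2 c3 c4
    exact ⟨c1, c2, c3, fun e => by linarith [c4 (by linarith)]⟩
  have z0 : (u b).2.1 = 0 := by simpa [rev] using h.dn.z0
  have v0 : (u b).2.2 ≤ -2 := by
    have := h.dn.v0
    simp only [rev, sub_zero, Rv_3] at this
    linarith
  refine ⟨a1, by linarith, h1, a2, a3, by linarith, by linarith, z0, v0, fun t ht => ?_,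
    fun t ht => (a4 t ⟨ht.1, ht.2.le⟩).2.2.2 ht.2, fun t ht => (b5 t ⟨ht.1.le, ht.2⟩).2.2.2 ht.1,
    fun t ht => ?_⟩
  · have hr := h.sol.reg t ht
    have w := pow_pos hr.W 3
    have m0 : 0 ≤ min (t - a) (b - t) := le_min (by linarith [ht.1]) (by linarith [ht.2])
    refine ⟨hr, ?_⟩
    rcases le_total t tp with e | e
    · refine le_trans ?_ (a4 t ⟨ht.1, e⟩).1
      have : 1 + min (t - a) (b - t) ≤ 1 + t - a := by linarith [min_le_left (t - a) (b - t)]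
      gcongr
    · refine le_trans ?_ (b5 t ⟨e, ht.2⟩).1
      have : 1 + min (t - a) (b - t) ≤ 1 + (b - t) := by linarith [min_le_right (t - a) (b - t)]
      gcongr
  · rcases le_total t tp with e | e
    · obtain ⟨-, c2, c3, -⟩ := a4 t ⟨ht.1, e⟩
      exact ⟨(min_le_min_left _ (min_le_left _ _)).trans c2, c3⟩
    · obtain ⟨-, c2, c3, -⟩ := b5 t ⟨e, ht.2⟩
      exact ⟨(min_le_min_left _ (min_le_right _ _)).trans c2, c3⟩

end Pool.Agent.P.MP_9ae58c_an.B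

end

section

/-! Step MIDS. -/

namespace Pool.Agent.P.MP_9ae58c_an.B

open Set Filter Topology Complex

theorem MIDS_norm {μ b : ℝ} {w : ℝ → St} (hINT : S_INT) (h : Sol μ w 0 b) (hb : 0 ≤ b)
    (hz : ∀ t ∈ Icc 0 b, 0 ≤ (w t).2.1) : |‖(w b).1‖ - ‖(w 0).1‖| ≤ 28 * μ := by
  have h1 := hINT μ w 0 b h hz b ⟨hb, le_rfl⟩
  have h2 := abs_norm_sub_norm_le (bb w b) (bb w 0)
  rw [norm_bb, norm_bb] at h2
  exact h2.trans h1

theorem MIDS_z {μ b : ℝ} {w : ℝ → St} (h : Sol μ w 0 b) (h0 : (w 0).2.1 = 0)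
    (hv : ∀ t ∈ Icc 0 b, 0 ≤ (w t).2.2) : ∀ t ∈ Icc 0 b, 0 ≤ (w t).2.1 := fun t ht => by
  have := le_of_deriv (fun t ht => d2 (h.der ht))
    (fun t ht => mul_nonneg (sq_nonneg _) (hv t ht)) ⟨le_rfl, ht.1.trans ht.2⟩ ht ht.1
  simpa [h0] using this

theorem MIDS_eps {μ b : ℝ} {w : ℝ → St} (h : Sol μ w 0 b) (hb : 0 ≤ b)
    (hH : |Hh μ (w 0)| ≤ μ ^ 2 / 1000) (h1 : (bb w b).im ≤ -(39 / 100 * μ)) :
    15 / 100 * μ ≤ eps μ (w b) ∧ (‖(w b).1‖ ≤ 57 * μ → eps μ (w b) ≤ 4000 * μ) := by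
  have m := h.gl.pos
  have m' := h.gl.le
  have e := h.gl.Hh_eq h.reg (s := b) (t := 0) ⟨hb, le_rfl⟩ ⟨le_rfl, hb⟩
  obtain ⟨a1, a2⟩ := abs_le.1 hH
  have a3 : 39 / 100 * μ ≤ ‖(w b).1‖ := by
    have := (abs_le.1 (abs_im_le_norm (bb w b))).1
    rw [norm_bb] at this
    linarith
  have a4 : (39 / 100 * μ) ^ 2 ≤ ‖(w b).1‖ ^ 2 := by gcongr
  rw [eps_eq m, e, div_mul_eq_mul_div (1 + μ), le_div_iff₀ m, div_le_iff₀ m]
  refine ⟨by nlinarith [mul_pos m (mul_pos m m)], fun a5 => ?_⟩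
  have a6 : ‖(w b).1‖ ^ 2 ≤ (57 * μ) ^ 2 := by gcongr
  have a7 : ‖(w b).1‖ ^ 2 - Hh μ (w 0) ≤ 3250 * μ ^ 2 := by nlinarith
  have a8 : (1 + μ) * (‖(w b).1‖ ^ 2 - Hh μ (w 0)) ≤ (1 + 1 / 10 ^ 8) * (3250 * μ ^ 2) := by
    gcongr
    nlinarith
  nlinarith

theorem p_MIDS (hINT : S_INT) (hKAP : S_KAP) (hHOLD : S_HOLD) (hEXCU : S_EXCU) :
    S_MIDS := by
  intro μ u η₀ b₀ hU ha hH
  have m := hU.sol.gl.pos
  have m' := hU.sol.gl.le
  have gu : Glob μ u := by simpa using hU.sol.gl.rev 0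
  have e0 : rev u 0 0 = Rv (u 0) := by simp [rev]
  have eb : ‖(rev u 0 b₀).1‖ = ‖(u (-b₀)).1‖ := by simp [rev]
  have n0 : ‖(u 0).1‖ ≤ 2801 / 100 * μ := by
    have := (abs_le.1 (MIDS_norm hINT hU.sol hU.le fun t ht => (hU.nonneg ht).1)).1
    rw [eb, e0, Rv_1, norm_conj] at this
    linarith
  have i0 : (u 0).1.im ≤ -(19 / 100 * μ) := by
    have h1 := hKAP μ _ b₀ hU.sol hU.le hU.z0 (fun t ht => (hU.nonneg ht).2) hU.zb
    have h2 := (abs_le.1 (abs_im_le_norm (bb (rev u 0) b₀))).1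
    rw [norm_bb, eb] at h2
    rw [e0, Rv_1, conj_im] at h1
    linarith
  have z0 : (fp u 0).2.1 = 0 := by simpa [e0, fp] using hU.z0
  have v0 : 0 ≤ (fp u 0).2.2 := by
    have := hU.v0
    rw [e0, Rv_3] at this
    simp only [fp, Fp_3]
    linarith
  have H0 : |Hh μ (fp u 0)| ≤ μ ^ 2 / 1000 := by simpa [fp] using hH
  have kap : ∀ b, Sol μ (fp u) 0 b → 0 ≤ b → (∀ t ∈ Icc 0 b, 0 ≤ (fp u t).2.2) →
      3 ≤ (fp u b).2.1 → (bb (fp u) b).im ≤ -(39 / 100 * μ) := fun b h1 h2 h3 h4 => by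
    have := hKAP μ _ b h1 h2 z0 h3 h4
    have e : (fp u 0).1 = (u 0).1 := rfl
    rw [e] at this
    linarith
  have n0' : ‖(fp u 0).1‖ ≤ 2801 / 100 * μ := n0
  rcases (hHOLD μ (fp u) 0 gu.fp z0 v0 (by linarith) (by nlinarith)).2 with
    ⟨tp, t0, hs, hv, hv0, hz⟩ | ⟨hs, hv, ht⟩
  · have k1 := kap tp hs t0 hv hz
    have n1 := (abs_le.1 (MIDS_norm hINT hs t0 (MIDS_z hs z0 hv))).2
    obtain ⟨η, T, hE⟩ := hEXCU μ (fp u) 0 tp hs t0 z0 hv hv0 hz (by linarith)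
    obtain ⟨k2, k3⟩ := MIDS_eps hs t0 H0 k1
    have tT := hE.dn.le
    have n2 := (abs_le.1 (MIDS_norm hINT hE.sol (by linarith) fun t ht => by
      rcases le_total t tp with e | e
      · exact (hE.up.nonneg ⟨ht.1, e⟩).1
      · simpa [rev] using (hE.dn.nonneg (t := T - t) ⟨by linarith [ht.2], by linarith⟩).1)).2
    refine ⟨η, tp, T, hE, by rw [hE.en]; linarith, by rw [hE.en]; exact k3 (by linarith), ?_, ?_⟩
    · rw [bb_fp] at k1
      linarith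
    · have e : (fp u T).1 = (u T).1 := rfl
      rw [e] at n2
      linarith
  · exfalso
    obtain ⟨b, ⟨h1, h2⟩, h3⟩ := (((ht.eventually_ge_atTop 3).and
      (ht.eventually_ge_atTop (200 / μ))).and (eventually_ge_atTop 0)).exists
    have k1 := kap b (hs b) h3 (fun t ht => (hv t ht.1).le) h1
    have k2 := (MIDS_eps (hs b) h3 H0 k1).1
    have ad := (hs b).adm b ⟨h3, le_rfl⟩
    have w := ad.W
    have h4 := ad.reg.zW
    simp only [zz] at h1 h2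
    rw [abs_of_pos (by linarith)] at h4
    rw [div_le_iff₀ m] at h2
    have h5 : 200 * WW (fp u b) ≤ μ := by nlinarith [mul_le_mul_of_nonneg_right h2 w.le]
    rw [eps] at k2
    nlinarith [sq_nonneg (fp u b).2.2, mul_pos m w]

end Pool.Agent.P.MP_9ae58c_an.B

end

section

/-! Step SYM. -/

namespace Pool.Agent.P.MP_9ae58c_an.B

open Set Filter Topology Complex

theorem p_SYM (hUNIQ : S_UNIQ) (hUPT : S_UPT) (hEXCF : S_EXCF) :
    S_SYM := by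
  intro μ K₀ h η tp T ht he him
  obtain ⟨e1, e2, -, -, -, -, -, zT, -, -, -, -, zz⟩ := hEXCF μ (fp h) η 0 tp T he
  have hv : (h tp).2.2 = 0 := by simpa [fp] using he.v0
  have hg : rev h (2 * tp) tp = h tp := by
    rw [rev, show 2 * tp - tp = tp by ring]
    refine Prod.ext (Complex.conj_eq_iff_im.2 him) (Prod.ext rfl ?_)
    rw [Rv_3, hv, neg_zero]
  have adm : ∀ t ≤ T, Adm μ (h t) := by
    intro t htT
    rcases le_total t 0 with e | e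
    · have := (ht.up (max 2 (-t)) (le_max_left _ _)).sol.adm (-t)
        ⟨by linarith, le_max_right _ _⟩
      simpa [rev] using this
    · simpa [fp] using he.sol.adm t ⟨e, htT⟩
  have key : ∀ t ≤ T, rev h (2 * tp) t = h t := fun t htT =>
    hUNIQ μ h _ (min t tp) T tp ht.gl (ht.gl.rev _) (fun s hs => (adm s hs.2).rg)
      ⟨min_le_right _ _, by linarith⟩ hg t ⟨min_le_left _ _, htT⟩
  have z0 : (h (2 * tp - T)).2.1 = 0 := by
    have h1 := congrArg (fun p : St => p.2.1) (key T le_rfl)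
    have h2 : (h T).2.1 = 0 := by simpa [fp] using zT
    simpa [rev, h2] using h1
  have hT : T = 2 * tp := by
    rcases lt_trichotomy (2 * tp - T) 0 with e | e | e
    · have h1 := (hUPT μ _ 0 0 _ (ht.up (max 2 (T - 2 * tp)) (le_max_left _ _)) (T - 2 * tp)
        ⟨by linarith, le_max_right _ _⟩).2.2.2.2.1
      rw [rev, Rv_2, show 0 - (T - 2 * tp) = 2 * tp - T by ring, z0] at h1
      exact absurd h1 (not_le.2 (lt_min one_pos (by linarith)))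
    · linarith
    · have h1 := (zz (2 * tp - T) ⟨e.le, by linarith⟩).1
      rw [fp, Fp_2, z0, neg_zero] at h1
      exact absurd h1 (not_le.2 (lt_min one_pos (lt_min (by linarith) (by linarith))))
  rw [← hT] at key
  funext t
  rcases le_total t T with e | e
  · exact key t e
  · rw [rev, ← key (T - t) (by linarith), rev, Rv_Rv, sub_sub_cancel]

end Pool.Agent.P.MP_9ae58c_an.B

end

section

/-! Step FARV. -/

namespace Pool.Agent.P.MP_9ae58c_an.B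

open Set Filter Topology Complex

theorem FARV_e {μ A G S : ℝ} {p ξ : St} (h : Adm μ p) (h1 : ‖p.1‖ ≤ A + 2 * 10 ^ 5 * μ * G ^ 3)
    (h2 : ‖ξ.1‖ ≤ S) : |de μ p ξ| ≤ 2.001 * ((A / μ + 2 * 10 ^ 5 * G ^ 3) * S) + |dh μ p ξ| := by
  have m := h.pos
  have m' := h.le
  have n0 := norm_nonneg p.1
  have n1 := norm_nonneg ξ.1
  have e : A + 2 * 10 ^ 5 * μ * G ^ 3 = μ * (A / μ + 2 * 10 ^ 5 * G ^ 3) := by field_simp
  have b0 : 0 ≤ A / μ + 2 * 10 ^ 5 * G ^ 3 := by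
    have := n0.trans h1
    rw [e] at this
    exact nonneg_of_mul_nonneg_right this m |> fun k => k
  have a1 : |ip p.1 ξ.1| ≤ μ * (A / μ + 2 * 10 ^ 5 * G ^ 3) * S :=
    (abs_ip_le _ _).trans (by rw [← e]; exact mul_le_mul h1 h2 n1 (n0.trans h1))
  have b1 := mul_nonneg b0 (n1.trans h2)
  rw [de_eq]
  refine (abs_sub _ _).trans (add_le_add_left ?_ _)
  rw [abs_mul, abs_of_pos (by positivity), div_mul_eq_mul_div, div_le_iff₀ m]
  have a2 : 2 * (1 + μ) * |ip p.1 ξ.1| ≤ 2.001 * (μ * (A / μ + 2 * 10 ^ 5 * G ^ 3) * S) :=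
    mul_le_mul (by linarith) a1 (abs_nonneg _) (by norm_num)
  linarith

theorem FARV_q {μ G W D w q e δ α Q B S h : ℝ} (m : 0 < μ) (g0 : 0 < G) (g1 : G ≤ 5.01)
    (w0 : G ^ 2 / 70 ≤ W) (w1 : W ≤ G ^ 2 / 8) (d0 : G ^ 4 / 700 ≤ D) (v0 : 0 ≤ w)
    (v1 : w ≤ 1.0001 / W) (hq : |q + w * e| ≤ 17 * (δ + α * W ^ 2 * Q))
    (he : |e| ≤ 2.001 * ((B + 2 * 10 ^ 5 * G ^ 3) * S) + h) (s0 : 0 ≤ S) (s1 : δ ≤ S)
    (a1 : α ≤ 100 * μ) (q0 : 0 ≤ Q) (b0 : 0 ≤ B) (h0 : 0 ≤ h) :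
    |q| ≤ 18900 * μ * D * Q +
      (20000 * (B * S + h) * (5 / G ^ 6 * D) + 4 * 10 ^ 10 * S * (3 / G ^ 4 * D)) := by
  have W0 : 0 < W := lt_of_lt_of_le (by positivity) w0
  have bs := mul_nonneg b0 s0
  have c1 : w ≤ 71 / G ^ 2 := v1.trans (by
    rw [div_le_div_iff₀ W0 (by positivity)]
    nlinarith [sq_nonneg G])
  have c2 : α * W ^ 2 * Q ≤ 100 * μ * (G ^ 2 / 8) ^ 2 * Q := by gcongr
  have c3 : μ * (G ^ 4 / 700) * Q ≤ μ * D * Q := by gcongr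
  have c4 : 5 / G ^ 6 * (G ^ 4 / 700) ≤ 5 / G ^ 6 * D := by gcongr
  have c5 : 3 / G ^ 4 * (G ^ 4 / 700) ≤ 3 / G ^ 4 * D := by gcongr
  have e4 : 5 / G ^ 6 * (G ^ 4 / 700) = 1 / 140 * (1 / G ^ 2) := by field_simp; norm_num
  have e5 : 3 / G ^ 4 * (G ^ 4 / 700) = 3 / 700 := by field_simp
  rw [e4] at c4
  rw [e5] at c5
  have c6 : |w * e| ≤ 71 / G ^ 2 * (2.001 * ((B + 2 * 10 ^ 5 * G ^ 3) * S) + h) := by
    rw [abs_mul, abs_of_nonneg v0]
    gcongr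
  have e6 : 71 / G ^ 2 * (2.001 * ((B + 2 * 10 ^ 5 * G ^ 3) * S) + h) =
      71 * ((2.001 * (B * S) + h) * (1 / G ^ 2)) + 71 * 2.001 * 2 * 10 ^ 5 * (G * S) := by
    field_simp
    ring
  have c7 : G * S ≤ 5.01 * S := by gcongr
  have i0 : 0 < 1 / G ^ 2 := by positivity
  have c8 : (2.001 * (B * S) + h) * (1 / G ^ 2) ≤ 2.001 * ((B * S + h) * (1 / G ^ 2)) := by
    nlinarith [mul_nonneg h0 i0.le]
  have c9 := mul_le_mul_of_nonneg_left c4 (add_nonneg bs h0)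
  have c10 := mul_le_mul_of_nonneg_left c5 s0
  have c11 := mul_nonneg (add_nonneg bs h0) i0.le
  have c12 : 0 ≤ μ * G ^ 4 * Q := by positivity
  have t : |q| ≤ |q + w * e| + |w * e| := by simpa using abs_sub (q + w * e) (w * e)
  nlinarith

theorem FARV_g {G W v e Q δ B S h N : ℝ} (g0 : 0 < G) (g1 : G ≤ 5.01) (W0 : 0 ≤ W)
    (w1 : W ≤ G ^ 2 / 8) (v0 : 0 ≤ v) (v1 : v ≤ G)
    (he : |e| ≤ 2.001 * ((B + 2 * 10 ^ 5 * G ^ 3) * S) + h) (s0 : 0 ≤ S) (d0 : 0 ≤ δ) (s1 : δ ≤ S)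
    (q0 : 0 ≤ Q) (b1 : B ≤ 100) (h0 : 0 ≤ h) (h1 : h ≤ N)
    (hQ : Q ≤ 2 * (N + (20000 * (B * S + h) * (1 / G ^ 5) + 4 * 10 ^ 10 * S * (1 / G ^ 3)))) :
    25 * (W ^ 2 * |e| + W ^ 4 * v * Q + W ^ 3 * δ) ≤ 10 ^ 11 * (G ^ 4 * (S + N)) := by
  have n0 := h0.trans h1
  have p2 : G ^ 2 ≤ 5.01 ^ 2 := by gcongr
  have p3 : G ^ 3 ≤ 5.01 ^ 3 := by gcongr
  have p5 : G ^ 5 ≤ 5.01 ^ 5 := by gcongr
  have bs : B * S ≤ 100 * S := by gcongr
  have c0 : |e| ≤ 6 * 10 ^ 7 * (S + N) := by nlinarith [mul_le_mul_of_nonneg_right p3 s0]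
  have c1 : W ^ 2 * |e| ≤ (G ^ 2 / 8) ^ 2 * (6 * 10 ^ 7 * (S + N)) := by gcongr
  have c2 : W ^ 4 * v * Q ≤ (G ^ 2 / 8) ^ 4 * G *
      (2 * (N + (20000 * (B * S + h) * (1 / G ^ 5) + 4 * 10 ^ 10 * S * (1 / G ^ 3)))) := by gcongr
  have e2 : (G ^ 2 / 8) ^ 4 * G *
      (2 * (N + (20000 * (B * S + h) * (1 / G ^ 5) + 4 * 10 ^ 10 * S * (1 / G ^ 3)))) =
      G ^ 4 * ((G ^ 5 * N + 20000 * (B * S + h) + 4 * 10 ^ 10 * (G ^ 2 * S)) / 2048) := by
    field_simp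
    ring
  have c3 : (G ^ 5 * N + 20000 * (B * S + h) + 4 * 10 ^ 10 * (G ^ 2 * S)) / 2048 ≤
      10 ^ 9 * (S + N) := by
    nlinarith [mul_le_mul_of_nonneg_right p5 n0, mul_le_mul_of_nonneg_right p2 s0]
  have c4 := mul_le_mul_of_nonneg_left c3 (pow_pos g0 4).le
  have c5 : W ^ 3 * δ ≤ (G ^ 2 / 8) ^ 3 * S := by gcongr
  have c6 : G ^ 4 * (G ^ 2 * S) ≤ G ^ 4 * (5.01 ^ 2 * S) := by gcongr
  have c7 : 0 ≤ G ^ 4 * S := by positivity
  have c8 : 0 ≤ G ^ 4 * N := by positivity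
  nlinarith

theorem FARV_inv {G : ℝ → ℝ} {D t : ℝ} (h : HasDerivAt G (-D) t) (g0 : 0 < G t) (k : ℕ) :
    HasDerivAt (fun t => 1 / G t ^ (k + 1)) (((k : ℝ) + 1) / G t ^ (k + 2) * D) t := by
  refine ((hasDerivAt_const t (1 : ℝ)).fun_div (h.fun_pow (k + 1)) (by positivity)).congr_deriv ?_
  simp only [Nat.add_sub_cancel]
  push_cast
  field_simp
  ring

theorem p_FARV (hQEQ : S_QEQ) :
    S_FARV := by
  refine ⟨10 ^ 15, by norm_num, fun μ u x η a b A N hC hG hx A0 A1 hA hN => ?_⟩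
  have ha : a ∈ Icc a b := ⟨le_rfl, hG.le⟩
  have hb : b ∈ Icc a b := ⟨hG.le, le_rfl⟩
  have m := hG.sol.gl.pos
  have hr := hG.sol.reg
  obtain ⟨s, hs, hS⟩ := isCompact_Icc.exists_isMaxOn (nonempty_Icc.2 hG.le)
    (contOn_of fun t ht => d1 (hx t (hr t ht))).norm
  set S := ‖(x s).1‖ with eS
  have hS' : ∀ t ∈ Icc a b, ‖(x t).1‖ ≤ S := fun t ht => hS ht
  have s0 : 0 ≤ S := norm_nonneg _
  set h := |dh μ (u a) (x a)| with eh
  have h0 : 0 ≤ h := abs_nonneg _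
  have k1 := norm_nonneg (x a).1
  have k2 := abs_nonneg (Qv (u a) (x a))
  have n0 : 0 ≤ N := by linarith
  set B := A / μ with eB
  have b0 : 0 ≤ B := div_nonneg A0 m.le
  have b1 : B ≤ 100 := (div_le_iff₀ m).2 A1
  have he : ∀ t ∈ Icc a b, |de μ (u t) (x t)| ≤
      2.001 * ((B + 2 * 10 ^ 5 * (η + (u t).2.2) ^ 3) * S) + h := fun t ht => by
    rw [eh, hx.dh_eq hG.sol.gl hr ha ht]
    exact FARV_e (hG.sol.adm t ht) (hA t ht) (hS' t ht)
  have hE := fun t (ht : t ∈ Icc a b) => hQEQ μ u x t hG.sol.gl hx (hG.sol.adm t ht)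
    (hG.far t ht).1 _ _ _ _ _ _ rfl rfl rfl rfl rfl rfl
  have dG : ∀ t ∈ Icc a b, HasDerivAt (fun t => η + (u t).2.2) (-(-(fld μ (u t)).2.2)) t :=
    fun t ht => by simpa using (hG.dv ht).1
  have D0 : ∀ t ∈ Icc a b, 0 ≤ -(fld μ (u t)).2.2 := fun t ht =>
    le_trans (by positivity) (hG.dv ht).2.1
  have hQ : ∀ t ∈ Icc a b, |Qv (u t) (x t)| ≤ 2 * (N + (20000 * (B * S + h) *
      (1 / (η + (u t).2.2) ^ 5) + 4 * 10 ^ 10 * S * (1 / (η + (u t).2.2) ^ 3))) := by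
    intro t ht
    have key := norm_le_two (f := fun t => Qv (u t) (x t))
      (f' := deriv fun t => Qv (u t) (x t))
      (Φ := fun t => 20000 * (B * S + h) * (1 / (η + (u t).2.2) ^ 5) +
        4 * 10 ^ 10 * S * (1 / (η + (u t).2.2) ^ 3))
      (Φ' := fun t => 20000 * (B * S + h) * (5 / (η + (u t).2.2) ^ 6 * -(fld μ (u t)).2.2) +
        4 * 10 ^ 10 * S * (3 / (η + (u t).2.2) ^ 4 * -(fld μ (u t)).2.2))
      (K := fun t => -(18900 * μ * (η + (u t).2.2)))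
      (K' := fun t => 18900 * μ * -(fld μ (u t)).2.2)
      (fun t ht => by
        obtain ⟨-, -, -, -, ⟨q, h1, -⟩, -⟩ := hE t ht
        exact h1.differentiableAt.hasDerivAt)
      (fun t ht => by
        have e1 := FARV_inv (dG t ht) (hG.G ht).1 4
        have e2 := FARV_inv (dG t ht) (hG.G ht).1 2
        norm_num only [Nat.cast_ofNat] at e1 e2
        exact (e1.const_mul _).fun_add (e2.const_mul _))
      (fun t ht => (((hG.dv ht).1.const_mul _).fun_neg).congr_deriv (by ring))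
      (fun t ht => by
        obtain ⟨w0, w1, -, -, ⟨q, h1, h2⟩, -⟩ := hE t ht
        have W0 := (hG.sol.adm t ht).W
        rw [h1.deriv]
        exact FARV_q m (hG.G ht).1 (hG.G ht).2 (hG.far t ht).2.2.1 (hG.far t ht).2.2.2
          (hG.dv ht).2.1 (le_trans (by positivity) w0) w1 h2 (he t ht) s0 (hS' t ht)
          (hG.sol.adm t ht).na (abs_nonneg _) b0 h0)
      (fun t ht => by
        have := D0 t ht
        have := (hG.G ht).1
        constructor <;> positivity)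
      (by nlinarith [(hG.G ha).2, (hG.G hb).1, hG.sol.gl.le]) t ht
    have := (hG.G ha).1
    have p : 0 ≤ 20000 * (B * S + h) * (1 / (η + (u a).2.2) ^ 5) +
      4 * 10 ^ 10 * S * (1 / (η + (u a).2.2) ^ 3) := by positivity
    simp only [Real.norm_eq_abs] at key
    linarith
  have hB : ∀ t t', a ≤ t → t ≤ t' → t' ≤ b →
      ‖bb x t' - bb x t‖ ≤ 7 * 10 ^ 13 * μ * (S + N) * (η + (u t).2.2) := by
    intro t t' h1 h2 h3
    have i : Icc t t' ⊆ Icc a b := Icc_subset_Icc h1 h3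
    have key := norm_sub_le_of (a := t) (b := t') (fun r e => hx.dbb (hr r (i e)))
      (Φ := fun r => -(7 * 10 ^ 13 * μ * (S + N) * (η + (u r).2.2)))
      (fun r e => ((hG.dv (i e)).1.const_mul _).fun_neg)
      (fun r e => by
        have hr' := i e
        obtain ⟨-, -, h4, -⟩ := hE r hr'
        have f := hG.far r hr'
        have h5 := h4.trans (FARV_g (hG.G hr').1 (hG.G hr').2 (hG.sol.adm r hr').W.le f.2.2.2
          (abs_nonneg _) (by rw [abs_of_nonneg f.2.1]; linarith [hG.η0]) (he r hr') s0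
          (norm_nonneg _) (hS' r hr') (abs_nonneg _) b1 h0 (by linarith) (hQ r hr'))
        have h6 := mul_le_mul_of_nonneg_left (hG.dv hr').2.1 (add_nonneg s0 n0)
        have h7 : |dg (u r) (x r)| ≤ 7 * 10 ^ 13 * ((S + N) * -(fld μ (u r)).2.2) := by linarith
        have h8 := mul_le_mul_of_nonneg_left h7 m.le
        rw [norm_neg, norm_mul, norm_mul, norm_I, norm_ex, norm_real, Real.norm_eq_abs, abs_mul,
          abs_of_pos m]
        linarith) t' ⟨h2, le_rfl⟩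
    have := (hG.G (i ⟨h2, le_rfl⟩)).1
    have p : 0 ≤ 7 * 10 ^ 13 * μ * (S + N) * (η + (u t').2.2) := by positivity
    linarith
  have hSN : S ≤ 3 * N := by
    have c1 := hB a s le_rfl hs.1 hs.2
    have c2 := norm_le_insert' (bb x s) (bb x a)
    rw [norm_bb, norm_bb] at c2
    have c3 : 7 * 10 ^ 13 * μ * (S + N) * (η + (u a).2.2) ≤
        7 * 10 ^ 13 * (1 / 10 ^ 15) * (S + N) * 5.01 := by
      have := (hG.G ha).1
      gcongr
      · linarith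
      · exact (hG.G ha).2
    linarith
  refine ⟨fun t t' h1 h2 h3 => (hB t t' h1 h2 h3).trans ?_, fun t ht => (hQ t ht).trans ?_⟩
  · have := (hG.G (⟨h1, h2.trans h3⟩ : t ∈ Icc a b)).1
    have c : 0 < μ * (η + (u t).2.2) := by positivity
    nlinarith [mul_le_mul_of_nonneg_left hSN c.le, mul_nonneg c.le n0]
  · obtain ⟨g0, g1⟩ := hG.G ht
    generalize η + (u t).2.2 = G at g0 g1 ⊢
    have e1 : A * N / μ = B * N := by rw [eB]; ring
    have i3 : 0 < 1 / G ^ 3 := by positivity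
    have i5 : 0 < 1 / G ^ 5 := by positivity
    have c1 : 1 ≤ 126 * (1 / G ^ 3) := by
      have : G ^ 3 ≤ 5.01 ^ 3 := by gcongr
      rw [mul_one_div, le_div_iff₀ (by positivity)]
      linarith
    have c2 := mul_le_mul_of_nonneg_left c1 n0
    have c3 := mul_le_mul_of_nonneg_right hSN i3.le
    have c4 := mul_le_mul_of_nonneg_right (mul_le_mul_of_nonneg_left hSN b0) i5.le
    have c5 := mul_nonneg n0 i3.le
    have c6 := mul_nonneg (mul_nonneg b0 n0) i5.le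
    have c7 := mul_nonneg h0 i5.le
    rw [e1, div_eq_mul_one_div N, div_eq_mul_one_div (B * N + h)]
    nlinarith

end Pool.Agent.P.MP_9ae58c_an.B

end
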