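import Pool.Agent.P.MP_9ae58c_an.B.IfA

section

/-! Step UPV. -/

namespace Pool.Agent.P.MP_9ae58c_an.B

open Set Filter Topology Complex

theorem UPV_near {L μ c M : ℝ} {u x : ℝ → St} (hL : Lc L) (hμ : 0 ≤ μ) (hx : Var μ u x)
    (hr : ∀ t ∈ Icc 0 c, Reg (u t)) (hM : ∀ t ∈ Icc 0 c, ‖x t‖ ≤ M) {t t' : ℝ} (h0 : 0 ≤ t)
    (h1 : t ≤ t') (h2 : t' ≤ c) : ‖bb x t' - bb x t‖ ≤ μ * L * M * (t' - t) := by
  have i : Icc t t' ⊆ Icc 0 c := Icc_subset_Icc h0 h2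
  have L1 := hL.one
  have := norm_sub_le_of (fun s hs => hx.dbb (hr s (i hs)))
    (fun s _ => (hasDerivAt_id' s).const_mul (μ * L * M)) (fun s hs => by
      have a1 := hL.g0 (u s) (x s) (hr s (i hs))
      have a2 : L * ‖x s‖ ≤ L * M := mul_le_mul_of_nonneg_left (hM s (i hs)) (by linarith)
      rw [norm_neg, norm_mul, norm_mul, norm_I, norm_ex, norm_real, Real.norm_eq_abs, abs_mul,
        abs_of_nonneg hμ]
      nlinarith [mul_le_mul_of_nonneg_left (a1.trans a2) hμ]) t' ⟨h1, le_rfl⟩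
  linarith

theorem UPV_Q {μ : ℝ} {p : St} (h : Adm μ p) (hz : p.2.1 = 3) (ξ : St) : |Qv p ξ| ≤ 11 * ‖ξ‖ := by
  have w := (h.near (by rw [hz]; norm_num)).1
  have w3 : (0.316 : ℝ) ^ 3 ≤ WW p ^ 3 := by gcongr
  have hp : 0 < 3 * WW p ^ 3 := by positivity
  rw [Qv, hz, abs_div, abs_of_pos hp, div_le_iff₀ hp]
  nlinarith [n3 ξ, norm_nonneg ξ, mul_le_mul_of_nonneg_left w3 (norm_nonneg ξ)]

theorem p_UPV (hTAY : S_TAY) (hGRON : S_GRON) (hUPT : S_UPT) (hTAILA : S_TAILA) (hFARV : S_FARV) :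
    S_UPV := by
  obtain ⟨L, hL⟩ := hTAY
  obtain ⟨C, C1, hF⟩ := hFARV
  have L1 := hL.one
  obtain ⟨B, hB⟩ : ∃ B, B = 28 * Real.exp (L * (3 / 2)) := ⟨_, rfl⟩
  have B0 : 0 < B := by rw [hB]; positivity
  obtain ⟨k, hk⟩ : ∃ k, k = 12 * B + 1 := ⟨_, rfl⟩
  have k1 : 1 ≤ k := by linarith
  have LB : 0 ≤ L * B := by positivity
  have Ck : C ≤ C * k := by nlinarith
  refine ⟨L * B + 3 * (C * k), by linarith, fun μ u x η b hμ hU hx hz => ?_⟩
  obtain ⟨c, hc, hn, hG⟩ := hU.ex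
  have gl := hU.sol.gl
  have m := gl.pos
  have cb := hG.le
  have c0 := hc.1
  have c1 : c ≤ 3 / 2 := by linarith [hc.2]
  have i : Icc 0 c ⊆ Icc 0 b := Icc_subset_Icc_right cb
  have i' : Icc c b ⊆ Icc 0 b := Icc_subset_Icc_left c0
  have hr : ∀ t ∈ Icc 0 c, Reg (u t) := fun t ht => hU.sol.reg t (i ht)
  have hCμ : C * μ ≤ 1 := le_trans (mul_le_mul_of_nonneg_right (by linarith) m.le) hμ
  obtain ⟨N, hN⟩ : ∃ N, N = nn μ (u 0) (x 0) := ⟨_, rfl⟩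
  rw [← hN]
  have hd : |dh μ (u 0) (x 0)| ≤ N := by rw [hN, nn]; linarith [norm_nonneg (x 0).1]
  have N0 : 0 ≤ N := (abs_nonneg _).trans hd
  have hM : ∀ t ∈ Icc 0 c, ‖x t‖ ≤ B * N := fun t ht => by
    have a1 := (hGRON L hL μ gl.mu u 0 c hr).var hx hr ⟨le_rfl, c0⟩ ht
    have a2 := (hU.sol.adm 0 ⟨le_rfl, c0.trans cb⟩).le_nn hU.z0 hz
    have a3 : Real.exp (L * (c - 0)) ≤ Real.exp (L * (3 / 2)) :=
      Real.exp_le_exp.2 (mul_le_mul_of_nonneg_left (by linarith) (by linarith))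
    rw [← hN] at a2
    calc ‖x t‖ ≤ Real.exp (L * (c - 0)) * ‖x 0‖ := a1
      _ ≤ Real.exp (L * (3 / 2)) * (28 * N) := by gcongr
      _ = B * N := by rw [hB]; ring
  have hz3 : (u c).2.1 = 3 :=
    le_antisymm (hn c ⟨c0, le_rfl⟩).2.1 (hG.far c ⟨le_rfl, cb⟩).1
  have hdc : dh μ (u c) (x c) = dh μ (u 0) (x 0) :=
    hx.dh_eq gl hr ⟨c0, le_rfl⟩ ⟨le_rfl, c0⟩
  have hN' : ‖(x c).1‖ + |Qv (u c) (x c)| + |dh μ (u c) (x c)| ≤ k * N := by
    have a1 := hM c ⟨c0, le_rfl⟩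
    have a2 := UPV_Q (hU.sol.adm c ⟨c0, cb⟩) hz3 (x c)
    have a3 := n1 (x c)
    rw [hdc, hk]
    linarith
  have μN : 0 ≤ μ * N := by positivity
  have near : ∀ t t', 0 ≤ t → t ≤ t' → t' ≤ c → ‖bb x t' - bb x t‖ ≤ 3 / 2 * (L * B) * (μ * N) :=
    fun t t' h0 h1 h2 => by
      have a1 := UPV_near hL m.le hx hr hM h0 h1 h2
      have a2 : μ * L * (B * N) * (t' - t) ≤ μ * L * (B * N) * (3 / 2) :=
        mul_le_mul_of_nonneg_left (by linarith) (by positivity)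
      linarith
  refine ⟨fun t t' h0 h1 h2 => ?_, fun A hA hA' => ?_⟩
  · have far := (hF μ u x η c b (100 * μ) (k * N) hCμ hG hx (by positivity) le_rfl (fun s hs => by
      have a1 := (hU.sol.adm s (i' hs)).na
      have a2 := (hG.G hs).1
      have : 0 ≤ 2 * 10 ^ 5 * μ * (η + (u s).2.2) ^ 3 := by positivity
      linarith) hN').1
    have Ck0 : 0 ≤ C * k := by linarith
    have e : ∀ G : ℝ, (L * B + 3 * (C * k)) * μ * G * N = G * ((L * B + 3 * (C * k)) * (μ * N)) :=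
      fun G => by ring
    have P1 : 0 ≤ L * B * (μ * N) := by positivity
    have P2 : 0 ≤ C * k * (μ * N) := by positivity
    rw [e]
    rcases le_total t c with h3 | h3
    · have G2 : 2 ≤ η + (u t).2.2 := by linarith [(hn t ⟨h0, h3⟩).2.2, hG.η0]
      have a0 : 2 * ((L * B + 3 * (C * k)) * (μ * N)) ≤
          (η + (u t).2.2) * ((L * B + 3 * (C * k)) * (μ * N)) :=
        mul_le_mul_of_nonneg_right G2 (by positivity)
      refine le_trans ?_ a0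
      rcases le_total t' c with h4 | h4
      · have := near t t' h0 h1 h4
        linarith
      · have a1 := near t c h0 h3 le_rfl
        have a2 := far c t' le_rfl h4 h2
        have a3 := norm_sub_le_norm_sub_add_norm_sub (bb x t') (bb x c) (bb x t)
        have a4 : (η + (u c).2.2) * (C * k * (μ * N)) ≤ 5.01 * (C * k * (μ * N)) :=
          mul_le_mul_of_nonneg_right (hG.G ⟨le_rfl, cb⟩).2 P2
        linarith
    · have a2 := far t t' h3 h1 h2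
      have a4 : (η + (u t).2.2) * (C * k * (μ * N)) ≤
          (η + (u t).2.2) * ((L * B + 3 * (C * k)) * (μ * N)) :=
        mul_le_mul_of_nonneg_left (by linarith) (hG.G ⟨h3, h1.trans h2⟩).1.le
      linarith
  · have A0 : 0 ≤ A := (norm_nonneg _).trans hA
    have far := (hF μ u x η c b A (k * N) hCμ hG hx A0 hA' (fun s hs => by
      have s0 := (i' hs).1
      have a1 := hTAILA μ u η 0 b hU s b s0 hs.2 le_rfl
      have a2 := (hUPT μ u η 0 b hU s (i' hs)).1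
      have a3 : 2 * 10 ^ 5 * μ / (1 + s - 0) ≤ 2 * 10 ^ 5 * μ * (η + (u s).2.2) ^ 3 := by
        rw [div_le_iff₀ (by linarith)]
        nlinarith [mul_le_mul_of_nonneg_left a2 (show 0 ≤ 2 * 10 ^ 5 * μ by positivity)]
      have a4 := norm_sub_norm_le (bb u s) (bb u b)
      rw [norm_sub_rev, norm_bb, norm_bb] at a4
      linarith) hN').2 b ⟨cb, le_rfl⟩
    rw [hdc] at far
    have G0 := (hG.G ⟨cb, le_rfl⟩).1
    refine far.trans ?_
    have d0 := abs_nonneg (dh μ (u 0) (x 0))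
    have a1 : k * N / (η + (u b).2.2) ^ 3 + (A * (k * N) / μ + |dh μ (u 0) (x 0)|) / (η + (u b).2.2) ^ 5
        ≤ k * (N / (η + (u b).2.2) ^ 3 + (A * N / μ + |dh μ (u 0) (x 0)|) / (η + (u b).2.2) ^ 5) := by
      have b1 : A * (k * N) / μ + |dh μ (u 0) (x 0)| ≤ k * (A * N / μ + |dh μ (u 0) (x 0)|) := by
        have : A * (k * N) / μ = k * (A * N / μ) := by ring
        nlinarith
      have b2 := div_le_div_of_nonneg_right b1 (pow_pos G0 5).le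
      rw [mul_div_assoc k] at b2 ⊢
      linarith
    have a2 : 0 ≤ N / (η + (u b).2.2) ^ 3 + (A * N / μ + |dh μ (u 0) (x 0)|) / (η + (u b).2.2) ^ 5 := by
      positivity
    have a3 := mul_le_mul_of_nonneg_left a1 (show 0 ≤ C by linarith)
    refine a3.trans ?_
    rw [← mul_assoc]
    exact mul_le_mul_of_nonneg_right (by linarith) a2

end Pool.Agent.P.MP_9ae58c_an.B

end

section

/-! Step CORE1. -/

namespace Pool.Agent.P.MP_9ae58c_an.B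

open Set Filter Topology Complex

section abs

variable {a b μ η A S D : ℝ} {G k d E E' F F' : ℝ → ℝ} {β β' : ℝ → ℂ}

/-- the facts on the gauge -/
structure CORE1_G (a b η : ℝ) (G k : ℝ → ℝ) : Prop where
  le : a ≤ b
  pos : 0 < η
  der : ∀ s ∈ Icc a b, HasDerivAt G (-k s) s
  lo : ∀ s ∈ Icc a b, G s ^ 4 / 700 ≤ k s
  ge : ∀ s ∈ Icc a b, η ≤ G s
  an : ∀ s ∈ Icc a b, G s ≤ G a
  top : G a ≤ 5.01
  bot : G b = η

theorem CORE1_G.p (h : CORE1_G a b η G k) {s : ℝ} (hs : s ∈ Icc a b) : 0 < G s :=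
  h.pos.trans_le (h.ge s hs)

theorem CORE1_G.pw (h : CORE1_G a b η G k) (c : ℝ) (n : ℕ) :
    ∀ s ∈ Icc a b, HasDerivAt (fun s => -(c * G s ^ (n + 1))) (c * (n + 1) * G s ^ n * k s) s :=
  fun s hs => (((h.der s hs).fun_pow (n + 1)).const_mul c).fun_neg.congr_deriv (by
    simp only [Nat.add_sub_cancel]; push_cast; ring)

theorem CORE1_G.lb (h : CORE1_G a b η G k) {c : ℝ} (hc : 0 ≤ c) (n : ℕ) {s : ℝ}
    (hs : s ∈ Icc a b) : c * G s ^ (n + 4) / 700 ≤ c * G s ^ n * k s := by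
  have := h.p hs
  have := mul_le_mul_of_nonneg_left (h.lo s hs) (show 0 ≤ c * G s ^ n by positivity)
  rw [pow_add]
  linarith

theorem CORE1_s1 (h : CORE1_G a b η G k) (m0 : 0 < μ) (m1 : μ ≤ 1 / 10 ^ 8) (hS : 0 ≤ S)
    (hβ : ∀ s ∈ Icc a b, HasDerivAt β (β' s) s ∧ ‖β' s‖ = μ * d s ∧
      d s ≤ G s ^ 9 * S + G s ^ 6 * ‖β s‖) :
    ∀ s ∈ Icc a b, ‖β s‖ ≤ 2 * ‖β b‖ + 240 * (μ * G s ^ 6 * S) := by
  intro s hs
  have hb : b ∈ Icc a b := ⟨h.le, le_rfl⟩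
  have := norm_le_two' (fun s hs => (hβ s hs).1) (h.pw (120 * (μ * S)) 5) (h.pw (17640 * μ) 0)
    (fun s hs => ?_) (fun s hs => ?_) ?_ s hs
  · simp only [Nat.reduceAdd] at this
    have := h.p hb
    have : 0 ≤ μ * S * G b ^ 6 := by positivity
    linarith
  · have p := h.p hs
    have h1 := h.lb (c := μ * S) (by positivity) 5 hs
    have h2 := h.lb (c := μ * ‖β s‖) (by positivity) 0 hs
    have h3 : G s ^ 2 ≤ 5.01 ^ 2 := by gcongr; exact (h.an s hs).trans h.top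
    have h4 := mul_le_mul_of_nonneg_left h3 (show 0 ≤ μ * ‖β s‖ * G s ^ 4 by positivity)
    have h5 := mul_le_mul_of_nonneg_left (hβ s hs).2.2 m0.le
    have h6 : 0 ≤ μ * S * G s ^ 9 := by positivity
    have h7 : 0 ≤ μ * ‖β s‖ * G s ^ 4 := by positivity
    rw [(hβ s hs).2.1]
    push_cast
    linarith
  · have p := h.p hs
    have : 0 ≤ k s := le_trans (by positivity) (h.lo s hs)
    exact ⟨by positivity, by positivity⟩
  · have := h.p hb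
    have := h.top
    have := h.an b hb
    norm_num
    nlinarith

theorem CORE1_abs (h : CORE1_G a b η G k) (m0 : 0 < μ) (m1 : μ ≤ 1 / 10 ^ 8) (hS : 0 ≤ S)
    (hA : 0 ≤ A) (hD : D = ‖β b‖)
    (hβ : ∀ s ∈ Icc a b, HasDerivAt β (β' s) s ∧ ‖β' s‖ = μ * d s ∧
      d s ≤ G s ^ 9 * S + G s ^ 6 * ‖β s‖)
    (hE : ∀ s ∈ Icc a b, HasDerivAt E (E' s) s ∧ |E' s| ≤ G s ^ 9 * (A * S + ‖β s‖))
    (hF : ∀ s ∈ Icc a b, HasDerivAt F (F' s) s ∧ |F' s| ≤ 50 * (A * ‖β s‖ +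
      G s ^ 4 * (‖β s‖ + A * S) + μ * d s) + 71 * |E s - E b| / G s ^ 2) :
    ‖β a - β b‖ ≤ 470 * μ * (G a ^ 3 * D + G a ^ 6 * S) ∧
    |E a - E b| ≤ 28800 * G a ^ 6 * (A * S + D + μ * G a ^ 6 * S) ∧
    |F a - F b| ≤ 9 * 10 ^ 9 * ((1 + A / η ^ 3) * D + (A * G a + μ * G a ^ 6) * S) := by
  have ha : a ∈ Icc a b := ⟨le_rfl, h.le⟩
  have hb : b ∈ Icc a b := ⟨h.le, le_rfl⟩
  have pa := h.p ha
  have pb := h.p hb
  have D0 : 0 ≤ D := hD ▸ norm_nonneg _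
  have s1 := CORE1_s1 h m0 m1 hS hβ
  rw [← hD] at s1
  have t : ∀ n : ℕ, ∀ s ∈ Icc a b, μ * G s ^ n ≤ 1 / 10 ^ 8 * 5.01 ^ n := fun n s hs => by
    have := h.p hs
    gcongr
    exact (h.an s hs).trans h.top
  have s2 : ∀ s ∈ Icc a b, μ * d s ≤ 2 * (μ * S * G s ^ 9) + 2 * (μ * D * G s ^ 6) := by
    intro s hs
    have p := h.p hs
    have h1 := mul_le_mul_of_nonneg_left (hβ s hs).2.2 m0.le
    have h2 := mul_le_mul_of_nonneg_left (s1 s hs) (show 0 ≤ μ * G s ^ 6 by positivity)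
    have h3 := mul_le_mul_of_nonneg_left (t 3 s hs) (show 0 ≤ μ * S * G s ^ 9 by positivity)
    have h4 : 0 ≤ μ * S * G s ^ 9 := by positivity
    linarith
  obtain ⟨X, hX⟩ : ∃ X, X = A * S + D + μ * G a ^ 6 * S := ⟨_, rfl⟩
  have X0 : 0 ≤ X := by rw [hX]; positivity
  have s3 : ∀ s ∈ Icc a b, A * S + ‖β s‖ ≤ 240 * X := fun s hs => by
    have p := h.p hs
    have h1 : μ * G s ^ 6 * S ≤ μ * G a ^ 6 * S := by gcongr; exact h.an s hs
    have h2 : 0 ≤ A * S := by positivity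
    linarith [s1 s hs]
  have s4 : ∀ s ∈ Icc a b, |E s - E b| ≤ 28800 * X * G s ^ 6 := fun s hs => by
    have := norm_sub_le_of' (fun s hs => (hE s hs).1) (h.pw (28800 * X) 5) (fun s hs => ?_) s hs
    · simp only [Nat.reduceAdd] at this
      have : 0 ≤ X * G b ^ 6 := by positivity
      rw [← Real.norm_eq_abs]
      linarith
    · have p := h.p hs
      have h1 := h.lb X0 5 hs
      have h2 := mul_le_mul_of_nonneg_left (s3 s hs) (show 0 ≤ G s ^ 9 by positivity)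
      have h3 : 0 ≤ X * G s ^ 9 := by positivity
      rw [Real.norm_eq_abs]
      push_cast
      linarith [(hE s hs).2]
  refine ⟨?_, by rw [← hX]; linarith [s4 a ha], ?_⟩
  · have := norm_sub_le_of' (fun s hs => (hβ s hs).1) (fun s hs =>
      (h.pw (240 * (μ * S)) 5 s hs).fun_add (h.pw (470 * (μ * D)) 2 s hs)) (fun s hs => ?_) a ha
    · simp only [Nat.reduceAdd] at this
      have : 0 ≤ μ * S * G b ^ 6 := by positivity
      have : 0 ≤ μ * D * G b ^ 3 := by positivity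
      have : 0 ≤ μ * S * G a ^ 6 := by positivity
      linarith
    · have p := h.p hs
      have h1 := h.lb (c := μ * S) (by positivity) 5 hs
      have h2 := h.lb (c := μ * D) (by positivity) 2 hs
      have h3 : 0 ≤ μ * S * G s ^ 9 := by positivity
      have h4 : 0 ≤ μ * D * G s ^ 6 := by positivity
      rw [(hβ s hs).2.1]
      push_cast
      linarith [s2 s hs]
  obtain ⟨Y, hY⟩ : ∃ Y, Y = X + μ * G a ^ 5 * S := ⟨_, rfl⟩
  have Y0 : 0 ≤ Y := by rw [hY]; positivity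
  have := norm_sub_le_of' (fun s hs => (hF s hs).1) (fun s hs =>
    ((((h.der s hs).fun_pow 3).fun_inv (pow_pos (h.p hs) 3).ne').const_mul
      (23400 * (A * D))).fun_add (h.pw (1442000000 * Y) 0 s hs)) (fun s hs => ?_) a ha
  · have e := h.pos
    have h1 : 0 ≤ A * D * (G a ^ 3)⁻¹ := by positivity
    have h2 : 0 ≤ Y * η := by positivity
    have h3 := mul_le_mul_of_nonneg_left h.top D0
    have h4 := mul_le_mul_of_nonneg_left h.top (show 0 ≤ μ * G a ^ 6 * S by positivity)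
    have h5 : 0 ≤ A * D * (η ^ 3)⁻¹ := by positivity
    have h6 : 0 ≤ μ * G a ^ 6 * S := by positivity
    have h7 : 0 ≤ A * G a * S := by positivity
    have h8 : Y * G a = A * G a * S + D * G a + μ * G a ^ 6 * S * G a + μ * G a ^ 6 * S := by
      rw [hY, hX]; ring
    rw [h.bot, Real.norm_eq_abs] at this
    rw [div_eq_mul_inv]
    linarith
  · have p := h.p hs
    have h1 := h.lb Y0 0 hs
    have h2 : 3 / 700 ≤ -(((3 : ℕ) : ℝ) * G s ^ (3 - 1) * -k s) / (G s ^ 3) ^ 2 := by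
      rw [le_div_iff₀ (by positivity)]
      have := h.lb zero_le_one 2 hs
      push_cast
      linarith
    have h3 := mul_le_mul_of_nonneg_left h2 (show 0 ≤ A * D by positivity)
    have h4 : 71 * |E s - E b| / G s ^ 2 ≤ 2044800 * (X * G s ^ 4) := by
      rw [div_le_iff₀ (by positivity)]
      linarith [s4 s hs]
    have h5 := mul_le_mul_of_nonneg_left (s1 s hs) hA
    have h6 := mul_le_mul_of_nonneg_left (t 2 s hs) (show 0 ≤ A * S * G s ^ 4 by positivity)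
    have h7 := mul_le_mul_of_nonneg_left (s3 s hs) (show 0 ≤ G s ^ 4 by positivity)
    have h8 := mul_le_mul_of_nonneg_left (t 2 s hs) (show 0 ≤ D * G s ^ 4 by positivity)
    have h9 : μ * G s ^ 5 * S * G s ^ 4 ≤ μ * G a ^ 5 * S * G s ^ 4 := by
      gcongr; exact h.an s hs
    have e1 : Y * G s ^ 4 = X * G s ^ 4 + μ * G a ^ 5 * S * G s ^ 4 := by rw [hY]; ring
    have e2 : X * G s ^ 4 = A * S * G s ^ 4 + D * G s ^ 4 + μ * G a ^ 6 * S * G s ^ 4 := by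
      rw [hX]; ring
    have n1 : 0 ≤ A * S * G s ^ 4 := by positivity
    have n2 : 0 ≤ D * G s ^ 4 := by positivity
    have n3 : 0 ≤ μ * G a ^ 6 * S * G s ^ 4 := by positivity
    have n4 : 0 ≤ μ * G a ^ 5 * S * G s ^ 4 := by positivity
    have n5 : 0 ≤ A * D := by positivity
    rw [Real.norm_eq_abs]
    push_cast at h3 ⊢
    linarith [(hF s hs).2, s2 s hs]

end abs

section pt

variable {W v e E Q δ S G α A g w q μ : ℝ}

theorem CORE1_dg (W0 : 0 < W) (W1 : W ≤ 1.00002) (hW : W ≤ G ^ 2 / 8) (v0 : 0 ≤ v) (hv : v ≤ G)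
    (Q0 : 0 ≤ Q) (hQ : Q ≤ S) (δ0 : 0 ≤ δ) (he : |e| ≤ S * G ^ 5 + 17 * W ^ 3 * δ)
    (h : g ≤ 25 * (W ^ 2 * |e| + W ^ 4 * v * Q + W ^ 3 * δ)) : g ≤ G ^ 9 * S + G ^ 6 * δ := by
  have G0 := v0.trans hv
  have S0 := Q0.trans hQ
  have h1 := mul_le_mul_of_nonneg_left he (sq_nonneg W)
  have h2 : W ^ 2 * (S * G ^ 5) ≤ (G ^ 2 / 8) ^ 2 * (S * G ^ 5) := by gcongr
  have h3 : W ^ 2 * (W ^ 3 * δ) ≤ 1.00002 ^ 2 * ((G ^ 2 / 8) ^ 3 * δ) := by gcongr
  have h4 : W ^ 4 * v * Q ≤ (G ^ 2 / 8) ^ 4 * G * S := by gcongr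
  have h5 : W ^ 3 * δ ≤ (G ^ 2 / 8) ^ 3 * δ := by gcongr
  have h6 : 0 ≤ G ^ 9 * S := by positivity
  have h7 : 0 ≤ G ^ 6 * δ := by positivity
  linarith

theorem CORE1_ev (W0 : 0 < W) (hW : W ≤ G ^ 2 / 8) (v0 : 0 ≤ v) (hv : v ≤ G) (G1 : G ≤ 5.01)
    (Q0 : 0 ≤ Q) (hQ : Q ≤ S) (δ0 : 0 ≤ δ) (α0 : 0 ≤ α) (hα : α ≤ A) (A1 : A ≤ 1 / 10 ^ 6)
    (he : |e| ≤ S * G ^ 5 + 17 * W ^ 3 * δ)
    (h : g ≤ 49 * W ^ 2 * (α * (|e| + W ^ 2 * v * Q) + (W ^ 3 * α + W ^ 2 * v) * δ)) :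
    g ≤ G ^ 9 * (A * S + δ) := by
  have G0 := v0.trans hv
  have S0 := Q0.trans hQ
  have A0 := α0.trans hα
  have h1 : 49 * W ^ 2 * (α * (|e| + W ^ 2 * v * Q) + (W ^ 3 * α + W ^ 2 * v) * δ) ≤
      49 * (G ^ 2 / 8) ^ 2 * (A * (S * G ^ 5 + 17 * (G ^ 2 / 8) ^ 3 * δ + (G ^ 2 / 8) ^ 2 * G * S) +
        ((G ^ 2 / 8) ^ 3 * A + (G ^ 2 / 8) ^ 2 * G) * δ) := by
    gcongr
    exact he.trans (by gcongr)
  have h2 : A * G * (G ^ 9 * δ) ≤ 1 / 10 ^ 6 * 5.01 * (G ^ 9 * δ) := by gcongr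
  have h6 : 0 ≤ G ^ 9 * (A * S) := by positivity
  have h7 : 0 ≤ G ^ 9 * δ := by positivity
  linarith

theorem CORE1_qv {E₀ : ℝ} (W0 : 0 < W) (hW : W ≤ G ^ 2 / 8) (hW' : G ^ 2 / 70 ≤ W) (G0 : 0 < G)
    (Q0 : 0 ≤ Q) (hQ : Q ≤ S) (δ0 : 0 ≤ δ) (α0 : 0 ≤ α) (hα : α ≤ A) (w0 : 0.94 / W ≤ w)
    (w1 : w ≤ 1.0001 / W) (he : |E - e| ≤ 17 * W ^ 3 * δ)
    (h : |q + w * e| ≤ 50 * ((α + W ^ 2) * δ + α * W ^ 2 * Q + g)) :
    |q - -w * E₀| ≤ 50 * (A * δ + G ^ 4 * (δ + A * S) + g) + 71 * |E - E₀| / G ^ 2 := by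
  have S0 := Q0.trans hQ
  have A0 := α0.trans hα
  have w2 : 0 ≤ w := le_trans (by positivity) w0
  have h1 : |q - -w * E₀| ≤ |q + w * e| + (w * |E - e| + w * |E - E₀|) := by
    rw [show q - -w * E₀ = q + w * e + (w * (E - e) - w * (E - E₀)) by ring]
    refine (abs_add_le _ _).trans (add_le_add_right ((abs_sub _ _).trans_eq ?_) _)
    rw [abs_mul, abs_mul, abs_of_nonneg w2]
  have h2 : w * |E - e| ≤ 1.0001 / W * (17 * W ^ 3 * δ) := by gcongr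
  have h3 : 1.0001 / W * (17 * W ^ 3 * δ) = 1.0001 * 17 * (W ^ 2 * δ) := by field_simp
  have h4 : W ^ 2 * δ ≤ (G ^ 2 / 8) ^ 2 * δ := by gcongr
  have h5 : w * |E - E₀| ≤ 71 / G ^ 2 * |E - E₀| := by
    gcongr
    refine w1.trans ?_
    rw [div_le_div_iff₀ W0 (by positivity)]
    linarith [sq_nonneg G]
  have h6 : α * δ ≤ A * δ := by gcongr
  have h7 : α * W ^ 2 * Q ≤ A * (G ^ 2 / 8) ^ 2 * S := by gcongr
  have h8 : 0 ≤ G ^ 4 * (A * S) := by positivity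
  have h9 : 0 ≤ G ^ 4 * δ := by positivity
  rw [mul_div_right_comm]
  linarith

end pt

theorem p_CORE1 (hQEQ : S_QEQ) :
    S_CORE1 := by
  refine ⟨10 ^ 10, by norm_num, fun μ u x J η a₀ b A S hg₀ v0 η0 hx hA₀ A1 J0 hJ₀ hS₀ a ht G D
    hG hD => ?_⟩
  have i : Icc a b ⊆ Icc a₀ b := Icc_subset_Icc_left ht.1
  have hg := hg₀.mono ht.1 ht.2 le_rfl
  have ha : a ∈ Icc a b := ⟨le_rfl, ht.2⟩
  have m0 := hg.sol.gl.pos
  have m1 := hg.sol.gl.le
  have S0 : 0 ≤ S := (abs_nonneg _).trans (hS₀ a ht).1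
  have A0 : 0 ≤ A := (norm_nonneg _).trans (hA₀ a ht)
  have H := fun s (hs : s ∈ Icc a b) => hQEQ μ u x s hg.sol.gl hx (hg.sol.adm s hs) (hg.far s hs).1
    _ _ _ _ _ _ rfl rfl rfl rfl rfl rfl
  have hv : ∀ s ∈ Icc a b, |(u s).2.2| ≤ η + (u s).2.2 := fun s hs => by
    rw [abs_of_nonneg (hg.far s hs).2.1]; linarith
  have he : ∀ s ∈ Icc a b, |de μ (u s) (x s)| ≤ S * (η + (u s).2.2) ^ 5 +
      17 * WW (u s) ^ 3 * ‖(x s).1‖ := fun s hs => by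
    linarith [(H s hs).2.2.2.1, (hS₀ s (i hs)).2, abs_sub_abs_le_abs_sub (de μ (u s) (x s))
      (Ev μ (u s) (x s)), abs_sub_comm (de μ (u s) (x s)) (Ev μ (u s) (x s))]
  have hc : CORE1_G a b η (fun s => η + (u s).2.2) fun s => -(fld μ (u s)).2.2 :=
    ⟨ht.2, η0, fun s hs => by simpa only [neg_neg] using (hg.dv hs).1, fun s hs => (hg.dv hs).2.1,
      fun s hs => by linarith [(hg.far s hs).2.1], fun s hs => by linarith [hg.anti ha hs hs.1],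
      (hg.G ha).2, by rw [v0, add_zero]⟩
  choose! q1 hq1 using fun s hs => (H s hs).2.2.2.2.2.1
  choose! q2 hq2 using fun s hs => (H s hs).2.2.2.2.2.2
  have hβ : ∀ s ∈ Icc a b, HasDerivAt (bb x) (-(I * ex (-s) * (μ * dg (u s) (x s) : ℝ))) s ∧
      ‖-(I * ex (-s) * (μ * dg (u s) (x s) : ℝ))‖ = μ * |dg (u s) (x s)| ∧ |dg (u s) (x s)| ≤
        (η + (u s).2.2) ^ 9 * S + (η + (u s).2.2) ^ 6 * ‖bb x s‖ := fun s hs =>
    ⟨hx.dbb (hg.sol.reg s hs), by simp [abs_of_pos m0], by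
      rw [norm_bb]
      exact CORE1_dg (hg.sol.adm s hs).W (hg.sol.adm s hs).W_le (hg.far s hs).2.2.2 (abs_nonneg _)
        (hv s hs) (abs_nonneg _) (hS₀ s (i hs)).1 (norm_nonneg _) (he s hs) (H s hs).2.2.1⟩
  have s1 := CORE1_s1 hc m0 m1 S0 hβ a ha
  obtain ⟨r1, r2, r3⟩ := CORE1_abs (D := D) (E := fun s => Ev μ (u s) (x s)) (E' := q2)
    (F := fun s => Qv (u s) (x s) - 16 * (1 + μ) * (x s).1.im - J s * Ev μ (u b) (x b))
    (F' := fun s => q1 s - -wt (u s) * Ev μ (u b) (x b)) hc m0 m1 S0 A0 (by rw [hD, norm_bb]) hβ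
    (fun s hs => ⟨(hq2 s hs).1, by
      rw [norm_bb]
      exact CORE1_ev (hg.sol.adm s hs).W (hg.far s hs).2.2.2 (abs_nonneg _) (hv s hs) (hg.G hs).2
        (abs_nonneg _) (hS₀ s (i hs)).1 (norm_nonneg _) (norm_nonneg _) (hA₀ s (i hs))
        (by linarith) (he s hs) (hq2 s hs).2⟩)
    fun s hs => ⟨(hq1 s hs).1.fun_sub ((hJ₀ s (i hs)).mul_const _), by
      rw [norm_bb]
      exact CORE1_qv (hg.sol.adm s hs).W (hg.far s hs).2.2.2 (hg.far s hs).2.2.1 (hg.G hs).1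
        (abs_nonneg _) (hS₀ s (i hs)).1 (norm_nonneg _) (norm_nonneg _) (hA₀ s (i hs))
        (H s hs).1 (H s hs).2.1 (H s hs).2.2.2.1 (hq1 s hs).2⟩
  simp only [← hG, norm_bb, ← hD, J0, zero_mul, sub_zero] at r1 r2 r3 s1
  have G0 : 0 < G := hG ▸ (hg.G ha).1
  have D0 : 0 ≤ D := hD ▸ norm_nonneg _
  refine ⟨r1.trans (by gcongr; norm_num), r2.trans (by gcongr; norm_num), ?_⟩
  have i1 : |16 * (1 + μ) * (x a).1.im| ≤ 17 * ‖(x a).1‖ := by
    rw [abs_mul, abs_of_pos (by positivity)]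
    gcongr
    · linarith
    · exact abs_im_le_norm _
  have i2 : |16 * (1 + μ) * (x b).1.im| ≤ 17 * D := by
    rw [abs_mul, abs_of_pos (by positivity), hD]
    gcongr
    · linarith
    · exact abs_im_le_norm _
  have n1 : 0 ≤ A / η ^ 3 * D := by positivity
  have n2 : 0 ≤ A * G * S := by positivity
  have n3 : 0 ≤ μ * G ^ 6 * S := by positivity
  rw [abs_le] at i1 i2 r3 ⊢
  constructor <;> linarith [i1.1, i1.2, i2.1, i2.2, r3.1, r3.2]

end Pool.Agent.P.MP_9ae58c_an.B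

end
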