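import Pool.Agent.P.MP_9ae58c_an.B.IfA

section

/-! Step CORE. -/

namespace Pool.Agent.P.MP_9ae58c_an.B

open Set Filter Topology Complex

variable {μ η a b : ℝ} {u x : ℝ → St}

theorem CORE_wt_cont (h : Gau μ u η a b) : ContinuousOn (fun t => wt (u t)) (Icc a b) := by
  intro t ht
  have p := h.sol.reg t ht
  have d := h.sol.der ht
  have hz : (u t).2.1 ^ 2 ≠ 0 := pow_ne_zero 2 (by linarith [(h.far t ht).1])
  have hW : 2 * WW (u t) ≠ 0 := by linarith [p.W]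
  have c1 := ((drr p d).continuousAt).pow 2
  have c2 := ((d2 d).continuousAt).pow 2
  have c3 := (dWW p d).continuousAt
  exact ((c1.mul (continuousAt_const.sub (c1.div c2 hz))).div (continuousAt_const.mul c3)
    hW).continuousWithinAt

theorem CORE_wt (hQEQ : S_QEQ) (h : Gau μ u η a b) {t : ℝ} (ht : t ∈ Icc a b) :
    10.5 * (5 * -(fld μ (u t)).2.2 / (η + (u t).2.2) ^ 6) ≤ wt (u t) ∧
      wt (u t) ≤ 9801 * (5 * -(fld μ (u t)).2.2 / (η + (u t).2.2) ^ 6) := by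
  obtain ⟨h1, -, h3, h4⟩ := h.far t ht
  obtain ⟨w1, w2, -⟩ := hQEQ μ u _ t h.sol.gl h.sol.gl.var (h.sol.adm t ht) h1 _ _ _ _ _ _
    rfl rfl rfl rfl rfl rfl
  obtain ⟨-, d1, d2⟩ := h.dv ht
  have G := (h.G ht).1
  have W := (h.sol.adm t ht).W
  generalize η + (u t).2.2 = g at *
  generalize -(fld μ (u t)).2.2 = d at *
  generalize WW (u t) = W' at *
  have g2 := pow_pos G 2
  constructor
  · refine le_trans ?_ w1
    calc 10.5 * (5 * d / g ^ 6) ≤ 10.5 * (5 * (g ^ 4 / 7) / g ^ 6) := by gcongr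
      _ = 7.5 / g ^ 2 := by field_simp; norm_num
      _ ≤ 0.94 / (g ^ 2 / 8) := by
        rw [div_div_eq_mul_div]; gcongr; norm_num
      _ ≤ 0.94 / W' := by gcongr
  · refine le_trans w2 ?_
    calc 1.0001 / W' ≤ 1.0001 / (g ^ 2 / 70) := by gcongr
      _ ≤ (9801 / 140) / g ^ 2 := by
        rw [div_div_eq_mul_div]; gcongr; norm_num
      _ = 9801 * (5 * (g ^ 4 / 700) / g ^ 6) := by field_simp; norm_num
      _ ≤ 9801 * (5 * d / g ^ 6) := by gcongr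

theorem CORE_phi (h : Gau μ u η a b) {t : ℝ} (ht : t ∈ Icc a b) :
    HasDerivAt (fun t => 1 / (η + (u t).2.2) ^ 5)
      (5 * -(fld μ (u t)).2.2 / (η + (u t).2.2) ^ 6) t := by
  have G := (h.G ht).1.ne'
  refine ((hasDerivAt_const t (1 : ℝ)).fun_div ((h.dv ht).1.fun_pow 5)
    (pow_ne_zero 5 G)).congr_deriv ?_
  field_simp
  ring

theorem CORE_J (hQEQ : S_QEQ) (h : Gau μ u η a b) (hb : (u b).2.2 = 0) (hη : 0 < η) :
    ∃ J : ℝ → ℝ, J b = 0 ∧ (∀ t ∈ Icc a b, HasDerivAt J (-wt (u t)) t) ∧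
      (∀ t ∈ Icc a b, 0 ≤ J t ∧ J t ≤ 10 ^ 4 / η ^ 5) ∧ (η ≤ (u a).2.2 → 1 / η ^ 5 ≤ J a) := by
  obtain ⟨Φ, -, hΦ⟩ := exists_prim h.le (CORE_wt_cont h)
  have hb' : b ∈ Icc a b := ⟨h.le, le_rfl⟩
  have η5 : 0 < 1 / η ^ 5 := by positivity
  have lo : ∀ t ∈ Icc a b, 10.5 * (1 / η ^ 5) - 10.5 * (1 / (η + (u t).2.2) ^ 5) ≤ Φ b - Φ t := by
    intro t ht
    have := sub_le_of (fun t ht => (CORE_phi h ht).const_mul 10.5) hΦ
      (fun t ht => (CORE_wt hQEQ h ht).1) ht hb' ht.2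
    simpa only [hb, add_zero] using this
  refine ⟨fun t => Φ b - Φ t, sub_self _, fun t ht => (hΦ t ht).const_sub _, fun t ht => ⟨?_, ?_⟩,
    fun e => ?_⟩
  · have : 1 / (η + (u t).2.2) ^ 5 ≤ 1 / η ^ 5 := by
      gcongr; linarith [(h.far t ht).2.1]
    linarith [lo t ht]
  · have := sub_le_of hΦ (fun t ht => (CORE_phi h ht).const_mul 9801)
      (fun t ht => (CORE_wt hQEQ h ht).2) ht hb' ht.2
    simp only [hb, add_zero] at this
    have G := (h.G ht).1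
    have h2 : 0 < 1 / (η + (u t).2.2) ^ 5 := by positivity
    have h3 : (10 : ℝ) ^ 4 / η ^ 5 = 10 ^ 4 * (1 / η ^ 5) := by ring
    show Φ b - Φ t ≤ _
    linarith
  · have h1 : 1 / (η + (u a).2.2) ^ 5 ≤ 1 / (2 * η) ^ 5 := by gcongr; linarith
    have h2 : 1 / (2 * η) ^ 5 = 1 / 32 * (1 / η ^ 5) := by field_simp; norm_num
    show _ ≤ Φ b - Φ a
    linarith [lo a ⟨le_rfl, h.le⟩]

theorem CORE_max (hQEQ : S_QEQ) (h : Gau μ u η a b) (hx : Var μ u x) :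
    ∃ S, ∃ s ∈ Icc a b, (S = |Qv (u s) (x s)| ∨ S = |Ev μ (u s) (x s)| / (η + (u s).2.2) ^ 5) ∧
      ∀ t ∈ Icc a b, |Qv (u t) (x t)| ≤ S ∧ |Ev μ (u t) (x t)| ≤ S * (η + (u t).2.2) ^ 5 := by
  have hc : ContinuousOn (fun t => max |Qv (u t) (x t)| (|Ev μ (u t) (x t)| / (η + (u t).2.2) ^ 5))
      (Icc a b) := by
    intro t ht
    obtain ⟨-, -, -, -, ⟨q, hq, -⟩, -, e, he, -⟩ := hQEQ μ u x t h.sol.gl hx (h.sol.adm t ht)
      (h.far t ht).1 _ _ _ _ _ _ rfl rfl rfl rfl rfl rfl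
    exact ContinuousAt.continuousWithinAt (hq.continuousAt.abs.max (he.continuousAt.abs.div
      ((h.dv ht).1.continuousAt.pow 5) (pow_ne_zero 5 (h.G ht).1.ne')))
  obtain ⟨s, hs, hm⟩ := isCompact_Icc.exists_isMaxOn (nonempty_Icc.2 h.le) hc
  refine ⟨_, s, hs, max_choice _ _, fun t ht => ⟨(le_max_left _ _).trans (hm ht), ?_⟩⟩
  exact (div_le_iff₀ (pow_pos (h.G ht).1 5)).1 ((le_max_right _ _).trans (hm ht))

theorem CORE_small {C w A G μ : ℝ} (hC : 1 ≤ C) (hw : C * w ≤ 1) (hG : 0 < G) (hGw : G ≤ w)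
    (hA0 : 0 ≤ A) (hA : A ≤ 100 * μ) (hμ : μ ≤ 1 / 10 ^ 8) :
    C * G ≤ 1 ∧ C * (A * G + μ * G ^ 6) ≤ 1 / 2 ∧ C * G * (A + μ * G ^ 6) ≤ 1 / 2 := by
  have h0 : 0 ≤ μ := by linarith
  have h1 : C * G ≤ 1 := le_trans (by gcongr) hw
  have h2 : G ≤ 1 := by nlinarith
  have h3 : G ^ 5 ≤ 1 := pow_le_one₀ hG.le h2
  have h4 : G ^ 6 ≤ 1 := pow_le_one₀ hG.le h2
  refine ⟨h1, ?_, ?_⟩
  · calc C * (A * G + μ * G ^ 6) = C * G * (A + μ * G ^ 5) := by ring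
      _ ≤ 1 * (100 * μ + μ * 1) := by gcongr
      _ ≤ 1 / 2 := by linarith
  · calc C * G * (A + μ * G ^ 6) ≤ 1 * (100 * μ + μ * 1) := by gcongr
      _ ≤ 1 / 2 := by linarith

theorem p_CORE (hQEQ : S_QEQ) (hCORE1 : S_CORE1) :
    S_CORE := by
  obtain ⟨C, hC, H⟩ := hCORE1
  refine ⟨C * (2 * (10 ^ 4 + C)), by nlinarith, ?_⟩
  intro μ u η a b w A h hb hη hv hw hCw hA hAμ
  obtain ⟨J, J0, Jd, Jb, Ja⟩ := CORE_J hQEQ h hb hη
  have ha : a ∈ Icc a b := ⟨le_rfl, h.le⟩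
  refine ⟨J a, Ja hv, (Jb a ha).2, ?_⟩
  intro x hx D S hD hS
  obtain ⟨T, s, hs, hT, hm⟩ := CORE_max hQEQ h hx
  have K := H μ u x J η a b A T h hb hη hx hA hAμ J0 Jd hm
  have A0 : 0 ≤ A := (norm_nonneg _).trans (hA a ha)
  have D0 : 0 ≤ D := hD ▸ norm_nonneg _
  have T0 : 0 ≤ T := (abs_nonneg _).trans (hm a ha).1
  have m0 := h.sol.gl.pos
  have m1 := h.sol.gl.le
  have w0 : 0 < w := (h.G ha).1.trans_le hw
  have hCw' : C * w ≤ 1 := by
    refine le_trans ?_ hCw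
    have : 0 < C * w := by positivity
    nlinarith
  have Gw : ∀ t ∈ Icc a b, η + (u t).2.2 ≤ w := fun t ht => by linarith [h.anti ha ht ht.1]
  have q0 := abs_nonneg (Qv (u b) (x b))
  have e0 : 0 ≤ |Ev μ (u b) (x b)| / η ^ 5 := by positivity
  have r0 : D ≤ (1 + A / η ^ 3) * D := le_mul_of_one_le_left D0 (by
    have : 0 ≤ A / η ^ 3 := by positivity
    linarith)
  have S0 : 0 ≤ S := by linarith
  have hTS : T ≤ 2 * (10 ^ 4 + C) * S := by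
    have G := (h.G hs).1
    obtain ⟨s1, s2, s3⟩ := CORE_small hC hCw' G (Gw s hs) A0 hAμ m1
    obtain ⟨-, k2, k3⟩ := K s hs _ D rfl hD
    have CS : 0 ≤ C * S := by positivity
    rcases hT with e | e
    · have j : |J s * Ev μ (u b) (x b)| ≤ 10 ^ 4 * (|Ev μ (u b) (x b)| / η ^ 5) := by
        rw [abs_mul, abs_of_nonneg (Jb s hs).1]
        calc J s * |Ev μ (u b) (x b)| ≤ 10 ^ 4 / η ^ 5 * |Ev μ (u b) (x b)| := by
              gcongr; exact (Jb s hs).2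
          _ = _ := by ring
      have t1 : |Qv (u s) (x s)| ≤ |Qv (u s) (x s) - Qv (u b) (x b) - J s * Ev μ (u b) (x b)| +
          |Qv (u b) (x b)| + |J s * Ev μ (u b) (x b)| := by
        refine le_trans (le_of_eq ?_) (abs_add_three _ _ _)
        congr 1; ring
      have t2 : C * ((A * (η + (u s).2.2) + μ * (η + (u s).2.2) ^ 6) * T) ≤ 1 / 2 * T := by
        rw [← mul_assoc]; gcongr
      have t3 : C * ((1 + A / η ^ 3) * D) ≤ C * S := by gcongr; linarith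
      rw [mul_add] at k3
      rw [← e] at t1
      nlinarith
    · have t1 : |Ev μ (u s) (x s)| ≤ |Ev μ (u s) (x s) - Ev μ (u b) (x b)| + |Ev μ (u b) (x b)| := by
        refine le_trans (le_of_eq ?_) (abs_add_le _ _)
        congr 1; ring
      have ηG : η ≤ η + (u s).2.2 := by linarith [(h.far s hs).2.1]
      generalize η + (u s).2.2 = g at *
      have t2 : T ≤ C * g * (A * T + D + μ * g ^ 6 * T) + |Ev μ (u b) (x b)| / η ^ 5 :=
        calc T = |Ev μ (u s) (x s)| / g ^ 5 := e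
          _ ≤ (C * g ^ 6 * (A * T + D + μ * g ^ 6 * T) + |Ev μ (u b) (x b)|) / g ^ 5 := by
            gcongr; linarith
          _ = C * g * (A * T + D + μ * g ^ 6 * T) + |Ev μ (u b) (x b)| / g ^ 5 := by
            field_simp
          _ ≤ _ := by gcongr
      have t3 : C * g * (A + μ * g ^ 6) * T ≤ 1 / 2 * T := by gcongr
      have t4 : C * g * D ≤ 1 * D := by gcongr
      nlinarith
  obtain ⟨k1, -, k3⟩ := K a ha _ D rfl hD
  have G := (h.G ha).1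
  have c1 : 1 ≤ 2 * (10 ^ 4 + C) := by linarith
  have r1 : 0 ≤ (1 + A / η ^ 3) * D := D0.trans r0
  generalize η + (u a).2.2 = g at *
  generalize 2 * (10 ^ 4 + C) = L at *
  constructor
  · calc _ ≤ C * μ * (g ^ 3 * D + g ^ 6 * T) := k1
      _ ≤ C * μ * (w ^ 3 * D + w ^ 6 * (L * S)) := by gcongr
      _ ≤ C * μ * (L * (w ^ 3 * D) + w ^ 6 * (L * S)) := by
        gcongr C * μ * (?_ + _)
        exact le_mul_of_one_le_left (by positivity) c1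
      _ = _ := by ring
  · calc _ ≤ C * ((1 + A / η ^ 3) * D + (A * g + μ * g ^ 6) * T) := k3
      _ ≤ C * (L * ((1 + A / η ^ 3) * D) + (A * w + μ * w ^ 6) * (L * S)) := by
        gcongr C * (?_ + (A * ?_ + μ * ?_ ^ 6) * ?_)
        exact le_mul_of_one_le_left r1 c1
      _ = _ := by ring

end Pool.Agent.P.MP_9ae58c_an.B

end

section

/-! Step HALF. -/

namespace Pool.Agent.P.MP_9ae58c_an.B

open Set Filter Topology Complex

theorem HALF_time {η w tp : ℝ} (h0 : 0 < η) (h1 : 3 * η ≤ w) (h2 : w ≤ 1 / 100)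
    (h3 : 1 ≤ (1 + tp - 0) * (η + 0) ^ 3) : 3 / 2 ≤ 1 / w ^ 3 ∧ 1 / w ^ 3 ≤ tp := by
  have w0 : 0 < w := by linarith
  have a1 : w ^ 3 ≤ (1 / 100) ^ 3 := by gcongr
  have a2 : (3 * η) ^ 3 ≤ w ^ 3 := by gcongr
  have a3 : 0 < 1 + tp := by
    by_contra hc
    nlinarith [mul_nonneg (neg_nonneg.2 (not_lt.1 hc)) (pow_pos h0 3).le]
  have a4 := mul_le_mul_of_nonneg_left a2 a3.le
  rw [le_div_iff₀ (by positivity), div_le_iff₀ (by positivity)]
  constructor <;> nlinarith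

theorem HALF_gauge {w G : ℝ} (w0 : 0 < w) (h2 : w ≤ 1 / 100) (hG : 0 ≤ G)
    (h3 : 1 ≤ (1 + 1 / w ^ 3 - 0) * G ^ 3) (h4 : (1 + 1 / w ^ 3 - 0) * G ^ 3 ≤ 600) :
    0.9 * w ≤ G ∧ G ≤ 9 * w := by
  have a0 := pow_pos w0 3
  have a1 : w ^ 3 ≤ (1 / 100) ^ 3 := by gcongr
  have e : (1 + 1 / w ^ 3 - 0) * G ^ 3 = (w ^ 3 + 1) * G ^ 3 / w ^ 3 := by field_simp; ring
  rw [e, le_div_iff₀ a0] at h3
  rw [e, div_le_iff₀ a0] at h4
  have a2 := pow_nonneg hG 3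
  have a3 := mul_le_mul_of_nonneg_right a1 a2
  exact ⟨le_of_pow_le_pow_left₀ (n := 3) (by norm_num) hG (by nlinarith),
    le_of_pow_le_pow_left₀ (n := 3) (by norm_num) (by positivity) (by nlinarith [mul_nonneg a0.le a2])⟩

theorem HALF_tt {μ A w η L : ℝ} (m0 : 0 < μ) (A0 : 0 ≤ A) (A1 : A ≤ 100 * μ) (w0 : 0 < w)
    (w1 : w ≤ 1) (h0 : 0 < η) (hL : L = 1 / w ^ 3 + A / μ / w ^ 5) :
    A * w + μ * w ^ 6 ≤ tt μ A w ∧ A ≤ tt μ A w ∧ μ * w ^ 6 * L ≤ tt μ A w ∧ A * L ≤ tt μ A w ∧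
      L ≤ 101 * RR A η w ∧ 1 / w ^ 5 ≤ RR A η w ∧ 1 + A / η ^ 3 ≤ RR A η w := by
  have p3 : w ^ 3 ≤ 1 := pow_le_one₀ w0.le w1
  have a1 : A ≤ A / w ^ 3 := le_div_self A0 (by positivity) p3
  have a2 : A * w ≤ A := mul_le_of_le_one_right A0 w1
  have a3 : μ * w ^ 6 ≤ μ * w ^ 3 :=
    mul_le_mul_of_nonneg_left (pow_le_pow_of_le_one w0.le w1 (by norm_num)) m0.le
  have a4 : 0 ≤ A ^ 2 / (μ * w ^ 5) := by positivity
  have a5 : 0 ≤ μ * w ^ 3 := by positivity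
  have a6 : 0 ≤ A / η ^ 3 := by positivity
  have a7 : 1 / w ^ 3 ≤ 1 / w ^ 5 :=
    one_div_le_one_div_of_le (by positivity) (pow_le_pow_of_le_one w0.le w1 (by norm_num))
  have a8 : A / μ / w ^ 5 ≤ 100 * (1 / w ^ 5) := by
    rw [mul_one_div]
    exact div_le_div_of_nonneg_right ((div_le_iff₀ m0).2 A1) (by positivity)
  have a9 : 1 ≤ 1 / w ^ 5 := one_le_one_div (by positivity) (pow_le_one₀ w0.le w1)
  have e1 : μ * w ^ 6 * L = μ * w ^ 3 + A * w := by rw [hL]; field_simp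
  have e2 : A * L = A / w ^ 3 + A ^ 2 / (μ * w ^ 5) := by rw [hL]; field_simp
  unfold tt RR
  refine ⟨?_, ?_, ?_, ?_, ?_, ?_, ?_⟩ <;> linarith

theorem HALF_Q {μ A w G L N h : ℝ} (m0 : 0 < μ) (A0 : 0 ≤ A) (w0 : 0 < w) (hG : 0.9 * w ≤ G)
    (N0 : 0 ≤ N) (h0 : 0 ≤ h) (hL : L = 1 / w ^ 3 + A / μ / w ^ 5) :
    N / G ^ 3 + (A * N / μ + h) / G ^ 5 ≤ 2 * (L * N + 1 / w ^ 5 * h) := by
  have a1 : (0.9 * w) ^ 3 ≤ G ^ 3 := by gcongr
  have a2 : (0.9 * w) ^ 5 ≤ G ^ 5 := by gcongr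
  have b1 : N / G ^ 3 ≤ N / (w ^ 3 / 2) :=
    div_le_div_of_nonneg_left N0 (by positivity) (by nlinarith [pow_pos w0 3])
  have b2 : (A * N / μ + h) / G ^ 5 ≤ (A * N / μ + h) / (w ^ 5 / 2) :=
    div_le_div_of_nonneg_left (by positivity) (by positivity) (by nlinarith [pow_pos w0 5])
  refine (add_le_add b1 b2).trans (le_of_eq ?_)
  rw [hL]; field_simp; ring

theorem HALF_r {μ A : ℝ} {p : St} (h : Adm μ p) (hA : ‖p.1‖ ≤ A) : |1 - rr p ^ 2| ≤ 3 * A := by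
  obtain ⟨r1, r2⟩ := h.r
  have e : 1 - rr p ^ 2 = p.1.re * (rr p * (1 + rr p)) := by
    linear_combination (-(1 + rr p)) * h.reg.r_mul
  have a := (abs_re_le_norm _).trans hA
  rw [e, abs_mul, abs_of_pos (show 0 < rr p * (1 + rr p) by positivity), mul_comm 3]
  exact mul_le_mul a (by nlinarith) (by positivity) ((abs_nonneg _).trans a)

theorem HALF_E {K C2 C3 t R N S c L m A N' Q q E : ℝ} (h2 : 1 ≤ C2) (h3 : 1 ≤ C3)
    (hK : C2 * C3 ≤ K) (t0 : 0 ≤ t) (R0 : 0 ≤ R) (N0 : 0 ≤ N) (S0 : 0 ≤ S) (c0 : 0 ≤ c)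
    (L0 : 0 ≤ L) (a1 : m * L ≤ t) (a2 : A * L ≤ t) (a3 : L ≤ 101 * R)
    (hN : N' ≤ 4 * N + 2 * 9 ^ 6 * C3 * m * S + 2 * 10 ^ 4 * ((A + m) * c))
    (hQ : Q ≤ C2 * (2 * (L * N' + R * N))) (hq : q ≤ C3 * (R * N + 9 ^ 6 * t * S))
    (hE : E ≤ 27 * t * c + Q + q) : E ≤ 3 * 10 ^ 6 * K * (t * (S + c) + R * N) := by
  have b1 := mul_le_mul_of_nonneg_left hN L0
  have b2 := mul_le_mul_of_nonneg_right a1 (mul_nonneg (zero_le_one.trans h3) S0)
  have b3 := mul_le_mul_of_nonneg_right (add_le_add a1 a2) c0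
  have b4 := mul_le_mul_of_nonneg_right a3 N0
  have b5 : L * N' + R * N ≤ 405 * (R * N) + 2 * 9 ^ 6 * C3 * (t * S) + 4 * 10 ^ 4 * (t * c) := by
    linarith
  have b6 := mul_le_mul_of_nonneg_left b5 (zero_le_one.trans h2)
  have k2 : C2 ≤ K := (le_mul_of_one_le_right (by linarith) h3).trans hK
  have k3 : C3 ≤ K := (le_mul_of_one_le_left (by linarith) h2).trans hK
  have u0 := mul_nonneg R0 N0
  have v0 := mul_nonneg t0 S0
  have z0 := mul_nonneg t0 c0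
  have := mul_le_mul_of_nonneg_right k2 u0
  have := mul_le_mul_of_nonneg_right k3 u0
  have := mul_le_mul_of_nonneg_right hK v0
  have := mul_le_mul_of_nonneg_right k3 v0
  have := mul_le_mul_of_nonneg_right k2 z0
  have := mul_le_mul_of_nonneg_right (h2.trans k2) z0
  have := mul_nonneg (zero_le_one.trans (h2.trans k2)) u0
  have := mul_nonneg (zero_le_one.trans (h2.trans k2)) v0
  linarith

theorem HALF_fin {K t P a c E : ℝ} (hK : 3 * 10 ^ 6 ≤ K) (ht : K * t ≤ 1) (t0 : 0 ≤ t) (P0 : 0 ≤ P)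
    (a0 : 0 ≤ a) (c0 : 0 ≤ c) (hE : E ≤ K * (t * (P + a + c) + a)) (hc : 8 * c ≤ E + 10 ^ 4 * P) :
    E ≤ 3 * K ^ 2 * (t * P + a) := by
  have b1 := mul_le_mul_of_nonneg_right ht (show 0 ≤ P + a + c by positivity)
  have b2 := mul_le_mul_of_nonneg_right hK P0
  have b3 := mul_le_mul_of_nonneg_right hK a0
  have b4 : c ≤ K * (P + a) := by linarith
  have t1 : t ≤ 1 := by nlinarith
  have b5 := mul_le_mul_of_nonneg_left b4 t0
  have b6 := mul_le_mul_of_nonneg_right t1 a0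
  have b7 := mul_le_mul_of_nonneg_left b6 (show 0 ≤ K by linarith)
  have b8 := mul_le_mul_of_nonneg_right hK (mul_nonneg t0 P0)
  have b9 : t * (P + a + c) + a ≤ 3 * K * (t * P + a) := by linarith [mul_nonneg t0 P0]
  exact hE.trans ((mul_le_mul_of_nonneg_left b9 (by linarith)).trans (le_of_eq (by ring)))

theorem HALF_two {K C1 C2 C3 μ N a b N' E : ℝ} (h1 : C1 ≤ K) (h2 : 1 ≤ C2) (h3 : 1 ≤ C3)
    (hK : C2 * C3 ≤ K) (m0 : 0 ≤ μ) (N0 : 0 ≤ N) (a0 : 0 ≤ a) (b0 : 0 ≤ b)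
    (hN : N' ≤ 4 * N + 2 * 9 ^ 6 * C3 * a + 2 * 10 ^ 4 * b)
    (hE : E ≤ μ * (5.01 * C2 * N' + 9 ^ 6 * C3 * (N + a) + 9 ^ 6 * C1 * b + 10 ^ 4 * b)) :
    E ≤ 3 * (3 * 10 ^ 6 * K) ^ 2 * μ * (N + a + b) := by
  have k2 : C2 ≤ K := (le_mul_of_one_le_right (by linarith) h3).trans hK
  have k3 : C3 ≤ K := (le_mul_of_one_le_left (by linarith) h2).trans hK
  have k1 := h2.trans k2
  have := mul_le_mul_of_nonneg_left hN (zero_le_one.trans h2)
  have := mul_le_mul_of_nonneg_right k2 N0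
  have := mul_le_mul_of_nonneg_right k3 N0
  have := mul_le_mul_of_nonneg_right hK a0
  have := mul_le_mul_of_nonneg_right k3 a0
  have := mul_le_mul_of_nonneg_right k2 b0
  have := mul_le_mul_of_nonneg_right h1 b0
  have := mul_le_mul_of_nonneg_right k1 b0
  have := mul_nonneg (zero_le_one.trans k1) N0
  have := mul_nonneg (zero_le_one.trans k1) a0
  have b1 : 5.01 * C2 * N' + 9 ^ 6 * C3 * (N + a) + 9 ^ 6 * C1 * b + 10 ^ 4 * b ≤
      10 ^ 7 * K * (N + a + b) := by linarith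
  have b2 : 10 ^ 7 * K * (N + a + b) ≤ 3 * (3 * 10 ^ 6 * K) ^ 2 * (N + a + b) :=
    mul_le_mul_of_nonneg_right (by nlinarith) (by positivity)
  exact hE.trans ((mul_le_mul_of_nonneg_left (b1.trans b2) m0).trans (le_of_eq (by ring)))

theorem p_HALF (hUPT : S_UPT) (hADI : S_ADI) (hUPV : S_UPV) (hCORE : S_CORE) :
    S_HALF := by
  obtain ⟨C1, k1, hADI⟩ := hADI
  obtain ⟨C2, k2, hUPV⟩ := hUPV
  obtain ⟨C3, k3, hCORE⟩ := hCORE
  obtain ⟨K, l1, l0⟩ : ∃ K, C1 ≤ K ∧ C2 * C3 ≤ K := ⟨max _ _, le_max_left _ _, le_max_right _ _⟩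
  have l2 : C2 ≤ K := (le_mul_of_one_le_right (by linarith) k3).trans l0
  have l3 : C3 ≤ K := (le_mul_of_one_le_left (by linarith) k2).trans l0
  have K1 := k1.trans l1
  have hC : 3 * 10 ^ 6 * K ≤ 3 * (3 * 10 ^ 6 * K) ^ 2 := by nlinarith
  refine ⟨3 * (3 * 10 ^ 6 * K) ^ 2, by linarith, fun μ u η tp w A hμ hu v0 η0 ηw hw hA A1 ht => ?_⟩
  have m0 := hu.sol.gl.pos
  have m1 := hu.sol.gl.le
  have w0 : 0 < w := by linarith
  have sm : ∀ {a x : ℝ}, a ≤ K → 0 ≤ x → 3 * (3 * 10 ^ 6 * K) ^ 2 * x ≤ 1 →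
      3 * 10 ^ 6 * a * x ≤ 1 := fun h h0 h1 =>
    (mul_le_mul_of_nonneg_right (le_trans (by linarith) hC) h0).trans h1
  have w1 : w ≤ 1 / 100 := by linarith [sm K1 w0.le hw]
  have p3 : w ^ 3 ≤ 1 := pow_le_one₀ w0.le (by linarith)
  obtain ⟨t1, t2⟩ := HALF_time η0 ηw w1 (v0 ▸ (hUPT μ u η 0 tp hu tp ⟨hu.le, le_rfl⟩).1)
  have hg := hu.gau (by linarith) t2 le_rfl
  obtain ⟨u1, u2, -⟩ := hUPT μ u η 0 tp hu _ ⟨by linarith, t2⟩
  obtain ⟨g1, g2⟩ := HALF_gauge w0 w1 (hg.G ⟨le_rfl, t2⟩).1.le u1 u2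
  have A0 := (norm_nonneg _).trans (hA tp ⟨t2, le_rfl⟩)
  obtain ⟨L, hL⟩ : ∃ L, L = 1 / w ^ 3 + A / μ / w ^ 5 := ⟨_, rfl⟩
  have L0 : 0 ≤ L := by rw [hL]; positivity
  obtain ⟨s1, s2, s3, s4, s5, s6, s7⟩ := HALF_tt m0 A0 A1 w0 (by linarith) η0 hL
  have hQ := fun N h => HALF_Q (N := N) (h := h) m0 A0 w0 g1 (hL := hL)
  clear u1 u2 hL
  generalize 1 / w ^ 3 = tl at *
  have hl : tl ∈ Icc tl tp := ⟨le_rfl, t2⟩
  obtain ⟨J, J1, J2, hJ⟩ := hCORE μ u η tl tp (9 * w) A hg v0 η0 (by linarith) g2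
    (by linarith [sm l3 w0.le hw, mul_nonneg (zero_le_one.trans k3) w0.le]) hA A1
  refine ⟨J, J1, J2, fun x hx c P N hc hP hN => ?_⟩
  obtain ⟨c1, c2⟩ := hJ x hx _ _ rfl rfl
  rw [← hP] at c1 c2
  have ad := hg.sol.adm tl hl
  have a0 := hu.sol.adm 0 ⟨le_rfl, hu.le⟩
  have yz : (sy μ u x 0 0).2.1 = 0 := sy_z a0.reg (by linarith [hu.v0])
  obtain ⟨b1, b2⟩ := hUPV μ u (sy μ u x 0) η tl (by linarith [sm l2 m0.le hμ, mul_nonneg (zero_le_one.trans k2) m0.le])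
    (hu.mono (by linarith) t2) (hx.sy hu.sol.gl 0) yz
  replace b1 := b1 0 tl le_rfl (by linarith) le_rfl
  replace b2 := b2 A (hA tl hl) A1
  have ey : sy μ u x 0 = syn μ u x c := by rw [hc]; rfl
  have eh : dh μ (u 0) (sy μ u x 0 0) = dh μ (u 0) (x 0) := dh_syn m0 _ _ _ _
  have en : nn μ (u 0) (sy μ u x 0 0) = ‖(sy μ u x 0 0).1‖ + |dh μ (u 0) (x 0)| := by rw [nn, eh]
  have n0 : 0 ≤ nn μ (u 0) (sy μ u x 0 0) := by rw [en]; positivity
  rw [eh] at b2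
  replace b2 := b2.trans (mul_le_mul_of_nonneg_left (hQ _ _ n0 (abs_nonneg _)) (by linarith))
  have eQ : Qv (u tl) (sy μ u x 0 tl) = _ := ey ▸ Qv_syn ad.reg (by linarith [(hg.far tl hl).1])
  have eb : bb (sy μ u x 0) tl = _ := ey ▸ bb_syn μ u x c tl
  rw [bb_zero] at b1
  have d1 := hADI μ u tl tp (9 * w) hg.sol (by linarith) (fun t h => by
    obtain ⟨f1, f2, -, f4⟩ := hg.far t h
    have f5 := hg.anti hl h h.1
    have f6 : (η + (u t).2.2) ^ 2 ≤ (9 * w) ^ 2 := pow_le_pow_left₀ (by linarith) (by linarith) 2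
    exact ⟨f1, by rw [abs_of_nonneg f2]; linarith, by linarith [sq_nonneg (9 * w)]⟩)
    tp ⟨t2, le_rfl⟩ tl hl
  have d2 : ‖bb u tl - bb u tp‖ ≤ 9 ^ 6 * C1 * μ * (A + w ^ 6) := by
    have : (9 * w) ^ 3 * ‖(u tp).1‖ ≤ 9 ^ 3 * 1 * A := by
      rw [mul_pow]; gcongr; exact hA tp ⟨t2, le_rfl⟩
    refine (d1.trans (mul_le_mul_of_nonneg_left (?_ : _ ≤ 9 ^ 6 * (A + w ^ 6))
      (by positivity))).trans (le_of_eq (by ring))
    linarith
  have d3 : ‖(c : ℂ) * I * (ex (-tl) * (μ * gg (u tl) : ℝ))‖ ≤ 10 ^ 4 * (μ * w ^ 6 * |c|) := by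
    have f1 : WW (u tl) ≤ (9 * w) ^ 2 / 8 := (hg.far tl hl).2.2.2.trans (by
      have := (hg.G hl).1
      gcongr)
    have f2 : WW (u tl) ^ 3 ≤ ((9 * w) ^ 2 / 8) ^ 3 := pow_le_pow_left₀ ad.W.le f1 3
    have f3 : gg (u tl) ≤ 10 ^ 4 * w ^ 6 := by linarith [ad.g.2, pow_pos w0 6]
    simp only [norm_mul, norm_real, norm_I, norm_ex, Real.norm_eq_abs, mul_one, one_mul,
      abs_of_pos m0, abs_of_pos ad.g.1]
    exact (mul_le_mul_of_nonneg_left (mul_le_mul_of_nonneg_left f3 m0.le) (abs_nonneg c)).trans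
      (le_of_eq (by ring))
  have d4 : ‖(c : ℂ) * I * bb u tl‖ ≤ A * |c| := by
    simp only [norm_mul, norm_real, norm_I, norm_bb, Real.norm_eq_abs, mul_one, mul_comm A]
    exact mul_le_mul_of_nonneg_left (hA tl hl) (abs_nonneg c)
  have d5 : C2 * μ * (η + (u 0).2.2) * nn μ (u 0) (sy μ u x 0 0) ≤
      C2 * μ * 5.01 * nn μ (u 0) (sy μ u x 0 0) := by
    gcongr
    linarith [hu.η1, (abs_le.1 a0.v).2]
  replace b1 := b1.trans d5
  have P0 : 0 ≤ P := by rw [hP]; positivity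
  have R0 : 0 ≤ RR A η w := le_trans (by positivity) s6
  have D0 := norm_nonneg (x tp).1
  have h0 := abs_nonneg (dh μ (u 0) (x 0))
  have N0 : 0 ≤ N := by linarith
  have tt0 := A0.trans s2
  have e1 : (1 + A / η ^ 3) * ‖(x tp).1‖ ≤ RR A η w * N := mul_le_mul s7 (by linarith) D0 R0
  have e2 : 1 / w ^ 5 * |dh μ (u 0) (x 0)| ≤ RR A η w * N := mul_le_mul s6 (by linarith) h0 R0
  have S0 : 0 ≤ P + RR A η w * N := by positivity
  have c3 : ‖bb x tl - bb x tp‖ ≤ C3 * μ * (9 ^ 3 * ‖(x tp).1‖ + 9 ^ 6 * w ^ 6 * (P + RR A η w * N)) :=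
    c1.trans (by
      simp only [mul_pow]
      gcongr
      exact mul_le_of_le_one_right (by norm_num) p3)
  have c4 : _ ≤ C3 * (RR A η w * N + 9 ^ 6 * tt μ A w * (P + RR A η w * N)) := c2.trans (by
    gcongr
    linarith [mul_nonneg A0 w0.le])
  have hN' : nn μ (u 0) (sy μ u x 0 0) ≤ 4 * N + 2 * 9 ^ 6 * C3 * (μ * w ^ 6) * (P + RR A η w * N) +
      2 * 10 ^ 4 * ((A + μ * w ^ 6) * |c|) := by
    have f1 := norm_le_norm_add_norm_sub' (sy μ u x 0 0).1 (bb (sy μ u x 0) tl)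
    rw [norm_sub_rev] at f1
    have f2 := (congrArg norm eb).le.trans ((norm_sub_le _ _).trans
      (add_le_add (norm_add_le _ _) le_rfl))
    have f3 := norm_le_norm_add_norm_sub' (bb x tl) (bb x tp)
    rw [norm_bb x tp] at f3
    have f4 := mul_le_mul_of_nonneg_right (sm l2 m0.le hμ) n0
    have f5 := mul_le_mul_of_nonneg_right (sm l3 m0.le hμ) D0
    have f6 := mul_nonneg A0 (abs_nonneg c)
    linarith
  constructor
  · refine HALF_fin (c := |c|) (by linarith) (sm le_rfl tt0 ht) tt0 P0 (mul_nonneg R0 N0)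
      (abs_nonneg c) (HALF_E k2 k3 l0 tt0 R0 N0 S0 (abs_nonneg c) L0 s3 s4 s5 hN'
        (b2.trans (by gcongr)) c4 ?_) ?_
    · have f1 : |8 * (1 + μ) * (1 - rr (u tl) ^ 2) * c| ≤ 9 * (3 * tt μ A w) * |c| := by
        rw [abs_mul, abs_mul, abs_of_pos (show 0 < 8 * (1 + μ) by positivity)]
        gcongr
        · linarith
        · linarith [HALF_r ad (hA tl hl)]
      have f2 := abs_add_three (8 * (1 + μ) * (1 - rr (u tl) ^ 2) * c) (-Qv (u tl) (sy μ u x 0 tl))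
        (Qv (u tl) (x tl) - Qv (u tp) (x tp) - J * Ev μ (u tp) (x tp))
      rw [abs_neg] at f2
      refine le_trans (le_of_eq ?_) (f2.trans (by linarith))
      rw [eQ]; congr 1; ring
    · have f1 : |J * Ev μ (u tp) (x tp)| ≤ 10 ^ 4 * (|Ev μ (u tp) (x tp)| / η ^ 5) := by
        rw [abs_mul, abs_of_nonneg (le_trans (by positivity) J1)]
        exact (mul_le_mul_of_nonneg_right J2 (abs_nonneg _)).trans (le_of_eq (by ring))
      have f2 := abs_add_three (8 * (1 + μ) * c - Qv (u tp) (x tp) - J * Ev μ (u tp) (x tp))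
        (Qv (u tp) (x tp)) (J * Ev μ (u tp) (x tp))
      rw [show _ + _ + J * Ev μ (u tp) (x tp) = 8 * (1 + μ) * c by ring, abs_mul,
        abs_of_pos (show 0 < 8 * (1 + μ) by positivity)] at f2
      linarith [mul_nonneg m0.le (abs_nonneg c), abs_nonneg (Qv (u tp) (x tp))]
  · have f0 : μ * w ^ 6 ≤ w ^ 6 := mul_le_of_le_one_left (by positivity) (by linarith)
    have f1 := mul_le_mul_of_nonneg_right f0 (mul_nonneg (zero_le_one.trans k3) S0)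
    have f2 := mul_le_mul_of_nonneg_right f0 (abs_nonneg c)
    refine HALF_two (N' := nn μ (u 0) (sy μ u x 0 0)) l1 k2 k3 l0 m0.le N0 (by positivity)
      (by positivity) (by linarith) ?_
    have f3 : (sy μ u x 0 0).1 - bb x tp - c * I * bb u tp =
        -(bb (sy μ u x 0) tl - (sy μ u x 0 0).1) + (bb x tl - bb x tp) +
          (c * I * (bb u tl - bb u tp) - c * I * (ex (-tl) * (μ * gg (u tl) : ℝ))) := by
      rw [eb]; ring
    have f4 : ‖(c : ℂ) * I * (bb u tl - bb u tp)‖ ≤ |c| * (9 ^ 6 * C1 * μ * (A + w ^ 6)) := by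
      simp only [norm_mul, norm_real, norm_I, Real.norm_eq_abs, mul_one]
      exact mul_le_mul_of_nonneg_left d2 (abs_nonneg c)
    have f5 := (congrArg norm f3).le.trans (norm_add₃_le.trans (add_le_add le_rfl (norm_sub_le _ _)))
    rw [norm_neg] at f5
    have f6 := mul_nonneg (mul_nonneg (zero_le_one.trans k3) m0.le) D0
    have f7 := mul_nonneg (mul_nonneg (zero_le_one.trans k3) m0.le) h0
    have f8 := mul_nonneg m0.le (mul_nonneg A0 (abs_nonneg c))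
    rw [hN] at *
    linarith

end Pool.Agent.P.MP_9ae58c_an.B

end
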