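import Pool.Agent.P.MP_9ae58c_an.B.IfA

section

/-! Step EXC. -/

namespace Pool.Agent.P.MP_9ae58c_an.B

open Set Filter Topology Complex

theorem EXC_alg {θ Z E Q e c J₁ J₂ k M : ℝ} (hθ : 0 ≤ θ) (hθ' : 40004 * θ ≤ 1) (hZ : 0 ≤ Z)
    (hk : 0 < k) (hE : E = |e| * k) (a1 : k ≤ J₁) (a2 : J₁ ≤ 10 ^ 4 * k) (a3 : k ≤ J₂)
    (m1 : 0 ≤ M) (m2 : M ≤ 9 / 8) (h1 : |-Q - J₁ * e| ≤ θ * (|Q| + E) + 2 * Z)
    (h2 : |-(8 * M * c) + Q - J₂ * e| ≤ θ * (|Q| + E) + 2 * Z) :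
    |8 * M * c + (J₁ + J₂) * e| ≤ 40004 * (θ * E) + 6 * Z ∧
      |Q| + E ≤ 200000 * (|c| + Z) := by
  have e0 := abs_nonneg e
  have q0 := abs_nonneg Q
  have c0 := abs_nonneg c
  have E0 : 0 ≤ E := by rw [hE]; positivity
  have b1 : |J₁ * e| ≤ 10 ^ 4 * E := by
    rw [abs_mul, abs_of_pos (by linarith), hE]; nlinarith
  have b2 : |Q| ≤ |J₁ * e| + |-Q - J₁ * e| := by
    have := abs_add_le (J₁ * e) (-Q - J₁ * e)
    rwa [show J₁ * e + (-Q - J₁ * e) = -Q by ring, abs_neg] at this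
  have b3 : θ * (|Q| + E) ≤ (|Q| + E) / 2 := by nlinarith
  have b4 : |Q| + E ≤ 20002 * E + 4 * Z := by linarith
  have b5 : θ * (|Q| + E) ≤ 20002 * (θ * E) + Z := by
    nlinarith [mul_le_mul_of_nonneg_left b4 hθ]
  have b6 : |8 * M * c + (J₁ + J₂) * e| ≤ 40004 * (θ * E) + 6 * Z := by
    have := abs_add_le (-Q - J₁ * e) (-(8 * M * c) + Q - J₂ * e)
    rw [show -Q - J₁ * e + (-(8 * M * c) + Q - J₂ * e) = -(8 * M * c + (J₁ + J₂) * e) by ring,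
      abs_neg] at this
    linarith
  have b7 : 2 * E ≤ |(J₁ + J₂) * e| := by
    rw [abs_mul, abs_of_pos (by linarith), hE]; nlinarith
  have b8 : |(J₁ + J₂) * e| ≤ |8 * M * c + (J₁ + J₂) * e| + |8 * M * c| := by
    simpa using abs_sub (8 * M * c + (J₁ + J₂) * e) (8 * M * c)
  have b9 : |8 * M * c| ≤ 9 * |c| := by
    rw [abs_mul, abs_of_nonneg (by linarith)]; nlinarith
  have b10 : 40004 * (θ * E) ≤ E := by nlinarith
  exact ⟨b6, by linarith⟩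

theorem EXC_one {μ η tp w A B D h : ℝ} {u x : ℝ → St} {z : ℂ} (hp : Adm μ (u tp))
    (hW : WW (u tp) ≤ η ^ 2 / 8) (h0 : 0 < η) (h1 : η ≤ w) (hA : ‖(u tp).1‖ ≤ A)
    (hB : ‖bb x tp - z‖ ≤ μ * B) (hD : ‖(x tp).1‖ ≤ D) (hh : dh μ (u tp) (x tp) = h) :
    |Ev μ (u tp) (x tp) - 2 * (1 + μ) / μ * ip (bb u tp) z + h| ≤ 3 * A * B + w ^ 6 * D := by
  have m := hp.pos
  have m' := hp.le
  have e : Ev μ (u tp) (x tp) - 2 * (1 + μ) / μ * ip (bb u tp) z + h =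
      2 * (1 + μ) / μ * ip (bb u tp) (bb x tp - z) - 2 * (1 + μ) * gg (u tp) * (x tp).1.re := by
    rw [Ev, de_eq, hh, ip_sub, bb, bb, ip_ex]; ring
  have A0 : 0 ≤ A := (norm_nonneg _).trans hA
  have D0 : 0 ≤ D := (norm_nonneg _).trans hD
  have B0 : 0 ≤ B := nonneg_of_mul_nonneg_right ((norm_nonneg _).trans hB) m
  have a1 : |ip (bb u tp) (bb x tp - z)| ≤ A * (μ * B) :=
    (abs_ip_le _ _).trans (by rw [norm_bb]; gcongr)
  have a2 : |2 * (1 + μ) / μ * ip (bb u tp) (bb x tp - z)| ≤ 3 * A * B := by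
    rw [abs_mul, abs_of_pos (by positivity), div_mul_eq_mul_div, div_le_iff₀ m]
    nlinarith [abs_nonneg (ip (bb u tp) (bb x tp - z)), mul_nonneg A0 (mul_nonneg m.le B0)]
  obtain ⟨g0, g1⟩ := hp.g
  have w0 := hp.W
  have a3 : WW (u tp) ^ 3 ≤ (w ^ 2 / 8) ^ 3 := by
    gcongr
    exact hW.trans (by gcongr)
  have a4 : |(x tp).1.re| ≤ D := (abs_re_le_norm _).trans hD
  have a5 : 2 * (1 + μ) * gg (u tp) ≤ w ^ 6 := by
    have : 0 ≤ w ^ 6 := by positivity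
    nlinarith
  have a6 : |2 * (1 + μ) * gg (u tp) * (x tp).1.re| ≤ w ^ 6 * D := by
    rw [abs_mul, abs_of_pos (by positivity)]
    gcongr
  rw [e]
  exact (abs_sub _ _).trans (add_le_add a2 a6)

theorem EXC_rev (μ : ℝ) (u x : ℝ → St) (tp b c : ℝ) :
    ‖(sy μ (rev u b) (rev x b) 0 0).1 - bb (rev x b) (b - tp) -
        ((-c : ℝ) : ℂ) * I * bb (rev u b) (b - tp)‖ =
      ‖bb (sy μ u x b) b - bb x tp - c * I * bb u tp‖ := by
  rw [← rev_sy, bb_rev, bb_rev, sub_sub_cancel, sub_zero, rev, sub_zero, Rv_1, ← ex_mul_bb]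
  rw [← norm_conj, ← one_mul ‖bb (sy μ u x b) b - bb x tp - c * I * bb u tp‖, ← norm_ex b,
    ← norm_mul]
  congr 1
  simp only [map_sub, map_mul, conj_conj, conj_I, conj_ofReal]
  push_cast
  ring

theorem p_EXC (hUPV : S_UPV) (hHALF : S_HALF) (hEXCF : S_EXCF) :
    S_EXC := by
  obtain ⟨C₁, c1, hU⟩ := hUPV
  obtain ⟨C₂, c2, hH⟩ := hHALF
  have k0 : C₂ ≤ C₂ ^ 2 := by nlinarith
  have k1 : C₁ ≤ C₁ * C₂ ^ 2 := by nlinarith
  have k2 : C₂ ^ 2 ≤ C₁ * C₂ ^ 2 := by nlinarith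
  refine ⟨10 ^ 6 * (C₁ * C₂ ^ 2), by nlinarith, ?_⟩
  generalize C₁ * C₂ ^ 2 = K at k1 k2
  intro μ u η tp b w A hμ h hw hw1 hA hA1 hτ
  have η0 := h.pos
  have w0 : 0 < w := by linarith
  have m := h.sol.gl.pos
  have m' := h.sol.gl.le
  have K1 : 1 ≤ K := c1.trans k1
  have k3 : C₂ ≤ K := k0.trans k2
  have w1 : w ≤ 1 := by nlinarith only [hw1, w0, K1]
  obtain ⟨f1, f2, -, f3, -, f4, -⟩ := hEXCF μ u η 0 tp b h
  have i1 : 1 ≤ 1 / w ^ 3 := one_le_one_div (by positivity) (pow_le_one₀ w0.le w1)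
  have i2 : 27 * (1 / w ^ 3) ≤ 1 / η ^ 3 := by
    rw [mul_one_div, div_le_div_iff₀ (by positivity) (by positivity)]
    calc 27 * η ^ 3 = (3 * η) ^ 3 := by ring
      _ ≤ w ^ 3 := by gcongr
      _ = 1 * w ^ 3 := (one_mul _).symm
  have t1 : 1 / w ^ 3 ≤ tp := by linarith
  have t2 : tp ≤ b - 1 / w ^ 3 := by linarith
  have hAt := hA tp ⟨t1, t2⟩
  have A0 : 0 ≤ A := (norm_nonneg _).trans hAt
  have τ0 : 0 ≤ tt μ A w := by unfold tt; positivity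
  have R0 : 0 ≤ RR A η w := by unfold RR; positivity
  have s1 : 6 * C₁ * μ ≤ 1 := by nlinarith only [hμ, m, k1, c1]
  have s1' : C₁ * μ ≤ 1 := by nlinarith only [s1, m, c1]
  have s2 : C₂ * μ ≤ 1 := by nlinarith only [hμ, m, k3, c2]
  have s3 : C₂ * w ≤ 1 := by nlinarith only [hw1, w0, k3, c2]
  have s4 : 40004 * (C₂ * tt μ A w) ≤ 1 := by nlinarith only [hτ, τ0, k3, c2]
  have s5 : C₂ * tt μ A w ≤ 1 := by nlinarith only [s4, τ0, c2]
  obtain ⟨J₁, j1, j2, H1⟩ := hH μ u η tp w A s2 h.up h.v0 η0 hw s3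
    (fun t ht => hA t ⟨ht.1, ht.2.trans t2⟩) hA1 s5
  obtain ⟨J₂, j3, j4, H2⟩ := hH μ (rev u b) η (b - tp) w A s2 h.dn (by simpa [rev] using h.v0) η0 hw
    s3 (fun t ht => by
      simpa [rev] using hA (b - t) ⟨by linarith [ht.2], by linarith [ht.1]⟩) hA1 s5
  refine ⟨J₁ + J₂, by linarith [show 2 / η ^ 5 = 2 * (1 / η ^ 5) by ring],
    by linarith [show 2 * 10 ^ 4 / η ^ 5 = 2 * (10 ^ 4 / η ^ 5) by ring], ?_⟩
  intro x hx hz c e N hc he hN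
  have mtp : tp ∈ Icc 0 b := ⟨by linarith, by linarith⟩
  have m0 : (0 : ℝ) ∈ Icc 0 b := ⟨le_rfl, by linarith⟩
  have mb : b ∈ Icc 0 b := ⟨by linarith, le_rfl⟩
  have d1 := hx.dh_eq h.sol.gl h.sol.reg mtp m0
  have d2 := hx.dh_eq h.sol.gl h.sol.reg mb m0
  have N0 : 0 ≤ N := by rw [hN, nn]; positivity
  have u1 := (hU μ u x η tp s1' h.up hx hz).1 0 tp le_rfl mtp.1 le_rfl
  rw [bb_zero, ← hN] at u1
  have u2 : ‖bb x tp - (x 0).1‖ ≤ μ * (6 * C₁ * N) := by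
    refine u1.trans ?_
    have : η + (u 0).2.2 ≤ 6 := by linarith [h.up.η1, (abs_le.1 (h.sol.adm 0 m0).v).2]
    calc C₁ * μ * (η + (u 0).2.2) * N ≤ C₁ * μ * 6 * N := by gcongr
      _ = _ := by ring
  have u3 : ‖(x tp).1‖ + |dh μ (u 0) (x 0)| ≤ 2 * N := by
    have := norm_le_insert' (bb x tp) (x 0).1
    rw [norm_bb] at this
    have e1 : N = ‖(x 0).1‖ + |dh μ (u 0) (x 0)| := hN
    linarith only [this, e1, u2, mul_le_mul_of_nonneg_right s1 N0]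
  have u4 : ‖(x tp).1‖ ≤ 2 * N := by linarith [abs_nonneg (dh μ (u 0) (x 0))]
  have W1 := ((h.up.gau (s := tp) (by linarith) le_rfl le_rfl).far tp ⟨le_rfl, le_rfl⟩).2.2.2
  rw [h.v0, add_zero] at W1
  have one := EXC_one (h.sol.adm tp mtp) W1 η0 (by linarith : η ≤ w) hAt u2 u4 d1
  have w6 : 0 ≤ w ^ 6 := by positivity
  have AN := mul_nonneg A0 N0
  have wN := mul_nonneg w6 N0
  obtain ⟨q1, -⟩ := H1 x hx 0 _ _ (by simp [cz, hz]) rfl rfl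
  obtain ⟨q2, q3⟩ := H2 (rev x b) (hx.rev b) (-c) (|Qv (u tp) (x tp)| + |e| / η ^ 5)
    (‖(x tp).1‖ + |dh μ (u 0) (x 0)|) (by simp [rev, hc]) (by simp [rev, he]) (by simp [rev, d2])
  rw [EXC_rev, abs_neg] at q3
  simp only [rev, sub_sub_cancel, Qv_Rv, Ev_Rv] at q2
  rw [← he] at q1 q2 one
  have RN := mul_nonneg R0 N0
  have C0 : 0 ≤ C₂ := by linarith only [c2]
  have r1 : RR A η w * (‖(x tp).1‖ + |dh μ (u 0) (x 0)|) ≤ 2 * (RR A η w * N) := by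
    linarith only [mul_le_mul_of_nonneg_left u3 R0]
  have r2 : C₂ * (RR A η w * (‖(x tp).1‖ + |dh μ (u 0) (x 0)|)) ≤ 2 * (C₂ * (RR A η w * N)) := by
    linarith only [mul_le_mul_of_nonneg_left r1 C0]
  obtain ⟨z1, z2⟩ := EXC_alg (θ := C₂ * tt μ A w) (Z := C₂ * (RR A η w * N)) (E := |e| / η ^ 5)
    (Q := Qv (u tp) (x tp)) (e := e) (c := c) (J₁ := J₁) (J₂ := J₂) (k := 1 / η ^ 5) (M := 1 + μ)
    (by positivity) s4 (by positivity) (by positivity) (by ring) j1 (by rwa [mul_one_div]) j3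
    (by linarith only [m]) (by linarith only [m'])
    (by rw [mul_zero, zero_sub] at q1; linarith only [q1, r2])
    (by rw [mul_neg, sub_neg_eq_add] at q2; linarith only [q2, r2])
  have E0 : 0 ≤ |e| / η ^ 5 := by positivity
  refine ⟨one.trans (by nlinarith only [AN, wN, k1, K1]), z1.trans ?_, ?_⟩
  · nlinarith only [mul_nonneg τ0 E0, RN, k3, C0]
  · have c0 := abs_nonneg c
    generalize RR A η w * N = X at *
    generalize RR A η w * (‖(x tp).1‖ + |dh μ (u 0) (x 0)|) = Y at *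
    generalize |Qv (u tp) (x tp)| + |e| / η ^ 5 = P at *
    have y1 : P + Y ≤ 200002 * C₂ * (|c| + X) := by nlinarith only [z2, r1, c0, RN, c2]
    have y2 : w ^ 6 * (P + Y) ≤ (A + w ^ 6) * (200002 * C₂ * (|c| + X)) :=
      (mul_le_mul_of_nonneg_left y1 w6).trans
        (mul_le_mul_of_nonneg_right (by linarith only [A0]) (by positivity))
    have y3 : (A + w ^ 6) * |c| ≤ (A + w ^ 6) * (C₂ * (|c| + X)) := by
      gcongr; nlinarith only [c0, RN, c2]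
    have y0 : 0 ≤ (A + w ^ 6) * (|c| + X) := by positivity
    generalize hS : (A + w ^ 6) * (|c| + X) = S at *
    have y4 : ‖(x tp).1‖ + |dh μ (u 0) (x 0)| + w ^ 6 * (P + Y) + (A + w ^ 6) * |c| ≤
        2 * N + 200003 * C₂ * S := by rw [← hS]; linarith only [u3, y2, y3]
    have y5 := q3.trans (mul_le_mul_of_nonneg_left y4 (by positivity))
    have y6 := norm_add_le (bb (sy μ u x b) b - bb x tp - c * I * bb u tp) (bb x tp - (x 0).1)
    rw [show bb (sy μ u x b) b - bb x tp - c * I * bb u tp + (bb x tp - (x 0).1) =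
      bb (sy μ u x b) b - (x 0).1 - c * I * bb u tp by ring] at y6
    have y7 : C₂ * (2 * N + 200003 * C₂ * S) + 6 * C₁ * N ≤ 10 ^ 6 * K * (N + S) := by
      linarith only [mul_le_mul_of_nonneg_right k1 N0, mul_le_mul_of_nonneg_right k3 N0,
        mul_le_mul_of_nonneg_right k2 y0, mul_le_mul_of_nonneg_right K1 N0,
        mul_le_mul_of_nonneg_right K1 y0, N0, y0]
    linarith only [mul_le_mul_of_nonneg_left y7 m.le, y5, y6, u2]

end Pool.Agent.P.MP_9ae58c_an.B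

end

section

/-! Step ALG. -/

namespace Pool.Agent.P.MP_9ae58c_an.B

open Set Filter Topology Complex

theorem ALG_inv (P : ℂ →ₗ[ℝ] ℂ) {ε : ℝ} (h0 : 0 ≤ ε) (h1 : ε ≤ 1 / 2)
    (hP : ∀ δ, ‖P δ - δ‖ ≤ ε * ‖δ‖) :
    ∃ Q : ℂ →ₗ[ℝ] ℂ, (∀ δ, Q (P δ) = δ) ∧ (∀ γ, ‖Q γ‖ ≤ 2 * ‖γ‖) ∧
      ∀ γ, ‖Q γ - γ‖ ≤ 2 * ε * ‖γ‖ := by
  have hb : ∀ δ, ‖δ‖ ≤ 2 * ‖P δ‖ := by
    intro δ
    have h2 : ‖δ‖ ≤ ‖P δ‖ + ‖P δ - δ‖ := by
      calc ‖δ‖ = ‖P δ - (P δ - δ)‖ := by congr 1; ring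
        _ ≤ _ := norm_sub_le _ _
    have h3 := hP δ
    have h4 : ε * ‖δ‖ ≤ 1 / 2 * ‖δ‖ := mul_le_mul_of_nonneg_right h1 (norm_nonneg _)
    linarith
  have hinj : Function.Injective P := by
    rw [injective_iff_map_eq_zero]
    intro δ h
    have := hb δ
    rw [h, norm_zero, mul_zero] at this
    exact norm_le_zero_iff.1 this
  let e := LinearEquiv.ofInjectiveEndo P hinj
  have he : ∀ γ, P (e.symm γ) = γ := fun γ => e.apply_symm_apply γ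
  have hq : ∀ γ, ‖e.symm γ‖ ≤ 2 * ‖γ‖ := fun γ => by
    have := hb (e.symm γ)
    rwa [he] at this
  refine ⟨e.symm.toLinearMap, fun δ => e.symm_apply_apply δ, hq, fun γ => ?_⟩
  have h2 := hP (e.symm γ)
  rw [he, norm_sub_rev] at h2
  have h3 := mul_le_mul_of_nonneg_left (hq γ) h0
  show ‖e.symm γ - γ‖ ≤ _
  linarith

theorem ALG_rep (L : ℂ →ₗ[ℝ] ℝ) : ∃ mt : ℂ, ∀ γ, L γ = ip mt γ := by
  refine ⟨⟨L 1, L I⟩, fun γ => ?_⟩
  have h : γ = γ.re • (1 : ℂ) + γ.im • I := by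
    apply Complex.ext <;> simp
  conv_lhs => rw [h]
  rw [map_add, map_smul, map_smul]
  simp [ip, mul_comm]

theorem ALG_dec {m : ℂ} (hm : ‖m‖ = 1) (γ : ℂ) :
    γ = ip m γ • m + ip (I * m) γ • (I * m) := by
  have h : m.re * m.re + m.im * m.im = 1 := by
    have := ip_self m
    rw [hm] at this
    simpa [ip] using this
  apply Complex.ext
  · simp [ip]
    linear_combination (-γ.re) * h
  · simp [ip]
    linear_combination (-γ.im) * h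

theorem ALG_add (a b c : ℂ) : ip (a + b) c = ip a c + ip b c := by simp [ip]; ring

theorem ALG_real (a b : ℂ) (c : ℝ) : ip (c * a) b = c * ip a b := by simp [ip]; ring

theorem ALG_perp (m : ℂ) : ip m (I * m) = 0 := by simp [ip]; ring

theorem ALG_close {mt β : ℂ} {k ε : ℝ} {Q : ℂ →ₗ[ℝ] ℂ} {l : ℂ →ₗ[ℝ] ℝ} (h0 : 0 ≤ ε) (hk : 0 < k)
    (hQ1 : ∀ γ, ‖Q γ‖ ≤ 2 * ‖γ‖) (hQ2 : ∀ γ, ‖Q γ - γ‖ ≤ 2 * ε * ‖γ‖)
    (hl : ∀ δ, |l δ + k * ip β δ| ≤ ε * k * ‖β‖ * ‖δ‖) (hmt : ∀ γ, l (Q γ) = ip mt γ) :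
    ‖mt + k * β‖ ≤ 4 * ε * k * ‖β‖ := by
  set γ := mt + k * β with hγ
  have hb := norm_nonneg β
  have hc : 0 ≤ ε * k * ‖β‖ := by positivity
  have h1 : ‖γ‖ ^ 2 = (l (Q γ) + k * ip β (Q γ)) - k * ip β (Q γ - γ) := by
    rw [← ip_self, hmt, ip_sub]
    conv_lhs => rw [hγ, ALG_add, ALG_real, ← hγ]
    ring
  have h2 : l (Q γ) + k * ip β (Q γ) ≤ ε * k * ‖β‖ * (2 * ‖γ‖) :=
    (le_abs_self _).trans ((hl _).trans (mul_le_mul_of_nonneg_left (hQ1 γ) hc))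
  have h3 : -ip β (Q γ - γ) ≤ ‖β‖ * (2 * ε * ‖γ‖) :=
    (neg_le_abs _).trans ((abs_ip_le _ _).trans (mul_le_mul_of_nonneg_left (hQ2 γ) hb))
  have h4 := mul_le_mul_of_nonneg_left h3 hk.le
  have h5 : ‖γ‖ * ‖γ‖ ≤ (4 * ε * k * ‖β‖) * ‖γ‖ := by nlinarith
  rcases (norm_nonneg γ).eq_or_lt with h | h
  · rw [← h]; positivity
  · exact le_of_mul_le_mul_right h5 h

theorem p_ALG :
    S_ALG := by
  intro P F l ω β k ε hω h0 h1 hk hkb hP hl hF
  obtain ⟨Q, hQ0, hQ1, hQ2⟩ := ALG_inv P h0 (by linarith) hP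
  obtain ⟨mt, hmt⟩ := ALG_rep (l ∘ₗ Q)
  have hmt : ∀ γ, l (Q γ) = ip mt γ := hmt
  have hc := ALG_close h0 hk hQ1 hQ2 hl hmt
  have hb : 0 < ‖β‖ := by
    rcases (norm_nonneg β).eq_or_lt with h | h
    · rw [← h] at hkb; norm_num at hkb
    · exact h
  set b := ‖β‖ with hbd
  have hkb0 : 0 < k * b := mul_pos hk hb
  have hnk : ‖(k : ℂ) * β‖ = k * b := by
    rw [norm_mul, Complex.norm_real, Real.norm_eq_abs, abs_of_pos hk]
  have hκ : |‖mt‖ - k * b| ≤ 4 * ε * k * b := by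
    have := abs_norm_sub_norm_le mt (-(k * β))
    rw [norm_neg, hnk, sub_neg_eq_add] at this
    exact this.trans hc
  set κ := ‖mt‖ with hκd
  have hε : 4 * ε * k * b ≤ k * b / 2 := by
    have : ε * (k * b) ≤ 1 / 10 ^ 6 * (k * b) := mul_le_mul_of_nonneg_right h1 hkb0.le
    nlinarith
  obtain ⟨hκ1, hκ2⟩ := abs_le.1 hκ
  have hκ3 : k * b / 2 ≤ κ := by linarith
  have hκ4 : κ ≤ 2 * (k * b) := by linarith
  have hκ0 : 0 < κ := by linarith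
  have hK1 : k * b ^ 2 / 2 ≤ κ * b := by nlinarith
  have hK0 : 10 ^ 4 ≤ κ * b := by linarith
  have hKp : 0 < κ * b := mul_pos hκ0 hb
  obtain ⟨m, hm⟩ : ∃ m : ℂ, mt = κ * m :=
    ⟨mt / κ, by rw [mul_div_cancel₀]; exact_mod_cast hκ0.ne'⟩
  have hm1 : ‖m‖ = 1 := by
    have : κ = κ * ‖m‖ := by
      conv_lhs => rw [hκd, hm, norm_mul, Complex.norm_real, Real.norm_eq_abs, abs_of_pos hκ0]
    exact (mul_eq_left₀ hκ0.ne').1 this.symm
  obtain ⟨n, hn⟩ : ∃ n : ℂ, ((κ * b : ℝ) : ℂ) * n = F (Q m) - ω * m :=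
    ⟨(F (Q m) - ω * m) / ((κ * b : ℝ) : ℂ), by
      rw [mul_div_cancel₀]; exact_mod_cast hKp.ne'⟩
  have hIm : ‖I * m‖ = 1 := by rw [norm_mul, Complex.norm_I, hm1, one_mul]
  refine ⟨κ * b, m, n, ⟨hm1, hω, ?_, hK0⟩, by nlinarith, fun δ => ?_⟩
  · have l1 : l (Q m) = κ := by rw [hmt, hm, ALG_real, ip_self, hm1]; ring
    have e1 := hF (Q m)
    rw [l1, abs_of_pos hκ0] at e1
    have e2 := hQ1 m
    have e3 := hQ2 m
    rw [hm1] at e2 e3
    have e4 : ‖ω * (Q m - m)‖ ≤ 2 * ε * 1 := by rw [norm_mul, hω, one_mul]; exact e3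
    have e5 : ‖ω * I * ((b : ℂ) * (mt + k * β) + ((κ - k * b : ℝ) : ℂ) * β)‖ ≤
        b * (4 * ε * k * b) + (4 * ε * k * b) * b := by
      rw [norm_mul, norm_mul, hω, Complex.norm_I, one_mul, one_mul]
      refine (norm_add_le _ _).trans (add_le_add ?_ ?_)
      · rw [norm_mul, Complex.norm_real, Real.norm_eq_abs, abs_of_pos hb]
        exact mul_le_mul_of_nonneg_left hc hb.le
      · rw [norm_mul, Complex.norm_real, Real.norm_eq_abs]
        exact mul_le_mul_of_nonneg_right hκ hb.le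
    have e6 : ((κ * b : ℝ) : ℂ) * (n + I * ω * m) =
        (F (Q m) - ω * (Q m + κ * I * β)) + ω * (Q m - m) +
          ω * I * ((b : ℂ) * (mt + k * β) + ((κ - k * b : ℝ) : ℂ) * β) := by
      rw [mul_add, hn, hm]
      push_cast
      ring
    have e7 : κ * b * ‖n + I * ω * m‖ ≤
        ε * (‖Q m‖ + b * κ) + 2 * ε * 1 + (b * (4 * ε * k * b) + (4 * ε * k * b) * b) := by
      have := congrArg norm e6
      rw [norm_mul, Complex.norm_real, Real.norm_eq_abs, abs_of_pos hKp] at this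
      rw [this]
      exact norm_add₃_le.trans (add_le_add (add_le_add e1 e4) e5)
    have e8 : ε * ‖Q m‖ ≤ ε * (2 * 1) := mul_le_mul_of_nonneg_left e2 h0
    have e9 : ε * (k * b ^ 2 / 2) ≤ ε * (κ * b) := mul_le_mul_of_nonneg_left hK1 h0
    have e10 : ε * 10 ^ 4 ≤ ε * (κ * b) := mul_le_mul_of_nonneg_left hK0 h0
    have e11 : ε * (κ * b) ≤ 1 / 10 ^ 6 * (κ * b) := mul_le_mul_of_nonneg_right h1 hKp.le
    have e12 : κ * b * ‖n + I * ω * m‖ ≤ κ * b * (1 / 10 ^ 4) := by nlinarith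
    exact le_of_mul_le_mul_left e12 hKp
  · have l1 : l (Q (I * m)) = 0 := by rw [hmt, hm, ALG_real, ALG_perp, mul_zero]
    have e1 := hF (Q (I * m))
    rw [l1] at e1
    simp only [Complex.ofReal_zero, zero_mul, add_zero, abs_zero, mul_zero] at e1
    have e2 := hQ1 (I * m)
    have e3 := hQ2 (I * m)
    rw [hIm] at e2 e3
    have e4 : ‖ω * (Q (I * m) - I * m)‖ ≤ 2 * ε * 1 := by rw [norm_mul, hω, one_mul]; exact e3
    have e5 : ‖F (Q (I * m)) - ω * (I * m)‖ ≤ 4 * ε := by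
      have : F (Q (I * m)) - ω * (I * m) =
          (F (Q (I * m)) - ω * Q (I * m)) + ω * (Q (I * m) - I * m) := by ring
      rw [this]
      have e8 : ε * ‖Q (I * m)‖ ≤ ε * (2 * 1) := mul_le_mul_of_nonneg_left e2 h0
      exact (norm_add_le _ _).trans (by linarith)
    set γ := P δ with hγ
    have e6 : F δ = ip m γ • F (Q m) + ip (I * m) γ • F (Q (I * m)) := by
      conv_lhs => rw [← hQ0 δ, ← hγ, ALG_dec hm1 γ]
      rw [map_add, map_add, map_smul, map_smul, map_smul, map_smul]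
    have e7 : F δ - shr (κ * b) m ω n γ =
        (ip (I * m) γ : ℝ) * (F (Q (I * m)) - ω * (I * m)) := by
      have e8 := ALG_dec hm1 γ
      simp only [Complex.real_smul] at e6 e8
      rw [e6, shr]
      push_cast at hn ⊢
      linear_combination (-(ip m γ : ℂ)) * hn - ω * e8
    rw [e7, norm_mul, Complex.norm_real, Real.norm_eq_abs]
    have e9 := abs_ip_le (I * m) γ
    rw [hIm, one_mul] at e9
    have hg := norm_nonneg γ
    calc _ ≤ ‖γ‖ * (4 * ε) := mul_le_mul e9 e5 (norm_nonneg _) hg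
      _ ≤ ‖γ‖ * (1 / (2 * 10 ^ 4)) := mul_le_mul_of_nonneg_left (by linarith) hg
      _ = _ := by ring

end Pool.Agent.P.MP_9ae58c_an.B

end
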