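import Pool.Agent.P.MP_9ae58c_an.B.IfA

section

/-! Step TP. -/

namespace Pool.Agent.P.MP_9ae58c_an.B

open Set Filter Topology Complex

/-- the cube root gauge -/
theorem TP_gauge : ∃ j : ℝ → ℝ, ∀ t, 0 ≤ t →
    1 ≤ j t ∧ j t ^ 3 = 1 + t ∧ HasDerivAt j ((j t)⁻¹ ^ 2 / 3) t := by
  refine ⟨fun t => (1 + t) ^ (1 / 3 : ℝ), fun t ht => ?_⟩
  have h0 : (0 : ℝ) < 1 + t := by linarith
  have h1 : 1 ≤ (1 + t) ^ (1 / 3 : ℝ) := Real.one_le_rpow (by linarith) (by norm_num)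
  have h3 : ((1 + t) ^ (1 / 3 : ℝ)) ^ 3 = 1 + t := by
    rw [← Real.rpow_natCast, ← Real.rpow_mul h0.le]
    norm_num
  refine ⟨h1, h3, (((hasDerivAt_id' t).const_add 1).rpow_const (Or.inl h0.ne')).congr_deriv ?_⟩
  rw [Real.rpow_sub_one h0.ne']
  simp only
  generalize (1 + t) ^ (1 / 3 : ℝ) = j at h1 h3
  rw [← h3]
  field_simp

variable {μ i j k S e c : ℝ} {p q : St}

/-- pointwise data of a rising orbit at gauge `i` -/
structure TP_pt (μ k i : ℝ) (p : St) : Prop where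
  adm : Adm μ p
  z : 0 ≤ p.2.1
  v1 : i ≤ p.2.2
  v2 : p.2.2 ≤ 9 * i
  W : WW p ≤ 27 * i ^ 2
  a : ‖p.1‖ ≤ k * μ * i ^ 3

theorem TP_r (hp : Adm μ p) (hq : Adm μ q) (h : ‖p.1 - q.1‖ ≤ S) : |rr p - rr q| ≤ 2 * S := by
  have e : rr p - rr q = -(rr p * rr q * (p.1 - q.1).re) := by
    have h1 := hp.reg.r_mul
    have h2 := hq.reg.r_mul
    rw [sub_re]
    linear_combination rr q * h1 - rr p * h2
  have h1 := (abs_re_le_norm (p.1 - q.1)).trans h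
  obtain ⟨a1, a2⟩ := hp.r
  obtain ⟨b1, b2⟩ := hq.r
  have h2 : 0 ≤ rr p * rr q := by positivity
  have h3 : rr p * rr q ≤ 2 := by nlinarith
  rw [e, abs_neg, abs_mul, abs_of_nonneg h2]
  exact mul_le_mul h3 h1 (abs_nonneg _) (by norm_num)

theorem TP_eps (hp : TP_pt μ k i p) (hq : TP_pt μ k i q) (h : ‖p.1 - q.1‖ ≤ S)
    (hH : |Hh μ p - Hh μ q| ≤ μ * e) : |eps μ p - eps μ q| ≤ 4 * k * S * i ^ 3 + 2 * e := by
  have h0 := hp.adm.pos
  have h1 : |‖p.1‖ - ‖q.1‖| ≤ S := (abs_norm_sub_norm_le _ _).trans h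
  have h2 : |‖p.1‖ ^ 2 - ‖q.1‖ ^ 2| ≤ 2 * (k * μ * i ^ 3) * S := by
    rw [sq_sub_sq, abs_mul, abs_of_nonneg (by positivity)]
    exact mul_le_mul (by linarith [hp.a, hq.a]) h1 (abs_nonneg _)
      (by linarith [hp.a, norm_nonneg p.1])
  have h3 : |‖p.1‖ ^ 2 - ‖q.1‖ ^ 2 - (Hh μ p - Hh μ q)| ≤ μ * (2 * k * S * i ^ 3 + e) :=
    (abs_sub _ _).trans (by linarith)
  have h4 : eps μ p - eps μ q =
      (1 + μ) * ((‖p.1‖ ^ 2 - ‖q.1‖ ^ 2 - (Hh μ p - Hh μ q)) / μ) := by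
    rw [eps_eq h0, eps_eq h0]; ring
  have h5 : |(‖p.1‖ ^ 2 - ‖q.1‖ ^ 2 - (Hh μ p - Hh μ q)) / μ| ≤ 2 * k * S * i ^ 3 + e := by
    rw [abs_div, abs_of_pos h0, div_le_iff₀ h0]; linarith
  rw [h4, abs_mul, abs_of_pos (by linarith)]
  have := mul_le_mul (show 1 + μ ≤ 2 by linarith [hp.adm.le]) h5 (abs_nonneg _) (by norm_num)
  linarith

theorem TP_sq (hp : Adm μ p) (hq : Adm μ q) : WW p ^ 2 - WW q ^ 2 = WW p ^ 2 * WW q ^ 2 *
    ((q.2.1 - p.2.1) * (q.2.1 + p.2.1) + (rr q - rr p) * (rr q + rr p)) := by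
  linear_combination WW q ^ 2 * hp.reg.W_sq - WW p ^ 2 * hq.reg.W_sq

/-- one-sided comparison of the inverse distances -/
theorem TP_W1 (hp : Adm μ p) (hq : Adm μ q) (h0 : 0 ≤ q.2.1) (h1 : q.2.1 ≤ p.2.1) :
    WW p - WW q ≤ 3 * |rr p - rr q| * (WW p * WW q ^ 2) := by
  have a := hp.W
  have b := hq.W
  have h2 : (q.2.1 - p.2.1) * (q.2.1 + p.2.1) ≤ 0 :=
    mul_nonpos_of_nonpos_of_nonneg (by linarith) (by linarith)
  have h3 : (rr q - rr p) * (rr q + rr p) ≤ 3 * |rr p - rr q| := by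
    have := neg_abs_le (rr p - rr q)
    nlinarith [hp.r, hq.r, abs_nonneg (rr p - rr q)]
  have h4 : WW p ^ 2 - WW q ^ 2 ≤ WW p ^ 2 * WW q ^ 2 * (3 * |rr p - rr q|) := by
    rw [TP_sq hp hq]
    exact mul_le_mul_of_nonneg_left (by linarith) (by positivity)
  rcases le_or_gt (WW p) (WW q) with h | h
  · exact (sub_nonpos.2 h).trans (by positivity)
  · refine le_of_mul_le_mul_right ?_ a
    nlinarith [mul_pos (sub_pos.2 h) b]

/-- two-sided comparison of the inverse distances -/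
theorem TP_W2 (hp : Adm μ p) (hq : Adm μ q) :
    |WW p - WW q| ≤ WW p * WW q * (|p.2.1 - q.2.1| + |rr p - rr q|) := by
  have a := hp.W
  have b := hq.W
  have r1 : 0 < rr p := by linarith [hp.r.1]
  have r2 : 0 < rr q := by linarith [hq.r.1]
  have h1 : |q.2.1 + p.2.1| * (WW p * WW q) ≤ WW p + WW q := by
    have := mul_le_mul_of_nonneg_right (abs_add_le q.2.1 p.2.1) (mul_pos a b).le
    nlinarith [mul_le_mul_of_nonneg_right hp.reg.zW b.le, mul_le_mul_of_nonneg_right hq.reg.zW a.le]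
  have h2 : |rr q + rr p| * (WW p * WW q) ≤ WW p + WW q := by
    rw [abs_of_pos (by linarith)]
    nlinarith [mul_le_mul_of_nonneg_right hp.reg.rW b.le, mul_le_mul_of_nonneg_right hq.reg.rW a.le]
  have h3 := abs_add_le ((q.2.1 - p.2.1) * (q.2.1 + p.2.1)) ((rr q - rr p) * (rr q + rr p))
  rw [abs_mul, abs_mul, abs_sub_comm q.2.1, abs_sub_comm (rr q)] at h3
  have h4 : |WW p - WW q| * (WW p + WW q) = WW p ^ 2 * WW q ^ 2 *
      |(q.2.1 - p.2.1) * (q.2.1 + p.2.1) + (rr q - rr p) * (rr q + rr p)| := by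
    rw [← abs_of_pos (add_pos a b), ← abs_mul, ← abs_of_pos (mul_pos (pow_pos a 2) (pow_pos b 2)),
      ← abs_mul, ← TP_sq hp hq]
    congr 1
    ring
  refine le_of_mul_le_mul_right ?_ (add_pos a b)
  rw [h4]
  have h5 := mul_le_mul_of_nonneg_left h1 (abs_nonneg (p.2.1 - q.2.1))
  have h6 := mul_le_mul_of_nonneg_left h2 (abs_nonneg (rr p - rr q))
  calc _ ≤ WW p ^ 2 * WW q ^ 2 * (|p.2.1 - q.2.1| * |q.2.1 + p.2.1| +
        |rr p - rr q| * |rr q + rr p|) := mul_le_mul_of_nonneg_left h3 (by positivity)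
    _ = WW p * WW q * (|p.2.1 - q.2.1| * (|q.2.1 + p.2.1| * (WW p * WW q)) +
        |rr p - rr q| * (|rr q + rr p| * (WW p * WW q))) := by ring
    _ ≤ WW p * WW q * (|p.2.1 - q.2.1| * (WW p + WW q) + |rr p - rr q| * (WW p + WW q)) :=
      mul_le_mul_of_nonneg_left (add_le_add h5 h6) (by positivity)
    _ = _ := by ring

/-- the higher orbit does not rise much faster -/
theorem TP_dD (hp : TP_pt μ k i p) (hq : TP_pt μ k i q) (hk : 0 ≤ k) (hij : i * j = 1)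
    (hi : 0 < i) (hi1 : i ≤ 1) (he : 0 ≤ e) (h : ‖p.1 - q.1‖ ≤ S)
    (hH : |Hh μ p - Hh μ q| ≤ μ * e) (hz : q.2.1 ≤ p.2.1) :
    rr p ^ 2 * p.2.2 - rr q ^ 2 * q.2.2 ≤ (3 * 10 ^ 6 + 4 * k) * (S * i + e * j) := by
  have hS : 0 ≤ S := (norm_nonneg _).trans h
  have hj : 0 < j := pos_of_mul_pos_left (by rw [mul_comm, hij]; norm_num) hi.le
  have hr := TP_r hp.adm hq.adm h
  have h1 := (abs_le.1 (TP_eps hp hq h hH)).1
  have a := hp.adm.W
  have b := hq.adm.W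
  have h2 : WW p - WW q ≤ 3 * (2 * S) * (27 * i ^ 2 * (27 * i ^ 2) ^ 2) :=
    (TP_W1 hp.adm hq.adm hq.z hz).trans (by gcongr; exacts [hp.W, hq.W])
  have h3 : 16 * (1 + μ) * (WW p - WW q) ≤ 17 * (3 * (2 * S) * (27 * i ^ 2 * (27 * i ^ 2) ^ 2)) :=
    (mul_le_mul_of_nonneg_left h2 (by linarith [hp.adm.pos])).trans
      (mul_le_mul_of_nonneg_right (by linarith [hp.adm.le]) (by positivity))
  obtain ⟨Y, hY⟩ : ∃ Y, Y = 2007666 * S * i ^ 6 + 4 * k * S * i ^ 3 + 2 * e := ⟨_, rfl⟩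
  have Y0 : 0 ≤ Y := by rw [hY]; positivity
  have h4 : (p.2.2 - q.2.2) * (p.2.2 + q.2.2) ≤ Y := by
    have := v_sq μ p
    have := v_sq μ q
    nlinarith
  have h5 : p.2.2 - q.2.2 ≤ Y * j / 2 := by
    rcases le_or_gt p.2.2 q.2.2 with h' | h'
    · exact (sub_nonpos.2 h').trans (by positivity)
    · have h6 : (p.2.2 - q.2.2) * (2 * i) ≤ Y :=
        (mul_le_mul_of_nonneg_left (by linarith [hp.v1, hq.v1]) (by linarith)).trans h4
      have h7 := mul_le_mul_of_nonneg_right h6 hj.le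
      have h8 : (p.2.2 - q.2.2) * (2 * i) * j = 2 * (p.2.2 - q.2.2) := by
        linear_combination 2 * (p.2.2 - q.2.2) * hij
      linarith
  have h6 : rr q ^ 2 * (p.2.2 - q.2.2) ≤ Y * j := by
    have h7 : rr q ^ 2 ≤ 2 := by nlinarith [hq.adm.r]
    have h8 := mul_le_mul_of_nonneg_left h5 (sq_nonneg (rr q))
    have h9 := mul_le_mul_of_nonneg_right h7 (show 0 ≤ Y * j / 2 by positivity)
    linarith
  have h7 : (rr p ^ 2 - rr q ^ 2) * p.2.2 ≤ 6 * S * (9 * i) := by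
    have h8 : rr p ^ 2 - rr q ^ 2 ≤ 6 * S := by
      have := le_abs_self (rr p - rr q)
      nlinarith [hp.adm.r, hq.adm.r]
    exact (mul_le_mul_of_nonneg_right h8 (by linarith [hp.v1])).trans
      (mul_le_mul_of_nonneg_left hp.v2 (by positivity))
  have h8 : Y * j = 2007666 * (S * i) * i ^ 4 + 4 * k * (S * i) * i + 2 * (e * j) := by
    rw [hY]
    linear_combination (2007666 * S * i ^ 5 + 4 * k * S * i ^ 2) * hij
  have h9 : 2007666 * (S * i) * i ^ 4 ≤ 2007666 * (S * i) :=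
    mul_le_of_le_one_right (by positivity) (pow_le_one₀ hi.le hi1)
  have h10 : 4 * k * (S * i) * i ≤ 4 * k * (S * i) := mul_le_of_le_one_right (by positivity) hi1
  have h11 : 0 ≤ S * i := by positivity
  have h12 : 0 ≤ e * j := by positivity
  have h13 : 0 ≤ k * (e * j) := by positivity
  nlinarith

/-- comparison of the forcing terms -/
theorem TP_dg (hp : TP_pt μ k i p) (hq : TP_pt μ k i q) (hc : 1 ≤ c) (hij : i * j = 1)
    (hi : 0 < i) (hi1 : i ≤ 1) (he : 0 ≤ e) (h : ‖p.1 - q.1‖ ≤ S)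
    (hz : |p.2.1 - q.2.1| ≤ 2 * c * (S * j ^ 2 + e * j ^ 4)) :
    |gg p - gg q| ≤ 2 * 10 ^ 8 * c * (S + e) * i ^ 4 := by
  have hS : 0 ≤ S := (norm_nonneg _).trans h
  have hr := TP_r hp.adm hq.adm h
  have a := hp.adm.W
  have b := hq.adm.W
  have a' := hp.W
  have b' := hq.W
  obtain ⟨r1, r2⟩ := hp.adm.r
  obtain ⟨s1, s2⟩ := hq.adm.r
  have i2 : i ^ 2 ≤ 1 := pow_le_one₀ hi.le hi1
  have i4 : i ^ 4 ≤ 1 := pow_le_one₀ hi.le hi1
  have h1 : |WW p - WW q| ≤ 2916 * (c * (S + e)) := by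
    calc _ ≤ 27 * i ^ 2 * (27 * i ^ 2) * (2 * c * (S * j ^ 2 + e * j ^ 4) + 2 * S) :=
          (TP_W2 hp.adm hq.adm).trans (by gcongr)
      _ = 729 * (2 * c * (S * i ^ 2 * (i * j) ^ 2 + e * (i * j) ^ 4) + 2 * (S * i ^ 4)) := by ring
      _ ≤ 729 * (2 * c * (S * 1 * 1 ^ 2 + e * 1 ^ 4) + 2 * (S * 1)) := by
          rw [hij]; gcongr
      _ ≤ _ := by nlinarith [mul_nonneg (sub_nonneg.2 hc) hS, mul_nonneg (sub_nonneg.2 hc) he]
  have h2 : |WW p ^ 3 - WW q ^ 3| ≤ 2916 * (c * (S + e)) * (2187 * i ^ 4) := by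
    rw [show WW p ^ 3 - WW q ^ 3 = (WW p - WW q) * (WW p ^ 2 + WW p * WW q + WW q ^ 2) by ring,
      abs_mul, abs_of_pos (a := _ + _ + _) (by positivity)]
    refine mul_le_mul h1 ?_ (by positivity) (by positivity)
    calc _ ≤ (27 * i ^ 2) ^ 2 + 27 * i ^ 2 * (27 * i ^ 2) + (27 * i ^ 2) ^ 2 := by gcongr
      _ = _ := by ring
  have h3 : |rr p ^ 3 - rr q ^ 3| ≤ 2 * S * 4 := by
    rw [show rr p ^ 3 - rr q ^ 3 = (rr p - rr q) * (rr p ^ 2 + rr p * rr q + rr q ^ 2) by ring,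
      abs_mul, abs_of_pos (a := _ + _ + _) (by positivity)]
    exact mul_le_mul hr (by nlinarith) (by positivity) (by positivity)
  have h4 : rr q ^ 3 ≤ 2 := (pow_le_pow_left₀ (by linarith) s2 3).trans (by norm_num)
  have h5 : gg p - gg q = 8 * ((rr p ^ 3 - rr q ^ 3) * WW p ^ 3 +
      rr q ^ 3 * (WW p ^ 3 - WW q ^ 3)) := by unfold gg; ring
  have h6 : S * i ^ 2 ≤ c * (S + e) := by
    nlinarith [mul_nonneg (sub_nonneg.2 hc) hS, mul_nonneg (sub_nonneg.2 hc) he,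
      mul_le_of_le_one_right hS i2]
  have h7 := mul_le_mul_of_nonneg_right h6 (pow_pos hi 4).le
  have h8 : 0 ≤ c * (S + e) * i ^ 4 := by positivity
  rw [h5, abs_mul, abs_of_pos (show (0 : ℝ) < 8 by norm_num)]
  calc _ ≤ 8 * (|rr p ^ 3 - rr q ^ 3| * WW p ^ 3 + rr q ^ 3 * |WW p ^ 3 - WW q ^ 3|) := by
        refine mul_le_mul_of_nonneg_left ((abs_add_le _ _).trans_eq ?_) (by norm_num)
        rw [abs_mul, abs_mul, abs_of_pos (pow_pos a 3), abs_of_pos (a := rr q ^ 3) (by positivity)]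
    _ ≤ 8 * (2 * S * 4 * (27 * i ^ 2) ^ 3 + 2 * (2916 * (c * (S + e)) * (2187 * i ^ 4))) := by
        gcongr
    _ ≤ _ := by nlinarith

theorem TP_of (hUPT : S_UPT) {u : ℝ → St} {b t K : ℝ} (hu : Up μ u 0 0 b) (ht : t ∈ Icc 0 b)
    (hj : 1 ≤ j) (h3 : j ^ 3 = 1 + t) (ha : ‖(u t).1‖ ≤ K * μ / (1 + t)) :
    TP_pt μ |K| j⁻¹ (u t) := by
  obtain ⟨h1, h2, -, h4, h5, -⟩ := hUPT μ u 0 0 b hu t ht
  simp only [sub_zero, zero_add, ← h3, ← mul_pow] at h1 h2 h4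
  have j0 : 0 < j := by linarith
  have o : Odd 3 := by decide
  have h6 : 1 ≤ j * (u t).2.2 := o.pow_le_pow.1 (by rwa [one_pow])
  have h7 : j * (u t).2.2 ≤ 9 := o.pow_le_pow.1 (h2.trans (by norm_num))
  have h8 : j⁻¹ ≤ (u t).2.2 := by rwa [inv_le_iff_one_le_mul₀' j0]
  have h9 : (u t).2.2 ≤ 9 * j⁻¹ := by rwa [le_mul_inv_iff₀ j0, mul_comm]
  have h10 : (u t).2.2 ^ 2 ≤ (9 * j⁻¹) ^ 2 :=
    pow_le_pow_left₀ ((inv_pos.2 j0).le.trans h8) h9 2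
  refine ⟨hu.sol.adm t ht, le_trans (le_min zero_le_one (by linarith [ht.1])) h5, h8, h9,
    by linarith, ha.trans ?_⟩
  rw [← h3, div_eq_mul_inv, inv_pow]
  have := hu.sol.gl.pos
  gcongr
  exact le_abs_self K

theorem p_TP (hUPT : S_UPT) :
    S_TP := by
  intro K
  obtain ⟨c, hc⟩ : ∃ c, c = 3 * 10 ^ 6 + 4 * |K| := ⟨_, rfl⟩
  have c1 : 1 ≤ c := by rw [hc]; linarith [abs_nonneg K]
  refine ⟨6 * 10 ^ 8 * c, by linarith, fun μ u w b S E hu hw h hE t t' h0 h1 h2 => ?_⟩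
  obtain ⟨j, hj⟩ := TP_gauge
  have μ0 := hu.sol.gl.pos
  obtain ⟨e, rfl⟩ : ∃ e, E = μ * e := ⟨E / μ, by field_simp⟩
  have he : 0 ≤ e := nonneg_of_mul_nonneg_right ((abs_nonneg _).trans hE) μ0
  have b0 : (0 : ℝ) ∈ Icc 0 b := ⟨le_rfl, h0.trans (h1.trans h2)⟩
  have hS : 0 ≤ S := (norm_nonneg _).trans (h 0 b0).2.2
  have pu : ∀ s ∈ Icc 0 b, TP_pt μ |K| (j s)⁻¹ (u s) := fun s hs =>
    TP_of hUPT hu hs (hj s hs.1).1 (hj s hs.1).2.1 (h s hs).1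
  have pw : ∀ s ∈ Icc 0 b, TP_pt μ |K| (j s)⁻¹ (w s) := fun s hs =>
    TP_of hUPT hw hs (hj s hs.1).1 (hj s hs.1).2.1 (h s hs).2.1
  have j0 : ∀ s, 0 ≤ s → 0 < j s := fun s hs => by linarith [(hj s hs).1]
  have ij : ∀ s, 0 ≤ s → (j s)⁻¹ * j s = 1 := fun s hs => inv_mul_cancel₀ (j0 s hs).ne'
  have i0 : ∀ s, 0 ≤ s → 0 < (j s)⁻¹ := fun s hs => inv_pos.2 (j0 s hs)
  have i1 : ∀ s, 0 ≤ s → (j s)⁻¹ ≤ 1 := fun s hs => inv_le_one_of_one_le₀ (hj s hs).1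
  have hH : ∀ s ∈ Icc 0 b, |Hh μ (u s) - Hh μ (w s)| ≤ μ * e := fun s hs => by
    rwa [hu.sol.gl.Hh_eq hu.sol.reg hs b0, hw.sol.gl.Hh_eq hw.sol.reg hs b0]
  have hD := abs_le_of_diss (a := 0) (b := b) (K := fun s => (u s).2.1 - (w s).2.1)
    (K' := fun s => rr (u s) ^ 2 * (u s).2.2 - rr (w s) ^ 2 * (w s).2.2)
    (Φ := fun s => c * (3 / 2 * S * j s ^ 2 + 3 / 4 * e * j s ^ 4))
    (Φ' := fun s => c * (S * (j s)⁻¹ + e * j s))
    (fun s hs => (d2 (hu.sol.der hs)).fun_sub (d2 (hw.sol.der hs)))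
    (fun s hs => (((((hj s hs.1).2.2.fun_pow 2).const_mul _).fun_add
      (((hj s hs.1).2.2.fun_pow 4).const_mul _)).const_mul c).congr_deriv (by
        have := (j0 s hs.1).ne'
        field_simp
        ring))
    (fun s hs => by have := j0 s hs.1; positivity)
    (fun s hs => ⟨fun hz => hc ▸ TP_dD (pu s hs) (pw s hs) (abs_nonneg K) (ij s hs.1) (i0 s hs.1)
        (i1 s hs.1) he (h s hs).2.2 (hH s hs) (by linarith), fun hz => by
      have := TP_dD (pw s hs) (pu s hs) (abs_nonneg K) (ij s hs.1) (i0 s hs.1)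
        (i1 s hs.1) he (norm_sub_rev (u s).1 _ ▸ (h s hs).2.2)
        (abs_sub_comm (Hh μ (u s)) _ ▸ hH s hs) (by linarith)
      rw [← hc] at this
      linarith⟩)
  have hz : ∀ s ∈ Icc 0 b, |(u s).2.1 - (w s).2.1| ≤ 2 * c * (S * j s ^ 2 + e * j s ^ 4) := by
    intro s hs
    have h3 := hD s hs
    simp only [hu.z0, hw.z0, sub_zero, abs_zero, zero_add] at h3
    have h4 : 0 ≤ c * (3 / 2 * S * j 0 ^ 2 + 3 / 4 * e * j 0 ^ 4) := by positivity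
    have h5 : 0 ≤ c * (S * j s ^ 2) := by positivity
    have h6 : 0 ≤ c * (e * j s ^ 4) := by positivity
    linarith
  have sub : Icc t t' ⊆ Icc 0 b := Icc_subset_Icc h0 h2
  obtain ⟨A, hA⟩ : ∃ A, A = 2 * 10 ^ 8 * c * (μ * S + μ * e) := ⟨_, rfl⟩
  have A0 : 0 ≤ A := by rw [hA]; positivity
  have key := norm_sub_le_of (a := t) (b := t') (f := fun s => bb u s - bb w s)
    (Φ := fun s => -(3 * A * (j s)⁻¹)) (Φ' := fun s => A * (j s)⁻¹ ^ 4)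
    (fun s hs => (hu.sol.gl.dbb (hu.sol.reg s (sub hs))).fun_sub
      (hw.sol.gl.dbb (hw.sol.reg s (sub hs))))
    (fun s hs => ((((hj s (sub hs).1).2.2.fun_inv (j0 s (sub hs).1).ne').const_mul
      _).fun_neg).congr_deriv (by
        have := (j0 s (sub hs).1).ne'
        field_simp))
    (fun s hs => by
      have s0 := (sub hs).1
      have h3 := TP_dg (pu s (sub hs)) (pw s (sub hs)) c1 (ij s s0) (i0 s s0) (i1 s s0) he
        (h s (sub hs)).2.2 (hz s (sub hs))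
      have h4 : -(I * ex (-s) * (μ * gg (u s) : ℝ)) - -(I * ex (-s) * (μ * gg (w s) : ℝ)) =
          -(I * ex (-s) * (μ * (gg (u s) - gg (w s)) : ℝ)) := by push_cast; ring
      rw [h4, norm_neg, norm_mul, norm_mul, norm_I, norm_ex, norm_real, Real.norm_eq_abs, abs_mul,
        abs_of_pos μ0, hA]
      have := mul_le_mul_of_nonneg_left h3 μ0.le
      linarith) t' ⟨h1, le_rfl⟩
  have h3 := mul_le_mul_of_nonneg_left (pu t (sub ⟨le_rfl, h1⟩)).v1 A0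
  have h4 := mul_nonneg A0 (i0 t' (h0.trans h1)).le
  have h5 : 6 * 10 ^ 8 * c * (μ * S + μ * e) = 3 * A := by rw [hA]; ring
  rw [h5]
  linarith

end Pool.Agent.P.MP_9ae58c_an.B

end

section

/-! Step TP2. -/

namespace Pool.Agent.P.MP_9ae58c_an.B

open Set Filter Topology Complex

theorem TP2_norm (u w : ℝ → St) (t : ℝ) : ‖bb u t - bb w t‖ = ‖(u t).1 - (w t).1‖ := by
  rw [bb, bb, ← mul_sub, norm_mul]; simp

theorem p_TP2 (hTP : S_TP) :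
    S_TP2 := by
  intro K
  obtain ⟨C, C1, h⟩ := hTP K
  refine ⟨18 * C, by linarith, fun μ u w b E hC hu hw hK hE s hs => ?_⟩
  have μ0 := hu.sol.gl.pos
  have E0 : 0 ≤ E := (abs_nonneg _).trans hE
  have hc : Continuous fun t => ‖(u t).1 - (w t).1‖ :=
    (hu.sol.gl.cont.fst.sub hw.sol.gl.cont.fst).norm
  obtain ⟨m, hm, hmax⟩ := (isCompact_Icc (a := (0 : ℝ)) (b := b)).exists_isMaxOn ⟨s, hs⟩
    hc.continuousOn
  obtain ⟨S, hS⟩ : ∃ S, S = ‖(u m).1 - (w m).1‖ := ⟨_, rfl⟩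
  obtain ⟨d, hd⟩ : ∃ d, d = ‖(u s).1 - (w s).1‖ := ⟨_, rfl⟩
  have S0 : 0 ≤ S := hS ▸ norm_nonneg _
  have d0 : 0 ≤ d := hd ▸ norm_nonneg _
  have hle : ∀ t ∈ Icc 0 b, ‖(u t).1 - (w t).1‖ ≤ S := fun t ht => hS ▸ hmax ht
  have H := h μ u w b S E hu hw (fun t ht => ⟨(hK t ht).1, (hK t ht).2, hle t ht⟩) hE
  have P0 : 0 ≤ C * (μ * S + E) := by positivity
  have H9 : ∀ t t', 0 ≤ t → t ≤ t' → t' ≤ b →
      ‖(bb u t' - bb w t') - (bb u t - bb w t)‖ ≤ C * (μ * S + E) * 9 := fun t t' a1 a2 a3 =>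
    (H t t' a1 a2 a3).trans (mul_le_mul_of_nonneg_left
      ((le_abs_self _).trans (hu.sol.rg t ⟨a1, a2.trans a3⟩).2) P0)
  have hms : ‖(bb u m - bb w m) - (bb u s - bb w s)‖ ≤ C * (μ * S + E) * 9 := by
    rcases le_total s m with e | e
    · exact H9 s m hs.1 e hm.2
    · rw [norm_sub_rev]; exact H9 m s hm.1 e hs.2
  have h1 : S ≤ d + C * (μ * S + E) * 9 := by
    have := norm_le_insert' (bb u m - bb w m) (bb u s - bb w s)
    rw [TP2_norm, TP2_norm, ← hS, ← hd] at this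
    linarith
  have h2 : 18 * C * μ * S ≤ 1 * S := mul_le_mul_of_nonneg_right hC S0
  have h3 : S ≤ 2 * d + 18 * C * E := by nlinarith
  rw [← hd]
  refine ⟨fun t ht => (hle t ht).trans h3, fun t t' a1 a2 a3 => (H t t' a1 a2 a3).trans
    (mul_le_mul_of_nonneg_right ?_ (hu.nonneg ⟨a1, a2.trans a3⟩).2)⟩
  have h4 : 18 * C * μ * E ≤ 1 * E := mul_le_mul_of_nonneg_right hC E0
  have h5 : μ * S ≤ μ * (2 * d + 18 * C * E) := mul_le_mul_of_nonneg_left h3 μ0.le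
  have h6 : μ * S + E ≤ 18 * (μ * d + E) := by nlinarith [mul_nonneg μ0.le d0]
  calc C * (μ * S + E) ≤ C * (18 * (μ * d + E)) := mul_le_mul_of_nonneg_left h6 (by linarith)
    _ = _ := by ring

end Pool.Agent.P.MP_9ae58c_an.B

end
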