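import Pool.Agent.P.MP_9ae58c_an.B.IfB

section

/-! Step MIDL. -/

namespace Pool.Agent.P.MP_9ae58c_an.B

open Set Filter Topology Complex

theorem MIDL_abs (hALG : S_ALG) {V : Type} [AddCommGroup V] [Module ℝ V] (S : Submodule ℝ V)
    (a p f : V →ₗ[ℝ] ℂ) (c d : V →ₗ[ℝ] ℝ) (x₁ x₂ x₃ : V) (ω β : ℂ) (k : ℝ)
    (m1 : x₁ ∈ S) (m2 : x₂ ∈ S) (m3 : x₃ ∈ S) (a1 : a x₁ = 1) (a2 : a x₂ = I) (d1 : d x₁ = 0)
    (d2 : d x₂ = 0) (d3 : d x₃ = 1) (hω : ‖ω‖ = 1) (hk : 0 < k) (hβ : 2 * 10 ^ 4 ≤ k * ‖β‖ ^ 2)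
    (H : ∀ x ∈ S, d x = 0 → ‖p x - a x‖ ≤ 1 / 10 ^ 6 * ‖a x‖ ∧
      |c x + k * ip β (a x)| ≤ 1 / 10 ^ 6 * k * ‖β‖ * ‖a x‖ ∧
      ‖f x - ω * (a x + c x * I * β)‖ ≤ 1 / 10 ^ 6 * (‖a x‖ + ‖β‖ * |c x|)) :
    ∃ K m n, Shr K m ω n ∧ K ≤ 2 * k * ‖β‖ ^ 2 ∧ ∀ x ∈ S, ‖f x - shr K m ω n (p x)‖ ≤
      ‖p x‖ / 10 ^ 4 + (‖p x₃‖ + ‖f x₃‖ + 1.001 * K * ‖p x₃‖) * |d x| := by
  let e : ℂ →ₗ[ℝ] V := reLm.smulRight x₁ + imLm.smulRight x₂
  have e0 : ∀ δ, e δ = δ.re • x₁ + δ.im • x₂ := fun δ => rfl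
  have eS : ∀ δ, e δ ∈ S := fun δ => S.add_mem (S.smul_mem _ m1) (S.smul_mem _ m2)
  have ea : ∀ δ, a (e δ) = δ := fun δ => by
    rw [e0, map_add, map_smul, map_smul, a1, a2]; simp
  have ed : ∀ δ, d (e δ) = 0 := fun δ => by
    rw [e0, map_add, map_smul, map_smul, d1, d2]; simp
  obtain ⟨K, m, n, h1, h2, h3⟩ := hALG (p ∘ₗ e) (f ∘ₗ e) (c ∘ₗ e) ω β k (1 / 10 ^ 6) hω
    (by norm_num) le_rfl hk hβ (fun δ => by simpa [ea] using (H _ (eS δ) (ed δ)).1)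
    (fun δ => by simpa [ea] using (H _ (eS δ) (ed δ)).2.1)
    (fun δ => by simpa [ea] using (H _ (eS δ) (ed δ)).2.2)
  refine ⟨K, m, n, h1, h2, fun x hx => ?_⟩
  obtain ⟨y, hy⟩ : ∃ y, y = x - d x • x₃ := ⟨_, rfl⟩
  have yS : y ∈ S := hy ▸ S.sub_mem hx (S.smul_mem _ m3)
  have yd : d y = 0 := by rw [hy, map_sub, map_smul, d3]; simp
  have z0 : a (y - e (a y)) = 0 := by rw [map_sub, ea, sub_self]
  obtain ⟨z1, z2, z3⟩ := H (y - e (a y)) (S.sub_mem yS (eS _)) (by rw [map_sub, yd, ed, sub_self])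
  rw [z0] at z1 z2 z3
  have z4 : c (y - e (a y)) = 0 := by simpa [ip] using z2
  rw [z4] at z3
  have z5 : p y = p (e (a y)) := by
    rw [← sub_eq_zero, ← map_sub]; simpa using z1
  have z6 : f y = f (e (a y)) := by
    rw [← sub_eq_zero, ← map_sub]; simpa using z3
  have h4 : ‖f y - shr K m ω n (p y)‖ ≤ ‖p y‖ / (2 * 10 ^ 4) := by
    rw [z5, z6]; exact h3 (a y)
  have p1 : p x - p y = d x • p x₃ := by rw [hy, map_sub, map_smul]; abel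
  have f1 : f x - f y = d x • f x₃ := by rw [hy, map_sub, map_smul]; abel
  have n1 : ‖p x - p y‖ = |d x| * ‖p x₃‖ := by rw [p1, norm_smul, Real.norm_eq_abs]
  have n2 : ‖f x - f y‖ = |d x| * ‖f x₃‖ := by rw [f1, norm_smul, Real.norm_eq_abs]
  have n3 := h1.norm_le (p x - p y)
  rw [shr_sub, n1] at n3
  have n4 : ‖p y‖ ≤ ‖p x‖ + |d x| * ‖p x₃‖ := by
    rw [← n1, norm_sub_rev]; exact norm_le_insert' _ _
  have n5 : f x - shr K m ω n (p x) = (f y - shr K m ω n (p y)) + (f x - f y) -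
      (shr K m ω n (p x) - shr K m ω n (p y)) := by ring
  rw [n5]
  refine (norm_sub_le _ _).trans ((add_le_add_left (norm_add_le _ _) _).trans ?_)
  have := mul_nonneg (abs_nonneg (d x)) (norm_nonneg (p x₃))
  have := norm_nonneg (p x)
  rw [n2]
  nlinarith

theorem MIDL_tt {w : ℝ} (h0 : 0 < w) (h1 : w ≤ 1) : tt (w ^ 6) (100 * w ^ 6) w ≤ 2 * 10 ^ 4 * w := by
  have e : tt (w ^ 6) (100 * w ^ 6) w = 100 * w ^ 3 + w ^ 9 + 10 ^ 4 * w := by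
    unfold tt; field_simp; ring
  have h3 : w ^ 3 ≤ w := pow_le_of_le_one h0.le h1 (by norm_num)
  have h9 : w ^ 9 ≤ w := pow_le_of_le_one h0.le h1 (by norm_num)
  rw [e]; linarith

theorem MIDL_RR {w η J : ℝ} (h0 : 0 < w) (h1 : w ≤ 1 / 10 ^ 3) (e0 : w ^ 3 / 10 ≤ η)
    (e1 : η ≤ w ^ 2) (hJ : 2 / η ^ 5 ≤ J) :
    RR (100 * w ^ 6) η w ≤ 51 * w * J ∧ w ^ 6 * RR (100 * w ^ 6) η w ≤ 2 * w ∧
      2 ≤ J * w ^ 10 := by
  have hη : 0 < η := lt_of_lt_of_le (by positivity) e0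
  have w1 : w ≤ 1 := h1.trans (by norm_num)
  have hJ' : 2 ≤ J * η ^ 5 := (div_le_iff₀ (by positivity)).1 hJ
  have J0 : 0 < J := lt_of_lt_of_le (by positivity) hJ
  have η1 : η ≤ 1 := e1.trans (pow_le_one₀ h0.le w1)
  have a1 : η ^ 5 ≤ w ^ 10 := by
    calc η ^ 5 ≤ (w ^ 2) ^ 5 := by gcongr
      _ = w ^ 10 := by ring
  have a2 : 2 ≤ J * w ^ 10 := hJ'.trans (by gcongr)
  refine ⟨?_, ?_, a2⟩
  · have b1 : 100 * w ^ 6 / η ^ 3 ≤ 50 * w * J := by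
      rw [div_le_iff₀ (by positivity)]
      have c1 : w ^ 6 ≤ w := pow_le_of_le_one h0.le w1 (by norm_num)
      have c2 : η ^ 5 ≤ η ^ 3 := pow_le_pow_of_le_one hη.le η1 (by norm_num)
      have c3 : 2 ≤ J * η ^ 3 := hJ'.trans (by gcongr)
      nlinarith
    have b2 : 1 / w ^ 5 ≤ w * J := by
      rw [div_le_iff₀ (by positivity)]
      have c2 : w ^ 10 ≤ w ^ 6 := pow_le_pow_of_le_one h0.le w1 (by norm_num)
      have c3 : 2 ≤ J * w ^ 6 := a2.trans (by gcongr)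
      nlinarith
    unfold RR; linarith
  · have b1 : w ^ 6 * (100 * w ^ 6 / η ^ 3) ≤ w := by
      rw [← mul_div_assoc, div_le_iff₀ (by positivity)]
      have c1 : (w ^ 3 / 10) ^ 3 ≤ η ^ 3 := by gcongr
      have c2 : w ^ 2 ≤ (1 / 10 ^ 3) ^ 2 := by gcongr
      have c3 : w ^ 10 * w ^ 2 ≤ w ^ 10 * (1 / 10 ^ 3) ^ 2 := by gcongr
      have c4 : w * (w ^ 3 / 10) ^ 3 ≤ w * η ^ 3 := by gcongr
      have c5 : 0 < w ^ 10 := by positivity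
      nlinarith
    have b2 : w ^ 6 * (1 / w ^ 5) = w := by field_simp
    unfold RR; rw [mul_add, b2]; linarith

theorem MIDL_c {μ w η J C N e c i b t R : ℝ} (h0 : 0 < w) (hμ : 0 < μ) (hμw : μ ≤ w) (hC : 1 ≤ C)
    (hw : C * w ≤ 1 / 10 ^ 13) (hη : 0 < η) (hJ : 2 / η ^ 5 ≤ J) (hN : 0 ≤ N) (b1 : μ / 5 ≤ b)
    (b2 : b ≤ 100 * μ) (hi : |i| ≤ b * N) (ht : t ≤ 2 * 10 ^ 4 * w) (hR : R ≤ 51 * w * J)
    (h1 : |e - 2 * (1 + μ) / μ * i| ≤ C * (100 * μ + μ) * N)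
    (h2 : |8 * (1 + μ) * c + J * e| ≤ C * (t * (|e| / η ^ 5) + R * N)) :
    |c + J / (4 * μ) * i| ≤ 1 / 10 ^ 6 * (J / (4 * μ)) * b * N := by
  have J0 : 0 < J := lt_of_lt_of_le (by positivity) hJ
  have cm : C * μ ≤ 1 / 10 ^ 13 := le_trans (by gcongr) hw
  have m1 : μ ≤ 1 / 10 ^ 13 := by nlinarith
  have a1 : |2 * (1 + μ) / μ * i| ≤ 201 * N := by
    rw [abs_mul, abs_of_pos (by positivity), div_mul_eq_mul_div, div_le_iff₀ hμ]
    have : |i| ≤ 100 * μ * N := hi.trans (by gcongr)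
    have := mul_nonneg hμ.le hN
    nlinarith [abs_nonneg i]
  have a2 : C * (100 * μ + μ) * N ≤ N := by nlinarith
  have a3 : |e| ≤ 202 * N := by
    have := abs_add_le (e - 2 * (1 + μ) / μ * i) (2 * (1 + μ) / μ * i)
    rw [sub_add_cancel] at this
    linarith
  have a4 : |e| / η ^ 5 ≤ 101 * N * J := by
    calc |e| / η ^ 5 ≤ 202 * N / η ^ 5 := by gcongr
      _ = 101 * N * (2 / η ^ 5) := by ring
      _ ≤ _ := by gcongr
  have a5 : t * (|e| / η ^ 5) ≤ 2 * 10 ^ 4 * w * (101 * N * J) := by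
    calc t * (|e| / η ^ 5) ≤ 2 * 10 ^ 4 * w * (|e| / η ^ 5) := by gcongr
      _ ≤ _ := by gcongr
  have a6 : R * N ≤ 51 * w * J * N := by gcongr
  have a7 : |8 * (1 + μ) * c + J * e| ≤ C * w * (3 * 10 ^ 6 * (J * N)) := by
    refine h2.trans ?_
    rw [mul_assoc]
    gcongr
    have := mul_nonneg h0.le (mul_nonneg J0.le hN)
    nlinarith
  have JN := mul_nonneg J0.le hN
  have a8 : C * w * (3 * 10 ^ 6 * (J * N)) ≤ 1 / 10 ^ 13 * (3 * 10 ^ 6 * (J * N)) := by gcongr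
  have a9 : |J * (e - 2 * (1 + μ) / μ * i)| ≤ 101 / 10 ^ 13 * (J * N) := by
    rw [abs_mul, abs_of_pos J0]
    have : C * (100 * μ + μ) * N ≤ 101 / 10 ^ 13 * N := by nlinarith
    nlinarith
  have e1 : 8 * (1 + μ) * (c + J / (4 * μ) * i) =
      (8 * (1 + μ) * c + J * e) - J * (e - 2 * (1 + μ) / μ * i) := by
    field_simp; ring
  have a10 := abs_sub (8 * (1 + μ) * c + J * e) (J * (e - 2 * (1 + μ) / μ * i))
  rw [← e1, abs_mul, abs_of_pos (by positivity)] at a10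
  have a11 : J / 20 ≤ J / (4 * μ) * b := by
    calc J / 20 = J / (4 * μ) * (μ / 5) := by field_simp; norm_num
      _ ≤ _ := by gcongr
  have a12 : J / 20 * N ≤ J / (4 * μ) * b * N := by gcongr
  have a13 := mul_nonneg hμ.le (abs_nonneg (c + J / (4 * μ) * i))
  nlinarith

theorem MIDL_f {μ w C U N b c R A B Y : ℝ} (hμ : 0 < μ) (hμw : μ ≤ w) (hC : 1 ≤ C)
    (hw : C * w ≤ 1 / 10 ^ 13) (hU : U ≤ 1 / 10 ^ 7) (hN : 0 ≤ N) (hc : 0 ≤ c)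
    (b1 : μ / 5 ≤ b) (hR : μ * R ≤ 2 * w) (hY0 : 0 ≤ Y)
    (h1 : A ≤ C * μ * (N + (100 * μ + μ) * (c + R * N))) (h2 : B ≤ U * Y)
    (h3 : Y ≤ A + (N + b * c)) : B + A ≤ 1 / 10 ^ 6 * (N + b * c) := by
  have cm : C * μ ≤ 1 / 10 ^ 13 := le_trans (by gcongr) hw
  have w1 : w ≤ 1 / 10 ^ 13 := by nlinarith
  have a1 : μ * c ≤ 5 * (b * c) := by nlinarith
  have a2 : μ * R * N ≤ 2 * w * N := by gcongr
  have a0 : 0 ≤ b * c := mul_nonneg (by linarith) hc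
  have a3 : N + (100 * μ + μ) * (c + R * N) ≤ 505 * (N + b * c) := by nlinarith
  have a4 : A ≤ 1 / 10 ^ 13 * (505 * (N + b * c)) := by
    calc A ≤ _ := h1
      _ ≤ C * μ * (505 * (N + b * c)) := by gcongr
      _ ≤ _ := by gcongr
  have a5 : U * Y ≤ 1 / 10 ^ 7 * Y := by gcongr
  linarith

/-- the variations that start on the plane -/
def MIDL_S (μ : ℝ) (h : ℝ → St) : Submodule ℝ (ℝ → St) where
  carrier := {x | Var μ h x ∧ (x 0).2.1 = 0}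
  add_mem' := fun {x y} hx hy => ⟨hx.1.add hy.1, by simp [hx.2, hy.2]⟩
  zero_mem' := ⟨fun t _ => by
    have : lin μ (h t) 0 = 0 := by simpa using lin_smul μ (h t) 0 0
    exact (hasDerivAt_const t (0 : St)).congr_deriv this.symm, rfl⟩
  smul_mem' := fun c x hx => ⟨hx.1.smul c, by simp [hx.2]⟩

/-- the amplitude at a given time -/
noncomputable def MIDL_b (t : ℝ) : (ℝ → St) →ₗ[ℝ] ℂ where
  toFun x := bb x t
  map_add' x y := by simp [bb, mul_add]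
  map_smul' c x := by simp [bb]; ring

/-- the time shift -/
noncomputable def MIDL_cz (h : ℝ → St) (T : ℝ) : (ℝ → St) →ₗ[ℝ] ℝ where
  toFun x := cz (h T) (x T)
  map_add' x y := by simp [cz]; ring
  map_smul' c x := by simp [cz]; ring

/-- the variation of the first integral -/
noncomputable def MIDL_dh (μ : ℝ) (h : ℝ → St) : (ℝ → St) →ₗ[ℝ] ℝ where
  toFun x := dh μ (h 0) (x 0)
  map_add' _ _ := dh_add _ _ _ _
  map_smul' _ _ := dh_smul _ _ _ _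

/-- the synchronised amplitude -/
noncomputable def MIDL_fs (μ : ℝ) (h : ℝ → St) (T t : ℝ) : (ℝ → St) →ₗ[ℝ] ℂ where
  toFun x := bb (sh (sy μ h x T) T) t
  map_add' x y := by
    have := (MIDL_cz h T).map_add x y
    simp only [MIDL_cz, LinearMap.coe_mk, AddHom.coe_mk] at this
    simp only [bb, sh, sy, syn, this]
    simp only [Pi.add_apply, add_smul, Prod.fst_add]
    ring
  map_smul' c x := by
    have := (MIDL_cz h T).map_smul c x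
    simp only [MIDL_cz, LinearMap.coe_mk, AddHom.coe_mk] at this
    simp only [bb, sh, sy, syn, this]
    simp only [Pi.smul_apply, Prod.fst_add, Prod.smul_fst, smul_eq_mul, real_smul,
      RingHom.id_apply]
    push_cast
    ring

theorem MIDL_init (hVEX : S_VEX) {μ : ℝ} {h : ℝ → St} (hg : Glob μ h) (hv : (h 0).2.2 ≠ 0)
    (δ : ℂ) (d : ℝ) : ∃ x ∈ MIDL_S μ h, (x 0).1 = δ ∧ dh μ (h 0) (x 0) = d := by
  obtain ⟨x, h1, h2⟩ := hVEX μ h hg 0 (δ, 0, (d - dh μ (h 0) (δ, 0, 0)) / (2 * (h 0).2.2))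
  refine ⟨x, ⟨h1, by rw [h2]⟩, by rw [h2], ?_⟩
  rw [h2]
  simp only [dh, de, dW]
  field_simp
  ring

theorem p_MIDL (hTAY : S_TAY) (hGRON : S_GRON) (hVEX : S_VEX) (hUPV : S_UPV) (hEXC : S_EXC) (hEXCF : S_EXCF) (hALG : S_ALG) :
    S_MIDL := by
  obtain ⟨CU, U1, hU⟩ := hUPV
  obtain ⟨CE, E1, hE⟩ := hEXC
  have D1 : 1 ≤ 10 ^ 13 * CE * CU := by nlinarith
  refine ⟨(10 ^ 13 * CE * CU) ^ 6, one_le_pow₀ D1, fun μ K₀ h T hC H => ?_⟩
  obtain ⟨η, tp, ex1, η1, η2, β1⟩ := H.exc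
  have gl := H.tail.gl
  have μ0 := gl.pos
  obtain ⟨w, w0, rfl⟩ : ∃ w, 0 < w ∧ μ = w ^ 6 :=
    ⟨μ ^ ((6 : ℕ) : ℝ)⁻¹, Real.rpow_pos_of_pos μ0 _,
      (Real.rpow_inv_natCast_pow μ0.le (by norm_num)).symm⟩
  have w1 : 10 ^ 13 * CE * CU * w ≤ 1 := by
    rw [← mul_pow] at hC
    exact (pow_le_one_iff_of_nonneg (by positivity) (by norm_num)).1 hC
  have wE : CE * w ≤ 1 / 10 ^ 13 := by
    linarith [le_mul_of_one_le_left (by positivity : 0 ≤ CE * w) U1]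
  have wU : CU * w ≤ 1 / 10 ^ 13 := by
    linarith [le_mul_of_one_le_left (by positivity : 0 ≤ CU * w) E1]
  have w2 : w ≤ 1 / 10 ^ 13 := (le_mul_of_one_le_left w0.le E1).trans wE
  have w3 : w ≤ 1 := w2.trans (by norm_num)
  have μw : w ^ 6 ≤ w := pow_le_of_le_one w0.le w3 (by norm_num)
  have μE : CE * w ^ 6 ≤ 1 / 10 ^ 13 := le_trans (by gcongr) wE
  have μU : CU * w ^ 6 ≤ 1 / 10 ^ 13 := le_trans (by gcongr) wU
  have η0 := ex1.pos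
  have η3 : η ≤ w ^ 2 := by
    refine (abs_le_of_sq_le_sq' ?_ (by positivity)).2
    have : w ^ 2 ≤ (1 / 10 ^ 13) ^ 2 := by gcongr
    have : w ^ 4 * w ^ 2 ≤ w ^ 4 * (1 / 10 ^ 13) ^ 2 := by gcongr
    linarith [pow_pos w0 4]
  have η4 : w ^ 3 / 10 ≤ η := (abs_le_of_sq_le_sq' (by linarith) η0.le).2
  have η5 : 3 * η ≤ w := by linarith [mul_le_mul_of_nonneg_left w2 w0.le]
  obtain ⟨t1, t2, -, -, -, -, -, zT, vT, -⟩ := hEXCF _ _ _ _ _ _ ex1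
  have sol : Sol (w ^ 6) h 0 T := by simpa using ex1.sol.fp
  have T0 : (0 : ℝ) ≤ T := by linarith
  have ttb := MIDL_tt w0 w3
  obtain ⟨J, J1, -, hJ⟩ := hE _ (fp h) η tp T w (100 * w ^ 6) (by linarith) ex1 η5
    (by linarith) (fun t ht => (sol.adm t ⟨le_trans (by positivity) ht.1,
      ht.2.trans (sub_le_self _ (by positivity))⟩).na) le_rfl
    (by linarith [mul_le_mul_of_nonneg_left ttb (by linarith : 0 ≤ CE)])
  obtain ⟨R1, R2, R3⟩ := MIDL_RR w0 (w2.trans (by norm_num)) η4 η3 J1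
  have J0 : 0 < J := lt_of_lt_of_le (by positivity) J1
  have β2 : ‖bb h tp‖ ≤ 100 * w ^ 6 := by
    rw [norm_bb]; exact (sol.adm tp ⟨by linarith, by linarith⟩).na
  rw [← norm_bb] at β1
  have shT : sh h T = rev h 0 := by
    conv_lhs => rw [← H.sym]
    rw [sh_rev, sub_self]
  have aT := sol.adm T ⟨T0, le_rfl⟩
  have a0 := sol.adm 0 ⟨le_rfl, T0⟩
  have vT' : (h T).2.2 ≠ 0 := by
    have : -(h T).2.2 ≤ -2 := vT
    linarith
  have v0 : (h 0).2.2 ≠ 0 := by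
    have : 2 ≤ -(h 0).2.2 := ex1.up.v0
    linarith
  have up : ∀ T₀, 2 ≤ T₀ → ∀ y, Var (w ^ 6) (rev h 0) y → (y 0).2.1 = 0 →
      ‖bb y T₀ - (y 0).1‖ ≤ 1 / 10 ^ 7 * nn (w ^ 6) (rev h 0 0) (y 0) := by
    intro T₀ h2 y hy hz
    have := (hU _ _ y 0 T₀ (by linarith) (H.tail.up T₀ h2) hy hz).1 0 T₀ le_rfl (by linarith) le_rfl
    rw [bb_zero] at this
    refine this.trans (mul_le_mul_of_nonneg_right ?_ (by unfold nn; positivity))
    have h3 : (rev h 0 0).2.2 ≤ 4.01 := by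
      have := (abs_le.1 a0.v).1
      simp only [rev, Rv_3, sub_zero]
      linarith
    have h4 : CU * w ^ 6 * (0 + (rev h 0 0).2.2) ≤ CU * w ^ 6 * 4.01 := by
      rw [zero_add]; gcongr
    linarith
  have upP : ∀ T₀, 2 ≤ T₀ → ∀ x ∈ MIDL_S (w ^ 6) h, ‖bb x (-T₀) - (x 0).1‖ ≤
      1 / 10 ^ 7 * (‖(x 0).1‖ + |dh (w ^ 6) (h 0) (x 0)|) := by
    intro T₀ h2 x hx
    have := up T₀ h2 (rev x 0) (hx.1.rev 0) (by simpa [rev] using hx.2)
    rw [bb_rev0] at this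
    simp only [rev, sub_zero, nn_Rv, Rv_1, ← map_sub, norm_conj] at this
    exact this
  have upF : ∀ T₀, 2 ≤ T₀ → ∀ x ∈ MIDL_S (w ^ 6) h,
      ‖bb (sh (sy (w ^ 6) h x T) T) T₀ - (sy (w ^ 6) h x T T).1‖ ≤
        1 / 10 ^ 7 * (‖(sy (w ^ 6) h x T T).1‖ + |dh (w ^ 6) (h 0) (x 0)|) := by
    intro T₀ h2 x hx
    have := up T₀ h2 (sh (sy (w ^ 6) h x T) T) (shT ▸ (hx.1.sy gl T).sh T)
      (by simpa [sh] using sy_z aT.reg vT')
    rw [← shT] at this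
    simp only [sh, zero_add, nn] at this
    rwa [show dh (w ^ 6) (h T) (sy (w ^ 6) h x T T) = dh (w ^ 6) (h 0) (x 0) from
      (dh_syn μ0 h x _ T).trans (hx.1.dh_eq gl sol.reg ⟨T0, le_rfl⟩ ⟨le_rfl, T0⟩)] at this
  obtain ⟨x₁, m1, a1, d1⟩ := MIDL_init hVEX gl v0 1 0
  obtain ⟨x₂, m2, a2, d2⟩ := MIDL_init hVEX gl v0 I 0
  obtain ⟨x₃, m3, a3, d3⟩ := MIDL_init hVEX gl v0 0 1
  have k0 : 0 < J / (4 * w ^ 6) := by positivity
  have kβ : 2 * 10 ^ 4 ≤ J / (4 * w ^ 6) * ‖bb h tp‖ ^ 2 := by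
    have b1 : J / (4 * w ^ 6) * (w ^ 6 / 5) ^ 2 ≤ J / (4 * w ^ 6) * ‖bb h tp‖ ^ 2 := by gcongr
    have b2 : J / (4 * w ^ 6) * (w ^ 6 / 5) ^ 2 = J * w ^ 6 / 100 := by field_simp; norm_num
    have b3 : w ^ 4 ≤ w := pow_le_of_le_one w0.le w3 (by norm_num)
    have b4 : J * w ^ 6 * w ^ 4 ≤ J * w ^ 6 * (1 / 10 ^ 13) := by gcongr; linarith
    linarith
  refine ⟨3 + 2 * ‖(sy (w ^ 6) h x₃ T T).1‖ + 2 * (2 * (J / (4 * w ^ 6)) * ‖bb h tp‖ ^ 2), ex T,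
    by linarith [norm_nonneg (sy (w ^ 6) h x₃ T T).1], fun T₀ h2 => ?_⟩
  obtain ⟨K, m, n, s1, s2, s3⟩ := MIDL_abs hALG (MIDL_S (w ^ 6) h) (MIDL_b 0) (MIDL_b (-T₀))
    (MIDL_fs (w ^ 6) h T T₀) (MIDL_cz h T) (MIDL_dh (w ^ 6) h) x₁ x₂ x₃ (ex T) (bb h tp) _
    m1 m2 m3 ((bb_zero _).trans a1) ((bb_zero _).trans a2) d1 d2 d3 (norm_ex T) k0 kβ (by
      intro x hx hd
      have hd' : dh (w ^ 6) (h 0) (x 0) = 0 := hd
      obtain ⟨i1, i2, i3⟩ := hJ (fp x) hx.1.fp (by simpa [fp] using hx.2) _ _ _ rfl rfl rfl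
      rw [← fp_sy] at i3
      simp only [fp, cz_Fp, dh_Fp, nn_Fp, Fp_1, bb_fp] at i1 i2 i3
      simp only [nn, hd', abs_zero, add_zero] at i1 i2 i3
      have u1 := upP T₀ h2 x hx
      have u2 := upF T₀ h2 x hx
      rw [hd', abs_zero, add_zero] at u1 u2
      simp only [MIDL_b, MIDL_fs, MIDL_cz, LinearMap.coe_mk, AddHom.coe_mk, bb_zero]
      refine ⟨u1.trans (by linarith [norm_nonneg (x 0).1]), MIDL_c w0 μ0 μw E1 wE η0 J1 (norm_nonneg _) β1 β2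
        (abs_ip_le _ _) ttb R1 i1 i2, ?_⟩
      have e1 : ‖(sy (w ^ 6) h x T T).1 - ex T * ((x 0).1 + cz (h T) (x T) * I * bb h tp)‖ =
          ‖bb (sy (w ^ 6) h x T) T - (x 0).1 - cz (h T) (x T) * I * bb h tp‖ := by
        rw [← ex_mul_bb, ← mul_sub, norm_mul, norm_ex, one_mul, sub_add_eq_sub_sub]
      refine (norm_sub_le_norm_sub_add_norm_sub _ (sy (w ^ 6) h x T T).1 _).trans ?_
      rw [e1]
      refine MIDL_f μ0 μw E1 wE le_rfl (norm_nonneg _) (abs_nonneg _) β1 R2 (norm_nonneg _) i3 u2 ?_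
      rw [← e1]
      refine (norm_le_insert' _ (ex T * ((x 0).1 + cz (h T) (x T) * I * bb h tp))).trans ?_
      rw [add_comm, norm_mul, norm_ex, one_mul]
      gcongr
      refine (norm_add_le _ _).trans (le_of_eq ?_)
      simp [mul_comm])
  have K1 := s1.K1
  refine ⟨K, m, n, s1, by linarith [norm_nonneg (sy (w ^ 6) h x₃ T T).1], fun x hx hz => ?_⟩
  refine (s3 x ⟨hx, hz⟩).trans (add_le_add_right (mul_le_mul_of_nonneg_right ?_ (abs_nonneg _)) _)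
  have u1 := upP T₀ h2 x₃ m3
  have u2 := upF T₀ h2 x₃ m3
  rw [d3, abs_one] at u1 u2
  rw [a3, sub_zero, norm_zero] at u1
  have u3 := norm_le_insert' (bb (sh (sy (w ^ 6) h x₃ T) T) T₀) (sy (w ^ 6) h x₃ T T).1
  change ‖bb x₃ (-T₀)‖ + ‖bb (sh (sy (w ^ 6) h x₃ T) T) T₀‖ + 1.001 * K * ‖bb x₃ (-T₀)‖ ≤ _
  have u4 : K * ‖bb x₃ (-T₀)‖ ≤ K * 1 := by gcongr; linarith
  linarith [norm_nonneg (sy (w ^ 6) h x₃ T T).1]

end Pool.Agent.P.MP_9ae58c_an.B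

end

section

/-! Step MP0. -/

namespace Pool.Agent.P.MP_9ae58c_an.B

open Set Filter Topology Complex

theorem MP0_adm {μ K₀ T : ℝ} {h : ℝ → St} (H : Hom μ K₀ h T) (t : ℝ) : Adm μ (h t) := by
  have k : ∀ t, t ≤ 0 → Adm μ (h t) := fun t ht => by
    have := (H.tail.up (2 - t) (by linarith)).sol.adm (-t) ⟨by linarith, by linarith⟩
    simpa [rev] using this
  obtain ⟨η, tp, E, -⟩ := H.exc
  rcases le_total t 0 with h0 | h0
  · exact k t h0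
  rcases le_total t tp with h1 | h1
  · exact adm_Fp.1 (E.up.sol.adm t ⟨h0, h1⟩)
  rcases le_total t T with h2 | h2
  · have := E.dn.sol.adm (T - t) ⟨by linarith, by linarith⟩
    simpa [rev, fp] using this
  · rw [← H.sym]
    exact (k (T - t) (by linarith)).rv

theorem MP0_min {a b e z : ℝ} (h : min 1 (min (a - 0) b) ≤ z) (h1 : z ≤ e) (h2 : e < 1)
    (h3 : 1 ≤ a) : b ≤ e := by
  rcases min_le_iff.1 h with k | k
  · linarith
  rcases min_le_iff.1 k with k | k <;> linarith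

theorem p_MP0 (hTAY : S_TAY) (hGRON : S_GRON) (hPERT : S_PERT) (hEXCF : S_EXCF) :
    S_MP0 := by
  intro μ K₀ h T T₀ H hT₀
  obtain ⟨L, hL⟩ := hTAY
  obtain ⟨P, hP1, hP⟩ := hPERT
  have gl := H.tail.gl
  have hμ : μ ∈ Icc (0 : ℝ) 1 := ⟨gl.pos.le, gl.le.trans (by norm_num)⟩
  have ad := MP0_adm H
  obtain ⟨η₀, tp₀, E₀, -⟩ := H.exc
  obtain ⟨a1, a2, -, -, -, -, -, a3, -, -, -, -, a4⟩ := hEXCF _ _ _ _ _ _ E₀
  have L1 := hL.one
  obtain ⟨X, hX⟩ : ∃ X, X = Real.exp (L * (T + T₀ + 1 - -T₀)) := ⟨_, rfl⟩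
  have X1 : 1 ≤ X := hX ▸ Real.one_le_exp (mul_nonneg (by linarith) (by linarith))
  have hG : Gr μ h (-T₀) (T + T₀ + 1) X := hX ▸ hGRON L hL μ hμ h _ _ fun t _ => (ad t).reg
  have q1 : 0 < P * X ^ 2 := by positivity
  have q2 : 4 * X ≤ 2 * X * (1 + L) := by nlinarith
  refine ⟨2 * X * (1 + L), 1 / (P * X ^ 2 + 2 * X * (1 + L)), by linarith,
    one_div_pos.2 (by linarith), fun u d η tp T' h0 hd E => ?_⟩
  have d0 : 0 ≤ d := (norm_nonneg _).trans h0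
  rw [le_div_iff₀ (by linarith)] at hd
  have q3 : 0 ≤ P * X ^ 2 * d := by positivity
  have q4 : 4 * X * d ≤ 2 * X * (1 + L) * d := mul_le_mul_of_nonneg_right q2 d0
  have q5 : 0 ≤ X * d := by positivity
  have gu : Glob μ u := by simpa using E.up.sol.gl.fp
  obtain ⟨b1, b2, -, -, -, -, -, b3, -, -, -, -, b4⟩ := hEXCF _ _ _ _ _ _ E
  have hp := (hP μ h u (-T₀) (T + T₀ + 1) X d 0 gl gu (fun t _ => (ad t).rg) hG X1
    ⟨by linarith, by linarith⟩ h0 (by linarith)).1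
  have hz : ∀ t ∈ Icc (-T₀) (T + T₀ + 1), |(u t).2.1 - (h t).2.1| ≤ 2 * X * d :=
    fun t ht => (n2 (u t - h t)).trans (hp t ht).2
  have c1 : |T' - T| ≤ 2 * X * d := by
    simp only [fp, Fp_2] at a3 a4 b3 b4
    rcases le_total T' T with k | k
    · have e := abs_le.1 (hz T' ⟨by linarith, by linarith⟩)
      rw [abs_sub_comm, abs_of_nonneg (by linarith)]
      exact MP0_min (a4 T' ⟨by linarith, k⟩).1 (by linarith) (by linarith) (by linarith)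
    · have e := abs_le.1 (hz T ⟨by linarith, by linarith⟩)
      rw [abs_of_nonneg (by linarith)]
      exact MP0_min (b4 T ⟨by linarith, k⟩).1 (by linarith) (by linarith) (by linarith)
  have c2 : ‖h T' - h T‖ ≤ L * |T' - T| :=
    convex_univ.norm_image_sub_le_of_norm_hasDerivWithin_le
      (fun t _ => (gl.der t (ad t).reg).hasDerivWithinAt)
      (fun t _ => hL.f0 μ hμ _ (ad t).reg) (mem_univ T) (mem_univ T')
  have c3 := mul_le_mul_of_nonneg_left c1 (show 0 ≤ L by linarith)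
  have c4 := abs_le.1 c1
  have c5 := (hp T' ⟨by linarith, by linarith⟩).2
  refine ⟨by linarith, by linarith, ?_, fun t ht => ⟨(ad t).rg, (hp t ht).1, ?_⟩⟩
  · linarith [norm_sub_le_norm_sub_add_norm_sub (u T') (h T') (h T)]
  · linarith [(hp t ht).2]

end Pool.Agent.P.MP_9ae58c_an.B

end
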