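import Pool.Agent.P.MP_9ae58c_an.B.IfB

section

/-! Step MP1. -/

namespace Pool.Agent.P.MP_9ae58c_an.B

open Set Filter Topology Complex

/-- Taylor formula of order one in the time variable -/
theorem MP1_time {L μ a b t s : ℝ} {u : ℝ → St} (hL : Lc L) (hu : Glob μ u)
    (hr : ∀ t ∈ Icc a b, Reg (u t)) (ht : t ∈ Icc a b) (hs : t + s ∈ Icc a b) :
    ‖u (t + s) - u t - s • fld μ (u t)‖ ≤ L ^ 2 * s ^ 2 := by
  have L0 : 0 ≤ L := zero_le_one.trans hL.one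
  have i : uIcc t (t + s) ⊆ Icc a b := uIcc_subset_Icc ht hs
  have h1 : ∀ τ ∈ uIcc t (t + s), ‖u τ - u t‖ ≤ L * |s| := fun τ hτ => by
    have e1 := (convex_uIcc t (t + s)).norm_image_sub_le_of_norm_hasDerivWithin_le
      (fun σ hσ => (hu.der σ (hr σ (i hσ))).hasDerivWithinAt)
      (fun σ hσ => hL.f0 μ hu.mu _ (hr σ (i hσ))) left_mem_uIcc hτ
    have e2 := abs_sub_left_of_mem_uIcc hτ
    rw [add_sub_cancel_left] at e2
    exact e1.trans (mul_le_mul_of_nonneg_left e2 L0)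
  have h2 := (convex_uIcc t (t + s)).norm_image_sub_le_of_norm_hasDerivWithin_le
    (f := fun τ => u τ - τ • fld μ (u t)) (f' := fun τ => fld μ (u τ) - fld μ (u t))
    (C := L * (L * |s|))
    (fun σ hσ => (((hu.der σ (hr σ (i hσ))).fun_sub
      ((hasDerivAt_id' σ).smul_const (fld μ (u t)))).congr_deriv (by rw [one_smul])).hasDerivWithinAt)
    (fun σ hσ => (hL.f1 μ hu.mu _ _ (hr σ (i hσ)) (hr t ht)).trans
      (mul_le_mul_of_nonneg_left (h1 σ hσ) L0)) left_mem_uIcc right_mem_uIcc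
  have e : u (t + s) - (t + s) • fld μ (u t) - (u t - t • fld μ (u t)) =
      u (t + s) - u t - s • fld μ (u t) := by rw [add_smul]; abel
  rw [e, add_sub_cancel_left, Real.norm_eq_abs] at h2
  refine h2.trans_eq ?_
  rw [← sq_abs s]
  ring

theorem MP1_bb (u v w : ℝ → St) (t : ℝ) : ‖bb u t - bb v t - bb w t‖ ≤ ‖u t - v t - w t‖ := by
  have e : bb u t - bb v t - bb w t = ex (-t) * (u t - v t - w t).1 := by
    simp only [bb, Prod.fst_sub]; ring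
  rw [e, norm_mul, norm_ex, one_mul]
  exact n1 _

/-- the energy to second order -/
theorem MP1_en {L μ d : ℝ} {p q : St} (hL : Lc L) (m : 0 < μ) (m1 : μ ≤ 1) (hp : Reg p) (hq : Reg q)
    (hd : ‖q - p‖ ≤ d) (h0 : Hh μ p = 0) :
    |dh μ p (q - p)| ≤ ((1 + μ) / μ + L) * (|Hh μ q| + d ^ 2) := by
  have L0 : 0 ≤ L := zero_le_one.trans hL.one
  have d2 : ‖q - p‖ ^ 2 ≤ d ^ 2 := by gcongr
  have d3 : ‖(q - p).1‖ ^ 2 ≤ d ^ 2 := by gcongr; exact (n1 _).trans hd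
  have e1 := (hL.e2 μ ⟨m.le, m1⟩ p q hp hq).trans (mul_le_mul_of_nonneg_left d2 L0)
  have e2 : dh μ p (q - p) = (1 + μ) / μ * (Hh μ q - Hh μ p - ‖(q - p).1‖ ^ 2) +
      (eps μ q - eps μ p - de μ p (q - p)) := by
    simp only [dh, Hh, ← ip_self, ip, Prod.fst_sub, sub_re, sub_im]
    field_simp
    ring
  have e3 : |Hh μ q - Hh μ p - ‖(q - p).1‖ ^ 2| ≤ |Hh μ q| + d ^ 2 := by
    rw [h0, sub_zero]
    refine (abs_sub _ _).trans ?_
    rw [abs_of_nonneg (sq_nonneg ‖(q - p).1‖)]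
    linarith
  have k : 0 < (1 + μ) / μ := by positivity
  rw [e2]
  refine (abs_add_le _ _).trans ?_
  rw [abs_mul, abs_of_pos k]
  nlinarith [mul_le_mul_of_nonneg_left e3 k.le, mul_nonneg L0 (abs_nonneg (Hh μ q))]

/-- the time shift is read on the height -/
theorem MP1_cz {μ s E : ℝ} {p q ξ : St} (hp : Reg p) (hz : p.2.1 = 0) (hz' : q.2.1 = 0)
    (hv : 2 ≤ p.2.2) (h : ‖q - p - ξ - s • fld μ p‖ ≤ E) : |s - cz p ξ| ≤ E := by
  have r := hp.r.1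
  have k : 1 ≤ rr p ^ 2 * p.2.2 := by nlinarith [mul_le_mul r r (by norm_num) (by linarith)]
  have e : (q - p - ξ - s • fld μ p).2.1 = -((s - cz p ξ) * (rr p ^ 2 * p.2.2)) := by
    have k0 : rr p ^ 2 * p.2.2 ≠ 0 := by linarith
    simp only [Prod.snd_sub, Prod.fst_sub, Prod.smul_snd, Prod.smul_fst, hz, hz', fld, smul_eq_mul]
    rw [cz, sub_mul, div_mul_cancel₀ _ k0]
    ring
  have h1 := (n2 _).trans h
  rw [e, abs_neg, abs_mul, abs_of_pos (show 0 < rr p ^ 2 * p.2.2 by linarith)] at h1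
  nlinarith [abs_nonneg (s - cz p ξ)]

theorem p_MP1 (hTAY : S_TAY) (hGRON : S_GRON) (hPERT : S_PERT) (hEXCF : S_EXCF) (hMP0 : S_MP0) :
    S_MP1 := by
  intro μ K₀ h T T₀ hH hT₀
  obtain ⟨L, hL⟩ := hTAY
  obtain ⟨C₁, c1, hP⟩ := hPERT
  obtain ⟨C₂, d₂, c2, d2, hM⟩ := hMP0 μ K₀ h T T₀ hH hT₀
  obtain ⟨η₀, tp₀, hE, -⟩ := hH.exc
  obtain ⟨t1, t2, -, -, -, -, -, z0, v0, -⟩ := hEXCF μ _ _ _ _ _ hE
  have z1 : (h T).2.1 = 0 := neg_eq_zero.1 z0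
  have v1 : 2 ≤ (h T).2.2 := by
    have : -(h T).2.2 ≤ -2 := v0
    linarith
  have gh := hH.tail.gl
  have m := gh.pos
  have L1 := hL.one
  obtain ⟨X, hX⟩ : ∃ X, X = Real.exp (L * (T + T₀ + 1 - -T₀)) := ⟨_, rfl⟩
  have X1 : 1 ≤ X := hX ▸ Real.one_le_exp (mul_nonneg (by linarith) (by linarith))
  obtain ⟨B, hB⟩ : ∃ B, B = L ^ 2 * C₂ ^ 2 + C₁ * X ^ 3 + L * C₂ ^ 2 := ⟨_, rfl⟩
  have b1 : 0 ≤ L ^ 2 * C₂ ^ 2 := by positivity
  have b2 : 0 ≤ C₁ * X ^ 3 := by positivity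
  have b3 : 0 ≤ L * C₂ ^ 2 := by positivity
  have B0 : 0 ≤ B := by linarith
  have LB : 0 ≤ B * L := by positivity
  have k : 0 < (1 + μ) / μ := by positivity
  have x2 : 0 < C₁ * X ^ 2 := by positivity
  refine ⟨B + B * L + ((1 + μ) / μ + L), min d₂ (1 / (C₁ * X ^ 2)), by linarith,
    lt_min d2 (by positivity), fun u x d η tp T' hd hd₀ hE' hx hx0 => ?_⟩
  have d0 : 0 ≤ d := (norm_nonneg _).trans hd
  obtain ⟨s1, s2, -, hw⟩ := hM u d η tp T' hd (hd₀.trans (min_le_left _ _)) hE'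
  obtain ⟨-, -, -, -, -, -, -, z2, -⟩ := hEXCF μ _ _ _ _ _ hE'
  have z3 : (u T').2.1 = 0 := neg_eq_zero.1 z2
  have gu : Glob μ u := by simpa using hE'.up.sol.gl.fp
  have w0 : (0 : ℝ) ∈ Icc (-T₀) (T + T₀ + 1) := ⟨by linarith, by linarith⟩
  have hG : Gr μ h (-T₀) (T + T₀ + 1) X := hX ▸ hGRON L hL μ gh.mu h _ _ fun t ht => (hw t ht).1.reg
  have sm : C₁ * X ^ 2 * d ≤ 1 := by
    have := hd₀.trans (min_le_right _ _)
    rwa [le_div_iff₀' x2] at this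
  have p1 : ∀ t ∈ Icc (-T₀) (T + T₀ + 1), ‖u t - h t - x t‖ ≤ C₁ * X ^ 3 * d ^ 2 := fun t ht => by
    have := (hP μ h u _ _ X d 0 gh gu (fun t ht => (hw t ht).1) hG X1 w0 hd sm).2.1 x hx t ht
    rwa [hx0, sub_self, norm_zero, mul_zero, zero_add] at this
  obtain ⟨s, rfl⟩ : ∃ s, T' = T + s := ⟨T' - T, by ring⟩
  rw [add_sub_cancel_left] at s1
  have s3 := abs_le.1 (s1.trans s2)
  have s4 : s ^ 2 ≤ (C₂ * d) ^ 2 := by rw [← sq_abs]; gcongr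
  have p2 : ∀ t, 0 ≤ t → t ≤ T₀ → ‖u (t + T + s) - h (t + T) - x (t + T) - s • fld μ (h (t + T))‖ ≤
      B * d ^ 2 := fun t ht ht' => by
    have w1 : t + T ∈ Icc (-T₀) (T + T₀ + 1) := ⟨by linarith, by linarith⟩
    have a1 := MP1_time (s := s) hL gu (fun t ht => (hw t ht).2.1) w1 ⟨by linarith, by linarith⟩
    have a2 := p1 _ w1
    have a3 : ‖s • (fld μ (u (t + T)) - fld μ (h (t + T)))‖ ≤ C₂ * d * (L * (C₂ * d)) := by
      rw [norm_smul, Real.norm_eq_abs]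
      refine mul_le_mul s1 ((hL.f1 μ gh.mu _ _ (hw _ w1).2.1 (hw _ w1).1.reg).trans ?_)
        (norm_nonneg _) (by positivity)
      exact mul_le_mul_of_nonneg_left (hw _ w1).2.2 (by linarith)
    have e : u (t + T + s) - h (t + T) - x (t + T) - s • fld μ (h (t + T)) =
        u (t + T + s) - u (t + T) - s • fld μ (u (t + T)) + (u (t + T) - h (t + T) - x (t + T)) +
          s • (fld μ (u (t + T)) - fld μ (h (t + T))) := by rw [smul_sub]; abel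
    have a4 : L ^ 2 * s ^ 2 ≤ L ^ 2 * (C₂ * d) ^ 2 := by gcongr
    rw [e, hB]
    refine norm_add₃_le.trans ?_
    linarith
  have wT : T ∈ Icc (-T₀) (T + T₀ + 1) := ⟨by linarith, by linarith⟩
  have wT' : T₀ + T ∈ Icc (-T₀) (T + T₀ + 1) := ⟨by linarith, by linarith⟩
  have q1 : |s - cz (h T) (x T)| ≤ B * d ^ 2 :=
    MP1_cz (μ := μ) (hw _ wT).1.reg z1 z3 v1 (by simpa using p2 0 le_rfl (by linarith))
  have kd : 0 ≤ ((1 + μ) / μ + L) * d ^ 2 := by positivity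
  refine ⟨(MP1_bb _ _ _ _).trans ((p1 _ ⟨le_rfl, by linarith⟩).trans ?_),
    (MP1_bb _ _ _ _).trans ?_, ?_⟩
  · gcongr
    linarith
  · have a1 := p2 T₀ (by linarith) le_rfl
    have a2 : ‖(s - cz (h T) (x T)) • fld μ (h (T₀ + T))‖ ≤ B * d ^ 2 * L := by
      rw [norm_smul, Real.norm_eq_abs]
      exact mul_le_mul q1 (hL.f0 μ gh.mu _ (hw _ wT').1.reg) (norm_nonneg _) (by positivity)
    have e : sh u (T + s) T₀ - sh h T T₀ - sh (sy μ h x T) T T₀ =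
        u (T₀ + T + s) - h (T₀ + T) - x (T₀ + T) - s • fld μ (h (T₀ + T)) +
          (s - cz (h T) (x T)) • fld μ (h (T₀ + T)) := by
      simp only [sh, sy, syn, ← add_assoc, sub_smul]; abel
    rw [e]
    refine (norm_add_le _ _).trans ?_
    linarith
  · rw [hx0]
    refine (MP1_en hL m gh.mu.2 (hw _ w0).1.reg (hw _ w0).2.1 hd hH.tail.H0).trans ?_
    exact mul_le_mul_of_nonneg_right (by linarith) (by positivity)

end Pool.Agent.P.MP_9ae58c_an.B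

end

section

/-! Step MP2. -/

namespace Pool.Agent.P.MP_9ae58c_an.B

open Set Filter Topology Complex

theorem MP2_bb (x y : ℝ → St) (t : ℝ) : ‖bb y t - bb x t‖ ≤ ‖y t - x t‖ := by
  rw [bb, bb, ← mul_sub, norm_mul, norm_ex, one_mul]
  exact n1 (y t - x t)

theorem MP2_dh {L μ d : ℝ} (hL : Lc L) (hμ : 0 < μ) (hμ' : μ ∈ Icc (0 : ℝ) 1) {p q : St}
    (hp : Reg p) (hq : Reg q) (hd : ‖p - q‖ ≤ d) (ξ : St) :
    |dh μ p ξ - dh μ q ξ| ≤ (2 * (1 + μ) / μ + L) * d * ‖ξ‖ := by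
  have e : dh μ p ξ - dh μ q ξ =
      2 * (1 + μ) / μ * ip ξ.1 (p - q).1 - (de μ p ξ - de μ q ξ) := by
    rw [dh, dh, Prod.fst_sub, ip_sub, ip_comm ξ.1, ip_comm ξ.1]; ring
  have d0 : 0 ≤ d := (norm_nonneg _).trans hd
  have l0 : 0 ≤ L := zero_le_one.trans hL.one
  have h1 : |ip ξ.1 (p - q).1| ≤ ‖ξ‖ * d :=
    (abs_ip_le _ _).trans (mul_le_mul (n1 ξ) ((n1 _).trans hd) (norm_nonneg _) (norm_nonneg _))
  have h2 : |de μ p ξ - de μ q ξ| ≤ L * d * ‖ξ‖ := (hL.e1 μ hμ' p q ξ hp hq).trans (by gcongr)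
  have h3 : 0 ≤ 2 * (1 + μ) / μ := by positivity
  have h4 : |2 * (1 + μ) / μ * ip ξ.1 (p - q).1| ≤ 2 * (1 + μ) / μ * (‖ξ‖ * d) := by
    rw [abs_mul, abs_of_nonneg h3]; gcongr
  rw [e]
  refine (abs_sub _ _).trans ?_
  linarith

theorem p_MP2 (hTAY : S_TAY) (hGRON : S_GRON) (hPERT : S_PERT) (hDIST : S_DIST) (hEXCF : S_EXCF) (hMP0 : S_MP0) :
    S_MP2 := by
  intro μ K₀ h T T₀ hH hT₀
  obtain ⟨L, hL⟩ := hTAY
  obtain ⟨P, P1, hP⟩ := hPERT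
  obtain ⟨D, D1, hD⟩ := hDIST
  obtain ⟨A, d₀, A1, d0, hA⟩ := hMP0 μ K₀ h T T₀ hH hT₀
  obtain ⟨η₀, tp₀, hE₀, -⟩ := hH.exc
  have gh : Glob μ h := hH.tail.gl
  have m := gh.pos
  obtain ⟨a1, a2, -, -, -, -, -, -, a3, -⟩ := hEXCF μ _ _ _ _ _ hE₀
  have T0 : 0 ≤ T := by linarith
  have sh0 : Sol μ h 0 T := by simpa using hE₀.sol.fp
  have rg : ∀ t ∈ Icc (-T₀) (T + T₀ + 1), Rg (h t) := fun t ht =>
    ((hA h 0 η₀ tp₀ T (by simp) d0.le hE₀).2.2.2 t ht).1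
  obtain ⟨X, X1, gr⟩ : ∃ X, 1 ≤ X ∧ Gr μ h (-T₀) (T + T₀ + 1) X :=
    ⟨_, Real.one_le_exp (mul_nonneg (zero_le_one.trans hL.one) (by linarith)),
      hGRON L hL μ gh.mu h _ _ fun t ht => (rg t ht).reg⟩
  have l0 : 0 ≤ L := zero_le_one.trans hL.one
  have X0 : 0 ≤ X := by linarith
  have P0 : 0 ≤ P := by linarith
  have D0 : 0 ≤ D := by linarith
  have A0 : 0 ≤ A := by linarith
  have k0 : 0 < (P + D) * X ^ 2 * A := by positivity
  have c1 : 0 ≤ P * X ^ 3 * A := by positivity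
  have c2 : 0 ≤ X * (D * X ^ 3 * A) + P * X ^ 3 * A * (D * X + X) := by positivity
  have c3 : 0 ≤ 2 * (1 + μ) / μ + L := by positivity
  have c4 : 0 ≤ D * X + X := by positivity
  refine ⟨1 + P * X ^ 3 * A + (X * (D * X ^ 3 * A) + P * X ^ 3 * A * (D * X + X)) +
    (2 * (1 + μ) / μ + L) + (D * X + X), min d₀ (1 / ((P + D) * X ^ 2 * A)), by linarith,
    lt_min d0 (by positivity), fun u x y d η tp T' hd hd' hE hx hy e0 => ?_⟩
  obtain ⟨b1, -, b3, b4⟩ := hA u d η tp T' hd (hd'.trans (min_le_left _ _)) hE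
  have dn : 0 ≤ d := (norm_nonneg _).trans hd
  have n0 := norm_nonneg (x 0)
  have dx : 0 ≤ d * ‖x 0‖ := mul_nonneg dn n0
  have k1 : (P + D) * X ^ 2 * A * d ≤ 1 := by
    have := hd'.trans (min_le_right _ _)
    rwa [le_div_iff₀ k0, mul_comm] at this
  have kP : P * X ^ 2 * (A * d) ≤ 1 := by
    have : 0 ≤ D * X ^ 2 * (A * d) := by positivity
    linarith
  have kD : D * X ^ 2 * (A * d) ≤ 1 := by
    have : 0 ≤ P * X ^ 2 * (A * d) := by positivity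
    linarith
  have hd1 : ‖u 0 - h 0‖ ≤ A * d := hd.trans (le_mul_of_one_le_left dn A1)
  have su : Sol μ u 0 T' := by simpa using hE.sol.fp
  have gu : Glob μ u := su.gl
  obtain ⟨f1, f2, -, -, -, -, -, -, f3, -⟩ := hEXCF μ _ _ _ _ _ hE
  have v1 : 1 ≤ |(h T).2.2| := by
    have : -(h T).2.2 ≤ -2 := a3
    exact le_trans (by linarith) (le_abs_self _)
  have v2 : 1 ≤ |(u T').2.2| := by
    have : -(u T').2.2 ≤ -2 := f3
    exact le_trans (by linarith) (le_abs_self _)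
  have z0 : (0 : ℝ) ∈ Icc (-T₀) (T + T₀ + 1) := ⟨by linarith, by linarith⟩
  have g1 := ((hP μ h u _ _ X _ 0 gh gu rg gr X1 z0 hd1 kP).2.2 x y hx hy (-T₀)
    ⟨le_rfl, by linarith⟩).2
  obtain ⟨-, g2, g3⟩ := hD μ h u x y T T' X _ sh0 su (gr.mono (by linarith) (by linarith) le_rfl) X1
    T0 (by linarith) b1 hd1 kD v1 v2 hx hy
  rw [e0, sub_self, norm_zero, mul_zero, zero_add] at g1 g3
  have g4 : D * X ^ 3 * (A * d) * ‖x 0‖ ≤ X * ‖x 0‖ := by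
    have : D * X ^ 3 * (A * d) = X * (D * X ^ 2 * (A * d)) := by ring
    rw [this]
    gcongr
    exact mul_le_of_le_one_right X0 kD
  have g5 : |cz (u T') (y T')| + ‖sy μ u y T' T'‖ ≤ (D * X + X) * ‖x 0‖ := by
    have i1 := abs_sub_abs_le_abs_sub (cz (u T') (y T')) (cz (h T) (x T))
    have i2 := norm_sub_norm_le (sy μ u y T' T') (sy μ h x T T)
    linarith
  have g6 := ((hP μ (sh h T) (sh u T') 0 T₀ X (A * d) 0 (gh.sh T) (gu.sh T')
    (fun t ht => rg (t + T) ⟨by linarith [ht.1], by linarith [ht.2]⟩)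
    ((gr.sh T).mono (by linarith) (by linarith) le_rfl) X1 ⟨le_rfl, by linarith⟩
    (by simpa [sh] using b3) kP).2.2 _ _ ((hx.sy gh T).sh T) ((hy.sy gu T').sh T') T₀
    ⟨by linarith, le_rfl⟩).2
  have e1 : sh (sy μ u y T') T' 0 = sy μ u y T' T' := by simp [sh]
  have e2 : sh (sy μ h x T) T 0 = sy μ h x T T := by simp [sh]
  rw [e1, e2] at g6
  have g7 : X * ‖sy μ u y T' T' - sy μ h x T T‖ ≤ X * (D * X ^ 3 * (A * d) * ‖x 0‖) :=
    mul_le_mul_of_nonneg_left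
      (by linarith [abs_nonneg (cz (u T') (y T') - cz (h T) (x T))]) X0
  have g8 : P * X ^ 3 * (A * d) * ‖sy μ u y T' T'‖ ≤
      P * X ^ 3 * (A * d) * ((D * X + X) * ‖x 0‖) :=
    mul_le_mul_of_nonneg_left (by linarith [abs_nonneg (cz (u T') (y T'))]) (by positivity)
  have g9 := MP2_dh hL m gh.mu (b4 0 z0).2.1 (rg 0 z0).reg hd (x 0)
  have j1 := mul_nonneg c1 dx
  have j2 := mul_nonneg c2 dx
  have j3 := mul_nonneg c3 dx
  have j4 := mul_nonneg c4 dx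
  refine ⟨(MP2_bb _ _ _).trans (g1.trans ?_), (MP2_bb _ _ _).trans (g6.trans ?_), ?_,
    g5.trans ?_⟩
  · linarith
  · linarith
  · rw [e0]
    linarith
  · exact mul_le_mul_of_nonneg_right (by linarith) n0

end Pool.Agent.P.MP_9ae58c_an.B

end

section

/-! Step TL. -/

namespace Pool.Agent.P.MP_9ae58c_an.B

open Set Filter Topology Complex

theorem p_TL (hUPT : S_UPT) (hTP2 : S_TP2) :
    S_TL := by
  intro K₀
  obtain ⟨C, C1, hC⟩ := hTP2 (K₀ + 3 * 10 ^ 5)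
  refine ⟨C, C1, fun μ h ε hμ hT ε0 => ⟨2 + 600 / (ε / 2) ^ 3, le_add_of_nonneg_right (by positivity),
    fun T₀ κ hT₀ κ1 => ?_⟩⟩
  have μ0 := hT.gl.pos
  have K0 : 0 ≤ K₀ * μ := by simpa using (norm_nonneg _).trans (hT.dec 0 le_rfl)
  have e0 : 0 < 600 / (ε / 2) ^ 3 := by positivity
  have T2 : 2 ≤ T₀ := by linarith
  refine ⟨min (min 1 (1 / T₀)) (min (1 / (2 * C * κ)) (ε / (2 * (K₀ * μ + 1)))), by positivity,
    fun l ρ l0 hl hρ => ?_⟩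
  simp only [le_min_iff] at hl
  obtain ⟨⟨l1, l2⟩, l3, l4⟩ := hl
  rw [le_div_iff₀ (by positivity)] at l2 l3 l4
  have p2 : l ^ 2 ≤ l := pow_le_of_le_one l0.le l1 (by norm_num)
  have p3 : l ^ 3 ≤ l := pow_le_of_le_one l0.le l1 (by norm_num)
  have p4 : l ^ 4 ≤ l := pow_le_of_le_one l0.le l1 (by norm_num)
  have hb : T₀ ≤ 1 / l ^ 3 := by
    rw [le_div_iff₀ (by positivity)]
    nlinarith
  have ρ0 : 0 < ρ := by rw [hρ]; positivity
  have ρ1 : 2 * C * ρ ≤ 1 := by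
    rw [hρ]
    nlinarith [mul_le_mul_of_nonneg_left p4 (show 0 ≤ 2 * C * κ by positivity)]
  have ρ2 : C * (2 * ρ ^ 2) ≤ ρ := by nlinarith
  refine ⟨hb, fun w D s hw hH hn hs D0 hD => ?_⟩
  have hd : ∀ t, 0 ≤ t → ‖(rev h 0 t).1‖ ≤ K₀ * μ / (1 + t) ^ 2 := fun t ht => by
    simpa [rev] using hT.dec t ht
  obtain ⟨a1, a2⟩ := hC μ w (rev h 0) (1 / l ^ 3) (2 * ρ ^ 2) hμ hw (hT.up _ (by linarith))
    (fun t ht => ⟨hn t ht, (hd t ht.1).trans (div_le_div₀ (by nlinarith) (by nlinarith)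
      (by linarith [ht.1]) (by nlinarith [ht.1]))⟩) (by simpa [rev, hT.H0] using hH) s hs
  refine ⟨(a1 0 ⟨le_rfl, by linarith⟩).trans (by linarith), ?_⟩
  have a3 := a2 T₀ (1 / l ^ 3) (by linarith) hb le_rfl
  have v0 := (hw.nonneg (t := T₀) ⟨by linarith, hb⟩).2
  have v1 : (w T₀).2.2 ≤ ε / 2 := by
    have b1 := (hUPT μ w 0 0 _ hw T₀ ⟨by linarith, hb⟩).2.1
    rw [zero_add, sub_zero] at b1
    have b2 : 600 ≤ (1 + T₀) * (ε / 2) ^ 3 := by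
      rw [← div_le_iff₀ (by positivity)]; linarith
    exact le_of_pow_le_pow_left₀ (n := 3) (by norm_num) (by positivity)
      (le_of_mul_le_mul_left (b1.trans b2) (by linarith))
  have a4 : C * (μ * ‖(w s).1 - (rev h 0 s).1‖ + 2 * ρ ^ 2) ≤ (D + 1) * ρ := by
    have := mul_le_mul hμ hD (norm_nonneg _) zero_le_one
    nlinarith
  have a5 : ‖bb (rev h 0) (1 / l ^ 3)‖ ≤ ε / 2 * ρ := by
    rw [norm_bb]
    refine (hd _ (by positivity)).trans ?_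
    have b1 : K₀ * μ / (1 + 1 / l ^ 3) ^ 2 ≤ K₀ * μ / (1 / l ^ 3) ^ 2 := by
      gcongr; linarith
    have b2 : K₀ * μ / (1 / l ^ 3) ^ 2 = K₀ * μ * l ^ 2 * l ^ 4 := by field_simp
    have b3 : K₀ * μ * l ^ 2 ≤ ε / 2 := by nlinarith
    have b4 : l ^ 4 ≤ ρ := by rw [hρ]; exact le_mul_of_one_le_left (by positivity) κ1
    rw [b2] at b1
    exact b1.trans (mul_le_mul b3 b4 (by positivity) (by positivity))
  have a6 := norm_add_le (bb w (1 / l ^ 3) - bb (rev h 0) (1 / l ^ 3) -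
    (bb w T₀ - bb (rev h 0) T₀)) (bb (rev h 0) (1 / l ^ 3))
  rw [show bb w (1 / l ^ 3) - bb (rev h 0) (1 / l ^ 3) - (bb w T₀ - bb (rev h 0) T₀) +
    bb (rev h 0) (1 / l ^ 3) = bb w (1 / l ^ 3) - (bb w T₀ - bb (rev h 0) T₀) by ring] at a6
  have a7 := mul_le_mul a4 v1 v0 (by positivity)
  nlinarith [mul_nonneg (mul_nonneg ε0.le D0) ρ0.le]

end Pool.Agent.P.MP_9ae58c_an.B

end
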