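import Pool.Agent.P.MP_9ae58c_an.B.IfB

section

/-! Step PN. -/

namespace Pool.Agent.P.MP_9ae58c_an.B

open Set Filter Topology Complex

theorem PN_nb (u w : ℝ → St) (t : ℝ) : ‖bb u t - bb w t‖ = ‖(u t).1 - (w t).1‖ := by
  rw [bb, bb, ← mul_sub, norm_mul, norm_ex, one_mul]

theorem PN_cj (a b : ℂ) : ‖(starRingEnd ℂ) a - (starRingEnd ℂ) b‖ = ‖a - b‖ := by
  rw [← map_sub, RCLike.norm_conj]

theorem PN_sym {μ K₀ T : ℝ} {h : ℝ → St} (H : Hom μ K₀ h T) : sh h T = rev h 0 := by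
  have := sh_rev h T T
  rwa [H.sym, sub_self] at this

theorem PN_K0 {μ K₀ : ℝ} {h : ℝ → St} (H : Tail μ K₀ h) : 0 ≤ K₀ := by
  have h1 := (norm_nonneg _).trans (H.dec 0 le_rfl)
  have h2 := H.gl.pos
  by_contra e
  have := mul_neg_of_neg_of_pos (not_le.1 e) h2
  simp only [add_zero, one_pow, div_one] at h1
  linarith

/-- elementary bounds at the scale `l` -/
theorem PN_sc {l κ ρ : ℝ} (l0 : 0 < l) (l1 : l ≤ 1) (k1 : 1 ≤ κ) (e : ρ = κ * l ^ 4) :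
    0 < ρ ∧ ρ ≤ κ * l ∧ ρ * (1 + 1 / l ^ 3) ≤ 2 * (κ * l) ∧ l / (1 + 1 / l ^ 3) ^ 2 ≤ l ^ 2 * ρ := by
  have a1 : l ^ 3 ≤ 1 := pow_le_one₀ l0.le l1
  have a2 : 0 < κ * l := by positivity
  have a3 : ρ = κ * l * l ^ 3 := by rw [e]; ring
  have a4 : ρ ≤ κ * l := by rw [a3]; nlinarith
  have a5 : ρ * (1 / l ^ 3) = κ * l := by rw [a3]; field_simp
  refine ⟨by rw [e]; positivity, a4, by linarith, ?_⟩
  have a6 : l / (1 + 1 / l ^ 3) ^ 2 ≤ l / (1 / l ^ 3) ^ 2 := by gcongr; linarith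
  have a7 : l / (1 / l ^ 3) ^ 2 = l * l ^ 6 := by field_simp
  have a8 : l ^ 2 * ρ = κ * l ^ 6 := by rw [e]; ring
  have a9 : 0 < l ^ 6 := by positivity
  rw [a8]
  nlinarith

/-- the incoming tail -/
theorem PN_in (hTAILA : S_TAILA) {μ K₀ θ ρ : ℝ} {h u : ℝ → St} (H : Tail μ K₀ h)
    (hu : Up μ (rev u 0) 0 0 θ) (hb : ‖bb u (-θ)‖ ≤ 2 * ρ) (s1 : ρ * (1 + θ) ≤ μ)
    (s2 : K₀ * μ / (1 + θ) ^ 2 ≤ ρ) :
    (∀ t ∈ Icc 0 θ, ‖(rev u 0 t).1‖ ≤ (K₀ + 3 * 10 ^ 5) * μ / (1 + t)) ∧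
      ‖(rev u 0 θ).1 - (rev h 0 θ).1‖ ≤ 3 * ρ := by
  have m := H.gl.pos
  have k0 := PN_K0 H
  have b0 : ‖bb (rev u 0) θ‖ ≤ 2 * ρ := by rwa [bb_rev0, RCLike.norm_conj]
  have r0 : 0 ≤ ρ := by linarith [norm_nonneg (bb u (-θ))]
  refine ⟨fun t ht => ?_, ?_⟩
  · have a1 := hTAILA μ _ 0 0 θ hu t θ ht.1 ht.2 le_rfl
    have a2 := norm_le_insert (bb (rev u 0) θ) (bb (rev u 0) t)
    have t0 : 0 < 1 + t := by linarith [ht.1]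
    rw [sub_zero] at a1
    rw [← norm_bb]
    have a3 : 2 * ρ ≤ (K₀ + 10 ^ 5) * μ / (1 + t) := by
      rw [le_div_iff₀ t0]
      nlinarith [mul_le_mul_of_nonneg_left ht.2 r0, mul_nonneg k0 m.le]
    have a4 : (K₀ + 3 * 10 ^ 5) * μ / (1 + t) =
        (K₀ + 10 ^ 5) * μ / (1 + t) + 2 * 10 ^ 5 * μ / (1 + t) := by ring
    linarith
  · have a1 := H.dec θ hu.le
    have a2 : ‖(rev h 0 θ).1‖ = ‖(h (-θ)).1‖ := by simp [rev]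
    have a3 := norm_sub_le (rev u 0 θ).1 (rev h 0 θ).1
    rw [norm_bb] at b0
    linarith

/-- the point of arrival is close to the one of the homoclinic orbit -/
theorem PN_close {μ K₀ θ ρ : ℝ} {h u : ℝ → St} (H : Tail μ K₀ h) (hu : Up μ (rev u 0) 0 0 θ)
    (hH : |Hh μ (u 0)| ≤ 2 * ρ ^ 2) (r0 : 0 < ρ) (s1 : 200 * ρ ≤ μ)
    (h7 : ‖(rev u 0 0).1 - (rev h 0 0).1‖ ≤ (2 * 3 + 1) * ρ) :
    ‖u 0 - h 0‖ ≤ 200 * ρ ∧ (u 0 - h 0).2.1 = 0 := by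
  have m := H.gl.pos
  have hh := H.up 2 le_rfl
  have e : ∀ w : ℝ → St, rev w 0 0 = Rv (w 0) := fun w => by simp [rev]
  have a1 : Adm μ (u 0) := adm_Rv.1 (e u ▸ hu.sol.adm 0 ⟨le_rfl, hu.le⟩)
  have a2 : Adm μ (h 0) := adm_Rv.1 (e h ▸ hh.sol.adm 0 ⟨le_rfl, hh.le⟩)
  have z1 := hu.z0
  have z2 := hh.z0
  have v1 := hu.v0
  have v2 := hh.v0
  rw [e] at z1 z2 v1 v2
  rw [e, e, Rv_1, Rv_1, PN_cj] at h7
  simp only [Rv_2, Rv_3] at z1 z2 v1 v2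
  have a3 := a1.cross_close a2 z1 z2 (by nlinarith)
  rw [H.H0, sub_zero] at a3
  have a4 : |Hh μ (u 0)| / μ ≤ ρ / 10 := by
    rw [div_le_iff₀ m]
    nlinarith
  exact ⟨by linarith, by simp [z1, z2]⟩

/-- the bookkeeping of the amplitudes through the linearised passage -/
theorem PN_lin {K G ρ ε : ℝ} {m ω n β b₁ d₁ d₂ b₂ : ℂ} (S : Shr K m ω n) (KG : K ≤ G) (r0 : 0 < ρ)
    (e : ε = 1 / (10 ^ 5 * G)) (h0 : ‖β‖ ≤ 2 * ρ) (h1 : ‖β - b₁‖ ≤ ε * (3 + 1) * ρ)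
    (h2 : ‖b₁ - d₁‖ ≤ ε * ρ) (h3 : ‖d₂ - shr K m ω n d₁‖ ≤ ‖d₁‖ / 10 ^ 4 + ρ / 10 ^ 5)
    (h4 : ‖b₂ - d₂‖ ≤ ε * ρ) :
    ‖b₂‖ ≤ 4 * G * ρ ∧ ∀ γ, ‖γ - b₂‖ ≤ ε * (4 * G + 1) * ρ →
      ‖γ - shr K m ω n β‖ ≤ 5 * ρ / 10 ^ 4 := by
  have K1 := S.K1
  have g0 : 0 < G := by linarith
  have e1 : ε * G = 1 / 10 ^ 5 := by rw [e]; field_simp
  have e0 : 0 < ε := by rw [e]; positivity
  have e2 : ε ≤ 1 / 10 ^ 5 := by nlinarith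
  have e3 : ε * ρ ≤ ρ / 10 ^ 5 := by nlinarith
  have e4 : 0 < ε * ρ := by positivity
  have a1 : ‖d₁ - β‖ ≤ 5 * (ε * ρ) := by
    have := norm_sub_le_norm_sub_add_norm_sub β b₁ d₁
    rw [norm_sub_rev d₁]
    linarith
  have a2 : ‖d₁‖ ≤ 2.1 * ρ := by
    have := norm_le_insert' d₁ β
    linarith
  have a3 : ‖shr K m ω n d₁ - shr K m ω n β‖ ≤ 5.005 * ρ / 10 ^ 5 := by
    rw [← shr_sub]
    refine (S.norm_le _).trans ?_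
    have : 1.001 * K * ‖d₁ - β‖ ≤ 1.001 * G * (5 * (ε * ρ)) := by gcongr
    have e5 : 1.001 * G * (5 * (ε * ρ)) = 5.005 * (ε * G) * ρ := by ring
    rw [e5, e1] at this
    linarith
  have a4 : ‖shr K m ω n d₁‖ ≤ 1.001 * G * (2.1 * ρ) := (S.norm_le _).trans (by gcongr)
  have a5 : ρ ≤ G * ρ := by nlinarith
  refine ⟨?_, fun γ h5 => ?_⟩
  · have := norm_le_insert' b₂ d₂
    have := norm_le_insert' d₂ (shr K m ω n d₁)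
    linarith
  · have := norm_sub_le_norm_sub_add_norm_sub γ b₂ (shr K m ω n β)
    have := norm_sub_le_norm_sub_add_norm_sub b₂ d₂ (shr K m ω n β)
    have := norm_sub_le_norm_sub_add_norm_sub d₂ (shr K m ω n d₁) (shr K m ω n β)
    have e5 : ε * (4 * G + 1) * ρ = 4 * (ε * G) * ρ + ε * ρ := by ring
    rw [e5, e1] at h5
    linarith

theorem p_PN (hVEX : S_VEX) (hTAILA : S_TAILA) (hMIDS : S_MIDS) (hOUT : S_OUT) (hEXCF : S_EXCF) (hMP0 : S_MP0) (hMP1 : S_MP1) (hTL : S_TL) :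
    S_PN := by
  intro K₀
  obtain ⟨C₁, c1, hTL⟩ := hTL K₀
  obtain ⟨C₂, c2, hOUT⟩ := hOUT K₀
  refine ⟨C₁ + C₂, by linarith, fun μ h T G hμ H G1 => ?_⟩
  have m0 := H.tail.gl.pos
  have m1 := H.tail.gl.le
  have k0 := PN_K0 H.tail
  have m2 : C₁ * μ ≤ 1 ∧ C₂ * μ ≤ 1 := by constructor <;> nlinarith only [hμ, c1, c2, m0]
  obtain ⟨ε, eε⟩ : ∃ ε : ℝ, ε = 1 / (10 ^ 5 * G) := ⟨_, rfl⟩
  have e0 : 0 < ε := by rw [eε]; positivity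
  have e1 : ε * G = 1 / 10 ^ 5 := by rw [eε]; field_simp
  obtain ⟨T₁, t1, hTL⟩ := hTL μ h ε m2.1 H.tail e0
  refine ⟨T₁, t1, fun T₀ K m ω n κ t0 hL k1 => ?_⟩
  have t2 : 2 ≤ T₀ := t1.trans t0
  obtain ⟨l₁, l1, hTL⟩ := hTL T₀ κ t0 k1
  obtain ⟨C, d₀, c3, d0, hMP0⟩ := hMP0 μ K₀ h T T₀ H t2
  obtain ⟨C', d₁, c4, d1, hMP1⟩ := hMP1 μ K₀ h T T₀ H t2
  obtain ⟨σ, σ0, s1, s2, s3, s4, s5⟩ : ∃ σ : ℝ, 0 < σ ∧ σ ≤ μ / 200 ∧ σ ≤ d₀ / 200 ∧ σ ≤ d₁ / 200 ∧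
      σ ≤ ε / (40002 * C') ∧ σ ≤ μ / (2 * C₂ * (200 * C + 2)) := by
    refine ⟨min (μ / 200) (min (d₀ / 200) (min (d₁ / 200) (min (ε / (40002 * C'))
      (μ / (2 * C₂ * (200 * C + 2)))))), by positivity, ?_, ?_, ?_, ?_, ?_⟩ <;> simp
  refine ⟨min l₁ (min 1 (min (1 / (K₀ * μ + 1)) (σ / κ))), by positivity,
    fun l ρ l0 hl eρ u hu hH hb => ?_⟩
  simp only [le_min_iff] at hl
  obtain ⟨q1, q2, q3, q4⟩ := hl
  obtain ⟨r0, r1, r2, r3⟩ := PN_sc l0 q2 k1 eρ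
  obtain ⟨tθ, hTL⟩ := hTL l ρ l0 q1 eρ
  generalize 1 / l ^ 3 = θ at *
  rw [le_div_iff₀' (by positivity)] at q4 s4 s5
  rw [le_div_iff₀ (by positivity)] at q3
  have r4 : ρ ≤ σ := r1.trans q4
  have r5 : ρ * (1 + θ) ≤ 2 * σ := by linarith only [r2, q4]
  have r6 : K₀ * μ / (1 + θ) ^ 2 ≤ ρ := by
    have b1 : l * (K₀ * μ / (1 + θ) ^ 2) = K₀ * μ * (l / (1 + θ) ^ 2) := by ring
    have b2 : K₀ * μ * (l / (1 + θ) ^ 2) ≤ K₀ * μ * (l ^ 2 * ρ) := by gcongr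
    have b3 : K₀ * μ * (l ^ 2 * ρ) = l * (K₀ * μ) * (l * ρ) := by ring
    have b4 : l * (K₀ * μ) * (l * ρ) ≤ 1 * (l * ρ) := by gcongr; linarith only [q3, l0]
    exact le_of_mul_le_mul_left (by linarith only [b1, b2, b3, b4]) l0
  have r7 : 40002 * C' * ρ ≤ ε := le_trans (by gcongr) s4
  have r8 : C' * (200 * ρ) ^ 2 ≤ ε * ρ := by
    have : 0 ≤ C' * ρ * ρ := by positivity
    nlinarith only [this, mul_le_mul_of_nonneg_right r7 r0.le]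
  have r9 : 200 * ρ ≤ μ := by linarith only [r4, s1]
  have r10 : 2 * ρ ^ 2 ≤ μ ^ 2 / 1000 := by nlinarith only [r9, r0]
  have r11 : C * (200 * ρ) + 2 * ρ ^ 2 ≤ (200 * C + 2) * ρ := by nlinarith only [r9, r0, m1]
  have θ0 : 0 ≤ θ := hu.le
  have gu : Glob μ u := by simpa using hu.sol.gl.rev 0
  -- the incoming tail
  obtain ⟨i1, i2⟩ := PN_in hTAILA H.tail hu hb (by linarith only [r5, s1, m0]) r6
  obtain ⟨i3, i4⟩ := hTL (rev u 0) 3 θ hu (by simpa [rev] using hH) i1 ⟨θ0, le_rfl⟩ (by norm_num) i2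
  obtain ⟨i5, i6⟩ := PN_close H.tail hu hH r0 r9 i3
  rw [bb_rev0, bb_rev0, bb_rev0, ← map_sub, PN_cj] at i4
  -- the passage
  obtain ⟨η, tp, T', hE, η1, -, -, n57⟩ := hMIDS μ u 0 θ hu
    (by rw [norm_bb] at hb; linarith only [hb, r9]) (hH.trans r10)
  obtain ⟨p1, p2, p3, -⟩ := hMP0 u (200 * ρ) η tp T' i5 (by linarith only [r4, s2]) hE
  obtain ⟨x, hx, x0⟩ := hVEX μ h H.tail.gl 0 (u 0 - h 0)
  obtain ⟨p4, p5, p6⟩ := hMP1 u x (200 * ρ) η tp T' i5 (by linarith only [r4, s3]) hE hx x0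
  obtain ⟨S, KG, hL⟩ := hL
  have p7 := hL x hx (x0 ▸ i6)
  have p8 : G * |dh μ (h 0) (x 0)| ≤ ρ / 10 ^ 5 := by
    have b1 : |dh μ (h 0) (x 0)| ≤ C' * (2 * ρ ^ 2 + (200 * ρ) ^ 2) := p6.trans (by gcongr)
    have b2 : C' * (2 * ρ ^ 2 + (200 * ρ) ^ 2) = 40002 * C' * ρ * ρ := by ring
    have b3 : G * |dh μ (h 0) (x 0)| ≤ G * (ε * ρ) := by
      gcongr
      exact b1.trans (b2 ▸ mul_le_mul_of_nonneg_right r7 r0.le)
    have b4 : G * (ε * ρ) = ε * G * ρ := by ring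
    rw [b4, e1] at b3
    linarith only [b3]
  rw [PN_sym H] at p5
  obtain ⟨p9, p10⟩ := PN_lin S KG r0 eε hb i4 (p4.trans r8) (p7.trans (by linarith only [p8]))
    (p5.trans r8)
  -- the outgoing tail
  obtain ⟨f1, f2, -, -, -, -, -, f3, f4, -⟩ := hEXCF μ _ η 0 tp T' hE
  simp only [fp, Fp_2, Fp_3, neg_eq_zero] at f3 f4
  have e2 : sh u T' 0 = u T' := by simp [sh]
  have e3 : rev h 0 0 = h T := by rw [← PN_sym H]; simp [sh]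
  have e4 : Hh μ (u T') = Hh μ (u 0) := by
    have : Sol μ u 0 T' := by simpa using hE.sol.fp
    have b1 : 0 ≤ T' := by linarith only [f1, f2]
    exact gu.Hh_eq this.reg ⟨b1, le_rfl⟩ ⟨le_rfl, b1⟩
  obtain ⟨o1, o2⟩ := hOUT μ (sh u T') h θ (C * (200 * ρ)) (2 * ρ ^ 2) m2.2 H.tail
    (gu.sh T') (e2 ▸ f3) (by rw [e2]; linarith only [f4]) (by rw [e2]; linarith only [n57, m0])
    (by rwa [e2, e4]) (by linarith only [r10, sq_nonneg μ])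
    (by rw [e2, e3]; exact (n1 (u T' - h T)).trans p3) (t2.trans tθ) (by
      have b2 : C₂ * (C * (200 * ρ) + 2 * ρ ^ 2) * (1 + θ) ≤ C₂ * ((200 * C + 2) * ρ) * (1 + θ) := by
        gcongr
      have b3 : C₂ * (200 * C + 2) * (ρ * (1 + θ)) ≤ C₂ * (200 * C + 2) * (2 * σ) := by gcongr
      linarith only [b2, b3, s5])
  obtain ⟨-, o3⟩ := hTL (sh u T') (4 * G) T₀ o1 (by rwa [e2, e4])
    (fun t ht => (o2 t ht).trans (by gcongr <;> linarith only [ht.1])) ⟨by linarith only [t2], tθ⟩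
    (by positivity) (by rwa [← PN_nb])
  exact ⟨i5, η, tp, T', hE, η1, by linarith only [(abs_le.1 p1).2, p2], n57, o1, p10 _ o3⟩

end Pool.Agent.P.MP_9ae58c_an.B

end

section

/-! Step PV. -/

namespace Pool.Agent.P.MP_9ae58c_an.B

open Set Filter Topology Complex

theorem PV_up (hUPT : S_UPT) {μ C θ T₀ ε : ℝ} {w y : ℝ → St} (hC : C * μ ≤ 1 / 10) (C1 : 1 ≤ C)
    (U : Up μ w 0 0 θ) (e0 : 0 < ε) (t0 : 0 ≤ T₀) (t1 : T₀ ≤ θ) (hT : 600 ≤ (1 + T₀) * ε ^ 3)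
    (h : ∀ t t', 0 ≤ t → t ≤ t' → t' ≤ θ →
      ‖bb y t' - bb y t‖ ≤ C * μ * (0 + (w t).2.2) * nn μ (w 0) (y 0)) :
    (∀ t ∈ Icc 0 θ, nn μ (w 0) (y 0) ≤ 2 * (‖bb y t‖ + |dh μ (w 0) (y 0)|)) ∧
      ‖bb y θ - bb y T₀‖ ≤ ε * nn μ (w 0) (y 0) := by
  have m := U.sol.gl.pos
  have N0 : 0 ≤ nn μ (w 0) (y 0) := by unfold nn; positivity
  have c0 : 0 ≤ C * μ := by positivity
  refine ⟨fun t ht => ?_, (h T₀ θ t0 t1 le_rfl).trans ?_⟩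
  · have h1 := h 0 t le_rfl ht.1 ht.2
    have v := (abs_le.1 (U.sol.adm 0 ⟨le_rfl, U.le⟩).v).2
    have v0 := U.v0
    have h2 : C * μ * (0 + (w 0).2.2) ≤ 1 / 10 * 5 := by gcongr; linarith
    have h3 := mul_le_mul_of_nonneg_right h2 N0
    have h4 := norm_le_insert (bb y t) (bb y 0)
    rw [bb_zero] at h1 h4
    have h5 : nn μ (w 0) (y 0) = ‖(y 0).1‖ + |dh μ (w 0) (y 0)| := rfl
    linarith
  · have h1 := (hUPT μ w 0 0 θ U T₀ ⟨t0, t1⟩).2.1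
    have v0 := (U.nonneg ⟨t0, t1⟩).2
    rw [sub_zero] at h1
    have h2 : (0 + (w T₀).2.2) ^ 3 ≤ ε ^ 3 :=
      le_of_mul_le_mul_left (h1.trans hT) (by linarith)
    have h3 : 0 + (w T₀).2.2 ≤ ε := le_of_pow_le_pow_left₀ (by norm_num) e0.le h2
    have h4 : C * μ * (0 + (w T₀).2.2) ≤ 1 * ε := by gcongr; linarith
    gcongr
    linarith

theorem PV_alg {K G ε N N' H H' : ℝ} {m ω n din x0 d1 d2 D2 dout : ℂ} (hs : Shr K m ω n)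
    (hK : K ≤ G) (G1 : 1 ≤ G) (e0 : 0 < ε) (e1 : 16 * 10 ^ 4 * G * ε = 1) (H0 : 0 ≤ H)
    (N0 : 0 ≤ N) (n1 : N ≤ 2 * (‖din‖ + H)) (a1 : ‖din - x0‖ ≤ ε * N) (a2 : ‖x0 - d1‖ ≤ ε * N)
    (a3 : ‖D2 - d2‖ ≤ ε * N) (a4 : H' ≤ H + ε * N)
    (a5 : ‖d2 - shr K m ω n d1‖ ≤ ‖d1‖ / 10 ^ 4 + G * H') (n2 : N' ≤ 2 * (‖D2‖ + H))
    (a6 : ‖dout - D2‖ ≤ ε * N') :
    ‖dout - shr K m ω n din‖ ≤ 2 * ‖din‖ / 10 ^ 4 + (G + 1) * H := by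
  have i0 := norm_nonneg din
  have b1 : ‖d1 - din‖ ≤ 2 * (ε * N) := by
    have := norm_sub_le_norm_sub_add_norm_sub din x0 d1
    rw [norm_sub_rev]
    linarith
  have b2 : ‖d1‖ ≤ ‖din‖ + 2 * (ε * N) := by linarith [norm_le_insert' d1 din]
  have b3 : ‖shr K m ω n d1 - shr K m ω n din‖ ≤ 1.001 * G * (2 * (ε * N)) := by
    rw [← shr_sub]
    refine (hs.norm_le _).trans ?_
    gcongr
  have b4 : ‖shr K m ω n din‖ ≤ 1.001 * G * ‖din‖ := (hs.norm_le _).trans (by gcongr)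
  have c0 : 0 ≤ ε * N := by positivity
  have c1 : ε * N ≤ G * (ε * N) := le_mul_of_one_le_left c0 G1
  have c2 : G * H' ≤ G * (H + ε * N) := by gcongr
  have c3 : G * (ε * N) ≤ 2 * (‖din‖ + H) / (16 * 10 ^ 4) := by
    have : G * ε = 1 / (16 * 10 ^ 4) := by linarith
    rw [← mul_assoc, this]
    linarith
  have b5 : ‖D2 - shr K m ω n din‖ ≤ ‖din‖ / 10 ^ 4 + G * H + 5 * (G * (ε * N)) := by
    have h1 := norm_sub_le_norm_sub_add_norm_sub D2 d2 (shr K m ω n din)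
    have h2 := norm_sub_le_norm_sub_add_norm_sub d2 (shr K m ω n d1) (shr K m ω n din)
    linarith
  have c4 : ‖din‖ ≤ G * ‖din‖ := le_mul_of_one_le_left i0 G1
  have c5 : H ≤ G * H := le_mul_of_one_le_left H0 G1
  have b6 : N' ≤ 6 * (G * (‖din‖ + H)) := by
    have := norm_le_insert' D2 (shr K m ω n din)
    linarith
  have b7 : ε * N' ≤ 6 * (‖din‖ + H) / (16 * 10 ^ 4) := by
    have h1 : G * ε = 1 / (16 * 10 ^ 4) := by linarith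
    have h2 : ε * N' ≤ ε * (6 * (G * (‖din‖ + H))) := by gcongr
    have h3 : ε * (6 * (G * (‖din‖ + H))) = G * ε * (6 * (‖din‖ + H)) := by ring
    rw [h3, h1] at h2
    linarith
  have := norm_sub_le_norm_sub_add_norm_sub dout D2 (shr K m ω n din)
  linarith

theorem p_PV (hVEX : S_VEX) (hUPT : S_UPT) (hUPV : S_UPV) (hEXCF : S_EXCF) (hMP2 : S_MP2) :
    S_PV := by
  obtain ⟨CU, hCU, hU⟩ := hUPV
  refine ⟨10 * CU, by linarith, fun μ K₀ h T G hC hh G1 => ?_⟩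
  obtain ⟨ε, e0, e1⟩ : ∃ ε : ℝ, 0 < ε ∧ 16 * 10 ^ 4 * G * ε = 1 :=
    ⟨1 / (16 * 10 ^ 4 * G), by positivity, by field_simp⟩
  have p0 : 0 < 600 / ε ^ 3 := by positivity
  refine ⟨600 / ε ^ 3 + 2, by linarith, fun T₀ K m ω n hT hL => ?_⟩
  have t2 : 2 ≤ T₀ := by linarith
  have hT' : 600 ≤ (1 + T₀) * ε ^ 3 := by
    rw [← div_le_iff₀ (by positivity)]
    linarith
  obtain ⟨C₁, d₁, hC₁, hd₁, hM⟩ := hMP2 μ K₀ h T T₀ hh t2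
  refine ⟨C₁ + G + 1, min d₁ (ε / (28 * C₁)), by linarith, by positivity,
    fun u θ η tp T' hθ U1 hd hE U2 x hx z0 => ?_⟩
  have S : Sol μ u 0 T' := by simpa using hE.sol.fp
  have m0 := S.gl.pos
  have T0 : 0 ≤ T' := by linarith [hE.up.le, hE.dn.le]
  have c1 : CU * μ ≤ 1 / 10 := by linarith
  have c2 : CU * μ ≤ 1 := by linarith
  obtain ⟨ξ, hξ, e⟩ := hVEX μ h hh.tail.gl 0 (x 0)
  obtain ⟨m1, m2, m3, m4⟩ := hM u ξ x _ η tp T' hd (min_le_left _ _) hE hξ hx e.symm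
  rw [e] at m1 m2 m3 m4
  refine ⟨m4.trans (by gcongr; linarith), ?_⟩
  obtain ⟨i1, i2⟩ := PV_up hUPT c1 hCU U1 e0 (by linarith) hθ hT'
    (hU μ _ _ 0 θ c2 U1 (hx.rev 0) (by simpa [rev] using z0)).1
  replace i1 := i1 θ ⟨U1.le, le_rfl⟩
  have r1 : nn μ (rev u 0 0) (rev x 0 0) = nn μ (u 0) (x 0) := by simp [rev]
  have r2 : dh μ (rev u 0 0) (rev x 0 0) = dh μ (u 0) (x 0) := by simp [rev]
  rw [r1, r2, bb_rev0, RCLike.norm_conj] at i1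
  rw [r1, bb_rev0, bb_rev0, ← map_sub, RCLike.norm_conj] at i2
  have N0 : 0 ≤ nn μ (u 0) (x 0) := by unfold nn; positivity
  have x0 : ‖x 0‖ ≤ 28 * nn μ (u 0) (x 0) :=
    (S.adm 0 ⟨le_rfl, T0⟩).le_nn (by simpa [rev] using U1.z0) z0
  have k : C₁ * min d₁ (ε / (28 * C₁)) * ‖x 0‖ ≤ ε * nn μ (u 0) (x 0) := by
    have h1 : C₁ * min d₁ (ε / (28 * C₁)) * ‖x 0‖ ≤
        C₁ * (ε / (28 * C₁)) * (28 * nn μ (u 0) (x 0)) := by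
      gcongr
      exact min_le_right _ _
    refine h1.trans_eq ?_
    field_simp
  have RT := S.reg T' ⟨T0, le_rfl⟩
  have vT : (u T').2.2 ≠ 0 := by
    have := U2.v0
    simp only [sh, zero_add] at this
    linarith
  obtain ⟨j1, j2⟩ := PV_up hUPT c1 hCU U2 e0 (by linarith) hθ hT'
    (hU μ _ _ 0 θ c2 U2 ((hx.sy S.gl T').sh T') (by simpa [sh] using sy_z RT vT)).1
  replace j1 := j1 T₀ ⟨by linarith, hθ⟩
  have r3 : dh μ (sh u T' 0) (sh (sy μ u x T') T' 0) = dh μ (u 0) (x 0) := by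
    simp only [sh, zero_add, sy]
    rw [dh_syn m0, hx.dh_eq S.gl S.reg ⟨T0, le_rfl⟩ ⟨le_rfl, T0⟩]
  rw [r3] at j1
  have l := hL.2.2 ξ hξ (e ▸ z0)
  rw [e] at l
  refine (PV_alg hL.1 hL.2.1 G1 e0 e1 (abs_nonneg _) N0 i1 i2 (m1.trans k) (m2.trans k) ?_ l j1
    j2).trans ?_
  · have := abs_sub_abs_le_abs_sub (dh μ (h 0) (x 0)) (dh μ (u 0) (x 0))
    rw [abs_sub_comm] at this
    linarith [m3.trans k]
  · gcongr
    linarith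

end Pool.Agent.P.MP_9ae58c_an.B

end

section

/-! Step PASS. -/

namespace Pool.Agent.P.MP_9ae58c_an.B

open Set Filter Topology Complex

theorem PASS_mono {a b μ : ℝ} (h1 : 1 ≤ a) (h2 : a ≤ b) (h : b * μ ≤ 1) : a * μ ≤ 1 := by
  rcases le_total 0 μ with m | m <;> nlinarith

theorem p_PASS (hMIDL : S_MIDL) (hPN : S_PN) (hPV : S_PV) :
    S_PASS := by
  intro K₀
  obtain ⟨C₁, c1, H1⟩ := hMIDL
  obtain ⟨C₂, c2, H2⟩ := hPN K₀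
  obtain ⟨C₃, c3, H3⟩ := hPV
  refine ⟨C₁ + C₂ + C₃, by linarith, fun μ h T hμ hh => ?_⟩
  obtain ⟨G, ω, g1, L⟩ := H1 μ K₀ h T (PASS_mono c1 (by linarith) hμ) hh
  obtain ⟨T₂, t2, P2⟩ := H2 μ h T G (PASS_mono c2 (by linarith) hμ) hh g1
  obtain ⟨T₃, t3, P3⟩ := H3 μ K₀ h T G (PASS_mono c3 (by linarith) hμ) hh g1
  obtain ⟨K, m, n, L⟩ := L (T₂ + T₃) (by linarith)
  obtain ⟨C, d₀, c0, d0, P3⟩ := P3 _ K m ω n (by linarith) L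
  refine ⟨K, max C (T + 1), m, ω, n, L.1, le_max_of_le_left c0, fun κ hκ => ?_⟩
  obtain ⟨l₀, l0, P2⟩ := P2 _ K m ω n κ (by linarith) L hκ
  have k0 : 0 < κ := by linarith
  have s0 : 0 < T₂ + T₃ := by linarith
  refine ⟨min l₀ (min (d₀ / (200 * κ)) (1 / (T₂ + T₃))), by positivity, fun l hl hl' => ?_⟩
  obtain ⟨a1, a2, a3⟩ : l ≤ l₀ ∧ l ≤ d₀ / (200 * κ) ∧ l ≤ 1 / (T₂ + T₃) := by simpa using hl'
  rw [le_div_iff₀ (by positivity)] at a2 a3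
  have l1 : l ≤ 1 := by nlinarith
  have l3 : l ^ 3 ≤ l := by simpa using pow_le_pow_of_le_one hl.le l1 (show 1 ≤ 3 by norm_num)
  have l4 : l ^ 4 ≤ l := by simpa using pow_le_pow_of_le_one hl.le l1 (show 1 ≤ 4 by norm_num)
  intro u u1 u2 u3
  obtain ⟨b0, η, tp, T', b1, b2, b3, b4, b5, b6⟩ := P2 l _ hl a1 rfl u u1 u2 u3
  refine ⟨η, tp, T', b1, b2, le_max_of_le_right b3, b4, b5, b6, fun x x1 x2 => ?_⟩
  obtain ⟨e1, e2⟩ := P3 u (1 / l ^ 3) η tp T'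
    (by rw [le_div_iff₀ (by positivity)]; nlinarith) u1 (b0.trans (by nlinarith)) b1 b5 x x1 x2
  exact ⟨e1.trans (by gcongr; exact le_max_left _ _), e2.trans (by gcongr; exact le_max_left _ _)⟩

end Pool.Agent.P.MP_9ae58c_an.B

end
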