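import Pool.Agent.P.MP_9ae58c_an.B.IfB

section

/-! Step DOWN. -/

namespace Pool.Agent.P.MP_9ae58c_an.B

open Set Filter Topology Complex

theorem p_DOWN (hMKUP : S_MKUP) (hUPT : S_UPT) (hADI : S_ADI) :
    S_DOWN := by
  intro μ κ hμ hκ
  obtain ⟨C, hC, hA⟩ := hADI
  refine ⟨min (1 / 2) (min (1 / C) (μ / (760 * κ ^ 2))), by positivity,
    fun l ρ hl hl0 hρ w η tp hU hv hη ha hH => ?_⟩
  have l1 : l ≤ 1 / 2 := hl0.trans (min_le_left _ _)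
  have l2 : l * C ≤ 1 :=
    (le_div_iff₀ (by linarith)).1 (hl0.trans ((min_le_right _ _).trans (min_le_left _ _)))
  have l3 : l * (760 * κ ^ 2) ≤ μ :=
    (le_div_iff₀ (by positivity)).1 (hl0.trans ((min_le_right _ _).trans (min_le_right _ _)))
  have m1 := hU.sol.gl.le
  have η0 := hU.η0
  have p3 : 0 < l ^ 3 := by positivity
  have q3 : l ^ 3 ≤ 1 / 8 := (pow_le_pow_left₀ hl.le l1 3).trans (by norm_num)
  set θ := 1 / l ^ 3 with hθ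
  have θ1 : θ * l ^ 3 = 1 := one_div_mul_cancel p3.ne'
  have θ8 : 8 ≤ θ := by rw [hθ, le_div_iff₀ p3]; linarith
  have t1 : θ ≤ tp := by
    have h1 := (hUPT μ w η 0 tp hU tp ⟨hU.le, le_rfl⟩).1
    rw [hv, add_zero, sub_zero] at h1
    have h2 : η ^ 3 ≤ (l / 3) ^ 3 := pow_le_pow_left₀ η0 hη 3
    have h3 : (1 + tp) * η ^ 3 ≤ (1 + tp) * (l / 3) ^ 3 :=
      mul_le_mul_of_nonneg_left h2 (by linarith [hU.le])
    by_contra hc
    have h4 : (1 + tp) * (l / 3) ^ 3 ≤ (1 + θ) * (l / 3) ^ 3 :=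
      mul_le_mul_of_nonneg_right (by linarith [not_le.1 hc]) (by positivity)
    have h5 : (1 + θ) * (l / 3) ^ 3 = (l ^ 3 + θ * l ^ 3) / 27 := by ring
    linarith
  have mθ : θ ∈ Icc (0 : ℝ) tp := ⟨by linarith, t1⟩
  obtain ⟨g1, g2, -⟩ := hUPT μ w η 0 tp hU θ mθ
  rw [sub_zero] at g1 g2
  have v0 := (hU.nonneg mθ).2
  have G0 : 0 ≤ η + (w θ).2.2 := by linarith
  have G3 : 0 ≤ (η + (w θ).2.2) ^ 3 := by positivity
  have G1 : 0.9 * l ≤ η + (w θ).2.2 := by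
    refine le_of_pow_le_pow_left₀ three_ne_zero G0 ?_
    have h1 := mul_le_mul_of_nonneg_right g1 p3.le
    have h2 : (1 + θ) * (η + (w θ).2.2) ^ 3 * l ^ 3 =
      (l ^ 3 + θ * l ^ 3) * (η + (w θ).2.2) ^ 3 := by ring
    have h3 := mul_le_mul_of_nonneg_right q3 G3
    rw [h2, θ1] at h1
    nlinarith
  have G2 : η + (w θ).2.2 ≤ 8.5 * l := by
    refine le_of_pow_le_pow_left₀ three_ne_zero (by positivity) ?_
    have h1 := mul_le_mul_of_nonneg_right g2 p3.le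
    have h2 : (1 + θ) * (η + (w θ).2.2) ^ 3 * l ^ 3 =
      (l ^ 3 + θ * l ^ 3) * (η + (w θ).2.2) ^ 3 := by ring
    have h3 := mul_nonneg p3.le G3
    rw [h2, θ1] at h1
    nlinarith
  have gau := hU.gau (s := θ) (by linarith) t1 le_rfl
  have p4 : 0 < l ^ 4 := by positivity
  have ρ1 : l ^ 4 ≤ ρ := by rw [hρ]; nlinarith
  have ρ0 : 0 < ρ := p4.trans_le ρ1
  have key : ∀ t ∈ Icc θ tp, ‖bb w t - bb w tp‖ ≤ l * ρ / 2 := by
    intro t ht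
    refine (hA μ w θ tp (9 * l) gau.sol (by linarith) (fun s hs => ?_) tp ⟨t1, le_rfl⟩ t ht).trans ?_
    · obtain ⟨h1, h2, -, h4⟩ := gau.far s hs
      have h5 := gau.anti ⟨le_rfl, t1⟩ hs hs.1
      refine ⟨h1, by rw [abs_of_nonneg h2]; linarith, h4.trans ?_⟩
      have h6 : (η + (w s).2.2) ^ 2 ≤ (9 * l) ^ 2 :=
        pow_le_pow_left₀ (by linarith) (by linarith) 2
      nlinarith [sq_nonneg (9 * l)]
    · have h1 : (9 * l) ^ 6 ≤ 9 ^ 6 * (l * (l * ρ)) := by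
        have : l * (l * l ^ 4) ≤ l * (l * ρ) := by gcongr
        nlinarith
      have h2 : (9 * l) ^ 3 * ‖(w tp).1‖ ≤ 9 ^ 6 * (l * (l * ρ)) := by
        have h3 : (9 * l) ^ 3 * ‖(w tp).1‖ ≤ (9 * l) ^ 3 * (3 * ρ) := by gcongr
        have h4 : l * (l * (l * ρ)) ≤ 1 / 2 * (l * (l * ρ)) := by gcongr
        have h5 : 0 ≤ l * (l * ρ) := by positivity
        nlinarith
      have h3 : C * μ * ((9 * l) ^ 6 + (9 * l) ^ 3 * ‖(w tp).1‖) ≤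
          C * (1 / 10 ^ 8) * (2 * 9 ^ 6 * (l * (l * ρ))) := by
        gcongr
        linarith
      have h4 : l * C * (l * ρ) ≤ 1 * (l * ρ) := by gcongr
      have h5 : 0 ≤ l * ρ := by positivity
      nlinarith
  refine ⟨t1, hMKUP μ w 0 0 θ (hU.sol.mono le_rfl t1) mθ.1 hU.z0
    (fun t ht => (hU.nonneg ⟨ht.1, ht.2.trans t1⟩).2) (gau.far θ ⟨le_rfl, t1⟩).1 le_rfl
    zero_le_one ?_, key⟩
  have a1 : ‖(w θ).1‖ ≤ 4 * ρ := by
    have h1 := norm_le_insert' (bb w θ) (bb w tp)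
    have h2 := key θ ⟨le_rfl, t1⟩
    have h3 : l * ρ ≤ 1 / 2 * ρ := by gcongr
    rw [norm_bb, norm_bb] at h1
    linarith
  have a2 : ‖(w θ).1‖ ^ 2 ≤ (4 * ρ) ^ 2 := by gcongr
  have a3 : Hh μ (w θ) = Hh μ (w 0) := hU.sol.gl.Hh_eq hU.sol.reg mθ ⟨le_rfl, hU.le⟩
  have a4 : |‖(w θ).1‖ ^ 2 - Hh μ (w θ)| ≤ 18 * ρ ^ 2 := by
    rw [a3]
    have := abs_le.1 hH
    exact abs_le.2 ⟨by nlinarith [sq_nonneg ‖(w θ).1‖, sq_nonneg ρ], by nlinarith⟩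
  have a5 : (l / 2) ^ 2 ≤ (w θ).2.2 ^ 2 := pow_le_pow_left₀ (by positivity) (by linarith) 2
  have a6 : 760 * ρ ^ 2 ≤ μ * l ^ 2 := by
    have h1 : l ^ 5 ≤ 1 := pow_le_one₀ hl.le (by linarith)
    have h2 : l * (760 * κ ^ 2) * l ^ 5 ≤ μ * 1 := by gcongr
    have h3 := mul_le_mul_of_nonneg_right h2 (sq_nonneg l)
    rw [hρ]
    nlinarith
  rw [zero_add, sq (0 : ℝ), mul_zero, sub_zero, eps_eq hμ, abs_mul, abs_of_pos (by positivity),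
    div_mul_eq_mul_div, div_le_iff₀ hμ]
  have a7 : (1 + μ) * |‖(w θ).1‖ ^ 2 - Hh μ (w θ)| ≤ (1 + 1 / 10 ^ 8) * (18 * ρ ^ 2) := by gcongr
  have a8 := mul_le_mul_of_nonneg_left a5 hμ.le
  nlinarith [sq_nonneg ρ]

end Pool.Agent.P.MP_9ae58c_an.B

end

section

/-! Step LONG. -/

namespace Pool.Agent.P.MP_9ae58c_an.B

open Set Filter Topology Complex

theorem LONG_v {w G : ℝ} (w0 : 0 < w) (hG : 0 ≤ G) (h4 : (1 + 1 / w ^ 3 - 0) * (0 + G) ^ 3 ≤ 600) :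
    G ≤ 9 * w := by
  have a0 := pow_pos w0 3
  have e : (1 + 1 / w ^ 3 - 0) * (0 + G) ^ 3 = (w ^ 3 + 1) * G ^ 3 / w ^ 3 := by field_simp; ring
  rw [e, div_le_iff₀ a0] at h4
  exact le_of_pow_le_pow_left₀ (n := 3) (by norm_num) (by positivity)
    (by nlinarith [mul_nonneg a0.le (pow_nonneg hG 3)])

theorem LONG_en {x y H l ρ : ℝ} (l1 : l ≤ 1) (r0 : 0 ≤ ρ) (x0 : 0 ≤ x) (y0 : 0 ≤ y)
    (h1 : |x - y| ≤ l * ρ / 2) (h2 : y ≤ 2 * ρ) (h3 : |H - ρ ^ 2| ≤ l * ρ ^ 2) :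
    x ≤ 3 * ρ ∧ |x ^ 2 - H - (y ^ 2 - ρ ^ 2)| ≤ 3.5 * (l * ρ ^ 2) := by
  have a1 := mul_le_of_le_one_left r0 l1
  have a2 := (abs_le.1 h1).2
  have a3 : |(x + y) * (x - y)| ≤ 5 * ρ * (l * ρ / 2) := by
    rw [abs_mul, abs_of_nonneg (add_nonneg x0 y0)]
    exact mul_le_mul (by linarith) h1 (abs_nonneg _) (by positivity)
  have a4 := abs_sub ((x + y) * (x - y)) (H - ρ ^ 2)
  rw [show (x + y) * (x - y) - (H - ρ ^ 2) = x ^ 2 - H - (y ^ 2 - ρ ^ 2) by ring] at a4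
  exact ⟨by linarith, by linarith⟩

theorem LONG_far {μ θ T w : ℝ} {u : ℝ → St} (hs : Sol μ u θ T) (h : θ ≤ T) (hz : 3 ≤ (u θ).2.1)
    (hv : ∀ t ∈ Icc θ T, 0 ≤ (u t).2.2) (h1 : (u θ).2.2 ≤ w) (h2 : WW (u θ) ≤ (0 + (u θ).2.2) ^ 2 / 3) :
    ∀ t ∈ Icc θ T, 3 ≤ (u t).2.1 ∧ |(u t).2.2| ≤ w ∧ WW (u t) ≤ w ^ 2 := by
  have hl : θ ∈ Icc θ T := ⟨le_rfl, h⟩
  have a1 : ∀ t ∈ Icc θ T, (u θ).2.1 ≤ (u t).2.1 := fun t ht =>
    le_of_deriv (fun t ht => d2 (hs.der ht))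
      (fun t ht => mul_nonneg (sq_nonneg _) (hv t ht)) hl ht ht.1
  have a2 : ∀ t ∈ Icc θ T, -(u θ).2.2 ≤ -(u t).2.2 := fun t ht =>
    le_of_deriv (fun t ht => (d3 (hs.der ht)).fun_neg)
      (fun t ht => le_trans (by positivity) ((hs.adm t ht).acc (hz.trans (a1 t ht))).1) hl ht ht.1
  intro t ht
  have b0 := a1 t ht
  have b1 := (hs.adm t ht).reg.zW
  have b2 := ((hs.adm θ hl).far (hz.trans (le_abs_self _))).2
  rw [abs_of_pos (by linarith)] at b1 b2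
  have b3 := (hs.adm t ht).W
  have b4 := (hs.adm θ hl).W
  have b5 := mul_le_mul_of_nonneg_right b2 b3.le
  have b6 := mul_le_mul_of_nonneg_right b0 (mul_pos b4 b3).le
  have b7 := mul_le_mul_of_nonneg_right b1 b4.le
  have b8 : (0 + (u θ).2.2) ^ 2 ≤ w ^ 2 := pow_le_pow_left₀ (by linarith [hv θ hl]) (by linarith) 2
  exact ⟨by linarith, by rw [abs_of_nonneg (hv t ht)]; linarith [a2 t ht],
    by linarith [sq_nonneg w]⟩

theorem LONG_small {C μ l ρ y : ℝ} (C0 : 0 ≤ C) (m0 : 0 ≤ μ) (m1 : μ ≤ 1 / 10 ^ 8) (l0 : 0 ≤ l)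
    (l1 : l ≤ 1) (hC : C * l ≤ 1) (hρ : l ^ 4 ≤ ρ) (hy : y ≤ 2 * ρ) :
    C * μ * ((9 * l) ^ 6 + (9 * l) ^ 3 * y) ≤ l * ρ / 2 := by
  have r0 : 0 ≤ ρ := le_trans (by positivity) hρ
  have a1 := mul_le_mul_of_nonneg_left hρ (sq_nonneg l)
  have a2 := mul_le_mul_of_nonneg_left hy (pow_nonneg l0 3)
  have a3 := mul_le_mul_of_nonneg_right l1 (mul_nonneg (sq_nonneg l) r0)
  have a4 : (9 * l) ^ 6 + (9 * l) ^ 3 * y ≤ 10 ^ 6 * (l * (l * ρ)) := by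
    linarith [mul_nonneg (sq_nonneg l) r0]
  have a5 := mul_le_mul_of_nonneg_left a4 (mul_nonneg C0 m0)
  have a6 := mul_le_mul_of_nonneg_right (mul_le_mul hC m1 m0 zero_le_one) (mul_nonneg l0 r0)
  linarith [mul_nonneg l0 r0]

theorem p_LONG (hUPT : S_UPT) (hADI : S_ADI) (hHOLD : S_HOLD) (hEXCU : S_EXCU) (hDOWN : S_DOWN) :
    S_LONG := by
  obtain ⟨C, C1, hADI⟩ := hADI
  intro μ κ a m0 k1 a0
  obtain ⟨l₁, p1, hD⟩ := hDOWN μ κ m0 k1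
  refine ⟨min l₁ (min (1 / 100) (min (1 / C) (min (a / 7) (μ / (27 * κ ^ 2))))), by positivity,
    fun l ρ l0 hl hρ u hu n0 nH => ?_⟩
  simp only [le_min_iff] at hl
  obtain ⟨q1, q2, q3, q4, q5⟩ := hl
  rw [le_div_iff₀ (by positivity)] at q3 q5
  have gl := hu.sol.gl
  have m1 := gl.le
  have r1 : l ^ 4 ≤ ρ := hρ ▸ le_mul_of_one_le_left (by positivity) k1
  have r0 : 0 < ρ := lt_of_lt_of_le (by positivity) r1
  have r2 : 3 * ρ ≤ μ := by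
    have b1 : l ^ 4 ≤ l := pow_le_of_le_one l0.le (by linarith) (by norm_num)
    have b2 : κ * l ^ 4 ≤ κ ^ 2 * l := mul_le_mul (by nlinarith) b1 (by positivity) (by positivity)
    linarith [mul_nonneg (sq_nonneg κ) l0.le]
  have r3 : 27 * ρ ^ 2 ≤ μ * l ^ 2 := by
    have b1 : l ^ 8 ≤ l ^ 3 := pow_le_pow_of_le_one l0.le (by linarith) (by norm_num)
    have b2 := mul_le_mul_of_nonneg_left b1 (sq_nonneg κ)
    have b3 := mul_le_mul_of_nonneg_right q5 (sq_nonneg l)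
    rw [hρ]
    linarith
  have r4 := pow_pos r0 2
  have r5 := mul_le_mul_of_nonneg_right q2 r4.le
  have r6 := mul_le_mul_of_nonneg_right q4 r4.le
  have H2 : |Hh μ (u 0)| ≤ 2 * ρ ^ 2 := by
    have := abs_le.1 nH
    exact abs_le.2 ⟨by linarith, by linarith⟩
  have th := hu.le
  obtain ⟨-, u2, -, u4, -⟩ := hUPT μ u 0 0 _ hu _ ⟨th, le_rfl⟩
  have v1 := LONG_v l0 (hu.nonneg ⟨th, le_rfl⟩).2 u2
  replace hD := hD l ρ l0 q1 hρ
  clear u2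
  generalize hθ : 1 / l ^ 3 = θ at *
  have key : ‖bb u θ‖ ^ 2 ≤ 3 * ρ ^ 2 → ∀ T, θ ≤ T → Sol μ u 0 T → (∀ t ∈ Icc 0 T, 0 ≤ (u t).2.2) →
      ‖bb u θ‖ ≤ 2 * ρ ∧ ∀ t ∈ Icc θ T, 3 ≤ (u t).2.1 ∧ ‖bb u t - bb u θ‖ ≤ l * ρ / 2 ∧
        ‖(u t).1‖ ≤ 3 * ρ ∧ |μ / (1 + μ) * eps μ (u t) - (‖bb u θ‖ ^ 2 - ρ ^ 2)| ≤
          3.5 * (l * ρ ^ 2) := fun hb T hT hs hv => by
    have b1 : ‖bb u θ‖ ≤ 2 * ρ :=
      le_of_pow_le_pow_left₀ (n := 2) (by norm_num) (by positivity) (by linarith)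
    have b2 := LONG_far (hs.mono th le_rfl) hT hu.zb
      (fun t ht => hv t ⟨th.trans ht.1, ht.2⟩) v1 u4
    refine ⟨b1, fun t ht => ?_⟩
    have b3 := (hADI μ u θ T _ (hs.mono th le_rfl) (by linarith) b2 θ ⟨le_rfl, hT⟩ t ht).trans
      (LONG_small (by linarith) m0.le m1 l0.le (by linarith) (by linarith) r1 (norm_bb u θ ▸ b1))
    obtain ⟨b4, b5⟩ := LONG_en (by linarith) r0.le (norm_nonneg _) (norm_nonneg _)
      ((abs_norm_sub_norm_le _ _).trans b3) b1 nH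
    rw [norm_bb u t] at b4 b5
    refine ⟨(b2 t ht).1, b3, b4, le_of_eq_of_le ?_ b5⟩
    rw [gl.Hh_eq hs.reg ⟨le_rfl, th.trans hT⟩ ⟨th.trans ht.1, ht.2⟩, Hh]
    congr 1; ring
  have apex : ∀ tp, 0 ≤ tp → (u tp).2.2 = 0 → θ ≤ tp := fun tp h0 h1 => not_lt.1 fun h =>
    ((hUPT μ u 0 0 _ hu tp ⟨h0, h.le⟩).2.2.2.2.2.2 h).ne' h1
  obtain ⟨-, hc⟩ := hHOLD μ u 0 gl hu.z0 (by linarith [hu.v0]) n0
    (H2.trans (by nlinarith))
  have nu0 : 0 < μ / (1 + μ) := by positivity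
  have nu1 : μ / (1 + μ) ≤ μ := div_le_self m0.le (by linarith)
  constructor
  · intro hb
    rcases hc with ⟨tp, h0, hs, hv, h1, -⟩ | ⟨hs, -, h2⟩
    · have tt := apex tp h0 h1
      have b1 := (abs_le.1 ((key (by linarith) tp tt hs hv).2 tp ⟨tt, le_rfl⟩).2.2.2).2
      have b2 : 0 < eps μ (u tp) := by
        have := (hs.adm tp ⟨h0, le_rfl⟩).W
        rw [eps, h1, zero_pow two_ne_zero, sub_zero]; positivity
      linarith [mul_pos nu0 b2]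
    · exact ⟨fun t ht => (hs t).adm t ⟨ht, le_rfl⟩, h2⟩
  intro hb hb'
  rcases hc with ⟨tp, h0, hs, hv, h1, h3⟩ | ⟨hs, hv, h2⟩
  swap
  · obtain ⟨t, b1, b2⟩ := ((h2.eventually_gt_atTop (34 * μ / (a * ρ ^ 2))).and
      (eventually_ge_atTop θ)).exists
    obtain ⟨b3, -, -, b4⟩ := (key hb' t b2 (hs t) fun t ht => (hv t ht.1).le).2 t ⟨b2, le_rfl⟩
    have ad := (hs t).adm t ⟨th.trans b2, le_rfl⟩
    have b5 := ad.reg.zW
    rw [abs_of_pos (by linarith)] at b5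
    rw [div_lt_iff₀ (by positivity), zz] at b1
    have b6 : eps μ (u t) ≤ 17 * WW (u t) := by
      have := mul_le_mul_of_nonneg_right m1 ad.W.le
      rw [eps]; linarith [sq_nonneg (u t).2.2, ad.W]
    have b7 := (mul_le_mul_of_nonneg_left b6 nu0.le).trans
      (mul_le_mul_of_nonneg_right nu1 (by linarith [ad.W]))
    have b8 : a * ρ ^ 2 ≤ 34 * μ * WW (u t) := by linarith [(abs_le.1 b4).1]
    have b9 := mul_le_mul_of_nonneg_left b8 (show 0 ≤ (u t).2.1 by linarith)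
    linarith [mul_le_mul_of_nonneg_left b5 m0.le]
  have tt := apex tp h0 h1
  obtain ⟨nb, cl⟩ := key hb' tp tt hs hv
  obtain ⟨-, c1, c2, c3⟩ := cl tp ⟨tt, le_rfl⟩
  obtain ⟨η, b, he⟩ := hEXCU μ u 0 tp hs h0 hu.z0 hv h1 h3 (by linarith)
  rw [← he.en] at c3
  obtain ⟨c4, c5⟩ := abs_le.1 c3
  have e0 := sq_nonneg η
  have e1 := mul_le_mul_of_nonneg_right nu1 e0
  have e2 : μ * η ^ 2 ≤ 3 * ρ ^ 2 := by
    have b1 : μ * η ^ 2 = (1 + μ) * (μ / (1 + μ) * η ^ 2) := by field_simp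
    have b2 : (1 + μ) * (μ / (1 + μ) * η ^ 2) ≤ 1.1 * (2.1 * ρ ^ 2) :=
      mul_le_mul (by linarith) (by linarith) (by positivity) (by norm_num)
    linarith
  have e3 : η ≤ l / 3 := le_of_pow_le_pow_left₀ (n := 2) (by norm_num) (by positivity)
    (le_of_mul_le_mul_left (by linarith) m0)
  have tb : tp ≤ b := by linarith [he.dn.le]
  obtain ⟨d1, d2, d3⟩ := hD (rev u b) η (b - tp) he.dn (by simpa [rev] using h1) e3
    (by simpa [rev] using c2) (by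
      rw [rev, Hh_Rv, sub_zero, ← gl.Hh_eq he.sol.reg ⟨le_rfl, h0.trans tb⟩ ⟨h0.trans tb, le_rfl⟩]
      exact H2)
  subst hθ
  refine ⟨η, tp, b, ⟨he, by linarith, e2, tt, by linarith, nb, fun t ht => ?_, d2⟩,
    by linarith [mul_pos l0 r4]⟩
  rcases le_total t tp with h | h
  · linarith [(cl t ⟨ht.1, h⟩).2.1, mul_pos l0 r0]
  · have b1 := d3 (b - t) ⟨by linarith [ht.2], by linarith⟩
    rw [bb_rev, bb_rev, ← map_sub, ← mul_sub, RCLike.norm_conj, norm_mul, norm_ex, one_mul,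
      sub_sub_cancel, sub_sub_cancel] at b1
    linarith [norm_sub_le_norm_sub_add_norm_sub (bb u t) (bb u tp) (bb u (1 / l ^ 3))]

end Pool.Agent.P.MP_9ae58c_an.B

end

section

/-! Step LONGU. -/

namespace Pool.Agent.P.MP_9ae58c_an.B

open Set Filter Topology Complex

theorem LONGU_ev {f : ℝ → ℝ} {c : ℝ} (hf : Continuous f) (h0 : f 0 < c) :
    ∀ᶠ l in 𝓝 (0 : ℝ), f l ≤ c :=
  (hf.continuousAt.eventually_lt continuousAt_const h0).mono fun _ => le_of_lt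

theorem LONGU_ex {P : ℝ → Prop} (h : ∀ᶠ l in 𝓝 (0 : ℝ), P l) :
    ∃ l₀, 0 < l₀ ∧ ∀ l, 0 < l → l ≤ l₀ → P l := by
  obtain ⟨ε, hε, h⟩ := Metric.eventually_nhds_iff.1 h
  refine ⟨ε / 2, by positivity, fun l h1 h2 => h ?_⟩
  rw [Real.dist_eq, sub_zero, abs_of_pos h1]
  linarith

/-- the size of the time shift -/
theorem LONGU_c {μ C J Y N c e T R : ℝ} (m : 0 < μ) (hC : 1 ≤ C) (hY : 0 ≤ Y) (hN : 0 ≤ N)
    (J0 : 0 ≤ J) (J1 : J ≤ 2 * 10 ^ 4 * Y) (he : |e| ≤ 202 * N) (hT : C * T ≤ 1) (hR : R ≤ 2 * Y)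
    (h : |8 * (1 + μ) * c + J * e| ≤ C * (T * (|e| * Y) + R * N)) :
    |c| ≤ (10 ^ 6 + C) * (Y * N) := by
  have a1 : 8 * (1 + μ) * |c| ≤ |8 * (1 + μ) * c + J * e| + J * |e| := by
    have := abs_sub (8 * (1 + μ) * c + J * e) (J * e)
    rwa [add_sub_cancel_right, abs_mul, abs_mul J, abs_of_pos (by positivity), abs_of_nonneg J0]
      at this
  have a2 : J * |e| ≤ 2 * 10 ^ 4 * Y * (202 * N) := by gcongr
  have a3 : C * T * (|e| * Y) ≤ 1 * (202 * N * Y) := by gcongr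
  have a4 : C * (R * N) ≤ C * (2 * Y * N) := by gcongr
  have a5 := mul_nonneg m.le (abs_nonneg c)
  have a6 := mul_nonneg hY hN
  have a7 := mul_nonneg (zero_le_one.trans hC) a6
  linarith

/-- the size of the variation of the energy -/
theorem LONGU_e {μ e d S N : ℝ} {β ξ : ℂ} (m : 0 < μ) (m' : μ ≤ 1 / 10 ^ 8) (hβ : ‖β‖ ≤ 100 * μ)
    (hN : N = ‖ξ‖ + |d|) (hS : S ≤ 1) (h : |e - 2 * (1 + μ) / μ * ip β ξ + d| ≤ S * N) :
    |e| ≤ 202 * N := by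
  have x1 := norm_nonneg ξ
  have x2 := abs_nonneg d
  have i1 : |2 * (1 + μ) / μ * ip β ξ| ≤ 201 * ‖ξ‖ := by
    have b1 : |ip β ξ| ≤ 100 * μ * ‖ξ‖ := (abs_ip_le _ _).trans (by gcongr)
    rw [abs_mul, abs_of_pos (by positivity), div_mul_eq_mul_div, div_le_iff₀ m]
    nlinarith [abs_nonneg (ip β ξ), mul_nonneg m.le x1]
  have b1 := mul_le_mul_of_nonneg_right hS (show 0 ≤ N by linarith)
  obtain ⟨b2, b3⟩ := abs_le.1 h
  obtain ⟨b4, b5⟩ := abs_le.1 i1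
  refine abs_le.2 ⟨?_, ?_⟩ <;> linarith [le_abs_self d, neg_abs_le d]

/-- the size of the synchronised amplitude -/
theorem LONGU_s {S S' c R Y N : ℝ} {s ξ β : ℂ} (hS : S ≤ 1) (hS0 : 0 ≤ S') (hS' : S' ≤ 1)
    (hβ : ‖β‖ ≤ 1) (hξ : ‖ξ‖ ≤ N) (R0 : 0 ≤ R) (hR : R ≤ 2 * Y)
    (h : ‖s - ξ - c * I * β‖ ≤ S * (N + S' * (|c| + R * N))) :
    ‖s‖ ≤ 2 * N + 2 * |c| + 2 * (Y * N) := by
  have N0 := (norm_nonneg ξ).trans hξ
  have c0 := abs_nonneg c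
  have b2 : S * (N + S' * (|c| + R * N)) ≤ 1 * (N + 1 * (|c| + 2 * Y * N)) := by gcongr
  have b3 : ‖(c : ℂ) * I * β‖ ≤ |c| := by
    rw [norm_mul, norm_mul, norm_I, norm_real, Real.norm_eq_abs, mul_one]
    exact mul_le_of_le_one_right c0 hβ
  linarith [norm_le_insert' (s - ξ) (c * I * β), norm_le_insert' s ξ]

theorem LONGU_R {A η l : ℝ} (η0 : 0 < η) (η1 : η ≤ 1) (hl : η ≤ l) (A0 : 0 ≤ A) (A1 : A ≤ 1) :
    0 ≤ RR A η l ∧ RR A η l ≤ 2 * (1 / η ^ 5) := by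
  have l0 := η0.trans_le hl
  have b1 : A / η ^ 3 ≤ 1 / η ^ 5 := by
    gcongr ?_ / ?_
    exact pow_le_pow_of_le_one η0.le η1 (by norm_num)
  have b2 : 1 / l ^ 5 ≤ 1 / η ^ 5 := by gcongr
  rw [RR]
  exact ⟨by positivity, by linarith⟩

theorem LONGU_η {μ κ a α l η : ℝ} (m : 0 < μ) (m' : μ ≤ 1 / 10 ^ 8) (hκ : 1 ≤ κ) (α0 : 0 < α)
    (α1 : α ≤ 1) (α2 : α ≤ a) (lp : 0 < l) (η0 : 0 < η) (c2 : 27 * κ ^ 2 * l ^ 6 ≤ μ)
    (h1 : a * (κ * l ^ 4) ^ 2 ≤ 2 * μ * η ^ 2) (h2 : μ * η ^ 2 ≤ 3 * (κ * l ^ 4) ^ 2) :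
    α * l ^ 4 ≤ η ∧ 3 * η ≤ l := by
  refine ⟨(abs_le_of_sq_le_sq' ?_ η0.le).2, (abs_le_of_sq_le_sq' ?_ lp.le).2⟩
  · have b1 : (α * l ^ 4) ^ 2 ≤ a * (κ * l ^ 4) ^ 2 := by
      have : α ^ 2 ≤ a := by nlinarith
      have b2 : l ^ 4 ≤ κ * l ^ 4 := le_mul_of_one_le_left (by positivity) hκ
      have := α0.trans_le α2
      rw [mul_pow]
      gcongr
    nlinarith [sq_nonneg η]
  · have b2 := mul_le_mul_of_nonneg_right c2 (sq_nonneg l)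
    refine le_of_mul_le_mul_left ?_ m
    linarith

theorem LONGU_pow {K α l : ℝ} {n : ℕ} (α0 : 0 < α) (lp : 0 < l) (h : K * l ≤ α ^ n) :
    K / (α * l ^ 4) ^ n ≤ 1 / l ^ (4 * n + 1) := by
  rw [div_le_div_iff₀ (by positivity) (by positivity), mul_pow, ← pow_mul, pow_succ']
  linarith [mul_le_mul_of_nonneg_right h (pow_pos lp (4 * n)).le]

theorem p_LONGU (hEXC : S_EXC) (hEXCF : S_EXCF) :
    S_LONGU := by
  obtain ⟨C, hC, hE⟩ := hEXC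
  refine ⟨C, hC, fun μ κ a hμ m hκ ha => ?_⟩
  obtain ⟨α, α0, α1, α2⟩ : ∃ α : ℝ, 0 < α ∧ α ≤ 1 ∧ α ≤ a :=
    ⟨min 1 a, lt_min one_pos ha, min_le_left _ _, min_le_right _ _⟩
  obtain ⟨l₀, l0, hl⟩ := LONGU_ex
    ((LONGU_ev (f := fun l => l) (c := 1) (by fun_prop) (by simp)).and
    ((LONGU_ev (f := fun l => 27 * κ ^ 2 * l ^ 6) (c := μ) (by fun_prop) (by simpa)).and
    ((LONGU_ev (f := fun l => C * l) (c := 1) (by fun_prop) (by simp)).and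
    ((LONGU_ev (f := fun l => 3 * (κ * l ^ 4)) (c := 100 * μ) (by fun_prop) (by simpa)).and
    ((LONGU_ev (f := fun l => C * (3 * κ * l + μ * l ^ 3 + 9 * κ ^ 2 * l ^ 3 / μ)) (c := 1)
      (by fun_prop) (by simp)).and
    ((LONGU_ev (f := fun l => C * (3 * (κ * l ^ 4) + l ^ 6)) (c := 1) (by fun_prop) (by simp)).and
    ((LONGU_ev (f := fun l => 1200 * l) (c := α ^ 3) (by fun_prop) (by simp; positivity)).and
    (LONGU_ev (f := fun l => (57 * (10 ^ 6 + C) + 140) * 243 * l) (c := α ^ 5) (by fun_prop)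
      (by simp; positivity)))))))))
  refine ⟨l₀, l0, fun l ρ lp ll hρ u η tp b h => ?_⟩
  obtain ⟨c1, c2, c3, c4, c5, c6, c7, c8⟩ := hl l lp ll
  obtain ⟨f1, f2, f3, -, f5, -, f7, f8, f9, f10, -⟩ := hEXCF μ u η 0 tp b h.exc
  have η0 := h.exc.pos
  have sol := h.exc.sol
  have m' := sol.gl.le
  have ρ0 : 0 < ρ := by rw [hρ]; positivity
  obtain ⟨e1, e2⟩ := LONGU_η m m' hκ α0 α1 α2 lp η0 c2 (hρ ▸ h.e1) (hρ ▸ h.e2)
  have e3 : ∀ t ∈ Icc (1 / l ^ 3) (b - 1 / l ^ 3), ‖(u t).1‖ ≤ 3 * ρ := by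
    intro t ht
    have b1 := norm_le_insert' (bb u t) (bb u (1 / l ^ 3))
    have b2 := mul_le_mul_of_nonneg_right c1 ρ0.le
    rw [← norm_bb]
    linarith only [h.cl t ht, h.nb, b1, b2]
  have e4 : C * tt μ (3 * ρ) l ≤ 1 := by
    refine le_of_eq_of_le ?_ c5
    rw [tt, hρ]
    field_simp
    ring
  rw [← hρ] at c4 c6
  obtain ⟨J, J0, J1, hJ⟩ := hE μ u η tp b l (3 * ρ) hμ h.exc e2 c3 e3 c4 e4
  have h0 : (0 : ℝ) ∈ Icc 0 b := ⟨le_rfl, by linarith only [f1, f2]⟩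
  have hb : b ∈ Icc 0 b := ⟨h0.2, le_rfl⟩
  have htp : tp ∈ Icc 0 b := ⟨by linarith only [f1], by linarith only [f2]⟩
  have vb : (u b).2.2 < 0 := by linarith only [f9]
  refine ⟨sol, f10, h0.2, ?_, by rw [abs_of_neg vb]; linarith only [f9], fun x hx x0 => ?_⟩
  · have b1 : 1200 / η ^ 3 ≤ 1200 / (α * l ^ 4) ^ 3 := by gcongr
    have b2 : 1200 / (α * l ^ 4) ^ 3 ≤ 1 / l ^ 13 := LONGU_pow α0 lp c7
    have b3 : 1200 / η ^ 3 = 600 / η ^ 3 + 600 / η ^ 3 := by ring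
    linarith only [b1, b2, b3, f5, f7]
  · obtain ⟨g1, g2, g3⟩ := hJ x hx x0 _ _ _ rfl rfl rfl
    have n1 := (sol.adm 0 h0).nn_le (x 0)
    have n2 := (sol.adm b hb).le_nn f8 (sy_z (μ := μ) (x := x) (sol.reg b hb) vb.ne)
    have n3 : dh μ (u b) (sy μ u x b b) = dh μ (u 0) (x 0) := by
      rw [sy, dh_syn m, hx.dh_eq sol.gl sol.reg hb h0]
    have n4 : nn μ (u 0) (x 0) = ‖(x 0).1‖ + |dh μ (u 0) (x 0)| := rfl
    rw [nn, n3] at n2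
    have x1 := norm_nonneg (x 0).1
    have x2 := abs_nonneg (dh μ (u 0) (x 0))
    have N0 : 0 ≤ nn μ (u 0) (x 0) := add_nonneg x1 x2
    have β1 : ‖bb u tp‖ ≤ 100 * μ := by rw [norm_bb]; exact (sol.adm tp htp).na
    have he := LONGU_e m m' β1 n4 c6 g1
    have η1 : η ≤ 1 := by linarith only [f3]
    have Y1 : 1 ≤ 1 / η ^ 5 := one_le_one_div (by positivity) (pow_le_one₀ η0.le η1)
    obtain ⟨R0, hR⟩ := LONGU_R (A := 3 * ρ) (l := l) η0 η1 (by linarith only [e2, η0])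
      (by positivity) (by linarith only [c4, m'])
    rw [div_eq_mul_one_div _ (η ^ 5)] at g2 J1
    have hc := LONGU_c m hC (by positivity) N0 (le_trans (by positivity) J0) J1 he e4 hR g2
    have Y2 : 1 / η ^ 5 ≤ 1 / (α * l ^ 4) ^ 5 := by gcongr
    have b0 : 0 ≤ 3 * ρ + l ^ 6 := by positivity
    have s1 := LONGU_s hμ b0 ((le_mul_of_one_le_left b0 hC).trans c6) (by linarith only [β1, m'])
      (by linarith only [n4, x2]) R0 hR g3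
    rw [norm_bb] at s1
    have s2 := le_mul_of_one_le_left N0 Y1
    have s4 : (57 * (10 ^ 6 + C) + 140) * (1 / η ^ 5 * nn μ (u 0) (x 0)) ≤
        (57 * (10 ^ 6 + C) + 140) * (1 / (α * l ^ 4) ^ 5 * (243 * ‖x 0‖)) := by gcongr
    have s5 : _ ≤ 1 / l ^ 21 := LONGU_pow α0 lp c8
    have s6 := mul_le_mul_of_nonneg_right s5 (norm_nonneg (x 0))
    refine le_trans ?_ (s4.trans (le_of_eq_of_le (by ring) s6))
    linarith only [n2, n4, x1, hc, s1, s2]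

end Pool.Agent.P.MP_9ae58c_an.B

end
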