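import Pool.Agent.P.MP_9ae58c_an.B.IfB

section

/-! Step LONGM. -/

namespace Pool.Agent.P.MP_9ae58c_an.B

open Set Filter Topology Complex

theorem LONGM_small {C μ κ l ρ η : ℝ} (hC : 1 ≤ C) (m0 : 0 < μ) (m1 : μ ≤ 1) (hκ : 1 ≤ κ)
    (l0 : 0 < l) (l1 : l ≤ 1 / 10 ^ 8 / (C * (3 * κ / μ) ^ 2)) (hρ : ρ = κ * l ^ 4) (η0 : 0 < η)
    (e2 : μ * η ^ 2 ≤ 3 * ρ ^ 2) :
    l ≤ 1 / 10 ^ 8 ∧ C * l ≤ 1 ∧ 3 * η ≤ l ∧ 3 * ρ ≤ 100 * μ ∧ C * tt μ (3 * ρ) l ≤ 3 / 10 ^ 8 ∧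
      l ^ 6 ≤ ρ ∧ ρ ≤ 1 / 10 ^ 8 ∧ C * (η ^ 3 * RR (3 * ρ) η l) ≤ 2 / 10 ^ 8 := by
  obtain ⟨B, hB⟩ : ∃ B, B = 3 * κ / μ := ⟨_, rfl⟩
  have eB : μ * B = 3 * κ := by rw [hB]; field_simp
  have B3 : 3 ≤ B := by rw [hB, le_div_iff₀ m0]; linarith
  have B0 : 0 < B := by linarith
  rw [← hB, le_div_iff₀ (by positivity)] at l1
  have a1 : B * l ≤ B ^ 2 * l := by gcongr; nlinarith
  have a2 : l ≤ B * l := le_mul_of_one_le_left l0.le (by linarith)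
  have a3 : B ^ 2 * l ≤ C * (B ^ 2 * l) := le_mul_of_one_le_left (by positivity) hC
  have a4 : C * (B * l) ≤ C * (B ^ 2 * l) := by gcongr
  have a5 : C * l ≤ C * (B * l) := by gcongr
  have b1 : l ≤ 1 := by linarith
  have r : 3 * ρ = μ * (B * l ^ 4) := by rw [← mul_assoc, eB, hρ]; ring
  have p3 : l ^ 3 ≤ l := pow_le_of_le_one l0.le b1 (by norm_num)
  have p4 : B * l ^ 4 ≤ B * l := by gcongr; exact pow_le_of_le_one l0.le b1 (by norm_num)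
  have r1 : μ * (B * l ^ 4) ≤ B * l ^ 4 := mul_le_of_le_one_left (by positivity) m1
  have η1 : η ≤ B * l ^ 4 := by
    refine (pow_le_pow_iff_left₀ η0.le (by positivity) two_ne_zero).1 ?_
    refine le_of_mul_le_mul_left (e2.trans ?_) m0
    have : ρ ≤ B * l ^ 4 := by rw [hρ] at r ⊢; nlinarith [pow_pos l0 4]
    calc 3 * ρ ^ 2 = 3 * ρ * ρ := by ring
      _ ≤ μ * (B * l ^ 4) * (B * l ^ 4) := by rw [r]; gcongr
      _ = μ * (B * l ^ 4) ^ 2 := by ring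
  have η2 : 3 * η ≤ l := by
    have : B * l * l ^ 3 ≤ 1 / 10 ^ 8 * l := by gcongr; linarith
    linarith
  refine ⟨by linarith, by linarith, η2, ?_, ?_, ?_, by linarith, ?_⟩
  · rw [r, mul_comm 100]
    gcongr
    linarith
  · have e : tt μ (3 * ρ) l = μ * (B * l + l ^ 3 + B ^ 2 * l ^ 3) := by
      rw [tt, r]; field_simp
    have h1 : B ^ 2 * l ^ 3 ≤ B ^ 2 * l := by gcongr
    have h2 : μ * (B * l + l ^ 3 + B ^ 2 * l ^ 3) ≤ 1 * (3 * (B ^ 2 * l)) := by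
      gcongr; linarith
    have h3 := mul_le_mul_of_nonneg_left h2 (show 0 ≤ C by linarith)
    rw [e]
    linarith
  · have : l ^ 2 * l ^ 4 ≤ κ * l ^ 4 := by gcongr; nlinarith
    linarith
  · have e : η ^ 3 * RR (3 * ρ) η l = 3 * ρ + η ^ 2 * η / l ^ 5 := by rw [RR]; field_simp
    have h1 : η ^ 2 * η / l ^ 5 ≤ l ^ 2 * (B * l ^ 4) / l ^ 5 := by gcongr; linarith
    have h2 : l ^ 2 * (B * l ^ 4) / l ^ 5 = B * l := by field_simp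
    have h3 : C * (3 * ρ + η ^ 2 * η / l ^ 5) ≤ C * (2 * (B * l)) := by gcongr; linarith
    rw [e]
    linarith

theorem LONGM_real {C μ η ρ l K c₀ γ c₂ e J i h N T R Q : ℝ} (m0 : 0 < μ) (m1 : μ ≤ 1 / 10 ^ 8)
    (hC : 1 ≤ C) (Cm : C * μ ≤ 1 / 10 ^ 8) (η0 : 0 < η) (η1 : η ≤ 1 / 10 ^ 8) (ρ0 : 0 < ρ)
    (ρ1 : ρ ≤ 1 / 10 ^ 8) (l1 : l ≤ 1 / 10 ^ 8) (e2 : μ * η ^ 2 ≤ 3 * ρ ^ 2) (hK : 1 ≤ K)
    (N0 : 0 ≤ N) (N1 : N ≤ 7 * (K * ρ * c₀)) (hQ : Q = K * ρ ^ 2 * c₀) (i0 : 0.499 * Q ≤ |i|)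
    (i1 : |i| ≤ 6.001 * Q) (hh : |h| ≤ l * ρ ^ 2 * c₀)
    (h1 : |e - 2 * (1 + μ) / μ * i + h| ≤ C * (4 * ρ) * N) (J0 : 2 / η ^ 5 ≤ J)
    (J1 : J ≤ 2 * 10 ^ 4 / η ^ 5) (h2 : |8 * (1 + μ) * c₂ + J * e| ≤ C * (T * (|e| / η ^ 5) + R * N))
    (hT : C * T ≤ 3 / 10 ^ 8) (R0 : 0 ≤ R) (hR : C * (η ^ 3 * R) ≤ 2 / 10 ^ 8) (hγ : |γ| ≤ 2 * c₀) :
    Q / 5 ≤ μ * η ^ 5 * |γ + c₂| ∧ μ * η ^ 5 * |γ + c₂| ≤ 10 ^ 5 * Q := by
  have c0 : 0 ≤ c₀ := by linarith [abs_nonneg γ]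
  have Q0 : 0 ≤ Q := by rw [hQ]; positivity
  have q1 : ρ ^ 2 * c₀ ≤ Q := by
    rw [hQ, mul_assoc]; exact le_mul_of_one_le_left (by positivity) hK
  have q2 : ρ * N ≤ 7 * Q := by
    have := mul_le_mul_of_nonneg_left N1 ρ0.le
    rw [hQ]; linarith
  have p5 := pow_pos η0 5
  have a1 : |μ * e - 2 * (1 + μ) * i + μ * h| ≤ 28 / 10 ^ 8 * Q := by
    rw [show μ * e - 2 * (1 + μ) * i + μ * h = μ * (e - 2 * (1 + μ) / μ * i + h) by field_simp,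
      abs_mul, abs_of_pos m0]
    have b1 := mul_le_mul_of_nonneg_left h1 m0.le
    have b2 : C * μ * (ρ * N) ≤ 1 / 10 ^ 8 * (7 * Q) := by gcongr
    linarith
  have a2 : |μ * h| ≤ 1 / 10 ^ 8 * Q := by
    rw [abs_mul, abs_of_pos m0]
    have b1 : l * (ρ ^ 2 * c₀) ≤ 1 * Q := by gcongr; linarith
    gcongr
    linarith
  have a3 : |2 * (1 + μ) * i| = 2 * |i| + 2 * (μ * |i|) := by
    rw [abs_mul, abs_of_pos (by positivity)]; ring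
  have a4 : μ * |i| ≤ 1 / 10 ^ 8 * (6.001 * Q) := by gcongr
  have a5 : 0 ≤ μ * |i| := by positivity
  have a6 : |μ * e - 2 * (1 + μ) * i| ≤ 29 / 10 ^ 8 * Q := by
    have := abs_sub (μ * e - 2 * (1 + μ) * i + μ * h) (μ * h)
    rw [add_sub_cancel_right] at this
    linarith
  have a7 := abs_abs_sub_abs_le_abs_sub (μ * e) (2 * (1 + μ) * i)
  rw [a3, abs_mul μ, abs_of_pos m0] at a7
  obtain ⟨a8, a9⟩ := abs_le.1 (a7.trans a6)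
  have E0 : 0.99 * Q ≤ μ * |e| := by linarith
  have E1 : μ * |e| ≤ 12.1 * Q := by linarith
  rw [div_le_iff₀ p5] at J0
  rw [le_div_iff₀ p5] at J1
  have J2 : 0 ≤ J := nonneg_of_mul_nonneg_left (by linarith) p5
  have b1 : 2 * (0.99 * Q) ≤ J * η ^ 5 * (μ * |e|) := by gcongr
  have b2 : J * η ^ 5 * (μ * |e|) ≤ 2 * 10 ^ 4 * (12.1 * Q) := by gcongr
  have b3 := mul_le_mul_of_nonneg_left h2 (mul_pos m0 p5).le
  have b4 : μ * η ^ 5 * (C * (T * (|e| / η ^ 5) + R * N)) =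
      C * T * (μ * |e|) + μ * η ^ 2 * (C * (η ^ 3 * R)) * N := by field_simp
  have b5 : C * T * (μ * |e|) ≤ 3 / 10 ^ 8 * (12.1 * Q) := by gcongr
  have b6 : μ * η ^ 2 * (C * (η ^ 3 * R)) * N ≤ 3 * ρ ^ 2 * (2 / 10 ^ 8) * N := by gcongr
  have b7 : ρ * (ρ * N) ≤ 1 / 10 ^ 8 * (7 * Q) := by gcongr
  have b8 := abs_abs_sub_abs_le_abs_sub (8 * (1 + μ) * c₂) (-(J * e))
  rw [sub_neg_eq_add, abs_neg, abs_mul J, abs_of_nonneg J2, abs_mul (8 * (1 + μ)),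
    abs_of_pos (by positivity : 0 < 8 * (1 + μ))] at b8
  have b9 := mul_le_mul_of_nonneg_left b8 (mul_pos m0 p5).le
  rw [← abs_of_pos (mul_pos m0 p5), ← abs_mul, abs_of_pos (mul_pos m0 p5)] at b9
  obtain ⟨d1, d2⟩ := abs_le.1 (b9.trans b3)
  have d3 : 0 ≤ μ * η ^ 5 * |c₂| := by positivity
  have d4 := mul_le_mul_of_nonneg_right m1 d3
  have d5 := mul_nonneg m0.le d3
  have d6 : μ * η ^ 2 * η ^ 3 * |γ| ≤ 3 * ρ ^ 2 * (1 / 10 ^ 8) ^ 3 * (2 * c₀) := by gcongr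
  have d7 := mul_le_mul_of_nonneg_left (abs_add_le γ c₂) (mul_pos m0 p5).le
  have d8 := abs_sub (γ + c₂) γ
  rw [add_sub_cancel_left] at d8
  have d9 := mul_le_mul_of_nonneg_left d8 (mul_pos m0 p5).le
  constructor <;> linarith

theorem LONGM_ip {p p' d d' : ℂ} : |ip p d - ip p' d'| ≤ ‖p - p'‖ * ‖d‖ + ‖p'‖ * ‖d' - d‖ := by
  rw [show ip p d - ip p' d' = ip (p - p') d - ip p' (d' - d) by simp [ip]; ring]
  exact (abs_sub _ _).trans (add_le_add (abs_ip_le _ _) (abs_ip_le _ _))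

theorem LONGM_cone {y y' d p p' : ℂ} {c₂ γ : ℝ} : ‖y' - (γ + c₂ : ℝ) * I * p'‖ ≤
    ‖y' - y‖ + ‖y - d - c₂ * I * p‖ + ‖d‖ + |γ| * ‖p‖ + |γ + c₂| * ‖p - p'‖ := by
  rw [show y' - (γ + c₂ : ℝ) * I * p' = y' - y + (y - d - c₂ * I * p) + d + -(γ * I * p) +
    (γ + c₂ : ℝ) * I * (p - p') by push_cast; ring]
  refine (norm_add_le _ _).trans (add_le_add ((norm_add_le _ _).trans (add_le_add
    norm_add₃_le (by simp))) ?_)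
  rw [norm_mul, norm_mul, norm_I, norm_real, mul_one, Real.norm_eq_abs]

theorem LONGM_start {ρ l K c₀ h N : ℝ} {d d' p p' : ℂ} (ρ0 : 0 < ρ) (ρ1 : ρ ≤ 1 / 10 ^ 8)
    (l1 : l ≤ 1 / 10 ^ 8) (hK : 1 ≤ K) (c0 : 0 ≤ c₀) (eN : N = ‖d‖ + |h|)
    (nh : |h| ≤ l * ρ ^ 2 * c₀) (U : ‖d' - d‖ ≤ 1 / 10 ^ 8 * 5.01 * N) (nx : ‖d'‖ ≤ 3 * K * ρ * c₀)
    (nb : ‖p'‖ ≤ 2 * ρ) (cl : ‖p - p'‖ ≤ l * ρ) (i0 : K * ρ ^ 2 * c₀ / 2 ≤ |ip p' d'|) :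
    N ≤ 7 * (K * ρ * c₀) ∧ 0.499 * (K * ρ ^ 2 * c₀) ≤ |ip p d| ∧
      |ip p d| ≤ 6.001 * (K * ρ ^ 2 * c₀) := by
  have N0 : 0 ≤ N := by rw [eN]; positivity
  have a0 : ρ * c₀ ≤ K * (ρ * c₀) := le_mul_of_one_le_left (by positivity) hK
  have a1 : l * ρ * (ρ * c₀) ≤ 1 / 10 ^ 8 * 1 * (K * (ρ * c₀)) := by gcongr; linarith
  have P0 : 0 ≤ K * ρ * c₀ := by positivity
  have N1 : N ≤ 7 * (K * ρ * c₀) := by linarith [norm_le_insert d' d]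
  have dN : ‖d‖ ≤ N := by linarith [abs_nonneg h]
  have a2 : |ip p d - ip p' d'| ≤
      1 / 10 ^ 8 * ρ * (7 * (K * ρ * c₀)) + 2 * ρ * (1 / 10 ^ 8 * 5.01 * (7 * (K * ρ * c₀))) := by
    refine LONGM_ip.trans ?_
    gcongr
    · exact cl.trans (by gcongr)
    · exact dN.trans N1
    · exact U.trans (by gcongr)
  have a3 : |ip p' d'| ≤ 2 * ρ * (3 * K * ρ * c₀) := (abs_ip_le _ _).trans (by gcongr)
  obtain ⟨a4, a5⟩ := abs_le.1 ((abs_abs_sub_abs_le_abs_sub _ _).trans a2)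
  have Q0 : 0 ≤ K * ρ ^ 2 * c₀ := by positivity
  exact ⟨N1, by linarith, by linarith⟩

theorem LONGM_end {C m η ρ l K c₀ γ c₂ c h N R : ℝ} {y y' d p p' : ℂ} (hC : 1 ≤ C)
    (Cm : m ≤ 1 / 10 ^ 8) (η0 : 0 < η) (η1 : η ≤ 1 / 10 ^ 8) (ρ0 : 0 < ρ) (ρ1 : ρ ≤ 1 / 10 ^ 8)
    (l0 : 0 < l) (l6 : l ^ 6 ≤ ρ) (hK : 1 ≤ K) (eN : N = ‖d‖ + |h|) (N1 : N ≤ 7 * (K * ρ * c₀))
    (R0 : 0 ≤ R) (hR : C * (η ^ 3 * R) ≤ 2 / 10 ^ 8) (hγ : |γ| ≤ 2 * c₀) (hc : c = γ + c₂)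
    (b2 : K * c₀ ≤ 15 * (η ^ 3 * |c|)) (hp : ‖p‖ ≤ 3 * ρ) (hp' : ‖p - p'‖ ≤ 2 * (1 / 10 ^ 8 * ρ))
    (E : ‖y - d - c₂ * I * p‖ ≤ m * (N + (3 * ρ + l ^ 6) * (|c₂| + R * N)))
    (U : ‖y' - y‖ ≤ 1 / 10 ^ 8 * 4.01 * (‖y‖ + |h|)) :
    c₀ ≤ |c| ∧ ‖y' - c * I * p'‖ ≤ ρ * |c| / 10 ^ 4 := by
  have c0 : 0 ≤ c₀ := by linarith [abs_nonneg γ]
  have N0 : 0 ≤ N := by rw [eN]; positivity
  have b3 : η ^ 3 * |c| ≤ (1 / 10 ^ 8) ^ 3 * |c| := by gcongr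
  have b4 : c₀ ≤ K * c₀ := le_mul_of_one_le_left c0 hK
  have b5 := abs_nonneg c
  refine ⟨by linarith, ?_⟩
  have X0 : 0 ≤ ρ * |c| := by positivity
  have d1 := mul_le_mul_of_nonneg_left b2 ρ0.le
  have d2 := mul_le_mul_of_nonneg_left b3 ρ0.le
  have d3 : |c₂| ≤ 3 * |c| := by
    have := abs_sub c γ
    rw [show c - γ = c₂ by linarith] at this
    linarith
  have d4 : R * N ≤ R * (105 * (ρ * (η ^ 3 * |c|))) := by gcongr; linarith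
  have d5 : η ^ 3 * R ≤ 2 / 10 ^ 8 := (le_mul_of_one_le_left (by positivity) hC).trans hR
  have d6 := mul_le_mul_of_nonneg_right d5 X0
  have d7 : (3 * ρ + l ^ 6) * (|c₂| + R * N) ≤ 4 * ρ * (3 * |c| + ρ * |c|) :=
    mul_le_mul (by linarith) (by linarith) (by positivity) (by positivity)
  have d8 := mul_le_mul_of_nonneg_right ρ1 X0
  have d9 := E.trans (show _ ≤ 1 / 10 ^ 8 * (14 * (ρ * |c|)) by gcongr; linarith)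
  have f1 : |c₂| * ‖p‖ ≤ 3 * |c| * (3 * ρ) := by gcongr
  have g1 := abs_nonneg h
  have g2 := norm_nonneg d
  have f2 : ‖y‖ ≤ 11 * (ρ * |c|) := by
    have := LONGM_cone (y := y) (y' := y) (d := d) (p := p) (p' := p) (c₂ := c₂) (γ := -c₂)
    simp only [neg_add_cancel, ofReal_zero, zero_mul, sub_zero, sub_self, norm_zero, abs_neg,
      mul_zero] at this
    linarith
  have f4 : |γ| * ‖p‖ ≤ 2 * c₀ * (3 * ρ) := by gcongr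
  have f5 : |c| * ‖p - p'‖ ≤ |c| * (2 * (1 / 10 ^ 8 * ρ)) := by gcongr
  have f6 := mul_le_mul_of_nonneg_left b4 ρ0.le
  have := LONGM_cone (y := y) (y' := y') (d := d) (p := p) (p' := p') (c₂ := c₂) (γ := γ)
  rw [← hc] at this
  linarith

theorem p_LONGM (hUPV : S_UPV) (hEXC : S_EXC) (hEXCF : S_EXCF) :
    S_LONGM := by
  obtain ⟨C₁, hC₁, hU⟩ := hUPV
  obtain ⟨C, hC, hE⟩ := hEXC
  refine ⟨10 ^ 8 * (C₁ + C), by linarith, fun μ κ a hμ m0 hκ _ =>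
    ⟨1 / 10 ^ 8 / (C * (3 * κ / μ) ^ 2), by positivity, ?_⟩⟩
  intro l ρ l0 l1 hρ u x η tp b K c₀ γ c hL hx x0 hK i0 nx nh hγ hc
  have n1 : 0 < C₁ * μ := by positivity
  have n2 : 0 < C * μ := by positivity
  have Cm₁ : C₁ * μ ≤ 1 / 10 ^ 8 := by linarith
  have Cm : C * μ ≤ 1 / 10 ^ 8 := by linarith
  have m1 : μ ≤ 1 / 10 ^ 8 := hL.exc.up.sol.gl.le
  have η0 := hL.exc.pos
  have ρ0 : 0 < ρ := by rw [hρ]; positivity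
  obtain ⟨s1, s2, s3, s4, s5, s6, s7, s8⟩ := LONGM_small hC m0 (by linarith) hκ l0 l1 hρ η0 hL.e2
  have θ0 : 0 < 1 / l ^ 3 := by positivity
  have t1 := hL.t1
  have t2 := hL.t2
  have η1 : η ≤ 1 / 10 ^ 8 := by linarith
  have lρ : l * ρ ≤ 1 / 10 ^ 8 * ρ := by gcongr
  have hA : ∀ t ∈ Icc (1 / l ^ 3) (b - 1 / l ^ 3), ‖bb u t‖ ≤ 3 * ρ := fun t ht => by
    linarith only [norm_le_insert' (bb u t) (bb u (1 / l ^ 3)), hL.cl t ht, hL.nb, lρ, ρ0]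
  have htp : tp ∈ Icc (1 / l ^ 3) (b - 1 / l ^ 3) := ⟨t1, by linarith⟩
  have hb' : b - 1 / l ^ 3 ∈ Icc (1 / l ^ 3) (b - 1 / l ^ 3) := ⟨by linarith, le_rfl⟩
  obtain ⟨J, J0, J1, hJ⟩ := hE μ u η tp b l (3 * ρ) (by linarith) hL.exc s3 s2
    (fun t ht => norm_bb u t ▸ hA t ht) s4 (by linarith)
  obtain ⟨E1, E2, E3⟩ := hJ x hx x0 _ _ _ rfl rfl rfl
  have sol := hL.exc.sol
  have h0 : (0 : ℝ) ∈ Icc 0 b := ⟨le_rfl, by linarith⟩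
  have hb : b ∈ Icc 0 b := ⟨by linarith, le_rfl⟩
  have vb : (u b).2.2 ≠ 0 := by linarith only [(hEXCF μ u η 0 tp b hL.exc).2.2.2.2.2.2.2.2.1]
  have U1 := (hU μ u x η tp (by linarith) hL.exc.up hx x0).1 0 _ le_rfl θ0.le t1
  have U2 := (hU μ _ (rev (sy μ u x b) b) 0 _ (by linarith) hL.up ((hx.sy sol.gl b).rev b)
    (by simpa [rev] using sy_z (sol.reg b hb) vb)).1 0 _ le_rfl θ0.le le_rfl
  have eN : nn μ (rev u b 0) (rev (sy μ u x b) b 0) = ‖bb (sy μ u x b) b‖ + |dh μ (u 0) (x 0)| := by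
    simp only [rev, sub_zero, nn_Rv]
    rw [nn, sy, dh_syn m0, hx.dh_eq sol.gl sol.reg hb h0, norm_bb]
  rw [eN, bb_rev, bb_rev, ← map_sub, ← mul_sub, RCLike.norm_conj, norm_mul, norm_ex, one_mul,
    sub_zero, zero_add] at U2
  rw [bb_sh, bb_sh, mul_left_comm, ← mul_sub, norm_mul, norm_ex, one_mul, neg_add_eq_sub]
  rw [bb_zero] at U1
  have v0 := (abs_le.1 (sol.adm 0 h0).v).2
  have v1 := (abs_le.1 ((sol.rev b).adm 0 (by simpa using h0)).v).2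
  have v2 := hL.exc.up.v0
  have v3 := hL.up.v0
  have eN' : nn μ (u 0) (x 0) = ‖(x 0).1‖ + |dh μ (u 0) (x 0)| := rfl
  have R0 : 0 ≤ RR (3 * ρ) η l := by unfold RR; positivity
  have c0 : 0 ≤ c₀ := by linarith only [abs_nonneg γ, hγ]
  have N0 : 0 ≤ nn μ (u 0) (x 0) := by rw [eN']; positivity
  obtain ⟨N1, i1, i2⟩ := LONGM_start ρ0 s7 s1 hK c0 eN' nh
    (U1.trans (by gcongr <;> linarith only [v0, v2, η0, η1])) nx hL.nb (hL.cl tp htp) i0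
  obtain ⟨r1, r2⟩ := LONGM_real m0 m1 hC Cm η0 η1 ρ0 s7 s1 hL.e2 hK N0 N1 rfl i1 i2 nh
    (E1.trans (by gcongr; linarith only [s6])) J0 J1 E2 s5 R0 s8 hγ
  rw [← hc] at r1 r2
  have Q0 : 0 ≤ K * ρ ^ 2 * c₀ := by positivity
  have b1 := mul_le_mul_of_nonneg_right hL.e2 (show 0 ≤ η ^ 3 * |c| by positivity)
  refine ⟨by linarith only [r1, Q0], by linarith only [r2], LONGM_end hC Cm η0 η1 ρ0 s7 l0 s6 hK
    eN' N1 R0 s8 hγ hc (le_of_mul_le_mul_left (by linarith only [r1, b1]) (pow_pos ρ0 2))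
    (hA tp htp) ?_ E3 (U2.trans (by gcongr))⟩
  linarith only [norm_sub_le_norm_sub_add_norm_sub (bb u tp) (bb u (1 / l ^ 3))
    (bb u (b - 1 / l ^ 3)), hL.cl tp htp, hL.cl _ hb', lρ,
    norm_sub_rev (bb u (1 / l ^ 3)) (bb u (b - 1 / l ^ 3))]

end Pool.Agent.P.MP_9ae58c_an.B

end

section

/-! Step FIRSTV. -/

namespace Pool.Agent.P.MP_9ae58c_an.B

open Set Filter Topology Complex

theorem FIRSTV_small {C μ κ l : ℝ} (hC : 1 ≤ C) (hμ : 0 < μ) (hμ1 : μ ≤ 1) (hκ : 1 ≤ κ)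
    (hl : 0 < l) (h : C * κ ^ 2 * l ≤ μ / 10 ^ 5) :
    l ≤ 1 / 10 ^ 5 ∧ C * l ≤ 1 / 10 ^ 5 ∧ C * (κ * l ^ 4) ≤ μ / 10 ^ 5 ∧
      C * tt μ (3 * (κ * l ^ 4)) l ≤ 1 / 100 := by
  have k2 : κ ≤ κ ^ 2 := by nlinarith
  have a0 : 0 < C * l := by positivity
  have a1 : C * κ * l ≤ μ / 10 ^ 5 := by nlinarith [mul_le_mul_of_nonneg_left k2 a0.le]
  have a2 : C * l ≤ μ / 10 ^ 5 := by nlinarith [mul_le_mul_of_nonneg_left hκ a0.le]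
  have a3 : l ≤ 1 / 10 ^ 5 := by nlinarith
  have a4 : l ^ 2 ≤ 1 := pow_le_one₀ hl.le (by linarith)
  have a5 : l ^ 3 ≤ 1 := pow_le_one₀ hl.le (by linarith)
  have a6 : 0 < C * κ * l := by positivity
  have a7 : 0 < C * κ ^ 2 * l := by positivity
  refine ⟨a3, by linarith, by nlinarith [mul_le_mul_of_nonneg_left a5 a6.le], ?_⟩
  have e : C * tt μ (3 * (κ * l ^ 4)) l =
      3 * (C * κ * l) + μ * (C * l * l ^ 2) + 9 * (C * κ ^ 2 * l * l ^ 2 / μ) := by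
    rw [tt]; field_simp; ring
  have b1 : μ * (C * l * l ^ 2) ≤ 1 * (C * l * 1) := by gcongr
  have b2 : C * κ ^ 2 * l * l ^ 2 / μ ≤ 1 / 10 ^ 5 := by
    rw [div_le_iff₀ hμ]; nlinarith [mul_le_mul_of_nonneg_left a4 a7.le]
  rw [e]
  linarith

theorem FIRSTV_R {C ρ η l N : ℝ} (hC : 1 ≤ C) (hη : 0 < η) (hl : 0 < l) (h1 : η ≤ l ^ 6)
    (h2 : C * l ≤ 1 / 10 ^ 5) (h3 : C * ρ ≤ 1 / 10 ^ 5) (hρ : 0 ≤ ρ) (hN : N ≤ 3) :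
    C * (RR (3 * ρ) η l * N) ≤ 1 / η ^ 3 / 100 ∧ RR (3 * ρ) η l * N ≤ 1 / η ^ 3 / 100 := by
  have a3 : l ≤ 1 := by nlinarith
  have a1 : η ^ 3 ≤ l * l ^ 5 := by
    calc η ^ 3 ≤ (l ^ 6) ^ 3 := by gcongr
      _ = l ^ 12 * (l * l ^ 5) := by ring
      _ ≤ 1 * (l * l ^ 5) := by gcongr; exact pow_le_one₀ hl.le a3
      _ = _ := one_mul _
  have a2 : 1 / l ^ 5 ≤ l * (1 / η ^ 3) := by
    rw [mul_one_div, div_le_div_iff₀ (by positivity) (by positivity)]; linarith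
  have θ : 0 < 1 / η ^ 3 := by positivity
  have r0 : 0 ≤ RR (3 * ρ) η l := by unfold RR; positivity
  have r1 : RR (3 * ρ) η l ≤ (3 * ρ + l) * (1 / η ^ 3) := by
    rw [RR, add_mul, mul_one_div]; linarith
  have r2 : C * (RR (3 * ρ) η l * N) ≤ C * ((3 * ρ + l) * (1 / η ^ 3) * 3) :=
    mul_le_mul_of_nonneg_left ((mul_le_mul_of_nonneg_left hN r0).trans (by gcongr)) (by linarith)
  have r3 : RR (3 * ρ) η l * N ≤ (3 * ρ + l) * (1 / η ^ 3) * 3 :=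
    (mul_le_mul_of_nonneg_left hN r0).trans (by gcongr)
  have r4 : (3 * (C * ρ) + C * l) * (1 / η ^ 3) ≤ 4 / 10 ^ 5 * (1 / η ^ 3) := by gcongr; linarith
  have r5 : (3 * ρ + l) * (1 / η ^ 3) ≤ 4 / 10 ^ 5 * (1 / η ^ 3) := by gcongr; nlinarith
  constructor <;> nlinarith

theorem FIRSTV_c {μ η J e c : ℝ} (hμ : 0 < μ) (hμ1 : μ ≤ 1) (hη : 0 < η) (j1 : 1 / η ^ 5 ≤ J)
    (j2 : J ≤ 10 ^ 4 / η ^ 5) (e1 : η ^ 2 / 3 ≤ |e|) (e2 : |e| ≤ 2 * η ^ 2)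
    (h : |8 * (1 + μ) * c - J * e| ≤ 3 / 100 * (1 / η ^ 3)) :
    1 / η ^ 3 / 100 ≤ |c| ∧ |c| ≤ 10 ^ 4 * (1 / η ^ 3) := by
  have θ : 0 < 1 / η ^ 3 := by positivity
  have j0 : 0 < J := lt_of_lt_of_le (by positivity) j1
  have a1 : 1 / η ^ 3 / 3 ≤ |J * e| := by
    rw [abs_mul, abs_of_pos j0]
    calc 1 / η ^ 3 / 3 = 1 / η ^ 5 * (η ^ 2 / 3) := by field_simp
      _ ≤ _ := by gcongr
  have a2 : |J * e| ≤ 2 * 10 ^ 4 * (1 / η ^ 3) := by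
    rw [abs_mul, abs_of_pos j0]
    calc J * |e| ≤ 10 ^ 4 / η ^ 5 * (2 * η ^ 2) := by gcongr
      _ = _ := by field_simp
  have a3 := abs_le.1 ((abs_abs_sub_abs_le _ _).trans h)
  rw [abs_mul, abs_of_pos (show 0 < 8 * (1 + μ) by positivity)] at a3
  have a4 := mul_nonneg hμ.le (abs_nonneg c)
  have a5 := mul_le_mul_of_nonneg_right hμ1 (abs_nonneg c)
  constructor <;> nlinarith

theorem FIRSTV_s {κ l η ρ c : ℝ} (hκ : 1 ≤ κ) (hl : 0 < l) (hl1 : l ≤ 1 / 10 ^ 5) (hη : 0 < η)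
    (h1 : η ≤ l ^ 6) (hρ : ρ = κ * l ^ 4) (hc : 1 / η ^ 3 / 100 ≤ c) :
    1 ≤ l * ρ ^ 2 * c ∧ 10 ^ 6 ≤ ρ * c ∧ l ^ 6 * (1 / η ^ 3) ≤ ρ * c / 100 ∧ l ^ 6 ≤ ρ := by
  have c0 : 0 < c := lt_of_lt_of_le (by positivity) hc
  have r1 : l ^ 4 ≤ ρ := by rw [hρ]; exact le_mul_of_one_le_left (by positivity) hκ
  have r0 : 0 < ρ := lt_of_lt_of_le (by positivity) r1
  have a1 : 1 / (l ^ 6) ^ 3 / 100 ≤ c := le_trans (by gcongr) hc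
  have a2 : 1 ≤ 100 * (l ^ 6) ^ 3 * c := by
    rw [div_div, div_le_iff₀ (by positivity)] at a1; linarith
  have p9 : l ^ 9 ≤ (1 / 10 ^ 5) ^ 9 := by gcongr
  have p14 : l ^ 14 ≤ (1 / 10 ^ 5) ^ 14 := by gcongr
  have p2 : l ^ 2 ≤ (1 / 10 ^ 5) ^ 2 := by gcongr
  have b1 : l * (l ^ 4) ^ 2 * c ≤ l * ρ ^ 2 * c := by gcongr
  have b2 : l ^ 4 * c ≤ ρ * c := by gcongr
  have b3 : l ^ 9 * (l ^ 9 * c) ≤ (1 / 10 ^ 5) ^ 9 * (l ^ 9 * c) := by gcongr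
  have b4 : l ^ 14 * (l ^ 4 * c) ≤ (1 / 10 ^ 5) ^ 14 * (l ^ 4 * c) := by gcongr
  have b5 : l ^ 2 * (l ^ 4 * c) ≤ (1 / 10 ^ 5) ^ 2 * (l ^ 4 * c) := by gcongr
  have b6 : l ^ 6 * (1 / η ^ 3) ≤ l ^ 6 * (100 * c) := by gcongr; linarith
  have b7 : l ^ 2 * l ^ 4 ≤ (1 / 10 ^ 5) ^ 2 * l ^ 4 := by gcongr
  have q1 : 0 < l ^ 9 * c := by positivity
  have q2 : 0 < l ^ 4 * c := by positivity
  have q3 : 0 < l ^ 4 := by positivity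
  refine ⟨?_, ?_, ?_, ?_⟩ <;> nlinarith

theorem FIRSTV_cone {y0 y1 xb ub u1 : ℂ} {c ρ l d D : ℝ} (hl : l ≤ 1 / 10 ^ 5) (hρ : 0 ≤ ρ)
    (hs : 10 ^ 6 ≤ ρ * |c|) (h2 : ‖y0 - xb - c * I * ub‖ ≤ 5 / 10 ^ 6 * (ρ * |c|))
    (hx : ‖xb‖ ≤ 2) (hu : ‖ub‖ ≤ 2 * ρ) (hu1 : ‖ub - u1‖ ≤ l * ρ) (hd : d ≤ 1) (hD0 : 0 ≤ D)
    (hD : D ≤ 6 / 10 ^ 6) (h1 : ‖y1 - y0‖ ≤ D * (‖y0‖ + d)) :
    ‖y1 - c * I * u1‖ ≤ ρ * |c| / 10 ^ 4 := by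
  have n : ∀ z : ℂ, ‖c * I * z‖ = |c| * ‖z‖ := fun z => by simp
  have c0 := abs_nonneg c
  have a1 : ‖y0‖ ≤ ‖y0 - xb - c * I * ub‖ + ‖xb‖ + ‖c * I * ub‖ := by
    have := norm_add₃_le (a := y0 - xb - c * I * ub) (b := xb) (c := c * I * ub)
    rwa [show y0 - xb - c * I * ub + xb + c * I * ub = y0 by ring] at this
  have a2 : ‖c * I * ub‖ ≤ |c| * (2 * ρ) := by rw [n]; gcongr
  have a3 : ‖c * I * (ub - u1)‖ ≤ |c| * (1 / 10 ^ 5 * ρ) := by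
    rw [n]; exact mul_le_mul_of_nonneg_left (hu1.trans (by gcongr)) c0
  have a4 : D * (‖y0‖ + d) ≤ 6 / 10 ^ 6 * (3 * (ρ * |c|)) :=
    (mul_le_mul_of_nonneg_left (by nlinarith) hD0).trans
      (mul_le_mul_of_nonneg_right hD (by positivity))
  have a5 : ‖y1 - c * I * u1‖ ≤
      ‖y1 - y0‖ + ‖y0 - xb - c * I * ub‖ + ‖xb‖ + ‖c * I * (ub - u1)‖ := by
    have := norm_add₄_le (a := y1 - y0) (b := y0 - xb - c * I * ub) (c := xb)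
      (d := c * I * (ub - u1))
    rwa [show y1 - y0 + (y0 - xb - c * I * ub) + xb + c * I * (ub - u1) = y1 - c * I * u1 by ring]
      at this
  nlinarith

theorem FIRSTV_D {m ρ c l θ P R N : ℝ} (hm0 : 0 ≤ m) (hm : m ≤ 1 / 10 ^ 6) (hN : N ≤ 3)
    (hP : P ≤ 2 * θ) (hR : R ≤ θ / 100) (hθ : 0 < θ) (hc : 0 ≤ c) (hl : 0 ≤ l) (t2 : 10 ^ 6 ≤ ρ * c)
    (t3 : l * θ ≤ ρ * c / 100) (t4 : l ≤ ρ) :
    m * (N + l * (P + R) + (3 * ρ + l) * c) ≤ 5 / 10 ^ 6 * (ρ * c) := by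
  have f1 : l * (P + R) ≤ l * (3 * θ) := by gcongr; linarith
  have f2 : (3 * ρ + l) * c ≤ (3 * ρ + ρ) * c := by gcongr
  refine (mul_le_mul_of_nonneg_left (show _ ≤ 5 * (ρ * c) by linarith) hm0).trans ?_
  linarith [mul_le_mul_of_nonneg_right hm (show 0 ≤ 5 * (ρ * c) by linarith)]

theorem p_FIRSTV (hUPV : S_UPV) (hHALF : S_HALF) :
    S_FIRSTV := by
  obtain ⟨C₁, hC₁, H₁⟩ := hUPV
  obtain ⟨C, hC, H⟩ := hHALF
  refine ⟨10 ^ 6 * (C₁ + C), by linarith, fun μ κ hμ0 hμ hκ =>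
    ⟨μ / 10 ^ 5 / (C * κ ^ 2), by positivity, ?_⟩⟩
  intro l ρ hl hl0 hρ u x η b c hUp hv hη hη1 hb hu0 hcl hx hxv hx0 he1 he2 hdh hc
  have m1 : C₁ * μ ≤ 1 / 10 ^ 6 := by nlinarith [mul_pos (show 0 < C by linarith) hμ]
  have m2 : C * μ ≤ 1 / 10 ^ 6 := by nlinarith [mul_pos (show 0 < C₁ by linarith) hμ]
  have m3 : μ ≤ 1 := hUp.sol.gl.mu.2
  obtain ⟨s1, s2, s3, s4⟩ := FIRSTV_small hC hμ m3 hκ hl
    (by rw [le_div_iff₀ (by positivity)] at hl0; linarith)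
  rw [← hρ] at s3 s4
  have ρ0 : 0 ≤ ρ := by rw [hρ]; positivity
  have b0 : 0 ≤ b := hUp.le
  have θ0 : 0 < 1 / l ^ 3 := by positivity
  have eb : ∀ y : ℝ → St, rev y b b = Rv (y 0) := fun y => by simp [rev]
  have e0 : ∀ y : ℝ → St, rev y b 0 = Rv (y b) := fun y => by simp [rev]
  have l5 : l ^ 5 ≤ (1 / 10 ^ 5) ^ 5 := by gcongr
  obtain ⟨J, j1, j2, HJ⟩ := H μ (rev u b) η b l (3 * ρ) (by linarith) hUp (by simp [eb, hv]) hη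
    (by linarith only [mul_le_mul_of_nonneg_left l5 hl.le, hη1, hl]) (by linarith only [s2])
    (fun t ht => by
      have h1 := hcl (b - t) ⟨by linarith [ht.2], by linarith [ht.1]⟩
      have h2 := norm_le_insert' (bb u (b - t)) (u 0).1
      have h3 : l * ρ ≤ 1 * ρ := by gcongr; linarith
      rw [norm_bb] at h2
      simp only [rev, Rv_1, RCLike.norm_conj]
      linarith)
    (by linarith only [s3, hμ, mul_le_mul_of_nonneg_right hC ρ0]) (by linarith only [s4])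
  have hX := hx.rev b
  have d0 : |dh μ (rev u b 0) (rev x b 0)| ≤ 1 := by
    rw [hX.dh_eq hUp.sol.gl hUp.sol.reg ⟨le_rfl, b0⟩ ⟨b0, le_rfl⟩, eb, eb, dh_Rv]; exact hdh
  have q0 : Qv (rev u b b) (rev x b b) = 0 := by simp [eb, Qv, hxv]
  have c0 : -c = cz (rev u b 0) (rev x b 0) := by rw [e0, e0, cz_Rv, hc]
  have xb : ‖(rev x b b).1‖ ≤ 2 := by simpa [eb] using hx0
  obtain ⟨i1, i2⟩ := HJ (rev x b) hX (-c) _ _ c0 rfl rfl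
  rw [q0, abs_zero, zero_add, eb u, eb x, Ev_Rv, ← eb x] at i1 i2
  rw [sub_zero] at i1
  obtain ⟨r1, r2⟩ := FIRSTV_R (N := ‖(rev x b b).1‖ + |dh μ (rev u b 0) (rev x b 0)|) hC hη hl hη1 s2
    (by linarith) ρ0 (by linarith)
  have θ1 : 0 < 1 / η ^ 3 := by positivity
  have p0 : 0 ≤ |Ev μ (u 0) (x 0)| / η ^ 5 := by positivity
  have p1 : |Ev μ (u 0) (x 0)| / η ^ 5 ≤ 2 * (1 / η ^ 3) := by
    calc _ ≤ 2 * η ^ 2 / η ^ 5 := by gcongr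
      _ = _ := by field_simp
  obtain ⟨k1, k2⟩ := FIRSTV_c hμ m3 hη j1 j2 he1 he2 (i1.trans (by
    linarith only [mul_le_mul_of_nonneg_right s4 p0, p1, r1]))
  obtain ⟨t1, t2, t3, t4⟩ := FIRSTV_s hκ hl s1 hη hη1 hρ k1
  have hY := hX.sy hUp.sol.gl 0
  have a0 := hUp.sol.adm 0 ⟨le_rfl, b0⟩
  have i3 := (H₁ μ (rev u b) _ η b (by linarith) hUp hY
    (sy_z a0.reg (by linarith [hUp.v0]))).1 0 (1 / l ^ 3) le_rfl θ0.le hb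
  rw [bb_zero, nn, sy, dh_syn hμ, ← sy] at i3
  have v1 := (abs_le.1 a0.v).2
  have key := FIRSTV_cone (u1 := bb (rev u b) (1 / l ^ 3)) s1 ρ0 t2 (i2.trans ?_)
    (by rw [norm_bb]; exact xb) (by simpa [eb] using hu0) ?_ d0
    (by have := hUp.v0; have : 0 ≤ C₁ := by linarith
        positivity) ?_ i3
  · rw [abs_neg] at k1 k2 t1 key
    refine ⟨by rwa [div_div, mul_comm] at k1, by rwa [mul_one_div] at k2, t1, ?_⟩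
    rw [← rev_sy, sub_zero, bb_rev, bb_rev, ← RCLike.norm_conj] at key
    rw [bb_sh, bb_sh, show -(1 / l ^ 3) + b = b - 1 / l ^ 3 by ring]
    simpa [sub_eq_add_neg] using key
  · exact FIRSTV_D (by positivity) m2 (by linarith only [xb, d0]) p1 r2 θ1 (abs_nonneg _)
      (by positivity) t2 t3 t4
  · rw [bb_rev, bb_rev, ← map_sub, RCLike.norm_conj, ← mul_sub, norm_mul, norm_ex, one_mul,
      sub_self, bb_zero, norm_sub_rev]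
    exact hcl _ ⟨by linarith, le_rfl⟩
  · have : C₁ * μ * (η + (rev u b 0).2.2) ≤ 1 / 10 ^ 6 * 6 := by
      gcongr
      · linarith [hUp.v0]
      · linarith [hUp.η1]
    linarith

end Pool.Agent.P.MP_9ae58c_an.B

end
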