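import Pool.Agent.P.MP_9ae58c_an.B.IfB

section

/-! Step INI. -/

namespace Pool.Agent.P.MP_9ae58c_an.B

open Set Filter Topology Complex

theorem INI_sq {a b : ℝ} (h : a ^ 2 ≤ b ^ 2) (hb : 0 ≤ b) : a ≤ b :=
  le_trans (le_abs_self a) (abs_le_of_sq_le_sq' h hb |> abs_le.2)

theorem INI_half (hUPT : S_UPT) {μ η b : ℝ} {u : ℝ → St} (h : Up μ u η 0 b)
    (hv : (u b).2.2 = 0) (h0 : 0 < η) (h1 : η ≤ 1 / 50) :
    100 ≤ b ∧ b ≤ 600 / η ^ 3 ∧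
      ∀ t ∈ Icc 0 b, WW (u t) ^ 3 * (1 + t) ^ 2 ≤ 10 ^ 5 ∧ min 1 t ≤ (u t).2.1 ∧
        (u t).2.1 ≤ 70 / η ^ 2 := by
  have hab := h.le
  obtain ⟨a1, a2, -⟩ := hUPT μ u η 0 b h b ⟨hab, le_rfl⟩
  rw [hv, add_zero, sub_zero] at a1 a2
  have e3 : 0 < η ^ 3 := by positivity
  have e4 : η ^ 3 ≤ (1 / 50) ^ 3 := by gcongr
  refine ⟨?_, ?_, fun t ht => ?_⟩
  · have : (1 + b) * η ^ 3 ≤ (1 + b) * (1 / 50) ^ 3 :=
      mul_le_mul_of_nonneg_left e4 (by linarith)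
    nlinarith
  · rw [le_div_iff₀ e3]; nlinarith
  · obtain ⟨b1, b2, b3, b4, b5, -⟩ := hUPT μ u η 0 b h t ht
    rw [sub_zero] at b1 b2 b5
    obtain ⟨z0, v0⟩ := h.nonneg ht
    have hr := h.sol.reg t ht
    have w := hr.W
    refine ⟨?_, b5, ?_⟩
    · have c1 : WW (u t) ^ 3 ≤ ((η + (u t).2.2) ^ 2 / 3) ^ 3 := by gcongr
      have c2 : ((1 + t) * (η + (u t).2.2) ^ 3) ^ 2 ≤ 600 ^ 2 := by
        gcongr
      have c3 : WW (u t) ^ 3 * (1 + t) ^ 2 ≤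
          ((η + (u t).2.2) ^ 2 / 3) ^ 3 * (1 + t) ^ 2 :=
        mul_le_mul_of_nonneg_right c1 (sq_nonneg _)
      have c4 : ((η + (u t).2.2) ^ 2 / 3) ^ 3 * (1 + t) ^ 2 =
          ((1 + t) * (η + (u t).2.2) ^ 3) ^ 2 / 27 := by ring
      linarith
    · have c1 : η ^ 2 ≤ (η + (u t).2.2) ^ 2 := by gcongr; linarith
      have c2 := hr.zW
      rw [abs_of_nonneg z0] at c2
      rw [le_div_iff₀ (by positivity)]
      have c3 : (u t).2.1 * (η ^ 2 / 70) ≤ (u t).2.1 * WW (u t) :=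
        mul_le_mul_of_nonneg_left (by linarith) z0
      linarith

/-- real inequalities about the initial data -/
theorem INI_num {l ρ y s₀ s : ℝ} (hl : 0 < l) (hl1 : l ≤ 1 / 100) (hρ : l ^ 4 ≤ ρ)
    (hρ1 : ρ ≤ 1) (hy : 1 / l ^ 8 ≤ y) (h0 : s₀ ∈ Icc (1 : ℝ) 2) (h1 : s ∈ Icc (1 : ℝ) 2)
    (hs : |s - s₀| ≤ l ^ 12) :
    |(1 + ρ) * s / s₀ - 1 - ρ| ≤ l ^ 7 * ρ ∧ 0.99 * y ^ 2 ≤ y ^ 2 * s₀ / s ∧
      y ^ 2 * s₀ / s ≤ 1.01 * y ^ 2 ∧ 1 ≤ l ^ 8 * y := by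
  obtain ⟨a0, a1⟩ := h0
  obtain ⟨b0, b1⟩ := h1
  have l12 : l ^ 12 ≤ (1 / 100) ^ 12 := by gcongr
  have hs' := abs_le.1 hs
  have y2 := sq_nonneg y
  refine ⟨?_, ?_, ?_, ?_⟩
  · have e : (1 + ρ) * s / s₀ - 1 - ρ = (1 + ρ) * (s - s₀) / s₀ := by field_simp; ring
    have ρ0 : 0 < ρ := lt_of_lt_of_le (by positivity) hρ
    rw [e, abs_div, abs_mul, abs_of_pos (by linarith : 0 < 1 + ρ),
      abs_of_pos (by linarith : 0 < s₀), div_le_iff₀ (by linarith)]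
    have c1 : (1 + ρ) * |s - s₀| ≤ 2 * l ^ 12 := by gcongr; linarith
    have c2 : l ^ 7 * l ^ 4 * 1 ≤ l ^ 7 * ρ * s₀ := by gcongr
    have c3 : 2 * l ^ 12 = l ^ 11 * (2 * l) := by ring
    have c4 : l ^ 11 * (2 * l) ≤ l ^ 11 * 1 := by gcongr; linarith
    nlinarith
  · rw [le_div_iff₀ (by linarith)]
    have : 0.99 * s ≤ s₀ := by linarith
    nlinarith
  · rw [div_le_iff₀ (by linarith)]
    have : s₀ ≤ 1.01 * s := by linarith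
    nlinarith
  · rw [div_le_iff₀ (by positivity)] at hy
    linarith

/-- the initial point and the initial variation -/
theorem INI_pt {μ l ρ y a z s α : ℝ} {p ξ : St} (hμ : 0 < μ) (hμ1 : μ ≤ 1 / 10 ^ 8) (hl : 0 < l)
    (hl1 : l ≤ 1 / 100) (hρ : l ^ 4 ≤ ρ) (hρ1 : 100 * ρ ≤ μ) (ha : |a - ρ| ≤ l ^ 7 * ρ)
    (hz0 : 0.99 * y ^ 2 ≤ z) (hz1 : z ≤ 1.01 * y ^ 2) (hy : 1 ≤ l ^ 8 * y)
    (hs : s ∈ Icc (1 : ℝ) 2) (hα : |α| ≤ 2) (hp : p = ((a : ℂ), z, 0))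
    (hξ : ξ = ((α : ℂ), -(z / s), 0)) :
    ∃ η, 0 < η ∧ η ^ 2 = eps μ p ∧ 3.7 ≤ η * y ∧ η * y ≤ 4.2 ∧ η ≤ 4.2 * l ^ 8 ∧ 3 ≤ z ∧
      |Hh μ p - ρ ^ 2| ≤ l * ρ ^ 2 ∧ η ^ 2 / 3 ≤ |Ev μ p ξ| ∧ |Ev μ p ξ| ≤ 2 * η ^ 2 ∧
      |dh μ p ξ| ≤ 1 := by
  have ρ0 : 0 < ρ := lt_of_lt_of_le (by positivity) hρ
  have l7 : l ^ 7 ≤ (1 / 100) ^ 7 := by gcongr
  have l8 : l ^ 8 ≤ (1 / 100) ^ 8 := by gcongr
  have l80 : 0 < l ^ 8 := by positivity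
  have y0 : 0 < y := by
    by_contra h
    nlinarith [mul_nonneg l80.le (neg_nonneg.2 (not_lt.1 h))]
  have y1 : 100 ≤ y := by
    have : l ^ 8 * y ≤ (1 / 100) ^ 8 * y := by gcongr
    linarith
  have z3 : 100 ≤ z := by
    have : (100 : ℝ) ^ 2 ≤ y ^ 2 := by gcongr
    linarith
  have a1 := abs_le.1 ha
  have a2 : l ^ 7 * ρ ≤ ρ := mul_le_of_le_one_left ρ0.le (by linarith)
  have p1 : p.1 = (a : ℂ) := by rw [hp]
  have p2 : p.2.1 = z := by rw [hp]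
  have p3 : p.2.2 = 0 := by rw [hp]
  have x1 : ξ.1 = (α : ℂ) := by rw [hξ]
  have x2 : ξ.2.1 = -(z / s) := by rw [hξ]
  have x3 : ξ.2.2 = 0 := by rw [hξ]
  have na : ‖p.1‖ = |a| := by rw [p1, norm_real, Real.norm_eq_abs]
  have a3 : |a| ≤ 2 * ρ := abs_le.2 ⟨by linarith, by linarith⟩
  have hr : Reg p := ⟨by rw [na]; linarith, by rw [p3]; norm_num⟩
  have w := hr.W
  have zW : z * WW p ≤ 1 := by
    have := hr.zW
    rwa [p2, abs_of_pos (by linarith)] at this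
  have e1 : eps μ p = 16 * (1 + μ) * WW p := by rw [eps, p3]; ring
  have W1 : WW p ≤ 2 * l ^ 16 := by
    have c1 : 1 ≤ (l ^ 8 * y) ^ 2 := one_le_pow₀ hy
    have c2 : 0.99 * y ^ 2 * WW p ≤ 1 := le_trans (by gcongr) zW
    have c3 : WW p * 1 ≤ WW p * (l ^ 8 * y) ^ 2 := by gcongr
    have c4 : WW p * (l ^ 8 * y) ^ 2 = l ^ 16 * (y ^ 2 * WW p) := by ring
    have c5 : l ^ 16 * (y ^ 2 * WW p) ≤ l ^ 16 * 2 := by gcongr; linarith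
    linarith
  have eH : Hh μ p = a ^ 2 - 16 * μ * WW p := by
    rw [Hh, e1, na, sq_abs]; field_simp
  have H1 : |Hh μ p - ρ ^ 2| ≤ l * ρ ^ 2 := by
    have c1 : |a ^ 2 - ρ ^ 2| ≤ 3 * ρ * (l ^ 7 * ρ) := by
      rw [sq_sub_sq, abs_mul]
      gcongr
      exact abs_le.2 ⟨by linarith, by linarith⟩
    have c2 : 16 * μ * WW p ≤ 16 * (1 / 10 ^ 8) * (2 * l ^ 16) := by gcongr
    have c3 : (l ^ 4) ^ 2 ≤ ρ ^ 2 := by gcongr
    have l6 : l ^ 6 ≤ (1 / 100) ^ 6 := by gcongr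
    have c4 : 3 * ρ * (l ^ 7 * ρ) = l * ρ ^ 2 * (3 * l ^ 6) := by ring
    have c5 : l * ρ ^ 2 * (3 * l ^ 6) ≤ l * ρ ^ 2 * (1 / 2) := by gcongr; linarith
    have c6 : l ^ 16 = l * (l ^ 4) ^ 2 * l ^ 7 := by ring
    have c7 : l * (l ^ 4) ^ 2 * l ^ 7 ≤ l * ρ ^ 2 * 1 := by gcongr; linarith
    have c8 : 0 ≤ 16 * μ * WW p := by positivity
    have c9 := abs_le.1 c1
    have c10 : 0 ≤ l * ρ ^ 2 := by positivity
    rw [eH]
    exact abs_le.2 ⟨by linarith, by linarith⟩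
  have H2 : |Hh μ p| ≤ μ ^ 2 := by
    have c1 : l * ρ ^ 2 ≤ 1 * ρ ^ 2 := by gcongr; linarith
    have c2 : (100 * ρ) ^ 2 ≤ μ ^ 2 := by gcongr
    have c3 := abs_le.1 H1
    have c4 := sq_nonneg ρ
    exact abs_le.2 ⟨by linarith, by linarith⟩
  have hA : Adm μ p := ⟨hμ, hμ1, by rw [na]; linarith, H2⟩
  have zW' : 0.94 ≤ z * WW p := by
    have := (hA.far (by rw [p2, abs_of_pos (by linarith)]; linarith)).2
    rwa [p2, abs_of_pos (by linarith)] at this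
  have e0 : 0 < eps μ p := by rw [e1]; positivity
  obtain ⟨η, η0, e2⟩ : ∃ η, 0 < η ∧ η ^ 2 = eps μ p :=
    ⟨√(eps μ p), Real.sqrt_pos.2 e0, Real.sq_sqrt e0.le⟩
  have y2 : (η * y) ^ 2 = 16 * (1 + μ) * (y ^ 2 * WW p) := by rw [mul_pow, e2, e1]; ring
  have y3 : y ^ 2 * WW p ≤ 1.02 := by linarith [mul_le_mul_of_nonneg_right hz0 w.le]
  have y4 : 0.93 ≤ y ^ 2 * WW p := by linarith [mul_le_mul_of_nonneg_right hz1 w.le]
  have y5 : 0 < η * y := by positivity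
  have y6 : η * y ≤ 4.2 := by
    have : 16 * (1 + μ) * (y ^ 2 * WW p) ≤ 16 * (1 + 1 / 10 ^ 8) * 1.02 := by gcongr
    exact INI_sq (by linarith) (by norm_num)
  have y7 : 3.7 ≤ η * y := by
    have : 16 * (1 + 0) * 0.93 ≤ 16 * (1 + μ) * (y ^ 2 * WW p) := by gcongr
    exact INI_sq (by linarith) y5.le
  have y8 : η ≤ 4.2 * l ^ 8 := by
    have c1 : η * 1 ≤ η * (l ^ 8 * y) := by gcongr
    have c2 : l ^ 8 * (η * y) ≤ l ^ 8 * 4.2 := by gcongr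
    linarith
  obtain ⟨s1, s2⟩ := hs
  have eE : Ev μ p ξ = η ^ 2 * ((z * WW p) ^ 2 / s) := by
    rw [Ev, de, dW, gg, e2, e1, p2, p3, x2]; ring
  have q1 : (z * WW p) ^ 2 / s ≤ 1 := by
    have : (z * WW p) ^ 2 ≤ 1 ^ 2 := by gcongr
    rw [div_le_iff₀ (by linarith)]; linarith
  have q2 : 1 / 3 ≤ (z * WW p) ^ 2 / s := by
    have : 0.94 ^ 2 ≤ (z * WW p) ^ 2 := by gcongr
    rw [le_div_iff₀ (by linarith)]; linarith
  have η2 : 0 < η ^ 2 := by positivity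
  have E0 : |Ev μ p ξ| = η ^ 2 * ((z * WW p) ^ 2 / s) := by
    rw [eE, abs_of_nonneg (by positivity)]
  have E1 : |Ev μ p ξ| ≤ η ^ 2 := by rw [E0]; exact mul_le_of_le_one_right η2.le q1
  refine ⟨η, η0, e2, y7, y6, y8, by linarith, H1,
    by rw [E0]; linarith [mul_le_mul_of_nonneg_left q2 η2.le], by linarith, ?_⟩
  have eD : dh μ p ξ = 2 * (1 + μ) / μ * (a * α) - Ev μ p ξ - 2 * (1 + μ) * gg p * α := by
    rw [dh, Ev, ip, p1, x1]; simp only [ofReal_re, ofReal_im]; ring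
  have d1 : |2 * (1 + μ) / μ * (a * α)| ≤ 1 / 2 := by
    rw [abs_mul, abs_mul a, abs_of_pos (by positivity), div_mul_eq_mul_div, div_le_iff₀ hμ]
    have : 2 * (1 + μ) * (|a| * |α|) ≤ 2 * (1 + 1) * (2 * ρ * 2) := by gcongr; linarith
    linarith
  have d2 : |2 * (1 + μ) * gg p * α| ≤ 1 / 4 := by
    obtain ⟨g0, g1⟩ := hA.g
    have c1 : WW p ≤ 1 / 100 := by linarith [mul_le_mul_of_nonneg_right z3 w.le]
    have c2 : WW p ^ 3 ≤ (1 / 100) ^ 3 := by gcongr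
    rw [abs_mul, abs_of_pos (by positivity)]
    have c3 : 2 * (1 + μ) * gg p * |α| ≤ 2 * (1 + 1) * (1 / 100) * 2 := by
      gcongr <;> linarith
    linarith
  have d3 : η ^ 2 ≤ 1 / 4 := by
    have : η ^ 2 ≤ (1 / 2) ^ 2 := by gcongr; linarith
    linarith
  rw [eD]
  refine (abs_sub _ _).trans ?_
  linarith [abs_sub (2 * (1 + μ) / μ * (a * α)) (Ev μ p ξ)]

theorem INI_cube {η y : ℝ} (h0 : 0 < η) (h1 : 3.7 ≤ η * y) (h2 : η * y ≤ 4.2) :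
    0 < y ∧ y ^ 3 / 10 ^ 4 ≤ 1 / (100 * η ^ 3) ∧ 10 ^ 4 / η ^ 3 ≤ 10 ^ 3 * y ^ 3 ∧
      600 / η ^ 3 ≤ 12 * y ^ 3 ∧ 70 / η ^ 2 ≤ 10 * y ^ 2 := by
  have y1 : 0 < η * y := by linarith
  have y0 : 0 < y := (mul_pos_iff_of_pos_left h0).1 y1
  have c1 : 3.7 ^ 3 ≤ (η * y) ^ 3 := by gcongr
  have c2 : (η * y) ^ 3 ≤ 4.2 ^ 3 := by gcongr
  have c3 : 3.7 ^ 2 ≤ (η * y) ^ 2 := by gcongr
  refine ⟨y0, ?_, ?_, ?_, ?_⟩
  · rw [div_le_div_iff₀ (by positivity) (by positivity)]; linarith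
  · rw [div_le_iff₀ (by positivity)]; linarith
  · rw [div_le_iff₀ (by positivity)]; linarith
  · rw [div_le_iff₀ (by positivity)]; linarith

theorem p_INI (hINT : S_INT) (hUPT : S_UPT) (hHOLD : S_HOLD) (hFALL : S_FALL) (hDOWN : S_DOWN) (hFIRSTV : S_FIRSTV) :
    S_INI := by
  obtain ⟨C₀, hC, hF⟩ := hFIRSTV
  refine ⟨C₀, hC, fun μ κ h1 hμ hκ => ?_⟩
  obtain ⟨l₁, l1, hD⟩ := hDOWN μ κ hμ hκ
  obtain ⟨l₂, l2, hF⟩ := hF μ κ h1 hμ hκ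
  refine ⟨min (min l₁ l₂) (μ / (100 * κ)), by positivity, fun l hl hl0 => ?_⟩
  intro y s₀ s u x hy hy' hs₀ hs hss hu hx u0 x0
  obtain ⟨ρ, hρ⟩ : ∃ ρ, ρ = κ * l ^ 4 := ⟨_, rfl⟩
  rw [← hρ] at u0 x0 ⊢
  have hμ1 := hu.le
  have k1 : l * (100 * κ) ≤ μ := (le_div_iff₀ (by positivity)).1 (hl0.trans (min_le_right _ _))
  have hl1 : l ≤ 1 / 100 := by
    have : l * (100 * 1) ≤ l * (100 * κ) := by gcongr
    linarith
  have r1 : l ^ 4 ≤ ρ := hρ ▸ le_mul_of_one_le_left (by positivity) hκ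
  have ρ0 : 0 < ρ := lt_of_lt_of_le (by positivity) r1
  have r2 : 100 * ρ ≤ μ := by
    have c1 : l ^ 3 ≤ 1 ^ 3 := by gcongr; linarith
    have c2 : l * (100 * κ) * l ^ 3 ≤ μ * 1 ^ 3 := by gcongr
    rw [hρ]; linarith
  obtain ⟨n1, n2, n3, n4⟩ := INI_num hl hl1 r1 (by linarith) hy hs₀ hs hss
  have hα : |(1 + ρ) / s₀| ≤ 2 := by
    rw [abs_of_pos (div_pos (by linarith) (by linarith [hs₀.1])), div_le_iff₀ (by linarith [hs₀.1])]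
    linarith [hs₀.1]
  have x0' : x 0 = ((((1 + ρ) / s₀ : ℝ) : ℂ), -(y ^ 2 * s₀ / s / s), 0) := by
    rw [x0, ini', div_div, ← sq]
  obtain ⟨η, η0, e1, e2, e3, e4, e5, e6, e7, e8, e9⟩ :=
    INI_pt hμ hμ1 hl hl1 r1 r2 n1 n2 n3 n4 hs hα u0 x0'
  obtain ⟨y0, f1, f2, f3, f4⟩ := INI_cube η0 e2 e3
  have l7 : l ^ 7 ≤ l / 100 := by
    have c1 : l ^ 6 ≤ (1 / 100) ^ 6 := by gcongr
    have c2 : l * l ^ 6 ≤ l * (1 / 100) ^ 6 := by gcongr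
    linarith
  have l8 : 4.2 * l ^ 8 ≤ l ^ 6 := by
    have c1 : l ^ 2 ≤ (1 / 100) ^ 2 := by gcongr
    have c2 : l ^ 6 * l ^ 2 ≤ l ^ 6 * (1 / 100) ^ 2 := by gcongr
    have c3 : 0 < l ^ 6 := by positivity
    linarith
  have l6 : l ^ 6 ≤ l / 3 := by
    have c1 : l ^ 5 ≤ (1 / 100) ^ 5 := by gcongr
    have c2 : l * l ^ 5 ≤ l * (1 / 100) ^ 5 := by gcongr
    linarith
  have lρ : l * ρ ≤ 1 / 100 * ρ := by gcongr
  have lρ0 : 0 < l * ρ := by positivity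
  have lρ7 : l ^ 7 * ρ ≤ l / 100 * ρ := by gcongr
  have na : ‖(u 0).1‖ = |(1 + ρ) * s / s₀ - 1| := by rw [u0, ini, norm_real, Real.norm_eq_abs]
  have na1 : ‖(u 0).1‖ ≤ ρ + l * ρ / 100 := by
    rw [na]; exact abs_le.2 ⟨by linarith [(abs_le.1 n1).1], by linarith [(abs_le.1 n1).2]⟩
  have na2 : ρ - l * ρ / 100 ≤ ‖(u 0).1‖ := by
    rw [na]; exact le_trans (by linarith [(abs_le.1 n1).1]) (le_abs_self _)
  have v0 : (u 0).2.2 = 0 := by rw [u0, ini]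
  have H1 : |Hh μ (u 0)| ≤ 2 * ρ ^ 2 := by
    have c1 : l * ρ ^ 2 ≤ 1 * ρ ^ 2 := by gcongr; linarith
    have c2 := abs_le.1 e6
    exact abs_le.2 ⟨by linarith [sq_nonneg ρ], by linarith⟩
  have H2 : |Hh μ (u 0)| ≤ μ ^ 2 := by
    have c2 : (100 * ρ) ^ 2 ≤ μ ^ 2 := by gcongr
    linarith [sq_nonneg ρ]
  obtain ⟨b, b0, hU⟩ := hFALL μ u η 0 hu (by rw [u0]; exact e5) v0.le (by linarith) H2 η0.le
    (by linarith) (by rw [← e1, sub_self, abs_zero]; positivity)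
  rw [sub_zero] at hU
  have wb : rev u b b = Rv (u 0) := by rw [rev, sub_self]
  have w0 : rev u b 0 = Rv (u b) := by rw [rev, sub_zero]
  have wv : (rev u b b).2.2 = 0 := by rw [wb, Rv_3, v0, neg_zero]
  have hS : Sol μ u 0 b := by simpa using hU.sol.rev b
  have m0 : (0 : ℝ) ∈ Icc 0 b := ⟨le_rfl, b0.le⟩
  have mb : b ∈ Icc 0 b := ⟨b0.le, le_rfl⟩
  have Hb : Hh μ (u b) = Hh μ (u 0) := hu.Hh_eq hS.reg mb m0
  obtain ⟨g1, g2, g3⟩ := hD l ρ hl (hl0.trans ((min_le_left _ _).trans (min_le_left _ _))) hρ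
    (rev u b) η b hU wv (by linarith) (by rw [wb, Rv_1, RCLike.norm_conj]; linarith)
    (by rw [w0, Hh_Rv, Hb]; exact H1)
  have l3 : 0 < 1 / l ^ 3 := by positivity
  have g4 : ∀ t ∈ Icc 0 (b - 1 / l ^ 3), ‖bb u t - (u 0).1‖ ≤ l * ρ / 2 := by
    intro t ht
    have := g3 (b - t) ⟨by linarith [ht.2], by linarith [ht.1]⟩
    rwa [bb_rev, bb_rev, ← map_sub, RCLike.norm_conj, ← mul_sub, norm_mul, norm_ex, one_mul,
      sub_sub_cancel, sub_self, bb_zero] at this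
  obtain ⟨c1, c2, c3, c4⟩ := hF l ρ hl (hl0.trans ((min_le_left _ _).trans (min_le_right _ _))) hρ
    u x η b _ hU v0 η0 (by linarith) g1 (by linarith) (fun t ht => by linarith [g4 t ht]) hx
    (by rw [x0']) (by rw [x0', norm_real, Real.norm_eq_abs]; exact hα) e7 e8 e9 rfl
  obtain ⟨a1, a2, a3⟩ := INI_half hUPT hU wv η0 (by linarith)
  have a4 : ∀ t ∈ Icc 0 b, WW (u t) ^ 3 * (1 + (b - t)) ^ 2 ≤ 10 ^ 5 ∧ min 1 (b - t) ≤ (u t).2.1 ∧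
      (u t).2.1 ≤ 70 / η ^ 2 := by
    intro t ht
    have := a3 (b - t) ⟨by linarith [ht.2], by linarith [ht.1]⟩
    simpa only [rev, sub_sub_cancel, WW_Rv, Rv_2] using this
  have z0 : ∀ t ∈ Icc 0 b, 0 ≤ (u t).2.1 := fun t ht =>
    le_trans (le_min zero_le_one (by linarith [ht.2])) (a4 t ht).2.1
  have zb : (u b).2.1 = 0 := by simpa only [w0, Rv_2] using hU.z0
  have vb : (u b).2.2 ≤ -2 := by
    have := hU.v0
    rw [w0, Rv_3] at this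
    linarith
  obtain ⟨e, hA⟩ := Alt0.succ (Z := zz u) (k := 0) (fun i hi => absurd hi (Nat.not_lt_zero i))
    (T := b) (by simpa [cr] using a1) zb (fun t ht => by
      rw [pow_zero, one_mul]
      exact (min_le_min_left _ (min_le_right _ _)).trans (a4 t ht).2.1)
  have e' : cr (zz u) 1 = b := e
  have nb : ‖(u b).1‖ ≤ 70 * μ := by
    have d1 := hINT μ u 0 b hS z0 b mb
    have d2 := norm_sub_norm_le (bb u b) (bb u 0)
    rw [norm_bb, norm_bb] at d2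
    linarith
  obtain ⟨hH, -⟩ := hHOLD μ (fp u) b hu.fp (by simp [fp, zb]) (by simp only [fp, Fp_3]; linarith)
    nb (by simp only [fp, Hh_Fp, Hb]; exact H2)
  have hAlt : Alt (zz u) 1 := ⟨hA, fun t ht => by
    rw [e'] at ht ⊢
    simpa [fp, zz] using (hH t ht).2.1⟩
  have nn : ‖bb (sh u b) (-(1 / l ^ 3))‖ = ‖bb u (b - 1 / l ^ 3)‖ := by
    rw [bb_sh, norm_mul, norm_ex, one_mul, neg_add_eq_sub]
  have g5 := g4 (b - 1 / l ^ 3) ⟨by linarith, le_rfl⟩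
  have g6 := abs_le.1 ((abs_norm_sub_norm_le _ _).trans g5)
  have sb : sh u b 0 = u b := by rw [sh, zero_add]
  have sx : sh x b 0 = x b := by rw [sh, zero_add]
  have hArr : Arr μ l ρ (sh u b) (sh x b) := by
    refine ⟨hx.sh b, by rwa [rev_sh, zero_add], by rw [sb, Hb]; exact e6, by rw [nn]; linarith,
      by rw [nn]; linarith, ?_, ?_⟩
    · rw [sb, sx, ← sh_sy, zero_add]; exact c4
    · rw [sb, sx, hx.dh_eq hu hS.reg mb m0]; linarith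
  have ec : cs u x 1 = cz (u b) (x b) := by rw [cs, e']
  refine ⟨⟨hAlt, e'.symm ▸ hS, ?_, e'.symm ▸ g1, e'.symm ▸ hArr⟩, by rw [ec]; linarith,
    by rw [ec]; linarith, ?_, ?_⟩
  · intro t ht
    have ht' : t ∈ Icc 0 b := e' ▸ ht
    rw [abs_of_nonneg (z0 t ht')]
    linarith [(a4 t ht').2.2]
  · rw [e']
    intro t ht
    have hr := hS.reg t ht
    have w := pow_pos hr.W 3
    have m1 : 0 ≤ min (t - 0) (b - t) := le_min (by linarith [ht.1]) (by linarith [ht.2])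
    refine ⟨hr, le_trans ?_ (a4 t ht).1⟩
    have : 1 + min (t - 0) (b - t) ≤ 1 + (b - t) := by linarith [min_le_right (t - 0) (b - t)]
    gcongr
  · rw [e']
    have d1 : y ^ 3 ≤ (1 / l ^ 11) ^ 3 := by gcongr
    have d2 : 1 / l ^ 34 = (1 / l ^ 11) ^ 3 * (1 / l) := by field_simp
    have d3 : 12 ≤ 1 / l := by rw [le_div_iff₀ hl]; linarith
    have d4 : (1 / l ^ 11) ^ 3 * 12 ≤ (1 / l ^ 11) ^ 3 * (1 / l) := by gcongr
    linarith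

end Pool.Agent.P.MP_9ae58c_an.B

end
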