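import Pool.Agent.P.MP_9ae58c_an.B.IfB

section

/-! Step DEP. -/

namespace Pool.Agent.P.MP_9ae58c_an.B

open Set Filter Topology Complex

/-- the synchronised variation is small at an arrival -/
theorem DEP_small {μ l ρ C₁ : ℝ} {U X : ℝ → St}
    (hV : ∀ (u x : ℝ → St) (η b : ℝ), Up μ u η 0 b → Var μ u x → (x 0).2.1 = 0 →
      ∀ t t', 0 ≤ t → t ≤ t' → t' ≤ b →
        ‖bb x t' - bb x t‖ ≤ C₁ * μ * (η + (u t).2.2) * nn μ (u 0) (x 0))
    (h0 : 0 ≤ C₁ * μ) (h1 : 10 * (C₁ * μ) ≤ 1) (hρ : 0 ≤ ρ) (hl : l * ρ ≤ 1 / 4)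
    (h : Arr μ l ρ U X) :
    Var μ U (sy μ U X 0) ∧ (sy μ U X 0 0).2.1 = 0 ∧
      ‖bb (sy μ U X 0) (-(1 / l ^ 3))‖ ≤ 2.0001 * (ρ * |cz (U 0) (X 0)|) ∧
      |dh μ (U 0) (sy μ U X 0 0)| ≤ l * ρ ^ 2 * |cz (U 0) (X 0)| ∧
      ‖sy μ U X 0 0‖ ≤ 140 * (ρ * |cz (U 0) (X 0)|) := by
  have gl : Glob μ U := by simpa using h.up.sol.gl.rev 0
  have a0 : Adm μ (U 0) := by simpa [rev] using h.up.sol.adm 0 ⟨le_rfl, h.up.le⟩
  have z0 : (U 0).2.1 = 0 := by simpa [rev] using h.up.z0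
  have v0 : (U 0).2.2 ≠ 0 := fun e => by
    have := (a0.cross z0).2
    rw [e, abs_zero] at this
    linarith
  have hv := h.var.sy gl 0
  have hz : (sy μ U X 0 0).2.1 = 0 := sy_z a0.reg v0
  have c0 := abs_nonneg (cz (U 0) (X 0))
  have d1 : ‖bb (sy μ U X 0) (-(1 / l ^ 3))‖ ≤ 2.0001 * (ρ * |cz (U 0) (X 0)|) := by
    have e1 := norm_le_norm_sub_add (bb (sy μ U X 0) (-(1 / l ^ 3)))
      (cz (U 0) (X 0) * I * bb U (-(1 / l ^ 3)))
    rw [norm_mul, norm_mul, norm_I, norm_real, Real.norm_eq_abs, mul_one] at e1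
    have e2 := mul_le_mul_of_nonneg_left h.b2 c0
    linarith [h.cone]
  have d2 : |dh μ (U 0) (sy μ U X 0 0)| ≤ l * ρ ^ 2 * |cz (U 0) (X 0)| := by
    rw [sy, dh_syn gl.pos]
    exact h.nh
  refine ⟨hv, hz, d1, d2, ?_⟩
  have e1 := hV (rev U 0) (rev (sy μ U X 0) 0) 0 _ h.up (hv.rev 0) (by simpa [rev] using hz)
    0 _ le_rfl h.up.le le_rfl
  have e2 : nn μ (rev U 0 0) (rev (sy μ U X 0) 0 0) = nn μ (U 0) (sy μ U X 0 0) := by simp [rev]
  have e3 : ‖bb (rev (sy μ U X 0) 0) 0‖ = ‖(sy μ U X 0 0).1‖ := by simp [rev]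
  have e4 : ‖bb (rev (sy μ U X 0) 0) (1 / l ^ 3)‖ = ‖bb (sy μ U X 0) (-(1 / l ^ 3))‖ := by
    rw [bb_rev0, RCLike.norm_conj]
  have e5 : (rev U 0 0).2.2 ≤ 4.01 := by
    have := (abs_le.1 a0.v).1
    simp only [rev, sub_zero, Rv_3]
    linarith
  have e6 := norm_le_norm_sub_add (bb (rev (sy μ U X 0) 0) 0)
    (bb (rev (sy μ U X 0) 0) (1 / l ^ 3))
  rw [norm_sub_rev, e3, e4] at e6
  rw [e2, zero_add] at e1
  have n0 : 0 ≤ nn μ (U 0) (sy μ U X 0 0) := by unfold nn; positivity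
  have e7 : C₁ * μ * (rev U 0 0).2.2 ≤ 1 / 2 := by nlinarith
  have e8 := mul_le_mul_of_nonneg_right e7 n0
  have e9 : nn μ (U 0) (sy μ U X 0 0) = ‖(sy μ U X 0 0).1‖ + |dh μ (U 0) (sy μ U X 0 0)| := rfl
  have e10 : l * ρ * (ρ * |cz (U 0) (X 0)|) ≤ 1 / 4 * (ρ * |cz (U 0) (X 0)|) :=
    mul_le_mul_of_nonneg_right hl (mul_nonneg hρ c0)
  have e11 := a0.le_nn z0 hz
  nlinarith [mul_nonneg hρ c0]

theorem p_DEP (hUPT : S_UPT) (hUPV : S_UPV) (hEXCF : S_EXCF) :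
    S_DEP := by
  obtain ⟨C₁, hC₁, hV⟩ := hUPV
  refine ⟨10 * C₁, by linarith, fun μ C κ hμ1 hμ hC hκ =>
    ⟨min (μ / 7000) (1 / (20000 * C * κ)), by positivity, ?_⟩⟩
  intro l ρ hl hl0 hρ K Z m ω n u x i hZ hP hG
  have l1 : l ≤ μ / 7000 := hl0.trans (min_le_left _ _)
  have l2 : l * (20000 * C * κ) ≤ 1 := (le_div_iff₀ (by positivity)).1 (hl0.trans (min_le_right _ _))
  have m1 : μ ≤ 1 := by nlinarith
  have l3 : l ≤ 1 / 2 := by linarith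
  have l4 : l ^ 3 ≤ (1 / 2) ^ 3 := by gcongr
  have θ3 : 3 ≤ 1 / l ^ 3 := by rw [le_div_iff₀ (by positivity)]; linarith
  have ρ0 : 0 ≤ ρ := by rw [hρ]; positivity
  have ρ1 : C * ρ ≤ 1 / 20000 := by
    have : C * κ * l * l ^ 3 ≤ C * κ * l * 1 := by gcongr; linarith
    rw [hρ]; nlinarith
  have ρ2 : ρ ≤ 1 / 20000 := by nlinarith
  have hA := hG.arr
  obtain ⟨hv, hz, d1, d2, d3⟩ := DEP_small (C₁ := C₁)
    (fun u x η b h1 h2 h3 => (hV μ u x η b (by nlinarith) h1 h2 h3).1) (by positivity)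
    (by linarith) ρ0 (by nlinarith) hA
  obtain ⟨η, tp, T, hE, η1, TC, na, up, nb, hX⟩ := hP _ hA.up
    (by have := abs_le.1 hA.nH; have := sq_nonneg ρ; exact abs_le.2 ⟨by nlinarith, by nlinarith⟩)
    hA.b2
  obtain ⟨t1, t2, -, -, -, -, -, zT, vT, pw, -, -, hh⟩ := hEXCF _ _ _ _ _ _ hE
  have hx : Var μ u x := by simpa [sh_sh] using hA.var.sh (-cr (zz u) (2 * i + 1))
  have galt := hG.alt
  have gsol := hG.sol
  have ght := hG.ht
  have Θ0 := galt.nonneg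
  have nH := hA.nH
  have nh := hA.nh
  have zT' : (u (T + cr (zz u) (2 * i + 1))).2.1 = 0 := by simpa [fp, sh] using zT
  have vT' : 2 ≤ (u (T + cr (zz u) (2 * i + 1))).2.2 := by
    simp only [fp, sh, Fp_3] at vT
    linarith
  have hh' : ∀ t ∈ Icc (cr (zz u) (2 * i + 1)) (T + cr (zz u) (2 * i + 1)),
      min 1 (min (t - cr (zz u) (2 * i + 1)) (T + cr (zz u) (2 * i + 1) - t)) ≤ -(u t).2.1 ∧
        -(u t).2.1 ≤ 70 / η ^ 2 := fun t ht => by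
    have := hh (t - cr (zz u) (2 * i + 1)) ⟨by linarith [ht.1], by linarith [ht.2]⟩
    simp only [fp, sh, Fp_2, sub_add_cancel, sub_zero] at this
    rwa [show T - (t - cr (zz u) (2 * i + 1)) = T + cr (zz u) (2 * i + 1) - t by ring] at this
  obtain ⟨e, alt0⟩ := galt.1.succ (T := T + cr (zz u) (2 * i + 1)) (by linarith) zT'
    fun t ht => by
      rw [pow_succ, pow_mul, neg_one_sq, one_pow, one_mul, neg_one_mul]
      exact (hh' t ht).1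
  have e2 : cr (zz u) (2 * i + 2) = T + cr (zz u) (2 * i + 1) := e
  rw [sh_sh] at up nb
  have sol : Sol μ u 0 (T + cr (zz u) (2 * i + 1) + 1 / l ^ 3) := ⟨gsol.gl, fun t ht => by
    rcases le_total t (cr (zz u) (2 * i + 1)) with c1 | c1
    · exact gsol.adm t ⟨ht.1, c1⟩
    rcases le_total t (T + cr (zz u) (2 * i + 1)) with c2 | c2
    · simpa [fp, sh] using hE.sol.adm (t - cr (zz u) (2 * i + 1)) ⟨by linarith, by linarith⟩
    · simpa [sh] using up.sol.adm (t - (T + cr (zz u) (2 * i + 1)))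
        ⟨by linarith, by linarith [ht.2]⟩⟩
  have mΘ : 0 + cr (zz u) (2 * i + 1) ∈ Icc 0 (T + cr (zz u) (2 * i + 1) + 1 / l ^ 3) :=
    ⟨by linarith, by linarith⟩
  have mT : T + cr (zz u) (2 * i + 1) ∈ Icc 0 (T + cr (zz u) (2 * i + 1) + 1 / l ^ 3) :=
    ⟨by linarith, by linarith⟩
  have rT : Reg (sh u (cr (zz u) (2 * i + 1)) T) := sol.reg _ mT
  have vT0 : (sh u (cr (zz u) (2 * i + 1)) T).2.2 ≠ 0 := by
    change (u (T + cr (zz u) (2 * i + 1))).2.2 ≠ 0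
    linarith
  obtain ⟨x1, x2⟩ := hX _ hv hz
  have ec : cz (sh u (cr (zz u) (2 * i + 1)) 0) (sh x (cr (zz u) (2 * i + 1)) 0) =
      cs u x (2 * i + 1) := by simp only [sh, zero_add, cs]
  have es : sy μ (sh u (cr (zz u) (2 * i + 1)))
      (sy μ (sh u (cr (zz u) (2 * i + 1))) (sh x (cr (zz u) (2 * i + 1))) 0) T =
      sh (sy μ u x (T + cr (zz u) (2 * i + 1))) (cr (zz u) (2 * i + 1)) := sy_syn rT vT0
  have ez : cz (sh u (cr (zz u) (2 * i + 1)) T)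
      (sy μ (sh u (cr (zz u) (2 * i + 1))) (sh x (cr (zz u) (2 * i + 1))) 0 T) =
      cz (u (T + cr (zz u) (2 * i + 1))) (x (T + cr (zz u) (2 * i + 1))) - cs u x (2 * i + 1) := by
    rw [← ec]
    exact cz_syn rT vT0
  have e0 : sy μ (sh u (cr (zz u) (2 * i + 1))) (sh x (cr (zz u) (2 * i + 1))) 0 =
      sh (sy μ u x (cr (zz u) (2 * i + 1))) (cr (zz u) (2 * i + 1)) := by
    rw [← sh_sy, zero_add]
  rw [es, ez] at x1
  rw [es, sh_sh] at x2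
  rw [ec] at d1 d2 d3 nh
  have c0 := abs_nonneg (cs u x (2 * i + 1))
  have p1 : C * ρ * |cs u x (2 * i + 1)| ≤ 1 / 20000 * |cs u x (2 * i + 1)| := by gcongr
  have p2 : ρ * |cs u x (2 * i + 1)| ≤ 1 / 20000 * |cs u x (2 * i + 1)| := by gcongr
  have p3 := mul_le_mul_of_nonneg_left d3 (by linarith : 0 ≤ C)
  have p4 := abs_nonneg (cz (u (T + cr (zz u) (2 * i + 1))) (x (T + cr (zz u) (2 * i + 1))) -
    cs u x (2 * i + 1))
  have p5 := norm_nonneg (sh (sy μ u x (T + cr (zz u) (2 * i + 1))) (cr (zz u) (2 * i + 1)) T)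
  refine ⟨⟨alt0, fun t ht => ?_⟩, e2 ▸ sol, fun t ht => ?_, e2 ▸ up, e2 ▸ na, ?_, ?_, ?_, ?_, ?_,
    ?_, ?_, ?_⟩
  · rw [e2] at ht ⊢
    have := (hUPT _ _ _ _ _ up (t - (T + cr (zz u) (2 * i + 1)))
      ⟨by linarith [ht.1], by linarith [ht.2]⟩).2.2.2.2.1
    rw [pow_add, pow_mul, neg_one_sq, one_pow, one_mul, one_mul]
    simpa only [sh, sub_zero, sub_add_cancel, zz] using this
  · rw [e2] at ht
    rcases le_total t (cr (zz u) (2 * i + 1)) with c1 | c1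
    · exact ght t ⟨ht.1, c1⟩
    obtain ⟨b1, b2⟩ := hh' t ⟨c1, ht.2⟩
    have b3 : 0 ≤ -(u t).2.1 :=
      le_trans (le_min zero_le_one (le_min (by linarith) (by linarith [ht.2]))) b1
    have b4 : l ^ 15 * l ≤ 1 * l := by gcongr; exact pow_le_one₀ hl.le (by linarith)
    have b5 : 70 / η ^ 2 ≤ 1 / l ^ 16 := by
      rw [div_le_div_iff₀ (by linarith) (by positivity)]
      nlinarith
    rw [abs_of_nonpos (by linarith)]
    linarith
  · rw [e2, sol.gl.Hh_eq sol.reg mT mΘ]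
    exact nH
  · simpa only [am, e2] using nb
  · simp only [am, e2]
    rw [← e0]
    have q1 := mul_le_mul_of_nonneg_left d2 (by linarith : 0 ≤ C)
    have q2 : l * (C * ρ) * (ρ * |cs u x (2 * i + 1)|) ≤
        1 * (1 / 20000) * (ρ * |cs u x (2 * i + 1)|) := by
      gcongr
      linarith
    nlinarith [mul_nonneg ρ0 c0]
  · have := abs_add_le (cz (u (T + cr (zz u) (2 * i + 1))) (x (T + cr (zz u) (2 * i + 1))) -
      cs u x (2 * i + 1)) (cs u x (2 * i + 1))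
    rw [sub_add_cancel] at this
    rw [cs, e2]
    nlinarith
  · rw [e2, hx.dh_eq sol.gl sol.reg mT mΘ]
    exact nh
  · rw [e0, sh, zero_add] at d3
    linarith
  · rw [e2]
    change ‖sh (sy μ u x (T + cr (zz u) (2 * i + 1))) (cr (zz u) (2 * i + 1)) T‖ ≤ _
    nlinarith
  · rw [e2]
    refine ⟨sol.mono Θ0 (by linarith), fun t ht => ?_, by linarith, by linarith,
      vT'.trans (le_abs_self _), fun y hy y0 => ?_⟩
    · have := pw (t - cr (zz u) (2 * i + 1)) ⟨by linarith [ht.1], by linarith [ht.2]⟩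
      simp only [fp, sh, reg_Fp, WW_Fp, sub_add_cancel, sub_zero] at this
      rwa [show T - (t - cr (zz u) (2 * i + 1)) = T + cr (zz u) (2 * i + 1) - t by ring] at this
    · have := (hX _ (hy.sh (cr (zz u) (2 * i + 1))) (by simpa [sh] using y0)).1
      rw [show sh y (cr (zz u) (2 * i + 1)) 0 = y (cr (zz u) (2 * i + 1)) by rw [sh, zero_add]]
        at this
      exact this

end Pool.Agent.P.MP_9ae58c_an.B

end

section

/-! Step NXT. -/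

namespace Pool.Agent.P.MP_9ae58c_an.B

open Set Filter Topology Complex

theorem NXT_var {μ c : ℝ} {u x : ℝ → St} (h : Var μ (sh u c) (sh x c)) : Var μ u x := by
  simpa [sh_sh] using h.sh (-c)

theorem NXT_seg {μ b c U D : ℝ} {u : ℝ → St} (h : Seg μ (sh u c) 0 b U D) :
    Seg μ u c (b + c) U D :=
  ⟨by simpa [sh_sh] using h.sol.sh (-c), by simpa [sh_sh] using h.pw.sh (-c),
    by linarith [h.le], by linarith [h.len], h.v2, fun x hx h0 => by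
      have := h.amp (sh x c) (hx.sh c) (by simpa [sh] using h0)
      rwa [show sh x c 0 = x c by simp [sh]] at this⟩

theorem NXT_esc {μ c : ℝ} {u : ℝ → St} (h : Esc μ (sh u c)) (h' : Sol μ u 0 c) : Esc μ u :=
  ⟨fun t ht => (le_total t c).elim (fun e => h'.adm t ⟨ht, e⟩) fun e => by
      simpa [sh] using h.1 (t - c) (sub_nonneg.2 e),
    (h.2.comp (tendsto_atTop_add_const_right _ (-c) tendsto_id)).congr fun t => by simp [zz, sh]⟩

theorem NXT_ht {μ κ a l η : ℝ} (hμ : μ ≤ 1 / 10 ^ 8) (hκ : 1 ≤ κ) (hl : 0 < l) (l1 : l ≤ 1)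
    (ha : l ≤ a) (η0 : 0 < η) (h : a * (κ * l ^ 4) ^ 2 ≤ 2 * μ * η ^ 2) :
    70 / η ^ 2 ≤ 1 / l ^ 16 := by
  have g4 : l ^ 8 ≤ a := (pow_le_of_le_one hl.le l1 (by norm_num)).trans ha
  have g5 : l ^ 8 ≤ (κ * l ^ 4) ^ 2 := by
    rw [mul_pow, ← pow_mul]
    exact le_mul_of_one_le_left (by positivity) (one_le_pow₀ hκ)
  have g6 := mul_le_mul g4 g5 (by positivity) (hl.le.trans ha)
  rw [div_le_div_iff₀ (by positivity) (by positivity)]
  nlinarith [pow_pos η0 2]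

theorem NXT_sq {ρ B y a : ℝ} (h : 0 < ρ) (hB : 0 ≤ B) (e : y * ρ ^ 2 = B ^ 2 - ρ ^ 2) :
    (y ≤ -(1 / 2) → B ^ 2 ≤ ρ ^ 2 / 2) ∧ (0 < a → a ≤ y → y ≤ 2 →
      (1 + a) * ρ ^ 2 ≤ B ^ 2 ∧ B ^ 2 ≤ 3 * ρ ^ 2 ∧ ρ ≤ B ∧ B ≤ 1.8 * ρ) :=
  have r := pow_pos h 2
  ⟨fun _ => by nlinarith, fun _ _ _ => ⟨by nlinarith, by nlinarith,
    (abs_le_of_sq_le_sq' (by nlinarith) hB).2,
    (abs_le_of_sq_le_sq' (by nlinarith) (by positivity)).2⟩⟩

theorem p_NXT (hINT : S_INT) (hHOLD : S_HOLD) (hEXCF : S_EXCF) (hALIGN : S_ALIGN) (hLONG : S_LONG) (hLONGU : S_LONGU) (hLONGM : S_LONGM) :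
    S_NXT := by
  obtain ⟨C1, c1, hU⟩ := hLONGU
  obtain ⟨C2, c2, hM⟩ := hLONGM
  refine ⟨C1 + C2, by linarith, fun μ κ a hC hμ hκ ha => ?_⟩
  obtain ⟨l1, p1, hL⟩ := hLONG μ κ a hμ hκ ha
  obtain ⟨l2, p2, hU⟩ := hU μ κ a (by nlinarith) hμ hκ ha
  obtain ⟨l3, p3, hM⟩ := hM μ κ a (by nlinarith) hμ hκ ha
  refine ⟨min (min l1 (min l2 l3)) (min (1 / 10) (min a (μ / κ))), by positivity, ?_⟩
  intro l ρ hl hl0 hρ K C Z m ω n u x i hS hZ hG hD
  simp only [le_min_iff] at hl0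
  obtain ⟨⟨q1, q2, q3⟩, q4, q5, q6⟩ := hl0
  have gl := hG.sol.gl
  have hx : Var μ u x := NXT_var hG.arr.var
  have ρ0 : 0 < ρ := by rw [hρ]; positivity
  have l1' : l ≤ 1 := by linarith
  have ρ1 : ρ ≤ μ := by
    rw [le_div_iff₀ (by linarith)] at q6
    have : l ^ 4 ≤ l := pow_le_of_le_one hl.le l1' (by norm_num)
    nlinarith
  have θ0 : 0 < 1 / l ^ 3 := by positivity
  have al := hALIGN K ρ (cs u x (2 * i + 1)) m ω n _ _ _ _ hS ρ0 hG.arr.b1 hG.arr.b2 hD.nb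
    (by simpa only [← sh_sy, sh, zero_add, am, cs] using hG.arr.cone) hD.nd
  obtain ⟨d1, d2, d3, d4, d5, d6, -, -, d9, d10, -, -, d13⟩ := hD
  have v2 := d13.v2
  have ey : yo l ρ u i * ρ ^ 2 = ‖am u u (2 * i + 2) (1 / l ^ 3)‖ ^ 2 - ρ ^ 2 := by
    rw [yo]; field_simp
  have T0 := d1.nonneg
  simp only [cs, am] at *
  generalize hT : cr (zz u) (2 * i + 2) = T at *
  generalize cz (u (cr (zz u) (2 * i + 1))) (x (cr (zz u) (2 * i + 1))) = c₀ at *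
  generalize yo l ρ u i = y at *
  have s0 : Sol μ u 0 T := d2.mono le_rfl (by linarith)
  have e0 : sh u T 0 = u T := by simp [sh]
  obtain ⟨L1, L2⟩ := hL l ρ hl q1 hρ (sh u T) d4 (by rw [e0]; linarith) (by rwa [e0])
  obtain ⟨r1, r2⟩ := NXT_sq (a := a) ρ0 (norm_nonneg _) ey
  refine ⟨fun hy => NXT_esc (L1 (r1 hy)) s0, fun y1 y2 => ?_⟩
  obtain ⟨r3, r4, n1, n2⟩ := r2 ha y1 y2
  obtain ⟨η, tp, b, lg, he⟩ := L2 r3 r4
  have sg := NXT_seg (hU l ρ hl q2 hρ _ η tp b lg)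
  obtain ⟨f1, f2, -, -, -, -, -, f8, f9, -, -, -, f13⟩ := hEXCF μ _ η 0 tp b lg.exc
  have f14 : ∀ t ∈ Icc T (b + T), min 1 (min (t - T) (b + T - t)) ≤ (u t).2.1 ∧
      (u t).2.1 ≤ 70 / η ^ 2 := fun t ht => by
    have := f13 (t - T) ⟨by linarith [ht.1], by linarith [ht.2]⟩
    rwa [sh, sub_add_cancel, sub_zero, show b - (t - T) = b + T - t by ring] at this
  obtain ⟨e, a0⟩ := d1.1.succ (T := b + T) (by linarith) f8 (by
    rw [hT, pow_add, pow_mul]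
    simpa [zz] using fun t h1 h2 => by simpa using (f14 t ⟨h1, h2⟩).1)
  replace e : cr (zz u) (2 * (i + 1) + 1) = b + T := e
  have mT : T ∈ Icc T (b + T) := ⟨le_rfl, sg.le⟩
  have mb : b + T ∈ Icc T (b + T) := ⟨sg.le, le_rfl⟩
  have rT := sg.sol.reg _ mT
  have rb := sg.sol.reg _ mb
  have vT : (u T).2.2 ≠ 0 := fun h => by rw [h, abs_zero] at v2; linarith
  have vb : (u (b + T)).2.2 ≠ 0 := fun h => by rw [sh, h] at f9; linarith
  have n3 := abs_le.1 ((abs_norm_sub_norm_le _ _).trans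
    (lg.cl (b - 1 / l ^ 3) ⟨by linarith [lg.t1, lg.t2], le_rfl⟩))
  have n4 : l * ρ ≤ 1 / 10 * ρ := by gcongr
  have n5 := (abs_le.1 ((abs_norm_sub_norm_le _ _).trans (hINT μ _ 0 _ lg.up.sol
    (fun t ht => (lg.up.nonneg ht).1) _ ⟨θ0.le, le_rfl⟩))).1
  have eb : sh u T (b - 1 / l ^ 3) = sh u (b + T) (-(1 / l ^ 3)) := by
    simp only [sh]; congr 1; ring
  rw [norm_bb _ (b - _), eb] at n3
  rw [norm_bb, norm_bb, rev, rev, eb, sub_zero, Rv_1, Rv_1, norm_conj, norm_conj,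
    show sh u T b = u (b + T) from rfl] at n5
  obtain ⟨m1, m2, m3, m4⟩ := hM l ρ hl q3 hρ (sh u T) (sh (sy μ u x T) T) η tp b K |c₀|
    (cz (u T) (x T)) (cz (u (b + T)) (x (b + T))) lg ((hx.sy gl T).sh T)
    (by rw [sh, zero_add]; exact sy_z rT vT) (by linarith [hS.K1]) (al.2.2 n1 lg.nb) al.2.1
    (by rwa [sh, sh, zero_add, sy, dh_syn hμ]) d9
    (by rw [sh, sh, sy, cz_syn rb vb, add_sub_cancel])
  rw [← sh_sy, show sy μ u (sy μ u x T) (b + T) = _ from sy_syn rb vb, sh_sh, sh_sh] at m4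
  rw [e, ey]
  refine ⟨⟨⟨a0, fun t ht => ?_⟩, e ▸ s0.trans sg.sol, fun t ht => ?_, ?_, ?_⟩, sg, η, lg.exc.pos, he,
    m1, m2⟩
  · rw [e] at ht ⊢
    have := ((hHOLD μ (fp u) (b + T) gl.fp (neg_eq_zero.2 f8) (neg_nonneg.2 (f9.trans (by norm_num)))
      (by rw [fp, Fp_1]; linarith [n3.2, lg.nb]) (sg.sol.adm _ mb).fp.nH).1 t ht).2.1
    rw [pow_succ, pow_mul]
    simpa [zz, fp] using this
  · rw [e] at ht
    rcases le_total t T with h | h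
    · exact d3 t ⟨ht.1, h⟩
    obtain ⟨g1, g2⟩ := f14 t ⟨h, ht.2⟩
    rw [abs_of_nonneg (le_trans (le_min zero_le_one (le_min (sub_nonneg.2 h) (sub_nonneg.2 ht.2))) g1)]
    exact g2.trans ((NXT_ht gl.le hκ hl l1' q5 lg.exc.pos (hρ ▸ lg.e1)).trans hZ)
  · linarith [lg.t2]
  · have e1 : ∀ w : ℝ → St, sh w (b + T) 0 = w (b + T) := fun w => by simp [sh]
    rw [e]
    refine ⟨hx.sh _, by simpa only [rev_sh, zero_add] using lg.up, ?_, ?_, ?_, ?_, ?_⟩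
    · rwa [e1, gl.Hh_eq sg.sol.reg mb mT]
    · rw [norm_bb]; linarith [n3.1]
    · rw [norm_bb]; linarith [n3.2]
    · rwa [← sh_sy, zero_add, e1, e1]
    · rw [e1, e1, hx.dh_eq gl sg.sol.reg mb mT]
      exact d10.trans (by gcongr)

end Pool.Agent.P.MP_9ae58c_an.B

end

section

/-! Step RAT. -/

namespace Pool.Agent.P.MP_9ae58c_an.B

open Set Filter Topology Complex

theorem RAT_lo {μ K ρ η c c' s : ℝ} (hμ : 0 < μ) (hK : 1 ≤ K) (hρ : 0 < ρ) (hη : 0 < η)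
    (hc : 0 ≤ c) (hc' : 0 ≤ c') (hs : 0 < s) (h1 : η ^ 2 ≤ (s * ρ) ^ 2)
    (h : K * ρ ^ 2 * c / 100 ≤ μ * η ^ 5 * c') : c ≤ 100 * μ * s ^ 5 * ρ ^ 3 * c' := by
  have h2 : η ≤ s * ρ := le_of_sq_le_sq h1 (by positivity)
  have h3 : μ * η ^ 5 * c' ≤ μ * (s * ρ) ^ 5 * c' := by gcongr
  have h4 : 1 * ρ ^ 2 * c / 100 ≤ K * ρ ^ 2 * c / 100 := by gcongr
  refine le_of_mul_le_mul_left ?_ (show 0 < ρ ^ 2 by positivity)
  linarith [show μ * (s * ρ) ^ 5 * c' = ρ ^ 2 * (100 * μ * s ^ 5 * ρ ^ 3 * c') / 100 by ring]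

theorem RAT_hi {μ K ρ η c c' s : ℝ} (hμ : 0 < μ) (hρ : 0 < ρ) (hη : 0 < η)
    (hc' : 0 ≤ c') (hs : 0 < s) (h1 : (s * ρ) ^ 2 ≤ η ^ 2)
    (h : μ * η ^ 5 * c' ≤ 10 ^ 5 * K * ρ ^ 2 * c) : μ * s ^ 5 * ρ ^ 3 * c' ≤ 10 ^ 5 * K * c := by
  have h2 : s * ρ ≤ η := le_of_sq_le_sq h1 hη.le
  have h3 : μ * (s * ρ) ^ 5 * c' ≤ μ * η ^ 5 * c' := by gcongr
  refine le_of_mul_le_mul_left ?_ (show 0 < ρ ^ 2 by positivity)
  linarith [show μ * (s * ρ) ^ 5 * c' = ρ ^ 2 * (μ * s ^ 5 * ρ ^ 3 * c') by ring]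

theorem p_RAT :
    S_RAT := by
  intro μ K hμ hμ1 hK
  obtain ⟨κ, hκ⟩ := exists_nat_ge (10 ^ 5 * K / μ + 1)
  have k0 : 0 < 10 ^ 5 * K / μ := by positivity
  have k1 : (1 : ℝ) ≤ κ := by linarith
  have k2 : 10 ^ 5 * K ≤ μ * κ ^ 3 := by
    have h1 : 10 ^ 5 * K / μ ≤ κ ^ 3 := by
      linarith [le_self_pow₀ k1 (show 3 ≠ 0 by norm_num)]
    rwa [div_le_iff₀' hμ] at h1
  obtain ⟨σ, hσ⟩ : ∃ σ : ℝ, σ = 1 / (100 * κ ^ 3) := ⟨_, rfl⟩
  have s0 : 0 < σ := by rw [hσ]; positivity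
  have s2 : 100 * σ * κ ^ 3 = 1 := by rw [hσ]; field_simp
  have s1 : σ ≤ 1 := by nlinarith [one_le_pow₀ (n := 3) k1]
  obtain ⟨a, ha⟩ := exists_nat_ge (4 / (μ * σ ^ 2) + 4)
  have a0 : 0 < 4 / (μ * σ ^ 2) := by positivity
  have a1 : (4 : ℝ) ≤ a := by linarith
  have a2 : 4 ≤ a * (μ * σ ^ 2) := (div_le_iff₀ (by positivity)).1 (by linarith)
  refine ⟨κ, a, by exact_mod_cast k1, by exact_mod_cast a1,
    10 ^ 5 * K * a ^ 5 / μ + 3200 * κ ^ 3 / μ ^ 4, ?_⟩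
  intro l ρ η c c' Y hl hal hρ hη hc hc' h1 h2 h3
  have r0 : 0 < ρ := by rw [hρ]; positivity
  have r3 : ρ ^ 3 = κ ^ 3 * l ^ 12 := by rw [hρ]; ring
  have l0 : 0 < l ^ 12 := by positivity
  obtain ⟨b, hb⟩ : ∃ b : ℝ, b = 1 / a := ⟨_, rfl⟩
  have b0 : 0 < b := by rw [hb]; positivity
  have b1 : a * b = 1 := by rw [hb]; field_simp
  have b2 : b ≤ 1 / 4 := by linarith [mul_le_mul_of_nonneg_right a1 b0.le]
  have b3 : 6 * l ≤ b / 5 := by
    have := mul_le_mul_of_nonneg_right hal b0.le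
    rw [show 30 * a * l * b = 30 * l * (a * b) by ring, b1] at this
    linarith
  have e1 : 3 / (10 * a : ℝ) = 3 / 10 * b := by rw [hb]; field_simp
  have e2 : 3 / (2 * a : ℝ) = 3 / 2 * b := by rw [hb]; field_simp
  have n1 : μ / (1 + μ) * η ^ 2 ≤ η ^ 2 :=
    mul_le_of_le_one_left (sq_nonneg _) ((div_le_one (by linarith)).2 (by linarith))
  have n2 : μ / 2 * η ^ 2 ≤ μ / (1 + μ) * η ^ 2 := by gcongr; linarith
  have q0 : 0 < ρ ^ 2 := by positivity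
  have q1 : 6 * l * ρ ^ 2 ≤ b / 5 * ρ ^ 2 := by gcongr
  obtain ⟨h4, h5⟩ := abs_le.1 (h1.trans q1)
  have p1 : 0 ≤ 10 ^ 5 * K * a ^ 5 / μ := by positivity
  have p2 : 0 ≤ 3200 * (κ : ℝ) ^ 3 / μ ^ 4 := by positivity
  rw [e1, e2]
  constructor
  · intro hY
    obtain ⟨y1, y2⟩ := abs_le.1 hY
    have z1 := mul_le_mul_of_nonneg_right y1 q0.le
    have z2 := mul_le_mul_of_nonneg_right y2 q0.le
    have u1 : b * ρ ^ 2 ≤ η ^ 2 := by linarith
    have u2 : μ * η ^ 2 ≤ 4 * b * ρ ^ 2 := by linarith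
    have u3 : 4 * b ≤ μ * σ ^ 2 := by
      have := mul_le_mul_of_nonneg_right a2 b0.le
      rwa [mul_right_comm, b1, one_mul] at this
    have u4 : η ^ 2 ≤ (σ * ρ) ^ 2 := le_of_mul_le_mul_left
      (by linarith [mul_le_mul_of_nonneg_right u3 q0.le]) hμ
    have u5 : (b * ρ) ^ 2 ≤ η ^ 2 := by
      linarith [mul_le_mul_of_nonneg_right b2 (mul_pos b0 q0).le, mul_pos b0 q0]
    have v1 := RAT_lo hμ hK r0 hη hc hc' s0 u4 h2
    have v2 := RAT_hi hμ r0 hη hc' b0 u5 h3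
    constructor
    · rw [div_le_iff₀ l0]
      have w1 : σ ^ 5 ≤ σ := pow_le_of_le_one s0.le s1 (by norm_num)
      have w2 : 100 * μ * σ ^ 5 * ρ ^ 3 * c' ≤ 100 * 1 * σ * ρ ^ 3 * c' := by gcongr
      have w3 : 100 * 1 * σ * ρ ^ 3 * c' = 100 * σ * κ ^ 3 * (c' * l ^ 12) := by rw [r3]; ring
      rw [s2] at w3
      linarith
    · refine le_trans ?_ (mul_le_mul_of_nonneg_right (le_add_of_nonneg_right p2) (by positivity))
      rw [← mul_div_assoc, le_div_iff₀ l0, div_mul_eq_mul_div, le_div_iff₀ hμ]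
      have w1 : μ * b ^ 5 * (1 * l ^ 12) * c' ≤ μ * b ^ 5 * ρ ^ 3 * c' := by
        rw [r3]
        gcongr
        exact one_le_pow₀ k1
      have w2 := mul_le_mul_of_nonneg_left (w1.trans v2) (show (0 : ℝ) ≤ a ^ 5 by positivity)
      have w3 : (a : ℝ) ^ 5 * (μ * b ^ 5 * (1 * l ^ 12) * c') = (a * b) ^ 5 * (c' * l ^ 12 * μ) := by
        ring
      rw [b1] at w3
      linarith
  · intro hY
    obtain ⟨y1, y2⟩ := abs_le.1 hY
    have z1 := mul_le_mul_of_nonneg_right y1 q0.le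
    have z2 := mul_le_mul_of_nonneg_right y2 q0.le
    have z3 := mul_le_mul_of_nonneg_right b2 q0.le
    have u1 : (1 * ρ) ^ 2 ≤ η ^ 2 := by linarith
    have u2 : μ * η ^ 2 ≤ 4 * ρ ^ 2 := by linarith
    have u4 : η ^ 2 ≤ (2 / μ * ρ) ^ 2 := by
      rw [div_mul_eq_mul_div, div_pow, le_div_iff₀ (by positivity)]
      linarith [mul_le_mul_of_nonneg_right hμ1 (mul_pos hμ (pow_pos hη 2)).le]
    have v1 := RAT_lo hμ hK r0 hη hc hc' (by positivity) u4 h2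
    have v2 := RAT_hi hμ r0 hη hc' one_pos u1 h3
    constructor
    · refine le_trans ?_ (mul_le_mul_of_nonneg_right (le_add_of_nonneg_left p1) hc')
      rw [div_le_iff₀ l0]
      refine v1.trans (le_of_eq ?_)
      rw [r3]
      field_simp
      ring
    · rw [le_div_iff₀ l0]
      refine le_of_mul_le_mul_left ?_ (show 0 < 10 ^ 5 * K by positivity)
      have w1 : 10 ^ 5 * K * (c' * l ^ 12) ≤ μ * κ ^ 3 * (c' * l ^ 12) := by gcongr
      rw [r3] at v2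
      linarith

end Pool.Agent.P.MP_9ae58c_an.B

end

section

/-! Step DSTEP. -/

namespace Pool.Agent.P.MP_9ae58c_an.B

open Set Filter Topology Complex

theorem p_DSTEP (hPOLY : S_POLY) (hDIST : S_DIST) (hVEX : S_VEX) :
    S_DSTEP := by
  obtain ⟨P, hP, hp⟩ := hPOLY
  obtain ⟨C, hC, hd⟩ := hDIST
  refine ⟨C, P, hC, hP, ?_, ?_⟩
  · intro μ u w x y a b a' b' U D d X hs hw hab h1 hX h2 h3 h4 hx hy x0 y0
    obtain ⟨z, hz, z0⟩ := hVEX μ u hs.sol.gl a (y a')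
    have l1 := hs.le
    have l2 := hs.len
    have hX' : (2 + b - a) ^ P ≤ X := le_trans (pow_le_pow_left₀ (by linarith) (by linarith) P) hX
    have hG : Gr μ u a b X := (hp μ hs.sol.gl.mu u a b hs.pw).mono le_rfl le_rfl hX'
    have s1 := hs.sol.sh a
    have s2 := hw.sh a'
    have s3 := hG.sh a
    rw [sub_self] at s1 s2 s3
    have e := (hd μ (sh u a) (sh w a') (sh z a) (sh y a') (b - a) (b' - a') X d s1 s2 s3
      ((one_le_pow₀ (by linarith)).trans hX') (by linarith) (by linarith) h3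
      (by simpa [sh] using h2) h4 (by simpa [sh] using le_trans one_le_two hs.v2)
      (by simpa [sh] using h1) (hz.sh a) (hy.sh a')).2.2
    rw [← sh_sy, ← sh_sy] at e
    simp only [sh, sub_add_cancel, zero_add, z0, sub_self, norm_zero, mul_zero] at e
    have f := hs.amp _ (hz.sub hx) (by simp [z0, x0, y0])
    rw [sy_sub, cz_sub, z0] at f
    have t1 := abs_sub_le (cz (w b') (y b')) (cz (u b) (z b)) (cz (u b) (x b))
    have t2 := norm_sub_le_norm_sub_add_norm_sub (sy μ w y b' b') (sy μ u z b b) (sy μ u x b b)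
    linarith
  · intro μ u w x y b b' d X hu hpw hw b0 b1 h1 h2 hX h3 h4 h5 hx hy
    have hG : Gr μ u 0 b X := (hp μ hu.gl.mu u 0 b hpw).mono le_rfl le_rfl (by rwa [sub_zero])
    exact (hd μ u w x y b b' X d hu hw hG ((one_le_pow₀ (by linarith)).trans hX) b0 b1 h4 h3 h5
      h1 h2 hx hy).2.2

end Pool.Agent.P.MP_9ae58c_an.B

end
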