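import Pool.Agent.P.MP_9ae58c_an.B.IfB

section

/-! Step DCL. -/

namespace Pool.Agent.P.MP_9ae58c_an.B

open Set Filter Topology Complex

theorem p_DCL (hFAMD : S_FAMD) :
    S_DCL := by
  intro μ u x s s' H i hF hs hs' hi h
  have key := fun σ (hσ : σ ∈ uIcc s s') => hFAMD μ u x σ _ 0 i hF
    ((lt_min hs hs').trans_le hσ.1) hi (h σ hσ).1 (h σ hσ).2.1 le_rfl
    (by rw [add_zero]; exact ⟨(h σ hσ).1.nonneg, le_rfl⟩)
  simp only [add_zero] at key
  exact ⟨(convex_uIcc s s').norm_image_sub_le_of_norm_hasDerivWithin_le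
      (fun σ hσ => (key σ hσ).1.hasDerivWithinAt) (fun σ hσ => (h σ hσ).2.2.1)
      left_mem_uIcc right_mem_uIcc,
    (convex_uIcc s s').norm_image_sub_le_of_norm_hasDerivWithin_le
      (fun σ hσ => (key σ hσ).2.hasDerivWithinAt) (fun σ hσ => (h σ hσ).2.2.2)
      left_mem_uIcc right_mem_uIcc⟩

end Pool.Agent.P.MP_9ae58c_an.B

end

section

/-! Step DREC. -/

namespace Pool.Agent.P.MP_9ae58c_an.B

open Set Filter Topology Complex

theorem p_DREC :
    S_DREC := by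
  intro l m N j E c hl hl2 hj hc h0 hs
  have hl1 : l ≤ 1 := by linarith
  induction j with
  | zero =>
    refine h0.trans (mul_le_mul_of_nonneg_right ?_ (hc 0))
    rw [Nat.sub_zero]
    exact div_le_div_of_nonneg_left (by positivity) (by positivity)
      (pow_le_pow_of_le_one hl.le hl1 (Nat.le_add_right _ _))
  | succ i ih =>
    have h1 := ih (by omega) fun k hk => hs k (by omega)
    obtain ⟨h2, h3⟩ := hs i (by omega)
    have e : 12 * (N - i) = 12 * (N - (i + 1)) + 12 := by omega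
    rw [e, pow_add, pow_add] at h1
    rw [pow_add]
    set P := l ^ (12 * (N - (i + 1))) with hP
    have hP0 : 0 < P := by positivity
    set Q := l ^ m with hQ
    have hQ0 : 0 < Q := by positivity
    have h13 : l ^ 13 ≤ 1 / 2 :=
      (pow_le_of_le_one hl.le hl1 (by norm_num)).trans hl2
    have hA : 0 ≤ (P * l ^ 12 / (Q * l ^ 24) + P / Q) / l ^ 22 := by positivity
    have hB : 0 ≤ P / (Q * l ^ 24) * c (i + 1) := mul_nonneg (by positivity) (hc _)
    calc E (i + 1) ≤ (E i + P / Q * c i) / l ^ 22 := h2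
      _ ≤ (P * l ^ 12 / (Q * l ^ 24) * c i + P / Q * c i) / l ^ 22 := by gcongr
      _ = (P * l ^ 12 / (Q * l ^ 24) + P / Q) / l ^ 22 * c i := by ring
      _ ≤ (P * l ^ 12 / (Q * l ^ 24) + P / Q) / l ^ 22 * (l ^ 11 * c (i + 1)) :=
        mul_le_mul_of_nonneg_left h3 hA
      _ = (l + l ^ 13) * (P / (Q * l ^ 24) * c (i + 1)) := by
        field_simp
      _ ≤ 1 * (P / (Q * l ^ 24) * c (i + 1)) := mul_le_mul_of_nonneg_right (by linarith) hB
      _ = _ := one_mul _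

end Pool.Agent.P.MP_9ae58c_an.B

end

section

/-! Step DSTJ. -/

namespace Pool.Agent.P.MP_9ae58c_an.B

open Set Filter Topology Complex

namespace DSTJ

/-- the distance of two synchronised variations -/
noncomputable def dd (μ : ℝ) (u w x y : ℝ → St) (a a' : ℝ) : ℝ :=
  |cz (w a') (y a') - cz (u a) (x a)| + ‖sy μ w y a' a' - sy μ u x a a‖

variable {μ : ℝ} {u w x y : ℝ → St} {a b a' b' U D d X C l : ℝ} {P : ℕ}

theorem spd {p : St} (h : Adm μ p) (hz : p.2.1 = 0) : 1 ≤ |p.2.2| ∧ p.2.2 ≠ 0 :=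
  have e : 1 ≤ |p.2.2| := by linarith [(h.cross hz).2]
  ⟨e, abs_pos.1 (by linarith)⟩

theorem step (h : ∀ (μ : ℝ) (u w x y : ℝ → St) (a b a' b' U D d X : ℝ), Seg μ u a b U D →
      Sol μ w a' b' → a' ≤ b' → 1 ≤ |(w b').2.2| → (2 + D) ^ P ≤ X → ‖w a' - u a‖ ≤ d →
      |b' - a' - (b - a)| ≤ d → C * X ^ 2 * d ≤ 1 → Var μ u x → Var μ w y → (x a).2.1 = 0 →
      (y a').2.1 = 0 → |cz (w b') (y b') - cz (u b) (x b)| + ‖sy μ w y b' b' - sy μ u x b b‖ ≤
        U * ‖y a' - x a‖ + C * X ^ 3 * d * ‖y a'‖)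
    (hs : Seg μ u a b U D) (hw : Sol μ w a' b') (e : a' ≤ b') (z1 : (u a).2.1 = 0)
    (z2 : (w a').2.1 = 0) (z3 : (w b').2.1 = 0) (hX : (2 + D) ^ P ≤ X) (h1 : ‖w a' - u a‖ ≤ d)
    (h2 : |b' - b| + |a' - a| ≤ d) (h3 : C * X ^ 2 * d ≤ 1) (hx : Var μ u x) (hy : Var μ w y)
    (hU : 1 ≤ U) :
    dd μ u w x y b b' ≤ U * dd μ u w x y a a' + C * X ^ 3 * d * ‖sy μ w y a' a'‖ := by
  have p1 := hs.sol.adm a ⟨le_rfl, hs.le⟩
  have p2 := hw.adm a' ⟨le_rfl, e⟩
  have p3 := hw.adm b' ⟨e, le_rfl⟩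
  have p4 := (hs.sol.adm b ⟨hs.le, le_rfl⟩).reg
  have v4 : (u b).2.2 ≠ 0 := abs_pos.1 (by linarith [hs.v2])
  have k := h μ u w (sy μ u x a) (sy μ w y a') a b a' b' U D d X hs hw e (spd p3 z3).1 hX h1
    (le_trans (by rw [show b' - a' - (b - a) = b' - b - (a' - a) by ring]; exact abs_sub _ _) h2) h3
    (hx.sy hs.sol.gl a) (hy.sy hw.gl a') (sy_z p1.reg (spd p1 z1).2) (sy_z p2.reg (spd p2 z2).2)
  have e1 : cz (u b) (sy μ u x a b) = cz (u b) (x b) - cz (u a) (x a) := cz_syn p4 v4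
  have e2 : cz (w b') (sy μ w y a' b') = cz (w b') (y b') - cz (w a') (y a') :=
    cz_syn p3.reg (spd p3 z3).2
  have e3 : sy μ u (sy μ u x a) b = sy μ u x b := sy_syn p4 v4
  have e4 : sy μ w (sy μ w y a') b' = sy μ w y b' := sy_syn p3.reg (spd p3 z3).2
  rw [e1, e2, e3, e4, sub_sub_sub_comm] at k
  have := abs_sub_abs_le_abs_sub (cz (w b') (y b') - cz (u b) (x b))
    (cz (w a') (y a') - cz (u a) (x a))
  have := le_mul_of_one_le_left (abs_nonneg (cz (w a') (y a') - cz (u a) (x a))) hU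
  unfold dd
  linarith

theorem pw (hD : 0 ≤ D) (h : 2 + D ≤ 1 / l ^ 35) : (2 + D) ^ P ≤ 1 / l ^ (35 * P) := by
  rw [pow_mul, ← one_div_pow]
  gcongr

theorem two (h0 : 0 < l) (h1 : l ≤ 1 / 4) {n : ℕ} (hn : n ≤ 34) (h : D ≤ 1 / l ^ n) :
    2 + D ≤ 1 / l ^ 35 := by
  have a : 1 / l ^ n ≤ 1 / l ^ 34 :=
    one_div_le_one_div_of_le (by positivity) (pow_le_pow_of_le_one h0.le (by linarith) hn)
  have b : 1 ≤ 1 / l ^ 34 := one_le_one_div (by positivity) (pow_le_one₀ h0.le (by linarith))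
  have c : 1 / l ^ 35 * l = 1 / l ^ 34 := by field_simp
  have : 0 < 1 / l ^ 35 := by positivity
  nlinarith

theorem sml (h0 : 0 < l) (h1 : l ≤ 1 / 4) (hC : 1 ≤ C) (h : 6 * C * l ≤ 1) {n : ℕ}
    (hn : 9 * P + 3 ≤ n) : C * (1 / l ^ (35 * P)) ^ 2 * (3 * (l ^ (12 * n) / l)) ≤ 1 := by
  have a : l ^ (12 * n) ≤ l ^ (35 * P * 2 + 2) := pow_le_pow_of_le_one h0.le (by linarith) (by omega)
  calc _ ≤ C * (1 / l ^ (35 * P)) ^ 2 * (3 * (l ^ (35 * P * 2 + 2) / l)) := by gcongr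
    _ = 3 * C * l := by
      rw [pow_add, pow_mul l _ 2]
      field_simp
    _ ≤ 1 := by nlinarith

theorem big (h0 : 0 < l) (h : 6 * C * l ≤ 1) :
    6 * C * (1 / l ^ (35 * P)) ^ 3 ≤ 1 / l ^ (105 * P + 1) := by
  rw [show 105 * P + 1 = 35 * P * 3 + 1 by ring, pow_succ l, pow_mul l _ 3, le_div_iff₀ (by positivity)]
  refine le_of_eq_of_le ?_ h
  field_simp

end DSTJ

open DSTJ in
theorem p_DSTJ (hDSTEP : S_DSTEP) (hDCL : S_DCL) (hDREC : S_DREC) :
    S_DSTJ := by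
  obtain ⟨B, P, hB, -, st1, st2⟩ := hDSTEP
  refine ⟨9 * P + 3, fun C hC => ⟨min (1 / (6 * B)) (min (1 / C) (1 / 4)), by positivity,
    fun l l0 hl μ K ρ m ω n Z s s' S u x N j hF s0 s0' hN hS hs hu hx hx' hpw hb hc hG hL => ?_⟩⟩
  have l1 : 6 * B * l ≤ 1 := by
    have := (le_div_iff₀ (by positivity)).1 (hl.trans (min_le_left _ _))
    linarith
  have l2 : C ≤ 1 / l := by
    have := (le_div_iff₀ (by positivity)).1 (hl.trans ((min_le_right _ _).trans (min_le_left _ _)))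
    rw [le_div_iff₀ l0]
    linarith
  have l3 : l ≤ 1 / 4 := hl.trans ((min_le_right _ _).trans (min_le_right _ _))
  have l4 : l ≤ 1 := by linarith
  have S0 : 0 < S := lt_of_lt_of_le (by positivity) hS
  have m0 : s ∈ uIcc s s' := left_mem_uIcc
  have m1 : s' ∈ uIcc s s' := right_mem_uIcc
  have cl : ∀ i ≤ j, S / l ^ (12 * i + 1) * |s' - s| ≤ l ^ (12 * (N - i)) / l := fun i hi =>
    calc _ ≤ S / l ^ (12 * i + 1) * (l ^ (12 * N) / S) := by gcongr
      _ = _ := by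
        rw [show 12 * N = 12 * (N - i) + 12 * i by omega, pow_add, pow_add]
        field_simp
  have c1 := fun i (hi : i ≤ j) => hDCL μ u x s s' _ (2 * i + 1) hF s0 s0' (by omega) fun σ hσ =>
    let ⟨g1, g2, g3⟩ := hG σ hσ i hi
    ⟨g1.alt, g1.sol, g3, g2.n1.trans g3⟩
  have c2 := fun i (hi : i ≤ j) => hDCL μ u x s s' (2 * (S / l ^ (12 * i + 1))) (2 * i + 2) hF s0 s0'
    (by omega) fun σ hσ =>
    let ⟨_, g2, g3⟩ := hG σ hσ i hi
    ⟨g2.alt, g2.sol.mono le_rfl (le_add_of_nonneg_right (by positivity)), by linarith [g2.nc],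
      by linarith [g2.n2, abs_nonneg (cs (u σ) (x σ) (2 * i + 1))]⟩
  have bg := big (P := P) l0 l1
  have X1 : 1 ≤ 1 / l ^ (35 * P) := one_le_one_div (by positivity) (pow_le_one₀ l0.le l4)
  have sm := fun n => sml (P := P) (n := n) l0 l3 hB l1
  have pw' := fun D => pw (P := P) (D := D) (l := l)
  generalize 1 / l ^ (35 * P) = X at bg X1 sm pw'
  have k := hDREC l (105 * P + 1) N j
    (fun i => dd μ (u s) (u s') (x s) (x s') (cr (zz (u s)) (2 * i + 1)) (cr (zz (u s')) (2 * i + 1)))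
    (fun i => |cs (u s') (x s') (2 * i + 1)|) l0 (by linarith) (by omega) (fun _ => abs_nonneg _)
    ?_ fun i hi => ⟨?_, (hL i hi).2⟩
  · have a : l ^ (12 * (N - j)) / l ^ (105 * P + 1 + 24) ≤ 1 / 2 := by
      rw [div_le_iff₀ (by positivity)]
      calc _ ≤ l ^ (105 * P + 1 + 24 + 1) := pow_le_pow_of_le_one l0.le l4 (by omega)
        _ ≤ _ := by
          rw [pow_succ' l (_ + 24)]
          gcongr
          linarith
    have := mul_le_mul_of_nonneg_right a (abs_nonneg (cs (u s') (x s') (2 * j + 1)))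
    rw [abs_sub_comm]
    refine (le_add_of_nonneg_right (norm_nonneg _)).trans (k.trans ?_)
    linarith
  · obtain ⟨g1, -⟩ := hG s m0 0 j.zero_le
    obtain ⟨g2, -⟩ := hG s' m1 0 j.zero_le
    have q0 : 0 < l ^ (12 * N) := by positivity
    have a1 : |s' - s| / l ^ 23 ≤ l ^ (12 * N) * l :=
      calc _ ≤ l ^ (12 * N) / (1 / l ^ 24) / l ^ 23 := by
            gcongr
            exact hs.trans (by gcongr)
        _ = _ := by field_simp
    have a2 : l ^ (12 * N) * l ≤ l ^ (12 * N) / l := by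
      rw [le_div_iff₀ l0, mul_assoc]
      exact mul_le_of_le_one_right q0.le (by nlinarith)
    have a3 := sm N (by omega)
    have a4 : 0 ≤ B * X ^ 2 * (l ^ (12 * N) / l) := by positivity
    have a5 := st2 μ (u s) (u s') (x s) (x s') _ _ (l ^ (12 * N) / l) X g1.sol hpw g2.sol
      g1.alt.nonneg g2.alt.nonneg (spd (g1.sol.adm _ ⟨g1.alt.nonneg, le_rfl⟩) g1.alt.zero).1
      (spd (g2.sol.adm _ ⟨g2.alt.nonneg, le_rfl⟩) g2.alt.zero).1
      (pw' _ g1.alt.nonneg (two l0 l3 le_rfl hb)) (hu.trans (a1.trans a2))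
      ((c1 0 j.zero_le).1.trans (cl 0 j.zero_le)) (by linarith) (hF.var s) (hF.var s')
    have a6 : l ≤ 1 / l ^ 24 := l4.trans (one_le_one_div (by positivity) (pow_le_one₀ l0.le l4))
    have a7 : X ≤ X ^ 3 := le_self_pow₀ X1 (by norm_num)
    calc _ ≤ _ := a5
      _ ≤ B * X ^ 3 * (l ^ (12 * N) * (1 / l ^ 24)) +
          B * X ^ 3 * (l ^ (12 * N) / l) * (1 / l ^ 23) := by
        gcongr
        exact hx.trans (a1.trans (by gcongr))
      _ = l ^ (12 * N) * (2 * B * X ^ 3) * (1 / l ^ 24) := by field_simp; ring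
      _ ≤ l ^ (12 * N) * (1 / l ^ (105 * P + 1)) * |cs (u s') (x s') 1| := by
        gcongr
        linarith [show 0 ≤ B * X ^ 3 by positivity]
      _ = _ := by rw [mul_one_div]
  · obtain ⟨g1, d1, -⟩ := hG s m0 i hi.le
    obtain ⟨g2, d2, -⟩ := hG s' m1 i hi.le
    obtain ⟨g3, -⟩ := hG s' m1 (i + 1) hi
    have a1 := c1 i hi.le
    have a2 := c2 i hi.le
    have a3 := (c1 (i + 1) hi).1.trans (cl _ hi)
    have a4 := cl i hi.le
    have a5 : l ^ (12 * (N - i)) / l ≤ l ^ (12 * (N - (i + 1))) / l := by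
      gcongr ?_ / _
      exact pow_le_pow_of_le_one l0.le l4 (by omega)
    have a6 := sm (N - (i + 1)) (by omega)
    have q0 : 0 < l ^ (12 * (N - (i + 1))) := by positivity
    generalize l ^ (12 * (N - (i + 1))) = q at *
    have q1 : 0 < q / l := by positivity
    have U1 : 1 ≤ 1 / l ^ 21 := one_le_one_div (by positivity) (pow_le_one₀ l0.le l4)
    have b1 := step st1 d1.seg d2.seg.sol d2.seg.le g1.alt.zero g2.alt.zero d2.alt.zero
      (pw' _ (by linarith) (two l0 l3 (n := 1) (by norm_num) (by rwa [pow_one])))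
      (by linarith [a1.2]) (by linarith [a1.1, a2.1]) a6 (hF.var s) (hF.var s') hC
    have b2 := step st1 (hL i hi).1 (g3.sol.mono d2.alt.nonneg le_rfl)
      (by linarith [(g3.alt.1 (2 * i + 2) (by omega)).1, show cr (zz (u s')) (2 * i + 2 + 1) =
        cr (zz (u s')) (2 * (i + 1) + 1) from rfl]) d1.alt.zero d2.alt.zero g3.alt.zero
      (pw' _ (by positivity) (two l0 l3 (by norm_num) le_rfl))
      (by linarith [a2.2]) (by linarith [a2.1]) a6 (hF.var s) (hF.var s') U1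
    have r0 : 0 ≤ B * X ^ 3 * (3 * (q / l)) := by positivity
    have r1 := mul_le_mul_of_nonneg_left d2.n1 r0
    have r2 := mul_le_mul_of_nonneg_left d2.n2 r0
    have e0 : 0 ≤ dd μ (u s) (u s') (x s) (x s') (cr (zz (u s)) (2 * i + 1))
      (cr (zz (u s')) (2 * i + 1)) := by unfold dd; positivity
    have e1 := abs_nonneg (cs (u s') (x s') (2 * i + 1))
    have r3 := mul_le_mul_of_nonneg_right l2 e0
    generalize dd μ (u s) (u s') (x s) (x s') (cr (zz (u s)) (2 * i + 1)) _ = E at *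
    generalize |cs (u s') (x s') (2 * i + 1)| = c at *
    have r4 := le_mul_of_one_le_left (mul_nonneg r0 e1) U1
    have r5 := mul_le_mul_of_nonneg_left ((b1.trans (add_le_add r3 r1))) (zero_le_one.trans U1)
    calc _ ≤ 1 / l ^ 21 * (1 / l * E + 2 * (B * X ^ 3 * (3 * (q / l)) * c)) := by linarith
      _ = (E + q * (6 * B * X ^ 3) * c) / l ^ 22 := by field_simp; ring
      _ ≤ (E + q * (1 / l ^ (105 * P + 1)) * c) / l ^ 22 := by gcongr
      _ = _ := by rw [mul_one_div]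

end Pool.Agent.P.MP_9ae58c_an.B

end

section

/-! Step FAMS. -/

namespace Pool.Agent.P.MP_9ae58c_an.B

open Set Filter Topology Complex

theorem FAMS_am {μ s θ : ℝ} {u x : ℝ → ℝ → St} {j : ℕ}
    (h : HasDerivAt (fun σ => u σ (cr (zz (u σ)) j + θ))
      (sy μ (u s) (x s) (cr (zz (u s)) j) (cr (zz (u s)) j + θ)) s) :
    HasDerivAt (fun σ => am (u σ) (u σ) j θ)
      (am (u s) (sy μ (u s) (x s) (cr (zz (u s)) j)) j θ) s := by
  simpa only [am, bb, sh, add_comm θ] using (d1 h).const_mul (ex (-θ))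

theorem FAMS_cone {μ l ρ Z : ℝ} {u x : ℝ → St} {i : ℕ} (h : Gd μ l ρ Z u x i) :
    ‖am u (sy μ u x (cr (zz u) (2 * i + 1))) (2 * i + 1) (-(1 / l ^ 3)) -
      cs u x (2 * i + 1) * I * am u u (2 * i + 1) (-(1 / l ^ 3))‖ ≤
      ρ * |cs u x (2 * i + 1)| / 10 ^ 4 := by
  have := h.arr.cone
  rw [← sh_sy] at this
  simpa only [am, cs, sh, zero_add] using this

theorem p_FAMS (hFAMD : S_FAMD) (hALIGN : S_ALIGN) (hSWEEP : S_SWEEP) :
    S_FAMS := by
  intro μ K C l ρ Z s₁ s₂ m ω n u x i hF hS hl hρ h1 h12 H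
  have θ0 : 0 < 1 / l ^ 3 := by positivity
  have D1 := fun s (hs : s ∈ Icc s₁ s₂) => hFAMD μ u x s _ (-(1 / l ^ 3)) (2 * i + 1) hF
    (h1.trans_le hs.1) (by omega) (H s hs).1.alt (H s hs).2.sol
    (by linarith [(H s hs).2.seg.le])
    ⟨by linarith [(H s hs).1.lag], by linarith [(H s hs).2.seg.le]⟩
  have D2 := fun s (hs : s ∈ Icc s₁ s₂) => FAMS_am (hFAMD μ u x s _ (1 / l ^ 3) (2 * i + 2) hF
    (h1.trans_le hs.1) (by omega) (H s hs).2.alt (H s hs).2.sol (by linarith)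
    ⟨by linarith [(H s hs).2.alt.nonneg], le_rfl⟩).2
  refine ⟨?_, fun hi hh s hs s' hs' => ?_, fun lo Y hh h2 h3 h4 => ?_⟩
  · obtain ⟨s, hs, e⟩ := exists_hasDerivAt_eq_slope (fun σ => cr (zz (u σ)) (2 * i + 1))
      (fun σ => cs (u σ) (x σ) (2 * i + 1)) h12 (contOn_of fun s hs => (D1 s hs).1)
      fun s hs => (D1 s (Ioo_subset_Icc_self hs)).1
    refine ⟨s, Ioo_subset_Icc_self hs, ?_⟩
    rw [e, abs_div, abs_of_pos (sub_pos.2 h12), div_mul_cancel₀ _ (sub_pos.2 h12).ne']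
  · refine (convex_Icc s₁ s₂).norm_image_sub_le_of_norm_hasDerivWithin_le
      (f := fun σ => yo l ρ (u σ) i)
      (fun σ hσ => (((D2 σ hσ).norm_sq.div_const (ρ ^ 2)).sub_const 1).hasDerivWithinAt)
      (fun σ hσ => ?_) hs' hs
    obtain ⟨a1, a2, -⟩ := hALIGN K ρ _ m ω n _ _ _ _ hS hρ (H σ hσ).1.arr.b1 (H σ hσ).1.arr.b2
      (H σ hσ).2.nb (FAMS_cone (H σ hσ).1) (H σ hσ).2.nd
    have K0 : 0 < K := by linarith [hS.K1]
    rw [Real.norm_eq_abs, abs_div, abs_of_pos (pow_pos hρ 2), div_le_iff₀ (pow_pos hρ 2), abs_mul,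
      abs_two]
    refine (mul_le_mul_of_nonneg_left ((abs_real_inner_le_norm _ _).trans
      (mul_le_mul a1 (a2.trans (mul_le_mul_of_nonneg_left (hh σ hσ) (by positivity)))
        (norm_nonneg _) (by positivity))) zero_le_two).trans_eq (by ring)
  · have p2 := pow_pos hρ 2
    obtain ⟨s, hs, e⟩ := hSWEEP K ρ s₁ s₂ lo ((1 + Y) * ρ ^ 2) m ω n _ _ _ _ _ hS hρ h12 h2
      (contOn_of D2) (fun s hs => ⟨(D1 s hs).1, FAMS_am (D1 s hs).2, hh s hs, (H s hs).1.arr.b1,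
        (H s hs).1.arr.b2, FAMS_cone (H s hs).1, (H s hs).2.nb⟩) (by nlinarith) (by nlinarith)
    refine ⟨s, hs, ?_⟩
    rw [yo, e, mul_div_cancel_right₀ _ p2.ne', add_sub_cancel_left]

end Pool.Agent.P.MP_9ae58c_an.B

end

section

/-! Step AN. -/

namespace Pool.Agent.P.MP_9ae58c_an.B

open Set Filter Topology Complex

theorem p_AN (hPASS : S_PASS) (hINI : S_INI) (hDEP : S_DEP) (hNXT : S_NXT) (hRAT : S_RAT) (hDSTJ : S_DSTJ) :
    S_AN := by
  intro K₀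
  obtain ⟨C1, c1, H1⟩ := hPASS K₀
  obtain ⟨C2, c2, H2⟩ := hINI
  obtain ⟨C3, c3, H3⟩ := hDEP
  obtain ⟨C4, c4, H4⟩ := hNXT
  obtain ⟨k, H6⟩ := hDSTJ
  refine ⟨C1 + C2 + C3 + C4, by linarith, fun μ h T hμ hh => ?_⟩
  have m0 : 0 < μ := hh.tail.gl.pos
  have m1 : μ ≤ 1 := hh.tail.gl.mu.2
  have p1 : 0 < C1 * μ := by positivity
  have p2 : 0 < C2 * μ := by positivity
  have p3 : 0 < C3 * μ := by positivity
  have p4 : 0 < C4 * μ := by positivity
  obtain ⟨K, C, m, ω, n, hS, hC, H1⟩ := H1 μ h T (by linarith) hh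
  obtain ⟨κ, a, hκ, ha, b₀, H5⟩ := hRAT μ K m0 m1 (le_trans (by norm_num) hS.K1)
  have hκ' : (1 : ℝ) ≤ κ := by exact_mod_cast hκ
  have ha' : (4 : ℝ) ≤ a := by exact_mod_cast ha
  obtain ⟨l1, q1, H1⟩ := H1 κ hκ'
  obtain ⟨l2, q2, H2⟩ := H2 μ κ (by linarith) m0 hκ'
  obtain ⟨l3, q3, H3⟩ := H3 μ C κ (by linarith) m0 hC hκ'
  obtain ⟨l4, q4, H4⟩ := H4 μ κ (1 / a) (by linarith) m0 hκ' (by positivity)
  obtain ⟨l6, q6, H6⟩ := H6 C hC
  refine ⟨K, C, m, ω, n, κ, a, k, b₀, min (min (min l1 l2) (min l3 l4)) (min l6 (1 / (30 * a))),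
    hκ, ha, by positivity, fun b l hb l0 hl => ?_⟩
  simp only [le_min_iff] at hl
  obtain ⟨⟨⟨e1, e2⟩, e3, e4⟩, e6, e5⟩ := hl
  rw [le_div_iff₀ (by positivity)] at e5
  have dep : ∀ Z u x i, 1 / l ^ 16 ≤ Z → Gd μ l (κ * l ^ 4) Z u x i →
      Dep μ K C m ω n l (κ * l ^ 4) Z u x i := fun Z u x i hZ hG =>
    H3 l _ l0 e3 rfl K Z m ω n u x i hZ (H1 l l0 e1) hG
  refine ⟨hS, dep, fun Z u x i hZ hG =>
    (H4 l _ l0 e4 rfl K C Z m ω n u x i hS hZ hG (dep Z u x i hZ hG)).1,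
    fun Z u x i hZ hG y1 y2 => ?_, H2 l l0 e2, H6 l l0 e6 μ K _ m ω n⟩
  obtain ⟨g, s, η, η0, r1, r2, r3⟩ :=
    (H4 l _ l0 e4 rfl K C Z m ω n u x i hS hZ hG (dep Z u x i hZ hG)).2 y1 y2
  obtain ⟨R1, R2⟩ := H5 l _ η _ _ _ l0 (by linarith) rfl η0 (abs_nonneg _) (abs_nonneg _) r1 r2 r3
  refine ⟨g, s, fun e => ⟨(R1 e).1, (R1 e).2.trans ?_⟩, fun e => ⟨(R2 e).1.trans ?_, (R2 e).2⟩⟩
  · gcongr
  · gcongr

end Pool.Agent.P.MP_9ae58c_an.B

end

section

/-! Step REF. -/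

namespace Pool.Agent.P.MP_9ae58c_an.B

open Set Filter Topology Complex

theorem REF_eps {μ j : ℝ} (m : 0 < μ) (hj : 1 ≤ j) : |eps μ (pj μ j)| ≤ 1 / j ^ 6 / 10 := by
  have j0 : 0 < j := by linarith
  have hr : Reg (pj μ j) := ⟨by simp [pj], by
    simp only [pj, abs_neg]
    rw [abs_of_pos (by positivity)]
    exact ((div_le_one j0).2 hj).trans (by norm_num)⟩
  have r : rr (pj μ j) = 1 := by simp [rr, pj]
  have h1 := hr.W_sq
  have h2 := hr.zW
  have h3 := hr.W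
  have e : eps μ (pj μ j) = (16 * (1 + μ) * j ^ 2 * WW (pj μ j) - 1) / j ^ 2 := by
    simp only [eps]
    generalize WW (pj μ j) = W
    simp only [pj]
    field_simp
  have z : (pj μ j).2.1 = 16 * (1 + μ) * j ^ 2 := rfl
  rw [r, z] at h1
  rw [z, abs_of_pos (by positivity)] at h2
  rw [e]
  generalize WW (pj μ j) = W at *
  have h4 : 16 * (j ^ 2 * W) ≤ 1 := by nlinarith [mul_pos m (mul_pos (pow_pos j0 2) h3)]
  have h5 : 0 < j ^ 2 * W := by positivity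
  have h6 : 10 * (j ^ 2 * W) ^ 2 ≤ 1 := by nlinarith
  have h7 : 0 ≤ 16 * (1 + μ) * j ^ 2 * W := by positivity
  have h8 : 1 - 16 * (1 + μ) * j ^ 2 * W ≤ W ^ 2 := by nlinarith
  rw [abs_div, abs_sub_comm, abs_of_nonneg (by linarith), abs_of_pos (by positivity), div_div,
    div_le_div_iff₀ (by positivity) (by positivity)]
  calc _ ≤ W ^ 2 * (j ^ 6 * 10) := by gcongr
    _ = 10 * (j ^ 2 * W) ^ 2 * j ^ 2 := by ring
    _ ≤ 1 * j ^ 2 := by gcongr

theorem p_REF (hUPT : S_UPT) (hADI : S_ADI) (hINT : S_INT) (hHOLD : S_HOLD) (hFALL : S_FALL) :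
    S_REF := by
  obtain ⟨C, hC, hA⟩ := hADI
  refine ⟨360000 * C + 625, by linarith, fun μ j u hu hj h0 => ?_⟩
  have m := hu.pos
  have m' := hu.le
  have j8 : 10 ^ 8 ≤ j := by
    by_contra e
    nlinarith [mul_pos m (sub_pos.2 (not_le.1 e))]
  have j1 : 1 ≤ j := le_trans (by norm_num) j8
  have j0 : 0 < j := by linarith
  have he := REF_eps m j1
  have a0 : (u 0).1 = 0 := by rw [h0]; rfl
  have v0 : (u 0).2.2 = -(1 / j) := by rw [h0]; rfl
  have z0 : (u 0).2.1 = 16 * (1 + μ) * j ^ 2 := by rw [h0]; rfl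
  have p6 : 0 < 1 / j ^ 6 := by positivity
  have hH : |Hh μ (u 0)| ≤ μ / j ^ 6 := by
    rw [Hh, a0, h0, norm_zero, zero_pow two_ne_zero, zero_sub, abs_neg, abs_mul,
      abs_of_pos (by positivity), div_eq_mul_one_div μ (j ^ 6)]
    exact mul_le_mul (div_le_self m.le (by linarith)) (by linarith) (abs_nonneg _) m.le
  have hH' : μ / j ^ 6 ≤ μ ^ 2 := by
    have : j ≤ j ^ 6 := le_self_pow₀ j1 (by norm_num)
    rw [div_le_iff₀ (by positivity)]
    nlinarith [mul_le_mul_of_nonneg_left this (sq_nonneg μ)]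
  obtain ⟨b, b0, hup⟩ := hFALL μ u 0 0 hu (by rw [z0]; nlinarith) (by rw [v0, neg_nonpos]; positivity)
    (by rw [a0, norm_zero]; positivity) (hH.trans hH') le_rfl zero_le_one (by
      rw [v0, h0, zero_pow two_ne_zero, sub_zero, zero_sub, neg_neg, one_div_pow]
      exact he.trans (by gcongr; norm_num))
  rw [sub_zero] at hup
  have hU := hUPT μ _ 0 0 b hup
  have hs : Sol μ u 0 b := by simpa using hup.sol.rev b
  have len : j ^ 3 ≤ 1 + b := by
    have := (hU b ⟨b0.le, le_rfl⟩).1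
    simp only [rev, sub_self, Rv_3, v0, neg_neg, zero_add, sub_zero, one_div_pow] at this
    rwa [mul_one_div, one_le_div (by positivity)] at this
  have b1 : 100 ≤ b := by linarith [le_self_pow₀ j1 three_ne_zero]
  have zb : (u b).2.1 = 0 := by simpa [rev] using hup.z0
  have hz : ∀ t ∈ Icc 0 b, min 1 (b - t) ≤ (u t).2.1 := fun t ht => by
    simpa only [rev, sub_zero, sub_sub_cancel, Rv_2] using
      (hU (b - t) ⟨by linarith [ht.2], by linarith [ht.1]⟩).2.2.2.2.1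
  obtain ⟨e1, e2⟩ := Alt0.succ (Z := zz u) (k := 0) (T := b) (fun i hi => by simp at hi)
    (by simpa [cr] using b1) zb fun t ht => by
      simp only [cr, pow_zero, one_mul, zz] at ht ⊢
      exact (min_le_min_left _ (min_le_right _ _)).trans (hz t ht)
  have ab : ‖(u b).1‖ ≤ 28 * μ := by
    simpa [bb_zero, a0] using hINT μ u 0 b hs
      (fun t ht => (le_min zero_le_one (by linarith [ht.2])).trans (hz t ht)) b ⟨b0.le, le_rfl⟩
  have hh := (hHOLD μ (fp u) b hu.fp (by simp [fp, zb])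
    (by have := hup.v0; simp only [rev, sub_zero, Rv_3] at this; simp only [fp, Fp_3]; linarith)
    (by simp only [fp, Fp_1]; linarith) (by simpa [fp] using (hs.adm b ⟨b0.le, le_rfl⟩).nH)).1
  refine ⟨b, hj, len, e1, ⟨e2, fun t ht => ?_⟩, hup, ?_, fun t ht => ?_⟩
  · rw [zero_add] at e1
    rw [e1] at ht ⊢
    simpa [fp, zz] using (hh t ht).2.1
  · rwa [hu.Hh_eq hs.reg ⟨b0.le, le_rfl⟩ ⟨le_rfl, b0.le⟩]
  have t0 : 0 < 1 + t := by linarith [ht.1]
  have ht' : b - t ∈ Icc 0 b := ⟨by linarith [ht.2], by linarith [ht.1]⟩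
  have cm : 0 < C * μ := by positivity
  rw [le_div_iff₀ (by positivity)]
  rcases le_total t (3 / 2) with e | e
  · calc _ ≤ 100 * μ * (1 + 3 / 2) ^ 2 := by gcongr; exact (hs.adm _ ht').na
      _ ≤ _ := by nlinarith
  have G := hup.gau (by linarith : 0 + 3 / 2 ≤ t) ht.2 le_rfl
  have w6 := (hU t ht).2.1
  have w0 := (hup.nonneg ht).2
  have key := hA μ u 0 (b - t) (rev u b t).2.2 (hs.mono le_rfl ht'.2)
    (by linarith [(abs_le.1 (hup.sol.adm t ht).v).2]) (fun s hs => by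
      have i : b - s ∈ Icc t b := ⟨by linarith [hs.2], by linarith [hs.1]⟩
      obtain ⟨f1, f2, -, f4⟩ := G.far _ i
      have f5 := G.anti ⟨le_rfl, ht.2⟩ i i.1
      generalize (rev u b t).2.2 = w at *
      simp only [rev, sub_sub_cancel, Rv_2, Rv_3, WW_Rv, zero_add] at f1 f2 f4 f5
      exact ⟨f1, abs_le.2 ⟨by linarith, by linarith⟩, by nlinarith⟩)
    0 ⟨le_rfl, ht'.1⟩ (b - t) ⟨ht'.1, le_rfl⟩
  rw [bb_zero, a0, sub_zero, norm_bb, norm_zero, mul_zero, add_zero] at key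
  rw [zero_add, sub_zero] at w6
  generalize (rev u b t).2.2 = w at *
  calc _ ≤ C * μ * w ^ 6 * (1 + t) ^ 2 := by gcongr
    _ = C * μ * ((1 + t) * w ^ 3) ^ 2 := by ring
    _ ≤ C * μ * 600 ^ 2 := by gcongr
    _ ≤ _ := by nlinarith

end Pool.Agent.P.MP_9ae58c_an.B

end
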