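import Pool.Agent.P.MP_9ae58c_an.B.IfB

section

/-! Step CAU. -/

namespace Pool.Agent.P.MP_9ae58c_an.B

open Set Filter Topology Complex

theorem CAU_dec {μ K₀ j b s : ℝ} {u : ℝ → St} (h : Rf μ K₀ j u b) (hs : s ≤ b) :
    ∀ t ∈ Icc 0 s, ‖(rev u b t).1‖ ≤ K₀ * μ / (1 + t) ^ 2 := fun t ht => by
  simpa [rev] using h.dec t ⟨ht.1, ht.2.trans hs⟩

theorem CAU_weak {c x t : ℝ} (hx : 0 ≤ x) (ht : 0 ≤ t) (h : x ≤ c / (1 + t) ^ 2) :
    x ≤ c / (1 + t) := by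
  have h1 : (0 : ℝ) < 1 + t := by linarith
  rw [le_div_iff₀ (by positivity)] at h
  rw [le_div_iff₀ h1]
  nlinarith [mul_nonneg (mul_nonneg hx h1.le) ht]

theorem p_CAU (hTP2 : S_TP2) :
    S_CAU := by
  intro K₀
  obtain ⟨C, C1, hC⟩ := hTP2 K₀
  refine ⟨max C K₀, le_max_of_le_left C1, fun μ j j' b b' u w hμ hj hu hw => ?_⟩
  have m := hu.up.sol.gl.pos
  have m' := hu.up.sol.gl.le
  have c1 : C * μ ≤ 1 := (mul_le_mul_of_nonneg_right (le_max_left _ _) m.le).trans hμ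
  have c2 : K₀ * μ ≤ 1 := (mul_le_mul_of_nonneg_right (le_max_right _ _) m.le).trans hμ
  have j0 : 0 < j := by
    by_contra e
    nlinarith [hu.j1, mul_nonneg m.le (neg_nonneg.2 (not_lt.1 e))]
  have j1 : 10 ≤ j := by nlinarith [hu.j1]
  have j3 : (10 : ℝ) ^ 3 ≤ j ^ 3 := by gcongr
  have j3' : j ^ 3 ≤ j' ^ 3 := by gcongr
  have s1 : j ^ 3 ≤ 1 + min b b' := by
    rcases le_total b b' with e | e
    · rw [min_eq_left e]; exact hu.len
    · rw [min_eq_right e]; exact j3'.trans hw.len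
  set s := min b b' with hs
  have s0 : 0 + 3 / 2 ≤ s := by linarith
  have U := hu.up.mono s0 (min_le_left b b')
  have W := hw.up.mono s0 (min_le_right b b')
  have dU := CAU_dec hu (min_le_left b b')
  have dW := CAU_dec hw (min_le_right b b')
  have e6 : μ / j' ^ 6 ≤ μ / j ^ 6 := by gcongr
  have hE : |Hh μ (rev u b 0) - Hh μ (rev w b' 0)| ≤ 2 * (μ / j ^ 6) := by
    simp only [rev, sub_zero, Hh_Rv]
    linarith [abs_sub (Hh μ (u b)) (Hh μ (w b')), hu.nH, hw.nH]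
  have ms : s ∈ Icc 0 s := ⟨by linarith, le_rfl⟩
  have m0 : (0 : ℝ) ∈ Icc 0 s := ⟨le_rfl, by linarith⟩
  have key := (hC μ (rev u b) (rev w b') s _ c1 U W
    (fun t ht => ⟨CAU_weak (norm_nonneg _) ht.1 (dU t ht),
      CAU_weak (norm_nonneg _) ht.1 (dW t ht)⟩) hE s ms).1 0 m0
  have q : K₀ * μ / (1 + s) ^ 2 ≤ 1 / j ^ 6 := by
    have : j ^ 6 ≤ (1 + s) ^ 2 := by
      calc j ^ 6 = (j ^ 3) ^ 2 := by ring
        _ ≤ (1 + s) ^ 2 := by gcongr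
    calc K₀ * μ / (1 + s) ^ 2 ≤ 1 / (1 + s) ^ 2 := by gcongr
      _ ≤ 1 / j ^ 6 := by gcongr
  have q2 : C * (2 * (μ / j ^ 6)) ≤ 2 * (1 / j ^ 6) := by
    calc C * (2 * (μ / j ^ 6)) = 2 * (C * μ / j ^ 6) := by ring
      _ ≤ 2 * (1 / j ^ 6) := by gcongr
  have q3 : ‖(rev u b 0).1 - (rev w b' 0).1‖ ≤ 6 * (1 / j ^ 6) := by
    linarith [norm_sub_le (rev u b s).1 (rev w b' s).1, dU s ms, dW s ms]
  have q4 : |Hh μ (rev u b 0) - Hh μ (rev w b' 0)| / μ ≤ 2 * (1 / j ^ 6) := by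
    rw [div_le_iff₀ m]
    calc _ ≤ 2 * (μ / j ^ 6) := hE
      _ = _ := by ring
  have cc := Adm.cross_close (U.sol.adm 0 m0) (W.sol.adm 0 m0) U.z0 W.z0
    (mul_nonneg (by linarith [U.v0]) (by linarith [W.v0]))
  have q5 : 224 * (1 / j ^ 6) ≤ 1 / j := by
    have j5 : (10 : ℝ) ^ 5 ≤ j ^ 5 := by gcongr
    rw [mul_one_div, div_le_div_iff₀ (by positivity) j0]
    nlinarith
  have e : ‖rev u b 0 - rev w b' 0‖ = ‖u b - w b'‖ := by
    simp only [rev, sub_zero, ← Rv_sub, norm_Rv]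
  linarith

end Pool.Agent.P.MP_9ae58c_an.B

end

section

/-! Step LIM. -/

namespace Pool.Agent.P.MP_9ae58c_an.B

open Set Filter Topology Complex

theorem LIM_cont (μ : ℝ) {p : St} (h : ‖p.1‖ ≤ 1 / 4) : ContinuousAt (Hh μ) p := by
  have h1 := abs_le.1 ((abs_re_le_norm _).trans h)
  have h2 : 1 + p.1.re ≠ 0 := by linarith
  have hr : ContinuousAt rr p := by
    unfold rr
    exact continuousAt_const.div (by fun_prop) h2
  have h3 : 0 < rr p := one_div_pos.2 (by linarith)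
  have hW : ContinuousAt WW p := by
    unfold WW
    refine continuousAt_const.div (ContinuousAt.sqrt (ContinuousAt.add (by fun_prop) (hr.pow 2))) ?_
    exact (Real.sqrt_pos.2 (by positivity)).ne'
  unfold Hh eps
  refine ContinuousAt.sub (by fun_prop) (continuousAt_const.mul ?_)
  exact (continuousAt_const.mul hW).sub (by fun_prop)

theorem LIM_num {μ K a v s : ℝ} (h0 : 0 < μ) (h1 : μ ≤ 1) (hC : (20 * K ^ 2 + 1) * μ ≤ 1)
    (hs : 1 ≤ s) (ha0 : 0 ≤ a) (ha : a ≤ K * μ / s ^ 2) (hv : 0 ≤ v) (hv3 : 1 ≤ s * v ^ 3) :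
    (1 + μ) / μ * a ^ 2 ≤ v ^ 2 / 10 := by
  have hs2 : 1 ≤ s ^ 2 := one_le_pow₀ hs
  have hs3 : s ≤ s ^ 2 := by nlinarith
  have h2 : 1 ≤ v * s ^ 2 := by
    by_contra h
    rw [not_le] at h
    have h3 : v ≤ 1 := by nlinarith
    have h4 : v ^ 3 ≤ v := by nlinarith [mul_nonneg hv hv, mul_le_one₀ h3 hv h3]
    nlinarith [mul_le_mul_of_nonneg_left h4 (by linarith : 0 ≤ s), mul_le_mul_of_nonneg_left hs3 hv]
  rw [le_div_iff₀ (by positivity)] at ha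
  have h5 : (a * s ^ 2) ^ 2 ≤ (K * μ) ^ 2 := pow_le_pow_left₀ (by positivity) ha 2
  have h6 : 1 ≤ (v * s ^ 2) ^ 2 := one_le_pow₀ h2
  have h7 : 20 * (K * μ) ^ 2 ≤ μ := by nlinarith
  have h8 : (10 * ((1 + μ) * a ^ 2)) * (s ^ 2) ^ 2 ≤ (μ * v ^ 2) * (s ^ 2) ^ 2 := by
    have h9 : (1 + μ) * (a * s ^ 2) ^ 2 ≤ 2 * (K * μ) ^ 2 :=
      mul_le_mul (by linarith) h5 (by positivity) (by norm_num)
    have h10 := mul_le_mul_of_nonneg_left h6 h0.le
    nlinarith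
  have h11 := le_of_mul_le_mul_right h8 (by positivity)
  rw [div_mul_eq_mul_div, div_le_div_iff₀ h0 (by norm_num)]
  linarith

theorem p_LIM (hUNIQ : S_UNIQ) (hMKUP : S_MKUP) (hUPT : S_UPT) :
    S_LIM := by
  intro K₀
  refine ⟨20 * K₀ ^ 2 + 1, by nlinarith [sq_nonneg K₀], ?_⟩
  intro μ Y p u j b hC hY hc hR hj hp
  have hg := (hY p).1.rev 0
  have m0 := hg.pos
  have m1 : μ ≤ 1 := hg.le.trans (by norm_num)
  have hb : Tendsto b atTop atTop := by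
    refine tendsto_atTop_mono (f := fun n => j n ^ 3 + -1) (fun n => ?_)
      (tendsto_atTop_add_const_right _ _ ((tendsto_pow_atTop three_ne_zero).comp hj))
    linarith [(hR n).len]
  have hev : ∀ t, 0 ≤ t → ∀ᶠ n in atTop, t ∈ Icc 0 (b n) := fun t ht =>
    (hb.eventually_ge_atTop t).mono fun n h => ⟨ht, h⟩
  have hlim : ∀ t, 0 ≤ t →
      Tendsto (fun n => rev (u n) (b n) t) atTop (𝓝 (rev (Y p) 0 t)) := by
    intro t ht
    have h1 : Tendsto (fun n => rev (Y (u n (b n))) 0 t) atTop (𝓝 (rev (Y p) 0 t)) :=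
      ((continuous_Rv.comp (hc (0 - t))).tendsto p).comp hp
    refine h1.congr' ((hev t ht).mono fun n hn => ?_)
    refine hUNIQ μ _ _ 0 (b n) 0 (hR n).up.sol.gl ((hY _).1.rev 0) (hR n).up.sol.rg
      ⟨le_rfl, hn.1.trans hn.2⟩ ?_ t hn
    simp only [rev, sub_zero, (hY _).2]
  have hle : ∀ t, 0 ≤ t → ∀ (f : St → ℝ) (c : ℝ), Continuous f →
      (∀ n, t ∈ Icc 0 (b n) → f (rev (u n) (b n) t) ≤ c) → f (rev (Y p) 0 t) ≤ c :=
    fun t ht f c hf h =>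
      le_of_tendsto ((hf.tendsto _).comp (hlim t ht)) ((hev t ht).mono fun n hn => h n hn)
  have hge : ∀ t, 0 ≤ t → ∀ (f : St → ℝ) (c : ℝ), Continuous f →
      (∀ n, t ∈ Icc 0 (b n) → c ≤ f (rev (u n) (b n) t)) → c ≤ f (rev (Y p) 0 t) :=
    fun t ht f c hf h =>
      ge_of_tendsto ((hf.tendsto _).comp (hlim t ht)) ((hev t ht).mono fun n hn => h n hn)
  have a1 : ∀ t, 0 ≤ t → ‖(rev (Y p) 0 t).1‖ ≤ 100 * μ := fun t ht =>
    hle t ht (fun q => ‖q.1‖) _ (by fun_prop) fun n hn => ((hR n).up.sol.adm t hn).na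
  have a2 : ∀ t, 0 ≤ t → ‖(rev (Y p) 0 t).1‖ ≤ K₀ * μ / (1 + t) ^ 2 := fun t ht =>
    hle t ht (fun q => ‖q.1‖) _ (by fun_prop) fun n hn => by
      simpa [rev] using (hR n).dec t hn
  have a3 : ∀ t, 0 ≤ t → Hh μ (rev (Y p) 0 t) = 0 := by
    intro t ht
    have h1 := (LIM_cont μ ((a1 t ht).trans (by linarith [hg.le]))).tendsto.comp (hlim t ht)
    refine tendsto_nhds_unique h1 ?_
    have h2 : Tendsto (fun n => μ / j n ^ 6) atTop (𝓝 0) :=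
      tendsto_const_nhds.div_atTop ((tendsto_pow_atTop (by norm_num)).comp hj)
    refine squeeze_zero_norm' ((hev t ht).mono fun n hn => ?_) h2
    have h3 := (hR n).up.sol.gl.Hh_eq (hR n).up.sol.reg hn ⟨le_rfl, hn.1.trans hn.2⟩
    have h4 := (hR n).nH
    simp only [Function.comp, Real.norm_eq_abs]
    rw [h3]
    simpa [rev] using h4
  have a4 : (rev (Y p) 0 0).2.1 = 0 :=
    le_antisymm (hle 0 le_rfl (fun q => q.2.1) _ (by fun_prop) fun n _ => (hR n).up.z0.le)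
      (hge 0 le_rfl (fun q => q.2.1) _ (by fun_prop) fun n _ => (hR n).up.z0.ge)
  have a5 : ∀ t, 0 ≤ t → 0 ≤ (rev (Y p) 0 t).2.2 := fun t ht =>
    hge t ht (fun q => q.2.2) _ (by fun_prop) fun n hn => ((hR n).up.nonneg hn).2
  have a6 : ∀ t, 2 ≤ t → 3 ≤ (rev (Y p) 0 t).2.1 := fun t ht =>
    hge t (by linarith) (fun q => q.2.1) _ (by fun_prop) fun n hn =>
      (((hR n).up.gau (by linarith) le_rfl hn.2).far t ⟨le_rfl, le_rfl⟩).1
  have a7 : ∀ t, 0 ≤ t → 1 ≤ (1 + t) * (rev (Y p) 0 t).2.2 ^ 3 := fun t ht =>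
    hge t ht (fun q => (1 + t) * q.2.2 ^ 3) _ (by fun_prop) fun n hn => by
      simpa using (hUPT μ _ 0 0 _ (hR n).up t hn).1
  refine ⟨(hY p).1, by simpa [rev] using a3 0 le_rfl, fun c h2 => ?_, fun t ht => ?_⟩
  · have h0 : 0 ≤ c := by linarith
    refine hMKUP μ _ 0 0 c ⟨hg, fun t ht => ⟨m0, hg.le, a1 t ht.1, ?_⟩⟩ h0 a4
      (fun t ht => a5 t ht.1) (a6 c h2) le_rfl zero_le_one ?_
    · rw [a3 t ht.1, abs_zero]
      positivity
    · rw [eps_eq m0, a3 c h0, sub_zero, zero_pow two_ne_zero, sub_zero, zero_add,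
        abs_of_nonneg (by positivity)]
      exact LIM_num m0 m1 hC (by linarith) (norm_nonneg _) (a2 c h0) (a5 c h0) (a7 c h0)
  · simpa [rev] using a2 t ht

end Pool.Agent.P.MP_9ae58c_an.B

end
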