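import Pool.Agent.P.MP_9ae58c_an.B.IfC

section

/-! Step FLOW. -/

namespace Pool.Agent.P.MP_9ae58c_an.B

open Set Filter Topology Complex

namespace FLOW

theorem all {α : Type} [Primcodable α] {S : Set α} {d : ℕ} {p : Fin d → α → Prop}
    (h : ∀ i, REon S (p i)) : REon S fun a => ∀ i, p i a := by
  induction d with
  | zero => exact (REon.prim cf_pp_true).congr fun a _ => by simp
  | succ d ih =>
    exact ((h 0).and (ih fun i => h i.succ)).congr fun a _ =>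
      (Fin.forall_fin_succ (P := fun i => p i a)).symm

theorem near (x : ℝ) (n : ℕ) : |x - frac (⌊x * (n + 1)⌋, n)| < 1 / ((n : ℝ) + 1) := by
  have h : (0 : ℝ) < n + 1 := by positivity
  have e : x - frac (⌊x * (n + 1)⌋, n) = (x * (n + 1) - ⌊x * (n + 1)⌋) / (n + 1) := by
    simp only [frac]
    field_simp
  rw [e, abs_div, abs_of_pos h, div_lt_div_iff_of_pos_right h, abs_lt]
  constructor <;> linarith [Int.floor_le (x * (n + 1)), Int.lt_floor_add_one (x * (n + 1))]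

theorem eff {d : ℕ} {Y : (Fin d → ℝ) → ℝ → Fin d → ℝ} {K : ℕ}
    {E : ℕ × (Fin d → ℤ) × ℕ → Fin d → ℤ} (hE : Primrec E)
    (h : ∀ (N T j : ℕ) (y : Fin d → ℤ) (x : Fin d → ℝ) (t : ℝ), 1 ≤ N → j ≤ T * N → 0 ≤ t →
      |t - j / N| ≤ 1 / N → dist x (fun i => (y i : ℝ) / N) ≤ 1 / N →
      ∀ i, |(E (N, y, j) i : ℝ) - N ^ 2 * Y x t i| ≤ K ^ (T + 1) * N)
    {α : Type} [Primcodable α] {S : Set α} {t : α → ℝ} {x : α → Fin d → ℝ} (ht : CF S t)
    (hx : ∀ i, CF S fun a => x a i) (h0 : ∀ a ∈ S, 0 ≤ t a) (i : Fin d) :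
    CF S fun a => Y (x a) (t a) i := by
  have cN : Primrec fun c : α × (ℕ × ℕ) × ℕ × (Fin d → ℤ) => c.2.1.1 :=
    Primrec.fst.comp (Primrec.fst.comp Primrec.snd)
  have cT : Primrec fun c : α × (ℕ × ℕ) × ℕ × (Fin d → ℤ) => c.2.1.2 :=
    Primrec.snd.comp (Primrec.fst.comp Primrec.snd)
  have cj : Primrec fun c : α × (ℕ × ℕ) × ℕ × (Fin d → ℤ) => c.2.2.1 :=
    Primrec.fst.comp (Primrec.snd.comp Primrec.snd)
  have cy : Primrec fun c : α × (ℕ × ℕ) × ℕ × (Fin d → ℤ) => c.2.2.2 :=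
    Primrec.snd.comp (Primrec.snd.comp Primrec.snd)
  have cI : CF {c : α × (ℕ × ℕ) × ℕ × (Fin d → ℤ) | c.1 ∈ S} fun c => 1 / ((c.2.1.1 : ℝ) + 1) :=
    cf_inv cN.to_comp
  refine cf_gen (β := (ℕ × ℕ) × ℕ × (Fin d → ℤ))
    (G := fun c => c.2.2.1 ≤ c.2.1.2 * (c.2.1.1 + 1) ∧
      |t c.1 - frac (c.2.2.1, c.2.1.1)| < 1 / ((c.2.1.1 : ℝ) + 1) ∧
      ∀ k, |x c.1 k - frac (c.2.2.2 k, c.2.1.1)| < 1 / ((c.2.1.1 : ℝ) + 1))
    (χ := fun c => (E (c.2.1.1 + 1, c.2.2.2, c.2.2.1) i : ℝ) * (1 / ((c.2.1.1 : ℝ) + 1)) ^ 2)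
    (ε := fun c => ((K ^ (c.2.1.2 + 1) : ℕ) : ℝ) * (1 / ((c.2.1.1 : ℝ) + 1))) ?_ ?_ ?_ ?_ ?_
  · refine (REon.prim (Primrec.nat_le.comp cj (Primrec.nat_mul.comp cT (Primrec.succ.comp cN)))).and
      (((ht.lift.sub (CF.frac ((primrec_int_cast.comp cj).pair cN).to_comp)).abs.lt cI).and
        (all fun k => ?_))
    exact ((hx k).lift.sub
      (CF.frac ((Primrec.fin_app.comp cy (Primrec.const k)).pair cN).to_comp)).abs.lt cI
  · exact (CF.int (Primrec.fin_app.comp (hE.comp ((Primrec.succ.comp cN).pair (cy.pair cj)))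
      (Primrec.const i)).to_comp).mul (cI.pow 2)
  · exact (CF.nat (cf_primrec_pow.comp (Primrec.const K) (Primrec.succ.comp cT)).to_comp).mul cI
  · intro a ha δ hδ
    obtain ⟨T, hT⟩ := exists_nat_ge (t a)
    obtain ⟨n, hn⟩ := exists_nat_gt (((K ^ (T + 1) : ℕ) : ℝ) / δ)
    have h1 : (0 : ℝ) < n + 1 := by positivity
    have h2 := mul_nonneg (h0 a ha) h1.le
    refine ⟨((n, T), ⌊t a * (n + 1)⌋₊, fun k => ⌊x a k * (n + 1)⌋), ⟨?_, ?_, fun k => near _ _⟩, ?_⟩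
    · refine Nat.floor_le_of_le ?_
      push_cast
      exact mul_le_mul_of_nonneg_right hT h1.le
    · simp only [Int.natCast_floor_eq_floor h2]
      exact near _ _
    · rw [div_lt_iff₀ hδ] at hn
      simp only [mul_one_div]
      rw [div_lt_iff₀ h1]
      nlinarith
  · rintro a ha ⟨⟨n, T⟩, j, y⟩ ⟨g1, g2, g3⟩
    have h1 : (0 : ℝ) < n + 1 := by positivity
    have e := h (n + 1) T j y (x a) (t a) (by omega) g1 (h0 a ha) (by simpa [frac] using g2.le)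
      ((dist_pi_le_iff (by positivity)).2 fun k => by
        simpa [frac, Real.dist_eq] using (g3 k).le) i
    push_cast at e ⊢
    have e2 : Y (x a) (t a) i - (E (n + 1, y, j) i : ℝ) * (1 / ((n : ℝ) + 1)) ^ 2 =
        -((E (n + 1, y, j) i - (n + 1) ^ 2 * Y (x a) (t a) i) * (1 / ((n : ℝ) + 1)) ^ 2) := by
      field_simp
      ring
    rw [e2, abs_neg, abs_mul, abs_of_pos (a := (1 / ((n : ℝ) + 1)) ^ 2) (by positivity)]
    refine (mul_le_mul_of_nonneg_right e (by positivity)).trans (le_of_eq ?_)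
    field_simp

/-- clip to `[-R, R]` -/
noncomputable def cl (R : ℕ) (a : ℝ) : ℝ := max (-(R : ℝ)) (min (R : ℝ) a)

/-- clipped first coordinate -/
noncomputable def xc (y : Fin 5 → ℝ) : ℝ := max (-(1 / 4)) (min (1 / 4) (cl 1 (y 0)))

/-- clipped radius -/
noncomputable def rc (y : Fin 5 → ℝ) : ℝ := 1 / (1 + xc y)

/-- inverse distance -/
noncomputable def wc (y : Fin 5 → ℝ) : ℝ := 1 / √(y 2 ^ 2 + rc y ^ 2)

/-- the clipped field -/
noncomputable def F : Fin 5 → (Fin 5 → ℝ) → ℝ :=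
  ![fun y => -cl 1 (y 1),
    fun y => xc y + -(cl 1 (y 4) * (8 * (rc y * wc y * (rc y * wc y) * (rc y * wc y)))),
    fun y => rc y * rc y * cl 10 (y 3),
    fun y => -(8 * (1 + cl 1 (y 4)) * (rc y * rc y) *
      (y 2 / √(y 2 ^ 2 + rc y ^ 2) * (wc y * wc y))), fun _ => 0]

theorem rat (a b : ℕ) {c : ℝ} (h : c = (a : ℝ) / b) : Good (d := 5) fun _ => c :=
  h ▸ Good.const a b

theorem good (i : Fin 5) : Good (F i) := by
  have c : ∀ (k : Fin 5) (R : ℕ), Good fun y : Fin 5 → ℝ => cl R (y k) := fun k R => Good.coord k R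
  have c1 : Good (d := 5) fun _ => 1 := rat 1 1 (by norm_num)
  have c4 : Good (d := 5) fun _ => 1 / 4 := rat 1 4 (by norm_num)
  have c8 : Good (d := 5) fun _ => 8 := rat 8 1 (by norm_num)
  have hx : Good xc := c4.neg.max (c4.min (c 0 1))
  have b : ∀ y, -(1 / 4) ≤ xc y ∧ xc y ≤ 1 / 4 := fun y =>
    ⟨le_max_left _ _, max_le (by norm_num) (min_le_left _ _)⟩
  have hr : Good rc := (c1.add hx).inv 2 (by norm_num) fun y => by
    push_cast
    linarith [(b y).1]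
  have b' : ∀ y, 1 / ((2 : ℕ) : ℝ) ≤ rc y := fun y => by
    push_cast
    exact one_div_le_one_div_of_le (by linarith [(b y).1]) (by linarith [(b y).2])
  have hw : Good wc := Good.invNorm 2 hr 2 (by norm_num) b'
  have hrw := hr.mul hw
  fin_cases i
  · exact (c 1 1).neg
  · exact hx.add ((c 4 1).mul (c8.mul ((hrw.mul hrw).mul hrw))).neg
  · exact (hr.mul hr).mul (c 3 10)
  · exact (((c8.mul (c1.add (c 4 1))).mul (hr.mul hr)).mul
      ((Good.dirNorm 2 hr 2 (by norm_num) b').mul (hw.mul hw))).neg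
  · exact rat (c := 0) 0 1 (by norm_num)

theorem cl_eq {R : ℕ} {a : ℝ} (h : |a| ≤ R) : cl R a = a := by
  rw [abs_le] at h
  rw [cl, min_eq_right h.2, max_eq_right h.1]

/-- coordinates of a state -/
def enc (μ : ℝ) (p : St) : Fin 5 → ℝ := ![p.1.re, p.1.im, p.2.1, p.2.2, μ]

/-- the state with given coordinates -/
def dec (y : Fin 5 → ℝ) : St := (y 0 + y 1 * I, y 2, y 3)

theorem dec_re (y : Fin 5 → ℝ) : (dec y).1.re = y 0 := by simp [dec]

theorem dec_im (y : Fin 5 → ℝ) : (dec y).1.im = y 1 := by simp [dec]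

theorem fld_eq {μ : ℝ} {y : Fin 5 → ℝ} (h : Reg (dec y)) (h4 : y 4 = μ) (hμ : |μ| ≤ 1) :
    dec (fun i => F i y) = fld μ (dec y) := by
  have a0 : |y 0| ≤ 1 / 4 := dec_re y ▸ h.re
  have a1 : |y 1| ≤ 1 / 4 := dec_im y ▸ (abs_im_le_norm _).trans h.1
  have e0 : xc y = y 0 := by
    rw [xc, cl_eq (by push_cast; linarith), min_eq_right (abs_le.1 a0).2,
      max_eq_right (abs_le.1 a0).1]
  have e1 : cl 1 (y 1) = y 1 := cl_eq (by push_cast; linarith)
  have e3 : cl 10 (y 3) = y 3 := cl_eq (by push_cast; exact h.2)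
  have e4 : cl 1 (y 4) = μ := by rw [h4]; exact cl_eq (by push_cast; exact hμ)
  have er : rc y = rr (dec y) := by rw [rc, rr, e0, dec_re]
  have ew : wc y = WW (dec y) := by rw [wc, WW, er]; rfl
  refine Prod.ext (Complex.ext ?_ ?_) (Prod.ext ?_ ?_)
  · rw [dec_re, fld_re, dec_im]
    change -cl 1 (y 1) = _
    rw [e1]
  · rw [dec_im, fld_im, dec_re]
    change xc y + -(cl 1 (y 4) * (8 * (rc y * wc y * (rc y * wc y) * (rc y * wc y)))) = _
    rw [e0, e4, er, ew, gg]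
    ring
  · change rc y * rc y * cl 10 (y 3) = rr (dec y) ^ 2 * y 3
    rw [e3, er]
    ring
  · change -(8 * (1 + cl 1 (y 4)) * (rc y * rc y) *
      (y 2 / √(y 2 ^ 2 + rc y ^ 2) * (wc y * wc y))) =
        -(8 * (1 + μ) * rr (dec y) ^ 2 * y 2 * WW (dec y) ^ 3)
    rw [e4, ← ew, ← er, div_eq_mul_one_div (y 2), ← wc]
    ring

end FLOW

open FLOW in
theorem p_FLOW :
    S_FLOW := by
  obtain ⟨Y, h0, hd, hc, K, E, hE, h⟩ := euler F good
  have cd : Continuous dec := by unfold dec; fun_prop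
  have ce : Continuous fun y : ℝ × St × ℝ => enc y.1 y.2.1 := by unfold enc; fun_prop
  have c : Continuous fun y : ℝ × St × ℝ => dec (Y (enc y.1 y.2.1) y.2.2) :=
    cd.comp (hc.comp (ce.prodMk (by fun_prop)))
  refine ⟨fun μ p t => dec (Y (enc μ p) t), fun μ p => ?_, fun μ p h1 h2 => ⟨h1, h2, ?_, ?_⟩, c,
    ?_, ?_⟩
  · simp [h0, dec, enc]
  · exact c.comp (f := fun t : ℝ => (μ, p, t)) (by fun_prop)
  · intro t ht
    have e4 : Y (enc μ p) t 4 = μ := by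
      have := is_const_of_deriv_eq_zero (f := fun u => Y (enc μ p) u 4)
        (fun u => (hd _ u 4).differentiableAt) (fun u => (hd _ u 4).deriv) t 0
      simpa [h0, enc] using this
    rw [← fld_eq ht e4 (abs_le.2 ⟨by linarith, h2.trans (by norm_num)⟩)]
    exact ((hd _ t 0).ofReal_comp.add ((hd _ t 1).ofReal_comp.mul_const I)).prodMk
      ((hd _ t 2).prodMk (hd _ t 3))
  · choose L hL _ using good
    have b : ∀ x s t i, |Y x t i - Y x s i| ≤ (Finset.univ.sup L : ℕ) * |t - s| := fun x s t i =>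
      convex_univ.norm_image_sub_le_of_norm_hasDerivWithin_le (f := fun u => Y x u i)
        (fun u _ => (hd x u i).hasDerivWithinAt)
        (fun u _ => (hL i _).trans (by exact_mod_cast Finset.le_sup (Finset.mem_univ i)))
        (mem_univ s) (mem_univ t)
    refine ⟨2 * Finset.univ.sup L, fun μ p s t => ?_⟩
    have b0 := b (enc μ p) s t 0
    have b1 := b (enc μ p) s t 1
    have b2 := b (enc μ p) s t 2
    have b3 := b (enc μ p) s t 3
    have b4 := (abs_nonneg _).trans b0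
    push_cast
    refine norm_le_of ((norm_le_abs_re_add_abs_im _).trans ?_) ?_ ?_
    · simp only [Prod.fst_sub, sub_re, sub_im, dec_re, dec_im]
      linarith
    · exact b2.trans (by linarith)
    · exact b3.trans (by linarith)
  · intro α _ S m t x hm ht hx h1
    have e := eff hE h (x := fun a => enc (m a) (x a)) ht (fun i => by
      fin_cases i
      exacts [hx.1, hx.2.1, hx.2.2.1, hx.2.2.2, hm]) h1
    exact ⟨(e 0).congr fun a _ => (dec_re _).symm, (e 1).congr fun a _ => (dec_im _).symm,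
      e 2, e 3⟩

end Pool.Agent.P.MP_9ae58c_an.B

end

section

/-! Step CNT. -/

namespace Pool.Agent.P.MP_9ae58c_an.B

open Set Filter Topology Complex

/-- integers that follow the successive zeros -/
def CNT_P (Z : ℝ → ℝ) (k : ℕ) (J : ℕ → ℕ) : Prop :=
  J 0 = 1 ∧ (∀ i < k + 1, 0 < (-1) ^ i * Z (J i)) ∧
    ∀ i < k, J i ≤ J (i + 1) ∧ ∀ n < J (i + 1) - 1, J i ≤ n → 0 < (-1) ^ i * Z n

theorem CNT_alt {Z : ℝ → ℝ} {k i : ℕ} (h : Alt Z k) (hi : i ≤ k) : Alt Z i :=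
  hi.eq_or_lt.elim (fun e => e ▸ h) h.1.alt

theorem CNT_up {Z : ℝ → ℝ} {k : ℕ} (h : Alt Z k) {t : ℝ} (h1 : cr Z k ≤ t) (h2 : t ≤ cr Z k + 3) :
    0 ≤ (-1) ^ k * Z t :=
  (le_min zero_le_one (sub_nonneg.2 h1)).trans (h.2 t ⟨h1, h2⟩)

theorem CNT_dn {Z : ℝ → ℝ} {k : ℕ} (h : Alt Z (k + 1)) {t : ℝ} (h1 : cr Z k ≤ t)
    (h2 : t ≤ cr Z (k + 1)) : (-1) ^ (k + 1) * Z t ≤ 0 := by
  have := (le_min zero_le_one (le_min (sub_nonneg.2 h1) (sub_nonneg.2 h2))).trans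
    ((h.1 k k.lt_succ_self).2 t ⟨h1, h2⟩)
  rw [pow_succ]
  linarith

theorem CNT_mid {Z : ℝ → ℝ} {k i : ℕ} (h : Alt Z k) (hi : i < k) {t : ℝ} (h1 : cr Z i < t)
    (h2 : t < cr Z (i + 1)) : 0 < (-1) ^ i * Z t :=
  (lt_min one_pos (lt_min (sub_pos.2 h1) (sub_pos.2 h2))).trans_le ((h.1 i hi).2 t ⟨h1.le, h2.le⟩)

theorem CNT_sound {Z : ℝ → ℝ} {k : ℕ} {J : ℕ → ℕ} (h : Alt Z k) (hJ : CNT_P Z k J) :
    ∀ i ≤ k, cr Z i ≤ J i ∧ J i < cr Z i + 2 := by
  intro i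
  induction i with
  | zero => simp [cr, hJ.1]
  | succ i ih =>
    intro hi
    obtain ⟨a1, a2⟩ := ih (by omega)
    obtain ⟨b1, b2⟩ := hJ.2.2 i hi
    have ha := CNT_alt h hi
    have b3 : (J i : ℝ) ≤ J (i + 1) := by exact_mod_cast b1
    refine ⟨not_lt.1 fun e => (hJ.2.1 _ (by omega)).not_ge (CNT_dn ha (a1.trans b3) e.le),
      not_le.1 fun e => ?_⟩
    have c1 := Nat.le_ceil (cr Z (i + 1))
    have c2 := Nat.ceil_lt_add_one ha.nonneg
    have c3 := (h.1 i hi).1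
    have c4 : ⌈cr Z (i + 1)⌉₊ + 1 < J (i + 1) := by
      exact_mod_cast (by linarith : (⌈cr Z (i + 1)⌉₊ : ℝ) + 1 < J (i + 1))
    have c5 := b2 ⌈cr Z (i + 1)⌉₊ (by omega) (by
      exact_mod_cast (by linarith : (J i : ℝ) ≤ ⌈cr Z (i + 1)⌉₊))
    have c6 := CNT_up ha c1 (by linarith)
    rw [pow_succ] at c6
    linarith

theorem CNT_compl {Z : ℝ → ℝ} {k : ℕ} (h : Alt Z k) {J : ℕ → ℕ}
    (hJ : ∀ i ≤ k, J i = ⌊cr Z i⌋₊ + 1) : CNT_P Z k J := by
  have a1 : ∀ i ≤ k, cr Z i < J i ∧ J i ≤ cr Z i + 1 := fun i hi => by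
    rw [hJ i hi]
    push_cast
    exact ⟨Nat.lt_floor_add_one _, by linarith [Nat.floor_le (CNT_alt h hi).nonneg]⟩
  refine ⟨by simp [hJ, cr], fun i hi => ?_, fun i hi => ⟨?_, fun n h1 h2 => ?_⟩⟩
  · obtain ⟨b1, b2⟩ := a1 i (by omega)
    exact (lt_min one_pos (sub_pos.2 b1)).trans_le
      ((CNT_alt h (by omega)).2 _ ⟨b1.le, by linarith⟩)
  · have := (h.1 i hi).1
    exact_mod_cast (by linarith [(a1 i hi.le).2, (a1 _ hi).1] : (J i : ℝ) ≤ J (i + 1))
  · have b1 : (J i : ℝ) ≤ n := by exact_mod_cast h2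
    have b2 : (n : ℝ) + 2 ≤ J (i + 1) := by exact_mod_cast (by omega : n + 2 ≤ J (i + 1))
    exact CNT_mid h hi (by linarith [(a1 i hi.le).1]) (by linarith [(a1 _ hi).2])

theorem p_CNT :
    S_CNT := by
  intro α _ S Z k hk hA hZ
  have Y : CF {y : (α × ℕ) × ℤ × ℕ | y.1.1 ∈ S ∧ 0 ≤ frac y.2}
      fun y => (-1) ^ y.1.2 * Z y.1.1 (frac y.2) := by
    refine CF.mul ((CF.one.sub ((CF.ofNat 2).mul (CF.nat (Primrec.nat_mod.comp
      (Primrec.snd.comp Primrec.fst) (Primrec.const 2)).to_comp))).congr fun y _ => ?_)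
      (hZ.comp ((Computable.fst.comp Computable.fst).pair Computable.snd) fun _ h => h)
    rw [neg_one_pow_eq_pow_mod_two]
    rcases Nat.mod_two_eq_zero_or_one y.1.2 with e | e <;> rw [e] <;> norm_num
  have e0 : ∀ n : ℕ, frac ((n : ℤ), 0) = n := fun n => by simp [frac]
  have N : REon {y : (α × ℕ) × ℕ | y.1.1 ∈ S} fun y => 0 < (-1) ^ y.1.2 * Z y.1.1 y.2 :=
    ((CF.zero.lt Y).comp (f := fun y : (α × ℕ) × ℕ => (y.1, (y.2 : ℤ), 0))
      (Computable.fst.pair ((primrec_int_cast.comp Primrec.snd).to_comp.pair (Computable.const 0)))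
      fun y h => ⟨h, by simp [e0]⟩).congr fun y _ => by simp only [e0]
  have gd : Primrec₂ fun (l : List ℕ) (n : ℕ) => l.getD n 0 := Primrec.list_getD 0
  have g1 : Primrec fun y : (α × List ℕ) × ℕ => y.1.2.getD y.2 0 :=
    gd.comp (Primrec.snd.comp Primrec.fst) Primrec.snd
  have g2 : Primrec fun y : (α × List ℕ) × ℕ => y.1.2.getD (y.2 + 1) 0 :=
    gd.comp (Primrec.snd.comp Primrec.fst) (Primrec.succ.comp Primrec.snd)
  have g3 : Primrec fun y : (α × List ℕ) × ℕ => (y.1.1, y.2) :=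
    (Primrec.fst.comp Primrec.fst).pair Primrec.snd
  have P : REon {x : α × List ℕ | x.1 ∈ S} fun x => CNT_P (Z x.1) (k x.1) fun i => x.2.getD i 0 := by
    refine (REon.prim (Primrec.eq.comp (gd.comp Primrec.snd (Primrec.const 0))
      (Primrec.const 1))).and ((REon.ball ?_ (Computable.succ.comp (hk.comp Computable.fst))).and
      (REon.ball ?_ (hk.comp Computable.fst)))
    · exact N.comp (g3.pair g1).to_comp fun _ h => h.1
    · refine (REon.prim (Primrec.nat_le.comp g1 g2)).and (REon.ball ?_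
        (Primrec.nat_sub.comp g2 (Primrec.const 1)).to_comp)
      exact REon.imp (Primrec.nat_le.comp (g1.comp Primrec.fst) Primrec.snd)
        (N.comp ((g3.comp Primrec.fst).pair Primrec.snd).to_comp fun _ h => h.1.1.1)
  have c0 : Computable fun x : α × List ℕ × (ℤ × ℕ) × ℤ × ℕ => (x.1, k x.1) :=
    Computable.fst.pair (hk.comp Computable.fst)
  have c1 : Computable fun x : α × List ℕ × (ℤ × ℕ) × ℤ × ℕ => x.2.2.1 :=
    Computable.fst.comp (Computable.snd.comp Computable.snd)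
  have c2 : Computable fun x : α × List ℕ × (ℤ × ℕ) × ℤ × ℕ => x.2.2.2 :=
    Computable.snd.comp (Computable.snd.comp Computable.snd)
  have c3 : Computable fun x : α × List ℕ × (ℤ × ℕ) × ℤ × ℕ => x.2.1.getD (k x.1) 0 :=
    gd.to_comp.comp (Computable.fst.comp Computable.snd) (hk.comp Computable.fst)
  refine cf_gen (G := fun x : α × List ℕ × (ℤ × ℕ) × ℤ × ℕ =>
      CNT_P (Z x.1) (k x.1) (fun i => x.2.1.getD i 0) ∧
      (frac x.2.2.1 < x.2.1.getD (k x.1) 0 ∧ x.2.1.getD (k x.1) 0 < frac x.2.2.2 + (2 : ℕ)) ∧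
      (frac x.2.2.1 < 0 ∨ 0 < frac x.2.2.1 ∧ (-1) ^ k x.1 * Z x.1 (frac x.2.2.1) < 0) ∧
      0 < frac x.2.2.2 ∧ 0 < (-1) ^ k x.1 * Z x.1 (frac x.2.2.2))
    ((P.comp (Computable.fst.pair (Computable.fst.comp Computable.snd)) fun _ h => h).and
      ((((CF.frac c1).lt (CF.nat c3)).and ((CF.nat c3).lt ((CF.frac c2).add (CF.ofNat 2)))).and
        ((((CF.frac c1).lt CF.zero).or ((CF.zero.lt (CF.frac c1)).guard
          ((Y.lt CF.zero).comp (c0.pair c1) fun _ h => ⟨h.1, h.2.le⟩))).and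
          ((CF.zero.lt (CF.frac c2)).guard
            ((CF.zero.lt Y).comp (c0.pair c2) fun _ h => ⟨h.1, h.2.le⟩)))))
    (CF.frac c2) ((CF.frac c2).sub (CF.frac c1)) (fun a ha δ hδ => ?_) fun a ha c g => ?_
  · have h := (hA a ha).2
    have m0 : 0 < min (δ / 2) 1 := lt_min (half_pos hδ) one_pos
    have m1 := min_le_left (δ / 2) 1
    have m2 := min_le_right (δ / 2) 1
    have h0 := h.nonneg
    obtain ⟨p, p1, p2⟩ := exists_frac_btwn (sub_lt_self (cr (Z a) (k a)) m0)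
    obtain ⟨r, r1, r2⟩ := exists_frac_btwn (lt_add_of_pos_right (cr (Z a) (k a)) m0)
    have hJ : ∀ i ≤ k a, ((List.range (k a + 1)).map fun i => ⌊cr (Z a) i⌋₊ + 1).getD i 0 =
        ⌊cr (Z a) i⌋₊ + 1 := fun i hi => by simp [Nat.lt_succ_of_le hi]
    have f1 := Nat.lt_floor_add_one (cr (Z a) (k a))
    have f2 := Nat.floor_le h0
    refine ⟨(_, p, r), ⟨CNT_compl h hJ, ?_, ?_, h0.trans_lt r1,
      (lt_min one_pos (sub_pos.2 r1)).trans_le (h.2 _ ⟨r1.le, by linarith⟩)⟩, by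
        simp only; linarith⟩
    · simp only [hJ _ le_rfl]
      push_cast
      constructor <;> linarith
    · simp only
      generalize k a = m at *
      rcases m with _ | m
      · exact Or.inl p2
      · have b1 := (h.1 m m.lt_succ_self).1
        have b2 := (CNT_alt h m.le_succ).nonneg
        have b3 := CNT_mid h m.lt_succ_self (t := frac p) (by linarith) p2
        rw [pow_succ]
        exact Or.inr ⟨by linarith, by linarith⟩
  · have h := (hA a ha).2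
    obtain ⟨g1, ⟨g2, g3⟩, g4, g5, g6⟩ := g
    obtain ⟨s1, s2⟩ := CNT_sound h g1 _ le_rfl
    simp only at *
    have a1 : frac c.2.1 ≤ cr (Z a) (k a) := g4.elim (fun e => e.le.trans h.nonneg) fun e =>
      (not_le.1 fun e' => e.2.not_ge (CNT_up h e' (by linarith))).le
    have a2 : cr (Z a) (k a) ≤ frac c.2.2 := by
      generalize k a = m at *
      rcases m with _ | m
      · exact g5.le
      · push_cast at g3
        exact (not_le.1 fun e => g6.not_ge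
          (CNT_dn h (by linarith [(h.1 m m.lt_succ_self).1]) e)).le
    exact abs_le.2 ⟨by linarith, by linarith⟩

end Pool.Agent.P.MP_9ae58c_an.B

end

section

/-! Step ROOT. -/

namespace Pool.Agent.P.MP_9ae58c_an.B

open Set Filter Topology Complex

theorem ROOT_near {D : ℝ → ℝ} {A B x : ℝ} (hD : ContinuousOn D (Icc A B)) (hAB : A < B)
    (hx : x ∈ Icc A B) (h : D x < 0) : ∃ q, frac q ∈ Icc A B ∧ D (frac q) < 0 := by
  obtain ⟨δ, hδ, h1⟩ := Metric.mem_nhdsWithin_iff.1 ((hD x hx).eventually (gt_mem_nhds h))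
  obtain ⟨q, h2, h3⟩ := exists_frac_btwn (show max A (x - δ) < min B (x + δ) from
    max_lt (lt_min hAB (by linarith [hx.1])) (lt_min (by linarith [hx.2]) (by linarith)))
  rw [max_lt_iff] at h2
  rw [lt_min_iff] at h3
  exact ⟨q, ⟨h2.1.le, h3.1.le⟩, h1 ⟨by
    rw [Metric.mem_ball, Real.dist_eq, abs_lt]; constructor <;> linarith [h2.2, h3.2],
    h2.1.le, h3.1.le⟩⟩

/-- the midpoint -/
def ROOT_mid (z : (ℤ × ℕ) × ℤ × ℕ) : ℤ × ℕ := qmul (1, 1) (qsub z.1 (qneg z.2))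

theorem ROOT_frac (z : (ℤ × ℕ) × ℤ × ℕ) : frac (ROOT_mid z) = (frac z.1 + frac z.2) / 2 := by
  rw [ROOT_mid, frac_qmul, frac_qsub, frac_qneg]
  simp only [frac]
  norm_num
  ring

theorem ROOT_prim : Primrec ROOT_mid :=
  prim_qmul.comp (Primrec.const _) (prim_qsub.comp Primrec.fst (prim_qneg.comp Primrec.snd))

theorem p_ROOT :
    S_ROOT := by
  intro D A B x y hD hC hx hy h1 h2
  by_cases h0 : ∃ q, frac q ∈ Icc A B ∧ D (frac q) = 0
  · obtain ⟨q, h3, h4⟩ := h0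
    exact ⟨_, h3, h4, CF.frac (Computable.const q)⟩
  have hAB : A < B := by
    by_contra e
    have : x = y := by linarith [hx.1, hx.2, hy.1, hy.2, not_lt.1 e]
    rw [this] at h1
    linarith
  obtain ⟨p₀, p1, p2⟩ := ROOT_near hD hAB hx h1
  obtain ⟨q₀, q1, q2⟩ := ROOT_near hD.neg hAB hy (neg_neg_of_pos h2)
  have mid : ∀ z : (ℤ × ℕ) × ℤ × ℕ, frac z.1 ∈ Icc A B → frac z.2 ∈ Icc A B →
      frac (ROOT_mid z) ∈ Icc A B := fun z a b => by
    rw [ROOT_frac]; constructor <;> linarith [a.1, a.2, b.1, b.2]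
  have m : Primrec fun w : ℕ × ((ℤ × ℕ) × ℤ × ℕ) × (ℤ × ℕ) × ℤ × ℕ => ROOT_mid w.2.1 :=
    ROOT_prim.comp (Primrec.fst.comp Primrec.snd)
  have c := hC.comp (S := {w : ℕ × ((ℤ × ℕ) × ℤ × ℕ) × (ℤ × ℕ) × ℤ × ℕ |
    frac w.2.1.1 ∈ Icc A B ∧ frac w.2.1.2 ∈ Icc A B}) m.to_comp fun w hw => mid _ hw.1 hw.2
  obtain ⟨r, hr, er⟩ := ((REon.prim (Primrec.eq.comp (Primrec.snd.comp Primrec.snd)
    ((Primrec.fst.comp (Primrec.fst.comp Primrec.snd)).pair m))).and (CF.zero.lt c)).or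
    ((REon.prim (Primrec.eq.comp (Primrec.snd.comp Primrec.snd)
    (m.pair (Primrec.snd.comp (Primrec.fst.comp Primrec.snd))))).and (c.lt CF.zero))
  replace er : ∀ k z w, frac z.1 ∈ Icc A B → frac z.2 ∈ Icc A B →
      ((w = (z.1, ROOT_mid z) ∧ 0 < D (frac (ROOT_mid z)) ∨
        w = (ROOT_mid z, z.2) ∧ D (frac (ROOT_mid z)) < 0) ↔ r (k, z, w)) :=
    fun k z w a b => er (k, z, w) ⟨a, b⟩
  obtain ⟨f, hf, -, hI⟩ := RE.seq (r := fun k z w => r (k, z, w)) hr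
    (fun k z => frac z.1 ∈ Icc A B ∧ frac z.2 ∈ Icc A B ∧ D (frac z.1) < 0 ∧ 0 < D (frac z.2) ∧
      |frac z.1 - frac z.2| ≤ (B - A) / 2 ^ k) (p₀, q₀)
    ⟨p1, q1, p2, neg_neg_iff_pos.1 q2, abs_le.2 (by
      constructor <;> simp only [pow_zero, div_one] <;> linarith [p1.1, p1.2, q1.1, q1.2])⟩
    (fun k z hz => by
      rcases lt_trichotomy 0 (D (frac (ROOT_mid z))) with e | e | e
      · exact ⟨_, (er k z _ hz.1 hz.2.1).1 (Or.inl ⟨rfl, e⟩)⟩
      · exact absurd ⟨_, mid z hz.1 hz.2.1, e.symm⟩ h0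
      · exact ⟨_, (er k z _ hz.1 hz.2.1).1 (Or.inr ⟨rfl, e⟩)⟩)
    (fun k z w hz h => by
      obtain ⟨a1, a2, a3, a4, a5⟩ := hz
      have e : (B - A) / 2 ^ (k + 1) = (B - A) / 2 ^ k / 2 := by rw [pow_succ, div_div]
      rw [abs_le] at a5
      rcases (er k z w a1 a2).2 h with ⟨rfl, g⟩ | ⟨rfl, g⟩
      · refine ⟨a1, mid z a1 a2, a3, g, ?_⟩
        rw [e, ROOT_frac, abs_le]; constructor <;> linarith [a5.1, a5.2]
      · refine ⟨mid z a1 a2, a2, g, a4, ?_⟩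
        rw [e, ROOT_frac, abs_le]; constructor <;> linarith [a5.1, a5.2])
  have st : ∀ k, dist (frac (f k).1) (frac (f (k + 1)).1) ≤ (B - A) / 2 / 2 ^ k := fun k => by
    obtain ⟨⟨a1, a2, -, -, a5⟩, h⟩ := hI k
    rw [div_right_comm, Real.dist_eq]
    have a6 := abs_le.1 a5
    rcases (er k _ _ a1 a2).2 h with ⟨e, -⟩ | ⟨e, -⟩ <;> rw [e]
    · simp only [sub_self, abs_zero]; linarith [abs_nonneg (frac (f k).1 - frac (f k).2)]
    · rw [ROOT_frac, abs_le]; constructor <;> linarith [a6.1, a6.2]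
  obtain ⟨μ, hμ⟩ := cauchySeq_tendsto_of_complete (cauchySeq_of_le_geometric_two st)
  have hμ' : Tendsto (fun k => frac (f k).2) atTop (𝓝 μ) := by
    have t0 : Tendsto (fun k : ℕ => (B - A) / 2 ^ k) atTop (𝓝 0) :=
      tendsto_const_nhds.div_atTop (tendsto_pow_atTop_atTop_of_one_lt one_lt_two)
    have t1 : Tendsto (fun k => frac (f k).1 - frac (f k).2) atTop (𝓝 0) :=
      squeeze_zero_norm (fun k => (hI k).1.2.2.2.2) t0
    simpa using hμ.sub t1
  have hm : μ ∈ Icc A B := isClosed_Icc.mem_of_tendsto hμ (.of_forall fun k => (hI k).1.1)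
  have lim : ∀ {g : ℕ → ℝ}, Tendsto g atTop (𝓝 μ) → (∀ k, g k ∈ Icc A B) →
      Tendsto (fun k => D (g k)) atTop (𝓝 (D μ)) := fun h h' =>
    (hD μ hm).tendsto.comp (tendsto_nhdsWithin_iff.2 ⟨h, .of_forall h'⟩)
  refine ⟨μ, hm, le_antisymm (le_of_tendsto' (lim hμ fun k => (hI k).1.1) fun k => (hI k).1.2.2.1.le)
    (ge_of_tendsto' (lim hμ' fun k => (hI k).1.2.1) fun k => (hI k).1.2.2.2.1.le), ?_⟩
  obtain ⟨k₀, hk⟩ := pow_unbounded_of_one_lt (B - A) (one_lt_two (α := ℝ))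
  refine CF.lim (χ := fun _ n => frac (f (n + k₀)).1) (CF.frac (Computable.fst.comp (hf.comp
    (Primrec.nat_add.comp Primrec.snd (Primrec.const k₀)).to_comp))) fun _ _ n => ?_
  have d := dist_le_of_le_geometric_two_of_tendsto st hμ (n + k₀)
  rw [Real.dist_eq, abs_sub_comm] at d
  refine d.trans ?_
  have n2 : (n : ℝ) + 1 ≤ 2 ^ n := by exact_mod_cast Nat.lt_two_pow_self
  rw [div_le_div_iff₀ (by positivity) (by positivity), pow_add, one_mul, mul_comm]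
  gcongr

end Pool.Agent.P.MP_9ae58c_an.B

end
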