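import Pool.Agent.P.MP_9ae58c_an.B.IfC

section

/-! Step MCB. -/

namespace Pool.Agent.P.MP_9ae58c_an.B

open Set Filter Topology Complex

theorem MCB_two {c c' : ℕ → ℝ} {β P M : ℝ} {n i : ℕ} (hβ : 0 ≤ β) (hP : 0 ≤ P) (hM : 0 ≤ M)
    (h : ∀ r < n, |c (r + 1)| ≤ β * (P * |c r|)) (h' : ∀ r < n, P * |c' r| ≤ β * |c' (r + 1)|)
    (h0 : |c i| ≤ M * |c' i|) (d : ℕ) (hd : i + d ≤ n) :
    |c (i + d)| ≤ M * β ^ (2 * d) * |c' (i + d)| := by
  induction d with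
  | zero => simpa using h0
  | succ d ih =>
    calc |c (i + d + 1)| ≤ β * (P * |c (i + d)|) := h _ hd
      _ ≤ β * (P * (M * β ^ (2 * d) * |c' (i + d)|)) := by gcongr; exact ih (by omega)
      _ = M * β ^ (2 * d) * β * (P * |c' (i + d)|) := by ring
      _ ≤ M * β ^ (2 * d) * β * (β * |c' (i + d + 1)|) :=
        mul_le_mul_of_nonneg_left (h' _ hd) (by positivity)
      _ = _ := by rw [← add_assoc]; ring

theorem MCB_ini {ρ z s₀ s s' W : ℝ} (h0 : 0 ≤ ρ) (h1 : ρ ≤ 1) (hz : 1 ≤ z) (hW : 8 * z ≤ W)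
    (a₀ : s₀ ∈ Icc (1 : ℝ) 2) (a : s ∈ Icc (1 : ℝ) 2) (a' : s' ∈ Icc (1 : ℝ) 2) :
    ‖ini ρ z s₀ s' - ini ρ z s₀ s‖ ≤ |s' - s| * W ∧ ‖ini' ρ z s₀ s' - ini' ρ z s₀ s‖ ≤ |s' - s| * W ∧
      ‖ini' ρ z s₀ s'‖ ≤ W := by
  obtain ⟨a1, a2⟩ := a₀
  obtain ⟨a3, a4⟩ := a
  obtain ⟨a5, a6⟩ := a'
  have p0 : 0 < s₀ := by linarith
  have p : 0 < s := by linarith
  have p' : 0 < s' := by linarith
  have d := abs_nonneg (s' - s)
  have b1 : (1 + ρ) / s₀ ≤ W := (div_le_self (by linarith) a1).trans (by linarith)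
  have b2 : z * s₀ ≤ 2 * z := by nlinarith
  have b3 : 0 ≤ z * s₀ := by positivity
  have b4 : 1 ≤ s * s' := one_le_mul_of_one_le_of_one_le a3 a5
  refine ⟨norm_le_of ?_ ?_ ?_, norm_le_of ?_ ?_ ?_, norm_le_of ?_ ?_ ?_⟩
  · have : (ini ρ z s₀ s' - ini ρ z s₀ s).1 = (((s' - s) * ((1 + ρ) / s₀) : ℝ) : ℂ) := by
      simp only [ini, Prod.fst_sub]
      rw [← ofReal_sub]
      congr 1
      ring
    rw [this, norm_real, Real.norm_eq_abs, abs_mul, abs_of_nonneg (by positivity : 0 ≤ (1 + ρ) / s₀)]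
    gcongr
  · have : (ini ρ z s₀ s' - ini ρ z s₀ s).2.1 = -((s' - s) * (z * s₀ / (s * s'))) := by
      simp only [ini, Prod.snd_sub, Prod.fst_sub]
      field_simp
      ring
    rw [this, abs_neg, abs_mul, abs_of_nonneg (by positivity : 0 ≤ z * s₀ / (s * s'))]
    gcongr
    exact (div_le_self b3 b4).trans (by linarith)
  · simp only [ini, Prod.snd_sub, sub_self, abs_zero]
    exact mul_nonneg d (by linarith)
  · simp only [ini', Prod.fst_sub, sub_self, norm_zero]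
    exact mul_nonneg d (by linarith)
  · have : (ini' ρ z s₀ s' - ini' ρ z s₀ s).2.1 =
        (s' - s) * (z * s₀ * (s + s') / (s * s') ^ 2) := by
      simp only [ini', Prod.snd_sub, Prod.fst_sub]
      field_simp
      ring
    rw [this, abs_mul, abs_of_nonneg (by positivity : 0 ≤ z * s₀ * (s + s') / (s * s') ^ 2)]
    gcongr
    exact (div_le_self (by positivity) (one_le_pow₀ b4)).trans (by nlinarith)
  · simp only [ini', Prod.snd_sub, sub_self, abs_zero]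
    exact mul_nonneg d (by linarith)
  · simp only [ini', norm_real, Real.norm_eq_abs]
    rwa [abs_of_nonneg (by positivity)]
  · simp only [ini', abs_neg]
    rw [abs_of_nonneg (by positivity)]
    exact (div_le_self b3 (one_le_pow₀ a5)).trans (by linarith)
  · simp only [ini', abs_zero]
    linarith

theorem MCB_jv {B t A : ℕ} {s s' : ℝ} (h : s ∈ Jv B t A) (h' : s' ∈ Jv B t A) :
    |s' - s| ≤ 1 / (B : ℝ) ^ t := by
  obtain ⟨h1, h2⟩ := h
  obtain ⟨h3, h4⟩ := h'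
  rw [add_div] at h2 h4
  exact abs_le.2 ⟨by linarith, by linarith⟩

theorem p_MCB (hMCA : S_MCA) :
    S_MCB := by
  intro Y μ K C m ω n₀ κ a b k j H c A n A' hV hJ hL s hs s' hs'
  have hb : (10 : ℝ) ^ 4 ≤ b := by exact_mod_cast H.hb
  have b1 : (1 : ℝ) ≤ b := by linarith
  have q1 : 1 ≤ 2 ^ c := Nat.one_le_two_pow
  have hp : 10 * 2 ^ c ≤ pc j c := by
    have := H.hj
    rw [pc, pow_succ]
    nlinarith
  have eL : (LL b k j c : ℝ) = (b : ℝ) ^ ((k + 1) * pc j c) := by simp [LL]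
  have eB : (BB b k : ℝ) = (b : ℝ) ^ (12 * (k + 1)) := by simp [BB]
  have ey : (yN b k j c : ℝ) = (b : ℝ) ^ (4 * (k + 1) * (2 * pc j c + 2 ^ c) + 1) := by simp [yN]
  have eP : (BB b k : ℝ) ^ pc j c = (LL b k j c : ℝ) ^ 12 := by
    rw [eL, eB, ← pow_mul, ← pow_mul]
    congr 1
    ring
  have B1 : (1 : ℝ) ≤ BB b k := eB ▸ one_le_pow₀ b1
  have eS : ∀ r, (BB b k : ℝ) ^ sl j c r = (BB b k : ℝ) ^ sl j c 0 * (LL b k j c : ℝ) ^ (12 * r) :=
    fun r => by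
      rw [pow_mul, ← eP, ← pow_mul, ← pow_add]
      congr 1
      simp only [sl]
      ring
  have hS : (LL b k j c : ℝ) ^ 24 ≤ (BB b k : ℝ) ^ sl j c 0 := by
    rw [show 24 = 12 * 2 from rfl, pow_mul, ← eP, ← pow_mul]
    exact pow_le_pow_right₀ B1 (by simp [sl])
  have l1 : (b : ℝ) ^ (4 * k + 9) ≤ LL b k j c := eL ▸ pow_le_pow_right₀ b1 (by nlinarith)
  have l2 : (b : ℝ) ≤ LL b k j c := (le_self_pow₀ b1 (by omega)).trans l1
  have y1 : (LL b k j c : ℝ) ^ 8 ≤ yN b k j c := by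
    rw [eL, ey, ← pow_mul]
    exact pow_le_pow_right₀ b1 (by nlinarith)
  have y2 : (yN b k j c : ℝ) ≤ (LL b k j c : ℝ) ^ 11 := by
    rw [eL, ey, ← pow_mul]
    exact pow_le_pow_right₀ b1 (by nlinarith)
  have up := fun r hr => ((hL s hs).rat r hr).2.2.2
  have dn := fun r hr => ((hL s' hs').rat r hr).2.2.1
  have two := fun i => MCB_two (c := fun r => oc Y μ κ b k j (c, A) r s) (i := i)
    (c' := fun r => oc Y μ κ b k j (c, A) r s') (by positivity) (by positivity) (sq_nonneg (b : ℝ))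
    up dn
  rcases lt_or_ge n k with hn | hn
  · have i1 := (((hMCA _ _ _ _ _ _ _ _ _ _ _ _ H).ini c A hV) s (hJ hs)).2.2
    have i2 := (((hMCA _ _ _ _ _ _ _ _ _ _ _ _ H).ini c A hV) s' (hJ hs')).2.1
    have := two 0
      (i1.trans (le_trans (le_of_eq (by ring)) (mul_le_mul_of_nonneg_left i2 (sq_nonneg (b : ℝ)))))
      n (by omega)
    rw [zero_add, ← pow_add] at this
    exact this.trans (mul_le_mul_of_nonneg_right (pow_le_pow_right₀ b1 (by omega)) (abs_nonneg _))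
  obtain ⟨i, rfl⟩ := Nat.exists_eq_add_of_le' hn
  have An := H.an c
  have hρ := H.hρ c
  have F := H.fam (c, A)
  have v0 := H.v0 (c, A)
  have u0 : ∀ σ, orb Y μ κ b k j (c, A) σ 0 = ini (rh κ b k j c) ((yN b k j c : ℝ) ^ 2)
    (A / (BB b k : ℝ) ^ pc j c) σ := fun σ => H.fl.init _ _
  have ρ0 : 0 ≤ rh κ b k j c := by unfold rh; positivity
  have Bp : (0 : ℝ) < (BB b k : ℝ) ^ pc j c := by positivity
  have s0 : (A : ℝ) / (BB b k : ℝ) ^ pc j c ∈ Icc (1 : ℝ) 2 := by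
    have v1 : (BB b k : ℝ) ^ pc j c ≤ A := by exact_mod_cast hV.1
    have v2 : (A : ℝ) + 1 ≤ 2 * (BB b k : ℝ) ^ pc j c := by exact_mod_cast hV.2
    exact ⟨(one_le_div Bp).2 v1, (div_le_iff₀ Bp).2 (by linarith)⟩
  have j0 : (A : ℝ) / (BB b k : ℝ) ^ pc j c ∈ Jv (BB b k) (pc j c) A :=
    ⟨le_rfl, by gcongr; linarith⟩
  have m1 := ((hL s hs).rng 0 (by omega)).1.2.1
  have m2 := ((hL s' hs').rng 0 (by omega)).1.2.1
  have r0 := ((hL s' hs').rng 0 (by omega)).2.1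
  have d0 := MCB_jv j0 (hJ hs)
  have d1 := MCB_jv hs hs'
  rw [eP] at d0
  rw [eS] at d1
  have S0 : (0 : ℝ) < (BB b k : ℝ) ^ sl j c 0 := by positivity
  have L0 : (0 : ℝ) < LL b k j c := by linarith
  have L1 : (1 : ℝ) ≤ LL b k j c := by linarith
  have e : ∀ r : ℕ, 1 / (1 / (LL b k j c : ℝ)) ^ r = (LL b k j c : ℝ) ^ r := fun r => by simp
  have e' : ∀ (x : ℝ) (r : ℕ), x / (1 / (LL b k j c : ℝ)) ^ r = x * (LL b k j c : ℝ) ^ r :=
    fun x r => by simp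
  have y0 : (1 : ℝ) ≤ yN b k j c := (one_le_pow₀ L1).trans y1
  have z1 : (LL b k j c : ℝ) ^ 16 ≤ 10 * (yN b k j c : ℝ) ^ 2 := by
    have := pow_le_pow_left₀ (by positivity) y1 2
    rw [← pow_mul] at this
    exact this.trans (by linarith [sq_nonneg (yN b k j c : ℝ)])
  have z2 : 8 * (yN b k j c : ℝ) ^ 2 ≤ (LL b k j c : ℝ) ^ 23 := by
    have := pow_le_pow_left₀ (by positivity) y2 2
    rw [← pow_mul] at this
    rw [pow_succ' _ 22]
    exact mul_le_mul (by linarith) this (by positivity) L0.le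
  obtain ⟨n1, n2, n3⟩ := MCB_ini ρ0 hρ (one_le_pow₀ y0) z2 s0 m1 m2
  obtain ⟨-, -, -, w1, w2⟩ := An.ini _ _ s _ _ (by rwa [e]) (by rwa [e]) s0 m1
    (by rw [one_div_pow, eP]; exact d0) (F.gl s) (F.var s) (u0 s) (v0 s)
  have key := An.dst (10 * (yN b k j c : ℝ) ^ 2) s s' ((BB b k : ℝ) ^ sl j c 0) _ _ (i + k) i F
    (by linarith [m1.1]) (by linarith [m2.1]) le_rfl (by rwa [e])
    (d1.trans (le_of_eq (by rw [one_div_pow, div_div, mul_comm]))) (by rwa [e', u0, u0]) (by rwa [e', v0, v0])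
    (by rwa [e, v0]) w1 w2 (by
      rw [e]
      exact hS.trans ((le_mul_of_one_le_left S0.le b1).trans r0))
    (fun σ hσ r hr => by
      have g := (hL σ (Set.OrdConnected.uIcc_subset ordConnected_Icc hs hs' hσ)).rng r (by omega)
      refine ⟨g.1.2.2, An.dep _ _ _ _ (by rwa [e]) g.1.2.2, g.2.2.trans ?_⟩
      rw [e', eS r, pow_succ (LL b k j c : ℝ)]
      calc _ = (BB b k : ℝ) ^ sl j c 0 * ((LL b k j c : ℝ) ^ (12 * r) * (b : ℝ) ^ (4 * k + 9)) := by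
            ring
        _ ≤ _ := by gcongr)
    (fun r hr => by
      have g := (hL s hs).rat r (by omega)
      refine ⟨(An.nxt _ _ _ _ (by rwa [e]) ((hL s hs).rng r (by omega)).1.2.2 g.1 g.2.1).2.1, ?_⟩
      have g' := (dn r (by omega)).trans (mul_le_mul_of_nonneg_right l2 (abs_nonneg _))
      rw [eP, pow_succ' _ 11, mul_assoc, mul_le_mul_iff_right₀ L0] at g'
      rwa [one_div_pow, one_div_mul_eq_div, le_div_iff₀' (by positivity)])
  have := two i (by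
    have t := abs_sub_abs_le_abs_sub (oc Y μ κ b k j (c, A) i s) (oc Y μ κ b k j (c, A) i s')
    have t' := abs_nonneg (oc Y μ κ b k j (c, A) i s')
    have t2 : (2 : ℝ) ≤ (b : ℝ) ^ 2 := by nlinarith
    change |oc Y μ κ b k j (c, A) i s - oc Y μ κ b k j (c, A) i s'| ≤
      |oc Y μ κ b k j (c, A) i s'| / 2 at key
    exact le_trans (by linarith) (mul_le_mul_of_nonneg_right t2 t')) k le_rfl
  rwa [← pow_add, add_comm 2] at this

end Pool.Agent.P.MP_9ae58c_an.B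

end

section

/-! Step MCC. -/

namespace Pool.Agent.P.MP_9ae58c_an.B

open Set Filter Topology Complex

theorem MCC_two : Primrec fun c : ℕ => 2 ^ c := cf_primrec_pow.comp (Primrec.const 2) Primrec.id

theorem MCC_pc (j : ℕ) : Primrec (pc j) :=
  Primrec.nat_mul.comp (MCC_two.comp Primrec.succ) (Primrec.const j)

theorem MCC_LL (b k j : ℕ) : Primrec (LL b k j) :=
  cf_primrec_pow.comp (Primrec.const b) (Primrec.nat_mul.comp (Primrec.const (k + 1)) (MCC_pc j))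

theorem MCC_yN (b k j : ℕ) : Primrec (yN b k j) :=
  cf_primrec_pow.comp (Primrec.const b) (Primrec.succ.comp
    (Primrec.nat_mul.comp (Primrec.const (4 * (k + 1)))
      (Primrec.nat_add.comp (Primrec.nat_mul.comp (Primrec.const 2) (MCC_pc j)) MCC_two)))

theorem MCC_BP (b k j : ℕ) : Primrec fun c => BB b k ^ pc j c :=
  cf_primrec_pow.comp (Primrec.const (BB b k)) (MCC_pc j)

theorem MCC_ht {b : ℕ} (hb : 1 ≤ b) (k j c : ℕ) :
    1 / (1 / (LL b k j c : ℝ)) ^ 16 ≤ 10 * (yN b k j c : ℝ) ^ 2 := by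
  have h1 : LL b k j c ^ 16 ≤ yN b k j c ^ 2 := by
    rw [LL, yN, ← pow_mul, ← pow_mul]
    refine Nat.pow_le_pow_right hb ?_
    nlinarith [Nat.zero_le ((k + 1) * 2 ^ c)]
  have h2 : (LL b k j c : ℝ) ^ 16 ≤ (yN b k j c : ℝ) ^ 2 := by exact_mod_cast h1
  rw [one_div_pow, one_div_one_div]
  nlinarith [sq_nonneg (yN b k j c : ℝ)]

theorem MCC_ini {α : Type} [Primcodable α] {S : Set α} {ρ z s₀ s : α → ℝ} (h1 : CF S ρ)
    (h2 : CF S z) (h3 : CF S s₀) (h4 : CF S s) (p3 : ∀ a ∈ S, 0 < s₀ a) (p4 : ∀ a ∈ S, 0 < s a) :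
    CS S fun a => ini (ρ a) (z a) (s₀ a) (s a) :=
  ⟨((((CF.one.add h1).mul h4).div h3 p3).sub CF.one).congr fun a _ => by
      simp only [ini, ofReal_re],
    CF.zero.congr fun a _ => by simp only [ini, ofReal_im], (h2.mul h3).div h4 p4, CF.zero⟩

theorem p_MCC (hCNT : S_CNT) :
    S_MCC := by
  intro Y μ K C m ω n κ a b k j h
  have hb : 1 ≤ b := le_trans (by norm_num) h.hb
  have hκ : (0 : ℝ) < κ := by exact_mod_cast h.hκ
  have hL : ∀ c, (0 : ℝ) < LL b k j c := fun c => by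
    have : 0 < LL b k j c := pow_pos hb _
    exact_mod_cast this
  have hB : ∀ c, 0 < BB b k ^ pc j c := fun c => pow_pos (pow_pos hb _) _
  obtain ⟨S, hS⟩ : ∃ S : Set ((ℕ × ℕ) × ℕ × ℤ × ℕ),
      S = {x | GG Y μ κ b k j x.1 x.2.1 (frac x.2.2)} := ⟨_, rfl⟩
  have hm : ∀ x ∈ S, GG Y μ κ b k j x.1 x.2.1 (frac x.2.2) := fun x hx => by rwa [hS] at hx
  unfold McC
  rw [← hS]
  have c1 : Primrec fun x : (ℕ × ℕ) × ℕ × ℤ × ℕ => x.1.1 := Primrec.fst.comp Primrec.fst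
  have c2 : Primrec fun x : (ℕ × ℕ) × ℕ × ℤ × ℕ => 2 * x.2.1 + 1 :=
    Primrec.succ.comp (Primrec.nat_mul.comp (Primrec.const 2) (Primrec.fst.comp Primrec.snd))
  have fl : CF S fun x => 1 / (LL b k j x.1.1 : ℝ) :=
    CF.one.div (CF.nat ((MCC_LL b k j).comp c1).to_comp) fun x _ => hL _
  have fρ : CF S fun x => rh κ b k j x.1.1 := (CF.ofNat κ).mul (fl.pow 4)
  have f0 : CF S fun x => (x.1.2 : ℝ) / (BB b k : ℝ) ^ pc j x.1.1 :=
    ((CF.nat (Primrec.snd.comp Primrec.fst).to_comp).div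
      (CF.nat ((MCC_BP b k j).comp c1).to_comp) fun x _ => by exact_mod_cast hB _).congr
      fun x _ => by simp only [Nat.cast_pow]
  have fi : CS S fun x => ini (rh κ b k j x.1.1) ((yN b k j x.1.1 : ℝ) ^ 2)
      (x.1.2 / (BB b k : ℝ) ^ pc j x.1.1) (frac x.2.2) := by
    refine MCC_ini fρ ((CF.nat ((MCC_yN b k j).comp c1).to_comp).pow 2) f0
      (CF.frac (Primrec.snd.comp Primrec.snd).to_comp) (fun x hx => ?_)
      fun x hx => lt_of_lt_of_le one_pos (hm x hx).2.1.1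
    have h1 : 0 < x.1.2 := (hB _).trans_le (hm x hx).1.1
    have h2 : (0 : ℝ) < (BB b k : ℝ) ^ pc j x.1.1 := by exact_mod_cast hB _
    positivity
  have fz : CF {y : ((ℕ × ℕ) × ℕ × ℤ × ℕ) × ℤ × ℕ | y.1 ∈ S ∧ 0 ≤ frac y.2}
      fun y => zz (orb Y μ κ b k j y.1.1 (frac y.1.2.2)) (frac y.2) :=
    (h.fl.eff _ _ _ _ h.cr.cf (CF.frac Computable.snd)
      (fi.comp Computable.fst fun _ hy => hy.1) fun _ hy => hy.2).2.2.1
  have hc : ∀ i s, Continuous (zz (orb Y μ κ b k j i s)) := fun i s =>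
    (h.fl.gl μ _ h.pos h.le).cont.snd.fst
  have hd : ∀ x ∈ S, Alt (zz (orb Y μ κ b k j x.1 (frac x.2.2))) (2 * x.2.1 + 2) := fun x hx =>
    ((h.an x.1.1).dep _ _ _ _ (MCC_ht hb k j _) (hm x hx).2.2).alt
  refine ⟨hCNT _ S (fun x => zz (orb Y μ κ b k j x.1 (frac x.2.2))) _ c2.to_comp
    (fun x hx => ⟨hc _ _, (hm x hx).2.2.alt⟩) fz, ?_⟩
  have ft := hCNT _ S (fun x => zz (orb Y μ κ b k j x.1 (frac x.2.2))) (fun x => 2 * x.2.1 + 2)
    (Primrec.succ.comp c2).to_comp (fun x hx => ⟨hc _ _, hd x hx⟩) fz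
  have fT := (CF.one.div (fl.pow 3) fun x _ => by have := hL x.1.1; positivity).add ft
  have fe := h.fl.eff S _ _ _ h.cr.cf fT fi fun x hx => by
    have := hL x.1.1
    have := (hd x hx).nonneg
    positivity
  refine ((((fe.1.pow 2).add (fe.2.1.pow 2)).div (fρ.pow 2) fun x _ => ?_).sub CF.one).congr
    fun x _ => ?_
  · have := hL x.1.1
    unfold rh
    positivity
  · simp only [oy, yo, am, norm_bb, sh, Complex.sq_norm, normSq_apply, orb]
    ring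

end Pool.Agent.P.MP_9ae58c_an.B

end
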