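import Pool.Agent.P.MP_9ae58c_an.B.IfC

section

/-! Step MSTEP. -/

namespace Pool.Agent.P.MP_9ae58c_an.B

open Set Filter Topology Complex

theorem MSTEP_sub {B t A A' : ℕ} (hB : 0 < B) (h1 : B * A ≤ A') (h2 : A' < B * (A + 1)) :
    Jv B (t + 1) A' ⊆ Jv B t A := by
  have hB' : (0 : ℝ) < B := by exact_mod_cast hB
  have hP : (0 : ℝ) < (B : ℝ) ^ t := pow_pos hB' t
  have e1 : (B : ℝ) * A ≤ A' := by exact_mod_cast h1
  have e2 : (A' : ℝ) + 1 ≤ B * (A + 1) := by exact_mod_cast h2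
  refine Icc_subset_Icc ?_ ?_
  · rw [div_le_div_iff₀ hP (by positivity), pow_succ]
    nlinarith [mul_le_mul_of_nonneg_right e1 hP.le]
  · rw [div_le_div_iff₀ (by positivity) hP, pow_succ]
    nlinarith [mul_le_mul_of_nonneg_right e2 hP.le]

theorem MSTEP_left {B t A : ℕ} (hB : 0 < B) : (A : ℝ) / (B : ℝ) ^ t ∈ Jv B t A := by
  have hB' : (0 : ℝ) < B := by exact_mod_cast hB
  exact ⟨le_rfl, div_le_div_of_nonneg_right (by linarith) (by positivity)⟩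

theorem MSTEP_len {B t A : ℕ} {s s' : ℝ} (hs : s ∈ Jv B t A) (hs' : s' ∈ Jv B t A) :
    |s - s'| ≤ 1 / (B : ℝ) ^ t := by
  have e : ((A : ℝ) + 1) / (B : ℝ) ^ t = A / (B : ℝ) ^ t + 1 / (B : ℝ) ^ t := add_div _ _ _
  obtain ⟨h1, h2⟩ := hs
  obtain ⟨h3, h4⟩ := hs'
  rw [e] at h2 h4
  rw [abs_le]
  constructor <;> linarith

theorem MSTEP_pick {B t A : ℕ} (hB : 0 < B) {s : ℝ} (hs : s ∈ Jv B t A) :
    ∃ A', B * A ≤ A' ∧ A' < B * (A + 1) ∧ s ∈ Jv B (t + 1) A' := by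
  have hB' : (0 : ℝ) < B := by exact_mod_cast hB
  have hP : (0 : ℝ) < (B : ℝ) ^ t := pow_pos hB' t
  have hQ : (0 : ℝ) < (B : ℝ) ^ (t + 1) := pow_pos hB' _
  obtain ⟨h1, h2⟩ := hs
  rw [div_le_iff₀ hP] at h1
  rw [le_div_iff₀ hP] at h2
  have g1 : ((B * A : ℕ) : ℝ) ≤ s * (B : ℝ) ^ (t + 1) := by
    push_cast
    rw [pow_succ]
    nlinarith [mul_le_mul_of_nonneg_right h1 hB'.le]
  have g2 : s * (B : ℝ) ^ (t + 1) ≤ B * (A + 1) := by
    rw [pow_succ]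
    nlinarith [mul_le_mul_of_nonneg_right h2 hB'.le]
  have g0 : 0 ≤ s * (B : ℝ) ^ (t + 1) := le_trans (Nat.cast_nonneg _) g1
  by_cases hc : ⌊s * (B : ℝ) ^ (t + 1)⌋₊ < B * (A + 1)
  · refine ⟨_, Nat.le_floor g1, hc, ?_, ?_⟩
    · rw [div_le_iff₀ hQ]
      exact Nat.floor_le g0
    · rw [le_div_iff₀ hQ]
      exact (Nat.lt_floor_add_one _).le
  · have g3 : ((B * (A + 1) : ℕ) : ℝ) ≤ s * (B : ℝ) ^ (t + 1) :=
      le_trans (by exact_mod_cast not_lt.1 hc) (Nat.floor_le g0)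
    obtain ⟨B', rfl⟩ : ∃ B', B = B' + 1 := ⟨B - 1, by omega⟩
    refine ⟨(B' + 1) * A + B', by omega, by nlinarith, ?_, ?_⟩
    · rw [div_le_iff₀ hQ]
      push_cast at g3 ⊢
      nlinarith
    · rw [le_div_iff₀ hQ]
      push_cast at g2 ⊢
      nlinarith

theorem MSTEP_live {a b k j : ℕ} {G : ℕ → ℝ → Prop} {cc yy : ℕ → ℝ → ℝ} {c n : ℕ} {s : ℝ}
    (h : Live a b k j G cc yy c n s) (g : G (n + 1) s)
    (h1 : (b : ℝ) * ((BB b k : ℝ) ^ sl j c n * (BB b k : ℝ) ^ pc j c) ≤ |cc (n + 1) s|)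
    (h2 : |cc (n + 1) s| ≤
      (b : ℝ) ^ (4 * k + 9) * ((BB b k : ℝ) ^ sl j c n * (BB b k : ℝ) ^ pc j c))
    (h3 : 1 / (a : ℝ) ≤ yy n s) (h4 : yy n s ≤ 2)
    (h5 : (BB b k : ℝ) ^ pc j c * |cc n s| ≤ b * |cc (n + 1) s|)
    (h6 : |cc (n + 1) s| ≤ b * ((BB b k : ℝ) ^ pc j c * |cc n s|)) :
    Live a b k j G cc yy c (n + 1) s := by
  have e : sl j c (n + 1) = sl j c n + pc j c := by
    unfold sl
    ring
  refine ⟨fun r hr => ?_, fun r hr => ?_⟩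
  · rcases Nat.lt_or_ge r (n + 1) with h' | h'
    · exact h.rng r (by omega)
    · obtain rfl : r = n + 1 := by omega
      rw [e, pow_add]
      exact ⟨g, h1, h2⟩
  · rcases Nat.lt_or_ge r n with h' | h'
    · exact h.rat r h'
    · obtain rfl : r = n := by omega
      exact ⟨h3, h4, h5, h6⟩

theorem MSTEP_up {β P x x₀ : ℝ} {k : ℕ} (hβ : 100 ≤ β) (hP : 0 < P)
    (h1 : x₀ * (1 / P) < β ^ (2 * k + 5) + 1) (h2 : x ≤ β ^ (2 * k + 2) * x₀) :
    β * x ≤ β ^ (4 * k + 9) * P := by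
  have hw : 1 ≤ β ^ (2 * k + 5) := one_le_pow₀ (by linarith)
  have hu : 0 < β ^ (2 * k + 2) := pow_pos (by linarith) _
  rw [mul_one_div, div_lt_iff₀ hP] at h1
  have h3 : x₀ ≤ β * β ^ (2 * k + 5) * P := by
    refine h1.le.trans (mul_le_mul_of_nonneg_right ?_ hP.le)
    nlinarith
  have h4 : x ≤ β ^ (2 * k + 2) * (β * β ^ (2 * k + 5) * P) :=
    h2.trans (mul_le_mul_of_nonneg_left h3 hu.le)
  calc β * x ≤ β * (β ^ (2 * k + 2) * (β * β ^ (2 * k + 5) * P)) :=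
        mul_le_mul_of_nonneg_left h4 (by linarith)
    _ = β ^ (4 * k + 9) * P := by ring

theorem MSTEP_dn {β P x x₀ : ℝ} {k : ℕ} (hβ : 100 ≤ β) (hP : 0 < P)
    (h1 : β ^ (2 * k + 5) - 1 < x₀ * (1 / P)) (h2 : x₀ ≤ β ^ (2 * k + 2) * x) :
    β * β * P ≤ x := by
  have hu : 1 ≤ β ^ (2 * k + 2) := one_le_pow₀ (by linarith)
  rw [mul_one_div, lt_div_iff₀ hP] at h1
  have e : β ^ (2 * k + 5) = β ^ (2 * k + 2) * (β * β * β) := by ring
  have h3 : β ^ (2 * k + 2) * (β * β) ≤ β ^ (2 * k + 5) - 1 := by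
    rw [e]
    have : β * β + 1 ≤ β * β * β := by nlinarith
    nlinarith
  have h4 : β ^ (2 * k + 2) * (β * β * P) ≤ β ^ (2 * k + 2) * x := by
    calc β ^ (2 * k + 2) * (β * β * P) = β ^ (2 * k + 2) * (β * β) * P := by ring
      _ ≤ (β ^ (2 * k + 5) - 1) * P := mul_le_mul_of_nonneg_right h3 hP.le
      _ ≤ _ := h1.le.trans h2
  exact le_of_mul_le_mul_left h4 (by linarith)

theorem MSTEP_lip {α β P : ℝ} {k : ℕ} (hα : 0 < α) (hβ : 100 ≤ β) (hP : 0 < P) :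
    β / α * (β ^ (4 * k + 9) * P) * (1 / (P * β ^ (12 * (k + 1)))) ≤ 1 / (10 * α) := by
  have hβ0 : 0 < β := by linarith
  have hu : 1 ≤ β ^ (8 * k) := one_le_pow₀ (by linarith)
  have e : β / α * (β ^ (4 * k + 9) * P) * (1 / (P * β ^ (12 * (k + 1)))) =
      1 / (β ^ (8 * k) * (β * β) * α) := by
    field_simp
    ring
  rw [e]
  refine one_div_le_one_div_of_le (by positivity) (mul_le_mul_of_nonneg_right ?_ hα.le)
  have : 10 ≤ β * β := by nlinarith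
  nlinarith

theorem p_MSTEP :
    S_MSTEP := by
  intro a b k j G E cc th yy hA hB c A₀ n A f hV hJ hL
  have ha : (4 : ℝ) ≤ a := by exact_mod_cast hA.ha
  have hb : (100 : ℝ) ≤ b := by exact_mod_cast hA.hb
  have ha0 : (0 : ℝ) < a := by linarith
  have hB0 : 0 < BB b k := pow_pos (by have := hA.hb; omega) _
  have hB1 : (0 : ℝ) < BB b k := by exact_mod_cast hB0
  have hBe : (BB b k : ℝ) = (b : ℝ) ^ (12 * (k + 1)) := by simp [BB]
  have hP : (0 : ℝ) < (BB b k : ℝ) ^ sl j c n := pow_pos hB1 _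
  have hQ : (0 : ℝ) < (BB b k : ℝ) ^ pc j c := pow_pos hB1 _
  have hlen : ((A : ℝ) + 1) / (BB b k : ℝ) ^ sl j c n - A / (BB b k : ℝ) ^ sl j c n =
      1 / (BB b k : ℝ) ^ sl j c n := by ring
  have hlt : (A : ℝ) / (BB b k : ℝ) ^ sl j c n < ((A : ℝ) + 1) / (BB b k : ℝ) ^ sl j c n :=
    div_lt_div_of_pos_right (by linarith) hP
  obtain ⟨⟨s₀, hs₀, hX⟩, hlip, hsur⟩ := hA.fam (c, A₀) n _ _ hlt
    fun s hs => ((hL s hs).rng n le_rfl).1
  rw [hlen] at hX hsur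
  have hlip' := hlip _ fun s hs => ((hL s hs).rng n le_rfl).2.2
  have hsur' : ∀ Y : ℝ, -(99 / 100) ≤ Y → Y ≤ 8 →
      ∃ s ∈ Jv (BB b k) (sl j c n) A, yy (c, A₀) n s = Y := fun Y h1 h2 =>
    hsur _ Y (fun s hs => ((hL s hs).rng n le_rfl).2.1) (by
      rw [mul_assoc, mul_one_div_cancel hP.ne', mul_one]
      exact hb) h1 h2
  have hnear : ∀ A', BB b k * A ≤ A' → A' < BB b k * (A + 1) →
      ∀ s ∈ Jv (BB b k) (sl j c n + 1) A',
        |yy (c, A₀) n s - yy (c, A₀) n (A' / (BB b k : ℝ) ^ (sl j c n + 1))| ≤ 1 / (10 * a) := by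
    intro A' h1 h2 s hs
    have hs' := MSTEP_left (t := sl j c n + 1) (A := A') hB0
    refine (hlip' s (MSTEP_sub hB0 h1 h2 hs) _ (MSTEP_sub hB0 h1 h2 hs')).trans ?_
    refine (mul_le_mul_of_nonneg_left (MSTEP_len hs hs') (by positivity)).trans ?_
    rw [pow_succ (BB b k : ℝ)]
    have := MSTEP_lip (k := k) ha0 hb hP
    rwa [← hBe] at this
  have h10 : 1 / (10 * (a : ℝ)) < 1 / (5 * a) :=
    one_div_lt_one_div_of_lt (by positivity) (by linarith)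
  have h30 : 1 / (10 * (a : ℝ)) + 1 / (5 * a) = 3 / (10 * a) := by
    field_simp
    ring
  have hi1 : 1 / (a : ℝ) ≤ 1 / 4 := one_div_le_one_div_of_le (by norm_num) ha
  have hi0 : 0 < 1 / (a : ℝ) := by positivity
  have e1 : 3 / (10 * (a : ℝ)) = 3 / 10 * (1 / a) := by field_simp
  have e2 : 3 / (2 * (a : ℝ)) = 3 / 2 * (1 / a) := by field_simp
  have hex : ∀ Y : ℝ, -(99 / 100) ≤ Y → Y ≤ 8 → ∃ A', (BB b k * A ≤ A' ∧ A' < BB b k * (A + 1)) ∧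
      |yy (c, A₀) n (A' / (BB b k : ℝ) ^ (sl j c n + 1)) - Y| < 1 / (5 * a) := by
    intro Y h1 h2
    obtain ⟨s, hs, rfl⟩ := hsur' Y h1 h2
    obtain ⟨A', g1, g2, g3⟩ := MSTEP_pick hB0 hs
    refine ⟨A', ⟨g1, g2⟩, ?_⟩
    rw [abs_sub_comm]
    exact (hnear A' g1 g2 s g3).trans_lt h10
  constructor
  · by_cases hf : f
    · obtain ⟨A', g1, g2⟩ := hex (-(3 / 4)) (by norm_num) (by norm_num)
      exact ⟨A', g1, fun _ => by rwa [sub_neg_eq_add] at g2, fun h => absurd hf h⟩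
    · by_cases hc : |th (c, A₀) n ((A + 1) / (BB b k : ℝ) ^ sl j c n) -
          th (c, A₀) n (A / (BB b k : ℝ) ^ sl j c n)| < (b : ℝ) ^ (2 * k + 5) + 1
      · obtain ⟨A', g1, g2⟩ := hex (3 / (2 * a)) (by rw [e2]; linarith) (by rw [e2]; linarith)
        exact ⟨A', g1, fun h => absurd h hf, fun _ => Or.inl ⟨hc, g2⟩⟩
      · obtain ⟨A', g1, g2⟩ := hex (3 / 2) (by norm_num) (by norm_num)
        exact ⟨A', g1, fun h => absurd h hf, fun _ => Or.inr ⟨by linarith [not_lt.1 hc], g2⟩⟩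
  · rintro A' ⟨⟨g1, g2⟩, g3, g4⟩ s hs
    have hsJ := MSTEP_sub hB0 g1 g2 hs
    have hLs := hL s hsJ
    obtain ⟨r1, r2, r3⟩ := hLs.rng n le_rfl
    have hcl : ∀ Y : ℝ, |yy (c, A₀) n (A' / (BB b k : ℝ) ^ (sl j c n + 1)) - Y| < 1 / (5 * a) →
        |yy (c, A₀) n s - Y| ≤ 3 / (10 * a) := by
      intro Y hY
      rw [← h30]
      exact (abs_sub_le _ _ _).trans (add_le_add (hnear A' g1 g2 s hs) hY.le)
    refine ⟨fun hf => hA.esc _ n s r1 ?_, fun hf => ?_⟩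
    · have := hcl (-(3 / 4)) (by rw [sub_neg_eq_add]; exact g3 hf)
      rw [e1, abs_le] at this
      linarith [this.2]
    · have n0 : 0 ≤ (BB b k : ℝ) ^ pc j c * |cc (c, A₀) n s| := by positivity
      rcases g4 hf with ⟨t1, t2⟩ | ⟨t1, t2⟩
      · have y1 := hcl _ t2
        obtain ⟨u1, u2, u3⟩ := hA.up _ n s r1 y1
        rw [hX] at t1
        have u4 := MSTEP_up hb hP t1 (hB c A₀ n A hV hJ hL s hsJ s₀ hs₀)
        rw [e1, e2, abs_le] at y1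
        dsimp only at u2 u3
        refine MSTEP_live hLs u1 ?_ ?_ (by linarith [y1.1]) (by linarith [y1.2]) ?_ u3
        · refine le_trans ?_ u2
          nlinarith [mul_le_mul_of_nonneg_left r2 hQ.le]
        · refine u3.trans ?_
          nlinarith [mul_le_mul_of_nonneg_left u4 hQ.le]
        · nlinarith [abs_nonneg (cc (c, A₀) (n + 1) s)]
      · have y1 := hcl _ t2
        obtain ⟨u1, u2, u3⟩ := hA.dn _ n s r1 y1
        rw [hX] at t1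
        have u4 := MSTEP_dn hb hP t1 (hB c A₀ n A hV hJ hL s₀ hs₀ s hsJ)
        rw [e1, abs_le] at y1
        dsimp only at u2 u3
        refine MSTEP_live hLs u1 ?_ ?_ (by linarith [y1.1]) (by linarith [y1.2]) u2 ?_
        · refine le_of_mul_le_mul_left (le_trans ?_ u2) (by linarith : (0 : ℝ) < b)
          nlinarith [mul_le_mul_of_nonneg_left u4 hQ.le]
        · refine u3.trans ?_
          nlinarith [mul_le_mul_of_nonneg_left r3 hQ.le]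
        · nlinarith

end Pool.Agent.P.MP_9ae58c_an.B

end

section

/-! Step MRE. -/

namespace Pool.Agent.P.MP_9ae58c_an.B

open Set Filter Topology Complex

theorem MRE_pt {α : Type} [Primcodable α] {S : Set α} {G : ℕ × ℕ → ℕ → ℝ → Prop}
    {φ : ℕ × ℕ → ℕ → ℝ → ℝ}
    (h : CF {x : (ℕ × ℕ) × ℕ × ℤ × ℕ | G x.1 x.2.1 (frac x.2.2)} fun x => φ x.1 x.2.1 (frac x.2.2))
    {i : α → ℕ × ℕ} {n N D : α → ℕ} (hi : Primrec i) (hn : Primrec n) (hN : Primrec N)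
    (hD : Primrec D) (D1 : ∀ a, 1 ≤ D a) (m : ∀ a ∈ S, G (i a) (n a) ((N a : ℝ) / (D a : ℝ))) :
    CF S fun a => φ (i a) (n a) ((N a : ℝ) / (D a : ℝ)) := by
  have e : ∀ a, frac ((N a : ℤ), D a - 1) = (N a : ℝ) / (D a : ℝ) := fun a => by
    rw [frac, Nat.cast_sub (D1 a)]
    simp
  refine (h.comp (f := fun a => (i a, n a, (N a : ℤ), D a - 1))
    (hi.pair (hn.pair ((primrec_int_cast.comp hN).pair
      (Primrec.nat_sub.comp hD (Primrec.const 1))))).to_comp fun a ha => ?_).congr fun a _ => ?_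
  · simpa only [mem_ofPred_eq, e] using m a ha
  · simp only [e]

theorem MRE_const {α : Type} [Primcodable α] {S : Set α} (p q : ℕ) (hq : 0 < q) {x : ℝ}
    (e : (p : ℝ) / q = x) : CF S fun _ => x :=
  e ▸ (CF.ofNat p).div (CF.ofNat q) fun _ _ => by exact_mod_cast hq

theorem p_MRE :
    S_MRE := by
  intro a b k j G th yy en ha hb hC hen
  have B1 : 1 ≤ BB b k := Nat.one_le_pow _ _ hb
  have B0 : (0 : ℝ) < BB b k := by exact_mod_cast B1
  have pc1 : Primrec fun x : (ℕ × ℕ) × ℕ × ℕ × ℕ => x.1.1 := Primrec.fst.comp Primrec.fst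
  have pn : Primrec fun x : (ℕ × ℕ) × ℕ × ℕ × ℕ => x.2.1 := Primrec.fst.comp Primrec.snd
  have pA : Primrec fun x : (ℕ × ℕ) × ℕ × ℕ × ℕ => x.2.2.1 :=
    Primrec.fst.comp (Primrec.snd.comp Primrec.snd)
  have pA' : Primrec fun x : (ℕ × ℕ) × ℕ × ℕ × ℕ => x.2.2.2 :=
    Primrec.snd.comp (Primrec.snd.comp Primrec.snd)
  have psl : Primrec fun x : (ℕ × ℕ) × ℕ × ℕ × ℕ => sl j x.1.1 x.2.1 :=
    Primrec.nat_add.comp (Primrec.nat_mul.comp (Primrec.nat_mul.comp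
      (cf_primrec_pow.comp (Primrec.const 2) (Primrec.succ.comp pc1)) (Primrec.const j))
      (Primrec.nat_add.comp pn (Primrec.const 2))) (cf_primrec_pow.comp (Primrec.const 2) pc1)
  have pD : Primrec fun x : (ℕ × ℕ) × ℕ × ℕ × ℕ => BB b k ^ sl j x.1.1 x.2.1 :=
    cf_primrec_pow.comp (Primrec.const (BB b k)) psl
  have pD' : Primrec fun x : (ℕ × ℕ) × ℕ × ℕ × ℕ => BB b k ^ (sl j x.1.1 x.2.1 + 1) :=
    cf_primrec_pow.comp (Primrec.const (BB b k)) (Primrec.succ.comp psl)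
  have pB : Primrec fun x : (ℕ × ℕ) × ℕ × ℕ × ℕ => x.2.2.1 + 1 := Primrec.succ.comp pA
  have pf : PrimrecPred fun x : (ℕ × ℕ) × ℕ × ℕ × ℕ => ∃ l < x.2.1, en l = x.1.1 :=
    cf_exists_lt (R := fun x l => en l = x.1.1) pn
      (Primrec.eq.comp (hen.comp Primrec.snd) (pc1.comp Primrec.fst))
  have q1 := Primrec.nat_mul.comp (Primrec.const (BB b k)) pA
  have q2 := Primrec.nat_mul.comp (Primrec.const (BB b k)) pB
  have q3 := (Primrec.nat_le.comp q1 pA').and (Primrec.nat_lt.comp pA' q2)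
  unfold Tst
  refine REon.guard (REon.prim q3) ?_
  set S : Set ((ℕ × ℕ) × ℕ × ℕ × ℕ) := {x | x ∈ {x : (ℕ × ℕ) × ℕ × ℕ × ℕ |
    ∀ σ ∈ Jv (BB b k) (sl j x.1.1 x.2.1) x.2.2.1, G x.1 x.2.1 σ} ∧
      (BB b k * x.2.2.1 ≤ x.2.2.2 ∧ x.2.2.2 < BB b k * (x.2.2.1 + 1))}
  have cy : CF S fun x => yy x.1 x.2.1 (x.2.2.2 / (BB b k : ℝ) ^ (sl j x.1.1 x.2.1 + 1)) := by
    refine (MRE_pt hC.2 Primrec.fst pn pA' pD' (fun _ => Nat.one_le_pow _ _ B1)
      fun x hx => hx.1 _ ?_).congr fun x _ => by simp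
    have h1 : (BB b k : ℝ) * x.2.2.1 ≤ x.2.2.2 := by exact_mod_cast hx.2.1
    have h2 : (x.2.2.2 : ℝ) ≤ BB b k * (x.2.2.1 + 1) := by exact_mod_cast hx.2.2.le
    push_cast
    rw [pow_succ', ← div_div]
    constructor <;> gcongr
    · rwa [le_div_iff₀' B0]
    · rwa [div_le_iff₀' B0]
  have c0 : CF S fun x => th x.1 x.2.1 (x.2.2.1 / (BB b k : ℝ) ^ sl j x.1.1 x.2.1) := by
    refine (MRE_pt hC.1 Primrec.fst pn pA pD (fun _ => Nat.one_le_pow _ _ B1)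
      fun x hx => hx.1 _ ?_).congr fun x _ => by simp
    push_cast
    exact ⟨le_rfl, by gcongr; linarith⟩
  have c1 : CF S fun x => th x.1 x.2.1 ((x.2.2.1 + 1) / (BB b k : ℝ) ^ sl j x.1.1 x.2.1) := by
    refine (MRE_pt hC.1 Primrec.fst pn pB pD (fun _ => Nat.one_le_pow _ _ B1)
      fun x hx => hx.1 _ ?_).congr fun x _ => by simp
    push_cast
    exact ⟨by gcongr; linarith, le_rfl⟩
  have k0 : CF S fun _ => (1 : ℝ) / (5 * a) := MRE_const 1 (5 * a) (by omega) (by simp)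
  have k1 : CF S fun _ => (3 : ℝ) / 4 := MRE_const 3 4 (by omega) (by simp)
  have k2 : CF S fun _ => (3 : ℝ) / (2 * a) := MRE_const 3 (2 * a) (by omega) (by simp)
  have k3 : CF S fun _ => (3 : ℝ) / 2 := MRE_const 3 2 (by omega) (by simp)
  have k4 : CF S fun _ => (b : ℝ) ^ (2 * k + 5) := (CF.ofNat b).pow _
  exact (REon.imp pf (((cy.add k1).abs.lt k0).mono fun _ h => h.1)).and (REon.imp pf.not
    (((((c1.sub c0).abs.lt (k4.add CF.one)).and ((cy.sub k2).abs.lt k0)).or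
      (((k4.sub CF.one).lt (c1.sub c0).abs).and ((cy.sub k3).abs.lt k0))).mono fun _ h => h.1))

end Pool.Agent.P.MP_9ae58c_an.B

end
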