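import Pool.Agent.P.MP_9ae58c_an.B.IfC

section

/-! Step MACH. -/

namespace Pool.Agent.P.MP_9ae58c_an.B

open Set Filter Topology Complex

theorem MACH_val {B t A A' : ℕ} (h : Val B t A) (h1 : B * A ≤ A') (h2 : A' < B * (A + 1)) :
    Val B (t + 1) A' := by
  obtain ⟨p, q⟩ := h
  refine ⟨?_, ?_⟩
  · calc B ^ (t + 1) = B * B ^ t := by ring
      _ ≤ B * A := Nat.mul_le_mul_left _ p
      _ ≤ A' := h1
  · calc A' + 1 ≤ B * (A + 1) := h2
      _ ≤ B * (2 * B ^ t) := Nat.mul_le_mul_left _ q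
      _ = 2 * B ^ (t + 1) := by ring

theorem MACH_sub {B t A A' : ℕ} (hB : 1 ≤ B) (h1 : B * A ≤ A') (h2 : A' < B * (A + 1)) :
    Jv B (t + 1) A' ⊆ Jv B t A := by
  have hB' : (0 : ℝ) < B := by exact_mod_cast hB
  have e1 : (B : ℝ) * A ≤ A' := by exact_mod_cast h1
  have e2 : (A' : ℝ) + 1 ≤ B * (A + 1) := by exact_mod_cast Nat.succ_le_of_lt h2
  refine Icc_subset_Icc ?_ ?_
  · rw [div_le_div_iff₀ (by positivity) (by positivity), pow_succ]
    have := mul_le_mul_of_nonneg_right e1 (pow_pos hB' t).le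
    linarith
  · rw [div_le_div_iff₀ (by positivity) (by positivity), pow_succ]
    have := mul_le_mul_of_nonneg_right e2 (pow_pos hB' t).le
    linarith

theorem MACH_div {B A A' : ℕ} (h1 : B * A ≤ A') (h2 : A' < B * (A + 1)) : A' / B = A :=
  Nat.div_eq_of_lt_le (by rwa [mul_comm]) (by rwa [mul_comm])

theorem MACH_dv {B t p A A' : ℕ} (hp : p ≤ t) (h1 : B * A ≤ A') (h2 : A' < B * (A + 1)) :
    A' / B ^ (t + 1 - p) = A / B ^ (t - p) := by
  rw [show t + 1 - p = 1 + (t - p) by omega, pow_add, pow_one, ← Nat.div_div_eq_div_mul,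
    MACH_div h1 h2]

theorem MACH_pc {j : ℕ} (hj : 1 ≤ j) (c : ℕ) : 2 ≤ pc j c := by
  have h : 1 ≤ 2 ^ c := Nat.one_le_two_pow
  calc 2 = 2 * 1 * 1 := rfl
    _ ≤ 2 * 2 ^ c * j := Nat.mul_le_mul (Nat.mul_le_mul_left _ h) hj
    _ = pc j c := by rw [pc]; ring

theorem MACH_lt {j : ℕ} (hj : 1 ≤ j) (c : ℕ) {r n : ℕ} (h : r < n) : sl j c r < sl j c n := by
  have := MACH_pc hj c
  have h' : pc j c * (r + 2) < pc j c * (n + 2) := Nat.mul_lt_mul_of_pos_left (by omega) (by omega)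
  simp only [sl]
  omega

theorem MACH_le (j c n : ℕ) : pc j c < sl j c n := by
  have h : 1 ≤ 2 ^ c := Nat.one_le_two_pow
  have h' : pc j c * 1 ≤ pc j c * (n + 2) := Nat.mul_le_mul_left _ (by omega)
  simp only [sl]
  omega

theorem MACH_bd {j : ℕ} (hj : 1 ≤ j) (c n : ℕ) : c < sl j c n + 1 ∧ n < sl j c n + 1 := by
  have h : c < 2 ^ c := Nat.lt_two_pow_self
  have h0 := MACH_pc hj c
  have h' : 1 * (n + 2) ≤ pc j c * (n + 2) := Nat.mul_le_mul_right _ (by omega)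
  simp only [sl]
  omega

theorem MACH_uniq {j c n c' n' : ℕ} (hj : 1 ≤ j) (h : sl j c n = sl j c' n') :
    c = c' ∧ n = n' := by
  have e : ∀ c n, sl j c n = 2 ^ c * (2 * (j * (n + 2)) + 1) := fun c n => by
    rw [sl, pc]; ring
  have key : ∀ c c' u v : ℕ, c < c' → 2 ^ c * (2 * u + 1) ≠ 2 ^ c' * (2 * v + 1) := by
    intro c c' u v hc h
    obtain ⟨d, rfl⟩ := Nat.exists_eq_add_of_lt hc
    rw [show 2 ^ (c + d + 1) * (2 * v + 1) = 2 ^ c * (2 * (2 ^ d * (2 * v + 1))) by ring] at h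
    have := Nat.eq_of_mul_eq_mul_left (by positivity) h
    omega
  have hc : c = c' := by
    rw [e, e] at h
    rcases lt_trichotomy c c' with h1 | h1 | h1
    · exact absurd h (key _ _ _ _ h1)
    · exact h1
    · exact absurd h.symm (key _ _ _ _ h1)
  subst hc
  refine ⟨rfl, ?_⟩
  rcases lt_trichotomy n n' with h1 | h1 | h1
  · exact absurd h (MACH_lt hj c h1).ne
  · exact h1
  · exact absurd h.symm (MACH_lt hj c h1).ne

theorem MACH_B {b : ℕ} (hb : 100 ≤ b) (k : ℕ) : 2 ≤ BB b k :=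
  le_trans (by omega) (Nat.le_self_pow (by omega) b)

/-- the flag of the class `c` is raised before the step `r` -/
def MACH_fl (en : ℕ → ℕ) (c r : ℕ) : Prop := ∃ l < r, en l = c

/-- the invariant -/
def MACH_I (a b k j : ℕ) (G : ℕ × ℕ → ℕ → ℝ → Prop) (E : ℕ × ℕ → ℝ → Prop)
    (cc yy : ℕ × ℕ → ℕ → ℝ → ℝ) (en : ℕ → ℕ) (t A : ℕ) : Prop :=
  Val (BB b k) t A ∧ ∀ c, pc j c ≤ t → ∀ A₀, A₀ = A / BB b k ^ (t - pc j c) →
    Val (BB b k) (pc j c) A₀ ∧ Jv (BB b k) t A ⊆ Jv (BB b k) (pc j c) A₀ ∧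
    ∀ n, (∀ r < n, sl j c r < t) →
      ((∀ r < n, ¬MACH_fl en c r) → ∀ s ∈ Jv (BB b k) t A,
        Live a b k j (G (c, A₀)) (cc (c, A₀)) (yy (c, A₀)) c n s) ∧
      ((∃ r < n, MACH_fl en c r) → ∀ s ∈ Jv (BB b k) t A, E (c, A₀) s)

/-- the step -/
def MACH_R (a b k j : ℕ) (th yy : ℕ × ℕ → ℕ → ℝ → ℝ) (en : ℕ → ℕ) (t A A' : ℕ) : Prop :=
  (BB b k * A ≤ A' ∧ A' < BB b k * (A + 1)) ∧ ∀ c < t + 1, ∀ n < t + 1,
    (sl j c n = t ∧ ∀ r < n, ¬MACH_fl en c r) →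
      Tst a b k (th (c, A / BB b k ^ (t - pc j c)) n) (yy (c, A / BB b k ^ (t - pc j c)) n)
        (MACH_fl en c n) (sl j c n) A A'

variable {a b k j : ℕ} {G : ℕ × ℕ → ℕ → ℝ → Prop} {E : ℕ × ℕ → ℝ → Prop}
  {cc th yy : ℕ × ℕ → ℕ → ℝ → ℝ} {en : ℕ → ℕ}

theorem MACH_zero (hA : McA a b k j G E cc th yy) : MACH_I a b k j G E cc yy en 0 1 :=
  ⟨by simp [Val], fun c hc => absurd (MACH_pc hA.hj c) (by omega)⟩

theorem MACH_ex (hMSTEP : S_MSTEP) (hA : McA a b k j G E cc th yy) (hB : McB a b k j G cc yy)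
    {t A : ℕ} (h : MACH_I a b k j G E cc yy en t A) : ∃ A', MACH_R a b k j th yy en t A A' := by
  by_cases hx : ∃ c n, sl j c n = t ∧ ∀ r < n, ¬MACH_fl en c r
  · obtain ⟨c, n, rfl, hn⟩ := hx
    obtain ⟨h1, h2, h3⟩ := h.2 c (MACH_le j c n).le _ rfl
    obtain ⟨A', hA'⟩ := (hMSTEP a b k j G E cc th yy hA hB c _ n A (MACH_fl en c n) h1 h2
      ((h3 n fun r hr => MACH_lt hA.hj c hr).1 hn)).1
    refine ⟨A', hA'.1, fun c' _ n' _ h' => ?_⟩
    obtain ⟨rfl, rfl⟩ := MACH_uniq hA.hj h'.1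
    exact hA'
  · refine ⟨BB b k * A, ⟨le_rfl, ?_⟩, fun c _ n _ h' => absurd ⟨c, n, h'⟩ hx⟩
    have := MACH_B hA.hb k
    exact Nat.mul_lt_mul_of_pos_left (by omega) (by omega)

theorem MACH_st (hMSTEP : S_MSTEP) (hA : McA a b k j G E cc th yy) (hB : McB a b k j G cc yy)
    {t A A' : ℕ} (h : MACH_I a b k j G E cc yy en t A) (hR : MACH_R a b k j th yy en t A A') :
    MACH_I a b k j G E cc yy en (t + 1) A' := by
  obtain ⟨⟨r1, r2⟩, r3⟩ := hR
  have hV := MACH_val h.1 r1 r2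
  have hS : Jv (BB b k) (t + 1) A' ⊆ Jv (BB b k) t A :=
    MACH_sub (le_trans (by omega) (MACH_B hA.hb k)) r1 r2
  refine ⟨hV, fun c hc A₀ e => ?_⟩
  rcases Nat.lt_or_ge t (pc j c) with hp | hp
  · have hp' : t + 1 = pc j c := by omega
    rw [hp'] at e hV ⊢
    rw [Nat.sub_self, pow_zero, Nat.div_one] at e
    subst e
    refine ⟨hV, Subset.rfl, fun n hn => ?_⟩
    have hn0 : n = 0 := by
      by_contra h0
      exact absurd (hn 0 (by omega)) (MACH_le j c 0).le.not_gt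
    subst hn0
    refine ⟨fun _ s hs => ⟨fun r hr => ?_, fun r hr => absurd hr (by omega)⟩,
      fun ⟨r, hr, _⟩ => absurd hr (by omega)⟩
    obtain rfl : r = 0 := by omega
    obtain ⟨i1, i2, i3⟩ := hA.ini c A₀ hV s hs
    have hb : (1 : ℝ) ≤ b := by exact_mod_cast le_trans (by omega) hA.hb
    refine ⟨i1, le_trans ?_ i2, i3.trans ?_⟩
    · exact mul_le_mul_of_nonneg_right (le_self_pow₀ hb (by omega)) (by positivity)
    · exact mul_le_mul_of_nonneg_right (pow_le_pow_right₀ hb (by omega)) (by positivity)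
  · rw [MACH_dv hp r1 r2] at e
    obtain ⟨h1, h2, h3⟩ := h.2 c hp A₀ e
    refine ⟨h1, hS.trans h2, fun n hn => ?_⟩
    by_cases hall : ∀ r < n, sl j c r < t
    · exact ⟨fun hf s hs => (h3 n hall).1 hf s (hS hs), fun hf s hs => (h3 n hall).2 hf s (hS hs)⟩
    · push Not at hall
      obtain ⟨m, hm, hm'⟩ := hall
      have hmt : sl j c m = t := by have := hn m hm; omega
      obtain rfl : n = m + 1 := by
        by_contra h0
        have := hn (m + 1) (by omega)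
        have := MACH_lt hA.hj c (show m < m + 1 by omega)
        omega
      subst hmt
      have h4 := h3 m fun r hr => MACH_lt hA.hj c hr
      by_cases hf : ∀ r < m, ¬MACH_fl en c r
      · have hT := r3 c (MACH_bd hA.hj c m).1 m (MACH_bd hA.hj c m).2 ⟨rfl, hf⟩
        rw [← e] at hT
        have h5 := (hMSTEP a b k j G E cc th yy hA hB c A₀ m A (MACH_fl en c m) h1 h2
          (h4.1 hf)).2 A' hT
        refine ⟨fun hf' s hs => (h5 s hs).2 (hf' m (by omega)), fun ⟨r, hr, hr'⟩ s hs => ?_⟩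
        refine (h5 s hs).1 ?_
        rcases Nat.lt_succ_iff_lt_or_eq.1 hr with h6 | rfl
        · exact absurd hr' (hf r h6)
        · exact hr'
      · refine ⟨fun hf' => absurd (fun r hr => hf' r (by omega)) hf, fun _ s hs => ?_⟩
        push Not at hf
        exact h4.2 hf s (hS hs)

theorem MACH_ppc (j : ℕ) : Primrec (pc j) :=
  Primrec.nat_mul.comp (cf_primrec_pow.comp (Primrec.const 2) Primrec.succ) (Primrec.const j)

theorem MACH_psl (j : ℕ) : Primrec₂ (sl j) :=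
  Primrec.nat_add.comp (Primrec.nat_mul.comp ((MACH_ppc j).comp Primrec.fst)
    (Primrec.nat_add.comp Primrec.snd (Primrec.const 2)))
    (cf_primrec_pow.comp (Primrec.const 2) Primrec.fst)

theorem MACH_pfl (he : Primrec en) :
    PrimrecPred fun x : ℕ × ℕ => ∀ r < x.2, ¬MACH_fl en x.1 r := by
  refine cf_forall_lt Primrec.snd (PrimrecPred.not ?_)
  refine cf_exists_lt Primrec.snd ?_
  exact Primrec.eq.comp (he.comp Primrec.snd)
    (Primrec.fst.comp (Primrec.fst.comp Primrec.fst))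

theorem MACH_re (hMRE : S_MRE) (hA : McA a b k j G E cc th yy) (hC : McC G th yy)
    (he : Primrec en) :
    REon {x : ℕ × ℕ × ℕ | MACH_I a b k j G E cc yy en x.1 x.2.1}
      fun x => MACH_R a b k j th yy en x.1 x.2.1 x.2.2 := by
  have H := hMRE a b k j G th yy en (le_trans (by omega) hA.ha) (le_trans (by omega) hA.hb) hC he
  have pt : Primrec fun y : ((ℕ × ℕ × ℕ) × ℕ) × ℕ => y.1.1.1 :=
    Primrec.fst.comp (Primrec.fst.comp Primrec.fst)
  have pA : Primrec fun y : ((ℕ × ℕ × ℕ) × ℕ) × ℕ => y.1.1.2 :=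
    Primrec.snd.comp (Primrec.fst.comp Primrec.fst)
  have pc' : Primrec fun y : ((ℕ × ℕ × ℕ) × ℕ) × ℕ => y.1.2 := Primrec.snd.comp Primrec.fst
  have p1 : Primrec fun y : ((ℕ × ℕ × ℕ) × ℕ) × ℕ =>
      y.1.1.2.1 / BB b k ^ (y.1.1.1 - pc j y.1.2) :=
    Primrec.nat_div.comp (Primrec.fst.comp pA) (cf_primrec_pow.comp (Primrec.const _)
      (Primrec.nat_sub.comp pt ((MACH_ppc j).comp pc')))
  have p2 : Primrec fun y : ((ℕ × ℕ × ℕ) × ℕ) × ℕ =>
      (((y.1.2, y.1.1.2.1 / BB b k ^ (y.1.1.1 - pc j y.1.2)), y.2, y.1.1.2) :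
        (ℕ × ℕ) × ℕ × ℕ × ℕ) :=
    (pc'.pair p1).pair (Primrec.snd.pair pA)
  have p3 : PrimrecPred fun y : ((ℕ × ℕ × ℕ) × ℕ) × ℕ =>
      sl j y.1.2 y.2 = y.1.1.1 ∧ ∀ r < y.2, ¬MACH_fl en y.1.2 r :=
    (Primrec.eq.comp ((MACH_psl j).comp pc' Primrec.snd) pt).and
      ((MACH_pfl he).comp (pc'.pair Primrec.snd))
  have p4 : PrimrecPred fun x : ℕ × ℕ × ℕ =>
      BB b k * x.2.1 ≤ x.2.2 ∧ x.2.2 < BB b k * (x.2.1 + 1) :=
    (Primrec.nat_le.comp (Primrec.nat_mul.comp (Primrec.const _) (Primrec.fst.comp Primrec.snd))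
      (Primrec.snd.comp Primrec.snd)).and
      (Primrec.nat_lt.comp (Primrec.snd.comp Primrec.snd) (Primrec.nat_mul.comp (Primrec.const _)
        (Primrec.succ.comp (Primrec.fst.comp Primrec.snd))))
  refine (REon.prim p4).and ?_
  refine REon.ball ?_ (Primrec.succ.comp Primrec.fst).to_comp
  refine REon.ball (f := fun y : (ℕ × ℕ × ℕ) × ℕ => y.1.1 + 1) ?_
    (Primrec.succ.comp (Primrec.fst.comp Primrec.fst)).to_comp
  refine REon.imp p3 (H.comp p2.to_comp ?_)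
  rintro ⟨⟨⟨t, A, A'⟩, c⟩, n⟩ ⟨⟨⟨hI, -⟩, -⟩, ht, hn⟩ σ hσ
  simp only [mem_ofPred_eq] at hI ht hn hσ ⊢
  subst ht
  exact (((hI.2 c (MACH_le j c n).le _ rfl).2.2 n fun r hr => MACH_lt hA.hj c hr).1 hn σ hσ).rng
    n le_rfl |>.1

theorem p_MACH (hMSTEP : S_MSTEP) (hMRE : S_MRE) :
    S_MACH := by
  intro a b k j G E cc th yy en hA hB hC he
  obtain ⟨r', hr', e⟩ := MACH_re hMRE hA hC he
  obtain ⟨A, hc, h0, hs⟩ := RE.seq (r := fun t A A' => r' (t, A, A')) hr'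
    (MACH_I a b k j G E cc yy en) 1 (MACH_zero hA)
    (fun t A h => by
      obtain ⟨A', h'⟩ := MACH_ex hMSTEP hA hB h
      exact ⟨A', (e (t, A, A') h).1 h'⟩)
    fun t A A' h h' => MACH_st hMSTEP hA hB h ((e (t, A, A') h).2 h')
  have hR : ∀ t, BB b k * A t ≤ A (t + 1) ∧ A (t + 1) < BB b k * (A t + 1) := fun t =>
    ((e (t, A t, A (t + 1)) (hs t).1).2 (hs t).2).1
  have hB2 := MACH_B hA.hb k
  have hB' : (0 : ℝ) < BB b k := by exact_mod_cast lt_of_lt_of_le (by omega) hB2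
  have hd : ∀ p t, p ≤ t → A p = A t / BB b k ^ (t - p) := by
    intro p t hp
    induction t, hp using Nat.le_induction with
    | base => simp
    | succ t hp ih => rw [MACH_dv hp (hR t).1 (hR t).2, ih]
  obtain ⟨s, hsJ⟩ := IsCompact.nonempty_iInter_of_sequence_nonempty_isCompact_isClosed
    (fun t => Jv (BB b k) t (A t)) (fun t => MACH_sub (by omega) (hR t).1 (hR t).2)
    (fun t => nonempty_Icc.2 (div_le_div_of_nonneg_right (by linarith) (by positivity)))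
    isCompact_Icc fun t => isClosed_Icc
  rw [mem_iInter] at hsJ
  refine ⟨A, hc, s, ?_, ?_, fun c => ⟨?_, ?_, ?_⟩⟩
  · refine CF.lim (χ := fun _ n => (A n : ℝ) / (BB b k : ℝ) ^ n) ?_ fun _ _ n => ?_
    · refine ((CF.nat (hc.comp Computable.snd)).div (CF.nat
        (cf_primrec_pow.comp (Primrec.const (BB b k)) Primrec.snd).to_comp)
        fun _ _ => by positivity).congr fun _ _ => by simp
    · obtain ⟨h1, h2⟩ := hsJ n
      have h3 : (n : ℝ) + 1 ≤ (BB b k : ℝ) ^ n := by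
        exact_mod_cast Nat.succ_le_of_lt (Nat.lt_pow_self hB2)
      have h4 : 1 / (BB b k : ℝ) ^ n ≤ 1 / (n + 1) := one_div_le_one_div_of_le (by positivity) h3
      rw [add_div] at h2
      rw [abs_of_nonneg (by linarith)]
      linarith
  · have := hsJ 0
    rw [h0] at this
    simpa [Jv, one_add_one_eq_two] using this
  · exact le_trans (Nat.one_le_pow _ _ (by omega)) (hs _).1.1.1
  · rintro ⟨l, hl⟩
    exact (((hs (sl j c (l + 2))).1.2 c (MACH_le j c _).le _ (hd _ _ (MACH_le j c _).le)).2.2 (l + 2)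
      fun r hr => MACH_lt hA.hj c hr).2 ⟨l + 1, by omega, l, by omega, hl⟩ s (hsJ _)
  · intro hl n
    exact ((((hs (sl j c n)).1.2 c (MACH_le j c _).le _ (hd _ _ (MACH_le j c _).le)).2.2 n
      fun r hr => MACH_lt hA.hj c hr).1 (fun r _ ⟨l, _, h⟩ => hl ⟨l, h⟩) s (hsJ _)).rng n le_rfl |>.1

end Pool.Agent.P.MP_9ae58c_an.B

end
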