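import Pool.Agent.P.MP_9ae58c_an.B.IfC

section

/-! Step PHYS. -/

namespace Pool.Agent.P.MP_9ae58c_an.B

open Set Filter Topology Complex

open Real3 in
theorem PHYS_core (μ s C g₁ : ℝ) (hμ : 0 < μ) (hs : 0 < s) (hg₁ : 0 < g₁)
    (r p z v g ϑ : ℝ → ℝ) (hgc : ContinuousOn g (Ici 0))
    (hg : ∀ ψ, 0 ≤ ψ → g₁ ≤ g ψ) (hr0 : ∀ ψ, 0 ≤ ψ → 0 < r ψ)
    (hϑd : ∀ ψ, 0 ≤ ψ → HasDerivAt ϑ (g ψ * C / r ψ ^ 2) ψ)
    (hr : ∀ ψ, 0 ≤ ψ → HasDerivAt r (g ψ * p ψ) ψ)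
    (hp : ∀ ψ, 0 ≤ ψ → HasDerivAt p (g ψ * (C ^ 2 / r ψ ^ 3 - 1 / (8 * r ψ ^ 2) -
      μ * r ψ * (1 / √(z ψ ^ 2 + r ψ ^ 2)) ^ 3)) ψ)
    (hz : ∀ ψ, 0 ≤ ψ → HasDerivAt z (g ψ * v ψ) ψ)
    (hv : ∀ ψ, 0 ≤ ψ → HasDerivAt v
      (-(g ψ * (1 + μ) * z ψ * (1 / √(z ψ ^ 2 + r ψ ^ 2)) ^ 3)) ψ) :
    ∃ Ψ : ℝ → ℝ, Ψ 0 = 0 ∧ (∀ t, 0 ≤ t → 0 ≤ Ψ t) ∧ Tendsto Ψ atTop atTop ∧
      ∀ T, IsSol ![1 / (2 * s ^ 2), 1 / (2 * s ^ 2), μ / s ^ 2] T
        (fun t => (iso μ s C (r (Ψ t)) (p (Ψ t)) (z (Ψ t)) (v (Ψ t)) (ϑ (Ψ t))).1)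
        (fun t => (iso μ s C (r (Ψ t)) (p (Ψ t)) (z (Ψ t)) (v (Ψ t)) (ϑ (Ψ t))).2) := by
  have hμ1 : (1 + μ) ≠ 0 := by positivity
  have hmax : Continuous fun u : ℝ => max u 0 := continuous_id.max continuous_const
  have hc2 : Continuous fun u : ℝ => s * g (max u 0) :=
    continuous_const.mul (hgc.comp_continuous hmax fun u => mem_Ici.2 (le_max_right _ _))
  set τ : ℝ → ℝ := fun ψ => ∫ u in (0 : ℝ)..ψ, s * g (max u 0) with hτ
  have hτd : ∀ ψ, HasDerivAt τ (s * g (max ψ 0)) ψ :=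
    fun ψ => (hc2.integral_hasStrictDerivAt 0 ψ).hasDerivAt
  have hτ0 : τ 0 = 0 := by simp [hτ]
  have hpos : ∀ ψ, s * g₁ ≤ s * g (max ψ 0) :=
    fun ψ => mul_le_mul_of_nonneg_left (hg _ (le_max_right _ _)) hs.le
  have hsg : 0 < s * g₁ := mul_pos hs hg₁
  have hmono : StrictMono τ :=
    strictMono_of_hasDerivAt_pos hτd (fun ψ => lt_of_lt_of_le hsg (hpos ψ))
  have hτc : Continuous τ := continuous_iff_continuousAt.mpr fun ψ => (hτd ψ).continuousAt
  have hmono2 : Monotone fun ψ => τ ψ - s * g₁ * ψ := by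
    apply monotone_of_hasDerivAt_nonneg (f' := fun ψ => s * g (max ψ 0) - s * g₁)
    · intro ψ
      exact ((hτd ψ).sub ((hasDerivAt_id ψ).const_mul (s * g₁))).congr_deriv (by simp)
    · intro ψ
      exact sub_nonneg.mpr (hpos ψ)
  have hsurj : Function.Surjective τ := by
    apply hτc.surjective
    · refine tendsto_atTop_mono' atTop ?_ (tendsto_id.const_mul_atTop hsg)
      filter_upwards [eventually_ge_atTop (0 : ℝ)] with ψ hψ
      have := hmono2 hψ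
      simp only [hτ0, mul_zero, sub_zero, id] at this ⊢
      linarith
    · refine tendsto_atBot_mono' atBot ?_ (tendsto_id.const_mul_atBot hsg)
      filter_upwards [eventually_le_atBot (0 : ℝ)] with ψ hψ
      have := hmono2 hψ
      simp only [hτ0, mul_zero, sub_zero, id] at this ⊢
      linarith
  set e := hmono.orderIsoOfSurjective τ hsurj with he
  set Ψ : ℝ → ℝ := fun t => e.symm t with hΨ
  have hτΨ : ∀ t, τ (Ψ t) = t := fun t => e.apply_symm_apply t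
  have hΨτ : ∀ ψ, Ψ (τ ψ) = ψ := fun ψ => e.symm_apply_apply ψ
  have hΨ0 : Ψ 0 = 0 := by
    have := hΨτ 0
    rwa [hτ0] at this
  have hΨnn : ∀ t, 0 ≤ t → 0 ≤ Ψ t := by
    intro t ht
    have : Ψ 0 ≤ Ψ t := e.symm.monotone ht
    rwa [hΨ0] at this
  have hΨd : ∀ t, 0 ≤ t → HasDerivAt Ψ (s * g (Ψ t))⁻¹ t := by
    intro t ht
    have h1 := hτd (Ψ t)
    have h2 := lt_of_lt_of_le hsg (hpos (Ψ t))
    rw [max_eq_left (hΨnn t ht)] at h1 h2
    exact HasDerivAt.of_local_left_inverse e.symm.continuous.continuousAt h1 h2.ne'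
      (Eventually.of_forall hτΨ)
  set m : Fin 3 → ℝ := ![1 / (2 * s ^ 2), 1 / (2 * s ^ 2), μ / s ^ 2] with hm
  set X : ℝ → Conf 3 × Conf 3 := fun ψ => iso μ s C (r ψ) (p ψ) (z ψ) (v ψ) (ϑ ψ) with hX
  have hXq : ∀ ψ, 0 ≤ ψ → ∀ i k,
      HasDerivAt (fun u => (X u).1 i k) (s * g ψ * (X ψ).2 i k) ψ := by
    intro ψ hψ i k
    have hrψ := (hr0 ψ hψ).ne'
    have hx := (hr ψ hψ).mul (hϑd ψ hψ).cos
    have hy := (hr ψ hψ).mul (hϑd ψ hψ).sin
    have hw := (hz ψ hψ).const_mul (-(μ / (1 + μ)))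
    have hw' := (hz ψ hψ).div_const (1 + μ)
    have h0 := hasDerivAt_const ψ (0 : ℝ)
    fin_cases i <;> fin_cases k
    · refine hx.congr_deriv ?_
      simp [hX, iso]; field_simp; ring
    · refine hy.congr_deriv ?_
      simp [hX, iso]; field_simp
    · refine hw.congr_deriv ?_
      simp [hX, iso]; field_simp
    · refine hx.neg.congr_deriv ?_
      simp [hX, iso]; field_simp; ring
    · refine hy.neg.congr_deriv ?_
      simp [hX, iso]; field_simp; ring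
    · refine hw.congr_deriv ?_
      simp [hX, iso]; field_simp
    · refine h0.congr_deriv ?_
      simp [hX, iso]
    · refine h0.congr_deriv ?_
      simp [hX, iso]
    · refine hw'.congr_deriv ?_
      simp [hX, iso]; field_simp
  have hXv : ∀ ψ, 0 ≤ ψ → ∀ i k,
      HasDerivAt (fun u => (X u).2 i k) (s * g ψ * acc m (X ψ).1 i k) ψ := by
    intro ψ hψ i k
    have hrψ := (hr0 ψ hψ).ne'
    have ha := congrFun (congrFun (acc_iso μ s C (r ψ) (p ψ) (z ψ) (v ψ) (ϑ ψ) hμ hs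
      (hr0 ψ hψ)) i) k
    have hcr := (hasDerivAt_const ψ C).div (hr ψ hψ) hrψ
    have hx := (((hp ψ hψ).mul (hϑd ψ hψ).cos).sub (hcr.mul (hϑd ψ hψ).sin)).div_const s
    have hy := (((hp ψ hψ).mul (hϑd ψ hψ).sin).add (hcr.mul (hϑd ψ hψ).cos)).div_const s
    have hw := ((hv ψ hψ).const_mul (-(μ / (1 + μ)))).div_const s
    have hw' := ((hv ψ hψ).div_const (1 + μ)).div_const s
    have h0 := hasDerivAt_const ψ (0 : ℝ)
    have hb : acc m (X ψ).1 i k = _ := ha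
    rw [hb]
    generalize (1 / √(z ψ ^ 2 + r ψ ^ 2)) ^ 3 = w at *
    fin_cases i <;> fin_cases k
    · refine hx.congr_deriv ?_
      simp; field_simp; ring
    · refine hy.congr_deriv ?_
      simp; field_simp; ring
    · refine hw.congr_deriv ?_
      simp; field_simp
    · refine hx.neg.congr_deriv ?_
      simp; field_simp; ring
    · refine hy.neg.congr_deriv ?_
      simp; field_simp; ring
    · refine hw.congr_deriv ?_
      simp; field_simp
    · refine h0.congr_deriv ?_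
      simp
    · refine h0.congr_deriv ?_
      simp
    · refine hw'.congr_deriv ?_
      simp; field_simp
  have hsol : ∀ T, IsSol m T (fun t => (X (Ψ t)).1) (fun t => (X (Ψ t)).2) := by
    intro T t ht
    have hψ := hΨnn t ht.1
    have hne : s * g (Ψ t) ≠ 0 := (mul_pos hs (lt_of_lt_of_le hg₁ (hg _ hψ))).ne'
    refine ⟨noColl_iso _ _ _ _ _ _ _ _ (hr0 _ hψ), fun i k => ⟨?_, ?_⟩⟩
    · have := (hXq _ hψ i k).comp t (hΨd t ht.1)
      refine (this.congr_deriv ?_).hasDerivWithinAt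
      rw [mul_right_comm, mul_inv_cancel₀ hne, one_mul]
    · have := (hXv _ hψ i k).comp t (hΨd t ht.1)
      refine (this.congr_deriv ?_).hasDerivWithinAt
      rw [mul_right_comm, mul_inv_cancel₀ hne, one_mul]
  exact ⟨Ψ, hΨ0, hΨnn, e.symm.tendsto_atTop, hsol⟩

theorem PHYS_shift {m : Fin 3 → ℝ} {T : ℝ} {q v : ℝ → Conf 3} (h : IsSol m T q v)
    (d : Fin 3 → ℝ) : IsSol m T (fun t i k => q t i k + d k) v := by
  intro t ht
  obtain ⟨h1, h2⟩ := h t ht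
  refine ⟨fun i j hij e => h1 i j hij ?_, fun i k => ⟨(h2 i k).1.add_const _, ?_⟩⟩
  · funext k
    exact add_right_cancel (congrFun e k)
  · have : acc m (fun i k => q t i k + d k) i k = acc m (q t) i k := by
      simp only [acc, dist3, add_sub_add_right_eq_sub]
    rw [this]
    exact (h2 i k).2

theorem PHYS_W {R : ℝ} (hR : 0 < R) (p : St) :
    1 / √((R * p.2.1) ^ 2 + (R * rr p) ^ 2) = WW p / R := by
  rw [show (R * p.2.1) ^ 2 + (R * rr p) ^ 2 = R ^ 2 * (p.2.1 ^ 2 + rr p ^ 2) by ring,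
    Real.sqrt_mul (sq_nonneg R), Real.sqrt_sq hR.le, WW, div_div, mul_comm]

theorem p_PHYS :
    S_PHYS := by
  intro μ s c x₀ z₀ u hu hs hc hA h0
  have hμ := hu.pos
  have hμ1 : (1 + μ) ≠ 0 := by positivity
  obtain ⟨σ, hσ, rfl⟩ : ∃ σ : ℝ, 0 < σ ∧ s = σ ^ 2 :=
    ⟨√s, Real.sqrt_pos.2 hs, (Real.sq_sqrt hs.le).symm⟩
  obtain ⟨C, hC⟩ : ∃ C : ℝ, C = σ * c := ⟨_, rfl⟩
  have hC0 : 0 < C := by rw [hC]; positivity
  have hR : 0 < 8 * C ^ 2 := by positivity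
  have eR : 8 * c ^ 2 * σ ^ 2 = 8 * C ^ 2 := by rw [hC]; ring
  have hd : ∀ t, 0 ≤ t → HasDerivAt u (fld μ (u t)) t := fun t ht => hu.der t (hA t ht).reg
  have hr0 : ∀ t, 0 ≤ t → 0 < rr (u t) := fun t ht => by linarith [(hA t ht).r.1]
  have hrr : ∀ t, 0 ≤ t → HasDerivAt (fun t => rr (u t)) (rr (u t) ^ 2 * (u t).1.im) t :=
    fun t ht => (drr (hA t ht).reg (hd t ht)).congr_deriv (by rw [fld_re]; ring)
  obtain ⟨Ψ, hΨ0, hΨnn, hΨ, hsol⟩ := PHYS_core μ σ C ((8 * C ^ 2 * 0.99999) ^ 2 / C) hμ hσ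
    (by positivity) (fun t => 8 * C ^ 2 * rr (u t)) (fun t => C / (8 * C ^ 2) * (u t).1.im)
    (fun t => 8 * C ^ 2 * (u t).2.1) (fun t => C / (8 * C ^ 2) * (u t).2.2)
    (fun t => (8 * C ^ 2 * rr (u t)) ^ 2 / C) (fun t => t)
    (fun t ht => ((((hrr t ht).const_mul (8 * C ^ 2)).fun_pow 2).div_const
      C).continuousAt.continuousWithinAt)
    (fun t ht => by
      have := (hA t ht).r.1
      gcongr)
    (fun t ht => mul_pos hR (hr0 t ht))
    (fun t ht => (hasDerivAt_id' t).congr_deriv (by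
      have := (hr0 t ht).ne'
      field_simp))
    (fun t ht => ((hrr t ht).const_mul _).congr_deriv (by field_simp))
    (fun t ht => ((dim (hd t ht)).const_mul _).congr_deriv (by
      have h1 := (hr0 t ht).ne'
      have h2 : (u t).1.re = 1 / rr (u t) - 1 := by
        rw [rr, one_div_one_div]; ring
      rw [fld_im, PHYS_W hR, gg, h2]
      field_simp))
    (fun t ht => ((d2 (hd t ht)).const_mul _).congr_deriv (by
      simp only [fld]
      field_simp))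
    (fun t ht => ((d3 (hd t ht)).const_mul _).congr_deriv (by
      rw [PHYS_W hR]
      simp only [fld]
      field_simp))
  refine ⟨_, _, Ψ, fun T _ => PHYS_shift (hsol T) ![0, 0, μ / (1 + μ) * (8 * C ^ 2 * z₀)], ?_,
    hΨnn, hΨ, fun t ht => ⟨?_, ?_⟩⟩
  · have hx : 1 + x₀ ≠ 0 := by
      have := abs_le.1 (hA 0 le_rfl).re
      rw [h0] at this
      simp only [ofReal_re] at this
      linarith [this.1]
    rw [eR]
    refine Prod.ext ?_ ?_
    · funext i k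
      fin_cases i <;> fin_cases k <;> simp [hΨ0, h0, iso, pt, rr] <;> field_simp
    · funext i k
      fin_cases i <;> fin_cases k <;> simp [hΨ0, h0, iso, pt, rr, hC] <;> field_simp
  · rw [eR]
    simp [iso]
    field_simp
    ring
  · intro i k
    rw [eR]
    have h1 := (hA _ (hΨnn t ht)).r
    have h2 := hr0 _ (hΨnn t ht)
    generalize u (Ψ t) = p at h1 h2 ⊢
    generalize Ψ t = ϑ
    generalize 8 * C ^ 2 = R at hR ⊢
    have a0 := abs_nonneg z₀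
    have a1 := abs_nonneg p.2.1
    have b0 : 0 ≤ R * (2 + |z₀| + |p.2.1|) := by positivity
    have b1 : ∀ y : ℝ, |y| ≤ 1 → |R * rr p * y| ≤ R * (2 + |z₀| + |p.2.1|) := by
      intro y hy
      rw [abs_mul, abs_of_pos (mul_pos hR h2), mul_assoc]
      gcongr
      nlinarith [abs_nonneg y]
    have b2 : ∀ x y : ℝ, |x| ≤ 1 → |y| ≤ 1 →
        |x * (R * p.2.1) + y * (R * z₀)| ≤ R * (2 + |z₀| + |p.2.1|) := by
      intro x y hx hy
      refine (abs_add_le _ _).trans ?_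
      rw [abs_mul, abs_mul, abs_mul, abs_mul, abs_of_pos hR]
      nlinarith [mul_le_mul_of_nonneg_right hx (mul_nonneg hR.le a1),
        mul_le_mul_of_nonneg_right hy (mul_nonneg hR.le a0)]
    have c1 : |μ / (1 + μ)| ≤ 1 := by
      rw [abs_of_pos (by positivity), div_le_one (by positivity)]; linarith
    have c2 : |1 / (1 + μ)| ≤ 1 := by
      rw [abs_of_pos (by positivity), div_le_one (by positivity)]; linarith
    have c3 := b1 _ (Real.abs_cos_le_one ϑ)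
    have c4 := b1 _ (Real.abs_sin_le_one ϑ)
    have c5 := b2 (-(μ / (1 + μ))) _ (by rwa [abs_neg]) c1
    have c6 := b2 _ _ c2 c1
    rw [one_div_mul_eq_div] at c6
    fin_cases i <;> fin_cases k
    · simpa only [iso, Fin.zero_eta, Matrix.cons_val_zero, add_zero] using c3
    · simpa [iso, -abs_mul] using c4
    · exact c5
    · simpa [iso, -abs_mul] using c3
    · simpa [iso, -abs_mul] using c4
    · exact c5
    · simpa [iso] using b0
    · simpa [iso] using b0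
    · exact c6

end Pool.Agent.P.MP_9ae58c_an.B

end

section

/-! Step QPT. -/

namespace Pool.Agent.P.MP_9ae58c_an.B

open Set Filter Topology Complex

theorem QPT_fin {α β : Type} [Primcodable α] [Primcodable β] {n : ℕ} {f : α → Fin n → β}
    (h : ∀ i, Primrec fun a => f a i) : Primrec f :=
  Primrec.fin_curry.2 (Primrec.fin_curry₁.2 h).swap

theorem QPT_frac {n d : ℕ} (h : 1 ≤ d) : frac (n, d - 1) = n / d ∧ frac (-n, d - 1) = -(n / d) := by
  simp [frac, Nat.cast_sub h, neg_div]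

theorem p_QPT :
    S_QPT := by
  have z : Primrec fun _ : (ℕ × ℕ) × (ℕ × ℕ) × ℕ × ℕ => ((0, 0) : ℤ × ℕ) := Primrec.const _
  have c : Primrec fun x : ℕ × ℕ => (((x.1 : ℤ), x.2 - 1) : ℤ × ℕ) :=
    (primrec_int_cast.comp Primrec.fst).pair (Primrec.nat_sub.comp Primrec.snd (Primrec.const 1))
  have c' : Primrec fun x : ℕ × ℕ => ((-(x.1 : ℤ), x.2 - 1) : ℤ × ℕ) :=
    (primrec_int_neg.comp (primrec_int_cast.comp Primrec.fst)).pair
      (Primrec.nat_sub.comp Primrec.snd (Primrec.const 1))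
  refine ⟨fun x => (![![(x.1.1, x.1.2 - 1), (0, 0), (0, 0)], ![(-x.1.1, x.1.2 - 1), (0, 0), (0, 0)],
      ![(0, 0), (0, 0), (x.2.2.1, x.2.2.2 - 1)]],
    ![![(0, 0), (x.2.1.1, x.2.1.2 - 1), (0, 0)], ![(0, 0), (-x.2.1.1, x.2.1.2 - 1), (0, 0)],
      ![(0, 0), (0, 0), (0, 0)]]), Primrec.pair (QPT_fin fun i => QPT_fin fun k => ?_)
      (QPT_fin fun i => QPT_fin fun k => ?_), fun n₁ d₁ n₂ d₂ n₃ d₃ h₁ h₂ h₃ => ?_⟩
  · fin_cases i <;> fin_cases k
    exacts [c.comp Primrec.fst, z, z, c'.comp Primrec.fst, z, z, z, z,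
      c.comp (Primrec.snd.comp Primrec.snd)]
  · fin_cases i <;> fin_cases k
    exacts [z, c.comp (Primrec.fst.comp Primrec.snd), z, z,
      c'.comp (Primrec.fst.comp Primrec.snd), z, z, z, z]
  · have e : frac (0, 0) = 0 := by simp [frac]
    refine Prod.ext (funext fun i => funext fun k => ?_) (funext fun i => funext fun k => ?_) <;>
      fin_cases i <;> fin_cases k <;>
      first | exact e | exact (QPT_frac h₁).1 | exact (QPT_frac h₁).2 | exact (QPT_frac h₂).1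
            | exact (QPT_frac h₂).2 | exact (QPT_frac h₃).1

end Pool.Agent.P.MP_9ae58c_an.B

end

section

/-! Step MAIN. -/

namespace Pool.Agent.P.MP_9ae58c_an.B

open Set Filter Topology Complex

namespace MAIN

/-- numerators and denominators of the initial point -/
def dat (κ b k j : ℕ) (i : ℕ × ℕ) : (ℕ × ℕ) × (ℕ × ℕ) × ℕ × ℕ :=
  ((8 * i.2 * LL b k j i.1 ^ 4,
      100 * (yN b k j i.1 ^ 2) ^ 2 * BB b k ^ pc j i.1 * (LL b k j i.1 ^ 4 + κ)),
    (10 * yN b k j i.1 ^ 2 * (LL b k j i.1 ^ 4 + κ) * BB b k ^ pc j i.1,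
      8 * LL b k j i.1 ^ 4 * i.2), 8 * i.2, 100 * yN b k j i.1 ^ 2 * BB b k ^ pc j i.1)

theorem prim_pc (j : ℕ) : Primrec (pc j) :=
  Primrec.nat_mul.comp (cf_primrec_pow.comp (Primrec.const 2) Primrec.succ) (Primrec.const j)

theorem prim_dat (κ b k j : ℕ) : Primrec (dat κ b k j) := by
  have m : ∀ {f g : ℕ × ℕ → ℕ}, Primrec f → Primrec g → Primrec fun i => f i * g i :=
    fun hf hg => Primrec.nat_mul.comp hf hg
  have a : ∀ {f g : ℕ × ℕ → ℕ}, Primrec f → Primrec g → Primrec fun i => f i + g i :=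
    fun hf hg => Primrec.nat_add.comp hf hg
  have w : ∀ {f g : ℕ × ℕ → ℕ}, Primrec f → Primrec g → Primrec fun i => f i ^ g i :=
    fun hf hg => cf_primrec_pow.comp hf hg
  have c : ∀ n : ℕ, Primrec fun _ : ℕ × ℕ => n := fun n => Primrec.const n
  have p : Primrec fun i : ℕ × ℕ => pc j i.1 := (prim_pc j).comp Primrec.fst
  have l : Primrec fun i : ℕ × ℕ => LL b k j i.1 ^ 4 := w (w (c b) (m (c (k + 1)) p)) (c 4)
  have y : Primrec fun i : ℕ × ℕ => yN b k j i.1 ^ 2 :=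
    w (w (c b) (a (m (c (4 * (k + 1))) (a (m (c 2) p) (w (c 2) Primrec.fst))) (c 1))) (c 2)
  have e : Primrec fun i : ℕ × ℕ => BB b k ^ pc j i.1 := w (c _) p
  exact ((m (m (c 8) Primrec.snd) l).pair (m (m (m (c 100) (w y (c 2))) e) (a l (c κ)))).pair
    (((m (m (m (c 10) y) (a l (c κ))) e).pair (m (m (c 8) l) Primrec.snd)).pair
      ((m (c 8) Primrec.snd).pair (m (m (c 100) y) e)))

variable {Y : ℝ → St → ℝ → St} {μ K C s : ℝ} {m ω n : ℂ} {κ a b k j : ℕ} {i : ℕ × ℕ}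

theorem ctl (h : ∀ n, GG Y μ κ b k j i n s) {t : ℝ} (ht : 0 ≤ t) :
    Adm μ (orb Y μ κ b k j i s t) ∧
      |(orb Y μ κ b k j i s t).2.1| ≤ 10 * (yN b k j i.1 : ℝ) ^ 2 := by
  obtain ⟨n, hn⟩ := exists_nat_ge t
  have g := (h n).2.2
  have := g.alt.1.le
  have e : t ∈ Icc 0 (cr (zz (orb Y μ κ b k j i s)) (2 * n + 1)) :=
    ⟨ht, by push_cast at this; linarith⟩
  exact ⟨g.sol.adm t e, g.ht t e⟩

theorem one (hPHYS : S_PHYS) (cf : Cfg Y μ K C m ω n κ a b k j) (hs : s ∈ Icc (1 : ℝ) 2)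
    (hA : 1 ≤ i.2) (H : Prop) (h1 : H → Esc μ (orb Y μ κ b k j i s))
    (h2 : ¬H → ∀ n, GG Y μ κ b k j i n s) :
    ∃ q v : ℝ → Conf 3, (∀ T, 0 ≤ T → IsSol ![1 / (2 * s), 1 / (2 * s), μ / s] T q v) ∧
      (q 0, v 0) = pt ((dat κ b k j i).1.1 / (dat κ b k j i).1.2)
        ((dat κ b k j i).2.1.1 / (dat κ b k j i).2.1.2)
        ((dat κ b k j i).2.2.1 / (dat κ b k j i).2.2.2) ∧
      (H → Tendsto (fun t => q t 2 2) atTop atTop) ∧ (¬H → ∀ t, 0 ≤ t → ∀ i k, |q t i k| < 1) := by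
  have b0 : 0 < b := lt_of_lt_of_le (by norm_num) cf.hb
  have s0 : 0 < s := by linarith [hs.1]
  have m0 := cf.pos
  have A0 : (0 : ℝ) < i.2 := by exact_mod_cast hA
  have L0 : (0 : ℝ) < LL b k j i.1 := by exact_mod_cast pow_pos b0 _
  have B0 : (0 : ℝ) < (BB b k : ℝ) ^ pc j i.1 := pow_pos (by exact_mod_cast pow_pos b0 _) _
  have y0 : (10 : ℝ) ≤ yN b k j i.1 := by
    have : 10 ≤ yN b k j i.1 := (le_trans (by norm_num) cf.hb).trans (Nat.le_self_pow (by omega) b)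
    exact_mod_cast this
  have z0 : (100 : ℝ) ≤ (yN b k j i.1 : ℝ) ^ 2 := by nlinarith
  obtain ⟨q, v, θ, e1, e2, e3, e4, e5⟩ := hPHYS μ s (1 / (10 * (yN b k j i.1 : ℝ) ^ 2)) _ _
    (orb Y μ κ b k j i s) (cf.fl.gl μ _ cf.pos cf.le) s0 (by positivity)
    (fun t ht => (em H).elim (fun e => (h1 e).1 t ht) fun e => (ctl (h2 e) ht).1) (cf.fl.init μ _)
  refine ⟨q, v, e1, e2.trans ?_, fun e => ?_, fun e t ht i' k' => ((e5 t ht).2 i' k').trans_lt ?_⟩
  · simp only [dat, rh]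
    push_cast
    generalize (yN b k j i.1 : ℝ) ^ 2 = z at z0
    have : 0 < z := by linarith
    congr 1 <;> (try rw [add_sub_cancel]) <;> field_simp <;> ring
  · refine Tendsto.congr' (eventually_ge_atTop 0 |>.mono fun t ht => (e5 t ht).1.symm) ?_
    exact ((tendsto_atTop_add_const_left _ _ ((h1 e).2.comp e4)).const_mul_atTop
      (by positivity)).atTop_div_const (by positivity)
  · have c1 := (ctl (h2 e) (e3 t ht)).2
    have c2 : (i.2 : ℝ) / (BB b k : ℝ) ^ pc j i.1 ≤ 2 := by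
      rw [div_le_iff₀ B0]
      exact_mod_cast (Nat.le_succ _).trans (h2 e 0).1.2
    have c3 : 0 ≤ (i.2 : ℝ) / (BB b k : ℝ) ^ pc j i.1 := by positivity
    generalize (i.2 : ℝ) / (BB b k : ℝ) ^ pc j i.1 = r at c2 c3
    generalize (yN b k j i.1 : ℝ) ^ 2 = z at z0 c1
    have c4 : |z * r / s| ≤ 2 * z := by
      rw [abs_of_nonneg (by positivity), div_le_iff₀ s0]
      nlinarith [hs.1]
    calc _ ≤ 8 * (1 / (10 * z)) ^ 2 * 2 * (2 + 2 * z + 10 * z) := by gcongr; exact hs.2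
      _ < 1 := by
        rw [div_pow, one_pow, mul_one_div, div_mul_eq_mul_div, div_mul_eq_mul_div,
          div_lt_one (by positivity)]
        nlinarith

end MAIN

open MAIN in
theorem p_MAIN (hFLOW : S_FLOW) (hCFG : S_CFG) (hMCA : S_MCA) (hMCB : S_MCB) (hMCC : S_MCC) (hMACH : S_MACH) (hPHYS : S_PHYS) (hQPT : S_QPT) :
    S_MAIN := by
  obtain ⟨Y, hY⟩ := hFLOW
  obtain ⟨μ, K, C, m, ω, n, κ, a, b, k, j, cf⟩ := hCFG Y hY
  obtain ⟨U, hU⟩ := exists_universal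
  obtain ⟨f, en, hf, hen, ht, hh⟩ := halts_enum U
  obtain ⟨A, hA, s, hs, s12, hc⟩ := hMACH a b k j _ _ _ _ _ en (hMCA _ _ _ _ _ _ _ _ _ _ _ _ cf)
    (hMCB _ _ _ _ _ _ _ _ _ _ _ _ cf) (hMCC _ _ _ _ _ _ _ _ _ _ _ _ cf) hen
  obtain ⟨P, hP, hv⟩ := hQPT
  have s0 : 0 < s := by linarith [s12.1]
  have m0 := cf.pos
  have b0 : 0 < b := lt_of_lt_of_le (by norm_num) cf.hb
  have c1 : CR (1 / (2 * s)) :=
    CF.one.div (((CF.ofNat 2).mul hs).congr fun _ _ => by simp) fun _ _ => by positivity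
  have c2 : CR (μ / s) := CF.div cf.cr hs fun _ _ => s0
  refine ⟨![1 / (2 * s), 1 / (2 * s), μ / s], fun i => ?_, U, hU,
    fun d => P (dat κ b k j (f d, A (pc j (f d)))), (hP.comp (prim_dat κ b k j)).to_comp.comp
      (hf.to_comp.pair (hA.comp ((prim_pc j).comp hf).to_comp)),
    fun d d' e => by simp only [ht d d' e], fun d => ?_⟩
  · fin_cases i
    exacts [⟨by simp [s0], c1.compReal⟩, ⟨by simp [s0], c1.compReal⟩, ⟨div_pos m0 s0, c2.compReal⟩]
  obtain ⟨a1, a2, a3⟩ := hc (f d)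
  obtain ⟨q, v, e1, e2, e3, e4⟩ := one (i := (f d, A (pc j (f d)))) hPHYS cf s12 a1 (U.Halts d)
    (fun e => a2 ((hh d).1 e)) fun e => a3 fun e' => e ((hh d).2 e')
  have l0 : 0 < LL b k j (f d) := pow_pos b0 _
  have y0 : 0 < yN b k j (f d) := pow_pos b0 _
  have B0 : 0 < BB b k := pow_pos b0 _
  have A0 : 0 < A (pc j (f d)) := a1
  replace e2 : (q 0, v 0) = (P (dat κ b k j (f d, A (pc j (f d))))).val :=
    e2.trans (hv _ _ _ _ _ _ (Nat.succ_le_of_lt (by simp only [dat]; positivity))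
      (Nat.succ_le_of_lt (by simp only [dat]; positivity))
      (Nat.succ_le_of_lt (by simp only [dat]; positivity))).symm
  refine ⟨e2 ▸ (e1 0 le_rfl 0 ⟨le_rfl, le_rfl⟩).1, ⟨q, v, e1, e2, e3, e4⟩, fun e => ?_, ?_⟩
  · obtain ⟨T, h1, h2⟩ := (((e3 e).eventually_gt_atTop 1).and (eventually_ge_atTop 0)).exists
    exact ⟨T, h2, q, v, e1 T h2, e2, h1⟩
  · rintro ⟨T, h0, q', v', h1, h2, h3⟩
    rw [Real3.sol_unique h0 h1 (e1 T h0) (h2.trans e2.symm)] at h3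
    by_contra e
    exact (abs_lt.1 (e4 e T h0 2 2)).2.not_gt h3

end Pool.Agent.P.MP_9ae58c_an.B

end
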