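import Pool.Agent.P.MP_9ae58c_an.B.IfA

section

/-! Step QEQ. -/

namespace Pool.Agent.P.MP_9ae58c_an.B

open Set Filter Topology Complex

theorem QEQ_mul {a b A B : ℝ} (h1 : |a| ≤ A) (h2 : |b| ≤ B) : |a * b| ≤ A * B := by
  rw [abs_mul]
  exact mul_le_mul h1 h2 (abs_nonneg _) ((abs_nonneg _).trans h1)

theorem QEQ_abs {a A : ℝ} (h1 : 0 ≤ a) (h2 : a ≤ A) : |a| ≤ A := by rwa [abs_of_nonneg h1]

theorem QEQ_dQ {μ t : ℝ} {u x : ℝ → St} (hu : Glob μ u) (hx : Var μ u x) (p : Reg (u t))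
    (hz : (u t).2.1 ≠ 0) :
    HasDerivAt (fun t => Qv (u t) (x t))
      (-(wt (u t) * de μ (u t) (x t)) +
        (16 * (1 + μ) * rr (u t) ^ 3 - 8 * (1 + μ) * (rr (u t) ^ 5 / (u t).2.1 ^ 2)) * (x t).1.re +
        3 * rr (u t) ^ 3 * WW (u t) ^ 2 * (u t).1.im * Qv (u t) (x t)) t := by
  have h1 := hu.der t p
  have h2 := hx t p
  have w := p.W.ne'
  refine ((d3 h2).fun_div ((d2 h1).fun_mul ((dWW p h1).fun_pow 3))
    (mul_ne_zero hz (pow_ne_zero 3 w))).congr_deriv ?_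
  have e := p.W_sq
  simp only [dW_fld]
  simp only [fld, lin, de, dW, wt, Qv]
  generalize rr (u t) = r at *
  generalize WW (u t) = W at *
  generalize (u t).2.1 = z at *
  generalize (u t).2.2 = v at *
  generalize (u t).1.im = y at *
  generalize (x t).1.re = al at *
  generalize (x t).2.1 = ze at *
  generalize (x t).2.2 = om at *
  norm_num
  field_simp
  linear_combination (-(r ^ 2 * (16 * (1 + μ) * (r ^ 3 * W ^ 3 * al - z * W ^ 3 * ze) -
    2 * v * om))) * e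

theorem QEQ_dE {μ t : ℝ} {u x : ℝ → St} (hu : Glob μ u) (hx : Var μ u x) (p : Reg (u t)) :
    HasDerivAt (fun t => Ev μ (u t) (x t))
      (48 * (1 + μ) * rr (u t) ^ 3 * WW (u t) ^ 2 *
        (-(u t).1.im * dW (u t) (x t) - (x t).1.re * dW (u t) (fld μ (u t)))) t := by
  have h1 := hu.der t p
  have h2 := hx t p
  have e : (fun t => Ev μ (u t) (x t)) = fun t =>
      -(16 * (1 + μ)) * ((u t).2.1 * WW (u t) ^ 3 * (x t).2.1) - 2 * (u t).2.2 * (x t).2.2 := by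
    funext t
    simp only [Ev, de, dW, gg]
    ring
  rw [e]
  refine (((((d2 h1).fun_mul ((dWW p h1).fun_pow 3)).fun_mul (d2 h2)).const_mul _).fun_sub
    (((d3 h1).const_mul 2).fun_mul (d3 h2))).congr_deriv ?_
  simp only [dW_fld]
  simp only [fld, lin, dW]
  norm_num
  ring

theorem p_QEQ :
    S_QEQ := by
  intro μ u x t hu hx ha hz W v e Q δ α hW hv he hQ hδ hα
  have p := ha.reg
  have hz0 : 0 < (u t).2.1 := by linarith
  have dQ := QEQ_dQ hu hx p hz0.ne'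
  have dE := QEQ_dE hu hx p
  have dI := dim (hx t p)
  rw [lin_im] at dI
  have eD : dW (u t) (x t) = (e + 2 * ((u t).2.2 * ((u t).2.1 * W * W ^ 2) * Qv (u t) (x t))) /
      (16 * (1 + μ)) := by
    have := p.W.ne'
    have := hz0.ne'
    have : 1 + μ ≠ 0 := by linarith [ha.pos]
    rw [he, hW, de, Qv]
    field_simp
    ring
  have eF := dW_fld μ (u t)
  have eg : dg (u t) (x t) = 24 * rr (u t) ^ 3 * W ^ 2 * dW (u t) (x t) -
      24 * rr (u t) ^ 4 * W ^ 3 * (x t).1.re := by rw [hW, dg]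
  have eE : Ev μ (u t) (x t) - e = -(16 * (1 + μ) * rr (u t) ^ 3 * W ^ 3 * (x t).1.re) := by
    rw [he, hW, Ev, gg]; ring
  have ew : wt (u t) = rr (u t) ^ 2 * (2 - rr (u t) ^ 2 / (u t).2.1 ^ 2) / (2 * W) := by
    rw [hW, wt]
  obtain ⟨r1, r2⟩ := ha.r
  have ez : |(u t).2.1| = (u t).2.1 := abs_of_pos hz0
  obtain ⟨w1, w2⟩ := ha.far (ez.symm ▸ hz)
  have w3 := p.zW
  have w0 := p.W
  have rm := p.r_mul
  have a1 : |(u t).1.re| ≤ α := hα ▸ abs_re_le_norm _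
  have a2 : |(u t).1.im| ≤ α := hα ▸ abs_im_le_norm _
  have b1 : |(x t).1.re| ≤ δ := hδ ▸ abs_re_le_norm _
  have m0 := ha.pos
  have m1 := ha.le
  rw [ez] at w2 w3
  rw [← he, ← hW] at dQ
  rw [← hW] at dE eF w0 w1 w2 w3
  generalize dW (u t) (fld μ (u t)) = F at *
  generalize dW (u t) (x t) = D at *
  generalize dg (u t) (x t) = g at *
  generalize wt (u t) = om at *
  generalize rr (u t) = r at *
  have hv' : |(u t).2.2| ≤ v := hv.ge
  have hQ' : |Qv (u t) (x t)| ≤ Q := hQ.ge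
  have v0 : 0 ≤ v := (abs_nonneg _).trans hv'
  have Q0 : 0 ≤ Q := (abs_nonneg _).trans hQ'
  have α0 : 0 ≤ α := (abs_nonneg _).trans a1
  have δ0 : 0 ≤ δ := (abs_nonneg _).trans b1
  have e0 := abs_nonneg e
  have g0 := abs_nonneg g
  have r0 : 0 < r := by linarith
  have s2 : r ^ 2 ≤ 1.00003 := (pow_le_pow_left₀ r0.le r2 2).trans (by norm_num)
  have s2' : 0.99997 ≤ r ^ 2 := le_trans (by norm_num) (pow_le_pow_left₀ (by norm_num) r1 2)
  have s3 : r ^ 3 ≤ 1.00004 := (pow_le_pow_left₀ r0.le r2 3).trans (by norm_num)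
  have s4 : r ^ 4 ≤ 1.00005 := (pow_le_pow_left₀ r0.le r2 4).trans (by norm_num)
  have s5 : r ^ 5 ≤ 1.00006 := (pow_le_pow_left₀ r0.le r2 5).trans (by norm_num)
  have m2 : 1 + μ ≤ 1.000001 := by linarith
  have M3 : (1 + μ) * r ^ 3 ≤ 1.00005 :=
    (mul_le_mul m2 s3 (by positivity) (by norm_num)).trans (by norm_num)
  have M3' : 0 ≤ (1 + μ) * r ^ 3 := by positivity
  set z := (u t).2.1 with hzz
  have zW : |z * W * W ^ 2| ≤ W ^ 2 :=
    QEQ_abs (by positivity) (mul_le_of_le_one_left (by positivity) w3)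
  have X0 : 0 ≤ W ^ 2 * v * Q := by positivity
  have bD : |D| ≤ (|e| + W ^ 2 * v * Q) / 8 := by
    rw [eD, abs_div, abs_of_pos (show 0 < 16 * (1 + μ) by positivity), div_le_iff₀ (by positivity)]
    have h1 := QEQ_mul (QEQ_mul hv' zW) hQ'
    have h2 := abs_add_le e (2 * ((u t).2.2 * (z * W * W ^ 2) * Qv (u t) (x t)))
    rw [abs_mul, abs_two] at h2
    have h3 := mul_nonneg m0.le (add_nonneg e0 X0)
    linarith only [h1, h2, h3, e0, X0]
  have bF : |F| ≤ 1.0001 * (W ^ 3 * α + W ^ 2 * v) := by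
    have h1 := QEQ_mul (QEQ_mul (QEQ_abs (by positivity) s3)
      (QEQ_abs (pow_pos w0 3).le le_rfl)) a2
    have h2 := QEQ_mul zW (QEQ_mul (QEQ_abs (by positivity) s2) hv')
    have h3 := abs_sub (-(r ^ 3 * W ^ 3 * (u t).1.im)) (z * W * W ^ 2 * (r ^ 2 * (u t).2.2))
    rw [abs_neg] at h3
    rw [eF, show z * W ^ 3 = z * W * W ^ 2 by ring]
    linarith only [h1, h2, h3, mul_nonneg (pow_pos w0 3).le α0, mul_nonneg (pow_pos w0 2).le v0]
  have n0 : 0 ≤ r ^ 5 / z ^ 2 := by positivity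
  have n1 : r ^ 5 / z ^ 2 ≤ 1.14 * W ^ 2 := by
    rw [div_le_iff₀ (by positivity)]
    have : 0.94 ^ 2 ≤ (z * W) ^ 2 := pow_le_pow_left₀ (by norm_num) w2 2
    linarith only [this, s5]
  have n2 : r ^ 2 / z ^ 2 ≤ 0.1112 := by
    rw [div_le_iff₀ (by positivity)]
    have : 3 ^ 2 ≤ z ^ 2 := pow_le_pow_left₀ (by norm_num) hz 2
    linarith only [this, s2]
  have n3 : 0 ≤ r ^ 2 / z ^ 2 := by positivity
  have W2 : W ^ 2 ≤ 1 / 9 := (pow_le_pow_left₀ w0.le w1 2).trans (by norm_num)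
  have Mn : (1 + μ) * (r ^ 5 / z ^ 2) ≤ 1.15 * W ^ 2 :=
    (mul_le_mul m2 n1 n0 (by norm_num)).trans (by linarith only [pow_pos w0 2])
  have Mn' : 0 ≤ (1 + μ) * (r ^ 5 / z ^ 2) := by positivity
  have bY : |3 * r ^ 3 * W ^ 2 * (u t).1.im * Qv (u t) (x t)| ≤ 3.001 * W ^ 2 * α * Q :=
    QEQ_mul (QEQ_mul (QEQ_mul (QEQ_abs (by positivity) (by linarith))
      (QEQ_abs (pow_pos w0 2).le le_rfl)) a2) hQ'
  have Y0 : 0 ≤ α * W ^ 2 * Q := by positivity
  refine ⟨?_, ?_, ?_, ?_, ⟨_, dQ, ?_⟩, ⟨_, dQ.fun_sub (dI.const_mul _), ?_⟩, _, dE, ?_⟩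
  · rw [ew, div_le_div_iff₀ w0 (by positivity)]
    have : 0.99997 * 1.8888 ≤ r ^ 2 * (2 - r ^ 2 / z ^ 2) :=
      mul_le_mul s2' (by linarith only [n2]) (by norm_num) (by positivity)
    have := mul_le_mul_of_nonneg_right this w0.le
    linarith only [this, w0]
  · rw [ew, div_le_div_iff₀ (by positivity) w0]
    have : r ^ 2 * (2 - r ^ 2 / z ^ 2) ≤ 1.0001 * 2 := by
      linarith only [mul_nonneg (sq_nonneg r) n3, s2]
    have := mul_le_mul_of_nonneg_right this w0.le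
    linarith only [this]
  · have h1 := QEQ_mul (QEQ_mul (QEQ_abs (a := 24 * r ^ 3) (A := 25) (by positivity) (by linarith))
      (QEQ_abs (pow_pos w0 2).le le_rfl)) bD
    have h2 := QEQ_mul (QEQ_mul (QEQ_abs (a := 24 * r ^ 4) (A := 25) (by positivity) (by linarith))
      (QEQ_abs (pow_pos w0 3).le le_rfl)) b1
    have h3 := abs_sub (24 * r ^ 3 * W ^ 2 * D) (24 * r ^ 4 * W ^ 3 * (x t).1.re)
    rw [eg]
    linarith only [h1, h2, h3, mul_nonneg (pow_pos w0 2).le e0, mul_nonneg (pow_pos w0 2).le X0,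
      mul_nonneg (pow_pos w0 3).le δ0]
  · rw [eE, abs_neg]
    exact QEQ_mul (QEQ_mul (QEQ_abs (by positivity) (by linarith))
      (QEQ_abs (pow_pos w0 3).le le_rfl)) b1
  · have h1 : |16 * (1 + μ) * r ^ 3 - 8 * (1 + μ) * (r ^ 5 / z ^ 2)| ≤ 17 :=
      abs_le.2 ⟨by linarith, by linarith⟩
    have h2 := QEQ_mul h1 b1
    refine le_trans (le_of_eq ?_) ((abs_add_le _ _).trans ((add_le_add h2 bY).trans (by linarith)))
    congr 1
    ring
  · have h0 : |r ^ 3 - 1| ≤ 3.0001 * α := by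
      have k : r ^ 3 - 1 = -(r * (r ^ 2 + r + 1)) * (u t).1.re := by
        linear_combination (r ^ 2 + r + 1) * rm
      rw [k]
      refine QEQ_mul ?_ a1
      rw [abs_neg]
      exact QEQ_abs (by positivity) (by linarith only [s3, s2, r2])
    have h0' := abs_le.1 (QEQ_mul (QEQ_abs (a := 16 * (1 + μ)) (A := 16.001) (by positivity)
      (by linarith)) h0)
    have h1 : |16 * (1 + μ) * (r ^ 3 - 1) - 8 * (1 + μ) * (r ^ 5 / z ^ 2)| ≤ 50 * (α + W ^ 2) :=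
      abs_le.2 ⟨by linarith [h0'.1, pow_pos w0 2], by linarith [h0'.2, pow_pos w0 2]⟩
    have h2 := QEQ_mul h1 b1
    have h3 : |16 * (1 + μ) * μ * g| ≤ 50 * μ * |g| :=
      QEQ_mul (QEQ_mul (QEQ_abs (by positivity) (by linarith)) (QEQ_abs m0.le le_rfl)) le_rfl
    refine le_trans (le_of_eq ?_) ((abs_add_three _ _ _).trans
      ((add_le_add (add_le_add h2 bY) h3).trans (by linarith)))
    congr 1
    ring
  · have h1 : |48 * (1 + μ) * r ^ 3| ≤ 48.01 := QEQ_abs (by positivity) (by linarith)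
    have h2 := QEQ_mul (show |-(u t).1.im| ≤ α by rwa [abs_neg]) bD
    have h3 := QEQ_mul b1 bF
    have h4 := QEQ_mul (QEQ_mul h1 (QEQ_abs (pow_pos w0 2).le le_rfl))
      ((abs_sub _ _).trans (add_le_add h2 h3))
    refine h4.trans ?_
    have k1 : 0 ≤ W ^ 2 * (α * (|e| + W ^ 2 * v * Q)) := by positivity
    have k2 : 0 ≤ W ^ 2 * ((W ^ 3 * α + W ^ 2 * v) * δ) := by positivity
    linarith only [k1, k2]

end Pool.Agent.P.MP_9ae58c_an.B

end
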