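import Pool.Agent.P.MP_9ae58c_an.B.IfC

section

/-! Step FZ. -/

namespace Pool.Agent.P.MP_9ae58c_an.B

open Set Filter Topology Complex

theorem FZ_cont {f : ℝ → ℝ} {L : ℕ} (h : ∀ s t, |f t - f s| ≤ L * |t - s|) : Continuous f :=
  (LipschitzWith.of_dist_le_mul (K := L) fun t s => h s t).continuous

theorem FZ_up {f : ℝ → ℝ} {τ q : ℝ} {L : ℕ} (h0 : 0 ≤ τ) (h : ∀ s t, |f t - f s| ≤ L * |t - s|)
    (hp : ∀ t ∈ Ico 0 τ, 0 < f t) (hn : ∀ δ, 0 < δ → ∃ t ∈ Ioo τ (τ + δ), f t < 0) :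
    (∃ t, 0 ≤ frac t ∧ frac t < q ∧ f (frac t) < 0) ↔ τ < q := by
  constructor
  · rintro ⟨t, h1, h2, h3⟩
    exact (not_lt.1 fun h4 => (hp _ ⟨h1, h4⟩).not_gt h3).trans_lt h2
  · intro hq
    obtain ⟨t, ⟨h1, h2⟩, h3⟩ := hn (q - τ) (by linarith)
    have ho : IsOpen {t : ℝ | f t < 0} := isOpen_lt (FZ_cont h) continuous_const
    obtain ⟨l, u, ⟨a1, a2⟩, a3⟩ := mem_nhds_iff_exists_Ioo_subset.1 (ho.mem_nhds h3)
    obtain ⟨r, r1, r2⟩ := exists_frac_btwn (max_lt a1 h1)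
    exact ⟨r, (h0.trans (le_max_right _ _)).trans r1.le, by linarith,
      a3 ⟨(le_max_left _ _).trans_lt r1, r2.trans a2⟩⟩

theorem FZ_lo {f : ℝ → ℝ} {τ q : ℝ} {L : ℕ} (h0 : 0 ≤ τ) (h : ∀ s t, |f t - f s| ≤ L * |t - s|)
    (hp : ∀ t ∈ Ico 0 τ, 0 < f t) (hn : ∀ δ, 0 < δ → ∃ t ∈ Ioo τ (τ + δ), f t < 0) :
    (q < 0 ∨ ∃ c : ℕ × ℕ, q < frac ((c.2 : ℕ), c.1) ∧
      ∀ i < c.2, frac ((L : ℕ), c.1) < f (frac ((i : ℕ), c.1))) ↔ q < τ := by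
  simp only [frac, Int.cast_natCast]
  constructor
  · rintro (h1 | ⟨⟨N, M⟩, h1, h2⟩)
    · exact h1.trans_le h0
    · simp only at h1 h2
      by_contra h3
      have hN : (0 : ℝ) < N + 1 := by positivity
      obtain ⟨t, ⟨a1, a2⟩, a3⟩ := hn (M / (N + 1) - τ) (by linarith [not_lt.1 h3])
      have t0 : 0 ≤ t * (N + 1) := mul_nonneg (h0.trans a1.le) hN.le
      have b1 := Nat.floor_le t0
      have b2 := Nat.lt_floor_add_one (t * (N + 1))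
      have b3 : t * (N + 1) < M := (lt_div_iff₀ hN).1 (by linarith)
      have b4 := h2 _ ((Nat.floor_lt t0).2 b3)
      generalize ⌊t * (N + 1)⌋₊ = i at b1 b2 b4
      have b5 : |(i : ℝ) / (N + 1) - t| ≤ 1 / (N + 1) := by
        rw [show (i : ℝ) / (N + 1) - t = (i - t * (N + 1)) / (N + 1) by field_simp, abs_div,
          abs_of_pos hN]
        exact div_le_div_of_nonneg_right (abs_le.2 ⟨by linarith, by linarith⟩) hN.le
      have b6 := (le_abs_self _).trans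
        ((h t (i / (N + 1))).trans (mul_le_mul_of_nonneg_left b5 (Nat.cast_nonneg L)))
      rw [mul_one_div] at b6
      linarith
  · intro hq
    refine or_iff_not_imp_left.2 fun h1 => ?_
    have h1 := not_lt.1 h1
    obtain ⟨m, hm, hmin⟩ := isCompact_Icc.exists_isMinOn (nonempty_Icc.2 h1)
      (FZ_cont h).continuousOn
    have m0 := hp m ⟨hm.1, hm.2.trans_lt hq⟩
    obtain ⟨N, hN'⟩ := exists_nat_gt (L / f m)
    have hN : (0 : ℝ) < N + 1 := by positivity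
    have t0 : 0 ≤ q * (N + 1) := mul_nonneg h1 hN.le
    refine ⟨(N, ⌊q * (N + 1)⌋₊ + 1), (lt_div_iff₀ hN).2 (by
      simpa using Nat.lt_floor_add_one (q * (N + 1))), fun i hi => ?_⟩
    have b1 : (i : ℝ) ≤ q * (N + 1) := (Nat.le_floor_iff t0).1 (Nat.lt_succ_iff.1 hi)
    refine lt_of_lt_of_le ?_ (hmin ⟨by positivity, (div_le_iff₀ hN).2 b1⟩)
    rw [div_lt_iff₀ m0] at hN'
    rw [div_lt_iff₀ hN]
    nlinarith

theorem p_FZ :
    S_FZ := by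
  intro α _ S φ τ L H h
  have z0 : frac (0, 0) = 0 := by simp [frac]
  constructor
  · have c0 : REon {x : α × ℤ × ℕ | x.1 ∈ S} fun x => frac x.2 < frac (0, 0) :=
      REon.prim (cf_frac_lt.comp (Primrec.snd.pair (Primrec.const (0, 0))))
    have c1 : REon {y : (α × ℤ × ℕ) × ℕ × ℕ | y.1 ∈ {x : α × ℤ × ℕ | x.1 ∈ S}} fun y =>
        frac y.1.2 < frac ((y.2.2 : ℕ), y.2.1) :=
      REon.prim (cf_frac_lt.comp ((Primrec.snd.comp Primrec.fst).pair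
        ((primrec_int_cast.comp (Primrec.snd.comp Primrec.snd)).pair
          (Primrec.fst.comp Primrec.snd))))
    have cN : Primrec fun w : ((α × ℤ × ℕ) × ℕ × ℕ) × ℕ => w.1.2.1 :=
      Primrec.fst.comp (Primrec.snd.comp Primrec.fst)
    have c2 : Primrec fun w : ((α × ℤ × ℕ) × ℕ × ℕ) × ℕ =>
        ((w.1.1.1, ((w.2 : ℕ) : ℤ), w.1.2.1), ((L : ℕ) : ℤ), w.1.2.1) :=
      ((Primrec.fst.comp (Primrec.fst.comp Primrec.fst)).pair
        ((primrec_int_cast.comp Primrec.snd).pair cN)).pair ((Primrec.const _).pair cN)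
    have c3 : REon {y : (α × ℤ × ℕ) × ℕ × ℕ | y.1 ∈ {x : α × ℤ × ℕ | x.1 ∈ S}} fun y =>
        ∀ i < y.2.2, frac ((L : ℕ), y.2.1) < φ y.1.1 (frac ((i : ℕ), y.2.1)) :=
      REon.ball (r := fun (y : (α × ℤ × ℕ) × ℕ × ℕ) i =>
          frac ((L : ℕ), y.2.1) < φ y.1.1 (frac ((i : ℕ), y.2.1)))
        (h.1.comp c2.to_comp fun w hw => ⟨hw.1, by simp only [frac]; positivity⟩)
        (Primrec.snd.comp Primrec.snd).to_comp
    refine (c0.or (REon.ex (r := fun (x : α × ℤ × ℕ) (c : ℕ × ℕ) =>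
      frac x.2 < frac ((c.2 : ℕ), c.1) ∧ ∀ i < c.2, frac ((L : ℕ), c.1) <
        φ x.1 (frac ((i : ℕ), c.1))) (c1.and c3))).congr fun x hx => ?_
    obtain ⟨a1, a2, a3, a4⟩ := H _ hx
    rw [z0]
    exact FZ_lo a1 a2 a3 a4
  · have c0 : REon {y : (α × ℤ × ℕ) × ℤ × ℕ | y.1 ∈ {x : α × ℤ × ℕ | x.1 ∈ S}} fun y =>
        0 ≤ frac y.2 :=
      (REon.prim (cf_frac_lt.comp (Primrec.snd.pair (Primrec.const (0, 0)))).not).congr
        fun y _ => by rw [z0, not_lt]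
    have c1 : REon {y : (α × ℤ × ℕ) × ℤ × ℕ | y ∈ {y : (α × ℤ × ℕ) × ℤ × ℕ |
        y.1 ∈ {x : α × ℤ × ℕ | x.1 ∈ S}} ∧ 0 ≤ frac y.2} fun y => frac y.2 < frac y.1.2 :=
      REon.prim (cf_frac_lt.comp (Primrec.snd.pair (Primrec.snd.comp Primrec.fst)))
    have c2 : Primrec fun y : (α × ℤ × ℕ) × ℤ × ℕ => ((y.1.1, y.2), ((0 : ℤ), (0 : ℕ))) :=
      ((Primrec.fst.comp Primrec.fst).pair Primrec.snd).pair (Primrec.const _)
    refine (REon.ex (r := fun (x : α × ℤ × ℕ) (t : ℤ × ℕ) =>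
      0 ≤ frac t ∧ frac t < frac x.2 ∧ φ x.1 (frac t) < frac (0, 0))
      (c0.guard (c1.and (h.2.comp c2.to_comp fun y hy => ⟨hy.1, hy.2⟩)))).congr fun x hx => ?_
    obtain ⟨a1, a2, a3, a4⟩ := H _ hx
    rw [z0]
    exact FZ_up a1 a2 a3 a4

end Pool.Agent.P.MP_9ae58c_an.B

end
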