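import Pool.Agent.P.MP_9ae58c_an.B.P01
import Pool.Agent.P.MP_9ae58c_an.B.P02
import Pool.Agent.P.MP_9ae58c_an.B.P03
import Pool.Agent.P.MP_9ae58c_an.B.P04
import Pool.Agent.P.MP_9ae58c_an.B.P05
import Pool.Agent.P.MP_9ae58c_an.B.P06
import Pool.Agent.P.MP_9ae58c_an.B.P07
import Pool.Agent.P.MP_9ae58c_an.B.P08
import Pool.Agent.P.MP_9ae58c_an.B.P09
import Pool.Agent.P.MP_9ae58c_an.B.P10
import Pool.Agent.P.MP_9ae58c_an.B.P11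
import Pool.Agent.P.MP_9ae58c_an.B.P12
import Pool.Agent.P.MP_9ae58c_an.B.P13
import Pool.Agent.P.MP_9ae58c_an.B.P14
import Pool.Agent.P.MP_9ae58c_an.B.P15
import Pool.Agent.P.MP_9ae58c_an.B.P16
import Pool.Agent.P.MP_9ae58c_an.B.P17
import Pool.Agent.P.MP_9ae58c_an.B.P18
import Pool.Agent.P.MP_9ae58c_an.B.P19
import Pool.Agent.P.MP_9ae58c_an.B.P20
import Pool.Agent.P.MP_9ae58c_an.B.P21
import Pool.Agent.P.MP_9ae58c_an.B.P22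
import Pool.Agent.P.MP_9ae58c_an.B.P23
import Pool.Agent.P.MP_9ae58c_an.B.P24
import Pool.Agent.P.MP_9ae58c_an.B.P25
import Pool.Agent.P.MP_9ae58c_an.B.P26
import Pool.Agent.P.MP_9ae58c_an.B.P27
import Pool.Agent.P.MP_9ae58c_an.B.P28

/-! All steps together. -/

namespace Pool.Agent.P.MP_9ae58c_an.B

theorem g_TAY : S_TAY := p_TAY

theorem g_GRON : S_GRON := p_GRON

theorem g_POLY : S_POLY := p_POLY

theorem g_PERT : S_PERT := p_PERT g_TAY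

theorem g_UNIQ : S_UNIQ := p_UNIQ g_TAY g_GRON g_PERT

theorem g_DIST : S_DIST := p_DIST g_TAY g_GRON g_PERT

theorem g_VEX : S_VEX := p_VEX g_TAY

theorem g_DIFF : S_DIFF := p_DIFF g_TAY g_GRON g_PERT

theorem g_NZC : S_NZC := p_NZC

theorem g_HITC : S_HITC := p_HITC g_NZC

theorem g_FAMD : S_FAMD := p_FAMD g_DIFF g_HITC

theorem g_INT : S_INT := p_INT

theorem g_ADM : S_ADM := p_ADM g_INT

theorem g_MKUP : S_MKUP := p_MKUP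

theorem g_UPT : S_UPT := p_UPT

theorem g_TAILA : S_TAILA := p_TAILA g_UPT

theorem g_ADI : S_ADI := p_ADI

theorem g_KAP : S_KAP := p_KAP

theorem g_HOLD : S_HOLD := p_HOLD g_ADM

theorem g_FALL : S_FALL := p_FALL g_ADM g_MKUP

theorem g_EXCU : S_EXCU := p_EXCU g_MKUP g_FALL

theorem g_EXCF : S_EXCF := p_EXCF g_UPT

theorem g_MIDS : S_MIDS := p_MIDS g_INT g_KAP g_HOLD g_EXCU

theorem g_SYM : S_SYM := p_SYM g_UNIQ g_UPT g_EXCF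

theorem g_QEQ : S_QEQ := p_QEQ

theorem g_FARV : S_FARV := p_FARV g_QEQ

theorem g_UPV : S_UPV := p_UPV g_TAY g_GRON g_UPT g_TAILA g_FARV

theorem g_CORE1 : S_CORE1 := p_CORE1 g_QEQ

theorem g_CORE : S_CORE := p_CORE g_QEQ g_CORE1

theorem g_HALF : S_HALF := p_HALF g_UPT g_ADI g_UPV g_CORE

theorem g_EXC : S_EXC := p_EXC g_UPV g_HALF g_EXCF

theorem g_ALG : S_ALG := p_ALG

theorem g_TP : S_TP := p_TP g_UPT

theorem g_TP2 : S_TP2 := p_TP2 g_TP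

theorem g_OUT : S_OUT := p_OUT g_ADM g_MKUP g_UPT g_HOLD g_TP2

theorem g_ALIGN : S_ALIGN := p_ALIGN

theorem g_SWEEP : S_SWEEP := p_SWEEP

theorem g_MIDL : S_MIDL := p_MIDL g_TAY g_GRON g_VEX g_UPV g_EXC g_EXCF g_ALG

theorem g_MP0 : S_MP0 := p_MP0 g_TAY g_GRON g_PERT g_EXCF

theorem g_MP1 : S_MP1 := p_MP1 g_TAY g_GRON g_PERT g_EXCF g_MP0

theorem g_MP2 : S_MP2 := p_MP2 g_TAY g_GRON g_PERT g_DIST g_EXCF g_MP0

theorem g_TL : S_TL := p_TL g_UPT g_TP2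

theorem g_PN : S_PN := p_PN g_VEX g_TAILA g_MIDS g_OUT g_EXCF g_MP0 g_MP1 g_TL

theorem g_PV : S_PV := p_PV g_VEX g_UPT g_UPV g_EXCF g_MP2

theorem g_PASS : S_PASS := p_PASS g_MIDL g_PN g_PV

theorem g_DOWN : S_DOWN := p_DOWN g_MKUP g_UPT g_ADI

theorem g_LONG : S_LONG := p_LONG g_UPT g_ADI g_HOLD g_EXCU g_DOWN

theorem g_LONGU : S_LONGU := p_LONGU g_EXC g_EXCF

theorem g_LONGM : S_LONGM := p_LONGM g_UPV g_EXC g_EXCF

theorem g_FIRSTV : S_FIRSTV := p_FIRSTV g_UPV g_HALF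

theorem g_INI : S_INI := p_INI g_INT g_UPT g_HOLD g_FALL g_DOWN g_FIRSTV

theorem g_DEP : S_DEP := p_DEP g_UPT g_UPV g_EXCF

theorem g_NXT : S_NXT := p_NXT g_INT g_HOLD g_EXCF g_ALIGN g_LONG g_LONGU g_LONGM

theorem g_RAT : S_RAT := p_RAT

theorem g_DSTEP : S_DSTEP := p_DSTEP g_POLY g_DIST g_VEX

theorem g_DCL : S_DCL := p_DCL g_FAMD

theorem g_DREC : S_DREC := p_DREC

theorem g_DSTJ : S_DSTJ := p_DSTJ g_DSTEP g_DCL g_DREC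

theorem g_FAMS : S_FAMS := p_FAMS g_FAMD g_ALIGN g_SWEEP

theorem g_AN : S_AN := p_AN g_PASS g_INI g_DEP g_NXT g_RAT g_DSTJ

theorem g_REF : S_REF := p_REF g_UPT g_ADI g_INT g_HOLD g_FALL

theorem g_CAU : S_CAU := p_CAU g_TP2

theorem g_LIM : S_LIM := p_LIM g_UNIQ g_MKUP g_UPT

theorem g_FLOW : S_FLOW := p_FLOW

theorem g_CNT : S_CNT := p_CNT

theorem g_FZ : S_FZ := p_FZ

theorem g_ROOT : S_ROOT := p_ROOT

theorem g_LIMC : S_LIMC := p_LIMC g_HITC g_REF g_CAU g_LIM g_CNT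

theorem g_APEX : S_APEX := p_APEX g_NZC g_EXCF g_MIDS g_FZ

theorem g_HOM : S_HOM := p_HOM g_EXCF g_SYM g_ROOT g_LIMC g_APEX

theorem g_CFG : S_CFG := p_CFG g_VEX g_AN g_HOM

theorem g_MCA : S_MCA := p_MCA g_FAMS

theorem g_MCB : S_MCB := p_MCB g_MCA

theorem g_MCC : S_MCC := p_MCC g_CNT

theorem g_MSTEP : S_MSTEP := p_MSTEP

theorem g_MRE : S_MRE := p_MRE

theorem g_MACH : S_MACH := p_MACH g_MSTEP g_MRE

theorem g_PHYS : S_PHYS := p_PHYS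

theorem g_QPT : S_QPT := p_QPT

theorem g_MAIN : S_MAIN := p_MAIN g_FLOW g_CFG g_MCA g_MCB g_MCC g_MACH g_PHYS g_QPT

end Pool.Agent.P.MP_9ae58c_an.B
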