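import Pool.Agent.P.MP_9ae58c_an.B.Defs

/-! Statements, first part: general estimates, excursions and variations along excursions. -/

namespace Pool.Agent.P.MP_9ae58c_an.B

open Set Filter Topology Complex

-- deps:
def S_TAY : Prop := ∃ L, Lc L

-- deps:
def S_GRON : Prop := ∀ L, Lc L → ∀ μ ∈ Icc (0 : ℝ) 1, ∀ (u : ℝ → St) (a b : ℝ),
  (∀ t ∈ Icc a b, Reg (u t)) → Gr μ u a b (Real.exp (L * (b - a)))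

-- deps:
def S_POLY : Prop := ∃ K : ℕ, 1 ≤ K ∧ ∀ μ ∈ Icc (0 : ℝ) 1, ∀ (u : ℝ → St) (a b : ℝ),
  Pw u a b → Gr μ u a b ((2 + b - a) ^ K)

-- deps: TAY
def S_PERT : Prop := ∃ C, 1 ≤ C ∧ ∀ (μ : ℝ) (u w : ℝ → St) (a b X d s : ℝ), Glob μ u → Glob μ w →
  (∀ t ∈ Icc a b, Rg (u t)) → Gr μ u a b X → 1 ≤ X → s ∈ Icc a b → ‖w s - u s‖ ≤ d →
  C * X ^ 2 * d ≤ 1 →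
    (∀ t ∈ Icc a b, Reg (w t) ∧ ‖w t - u t‖ ≤ 2 * X * d) ∧
    (∀ x, Var μ u x → ∀ t ∈ Icc a b,
      ‖w t - u t - x t‖ ≤ X * ‖w s - u s - x s‖ + C * X ^ 3 * d ^ 2) ∧
    ∀ x y, Var μ u x → Var μ w y → ∀ t ∈ Icc a b,
      ‖y t‖ ≤ 2 * X * ‖y s‖ ∧ ‖y t - x t‖ ≤ X * ‖y s - x s‖ + C * X ^ 3 * d * ‖y s‖

-- deps: TAY GRON PERT
def S_UNIQ : Prop := ∀ (μ : ℝ) (u w : ℝ → St) (a b s : ℝ), Glob μ u → Glob μ w →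
  (∀ t ∈ Icc a b, Rg (u t)) → s ∈ Icc a b → w s = u s → ∀ t ∈ Icc a b, w t = u t

-- deps: TAY GRON PERT
def S_DIST : Prop := ∃ C, 1 ≤ C ∧ ∀ (μ : ℝ) (u w x y : ℝ → St) (b b' X d : ℝ), Sol μ u 0 b →
  Sol μ w 0 b' → Gr μ u 0 b X → 1 ≤ X → 0 ≤ b → 0 ≤ b' → |b' - b| ≤ d → ‖w 0 - u 0‖ ≤ d →
  C * X ^ 2 * d ≤ 1 → 1 ≤ |(u b).2.2| → 1 ≤ |(w b').2.2| → Var μ u x → Var μ w y →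
    ‖w b' - u b‖ ≤ C * X * d ∧ |cz (u b) (x b)| + ‖sy μ u x b b‖ ≤ C * X * ‖x 0‖ ∧
    |cz (w b') (y b') - cz (u b) (x b)| + ‖sy μ w y b' b' - sy μ u x b b‖ ≤
      C * X * ‖y 0 - x 0‖ + C * X ^ 3 * d * ‖y 0‖

-- deps: TAY
def S_VEX : Prop := ∀ (μ : ℝ) (u : ℝ → St), Glob μ u → ∀ (s : ℝ) (p : St), ∃ x, Var μ u x ∧ x s = p

-- deps: TAY GRON PERT
def S_DIFF : Prop := ∀ (μ : ℝ) (u : ℝ → ℝ → St) (x : ℝ → St) (s b : ℝ), (∀ σ, Glob μ (u σ)) →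
  Sol μ (u s) 0 b → Var μ (u s) x → HasDerivAt (fun σ => u σ 0) (x 0) s → ∀ t ∈ Icc 0 b,
    HasFDerivAt (fun y : ℝ × ℝ => u y.1 y.2)
      ((ContinuousLinearMap.fst ℝ ℝ ℝ).smulRight (x t) +
        (ContinuousLinearMap.snd ℝ ℝ ℝ).smulRight (fld μ (u s t))) (s, t)

-- deps:
def S_NZC : Prop := ∀ (Z : ℝ → ℝ → ℝ) (t₀ : ℝ → ℝ) (s T ε : ℝ), (∀ σ, Continuous (Z σ)) →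
  (∀ t, ContinuousAt (fun y : ℝ × ℝ => Z y.1 y.2) (s, t)) → ContinuousAt t₀ s → t₀ s + 1 < T →
  (∀ t ∈ Ico (t₀ s + 1) T, 0 < ε * Z s t) → (∀ δ, 0 < δ → ∃ t ∈ Ioo T (T + δ), ε * Z s t < 0) →
    Tendsto (fun σ => nz (Z σ) (t₀ σ)) (𝓝 s) (𝓝 T) ∧ ∀ᶠ σ in 𝓝 s, Z σ (nz (Z σ) (t₀ σ)) = 0

-- deps: NZC
def S_HITC : Prop := ∀ (Z : ℝ → ℝ → ℝ) (s : ℝ) (k : ℕ), (∀ σ, Continuous (Z σ)) →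
  (∀ t, ContinuousAt (fun y : ℝ × ℝ => Z y.1 y.2) (s, t)) → Alt (Z s) k →
    ContinuousAt (fun σ => cr (Z σ) k) s ∧ (k ≠ 0 → ∀ᶠ σ in 𝓝 s, Z σ (cr (Z σ) k) = 0)

-- deps: DIFF HITC
def S_FAMD : Prop := ∀ (μ : ℝ) (u x : ℝ → ℝ → St) (s b θ : ℝ) (i : ℕ), Fam μ u x → 0 < s → i ≠ 0 →
  Alt (zz (u s)) i → Sol μ (u s) 0 b → cr (zz (u s)) i ≤ b → cr (zz (u s)) i + θ ∈ Icc 0 b →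
    HasDerivAt (fun σ => cr (zz (u σ)) i) (cs (u s) (x s) i) s ∧
    HasDerivAt (fun σ => u σ (cr (zz (u σ)) i + θ))
      (sy μ (u s) (x s) (cr (zz (u s)) i) (cr (zz (u s)) i + θ)) s

-- deps:
def S_INT : Prop := ∀ (μ : ℝ) (u : ℝ → St) (a b : ℝ), Sol μ u a b → (∀ t ∈ Icc a b, 0 ≤ (u t).2.1) →
  ∀ t ∈ Icc a b, ‖bb u t - bb u a‖ ≤ 28 * μ

-- deps: INT
def S_ADM : Prop := ∀ (μ : ℝ) (u : ℝ → St) (a b : ℝ), Glob μ u → ‖(u a).1‖ ≤ 70 * μ →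
  |Hh μ (u a)| ≤ μ ^ 2 →
  ((∀ t ∈ Icc a b, 0 ≤ (u t).2.1) ∨ (0 ≤ (u a).2.1 ∧ ∀ t ∈ Icc a b, 0 ≤ (u t).2.2)) →
    Sol μ u a b ∧ ∀ t ∈ Icc a b, 0 ≤ (u t).2.1

-- deps:
def S_MKUP : Prop := ∀ (μ : ℝ) (u : ℝ → St) (η a b : ℝ), Sol μ u a b → a ≤ b → (u a).2.1 = 0 →
  (∀ t ∈ Icc a b, 0 ≤ (u t).2.2) → 3 ≤ (u b).2.1 → 0 ≤ η → η ≤ 1 →
  |eps μ (u b) - η ^ 2| ≤ (η + (u b).2.2) ^ 2 / 10 → Up μ u η a b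

-- deps:
def S_UPT : Prop := ∀ (μ : ℝ) (u : ℝ → St) (η a b : ℝ), Up μ u η a b → ∀ t ∈ Icc a b,
  1 ≤ (1 + t - a) * (η + (u t).2.2) ^ 3 ∧ (1 + t - a) * (η + (u t).2.2) ^ 3 ≤ 600 ∧
  (η + (u t).2.2) ^ 2 / 70 ≤ WW (u t) ∧ WW (u t) ≤ (η + (u t).2.2) ^ 2 / 3 ∧
  min 1 (t - a) ≤ (u t).2.1 ∧ min 1 (η ^ 4 / 700 * (b - t)) ≤ (u t).2.2 ∧ (t < b → 0 < (u t).2.2)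

-- deps: UPT
def S_TAILA : Prop := ∀ (μ : ℝ) (u : ℝ → St) (η a b : ℝ), Up μ u η a b → ∀ t t', a ≤ t → t ≤ t' →
  t' ≤ b → ‖bb u t' - bb u t‖ ≤ 2 * 10 ^ 5 * μ / (1 + t - a)

-- deps:
def S_ADI : Prop := ∃ C, 1 ≤ C ∧ ∀ (μ : ℝ) (u : ℝ → St) (a b w : ℝ), Sol μ u a b → w ≤ 6 →
  (∀ t ∈ Icc a b, 3 ≤ (u t).2.1 ∧ |(u t).2.2| ≤ w ∧ WW (u t) ≤ w ^ 2) →
  ∀ s ∈ Icc a b, ∀ t ∈ Icc a b, ‖bb u t - bb u s‖ ≤ C * μ * (w ^ 6 + w ^ 3 * ‖(u s).1‖)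

-- deps:
def S_KAP : Prop := ∀ (μ : ℝ) (u : ℝ → St) (b : ℝ), Sol μ u 0 b → 0 ≤ b → (u 0).2.1 = 0 →
  (∀ t ∈ Icc 0 b, 0 ≤ (u t).2.2) → 3 ≤ (u b).2.1 → (bb u b).im ≤ (u 0).1.im - μ / 5

-- deps: ADM
def S_HOLD : Prop := ∀ (μ : ℝ) (u : ℝ → St) (a : ℝ), Glob μ u → (u a).2.1 = 0 → 0 ≤ (u a).2.2 →
  ‖(u a).1‖ ≤ 70 * μ → |Hh μ (u a)| ≤ μ ^ 2 →
    (∀ t ∈ Icc a (a + 3), Adm μ (u t) ∧ min 1 (t - a) ≤ (u t).2.1 ∧ 1 ≤ (u t).2.2 ∧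
      (a + 3 / 2 ≤ t → 3 ≤ (u t).2.1)) ∧
    ((∃ tp, a ≤ tp ∧ Sol μ u a tp ∧ (∀ t ∈ Icc a tp, 0 ≤ (u t).2.2) ∧ (u tp).2.2 = 0 ∧
      3 ≤ (u tp).2.1) ∨
    ((∀ b, Sol μ u a b) ∧ (∀ t, a ≤ t → 0 < (u t).2.2) ∧ Tendsto (zz u) atTop atTop))

-- deps: ADM MKUP
def S_FALL : Prop := ∀ (μ : ℝ) (u : ℝ → St) (η a : ℝ), Glob μ u → 3 ≤ (u a).2.1 → (u a).2.2 ≤ 0 →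
  ‖(u a).1‖ ≤ 70 * μ → |Hh μ (u a)| ≤ μ ^ 2 → 0 ≤ η → η ≤ 1 →
  |eps μ (u a) - η ^ 2| ≤ (η - (u a).2.2) ^ 2 / 10 → ∃ b, a < b ∧ Up μ (rev u b) η 0 (b - a)

-- deps: MKUP FALL
def S_EXCU : Prop := ∀ (μ : ℝ) (u : ℝ → St) (a tp : ℝ), Sol μ u a tp → a ≤ tp → (u a).2.1 = 0 →
  (∀ t ∈ Icc a tp, 0 ≤ (u t).2.2) → (u tp).2.2 = 0 → 3 ≤ (u tp).2.1 → ‖(u tp).1‖ ≤ 70 * μ →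
  ∃ η b, Exc μ u η a tp b

-- deps: UPT
def S_EXCF : Prop := ∀ (μ : ℝ) (u : ℝ → St) (η a tp b : ℝ), Exc μ u η a tp b →
  a + 100 ≤ tp ∧ tp + 100 ≤ b ∧ η ≤ 1 / 50 ∧ 1 / η ^ 3 ≤ 1 + tp - a ∧ tp - a ≤ 600 / η ^ 3 ∧
  1 / η ^ 3 ≤ 1 + b - tp ∧ b - tp ≤ 600 / η ^ 3 ∧ (u b).2.1 = 0 ∧ (u b).2.2 ≤ -2 ∧ Pw u a b ∧
  (∀ t ∈ Ico a tp, 0 < (u t).2.2) ∧ (∀ t ∈ Ioc tp b, (u t).2.2 < 0) ∧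
  ∀ t ∈ Icc a b, min 1 (min (t - a) (b - t)) ≤ (u t).2.1 ∧ (u t).2.1 ≤ 70 / η ^ 2

-- deps: INT KAP HOLD EXCU
def S_MIDS : Prop := ∀ (μ : ℝ) (u : ℝ → St) (η₀ b₀ : ℝ), Up μ (rev u 0) η₀ 0 b₀ →
  ‖(u (-b₀)).1‖ ≤ μ / 100 → |Hh μ (u 0)| ≤ μ ^ 2 / 1000 →
  ∃ η tp T, Exc μ (fp u) η 0 tp T ∧ μ / 100 ≤ η ^ 2 ∧ η ^ 2 ≤ 4000 * μ ∧ (bb u tp).im ≤ -(μ / 5) ∧
    ‖(u T).1‖ ≤ 57 * μ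

-- deps: UNIQ UPT EXCF
def S_SYM : Prop := ∀ (μ K₀ : ℝ) (h : ℝ → St) (η tp T : ℝ), Tail μ K₀ h →
  Exc μ (fp h) η 0 tp T → (h tp).1.im = 0 → rev h T = h

-- deps:
def S_QEQ : Prop := ∀ (μ : ℝ) (u x : ℝ → St) (t : ℝ), Glob μ u → Var μ u x → Adm μ (u t) →
  3 ≤ (u t).2.1 → ∀ W v e Q δ α : ℝ, W = WW (u t) → v = |(u t).2.2| → e = de μ (u t) (x t) →
  Q = |Qv (u t) (x t)| → δ = ‖(x t).1‖ → α = ‖(u t).1‖ →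
    0.94 / W ≤ wt (u t) ∧ wt (u t) ≤ 1.0001 / W ∧
    |dg (u t) (x t)| ≤ 25 * (W ^ 2 * |e| + W ^ 4 * v * Q + W ^ 3 * δ) ∧
    |Ev μ (u t) (x t) - e| ≤ 17 * W ^ 3 * δ ∧
    (∃ q, HasDerivAt (fun t => Qv (u t) (x t)) q t ∧ |q + wt (u t) * e| ≤ 17 * (δ + α * W ^ 2 * Q)) ∧
    (∃ q, HasDerivAt (fun t => Qv (u t) (x t) - 16 * (1 + μ) * (x t).1.im) q t ∧
      |q + wt (u t) * e| ≤ 50 * ((α + W ^ 2) * δ + α * W ^ 2 * Q + μ * |dg (u t) (x t)|)) ∧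
    ∃ q, HasDerivAt (fun t => Ev μ (u t) (x t)) q t ∧
      |q| ≤ 49 * W ^ 2 * (α * (|e| + W ^ 2 * v * Q) + (W ^ 3 * α + W ^ 2 * v) * δ)

-- deps: QEQ
def S_FARV : Prop := ∃ C, 1 ≤ C ∧ ∀ (μ : ℝ) (u x : ℝ → St) (η a b A N : ℝ), C * μ ≤ 1 →
  Gau μ u η a b → Var μ u x → 0 ≤ A → A ≤ 100 * μ →
  (∀ t ∈ Icc a b, ‖(u t).1‖ ≤ A + 2 * 10 ^ 5 * μ * (η + (u t).2.2) ^ 3) →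
  ‖(x a).1‖ + |Qv (u a) (x a)| + |dh μ (u a) (x a)| ≤ N →
    (∀ t t', a ≤ t → t ≤ t' → t' ≤ b → ‖bb x t' - bb x t‖ ≤ C * μ * (η + (u t).2.2) * N) ∧
    ∀ t ∈ Icc a b, |Qv (u t) (x t)| ≤ C * (N / (η + (u t).2.2) ^ 3 +
      (A * N / μ + |dh μ (u a) (x a)|) / (η + (u t).2.2) ^ 5)

-- deps: TAY GRON UPT TAILA FARV
def S_UPV : Prop := ∃ C, 1 ≤ C ∧ ∀ (μ : ℝ) (u x : ℝ → St) (η b : ℝ), C * μ ≤ 1 → Up μ u η 0 b →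
  Var μ u x → (x 0).2.1 = 0 →
    (∀ t t', 0 ≤ t → t ≤ t' → t' ≤ b →
      ‖bb x t' - bb x t‖ ≤ C * μ * (η + (u t).2.2) * nn μ (u 0) (x 0)) ∧
    ∀ A, ‖(u b).1‖ ≤ A → A ≤ 100 * μ → |Qv (u b) (x b)| ≤ C * (nn μ (u 0) (x 0) / (η + (u b).2.2) ^ 3 +
      (A * nn μ (u 0) (x 0) / μ + |dh μ (u 0) (x 0)|) / (η + (u b).2.2) ^ 5)

-- deps: QEQ
def S_CORE1 : Prop := ∃ C, 1 ≤ C ∧ ∀ (μ : ℝ) (u x : ℝ → St) (J : ℝ → ℝ) (η a b A S : ℝ),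
  Gau μ u η a b → (u b).2.2 = 0 → 0 < η → Var μ u x → (∀ t ∈ Icc a b, ‖(u t).1‖ ≤ A) →
  A ≤ 100 * μ → J b = 0 → (∀ t ∈ Icc a b, HasDerivAt J (-wt (u t)) t) →
  (∀ t ∈ Icc a b, |Qv (u t) (x t)| ≤ S ∧ |Ev μ (u t) (x t)| ≤ S * (η + (u t).2.2) ^ 5) →
  ∀ t ∈ Icc a b, ∀ G D : ℝ, G = η + (u t).2.2 → D = ‖(x b).1‖ →
    ‖bb x t - bb x b‖ ≤ C * μ * (G ^ 3 * D + G ^ 6 * S) ∧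
    |Ev μ (u t) (x t) - Ev μ (u b) (x b)| ≤ C * G ^ 6 * (A * S + D + μ * G ^ 6 * S) ∧
    |Qv (u t) (x t) - Qv (u b) (x b) - J t * Ev μ (u b) (x b)| ≤
      C * ((1 + A / η ^ 3) * D + (A * G + μ * G ^ 6) * S)

-- deps: QEQ CORE1
def S_CORE : Prop := ∃ C, 1 ≤ C ∧ ∀ (μ : ℝ) (u : ℝ → St) (η a b w A : ℝ), Gau μ u η a b →
  (u b).2.2 = 0 → 0 < η → η ≤ (u a).2.2 → η + (u a).2.2 ≤ w → C * w ≤ 1 →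
  (∀ t ∈ Icc a b, ‖(u t).1‖ ≤ A) → A ≤ 100 * μ →
  ∃ J, 1 / η ^ 5 ≤ J ∧ J ≤ 10 ^ 4 / η ^ 5 ∧ ∀ x, Var μ u x → ∀ D S : ℝ, D = ‖(x b).1‖ →
    S = |Qv (u b) (x b)| + |Ev μ (u b) (x b)| / η ^ 5 + (1 + A / η ^ 3) * D →
    ‖bb x a - bb x b‖ ≤ C * μ * (w ^ 3 * D + w ^ 6 * S) ∧
    |Qv (u a) (x a) - Qv (u b) (x b) - J * Ev μ (u b) (x b)| ≤
      C * ((1 + A / η ^ 3) * D + (A * w + μ * w ^ 6) * S)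

-- deps: UPT ADI UPV CORE
def S_HALF : Prop := ∃ C, 1 ≤ C ∧ ∀ (μ : ℝ) (u : ℝ → St) (η tp w A : ℝ), C * μ ≤ 1 → Up μ u η 0 tp →
  (u tp).2.2 = 0 → 0 < η → 3 * η ≤ w → C * w ≤ 1 → (∀ t ∈ Icc (1 / w ^ 3) tp, ‖(u t).1‖ ≤ A) →
  A ≤ 100 * μ → C * tt μ A w ≤ 1 →
  ∃ J, 1 / η ^ 5 ≤ J ∧ J ≤ 10 ^ 4 / η ^ 5 ∧ ∀ x, Var μ u x → ∀ c P N : ℝ, c = cz (u 0) (x 0) →
    P = |Qv (u tp) (x tp)| + |Ev μ (u tp) (x tp)| / η ^ 5 →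
    N = ‖(x tp).1‖ + |dh μ (u 0) (x 0)| →
    |8 * (1 + μ) * c - Qv (u tp) (x tp) - J * Ev μ (u tp) (x tp)| ≤
      C * (tt μ A w * P + RR A η w * N) ∧
    ‖(sy μ u x 0 0).1 - bb x tp - c * I * bb u tp‖ ≤
      C * μ * (N + w ^ 6 * (P + RR A η w * N) + (A + w ^ 6) * |c|)

-- deps: UPV HALF EXCF
def S_EXC : Prop := ∃ C, 1 ≤ C ∧ ∀ (μ : ℝ) (u : ℝ → St) (η tp b w A : ℝ), C * μ ≤ 1 →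
  Exc μ u η 0 tp b → 3 * η ≤ w → C * w ≤ 1 →
  (∀ t ∈ Icc (1 / w ^ 3) (b - 1 / w ^ 3), ‖(u t).1‖ ≤ A) → A ≤ 100 * μ → C * tt μ A w ≤ 1 →
  ∃ J, 2 / η ^ 5 ≤ J ∧ J ≤ 2 * 10 ^ 4 / η ^ 5 ∧ ∀ x, Var μ u x → (x 0).2.1 = 0 → ∀ c e N : ℝ,
    c = cz (u b) (x b) → e = Ev μ (u tp) (x tp) → N = nn μ (u 0) (x 0) →
    |e - 2 * (1 + μ) / μ * ip (bb u tp) (x 0).1 + dh μ (u 0) (x 0)| ≤ C * (A + w ^ 6) * N ∧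
    |8 * (1 + μ) * c + J * e| ≤ C * (tt μ A w * (|e| / η ^ 5) + RR A η w * N) ∧
    ‖bb (sy μ u x b) b - (x 0).1 - c * I * bb u tp‖ ≤
      C * μ * (N + (A + w ^ 6) * (|c| + RR A η w * N))

-- deps:
def S_ALG : Prop := ∀ (P F : ℂ →ₗ[ℝ] ℂ) (l : ℂ →ₗ[ℝ] ℝ) (ω β : ℂ) (k ε : ℝ), ‖ω‖ = 1 → 0 ≤ ε →
  ε ≤ 1 / 10 ^ 6 → 0 < k → 2 * 10 ^ 4 ≤ k * ‖β‖ ^ 2 → (∀ δ, ‖P δ - δ‖ ≤ ε * ‖δ‖) →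
  (∀ δ, |l δ + k * ip β δ| ≤ ε * k * ‖β‖ * ‖δ‖) →
  (∀ δ, ‖F δ - ω * (δ + l δ * I * β)‖ ≤ ε * (‖δ‖ + ‖β‖ * |l δ|)) →
  ∃ K m n, Shr K m ω n ∧ K ≤ 2 * k * ‖β‖ ^ 2 ∧ ∀ δ, ‖F δ - shr K m ω n (P δ)‖ ≤ ‖P δ‖ / (2 * 10 ^ 4)

-- deps: UPT
def S_TP : Prop := ∀ K, ∃ C, 1 ≤ C ∧ ∀ (μ : ℝ) (u w : ℝ → St) (b S E : ℝ), Up μ u 0 0 b →
  Up μ w 0 0 b → (∀ t ∈ Icc 0 b, ‖(u t).1‖ ≤ K * μ / (1 + t) ∧ ‖(w t).1‖ ≤ K * μ / (1 + t) ∧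
    ‖(u t).1 - (w t).1‖ ≤ S) → |Hh μ (u 0) - Hh μ (w 0)| ≤ E →
  ∀ t t', 0 ≤ t → t ≤ t' → t' ≤ b →
    ‖(bb u t' - bb w t') - (bb u t - bb w t)‖ ≤ C * (μ * S + E) * (u t).2.2

-- deps: TP
def S_TP2 : Prop := ∀ K, ∃ C, 1 ≤ C ∧ ∀ (μ : ℝ) (u w : ℝ → St) (b E : ℝ), C * μ ≤ 1 → Up μ u 0 0 b →
  Up μ w 0 0 b → (∀ t ∈ Icc 0 b, ‖(u t).1‖ ≤ K * μ / (1 + t) ∧ ‖(w t).1‖ ≤ K * μ / (1 + t)) →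
  |Hh μ (u 0) - Hh μ (w 0)| ≤ E → ∀ s ∈ Icc 0 b,
    (∀ t ∈ Icc 0 b, ‖(u t).1 - (w t).1‖ ≤ 2 * ‖(u s).1 - (w s).1‖ + C * E) ∧
    ∀ t t', 0 ≤ t → t ≤ t' → t' ≤ b → ‖(bb u t' - bb w t') - (bb u t - bb w t)‖ ≤
      C * (μ * ‖(u s).1 - (w s).1‖ + E) * (u t).2.2

-- deps: ADM MKUP UPT HOLD TP2
def S_OUT : Prop := ∀ K₀, ∃ C, 1 ≤ C ∧ ∀ (μ : ℝ) (u h : ℝ → St) (b d E : ℝ), C * μ ≤ 1 →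
  Tail μ K₀ h → Glob μ u → (u 0).2.1 = 0 → 0 ≤ (u 0).2.2 → ‖(u 0).1‖ ≤ 70 * μ → |Hh μ (u 0)| ≤ E →
  E ≤ μ ^ 2 → ‖(u 0).1 - (rev h 0 0).1‖ ≤ d → 2 ≤ b → C * (d + E) * (1 + b) ≤ μ →
    Up μ u 0 0 b ∧ ∀ t ∈ Icc 0 b, ‖(u t).1‖ ≤ (K₀ + 1) * μ / (1 + t)

-- deps:
def S_ALIGN : Prop := ∀ (K ρ c : ℝ) (m ω n β β' δ δ' : ℂ), Shr K m ω n → 0 < ρ →
  9 / 10 * ρ ≤ ‖β‖ → ‖β‖ ≤ 2 * ρ → ‖β' - shr K m ω n β‖ ≤ 5 * ρ / 10 ^ 4 →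
  ‖δ - c * I * β‖ ≤ ρ * |c| / 10 ^ 4 → ‖δ' - shr K m ω n δ‖ ≤ 5 * ρ * |c| / 10 ^ 4 →
    ‖β'‖ ≤ 3 * K * ρ ∧ ‖δ'‖ ≤ 3 * K * ρ * |c| ∧
    (ρ ≤ ‖β'‖ → ‖β'‖ ≤ 2 * ρ → K * ρ ^ 2 * |c| / 2 ≤ |ip β' δ'|)

-- deps:
def S_SWEEP : Prop := ∀ (K ρ s₁ s₂ lo Y : ℝ) (m ω n : ℂ) (Θ c : ℝ → ℝ) (β β' δ : ℝ → ℂ),
  Shr K m ω n → 0 < ρ → s₁ < s₂ → 100 ≤ lo * (s₂ - s₁) → ContinuousOn β' (Icc s₁ s₂) →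
  (∀ s ∈ Icc s₁ s₂, HasDerivAt Θ (c s) s ∧ HasDerivAt β (δ s) s ∧ lo ≤ |c s| ∧
    9 / 10 * ρ ≤ ‖β s‖ ∧ ‖β s‖ ≤ 2 * ρ ∧ ‖δ s - c s * I * β s‖ ≤ ρ * |c s| / 10 ^ 4 ∧
    ‖β' s - shr K m ω n (β s)‖ ≤ 5 * ρ / 10 ^ 4) →
  ρ ^ 2 / 100 ≤ Y → Y ≤ 9 * ρ ^ 2 → ∃ s ∈ Icc s₁ s₂, ‖β' s‖ ^ 2 = Y

end Pool.Agent.P.MP_9ae58c_an.B
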