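import Pool.Agent.P.MP_9ae58c_an.B.IfA

/-! Statements, second part: the double passage, the long excursions, families of orbits. -/

namespace Pool.Agent.P.MP_9ae58c_an.B

open Set Filter Topology Complex

/-- the fall from the point `pj μ j` -/
structure Rf (μ K₀ j : ℝ) (u : ℝ → St) (b : ℝ) : Prop where
  j1 : 1 ≤ μ * j
  len : j ^ 3 ≤ 1 + b
  eq : cr (zz u) 1 = b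
  alt : Alt (zz u) 1
  up : Up μ (rev u b) 0 0 b
  nH : |Hh μ (u b)| ≤ μ / j ^ 6
  dec : ∀ t ∈ Icc 0 b, ‖(u (b - t)).1‖ ≤ K₀ * μ / (1 + t) ^ 2

/-- the normalised energy of the departure that follows the arrival number `i` -/
noncomputable def yo (l ρ : ℝ) (u : ℝ → St) (i : ℕ) : ℝ :=
  ‖am u u (2 * i + 2) (1 / l ^ 3)‖ ^ 2 / ρ ^ 2 - 1

/-- the first fall -/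
def IniAt (μ l ρ : ℝ) : Prop := ∀ (y s₀ s : ℝ) (u x : ℝ → St), 1 / l ^ 8 ≤ y → y ≤ 1 / l ^ 11 →
  s₀ ∈ Icc (1 : ℝ) 2 → s ∈ Icc (1 : ℝ) 2 → |s - s₀| ≤ l ^ 12 → Glob μ u → Var μ u x →
  u 0 = ini ρ (y ^ 2) s₀ s → x 0 = ini' ρ (y ^ 2) s₀ s →
    Gd μ l ρ (10 * y ^ 2) u x 0 ∧ y ^ 3 / 10 ^ 4 ≤ |cs u x 1| ∧ |cs u x 1| ≤ 10 ^ 3 * y ^ 3 ∧
    Pw u 0 (cr (zz u) 1) ∧ cr (zz u) 1 ≤ 1 / l ^ 34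

/-- bounded distortion -/
def DstAt (μ K C : ℝ) (m ω n : ℂ) (k : ℕ) (l ρ : ℝ) : Prop :=
  ∀ (Z s s' S : ℝ) (u x : ℝ → ℝ → St) (N j : ℕ), Fam μ u x → 0 < s → 0 < s' → j + k ≤ N →
    1 / l ^ 24 ≤ S → |s' - s| ≤ l ^ (12 * N) / S → ‖u s' 0 - u s 0‖ ≤ |s' - s| / l ^ 23 →
    ‖x s' 0 - x s 0‖ ≤ |s' - s| / l ^ 23 → ‖x s' 0‖ ≤ 1 / l ^ 23 →
    Pw (u s) 0 (cr (zz (u s)) 1) → cr (zz (u s)) 1 ≤ 1 / l ^ 34 → 1 / l ^ 24 ≤ |cs (u s') (x s') 1| →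
    (∀ σ ∈ uIcc s s', ∀ i ≤ j, Gd μ l ρ Z (u σ) (x σ) i ∧ Dep μ K C m ω n l ρ Z (u σ) (x σ) i ∧
      |cs (u σ) (x σ) (2 * i + 1)| ≤ S / l ^ (12 * i + 1)) →
    (∀ i < j, Seg μ (u s) (cr (zz (u s)) (2 * i + 2)) (cr (zz (u s)) (2 * (i + 1) + 1))
      (1 / l ^ 21) (1 / l ^ 13) ∧
      |cs (u s') (x s') (2 * i + 1)| ≤ l ^ 11 * |cs (u s') (x s') (2 * (i + 1) + 1)|) →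
    |cs (u s) (x s) (2 * j + 1) - cs (u s') (x s') (2 * j + 1)| ≤ |cs (u s') (x s') (2 * j + 1)| / 2

/-- everything that is used about the orbits at the scale `l` -/
structure An (μ K C : ℝ) (m ω n : ℂ) (a b : ℝ) (k : ℕ) (l ρ : ℝ) : Prop where
  shr : Shr K m ω n
  dep : ∀ Z u x i, 1 / l ^ 16 ≤ Z → Gd μ l ρ Z u x i → Dep μ K C m ω n l ρ Z u x i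
  esc : ∀ Z u x i, 1 / l ^ 16 ≤ Z → Gd μ l ρ Z u x i → yo l ρ u i ≤ -(1 / 2) → Esc μ u
  nxt : ∀ Z u x i, 1 / l ^ 16 ≤ Z → Gd μ l ρ Z u x i → 1 / a ≤ yo l ρ u i → yo l ρ u i ≤ 2 →
    Gd μ l ρ Z u x (i + 1) ∧
    Seg μ u (cr (zz u) (2 * i + 2)) (cr (zz u) (2 * (i + 1) + 1)) (1 / l ^ 21) (1 / l ^ 13) ∧
    (|yo l ρ u i - 3 / (2 * a)| ≤ 3 / (10 * a) →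
      |cs u x (2 * i + 1)| / l ^ 12 ≤ |cs u x (2 * (i + 1) + 1)| ∧
      |cs u x (2 * (i + 1) + 1)| ≤ b * (|cs u x (2 * i + 1)| / l ^ 12)) ∧
    (|yo l ρ u i - 3 / 2| ≤ 3 / (10 * a) →
      |cs u x (2 * i + 1)| / l ^ 12 ≤ b * |cs u x (2 * (i + 1) + 1)| ∧
      |cs u x (2 * (i + 1) + 1)| ≤ |cs u x (2 * i + 1)| / l ^ 12)
  ini : IniAt μ l ρ
  dst : DstAt μ K C m ω n k l ρ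

-- deps: TAY GRON VEX UPV EXC EXCF ALG
def S_MIDL : Prop := ∃ C, 1 ≤ C ∧ ∀ (μ K₀ : ℝ) (h : ℝ → St) (T : ℝ), C * μ ≤ 1 → Hom μ K₀ h T →
  ∃ G ω, 1 ≤ G ∧ ∀ T₀, 2 ≤ T₀ → ∃ K m n, Lin μ h T T₀ K G m ω n

-- deps: TAY GRON PERT EXCF
def S_MP0 : Prop := ∀ (μ K₀ : ℝ) (h : ℝ → St) (T T₀ : ℝ), Hom μ K₀ h T → 2 ≤ T₀ →
  ∃ C d₀, 1 ≤ C ∧ 0 < d₀ ∧ ∀ (u : ℝ → St) (d η tp T' : ℝ), ‖u 0 - h 0‖ ≤ d → d ≤ d₀ →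
    Exc μ (fp u) η 0 tp T' → |T' - T| ≤ C * d ∧ C * d ≤ 1 ∧ ‖u T' - h T‖ ≤ C * d ∧
      ∀ t ∈ Icc (-T₀) (T + T₀ + 1), Rg (h t) ∧ Reg (u t) ∧ ‖u t - h t‖ ≤ C * d

-- deps: TAY GRON PERT EXCF MP0
def S_MP1 : Prop := ∀ (μ K₀ : ℝ) (h : ℝ → St) (T T₀ : ℝ), Hom μ K₀ h T → 2 ≤ T₀ →
  ∃ C d₀, 1 ≤ C ∧ 0 < d₀ ∧ ∀ (u x : ℝ → St) (d η tp T' : ℝ), ‖u 0 - h 0‖ ≤ d → d ≤ d₀ →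
    Exc μ (fp u) η 0 tp T' → Var μ h x → x 0 = u 0 - h 0 →
      ‖bb u (-T₀) - bb h (-T₀) - bb x (-T₀)‖ ≤ C * d ^ 2 ∧
      ‖bb (sh u T') T₀ - bb (sh h T) T₀ - bb (sh (sy μ h x T) T) T₀‖ ≤ C * d ^ 2 ∧
      |dh μ (h 0) (x 0)| ≤ C * (|Hh μ (u 0)| + d ^ 2)

-- deps: TAY GRON PERT DIST EXCF MP0
def S_MP2 : Prop := ∀ (μ K₀ : ℝ) (h : ℝ → St) (T T₀ : ℝ), Hom μ K₀ h T → 2 ≤ T₀ →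
  ∃ C d₀, 1 ≤ C ∧ 0 < d₀ ∧ ∀ (u x y : ℝ → St) (d η tp T' : ℝ), ‖u 0 - h 0‖ ≤ d → d ≤ d₀ →
    Exc μ (fp u) η 0 tp T' → Var μ h x → Var μ u y → y 0 = x 0 →
      ‖bb y (-T₀) - bb x (-T₀)‖ ≤ C * d * ‖x 0‖ ∧
      ‖bb (sh (sy μ u y T') T') T₀ - bb (sh (sy μ h x T) T) T₀‖ ≤ C * d * ‖x 0‖ ∧
      |dh μ (u 0) (y 0) - dh μ (h 0) (x 0)| ≤ C * d * ‖x 0‖ ∧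
      |cz (u T') (y T')| + ‖sy μ u y T' T'‖ ≤ C * ‖x 0‖

-- deps: UPT TP2
def S_TL : Prop := ∀ K₀, ∃ C₀, 1 ≤ C₀ ∧ ∀ (μ : ℝ) (h : ℝ → St) (ε : ℝ), C₀ * μ ≤ 1 → Tail μ K₀ h →
  0 < ε → ∃ T₁, 2 ≤ T₁ ∧ ∀ T₀ κ, T₁ ≤ T₀ → 1 ≤ κ → ∃ l₀, 0 < l₀ ∧ ∀ l ρ, 0 < l → l ≤ l₀ →
    ρ = κ * l ^ 4 → T₀ ≤ 1 / l ^ 3 ∧ ∀ (w : ℝ → St) (D s : ℝ), Up μ w 0 0 (1 / l ^ 3) →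
      |Hh μ (w 0)| ≤ 2 * ρ ^ 2 →
      (∀ t ∈ Icc 0 (1 / l ^ 3), ‖(w t).1‖ ≤ (K₀ + 3 * 10 ^ 5) * μ / (1 + t)) →
      s ∈ Icc 0 (1 / l ^ 3) → 0 ≤ D → ‖(w s).1 - (rev h 0 s).1‖ ≤ D * ρ →
        ‖(w 0).1 - (rev h 0 0).1‖ ≤ (2 * D + 1) * ρ ∧
        ‖bb w (1 / l ^ 3) - (bb w T₀ - bb (rev h 0) T₀)‖ ≤ ε * (D + 1) * ρ

-- deps: VEX TAILA MIDS OUT EXCF MP0 MP1 TL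
def S_PN : Prop := ∀ K₀, ∃ C₀, 1 ≤ C₀ ∧ ∀ (μ : ℝ) (h : ℝ → St) (T G : ℝ), C₀ * μ ≤ 1 →
  Hom μ K₀ h T → 1 ≤ G → ∃ T₁, 2 ≤ T₁ ∧ ∀ (T₀ K : ℝ) (m ω n : ℂ) (κ : ℝ), T₁ ≤ T₀ →
    Lin μ h T T₀ K G m ω n → 1 ≤ κ → ∃ l₀, 0 < l₀ ∧ ∀ l ρ, 0 < l → l ≤ l₀ → ρ = κ * l ^ 4 →
      ∀ u, Up μ (rev u 0) 0 0 (1 / l ^ 3) → |Hh μ (u 0)| ≤ 2 * ρ ^ 2 →
        ‖bb u (-(1 / l ^ 3))‖ ≤ 2 * ρ → ‖u 0 - h 0‖ ≤ 200 * ρ ∧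
        ∃ η tp T', Exc μ (fp u) η 0 tp T' ∧ μ / 100 ≤ η ^ 2 ∧ T' ≤ T + 1 ∧ ‖(u T').1‖ ≤ 57 * μ ∧
          Up μ (sh u T') 0 0 (1 / l ^ 3) ∧
          ‖bb (sh u T') (1 / l ^ 3) - shr K m ω n (bb u (-(1 / l ^ 3)))‖ ≤ 5 * ρ / 10 ^ 4

-- deps: VEX UPT UPV EXCF MP2
def S_PV : Prop := ∃ C₀, 1 ≤ C₀ ∧ ∀ (μ K₀ : ℝ) (h : ℝ → St) (T G : ℝ), C₀ * μ ≤ 1 → Hom μ K₀ h T →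
  1 ≤ G → ∃ T₁, 2 ≤ T₁ ∧ ∀ (T₀ K : ℝ) (m ω n : ℂ), T₁ ≤ T₀ → Lin μ h T T₀ K G m ω n →
    ∃ C d₀, 1 ≤ C ∧ 0 < d₀ ∧ ∀ (u : ℝ → St) (θ η tp T' : ℝ), T₀ ≤ θ → Up μ (rev u 0) 0 0 θ →
      ‖u 0 - h 0‖ ≤ d₀ → Exc μ (fp u) η 0 tp T' → Up μ (sh u T') 0 0 θ →
      ∀ x, Var μ u x → (x 0).2.1 = 0 → |cz (u T') (x T')| + ‖sy μ u x T' T'‖ ≤ C * ‖x 0‖ ∧
        ‖bb (sh (sy μ u x T') T') θ - shr K m ω n (bb x (-θ))‖ ≤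
          2 * ‖bb x (-θ)‖ / 10 ^ 4 + C * |dh μ (u 0) (x 0)|

-- deps: MIDL PN PV
def S_PASS : Prop := ∀ K₀, ∃ C₀, 1 ≤ C₀ ∧ ∀ (μ : ℝ) (h : ℝ → St) (T : ℝ), C₀ * μ ≤ 1 →
  Hom μ K₀ h T → ∃ K C m ω n, Shr K m ω n ∧ 1 ≤ C ∧ ∀ κ, 1 ≤ κ → ∃ l₀, 0 < l₀ ∧ ∀ l, 0 < l →
    l ≤ l₀ → PassAt μ K C m ω n l (κ * l ^ 4)

-- deps: MKUP UPT ADI
def S_DOWN : Prop := ∀ μ κ : ℝ, 0 < μ → 1 ≤ κ → ∃ l₀, 0 < l₀ ∧ ∀ l ρ, 0 < l → l ≤ l₀ →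
  ρ = κ * l ^ 4 → ∀ (w : ℝ → St) (η tp : ℝ), Up μ w η 0 tp → (w tp).2.2 = 0 → η ≤ l / 3 →
    ‖(w tp).1‖ ≤ 3 * ρ → |Hh μ (w 0)| ≤ 2 * ρ ^ 2 → 1 / l ^ 3 ≤ tp ∧ Up μ w 0 0 (1 / l ^ 3) ∧
      ∀ t ∈ Icc (1 / l ^ 3) tp, ‖bb w t - bb w tp‖ ≤ l * ρ / 2

-- deps: UPT ADI HOLD EXCU DOWN
def S_LONG : Prop := ∀ μ κ a : ℝ, 0 < μ → 1 ≤ κ → 0 < a → ∃ l₀, 0 < l₀ ∧ ∀ l ρ, 0 < l → l ≤ l₀ →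
  ρ = κ * l ^ 4 → ∀ u : ℝ → St, Up μ u 0 0 (1 / l ^ 3) → ‖(u 0).1‖ ≤ 70 * μ →
    |Hh μ (u 0) - ρ ^ 2| ≤ l * ρ ^ 2 →
      (‖bb u (1 / l ^ 3)‖ ^ 2 ≤ ρ ^ 2 / 2 → Esc μ u) ∧
      ((1 + a) * ρ ^ 2 ≤ ‖bb u (1 / l ^ 3)‖ ^ 2 → ‖bb u (1 / l ^ 3)‖ ^ 2 ≤ 3 * ρ ^ 2 →
        ∃ η tp b, Lg μ l ρ a u η tp b ∧
          |μ / (1 + μ) * η ^ 2 - (‖bb u (1 / l ^ 3)‖ ^ 2 - ρ ^ 2)| ≤ 6 * l * ρ ^ 2)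

-- deps: EXC EXCF
def S_LONGU : Prop := ∃ C₀, 1 ≤ C₀ ∧ ∀ μ κ a : ℝ, C₀ * μ ≤ 1 → 0 < μ → 1 ≤ κ → 0 < a →
  ∃ l₀, 0 < l₀ ∧ ∀ l ρ, 0 < l → l ≤ l₀ → ρ = κ * l ^ 4 → ∀ (u : ℝ → St) (η tp b : ℝ),
    Lg μ l ρ a u η tp b → Seg μ u 0 b (1 / l ^ 21) (1 / l ^ 13)

-- deps: UPV EXC EXCF
def S_LONGM : Prop := ∃ C₀, 1 ≤ C₀ ∧ ∀ μ κ a : ℝ, C₀ * μ ≤ 1 → 0 < μ → 1 ≤ κ → 0 < a →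
  ∃ l₀, 0 < l₀ ∧ ∀ l ρ, 0 < l → l ≤ l₀ → ρ = κ * l ^ 4 → ∀ (u x : ℝ → St) (η tp b K c₀ γ c : ℝ),
    Lg μ l ρ a u η tp b → Var μ u x → (x 0).2.1 = 0 → 1 ≤ K →
    K * ρ ^ 2 * c₀ / 2 ≤ |ip (bb u (1 / l ^ 3)) (bb x (1 / l ^ 3))| →
    ‖bb x (1 / l ^ 3)‖ ≤ 3 * K * ρ * c₀ → |dh μ (u 0) (x 0)| ≤ l * ρ ^ 2 * c₀ → |γ| ≤ 2 * c₀ →
    c = γ + cz (u b) (x b) →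
      K * ρ ^ 2 * c₀ / 100 ≤ μ * η ^ 5 * |c| ∧ μ * η ^ 5 * |c| ≤ 10 ^ 5 * K * ρ ^ 2 * c₀ ∧ c₀ ≤ |c| ∧
      ‖bb (sh (sy μ u x b) b) (-(1 / l ^ 3)) - c * I * bb (sh u b) (-(1 / l ^ 3))‖ ≤
        ρ * |c| / 10 ^ 4

-- deps: UPV HALF
def S_FIRSTV : Prop := ∃ C₀, 1 ≤ C₀ ∧ ∀ μ κ : ℝ, C₀ * μ ≤ 1 → 0 < μ → 1 ≤ κ →
  ∃ l₀, 0 < l₀ ∧ ∀ l ρ, 0 < l → l ≤ l₀ → ρ = κ * l ^ 4 → ∀ (u x : ℝ → St) (η b c : ℝ),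
    Up μ (rev u b) η 0 b → (u 0).2.2 = 0 → 0 < η → η ≤ l ^ 6 → 1 / l ^ 3 ≤ b →
    ‖(u 0).1‖ ≤ 2 * ρ → (∀ t ∈ Icc 0 (b - 1 / l ^ 3), ‖bb u t - (u 0).1‖ ≤ l * ρ) → Var μ u x →
    (x 0).2.2 = 0 → ‖(x 0).1‖ ≤ 2 → η ^ 2 / 3 ≤ |Ev μ (u 0) (x 0)| →
    |Ev μ (u 0) (x 0)| ≤ 2 * η ^ 2 → |dh μ (u 0) (x 0)| ≤ 1 → c = cz (u b) (x b) →
      1 / (100 * η ^ 3) ≤ |c| ∧ |c| ≤ 10 ^ 4 / η ^ 3 ∧ 1 ≤ l * ρ ^ 2 * |c| ∧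
      ‖bb (sh (sy μ u x b) b) (-(1 / l ^ 3)) - c * I * bb (sh u b) (-(1 / l ^ 3))‖ ≤
        ρ * |c| / 10 ^ 4

-- deps: INT UPT HOLD FALL DOWN FIRSTV
def S_INI : Prop := ∃ C₀, 1 ≤ C₀ ∧ ∀ μ κ : ℝ, C₀ * μ ≤ 1 → 0 < μ → 1 ≤ κ →
  ∃ l₀, 0 < l₀ ∧ ∀ l, 0 < l → l ≤ l₀ → IniAt μ l (κ * l ^ 4)

-- deps: UPT UPV EXCF
def S_DEP : Prop := ∃ C₀, 1 ≤ C₀ ∧ ∀ μ C κ : ℝ, C₀ * μ ≤ 1 → 0 < μ → 1 ≤ C → 1 ≤ κ →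
  ∃ l₀, 0 < l₀ ∧ ∀ l ρ, 0 < l → l ≤ l₀ → ρ = κ * l ^ 4 → ∀ (K Z : ℝ) (m ω n : ℂ) (u x : ℝ → St)
    (i : ℕ), 1 / l ^ 16 ≤ Z → PassAt μ K C m ω n l ρ → Gd μ l ρ Z u x i →
      Dep μ K C m ω n l ρ Z u x i

-- deps: INT HOLD EXCF ALIGN LONG LONGU LONGM
def S_NXT : Prop := ∃ C₀, 1 ≤ C₀ ∧ ∀ μ κ a : ℝ, C₀ * μ ≤ 1 → 0 < μ → 1 ≤ κ → 0 < a →
  ∃ l₀, 0 < l₀ ∧ ∀ l ρ, 0 < l → l ≤ l₀ → ρ = κ * l ^ 4 → ∀ (K C Z : ℝ) (m ω n : ℂ) (u x : ℝ → St)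
    (i : ℕ), Shr K m ω n → 1 / l ^ 16 ≤ Z → Gd μ l ρ Z u x i → Dep μ K C m ω n l ρ Z u x i →
      (yo l ρ u i ≤ -(1 / 2) → Esc μ u) ∧
      (a ≤ yo l ρ u i → yo l ρ u i ≤ 2 → Gd μ l ρ Z u x (i + 1) ∧
        Seg μ u (cr (zz u) (2 * i + 2)) (cr (zz u) (2 * (i + 1) + 1)) (1 / l ^ 21) (1 / l ^ 13) ∧
        ∃ η, 0 < η ∧ |μ / (1 + μ) * η ^ 2 - yo l ρ u i * ρ ^ 2| ≤ 6 * l * ρ ^ 2 ∧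
          K * ρ ^ 2 * |cs u x (2 * i + 1)| / 100 ≤ μ * η ^ 5 * |cs u x (2 * (i + 1) + 1)| ∧
          μ * η ^ 5 * |cs u x (2 * (i + 1) + 1)| ≤ 10 ^ 5 * K * ρ ^ 2 * |cs u x (2 * i + 1)|)

-- deps:
def S_RAT : Prop := ∀ μ K : ℝ, 0 < μ → μ ≤ 1 → 1 ≤ K → ∃ κ a : ℕ, 1 ≤ κ ∧ 4 ≤ a ∧ ∃ b₀ : ℝ,
  ∀ l ρ η c c' Y : ℝ, 0 < l → 30 * a * l ≤ 1 → ρ = κ * l ^ 4 → 0 < η → 0 ≤ c → 0 ≤ c' →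
    |μ / (1 + μ) * η ^ 2 - Y * ρ ^ 2| ≤ 6 * l * ρ ^ 2 → K * ρ ^ 2 * c / 100 ≤ μ * η ^ 5 * c' →
    μ * η ^ 5 * c' ≤ 10 ^ 5 * K * ρ ^ 2 * c →
      (|Y - 3 / (2 * a)| ≤ 3 / (10 * a) → c / l ^ 12 ≤ c' ∧ c' ≤ b₀ * (c / l ^ 12)) ∧
      (|Y - 3 / 2| ≤ 3 / (10 * a) → c / l ^ 12 ≤ b₀ * c' ∧ c' ≤ c / l ^ 12)

-- deps: POLY DIST VEX
def S_DSTEP : Prop := ∃ (C : ℝ) (P : ℕ), 1 ≤ C ∧ 1 ≤ P ∧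
  (∀ (μ : ℝ) (u w x y : ℝ → St) (a b a' b' U D d X : ℝ), Seg μ u a b U D → Sol μ w a' b' → a' ≤ b' →
    1 ≤ |(w b').2.2| → (2 + D) ^ P ≤ X → ‖w a' - u a‖ ≤ d → |b' - a' - (b - a)| ≤ d →
    C * X ^ 2 * d ≤ 1 → Var μ u x → Var μ w y → (x a).2.1 = 0 → (y a').2.1 = 0 →
      |cz (w b') (y b') - cz (u b) (x b)| + ‖sy μ w y b' b' - sy μ u x b b‖ ≤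
        U * ‖y a' - x a‖ + C * X ^ 3 * d * ‖y a'‖) ∧
  ∀ (μ : ℝ) (u w x y : ℝ → St) (b b' d X : ℝ), Sol μ u 0 b → Pw u 0 b → Sol μ w 0 b' → 0 ≤ b →
    0 ≤ b' → 1 ≤ |(u b).2.2| → 1 ≤ |(w b').2.2| → (2 + b) ^ P ≤ X → ‖w 0 - u 0‖ ≤ d →
    |b' - b| ≤ d → C * X ^ 2 * d ≤ 1 → Var μ u x → Var μ w y →
      |cz (w b') (y b') - cz (u b) (x b)| + ‖sy μ w y b' b' - sy μ u x b b‖ ≤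
        C * X * ‖y 0 - x 0‖ + C * X ^ 3 * d * ‖y 0‖

-- deps: FAMD
def S_DCL : Prop := ∀ (μ : ℝ) (u x : ℝ → ℝ → St) (s s' H : ℝ) (i : ℕ), Fam μ u x → 0 < s → 0 < s' →
  i ≠ 0 → (∀ σ ∈ uIcc s s', Alt (zz (u σ)) i ∧ Sol μ (u σ) 0 (cr (zz (u σ)) i) ∧
    |cs (u σ) (x σ) i| ≤ H ∧ ‖sy μ (u σ) (x σ) (cr (zz (u σ)) i) (cr (zz (u σ)) i)‖ ≤ H) →
    |cr (zz (u s')) i - cr (zz (u s)) i| ≤ H * |s' - s| ∧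
    ‖u s' (cr (zz (u s')) i) - u s (cr (zz (u s)) i)‖ ≤ H * |s' - s|

-- deps:
def S_DREC : Prop := ∀ (l : ℝ) (m N j : ℕ) (E c : ℕ → ℝ), 0 < l → l ≤ 1 / 2 → j ≤ N →
  (∀ i, 0 ≤ c i) → E 0 ≤ l ^ (12 * N) / l ^ m * c 0 →
  (∀ i < j, E (i + 1) ≤ (E i + l ^ (12 * (N - (i + 1))) / l ^ m * c i) / l ^ 22 ∧
    c i ≤ l ^ 11 * c (i + 1)) → E j ≤ l ^ (12 * (N - j)) / l ^ (m + 24) * c j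

-- deps: DSTEP DCL DREC
def S_DSTJ : Prop := ∃ k : ℕ, ∀ C : ℝ, 1 ≤ C → ∃ l₀, 0 < l₀ ∧ ∀ l, 0 < l → l ≤ l₀ →
  ∀ (μ K ρ : ℝ) (m ω n : ℂ), DstAt μ K C m ω n k l ρ

-- deps: FAMD ALIGN SWEEP
def S_FAMS : Prop := ∀ (μ K C l ρ Z s₁ s₂ : ℝ) (m ω n : ℂ) (u x : ℝ → ℝ → St) (i : ℕ), Fam μ u x →
  Shr K m ω n → 0 < l → 0 < ρ → 0 < s₁ → s₁ < s₂ →
  (∀ s ∈ Icc s₁ s₂, Gd μ l ρ Z (u s) (x s) i ∧ Dep μ K C m ω n l ρ Z (u s) (x s) i) →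
    (∃ s ∈ Icc s₁ s₂, |cr (zz (u s₂)) (2 * i + 1) - cr (zz (u s₁)) (2 * i + 1)| =
      |cs (u s) (x s) (2 * i + 1)| * (s₂ - s₁)) ∧
    (∀ hi, (∀ s ∈ Icc s₁ s₂, |cs (u s) (x s) (2 * i + 1)| ≤ hi) → ∀ s ∈ Icc s₁ s₂, ∀ s' ∈ Icc s₁ s₂,
      |yo l ρ (u s) i - yo l ρ (u s') i| ≤ 18 * K ^ 2 * hi * |s - s'|) ∧
    ∀ lo Y, (∀ s ∈ Icc s₁ s₂, lo ≤ |cs (u s) (x s) (2 * i + 1)|) → 100 ≤ lo * (s₂ - s₁) →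
      -(99 / 100) ≤ Y → Y ≤ 8 → ∃ s ∈ Icc s₁ s₂, yo l ρ (u s) i = Y

-- deps: PASS INI DEP NXT RAT DSTJ
def S_AN : Prop := ∀ K₀, ∃ C₀, 1 ≤ C₀ ∧ ∀ (μ : ℝ) (h : ℝ → St) (T : ℝ), C₀ * μ ≤ 1 → Hom μ K₀ h T →
  ∃ (K C : ℝ) (m ω n : ℂ) (κ a k : ℕ) (b₀ l₀ : ℝ), 1 ≤ κ ∧ 4 ≤ a ∧ 0 < l₀ ∧ ∀ b l, b₀ ≤ b → 0 < l →
    l ≤ l₀ → An μ K C m ω n a b k l (κ * l ^ 4)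

-- deps: UPT ADI INT HOLD FALL
def S_REF : Prop := ∃ K₀, 1 ≤ K₀ ∧ ∀ (μ j : ℝ) (u : ℝ → St), Glob μ u → 1 ≤ μ * j → u 0 = pj μ j →
  ∃ b, Rf μ K₀ j u b

-- deps: TP2
def S_CAU : Prop := ∀ K₀, ∃ C, 1 ≤ C ∧ ∀ (μ j j' b b' : ℝ) (u w : ℝ → St), C * μ ≤ 1 → j ≤ j' →
  Rf μ K₀ j u b → Rf μ K₀ j' w b' → ‖u b - w b'‖ ≤ 1 / j

-- deps: UNIQ MKUP UPT
def S_LIM : Prop := ∀ K₀, ∃ C, 1 ≤ C ∧ ∀ (μ : ℝ) (Y : St → ℝ → St) (p : St) (u : ℕ → ℝ → St)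
  (j b : ℕ → ℝ), C * μ ≤ 1 → (∀ q, Glob μ (Y q) ∧ Y q 0 = q) → (∀ t, Continuous fun q => Y q t) →
  (∀ n, Rf μ K₀ (j n) (u n) (b n)) → Tendsto j atTop atTop →
  Tendsto (fun n => u n (b n)) atTop (𝓝 p) → Tail μ K₀ (Y p)

end Pool.Agent.P.MP_9ae58c_an.B
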