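import Pool.Agent.P.MP_9ae58c_an.B.IfB
import Pool.Agent.P.MP_9ae58c_an.B.Cf
import Pool.Agent.P.MP_9ae58c_an.Euler
import Pool.Agent.P.MP_9ae58c_an.Real3
import Pool.Agent.P.MP_9ae58c_an.Univ

/-! Statements, third part: computability, the homoclinic orbit, the schedule, the three bodies. -/

namespace Pool.Agent.P.MP_9ae58c_an.B

open Set Filter Topology Complex

/-- a global computable flow that solves the equations in the region `Reg` -/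
structure Fl (Y : ℝ → St → ℝ → St) : Prop where
  init : ∀ μ p, Y μ p 0 = p
  gl : ∀ μ p, 0 < μ → μ ≤ 1 / 10 ^ 8 → Glob μ (Y μ p)
  cont : Continuous fun y : ℝ × St × ℝ => Y y.1 y.2.1 y.2.2
  lip : ∃ L : ℕ, ∀ μ p s t, ‖Y μ p t - Y μ p s‖ ≤ L * |t - s|
  eff : ∀ {α : Type} [Primcodable α] (S : Set α) (m t : α → ℝ) (x : α → St), CF S m → CF S t →
    CS S x → (∀ a ∈ S, 0 ≤ t a) → CS S fun a => Y (m a) (x a) (t a)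

/-- the period of the orbits of class `c` -/
def pc (j c : ℕ) : ℕ := 2 ^ (c + 1) * j

/-- the step at which the passage number `n` of the orbit of class `c` is steered -/
def sl (j c n : ℕ) : ℕ := pc j c * (n + 2) + 2 ^ c

/-- the base -/
def BB (b k : ℕ) : ℕ := b ^ (12 * (k + 1))

/-- the inverse scale of the class `c` -/
def LL (b k j c : ℕ) : ℕ := b ^ ((k + 1) * pc j c)

/-- the square root of the initial height of the class `c` -/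
def yN (b k j c : ℕ) : ℕ := b ^ (4 * (k + 1) * (2 * pc j c + 2 ^ c) + 1)

/-- intervals in base `B` -/
def Jv (B t A : ℕ) : Set ℝ := Icc ((A : ℝ) / (B : ℝ) ^ t) (((A : ℝ) + 1) / (B : ℝ) ^ t)

/-- the interval lies in `[1, 2]` -/
def Val (B t A : ℕ) : Prop := B ^ t ≤ A ∧ A + 1 ≤ 2 * B ^ t

/-- the orbit is under control up to the arrival number `n` -/
structure Live (a b k j : ℕ) (G : ℕ → ℝ → Prop) (cc yy : ℕ → ℝ → ℝ) (c n : ℕ) (s : ℝ) : Prop where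
  rng : ∀ r ≤ n, G r s ∧ (b : ℝ) * (BB b k : ℝ) ^ sl j c r ≤ |cc r s| ∧
    |cc r s| ≤ (b : ℝ) ^ (4 * k + 9) * (BB b k : ℝ) ^ sl j c r
  rat : ∀ r < n, 1 / (a : ℝ) ≤ yy r s ∧ yy r s ≤ 2 ∧
    (BB b k : ℝ) ^ pc j c * |cc r s| ≤ b * |cc (r + 1) s| ∧
    |cc (r + 1) s| ≤ b * ((BB b k : ℝ) ^ pc j c * |cc r s|)

/-- the steps of the orbits -/
structure McA (a b k j : ℕ) (G : ℕ × ℕ → ℕ → ℝ → Prop) (E : ℕ × ℕ → ℝ → Prop)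
    (cc th yy : ℕ × ℕ → ℕ → ℝ → ℝ) : Prop where
  ha : 4 ≤ a
  hb : 100 ≤ b
  hj : 1 ≤ j
  ini : ∀ c A, Val (BB b k) (pc j c) A → ∀ s ∈ Jv (BB b k) (pc j c) A, G (c, A) 0 s ∧
    (b : ℝ) ^ 2 * (BB b k : ℝ) ^ sl j c 0 ≤ |cc (c, A) 0 s| ∧
    |cc (c, A) 0 s| ≤ (b : ℝ) ^ 4 * (BB b k : ℝ) ^ sl j c 0
  up : ∀ i n s, G i n s → |yy i n s - 3 / (2 * a)| ≤ 3 / (10 * a) → G i (n + 1) s ∧
    (BB b k : ℝ) ^ pc j i.1 * |cc i n s| ≤ |cc i (n + 1) s| ∧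
    |cc i (n + 1) s| ≤ b * ((BB b k : ℝ) ^ pc j i.1 * |cc i n s|)
  dn : ∀ i n s, G i n s → |yy i n s - 3 / 2| ≤ 3 / (10 * a) → G i (n + 1) s ∧
    (BB b k : ℝ) ^ pc j i.1 * |cc i n s| ≤ b * |cc i (n + 1) s| ∧
    |cc i (n + 1) s| ≤ (BB b k : ℝ) ^ pc j i.1 * |cc i n s|
  esc : ∀ i n s, G i n s → yy i n s ≤ -(1 / 2) → E i s
  fam : ∀ i n s₁ s₂, s₁ < s₂ → (∀ s ∈ Icc s₁ s₂, G i n s) →
    (∃ s ∈ Icc s₁ s₂, |th i n s₂ - th i n s₁| = |cc i n s| * (s₂ - s₁)) ∧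
    (∀ hi, (∀ s ∈ Icc s₁ s₂, |cc i n s| ≤ hi) → ∀ s ∈ Icc s₁ s₂, ∀ s' ∈ Icc s₁ s₂,
      |yy i n s - yy i n s'| ≤ b / a * hi * |s - s'|) ∧
    ∀ lo Y, (∀ s ∈ Icc s₁ s₂, lo ≤ |cc i n s|) → 100 ≤ lo * (s₂ - s₁) → -(99 / 100) ≤ Y → Y ≤ 8 →
      ∃ s ∈ Icc s₁ s₂, yy i n s = Y

/-- bounded distortion on the intervals of the schedule -/
def McB (a b k j : ℕ) (G : ℕ × ℕ → ℕ → ℝ → Prop) (cc yy : ℕ × ℕ → ℕ → ℝ → ℝ) : Prop :=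
  ∀ c A n A', Val (BB b k) (pc j c) A → Jv (BB b k) (sl j c n) A' ⊆ Jv (BB b k) (pc j c) A →
    (∀ σ ∈ Jv (BB b k) (sl j c n) A', Live a b k j (G (c, A)) (cc (c, A)) (yy (c, A)) c n σ) →
    ∀ s ∈ Jv (BB b k) (sl j c n) A', ∀ s' ∈ Jv (BB b k) (sl j c n) A',
      |cc (c, A) n s| ≤ (b : ℝ) ^ (2 * k + 2) * |cc (c, A) n s'|

/-- the arrival times and the energies are computable -/
def McC (G : ℕ × ℕ → ℕ → ℝ → Prop) (th yy : ℕ × ℕ → ℕ → ℝ → ℝ) : Prop :=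
  CF {x : (ℕ × ℕ) × ℕ × ℤ × ℕ | G x.1 x.2.1 (frac x.2.2)} (fun x => th x.1 x.2.1 (frac x.2.2)) ∧
    CF {x : (ℕ × ℕ) × ℕ × ℤ × ℕ | G x.1 x.2.1 (frac x.2.2)} fun x => yy x.1 x.2.1 (frac x.2.2)

/-- the test that selects the next interval -/
def Tst (a b k : ℕ) (th yy : ℝ → ℝ) (f : Prop) (t A A' : ℕ) : Prop :=
  (BB b k * A ≤ A' ∧ A' < BB b k * (A + 1)) ∧
    (f → |yy (A' / (BB b k : ℝ) ^ (t + 1)) + 3 / 4| < 1 / (5 * a)) ∧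
    (¬f → (|th ((A + 1) / (BB b k : ℝ) ^ t) - th (A / (BB b k : ℝ) ^ t)| < (b : ℝ) ^ (2 * k + 5) + 1 ∧
        |yy (A' / (BB b k : ℝ) ^ (t + 1)) - 3 / (2 * a)| < 1 / (5 * a)) ∨
      ((b : ℝ) ^ (2 * k + 5) - 1 < |th ((A + 1) / (BB b k : ℝ) ^ t) - th (A / (BB b k : ℝ) ^ t)| ∧
        |yy (A' / (BB b k : ℝ) ^ (t + 1)) - 3 / 2| < 1 / (5 * a)))

/-- the amplitude of the class `c` -/
noncomputable def rh (κ b k j c : ℕ) : ℝ := κ * (1 / (LL b k j c : ℝ)) ^ 4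

/-- the orbit with index `i` for the mass scale `s` -/
noncomputable def orb (Y : ℝ → St → ℝ → St) (μ : ℝ) (κ b k j : ℕ) (i : ℕ × ℕ) (s : ℝ) : ℝ → St :=
  Y μ (ini (rh κ b k j i.1) ((yN b k j i.1 : ℝ) ^ 2) (i.2 / (BB b k : ℝ) ^ pc j i.1) s)

/-- a variation with a given initial value -/
noncomputable def vr (μ : ℝ) (u : ℝ → St) (p : St) : ℝ → St :=
  Classical.epsilon fun x => Var μ u x ∧ x 0 = p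

/-- the derivative of the orbit in the mass scale -/
noncomputable def orv (Y : ℝ → St → ℝ → St) (μ : ℝ) (κ b k j : ℕ) (i : ℕ × ℕ) (s : ℝ) : ℝ → St :=
  vr μ (orb Y μ κ b k j i s)
    (ini' (rh κ b k j i.1) ((yN b k j i.1 : ℝ) ^ 2) (i.2 / (BB b k : ℝ) ^ pc j i.1) s)

/-- the orbit with index `i` has reached its arrival number `n` -/
def GG (Y : ℝ → St → ℝ → St) (μ : ℝ) (κ b k j : ℕ) (i : ℕ × ℕ) (n : ℕ) (s : ℝ) : Prop :=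
  Val (BB b k) (pc j i.1) i.2 ∧ s ∈ Icc (1 : ℝ) 2 ∧
    Gd μ (1 / (LL b k j i.1 : ℝ)) (rh κ b k j i.1) (10 * (yN b k j i.1 : ℝ) ^ 2)
      (orb Y μ κ b k j i s) (orv Y μ κ b k j i s) n

/-- the sensitivity of the arrival time -/
noncomputable def oc (Y : ℝ → St → ℝ → St) (μ : ℝ) (κ b k j : ℕ) (i : ℕ × ℕ) (n : ℕ) (s : ℝ) : ℝ :=
  cs (orb Y μ κ b k j i s) (orv Y μ κ b k j i s) (2 * n + 1)

/-- the arrival time -/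
noncomputable def ot (Y : ℝ → St → ℝ → St) (μ : ℝ) (κ b k j : ℕ) (i : ℕ × ℕ) (n : ℕ) (s : ℝ) : ℝ :=
  cr (zz (orb Y μ κ b k j i s)) (2 * n + 1)

/-- the energy of the departure -/
noncomputable def oy (Y : ℝ → St → ℝ → St) (μ : ℝ) (κ b k j : ℕ) (i : ℕ × ℕ) (n : ℕ) (s : ℝ) : ℝ :=
  yo (1 / (LL b k j i.1 : ℝ)) (rh κ b k j i.1) (orb Y μ κ b k j i s) n

/-- the choice of all constants -/
structure Cfg (Y : ℝ → St → ℝ → St) (μ K C : ℝ) (m ω n : ℂ) (κ a b k j : ℕ) : Prop where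
  fl : Fl Y
  cr : CR μ
  pos : 0 < μ
  le : μ ≤ 1 / 10 ^ 8
  hκ : 1 ≤ κ
  ha : 4 ≤ a
  hb : 10 ^ 4 ≤ b
  hK : 18 * K ^ 2 * a ≤ b
  hj : 5 ≤ j
  hρ : ∀ c, rh κ b k j c ≤ 1
  an : ∀ c, An μ K C m ω n a b k (1 / (LL b k j c : ℝ)) (rh κ b k j c)
  fam : ∀ i, Fam μ (orb Y μ κ b k j i) (orv Y μ κ b k j i)
  v0 : ∀ i s, orv Y μ κ b k j i s 0 =
    ini' (rh κ b k j i.1) ((yN b k j i.1 : ℝ) ^ 2) (i.2 / (BB b k : ℝ) ^ pc j i.1) s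

/-- the initial configuration of the three bodies -/
def pt (r V Z : ℝ) : Conf 3 × Conf 3 :=
  (![![r, 0, 0], ![-r, 0, 0], ![0, 0, Z]], ![![0, V, 0], ![0, -V, 0], ![0, 0, 0]])

-- deps:
def S_FLOW : Prop := ∃ Y, Fl Y

-- deps:
def S_CNT : Prop := ∀ (α : Type) [Primcodable α] (S : Set α) (Z : α → ℝ → ℝ) (k : α → ℕ),
  Computable k → (∀ a ∈ S, Continuous (Z a) ∧ Alt (Z a) (k a)) →
  CF {y : α × ℤ × ℕ | y.1 ∈ S ∧ 0 ≤ frac y.2} (fun y => Z y.1 (frac y.2)) →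
  CF S fun a => cr (Z a) (k a)

-- deps:
def S_FZ : Prop := ∀ (α : Type) [Primcodable α] (S : Set α) (φ : α → ℝ → ℝ) (τ : α → ℝ) (L : ℕ),
  (∀ a ∈ S, 0 ≤ τ a ∧ (∀ s t, |φ a t - φ a s| ≤ L * |t - s|) ∧ (∀ t ∈ Ico 0 (τ a), 0 < φ a t) ∧
    ∀ δ, 0 < δ → ∃ t ∈ Ioo (τ a) (τ a + δ), φ a t < 0) →
  CF {y : α × ℤ × ℕ | y.1 ∈ S ∧ 0 ≤ frac y.2} (fun y => φ y.1 (frac y.2)) → CF S τ

-- deps:
def S_ROOT : Prop := ∀ (D : ℝ → ℝ) (A B x y : ℝ), ContinuousOn D (Icc A B) →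
  CF {q : ℤ × ℕ | frac q ∈ Icc A B} (fun q => D (frac q)) → x ∈ Icc A B → y ∈ Icc A B → D x < 0 →
  0 < D y → ∃ μ ∈ Icc A B, D μ = 0 ∧ CR μ

-- deps: HITC REF CAU LIM CNT
def S_LIMC : Prop := ∀ Y, Fl Y → ∃ K₀ C : ℝ, ∀ A B : ℝ, 0 < A → A ≤ B → B ≤ 1 / 10 ^ 8 → C * B ≤ 1 →
  ∃ x : ℝ → St, Continuous x ∧ CS {q : ℤ × ℕ | frac q ∈ Icc A B} (fun q => x (frac q)) ∧
    ∀ μ ∈ Icc A B, Tail μ K₀ (Y μ (x μ))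

-- deps: NZC EXCF MIDS FZ
def S_APEX : Prop := ∀ Y, Fl Y → ∀ (K₀ A B : ℝ) (x : ℝ → St), Continuous x →
  CS {q : ℤ × ℕ | frac q ∈ Icc A B} (fun q => x (frac q)) → (∀ μ ∈ Icc A B, Tail μ K₀ (Y μ (x μ))) →
  ∃ tp : ℝ → ℝ, ContinuousOn tp (Icc A B) ∧
    CF {q : ℤ × ℕ | frac q ∈ Icc A B} (fun q => tp (frac q)) ∧
    ∀ μ ∈ Icc A B, ∃ η T, Exc μ (fp (Y μ (x μ))) η 0 (tp μ) T ∧ μ / 100 ≤ η ^ 2 ∧
      η ^ 2 ≤ 4000 * μ ∧ (bb (Y μ (x μ)) (tp μ)).im ≤ -(μ / 5)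

-- deps: EXCF SYM ROOT LIMC APEX
def S_HOM : Prop := ∀ Y, Fl Y → ∃ K₀, ∀ C : ℝ, ∃ μ h T, CR μ ∧ C * μ ≤ 1 ∧ Hom μ K₀ h T

-- deps: VEX AN HOM
def S_CFG : Prop := ∀ Y, Fl Y → ∃ μ K C m ω n κ a b k j, Cfg Y μ K C m ω n κ a b k j

-- deps: FAMS
def S_MCA : Prop := ∀ Y μ K C m ω n κ a b k j, Cfg Y μ K C m ω n κ a b k j →
  McA a b k j (GG Y μ κ b k j) (fun i s => Esc μ (orb Y μ κ b k j i s)) (oc Y μ κ b k j)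
    (ot Y μ κ b k j) (oy Y μ κ b k j)

-- deps: MCA
def S_MCB : Prop := ∀ Y μ K C m ω n κ a b k j, Cfg Y μ K C m ω n κ a b k j →
  McB a b k j (GG Y μ κ b k j) (oc Y μ κ b k j) (oy Y μ κ b k j)

-- deps: CNT
def S_MCC : Prop := ∀ Y μ K C m ω n κ a b k j, Cfg Y μ K C m ω n κ a b k j →
  McC (GG Y μ κ b k j) (ot Y μ κ b k j) (oy Y μ κ b k j)

-- deps:
def S_MSTEP : Prop := ∀ a b k j G E cc th yy, McA a b k j G E cc th yy → McB a b k j G cc yy →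
  ∀ (c A₀ n A : ℕ) (f : Prop), Val (BB b k) (pc j c) A₀ →
    Jv (BB b k) (sl j c n) A ⊆ Jv (BB b k) (pc j c) A₀ →
    (∀ σ ∈ Jv (BB b k) (sl j c n) A, Live a b k j (G (c, A₀)) (cc (c, A₀)) (yy (c, A₀)) c n σ) →
    (∃ A', Tst a b k (th (c, A₀) n) (yy (c, A₀) n) f (sl j c n) A A') ∧
    ∀ A', Tst a b k (th (c, A₀) n) (yy (c, A₀) n) f (sl j c n) A A' →
      ∀ s ∈ Jv (BB b k) (sl j c n + 1) A', (f → E (c, A₀) s) ∧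
        (¬f → Live a b k j (G (c, A₀)) (cc (c, A₀)) (yy (c, A₀)) c (n + 1) s)

-- deps:
def S_MRE : Prop := ∀ (a b k j : ℕ) G th yy (en : ℕ → ℕ), 1 ≤ a → 1 ≤ b → McC G th yy → Primrec en →
  REon {x : (ℕ × ℕ) × ℕ × ℕ × ℕ | ∀ σ ∈ Jv (BB b k) (sl j x.1.1 x.2.1) x.2.2.1, G x.1 x.2.1 σ}
    fun x => Tst a b k (th x.1 x.2.1) (yy x.1 x.2.1) (∃ l < x.2.1, en l = x.1.1)
      (sl j x.1.1 x.2.1) x.2.2.1 x.2.2.2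

-- deps: MSTEP MRE
def S_MACH : Prop := ∀ a b k j G E cc th yy (en : ℕ → ℕ), McA a b k j G E cc th yy →
  McB a b k j G cc yy → McC G th yy → Primrec en →
  ∃ A : ℕ → ℕ, Computable A ∧ ∃ s, CR s ∧ s ∈ Icc (1 : ℝ) 2 ∧ ∀ c, 1 ≤ A (pc j c) ∧
    ((∃ l, en l = c) → E (c, A (pc j c)) s) ∧ ((¬∃ l, en l = c) → ∀ n, G (c, A (pc j c)) n s)

-- deps:
def S_PHYS : Prop := ∀ (μ s c x₀ z₀ : ℝ) (u : ℝ → St), Glob μ u → 0 < s → 0 < c →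
  (∀ t, 0 ≤ t → Adm μ (u t)) → u 0 = ((x₀ : ℂ), z₀, 0) →
  ∃ (q v : ℝ → Conf 3) (θ : ℝ → ℝ),
    (∀ T, 0 ≤ T → IsSol ![1 / (2 * s), 1 / (2 * s), μ / s] T q v) ∧
    (q 0, v 0) = pt (8 * c ^ 2 * s / (1 + x₀)) ((1 + x₀) / (8 * c * s)) (8 * c ^ 2 * s * z₀) ∧
    (∀ t, 0 ≤ t → 0 ≤ θ t) ∧ Tendsto θ atTop atTop ∧ ∀ t, 0 ≤ t →
      q t 2 2 = 8 * c ^ 2 * s * (μ * z₀ + (u (θ t)).2.1) / (1 + μ) ∧
      ∀ i k, |q t i k| ≤ 8 * c ^ 2 * s * (2 + |z₀| + |(u (θ t)).2.1|)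

-- deps:
def S_QPT : Prop := ∃ P : (ℕ × ℕ) × (ℕ × ℕ) × ℕ × ℕ → QPt 3, Primrec P ∧
  ∀ n₁ d₁ n₂ d₂ n₃ d₃ : ℕ, 1 ≤ d₁ → 1 ≤ d₂ → 1 ≤ d₃ →
    (P ((n₁, d₁), (n₂, d₂), n₃, d₃)).val = pt (n₁ / d₁) (n₂ / d₂) (n₃ / d₃)

-- deps: FLOW CFG MCA MCB MCC MACH PHYS QPT
def S_MAIN : Prop := ∃ m : Fin 3 → ℝ, (∀ i, 0 < m i ∧ CompReal (m i)) ∧ ∃ U : TM, U.Universal ∧
  ∃ p : U.Inp → QPt 3, Computable p ∧ (∀ d d', U.tape d = U.tape d' → p d = p d') ∧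
    ∀ d, NoColl (p d).val.1 ∧
      (∃ q v : ℝ → Conf 3, (∀ T, 0 ≤ T → IsSol m T q v) ∧ (q 0, v 0) = (p d).val ∧
        (U.Halts d → Tendsto (fun t => q t 2 2) atTop atTop) ∧
        (¬U.Halts d → ∀ t, 0 ≤ t → ∀ i k, |q t i k| < 1)) ∧
      (U.Halts d ↔ Meets m (p d).val {x | 1 < x.1 2 2})

end Pool.Agent.P.MP_9ae58c_an.B
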