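import Pool.Agent.P.MP_9ae58c_an.B.IfA

section

/-! Step TAY. -/

namespace Pool.Agent.P.MP_9ae58c_an.B

open Set Filter Topology Complex

namespace TAY

/-- bounds with the constant `K` -/
def CK (K : ℝ) (D : St → St → ℝ) (n : ℕ) (F : ℝ → St → St → ℝ) : Prop :=
  ∀ μ ∈ Icc (0 : ℝ) 1, ∀ p q ξ, Reg p → Reg q →
    |F μ p ξ| ≤ K * ‖ξ‖ ^ n ∧ |F μ p ξ - F μ q ξ| ≤ K * |D p q| * ‖ξ‖ ^ n

/-- bounded functions with controlled increments -/
def CC (D : St → St → ℝ) (n : ℕ) (F : ℝ → St → St → ℝ) : Prop := ∃ K, 0 ≤ K ∧ CK K D n F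

variable {D : St → St → ℝ} {n : ℕ} {F G : ℝ → St → St → ℝ}

theorem CC.ev (h : CC D n F) : ∀ᶠ K in atTop, CK K D n F := by
  obtain ⟨K, -, h⟩ := h
  filter_upwards [eventually_ge_atTop K] with L e μ hμ p q ξ hp hq
  obtain ⟨a, b⟩ := h μ hμ p q ξ hp hq
  exact ⟨a.trans (by gcongr), b.trans (by gcongr)⟩

theorem CC.congr (h : CC D n F) (e : ∀ μ p ξ, G μ p ξ = F μ p ξ) : CC D n G := by
  obtain rfl : G = F := by funext μ p ξ; exact e μ p ξ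
  exact h

theorem CC.add (h : CC D n F) (h' : CC D n G) : CC D n fun μ p ξ => F μ p ξ + G μ p ξ := by
  obtain ⟨K, k, h⟩ := h
  obtain ⟨L, l, h'⟩ := h'
  refine ⟨K + L, by positivity, fun μ hμ p q ξ hp hq => ?_⟩
  obtain ⟨a, b⟩ := h μ hμ p q ξ hp hq
  obtain ⟨c, d⟩ := h' μ hμ p q ξ hp hq
  refine ⟨(abs_add_le _ _).trans (by linarith), ?_⟩
  rw [add_sub_add_comm]
  exact (abs_add_le _ _).trans (by linarith)

theorem CC.mul (h : CC D 0 F) (h' : CC D n G) : CC D n fun μ p ξ => F μ p ξ * G μ p ξ := by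
  obtain ⟨K, k, h⟩ := h
  obtain ⟨L, l, h'⟩ := h'
  refine ⟨2 * K * L, by positivity, fun μ hμ p q ξ hp hq => ?_⟩
  obtain ⟨a, b⟩ := h μ hμ p q ξ hp hq
  obtain ⟨c, d⟩ := h' μ hμ p q ξ hp hq
  have c' := (h' μ hμ q q ξ hq hq).1
  rw [pow_zero, mul_one] at a b
  have e1 : |F μ p ξ| * |G μ p ξ| ≤ K * (L * ‖ξ‖ ^ n) := by gcongr
  have e2 : |F μ p ξ| * |G μ p ξ - G μ q ξ| ≤ K * (L * |D p q| * ‖ξ‖ ^ n) := by gcongr
  have e3 : |F μ p ξ - F μ q ξ| * |G μ q ξ| ≤ K * |D p q| * (L * ‖ξ‖ ^ n) := by gcongr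
  have e4 : 0 ≤ K * (L * ‖ξ‖ ^ n) := by positivity
  refine ⟨by rw [abs_mul]; linarith, ?_⟩
  rw [show F μ p ξ * G μ p ξ - F μ q ξ * G μ q ξ =
    F μ p ξ * (G μ p ξ - G μ q ξ) + (F μ p ξ - F μ q ξ) * G μ q ξ by ring]
  refine (abs_add_le _ _).trans ?_
  rw [abs_mul, abs_mul]
  linarith

theorem of_fix {f : ℝ → St → ℝ} (K : ℝ) (h : ∀ μ ∈ Icc (0 : ℝ) 1, ∀ ξ, |f μ ξ| ≤ |K| * ‖ξ‖ ^ n) :
    CC D n fun μ _ ξ => f μ ξ :=
  ⟨|K|, abs_nonneg K, fun μ hμ _ _ ξ _ _ => ⟨h μ hμ ξ, by rw [sub_self, abs_zero]; positivity⟩⟩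

theorem cst (c : ℝ) : CC D 0 fun _ _ _ => c := of_fix c fun _ _ _ => by simp

theorem cmu : CC D 0 fun μ _ _ => μ := of_fix 1 fun μ hμ _ => by simpa [abs_of_nonneg hμ.1] using hμ.2

theorem x1 : CC D 1 fun _ _ ξ => ξ.1.re :=
  of_fix 1 fun _ _ ξ => by simpa using (abs_re_le_norm _).trans (n1 ξ)

theorem x2 : CC D 1 fun _ _ ξ => ξ.2.1 := of_fix 1 fun _ _ ξ => by simpa using n2 ξ

theorem x3 : CC D 1 fun _ _ ξ => ξ.2.2 := of_fix 1 fun _ _ ξ => by simpa using n3 ξ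

theorem CC.cm (h : CC D n F) (c : ℝ) : CC D n fun μ p ξ => c * F μ p ξ := (cst c).mul h

theorem CC.sub (h : CC D n F) (h' : CC D n G) : CC D n fun μ p ξ => F μ p ξ - G μ p ξ :=
  (h.add (h'.cm (-1))).congr fun _ _ _ => by ring

theorem CC.pow (h : CC D 0 F) (k : ℕ) : CC D 0 fun μ p ξ => F μ p ξ ^ k := by
  induction k with
  | zero => exact (cst 1).congr fun _ _ _ => pow_zero _
  | succ k ih => exact (h.mul ih).congr fun _ _ _ => pow_succ' _ _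

theorem CC.mm (h : CC D n F) : CC D n fun μ p ξ => (1 + μ) * F μ p ξ := ((cst 1).add cmu).mul h

/-- the generators -/
structure Gen (D : St → St → ℝ) : Prop where
  r : CC D 0 fun _ p _ => rr p
  W : CC D 0 fun _ p _ => WW p
  y : CC D 0 fun _ p _ => p.2.1 * WW p
  v : CC D 0 fun _ p _ => p.2.2

theorem Gen.dW (h : Gen D) : CC D 1 fun _ p ξ => dW p ξ :=
  (((h.r.pow 3).mul ((h.W.pow 3).mul x1)).sub (h.y.mul ((h.W.pow 2).mul x2))).congr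
    fun _ _ _ => by rw [B.dW]; ring

theorem Gen.dy (h : Gen D) : CC D 1 fun _ p ξ => ξ.2.1 * WW p + p.2.1 * B.dW p ξ :=
  ((h.W.mul x2).add (h.y.mul (((h.r.pow 3).mul ((h.W.pow 2).mul x1)).sub
    (h.y.mul (h.W.mul x2))))).congr fun _ _ _ => by rw [B.dW]; ring

theorem Gen.dg (h : Gen D) : CC D 1 fun _ p ξ => dg p ξ :=
  ((((h.r.pow 3).mul ((h.W.pow 2).mul h.dW)).sub ((h.r.pow 4).mul ((h.W.pow 3).mul x1))).cm
    24).congr fun _ _ _ => by rw [B.dg]; ring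

theorem Gen.de (h : Gen D) : CC D 1 de :=
  ((h.dW.mm.cm 16).sub ((h.v.mul x3).cm 2)).congr fun _ _ _ => by rw [B.de]; ring

theorem Gen.l2 (h : Gen D) : CC D 1 fun μ p ξ => (lin μ p ξ).2.1 :=
  (((h.r.pow 2).mul x3).sub (((h.r.pow 3).mul (h.v.mul x1)).cm 2)).congr
    fun _ _ _ => by simp only [lin]; ring

theorem Gen.l3 (h : Gen D) : CC D 1 fun μ p ξ => (lin μ p ξ).2.2 :=
  (((((h.r.pow 2).mul ((h.W.pow 3).mul x2)).sub
    (((h.r.pow 3).mul (h.y.mul ((h.W.pow 2).mul x1))).cm 2)).add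
    (((h.r.pow 2).mul (h.y.mul (h.W.mul h.dW))).cm 3)).mm.cm (-8)).congr
    fun _ _ _ => by simp only [lin]; ring

theorem Gen.g (h : Gen D) : CC D 0 fun μ p _ => μ * gg p :=
  (cmu.mul (((h.r.pow 3).mul (h.W.pow 3)).cm 8)).congr fun _ _ _ => by rw [gg]; ring

theorem Gen.f2 (h : Gen D) : CC D 0 fun μ p _ => (fld μ p).2.1 := (h.r.pow 2).mul h.v

theorem Gen.f3 (h : Gen D) : CC D 0 fun μ p _ => (fld μ p).2.2 :=
  (((h.r.pow 2).mul (h.y.mul (h.W.pow 2))).mm.cm (-8)).congr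
    fun _ _ _ => by simp only [fld]; ring

theorem of_bd {f : St → ℝ} (K : ℝ) (h : ∀ p, Reg p → |f p| ≤ K) :
    CC (fun _ _ => 2) 0 fun _ p _ => f p :=
  ⟨|K|, abs_nonneg K, fun _ _ p q _ hp hq => by
    have a := (h p hp).trans (le_abs_self K)
    have b := (h q hq).trans (le_abs_self K)
    refine ⟨by simpa using a, (abs_sub _ _).trans ?_⟩
    rw [abs_two]
    linarith⟩

theorem gen0 : Gen fun _ _ => 2 := by
  refine ⟨of_bd 2 fun p h => ?_, of_bd 2 fun p h => ?_, of_bd 1 fun p h => ?_,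
    of_bd 10 fun p h => h.2⟩
  · exact abs_le.2 ⟨by linarith [h.r.1], by linarith [h.r.2]⟩
  · exact abs_le.2 ⟨by linarith [h.W], by nlinarith [h.r.1, h.rW, h.W]⟩
  · rw [abs_mul, abs_of_pos h.W]; exact h.zW

theorem reg_seg {p q : St} (hp : Reg p) (hq : Reg q) {t : ℝ} (ht : t ∈ Icc (0 : ℝ) 1) :
    Reg (p + t • (q - p)) := by
  have e : p + t • (q - p) = (1 - t) • p + t • q := by module
  have h0 := ht.1
  have h1 := sub_nonneg.2 ht.2
  rw [e]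
  constructor
  · refine (norm_add_le _ _).trans ?_
    rw [Prod.smul_fst, Prod.smul_fst, norm_smul, norm_smul, Real.norm_of_nonneg h0,
      Real.norm_of_nonneg h1]
    nlinarith [hp.1, hq.1]
  · refine (abs_add_le _ _).trans ?_
    simp only [Prod.smul_snd, smul_eq_mul, abs_mul, abs_of_nonneg h0, abs_of_nonneg h1]
    nlinarith [hp.2, hq.2]

theorem d_seg (p h : St) (t : ℝ) : HasDerivAt (fun t : ℝ => p + t • h) h t := by
  simpa using ((hasDerivAt_id t).smul_const h).const_add p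

variable {E : Type} [NormedAddCommGroup E] [NormedSpace ℝ E] {f : St → E} {df : St → St → E} {K : ℝ}
  {p q : St}

theorem seg1 (hf : ∀ (u : ℝ → St) ξ t, Reg (u t) → HasDerivAt u ξ t →
    HasDerivAt (fun t => f (u t)) (df (u t) ξ) t) (hb : ∀ p ξ, Reg p → ‖df p ξ‖ ≤ K * ‖ξ‖)
    (hp : Reg p) (hq : Reg q) : ‖f p - f q‖ ≤ K * ‖p - q‖ := by
  simpa using norm_sub_le_of (fun t ht => hf _ _ t (reg_seg hq hp ht) (d_seg q (p - q) t))
    (fun t _ => (hasDerivAt_id t).const_mul (K * ‖p - q‖))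
    (fun t ht => by simpa using hb _ _ (reg_seg hq hp ht)) 1 ⟨zero_le_one, le_rfl⟩

theorem seg2 (hf : ∀ (u : ℝ → St) ξ t, Reg (u t) → HasDerivAt u ξ t →
    HasDerivAt (fun t => f (u t)) (df (u t) ξ) t) (hK : 0 ≤ K)
    (hb : ∀ p q ξ, Reg p → Reg q → ‖df p ξ - df q ξ‖ ≤ K * ‖p - q‖ * ‖ξ‖)
    (hp : Reg p) (hq : Reg q) : ‖f q - f p - df p (q - p)‖ ≤ K * ‖q - p‖ ^ 2 := by
  have := norm_sub_le_of (fun t ht => (hf _ _ t (reg_seg hp hq ht) (d_seg p (q - p) t)).fun_sub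
      ((hasDerivAt_id t).smul_const (df p (q - p))))
    (fun t _ => (hasDerivAt_id t).const_mul (K * ‖q - p‖ ^ 2))
    (fun t ht => by
      rw [one_smul, mul_one]
      refine (hb _ _ _ (reg_seg hp hq ht) hp).trans ?_
      rw [add_sub_cancel_left, norm_smul, Real.norm_of_nonneg ht.1]
      nlinarith [mul_nonneg (mul_nonneg hK (sq_nonneg ‖q - p‖)) (sub_nonneg.2 ht.2)]) 1 ⟨zero_le_one, le_rfl⟩
  simpa [sub_right_comm] using this

theorem of_der {f : St → ℝ} {df : St → St → ℝ} (hf : ∀ (u : ℝ → St) ξ t, Reg (u t) →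
    HasDerivAt u ξ t → HasDerivAt (fun t => f (u t)) (df (u t) ξ) t)
    (h : CC D 0 fun _ p _ => f p) (h' : CC D 1 fun _ p ξ => df p ξ) :
    CC (fun p q => ‖p - q‖) 0 fun _ p _ => f p := by
  obtain ⟨K, ⟨a, b⟩, k⟩ := ((h.ev.and h'.ev).and (eventually_ge_atTop 0)).exists
  refine ⟨K, k, fun μ hμ p q ξ hp hq => ⟨(a μ hμ p q ξ hp hq).1, ?_⟩⟩
  simpa using seg1 hf (fun p ξ hp => by simpa using (b μ hμ p p ξ hp hp).1) hp hq

theorem gen1 : Gen fun p q => ‖p - q‖ :=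
  ⟨of_der (df := fun p ξ => -(rr p ^ 2 * ξ.1.re)) (fun _ _ _ => drr) gen0.r
      ((((gen0.r.pow 2).mul x1).cm (-1)).congr fun _ _ _ => by ring),
    of_der (fun _ _ _ => dWW) gen0.W gen0.dW,
    of_der (fun _ _ _ hp h => (d2 h).fun_mul (dWW hp h)) gen0.y gen0.dy,
    of_der (df := fun _ ξ => ξ.2.2) (fun _ _ _ _ => d3) gen0.v x3⟩

end TAY

open TAY in
theorem p_TAY :
    S_TAY := by
  obtain ⟨L, ⟨⟨⟨a1, a2⟩, a3, a4⟩, ⟨a5, a6⟩, a7, a8⟩, hL⟩ :=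
    (((((gen1.g.cm 2).ev.and gen1.f2.ev).and (gen1.f3.ev.and ((cmu.mul gen1.dg).cm 2).ev)).and
      ((gen1.l2.ev.and gen1.l3.ev).and (gen1.dg.ev.and gen1.de.ev))).and
      (eventually_ge_atTop 2)).exists
  simp only [CK, pow_zero, pow_one, mul_one, abs_norm] at a1 a2 a3 a4 a5 a6 a7 a8
  have l0 : ∀ μ ∈ Icc (0 : ℝ) 1, ∀ p ξ, Reg p → ‖lin μ p ξ‖ ≤ L * ‖ξ‖ := fun μ hμ p ξ hp => by
    refine norm_le_of ?_ (a5 μ hμ p p ξ hp hp).1 (a6 μ hμ p p ξ hp hp).1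
    have := (a4 μ hμ p p ξ hp hp).1
    rw [abs_mul, abs_two] at this
    simp only [lin, norm_mul, norm_I, one_mul]
    refine (norm_sub_le _ _).trans ?_
    rw [norm_real, Real.norm_eq_abs]
    nlinarith [n1 ξ, norm_nonneg ξ]
  have l1 : ∀ μ ∈ Icc (0 : ℝ) 1, ∀ p q ξ, Reg p → Reg q →
      ‖lin μ p ξ - lin μ q ξ‖ ≤ L * ‖p - q‖ * ‖ξ‖ := fun μ hμ p q ξ hp hq => by
    refine norm_le_of ?_ (a5 μ hμ p q ξ hp hq).2 (a6 μ hμ p q ξ hp hq).2
    have := (a4 μ hμ p q ξ hp hq).2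
    rw [← mul_sub, abs_mul, abs_two] at this
    simp only [lin, Prod.fst_sub, ← mul_sub, norm_mul, norm_I, one_mul, sub_sub_sub_cancel_left]
    rw [← ofReal_sub, norm_real, Real.norm_eq_abs, abs_sub_comm]
    linarith [abs_nonneg (μ * dg p ξ - μ * dg q ξ)]
  refine ⟨L, by linarith, fun μ hμ p hp => ?_, l0,
    fun μ hμ p q hp hq => seg1 (fun _ _ _ => dfld) (l0 μ hμ) hp hq, l1,
    fun μ hμ p q hp hq => seg2 (fun _ _ _ => dfld) (by linarith) (l1 μ hμ) hp hq,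
    fun p ξ hp => (a7 0 ⟨le_rfl, zero_le_one⟩ p p ξ hp hp).1,
    fun μ hμ p q ξ hp hq => (a8 μ hμ p q ξ hp hq).2,
    fun μ hμ p q hp hq => seg2 (E := ℝ) (fun _ _ _ => deps) (by linarith)
      (fun p q ξ hp hq => (a8 μ hμ p q ξ hp hq).2) hp hq⟩
  refine norm_le_of ?_ (a2 μ hμ p p 0 hp hp).1 (a3 μ hμ p p 0 hp hp).1
  have := (a1 μ hμ p p 0 hp hp).1
  rw [abs_mul, abs_two] at this
  simp only [fld, norm_mul, norm_I, one_mul]
  refine (norm_sub_le _ _).trans ?_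
  rw [norm_real, Real.norm_eq_abs]
  linarith [hp.1]

end Pool.Agent.P.MP_9ae58c_an.B

end

section

/-! Step GRON. -/

namespace Pool.Agent.P.MP_9ae58c_an.B

open Set Filter Topology Complex

theorem GRON_fwd {f f' : ℝ → St} {a b L F : ℝ} (hL : 1 ≤ L) (hF : 0 ≤ F)
    (hf : ∀ t ∈ Icc a b, HasDerivAt f (f' t) t) (h : ∀ t ∈ Icc a b, ‖f' t‖ ≤ L * ‖f t‖ + F) :
    ∀ t ∈ Icc a b, ‖f t‖ ≤ Real.exp (L * (t - a)) * (‖f a‖ + F) := by
  intro t ht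
  have h1 := norm_le_gronwallBound_of_norm_deriv_right_le (contOn_of hf)
    (fun u hu => (hf u (Ico_subset_Icc_self hu)).hasDerivWithinAt) le_rfl
    (fun u hu => h u (Ico_subset_Icc_self hu)) t ht
  rw [gronwallBound_of_K_ne_0 (by linarith)] at h1
  have h2 : F / L ≤ F := div_le_self hF hL
  have h3 : 0 ≤ F / L := div_nonneg hF (by linarith)
  have h4 := Real.exp_pos (L * (t - a))
  have h5 := mul_le_mul_of_nonneg_right h2 h4.le
  simp only at h1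
  nlinarith

theorem p_GRON :
    S_GRON := by
  intro L hL μ hμ u a b hR x F a' b' ha hb hF hx s hs t ht
  choose! φ hφ using hx
  have hd : ∀ r ∈ Icc a' b', HasDerivAt x (lin μ (u r) (x r) + φ r) r := fun r hr => (hφ r hr).1
  have hn : ∀ r ∈ Icc a' b', ‖lin μ (u r) (x r) + φ r‖ ≤ L * ‖x r‖ + F := fun r hr =>
    (norm_add_le _ _).trans (add_le_add
      (hL.l0 μ hμ _ _ (hR r ⟨ha.trans hr.1, hr.2.trans hb⟩)) (hφ r hr).2)
  have key : ∀ d, d ≤ b - a → ‖x t‖ ≤ Real.exp (L * d) * (‖x s‖ + F) →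
      ‖x t‖ ≤ Real.exp (L * (b - a)) * (‖x s‖ + F) := fun d h1 h2 =>
    h2.trans (mul_le_mul_of_nonneg_right (Real.exp_le_exp.2
      (mul_le_mul_of_nonneg_left h1 (by linarith [hL.one]))) (by positivity))
  rcases le_total s t with hst | hst
  · have i : Icc s t ⊆ Icc a' b' := Icc_subset_Icc hs.1 ht.2
    exact key (t - s) (by linarith [hs.1, ht.2]) (GRON_fwd hL.one hF (fun r hr => hd r (i hr))
      (fun r hr => hn r (i hr)) t ⟨hst, le_rfl⟩)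
  · have i : Icc t s ⊆ Icc a' b' := Icc_subset_Icc ht.1 hs.2
    have := GRON_fwd hL.one hF (rev_der fun r hr => hd r (i hr))
      (fun r hr => by
        rw [norm_neg]
        exact hn _ (i ⟨by linarith [hr.2], by linarith [hr.1]⟩)) (-t) ⟨by linarith, le_rfl⟩
    simp only [neg_neg] at this
    exact key _ (by linarith [ht.1, hs.2]) this

end Pool.Agent.P.MP_9ae58c_an.B

end
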