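import Pool.Agent.P.MP_9ae58c_an.B.IfA

section

/-! Step OUT. -/

namespace Pool.Agent.P.MP_9ae58c_an.B

open Set Filter Topology Complex

theorem OUT_eps {μ K C E t : ℝ} {p : St} (m : 0 < μ) (m' : μ ≤ 1 / 10 ^ 8) (hC : C * μ ≤ 1)
    (c1 : 41 * K ^ 2 ≤ C) (c2 : 41 ≤ C) (t0 : 0 ≤ t) (ha : ‖p.1‖ ≤ K * μ / (1 + t))
    (hH : |Hh μ p| ≤ E) (hE : C * E * (1 + t) ≤ μ) (v0 : 0 ≤ p.2.2)
    (hv : 1 ≤ (1 + t) * p.2.2 ^ 3) : 0 < p.2.2 ∧ |eps μ p| < p.2.2 ^ 2 / 10 := by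
  have vp : 0 < p.2.2 := v0.lt_of_ne' fun e => by rw [e] at hv; norm_num at hv
  have T : 0 < 1 + t := by linarith
  have E0 : 0 ≤ E := (abs_nonneg _).trans hH
  have v2 : 1 ≤ (1 + t) * p.2.2 ^ 2 := by
    rcases le_total p.2.2 1 with e | e
    · have : p.2.2 ^ 3 ≤ p.2.2 ^ 2 := by nlinarith [sq_nonneg p.2.2]
      exact hv.trans (by gcongr)
    · nlinarith [one_le_pow₀ (n := 2) e]
  refine ⟨vp, ?_⟩
  have a1 : ‖p.1‖ * (1 + t) ≤ K * μ := by rwa [← le_div_iff₀ T]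
  have a2 : (‖p.1‖ * (1 + t)) ^ 2 ≤ (K * μ) ^ 2 := by gcongr
  have a3 : 41 * (‖p.1‖ ^ 2 * (1 + t)) ≤ μ := by
    have b1 : 41 * K ^ 2 * μ ≤ 1 := le_trans (by gcongr) hC
    have b2 : ‖p.1‖ ^ 2 * (1 + t) ≤ (‖p.1‖ * (1 + t)) ^ 2 := by
      nlinarith [mul_nonneg (sq_nonneg ‖p.1‖) (mul_nonneg t0 T.le)]
    nlinarith [mul_le_mul_of_nonneg_left b1 m.le]
  have a4 : 41 * (E * (1 + t)) ≤ μ := by
    nlinarith [mul_le_mul_of_nonneg_right c2 (mul_nonneg E0 T.le)]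
  have a5 : |‖p.1‖ ^ 2 - Hh μ p| ≤ ‖p.1‖ ^ 2 + E := by
    refine (abs_sub _ _).trans ?_
    rw [abs_of_nonneg (sq_nonneg _)]
    linarith
  have a6 : 41 * (|‖p.1‖ ^ 2 - Hh μ p| * (1 + t)) ≤ 2 * μ := by
    nlinarith [mul_le_mul_of_nonneg_right a5 T.le]
  have a7 : 41 * |‖p.1‖ ^ 2 - Hh μ p| ≤ 2 * μ * p.2.2 ^ 2 := by
    nlinarith [mul_le_mul_of_nonneg_right a6 (sq_nonneg p.2.2),
      mul_le_mul_of_nonneg_left v2 (abs_nonneg (‖p.1‖ ^ 2 - Hh μ p))]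
  rw [eps_eq m, abs_mul, abs_of_pos (by positivity), div_mul_eq_mul_div, div_lt_iff₀ m]
  nlinarith [mul_pos m (pow_pos vp 2), abs_nonneg (‖p.1‖ ^ 2 - Hh μ p),
    mul_le_mul_of_nonneg_right m' (abs_nonneg (‖p.1‖ ^ 2 - Hh μ p))]

theorem p_OUT (hADM : S_ADM) (hMKUP : S_MKUP) (hUPT : S_UPT) (hHOLD : S_HOLD) (hTP2 : S_TP2) :
    S_OUT := by
  intro K₀
  obtain ⟨C₁, hC₁, hT⟩ := hTP2 (K₀ + 400)
  have sq := sq_nonneg (K₀ + 1)
  refine ⟨41 * (K₀ + 1) ^ 2 + 2 * C₁ + 41, by linarith, ?_⟩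
  intro μ u h b d E hC hh hu z0 v0 a0 H0 hE hd hb hS
  set C := 41 * (K₀ + 1) ^ 2 + 2 * C₁ + 41 with eC
  have m := hu.pos
  have E0 : 0 ≤ E := (abs_nonneg _).trans H0
  have d0 : 0 ≤ d := (norm_nonneg _).trans hd
  have K0 : 0 ≤ K₀ := by
    have := (norm_nonneg _).trans (hh.dec 0 le_rfl)
    norm_num at this
    exact nonneg_of_mul_nonneg_left this m
  have base := (hHOLD μ u 0 hu z0 v0 a0 (H0.trans hE)).1
  simp only [zero_add] at base
  have sol : ∀ t, (∀ s ∈ Icc 0 t, 0 ≤ (u s).2.2) → Sol μ u 0 t := fun t hv =>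
    (hADM μ u 0 t hu a0 (H0.trans hE) (Or.inr ⟨z0.ge, hv⟩)).1
  have dec : ∀ s, 0 ≤ s → ‖(rev h 0 s).1‖ ≤ K₀ * μ / (1 + s) := fun s s0 => by
    have := hh.dec s s0
    simp only [rev, Rv_1, RCLike.norm_conj, zero_sub]
    refine this.trans ?_
    gcongr
    nlinarith
  have key : ∀ t, 2 ≤ t → t ≤ b → (∀ s ∈ Icc 0 t, 0 ≤ (u s).2.2 ∧
      ‖(u s).1‖ ≤ (K₀ + 400) * μ / (1 + s) ∧ |eps μ (u s)| ≤ (u s).2.2 ^ 2 / 10) →
      Up μ u 0 0 t ∧ (∀ s ∈ Icc 0 t, ‖(u s).1‖ ≤ (K₀ + 1) * μ / (1 + s)) ∧ 0 < (u t).2.2 ∧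
        |eps μ (u t)| < (u t).2.2 ^ 2 / 10 := fun t t2 tb hP => by
    have t0 : t ∈ Icc 0 t := ⟨by linarith, le_rfl⟩
    have S := sol t fun s hs => (hP s hs).1
    have z3 : 3 ≤ (u t).2.1 := by
      refine le_trans ((base 2 ⟨by norm_num, by norm_num⟩).2.2.2 (by norm_num)) ?_
      exact le_of_deriv (Φ := fun s => (u s).2.1) (fun s hs => d2 (S.der hs))
        (fun s hs => mul_nonneg (sq_nonneg _) (hP s hs).1) ⟨by norm_num, t2⟩ t0 t2
    have U := hMKUP μ u 0 0 t S t0.1 z0 (fun s hs => (hP s hs).1) z3 le_rfl zero_le_one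
      (by simpa using (hP t t0).2.2)
    have cl := (hT μ u (rev h 0) t E (le_trans (by gcongr; linarith) hC) U (hh.up t t2)
      (fun s hs => ⟨(hP s hs).2.1, (dec s hs.1).trans (by
        have := hs.1
        gcongr; linarith)⟩)
      (by simpa [rev, hh.H0] using H0) 0 ⟨le_rfl, t0.1⟩).1
    have A : ∀ s ∈ Icc 0 t, ‖(u s).1‖ ≤ (K₀ + 1) * μ / (1 + s) := fun s hs => by
      have s0 := hs.1
      have n := norm_le_insert' (u s).1 (rev h 0 s).1
      have e1 : 2 * d + C₁ * E ≤ C * (d + E) := by nlinarith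
      have e2 : C * (d + E) ≤ μ / (1 + s) := by
        rw [le_div_iff₀ (by linarith)]
        refine le_trans ?_ hS
        have : 0 ≤ C := by linarith
        gcongr
        linarith [hs.2]
      rw [add_mul, add_div, one_mul]
      linarith [cl s hs, dec s s0]
    have V := (hUPT μ u 0 0 t U t t0).1
    rw [sub_zero, zero_add] at V
    refine ⟨U, A, OUT_eps m hu.le hC (by linarith) (by linarith) t0.1 (A t t0) (E := E) ?_ ?_
      (hP t t0).1 V⟩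
    · rwa [hu.Hh_eq S.reg t0 ⟨le_rfl, t0.1⟩]
    · refine le_trans ?_ hS
      have : 0 ≤ C := by linarith
      gcongr
      linarith
  have low : ∀ s ∈ Icc (0 : ℝ) 3, 0 ≤ (u s).2.2 ∧
      ‖(u s).1‖ ≤ (K₀ + 400) * μ / (1 + s) ∧ |eps μ (u s)| ≤ (u s).2.2 ^ 2 / 10 := fun s hs => by
    obtain ⟨b1, -, b3, -⟩ := base s hs
    refine ⟨by linarith, b1.na.trans ?_, b1.eps'.trans (by nlinarith)⟩
    rw [le_div_iff₀ (by linarith [hs.1])]
    nlinarith [mul_nonneg K0 m.le, mul_le_mul_of_nonneg_left hs.2 m.le]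
  have cv : Continuous fun s => (u s).2.2 := hu.cont.snd.snd
  have ca : Continuous fun s => ‖(u s).1‖ := hu.cont.fst.norm
  have cb : ∀ t : ℝ, 0 ≤ t → ContinuousAt (fun s : ℝ => (K₀ + 400) * μ / (1 + s)) t := fun t t0 =>
    continuousAt_const.div (by fun_prop) (by linarith)
  have ce : ∀ t, Reg (u t) → ContinuousAt (fun s => |eps μ (u s)|) t := fun t r =>
    (deps r (hu.der t r)).continuousAt.abs
  have cw : Continuous fun s => (u s).2.2 ^ 2 / 10 := by fun_prop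
  have all := real_ind (a := 0) (b := b) (P := fun s => 0 ≤ (u s).2.2 ∧
      ‖(u s).1‖ ≤ (K₀ + 400) * μ / (1 + s) ∧ |eps μ (u s)| ≤ (u s).2.2 ^ 2 / 10)
    (low 0 ⟨le_rfl, by norm_num⟩)
    (fun t ht hP => by
      have ev : ∀ᶠ s in 𝓝[<] t, s ∈ Ico 0 t :=
        mem_of_superset (Ioo_mem_nhdsLT ht.1) Ioo_subset_Ico_self
      have f1 : 0 ≤ (u t).2.2 := ge_of_tendsto (cv.continuousAt.tendsto.mono_left nhdsWithin_le_nhds)
        (ev.mono fun s hs => (hP s hs).1)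
      have S := sol t fun s hs => hs.2.eq_or_lt.elim (fun e => e ▸ f1) fun e => (hP s ⟨hs.1, e⟩).1
      exact ⟨f1, le_of_tendsto_of_tendsto (ca.continuousAt.tendsto.mono_left nhdsWithin_le_nhds)
        ((cb t ht.1.le).tendsto.mono_left nhdsWithin_le_nhds) (ev.mono fun s hs => (hP s hs).2.1),
        le_of_tendsto_of_tendsto
          ((ce t (S.reg t ⟨ht.1.le, le_rfl⟩)).tendsto.mono_left nhdsWithin_le_nhds)
          (cw.continuousAt.tendsto.mono_left nhdsWithin_le_nhds) (ev.mono fun s hs => (hP s hs).2.2)⟩)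
    (fun t ht hP => by
      rcases lt_or_ge t 2 with e | e
      · filter_upwards [Ioo_mem_nhdsGT (show t < 3 by linarith)] with s hs
        exact low s ⟨ht.1.trans hs.1.le, hs.2.le⟩
      · obtain ⟨U, A, k1, k2⟩ := key t e ht.2.le hP
        have k3 : ‖(u t).1‖ < (K₀ + 400) * μ / (1 + t) :=
          (A t ⟨ht.1, le_rfl⟩).trans_lt (by gcongr; norm_num)
        refine Eventually.filter_mono nhdsWithin_le_nhds ?_
        filter_upwards [continuousAt_const.eventually_lt cv.continuousAt k1,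
          ca.continuousAt.eventually_lt (cb t ht.1) k3,
          (ce t (U.sol.reg t ⟨ht.1, le_rfl⟩)).eventually_lt cw.continuousAt k2] with s s1 s2 s3
        exact ⟨s1.le, s2.le, s3.le⟩)
  obtain ⟨U, A, -⟩ := key b hb le_rfl all
  exact ⟨U, A⟩

end Pool.Agent.P.MP_9ae58c_an.B

end

section

/-! Step ALIGN. -/

namespace Pool.Agent.P.MP_9ae58c_an.B

open Set Filter Topology Complex

theorem ALIGN_dec (m β : ℂ) (h : ‖m‖ = 1) : β = (ip m β : ℝ) * m + (ip (I * m) β : ℝ) * (I * m) := by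
  have e : m.re * m.re + m.im * m.im = 1 := by
    have := ip_self m
    rw [h] at this
    simpa [ip] using this
  apply Complex.ext <;> simp [ip]
  · linear_combination (-β.re) * e
  · linear_combination (-β.im) * e

theorem ALIGN_rot (m β : ℂ) (c : ℝ) : ip m (c * I * β) = -(c * ip (I * m) β) := by
  simp [ip]; ring

theorem p_ALIGN :
    S_ALIGN := by
  intro K ρ c m ω n β β' δ δ' S hρ b1 b2 hb hd hd'
  have K1 := S.K1
  have c0 := abs_nonneg c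
  have r0 : 0 ≤ ρ * |c| := by positivity
  have nd : ‖δ‖ ≤ 2.001 * (ρ * |c|) := by
    have h1 := norm_add_le (δ - c * I * β) (c * I * β)
    have h2 : ‖c * I * β‖ ≤ |c| * (2 * ρ) := by
      rw [norm_mul, norm_mul, norm_I, norm_real, Real.norm_eq_abs, mul_one]
      gcongr
    rw [sub_add_cancel] at h1
    linarith
  have Kρ : 10 ^ 4 * ρ ≤ K * ρ := by gcongr
  have Kr : 10 ^ 4 * (ρ * |c|) ≤ K * (ρ * |c|) := by gcongr
  refine ⟨?_, ?_, fun l1 l2 => ?_⟩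
  · have h1 := norm_add_le (β' - shr K m ω n β) (shr K m ω n β)
    have h2 : 1.001 * K * ‖β‖ ≤ 1.001 * K * (2 * ρ) := by gcongr
    rw [sub_add_cancel] at h1
    linarith [S.norm_le β]
  · have h1 := norm_add_le (δ' - shr K m ω n δ) (shr K m ω n δ)
    have h2 : 1.001 * K * ‖δ‖ ≤ 1.001 * K * (2.001 * (ρ * |c|)) := by gcongr
    rw [sub_add_cancel] at h1
    linarith [S.norm_le δ]
  have K0 : 0 < K := by linarith
  have ne : ‖I * ω * m‖ = 1 := by simp [S.nm, S.nω]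
  have nn := S.nn
  have dec := ALIGN_dec m β S.nm
  have sq := ip_sq m β
  have rot := ALIGN_rot m β c
  have hs : |ip m δ| ≤ 2.001 * (ρ * |c|) := (abs_ip_le m δ).trans (by rwa [S.nm, one_mul])
  have hr : |ip m δ - ip m (c * I * β)| ≤ ρ * |c| / 10 ^ 4 := by
    rw [← ip_sub]
    exact (abs_ip_le _ _).trans (by rwa [S.nm, one_mul])
  rw [rot] at hr
  rw [S.nm] at sq
  unfold shr at hb hd'
  generalize ip m β = p at *
  generalize ip (I * m) β = q at *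
  generalize ip m δ = s at *
  have nK : ∀ (x : ℝ) (z : ℂ), ‖((K * x : ℝ) : ℂ) * z‖ = K * |x| * ‖z‖ := fun x z => by
    rw [norm_mul, norm_real, Real.norm_eq_abs, abs_mul, abs_of_pos K0]
  have n1 : 0.9999 ≤ ‖n‖ := by
    have := norm_sub_le (n + I * ω * m) n
    rw [add_sub_cancel_left, ne] at this
    linarith
  have p0 := abs_nonneg p
  have Kp : K * |p| ≤ 4.001 * ρ := by
    have e : ((K * p : ℝ) : ℂ) * n = β' - (β' - ((K * p : ℝ) * n + ω * β)) - ω * β := by ring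
    have h1 := nK p n
    have h2 := norm_sub_le (β' - (β' - ((K * p : ℝ) * n + ω * β))) (ω * β)
    have h3 := norm_sub_le β' (β' - ((K * p : ℝ) * n + ω * β))
    rw [← e, h1, norm_mul, S.nω] at h2
    have h4 : K * |p| * 0.9999 ≤ K * |p| * ‖n‖ := by gcongr
    linarith
  have hp : |p| ≤ 4.001 * ρ / 10 ^ 4 := by
    have : 10 ^ 4 * |p| ≤ K * |p| := by gcongr
    linarith
  have hq : 0.899 * ρ ≤ |q| := by
    refine le_of_sq_le_sq ?_ (abs_nonneg q)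
    have h1 : |p| ^ 2 ≤ (4.001 * ρ / 10 ^ 4) ^ 2 := by gcongr
    have h2 : (9 / 10 * ρ) ^ 2 ≤ ‖β‖ ^ 2 := by gcongr
    rw [sq_abs] at h1 ⊢
    nlinarith [sq_nonneg ρ]
  have hs' : 0.898 * (ρ * |c|) ≤ |s| := by
    have h1 := abs_sub (s - -(c * q)) s
    have h2 : |c| * (0.899 * ρ) ≤ |c| * |q| := by gcongr
    rw [show s - -(c * q) - s = c * q by ring, abs_mul] at h1
    linarith
  obtain ⟨E, hE, eE⟩ : ∃ E : ℂ, ‖E‖ ≤ 14 * ρ / 10 ^ 4 ∧
      β' = ((q - K * p : ℝ) : ℂ) * (I * ω * m) + E := by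
    refine ⟨β' - ((K * p : ℝ) * n + ω * β) + (p * (ω * m) + (K * p : ℝ) * (n + I * ω * m)), ?_, ?_⟩
    · refine (norm_add_le _ _).trans ((add_le_add_right (norm_add_le _ _) _).trans ?_)
      rw [nK, norm_mul, norm_mul, S.nm, S.nω, norm_real, Real.norm_eq_abs]
      have : K * |p| * ‖n + I * ω * m‖ ≤ 4.001 * ρ * (1 / 10 ^ 4) := by gcongr
      linarith
    · push_cast
      linear_combination ω * dec
  obtain ⟨F, hF, eF⟩ : ∃ F : ℂ, ‖F‖ ≤ 5 * (K * (ρ * |c|)) / 10 ^ 4 ∧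
      δ' = ((-(K * s) : ℝ) : ℂ) * (I * ω * m) + F := by
    refine ⟨δ' - ((K * s : ℝ) * n + ω * δ) + (ω * δ + (K * s : ℝ) * (n + I * ω * m)), ?_, ?_⟩
    · refine (norm_add_le _ _).trans ((add_le_add_right (norm_add_le _ _) _).trans ?_)
      rw [nK, norm_mul, S.nω]
      have : K * |s| * ‖n + I * ω * m‖ ≤ K * (2.001 * (ρ * |c|)) * (1 / 10 ^ 4) := by gcongr
      linarith
    · push_cast
      ring
  generalize I * ω * m = e at *
  generalize q - K * p = X at *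
  have hX : 0.998 * ρ ≤ |X| := by
    have := norm_add_le ((X : ℂ) * e) E
    rw [← eE, norm_mul, ne, norm_real, Real.norm_eq_abs] at this
    linarith
  have i1 : 0.996 * ρ ≤ |ip β' e| := by
    have h1 : ip β' e = X + ip e E := by
      rw [ip_comm, eE, ip_add, ip_real, ip_self, ne]; ring
    have h2 := abs_ip_le e E
    have h3 := abs_sub (ip β' e) (ip e E)
    rw [ne] at h2
    rw [show ip β' e - ip e E = X by rw [h1]; ring] at h3
    linarith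
  have i2 : |ip β' F| ≤ 2 * ρ * (5 * (K * (ρ * |c|)) / 10 ^ 4) :=
    (abs_ip_le _ _).trans (by gcongr)
  have i3 : ip β' δ' - ip β' F = -(K * s) * ip β' e := by rw [eF, ip_add, ip_real]; ring
  have i4 := abs_sub (ip β' δ') (ip β' F)
  rw [i3, abs_mul, abs_neg, abs_mul, abs_of_pos K0] at i4
  have i5 : K * (0.898 * (ρ * |c|)) * (0.996 * ρ) ≤ K * |s| * |ip β' e| := by gcongr
  have i6 : 0 ≤ K * ρ ^ 2 * |c| := by positivity
  nlinarith

end Pool.Agent.P.MP_9ae58c_an.B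

end

section

/-! Step SWEEP. -/

namespace Pool.Agent.P.MP_9ae58c_an.B

open Set Filter Topology Complex

theorem SWEEP_arg {w : ℂ} (hw : ‖w‖ = 1) (a : ℝ) : ∃ χ ∈ Icc a (a + 7), ex χ = w := by
  have h := toIcoMod_mem_Ico Real.two_pi_pos a (arg w)
  refine ⟨_, ⟨h.1, by linarith [h.2, Real.pi_lt_d2]⟩, ?_⟩
  have e := norm_mul_exp_arg_mul_I w
  rw [hw, ofReal_one, one_mul] at e
  rw [ex, ← e, Complex.exp_eq_exp_iff_exists_int, e]
  refine ⟨-toIcoDiv Real.two_pi_pos a (arg w), ?_⟩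
  rw [toIcoMod, zsmul_eq_mul]
  push_cast
  ring

/-- a derivative that stays away from zero has a constant sign -/
theorem SWEEP_sign {a b lo : ℝ} {Θ c : ℝ → ℝ} (h0 : 0 < lo)
    (h : ∀ s ∈ Icc a b, HasDerivAt Θ (c s) s ∧ lo ≤ |c s|) :
    ∃ σ : ℝ, (σ = 1 ∨ σ = -1) ∧ ∀ s ∈ Icc a b, |c s| = σ * c s := by
  by_cases h1 : ∀ s ∈ Icc a b, 0 ≤ c s
  · exact ⟨1, Or.inl rfl, fun s hs => by rw [abs_of_nonneg (h1 s hs), one_mul]⟩
  push Not at h1
  obtain ⟨t, ht, h1⟩ := h1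
  refine ⟨-1, Or.inr rfl, fun s hs => ?_⟩
  rw [abs_of_nonpos, neg_one_mul]
  by_contra h2
  obtain ⟨u, hu, h3⟩ := (ordConnected_Icc.image_hasDerivWithinAt
    fun x hx => (h x hx).1.hasDerivWithinAt).out (mem_image_of_mem c ht) (mem_image_of_mem c hs)
    (show (0 : ℝ) ∈ Icc (c t) (c s) from ⟨h1.le, (not_le.1 h2).le⟩)
  have := (h u hu).2
  rw [h3, abs_zero] at this
  linarith

/-- the amplitude points in every direction -/
theorem SWEEP_turn {ρ a b lo : ℝ} {Θ c : ℝ → ℝ} {β δ : ℝ → ℂ} (hρ : 0 < ρ) (hab : a < b)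
    (hl : 100 ≤ lo * (b - a)) (h0 : β a ≠ 0)
    (h : ∀ s ∈ Icc a b, HasDerivAt Θ (c s) s ∧ HasDerivAt β (δ s) s ∧ lo ≤ |c s| ∧
      ‖δ s - c s * I * β s‖ ≤ ρ * |c s| / 10 ^ 4) {w : ℂ} (hw : ‖w‖ = 1) :
    ∃ s ∈ Icc a b, ‖β s - ‖β a‖ * w‖ ≤ 7 * ρ / 10 ^ 4 := by
  have l0 : 0 < lo := by
    by_contra e
    nlinarith
  obtain ⟨σ, hσ, hc⟩ := SWEEP_sign l0 fun s hs => ⟨(h s hs).1, (h s hs).2.2.1⟩
  have ha : a ∈ Icc a b := ⟨le_rfl, hab.le⟩
  have hb : b ∈ Icc a b := ⟨hab.le, le_rfl⟩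
  have dΦ : ∀ s ∈ Icc a b, HasDerivAt (fun s => σ * Θ s) |c s| s := fun s hs => by
    rw [hc s hs]
    exact (h s hs).1.const_mul σ
  have big := sub_le_of (K := fun s => lo * s) (K' := fun _ => lo)
    (fun s _ => by simpa using (hasDerivAt_id s).const_mul lo) dΦ (fun s hs => (h s hs).2.2.1)
    ha hb hab.le
  have dφ : ∀ s ∈ Icc a b, HasDerivAt (fun s => ex (-Θ s) * β s)
      (ex (-Θ s) * (δ s - c s * I * β s)) s := fun s hs =>
    (((hasDerivAt_ex (-Θ s)).scomp s (h s hs).1.fun_neg).mul (h s hs).2.1).congr_deriv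
      (by simp; ring)
  have near := norm_sub_le_of dφ (fun s hs => ((dΦ s hs).const_mul ρ).div_const (10 ^ 4))
    fun s hs => by simpa using (h s hs).2.2.2
  have n0 : (‖β a‖ : ℂ) ≠ 0 := by simpa using h0
  have hu : ‖(‖β a‖ * w / (ex (-Θ a) * β a) : ℂ)‖ = 1 := by
    simp [hw, h0]
  obtain ⟨χ, hχ, e⟩ := SWEEP_arg hu (min (Θ a) (Θ a + 7 * σ))
  have hχ' : σ * χ ∈ Icc (σ * Θ a) (σ * Θ a + 7) := by
    rcases hσ with rfl | rfl
    · rw [min_eq_left (by linarith)] at hχ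
      simpa using hχ
    · rw [min_eq_right (by linarith)] at hχ
      exact ⟨by linarith [hχ.2], by linarith [hχ.1]⟩
  obtain ⟨s, hs, e1⟩ := intermediate_value_Icc hab.le (contOn_of dΦ)
    (show σ * χ ∈ Icc (σ * Θ a) (σ * Θ b) from ⟨hχ'.1, by linarith [hχ'.2]⟩)
  have e2 : Θ s = χ := mul_left_cancel₀ (by rcases hσ with rfl | rfl <;> norm_num) e1
  have x0 : ex (-Θ a) ≠ 0 := norm_ne_zero_iff.1 (by simp)
  have e3 : β s - ‖β a‖ * w = ex (Θ s) * (ex (-Θ s) * β s - ex (-Θ a) * β a) := by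
    rw [mul_sub, ← mul_assoc, ex_mul_neg, one_mul, e2, e, div_mul_cancel₀ _ (mul_ne_zero x0 h0)]
  refine ⟨s, hs, ?_⟩
  rw [e3, norm_mul, norm_ex, one_mul]
  refine (near s hs).trans ?_
  have := mul_le_mul_of_nonneg_left hχ'.2 hρ.le
  rw [e2]
  linarith

theorem SWEEP_dec {m : ℂ} (h : ‖m‖ = 1) (β : ℂ) : β = ip m β * m + ip (I * m) β * (I * m) := by
  have e : m.re * m.re + m.im * m.im = 1 := by
    rw [← normSq_apply, ← Complex.sq_norm, h, one_pow]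
  apply Complex.ext
  · simp [ip]
    linear_combination (-β.re) * e
  · simp [ip]
    linear_combination (-β.im) * e

theorem SWEEP_ip {m β : ℂ} {r η : ℝ} (h : ‖m‖ = 1) (h1 : ‖β - r * m‖ ≤ η) :
    |ip m β - r| ≤ η ∧ |ip (I * m) β| ≤ η := by
  have a1 := abs_ip_le m (β - r * m)
  have a2 := abs_ip_le (I * m) (β - r * m)
  have a3 : ip (I * m) m = 0 := by simp [ip]; ring
  rw [ip_sub, ip_real, ip_self, h, one_pow, mul_one, one_mul] at a1
  rw [ip_sub, ip_real, a3, mul_zero, sub_zero, norm_mul, norm_I, h, one_mul, one_mul] at a2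
  exact ⟨a1.trans h1, a2.trans h1⟩

theorem p_SWEEP :
    S_SWEEP := by
  intro K ρ a b lo Y m ω n Θ c β β' δ hS hρ hab hl hc h y1 y2
  have K1 := hS.K1
  have ha : a ∈ Icc a b := ⟨le_rfl, hab.le⟩
  obtain ⟨-, -, -, r1, r2, -⟩ := h a ha
  have h0 : β a ≠ 0 := norm_pos_iff.1 (by linarith)
  have turn := fun w hw => SWEEP_turn hρ hab hl h0 (w := w)
    (fun s hs => ⟨(h s hs).1, (h s hs).2.1, (h s hs).2.2.1, (h s hs).2.2.2.2.2.1⟩) hw
  obtain ⟨A, hA, eA⟩ := turn m hS.nm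
  obtain ⟨B, hB, eB⟩ := turn (-m) (by rw [norm_neg, hS.nm])
  obtain ⟨a1, a2⟩ := SWEEP_ip hS.nm eA
  obtain ⟨b1, b2⟩ := SWEEP_ip (r := -‖β a‖) hS.nm (by simpa using eB)
  have a3 : 8 / 10 * ρ ≤ ip m (β A) := by linarith [(abs_le.1 a1).1]
  have b3 : ip m (β B) ≤ -(8 / 10 * ρ) := by linarith [(abs_le.1 b1).2]
  have cβ : ContinuousOn β (Icc a b) := contOn_of fun s hs => (h s hs).2.1
  have cX : ContinuousOn (fun s => ip (I * m) (β s) - K * ip m (β s)) (Icc a b) := by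
    unfold ip
    fun_prop
  obtain ⟨Z, hZ, eZ⟩ := isPreconnected_Icc.intermediate_value hA hB cX
    (show (0 : ℝ) ∈ Icc _ _ from ⟨by nlinarith [(abs_le.1 a2).2], by nlinarith [(abs_le.1 b2).1]⟩)
  have small : ‖β' Z‖ ≤ ρ / 10 := by
    obtain ⟨-, -, -, -, z1, -, z2⟩ := h Z hZ
    have q1 : ip (I * m) (β Z) = K * ip m (β Z) := sub_eq_zero.1 eZ
    have q2 : |K * ip m (β Z)| ≤ 2 * ρ := by
      have := abs_ip_le (I * m) (β Z)
      rw [norm_mul, norm_I, hS.nm, one_mul, one_mul, q1] at this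
      linarith
    have q3 : |ip m (β Z)| ≤ 2 * ρ / 10 ^ 4 := by
      rw [abs_mul, abs_of_pos (by linarith)] at q2
      nlinarith [abs_nonneg (ip m (β Z))]
    have q4 : shr K m ω n (β Z) =
        (K * ip m (β Z) : ℝ) * (n + I * ω * m) + ip m (β Z) * (ω * m) := by
      have := SWEEP_dec hS.nm (β Z)
      rw [q1] at this
      rw [shr]
      linear_combination ω * this
    have q5 : ‖shr K m ω n (β Z)‖ ≤ 2 * ρ * (1 / 10 ^ 4) + 2 * ρ / 10 ^ 4 := by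
      rw [q4]
      refine (norm_add_le _ _).trans (add_le_add ?_ ?_)
      · rw [norm_mul, norm_real, Real.norm_eq_abs]
        exact mul_le_mul q2 hS.nn (norm_nonneg _) (by linarith)
      · rwa [norm_mul, norm_mul, hS.nω, hS.nm, norm_real, Real.norm_eq_abs, mul_one, mul_one]
    linarith [norm_le_insert' (β' Z) (shr K m ω n (β Z))]
  have large : 3 * ρ ≤ ‖β' A‖ := by
    obtain ⟨-, -, -, -, z1, -, z2⟩ := h A hA
    have q1 : 1 / 2 ≤ ‖n‖ := by
      have := norm_sub_le (n + I * ω * m) n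
      simp only [add_sub_cancel_left, norm_mul, norm_I, hS.nm, hS.nω] at this
      linarith [hS.nn]
    have q2 : 10 ^ 4 * (8 / 10 * ρ) * (1 / 2) ≤ ‖((K * ip m (β A) : ℝ) : ℂ) * n‖ := by
      rw [norm_mul, norm_real, Real.norm_eq_abs]
      exact mul_le_mul ((mul_le_mul K1 a3 (by linarith) (by linarith)).trans (le_abs_self _)) q1
        (by norm_num) (abs_nonneg _)
    have q3 := norm_sub_le (shr K m ω n (β A)) (ω * β A)
    rw [shr, add_sub_cancel_right, norm_mul ω, hS.nω, one_mul, ← shr] at q3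
    linarith [norm_le_insert (β' A) (shr K m ω n (β A))]
  exact isPreconnected_Icc.intermediate_value (f := fun s => ‖β' s‖ ^ 2) hZ hA (hc.norm.pow 2)
    (show Y ∈ Icc (‖β' Z‖ ^ 2) (‖β' A‖ ^ 2) from
      ⟨by nlinarith [norm_nonneg (β' Z)], by nlinarith⟩)

end Pool.Agent.P.MP_9ae58c_an.B

end
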