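import Pool.Agent.P.MP_9ae58c_an.B.IfC

section

/-! Step LIMC. -/

namespace Pool.Agent.P.MP_9ae58c_an.B

open Set Filter Topology Complex

theorem LIMC_cont {Y : ℝ → St → ℝ → St} (hY : Fl Y) (j : ℝ) :
    Continuous fun y : ℝ × ℝ => Y y.1 (pj y.1 j) y.2 :=
  hY.cont.comp (f := fun y : ℝ × ℝ => (y.1, pj y.1 j, y.2)) (by unfold pj; fun_prop)

theorem LIMC_contz {Y : ℝ → St → ℝ → St} (hY : Fl Y) (σ j : ℝ) :
    Continuous (zz (Y σ (pj σ j))) :=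
  ((LIMC_cont hY j).comp (f := fun t : ℝ => (σ, t)) (by fun_prop)).snd.fst

theorem LIMC_at (hHITC : S_HITC) {Y : ℝ → St → ℝ → St} (hY : Fl Y) {μ j : ℝ}
    (h : Alt (zz (Y μ (pj μ j))) 1) : ContinuousAt (fun σ => xj Y σ j) μ :=
  (LIMC_cont hY j).continuousAt.comp (f := fun σ => (σ, cr (zz (Y σ (pj σ j))) 1))
    (continuousAt_id.prodMk (hHITC (fun σ => zz (Y σ (pj σ j))) μ 1 (fun σ => LIMC_contz hY σ j)
      (fun _ => (LIMC_cont hY j).snd.fst.continuousAt) h).1)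

theorem LIMC_cs (hCNT : S_CNT) {Y : ℝ → St → ℝ → St} (hY : Fl Y) {α : Type} [Primcodable α]
    {S : Set α} {m j : α → ℝ} (hm : CF S m) (hj : CF S j) (hp : ∀ a ∈ S, 0 < j a)
    (ha : ∀ a ∈ S, Alt (zz (Y (m a) (pj (m a) (j a)))) 1) : CS S fun a => xj Y (m a) (j a) := by
  have h1 : CS S fun a => pj (m a) (j a) :=
    ⟨CF.zero, CF.zero, (((CF.ofNat 16).mul (CF.one.add hm)).mul (hj.pow 2)).congr fun a _ => by
      simp [pj], (CF.one.div hj hp).neg⟩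
  refine hY.eff S m _ _ hm (hCNT α S (fun a => zz (Y (m a) (pj (m a) (j a)))) (fun _ => 1)
    (Computable.const 1) (fun a h => ⟨LIMC_contz hY _ _, ha a h⟩) ?_) h1 fun a h => ?_
  · exact (hY.eff {y : α × ℤ × ℕ | y.1 ∈ S ∧ 0 ≤ frac y.2} (fun y => m y.1) (fun y => frac y.2)
      (fun y => pj (m y.1) (j y.1)) (hm.comp Computable.fst fun _ h => h.1)
      (CF.frac Computable.snd) (h1.comp Computable.fst fun _ h => h.1) fun _ h => h.2).2.2.1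
  · exact le_trans (by positivity) (ha a h).1.le

theorem LIMC_lim {α : Type} [Primcodable α] {S : Set α} {x : α → St} {χ : α → ℕ → St}
    (h : CS {y : α × ℕ | y.1 ∈ S} fun y => χ y.1 y.2)
    (e : ∀ a ∈ S, ∀ n, ‖x a - χ a n‖ ≤ 1 / (n + 1)) : CS S x :=
  ⟨CF.lim (χ := fun a n => (χ a n).1.re) h.1 fun a ha n =>
      ((abs_re_le_norm (x a - χ a n).1).trans (n1 _)).trans (e a ha n),
    CF.lim (χ := fun a n => (χ a n).1.im) h.2.1 fun a ha n =>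
      ((abs_im_le_norm (x a - χ a n).1).trans (n1 _)).trans (e a ha n),
    CF.lim (χ := fun a n => (χ a n).2.1) h.2.2.1 fun a ha n => (n2 (x a - χ a n)).trans (e a ha n),
    CF.lim (χ := fun a n => (χ a n).2.2) h.2.2.2 fun a ha n => (n3 (x a - χ a n)).trans (e a ha n)⟩

theorem p_LIMC (hHITC : S_HITC) (hREF : S_REF) (hCAU : S_CAU) (hLIM : S_LIM) (hCNT : S_CNT) :
    S_LIMC := by
  intro Y hY
  obtain ⟨K₀, -, hR⟩ := hREF
  obtain ⟨C₁, c1, hC⟩ := hCAU K₀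
  obtain ⟨C₂, c2, hL⟩ := hLIM K₀
  refine ⟨K₀, C₁ + C₂, fun A B hA hAB hB hCB => ?_⟩
  obtain ⟨j₀, hj₀⟩ := exists_nat_ge (1 / A)
  let J : ℕ → ℝ := fun n => (n + 1 + j₀ : ℕ)
  have J1 : ∀ n : ℕ, (n : ℝ) + 1 ≤ J n := fun n => by simp [J]
  have J2 : ∀ n : ℕ, 1 / A ≤ J n := fun n => hj₀.trans (Nat.cast_le.2 (by omega))
  have J0 : ∀ n : ℕ, 0 < J n := fun n => lt_of_lt_of_le (by positivity) (J1 n)
  have m1 : ∀ μ ∈ Icc A B, C₁ * μ ≤ 1 ∧ C₂ * μ ≤ 1 := fun μ h => by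
    constructor <;> nlinarith [h.1, h.2]
  have gl : ∀ μ ∈ Icc A B, ∀ p, Glob μ (Y μ p) := fun μ h p =>
    hY.gl μ p (hA.trans_le h.1) (h.2.trans hB)
  have R : ∀ μ ∈ Icc A B, ∀ n,
      Rf μ K₀ (J n) (Y μ (pj μ (J n))) (cr (zz (Y μ (pj μ (J n)))) 1) := fun μ h n => by
    obtain ⟨b, hb⟩ := hR μ (J n) _ (gl μ h _) (by
      have := (div_le_iff₀' hA).1 (J2 n)
      nlinarith [h.1, J0 n]) (hY.init μ _)
    rwa [hb.eq]
  have Cau : ∀ μ ∈ Icc A B, ∀ n n', n ≤ n' →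
      dist (xj Y μ (J n)) (xj Y μ (J n')) ≤ 1 / ((n : ℝ) + 1) := fun μ h n n' e => by
    rw [dist_eq_norm]
    exact (hC μ _ _ _ _ _ _ (m1 μ h).1 (Nat.cast_le.2 (by omega)) (R μ h n) (R μ h n')).trans
      (one_div_le_one_div_of_le (by positivity) (J1 n))
  choose ξ hξ using fun μ : Icc A B => cauchySeq_tendsto_of_complete
    (cauchySeq_of_le_tendsto_0' _ (Cau μ μ.2) tendsto_one_div_add_atTop_nhds_zero_nat)
  have bd : ∀ (μ : Icc A B) (n : ℕ), dist (ξ μ) (xj Y μ (J n)) ≤ 1 / ((n : ℝ) + 1) := fun μ n =>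
    le_of_tendsto ((hξ μ).dist tendsto_const_nhds)
      ((eventually_ge_atTop n).mono fun n' e => dist_comm _ _ |>.trans_le (Cau μ μ.2 n n' e))
  have hc : Continuous ξ := by
    refine TendstoUniformly.continuous (F := fun n (μ : Icc A B) => xj Y μ (J n)) (p := atTop)
      (Metric.tendstoUniformly_iff.2 fun ε hε => ?_) (Frequently.of_forall fun n => ?_)
    · exact (tendsto_one_div_add_atTop_nhds_zero_nat.eventually (gt_mem_nhds hε)).mono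
        fun n h μ => (bd μ n).trans_lt h
    · exact continuous_iff_continuousAt.2 fun μ =>
        (LIMC_at hHITC hY (R μ μ.2 n).alt).comp continuousAt_subtype_val
  refine ⟨fun μ => ξ (projIcc A B hAB μ), hc.comp continuous_projIcc, ?_, fun μ h => ?_⟩
  · refine LIMC_lim (χ := fun q n => xj Y (frac q) (J n))
      (LIMC_cs hCNT hY (CF.frac Computable.fst) (CF.nat ?_) (fun y _ => J0 _)
        fun y h => (R _ h _).alt) fun q h n => ?_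
    · exact (Primrec.nat_add.comp (Primrec.succ.comp Primrec.snd) (Primrec.const j₀)).to_comp
    · beta_reduce
      rw [projIcc_of_mem hAB h, ← dist_eq_norm]
      exact bd ⟨_, h⟩ n
  · beta_reduce
    rw [projIcc_of_mem hAB h]
    refine hL μ (Y μ) _ _ J _ (m1 μ h).2 (fun q => ⟨gl μ h q, hY.init μ q⟩) (fun t => ?_) (R μ h)
      (tendsto_atTop_mono (fun n => (le_add_of_nonneg_right zero_le_one).trans (J1 n))
        tendsto_natCast_atTop_atTop) (hξ ⟨μ, h⟩)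
    exact hY.cont.comp (f := fun q : St => (μ, q, t)) (by fun_prop)

end Pool.Agent.P.MP_9ae58c_an.B

end

section

/-! Step APEX. -/

namespace Pool.Agent.P.MP_9ae58c_an.B

open Set Filter Topology Complex

theorem APEX_key (hEXCF : S_EXCF) (hMIDS : S_MIDS) {μ K₀ : ℝ} {h : ℝ → St} (H : Tail μ K₀ h) :
    ∃ η T, Exc μ (fp h) η 0 (nz (vv (fp h)) 0) T ∧ μ / 100 ≤ η ^ 2 ∧ η ^ 2 ≤ 4000 * μ ∧
      (bb h (nz (vv (fp h)) 0)).im ≤ -(μ / 5) := by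
  have m0 := H.gl.pos
  have k0 := abs_nonneg K₀
  have h1 : ‖(h (-(2 + 100 * |K₀|))).1‖ ≤ μ / 100 := by
    refine (H.dec _ (by positivity)).trans ?_
    rw [div_le_div_iff₀ (by positivity) (by norm_num)]
    have : K₀ * 100 ≤ (1 + (2 + 100 * |K₀|)) ^ 2 := by nlinarith [le_abs_self K₀]
    linarith [mul_le_mul_of_nonneg_left this m0.le]
  obtain ⟨η, tp, T, e1, e2, e3, e4, -⟩ := hMIDS μ h 0 _ (H.up _ (by linarith)) h1
    (by rw [H.H0, abs_zero]; positivity)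
  obtain ⟨f1, -, -, -, -, -, -, -, -, -, f2, -⟩ := hEXCF _ _ _ _ _ _ e1
  rw [nz_eq (Z := vv (fp h)) (T := tp) (by linarith) e1.v0
    fun t ht => (f2 t (Ioo_subset_Ico_self ht)).ne']
  exact ⟨η, T, e1, e2, e3, e4⟩

theorem APEX_sign (hEXCF : S_EXCF) {μ η tp T : ℝ} {u : ℝ → St} (e : Exc μ u η 0 tp T) :
    100 ≤ tp ∧ (∀ t ∈ Ico 0 tp, 0 < vv u t) ∧ ∀ δ, 0 < δ → ∃ t ∈ Ioo tp (tp + δ), vv u t < 0 := by
  obtain ⟨f1, f3, -, -, -, -, -, -, -, -, f2, f4, -⟩ := hEXCF _ _ _ _ _ _ e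
  refine ⟨by linarith, f2, fun δ hδ => ?_⟩
  have a1 : 0 < min δ 1 := lt_min hδ one_pos
  have a2 := min_le_left δ 1
  have a3 := min_le_right δ 1
  exact ⟨tp + min δ 1 / 2, ⟨by linarith, by linarith⟩, f4 _ ⟨by linarith, by linarith⟩⟩

theorem p_APEX (hNZC : S_NZC) (hEXCF : S_EXCF) (hMIDS : S_MIDS) (hFZ : S_FZ) :
    S_APEX := by
  intro Y hY K₀ A B x hx hc hT
  have key := fun μ hμ => APEX_key hEXCF hMIDS (hT μ hμ)
  have cj : Continuous fun y : ℝ × ℝ => vv (fp (Y y.1 (x y.1))) y.2 :=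
    (hY.cont.comp (continuous_fst.prodMk
      ((hx.comp continuous_fst).prodMk continuous_snd))).snd.snd.neg
  refine ⟨fun μ => nz (vv (fp (Y μ (x μ)))) 0, fun μ hμ => ?_, ?_, key⟩
  · obtain ⟨η, T, e, -⟩ := key μ hμ
    obtain ⟨s1, s2, s3⟩ := APEX_sign hEXCF e
    refine ContinuousAt.continuousWithinAt (hNZC (fun σ => vv (fp (Y σ (x σ)))) (fun _ => 0) μ _ 1
      (fun σ => cj.comp (continuous_const.prodMk continuous_id)) (fun _ => cj.continuousAt)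
      continuousAt_const (by linarith) (fun t ht => ?_) fun δ hδ => ?_).1
    · rw [one_mul]
      exact s2 t ⟨by linarith [ht.1], ht.2⟩
    · simpa only [one_mul] using s3 δ hδ
  · obtain ⟨L, hL⟩ := hY.lip
    refine hFZ _ _ (fun q => vv (fp (Y (frac q) (x (frac q))))) _ L (fun q hq => ?_) ?_
    · obtain ⟨η, T, e, -⟩ := key _ hq
      obtain ⟨s1, s2, s3⟩ := APEX_sign hEXCF e
      refine ⟨by linarith, fun s t => ?_, s2, s3⟩
      refine le_trans (le_of_eq ?_) ((n3 _).trans (hL (frac q) (x (frac q)) s t))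
      simp only [vv, fp, Fp, Prod.snd_sub]
      rw [← abs_neg]
      congr 1
      ring
    · exact (hY.eff _ (fun y : (ℤ × ℕ) × ℤ × ℕ => frac y.1) (fun y => frac y.2)
        (fun y => x (frac y.1)) (CF.frac Computable.fst) (CF.frac Computable.snd)
        (hc.comp Computable.fst fun _ hy => hy.1) fun _ hy => hy.2).2.2.2.neg

end Pool.Agent.P.MP_9ae58c_an.B

end

section

/-! Step HOM. -/

namespace Pool.Agent.P.MP_9ae58c_an.B

open Set Filter Topology Complex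

theorem HOM_gap {B a b s t : ℝ} (ha : 0 < a) (hb : 0 < b) (h1 : a ^ 2 ≤ 4000 * (B / 10 ^ 8))
    (h2 : B / 100 ≤ b ^ 2) (h3 : b ≤ 1 / 50) (hs : 1 / a ^ 3 ≤ 1 + s - 0)
    (ht : t - 0 ≤ 600 / b ^ 3) : t + 20 ≤ s := by
  have e1 : (15 * a) ^ 2 ≤ b ^ 2 := by nlinarith [sq_nonneg b]
  have e2 : 15 * a ≤ b := abs_le_of_sq_le_sq' e1 hb.le |>.2
  have e3 : (15 * a) ^ 3 ≤ b ^ 3 := by gcongr
  have e4 : b ^ 3 ≤ 1 := pow_le_one₀ hb.le (by linarith)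
  have hb3 : 0 < b ^ 3 := by positivity
  have e5 : 3375 * (1 / b ^ 3) ≤ 1 / a ^ 3 := by
    rw [mul_one_div, div_le_div_iff₀ hb3 (by positivity)]
    nlinarith
  have e6 : 1 ≤ 1 / b ^ 3 := by rw [le_div_iff₀ hb3]; linarith
  have e7 : 600 / b ^ 3 = 600 * (1 / b ^ 3) := by ring
  linarith

theorem HOM_ex (n : ℤ) : ex (n * (2 * Real.pi)) = 1 ∧ ex (n * (2 * Real.pi) + Real.pi) = -1 := by
  have h : ex (n * (2 * Real.pi)) = 1 := by
    apply Complex.ext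
    · rw [ex_re, Real.cos_int_mul_two_pi]; rfl
    · rw [ex_im, show (n : ℝ) * (2 * Real.pi) = ((2 * n : ℤ) : ℝ) * Real.pi by push_cast; ring,
        Real.sin_int_mul_pi]; rfl
  refine ⟨h, ?_⟩
  rw [ex_add, h, one_mul]
  apply Complex.ext
  · rw [ex_re, Real.cos_pi]; simp
  · rw [ex_im, Real.sin_pi]; simp

theorem p_HOM (hEXCF : S_EXCF) (hSYM : S_SYM) (hROOT : S_ROOT) (hLIMC : S_LIMC) (hAPEX : S_APEX) :
    S_HOM := by
  intro Y hY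
  obtain ⟨K₀, C₁, hL⟩ := hLIMC Y hY
  refine ⟨K₀, fun C => ?_⟩
  have hq : 0 < |C| + |C₁| + 1 := by positivity
  obtain ⟨B, hB0, hB1, hB2⟩ : ∃ B : ℝ, 0 < B ∧ B ≤ 1 / 10 ^ 8 ∧ B * (|C| + |C₁| + 1) ≤ 1 :=
    ⟨min (1 / 10 ^ 8) (1 / (|C| + |C₁| + 1)), lt_min (by norm_num) (by positivity),
      min_le_left _ _, (le_div_iff₀ hq).1 (min_le_right _ _)⟩
  have hA0 : 0 < B / 10 ^ 8 := by positivity
  have hAB : B / 10 ^ 8 ≤ B := div_le_self hB0.le (by norm_num)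
  have c0 := mul_nonneg hB0.le (abs_nonneg C)
  have c1 := mul_nonneg hB0.le (abs_nonneg C₁)
  have hC1 : C₁ * B ≤ 1 := by nlinarith [mul_le_mul_of_nonneg_right (le_abs_self C₁) hB0.le]
  obtain ⟨x, hx, hcs, htail⟩ := hL (B / 10 ^ 8) B hA0 hAB hB1 hC1
  obtain ⟨tp, htp, hcf, hex⟩ := hAPEX Y hY K₀ (B / 10 ^ 8) B x hx hcs htail
  have gap : tp B + 20 ≤ tp (B / 10 ^ 8) := by
    obtain ⟨a, T, e1, -, e2, -⟩ := hex _ (left_mem_Icc.2 hAB)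
    obtain ⟨b, T', f1, f2, -, -⟩ := hex _ (right_mem_Icc.2 hAB)
    obtain ⟨-, -, -, e3, -⟩ := hEXCF _ _ _ _ _ _ e1
    obtain ⟨-, -, f3, -, f4, -⟩ := hEXCF _ _ _ _ _ _ f1
    exact HOM_gap e1.pos f1.pos e2 f2 f3 e3 f4
  have hpi := Real.pi_pos
  have hpi4 := Real.pi_lt_four
  obtain ⟨n, n1, n2⟩ : ∃ n : ℤ, tp B ≤ n * (2 * Real.pi) ∧ n * (2 * Real.pi) ≤ tp B + 8 := by
    have h2 : 0 < 2 * Real.pi := by positivity
    refine ⟨⌈tp B / (2 * Real.pi)⌉, (div_le_iff₀ h2).1 (Int.le_ceil _), ?_⟩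
    have h3 := mul_le_mul_of_nonneg_right (Int.ceil_lt_add_one (tp B / (2 * Real.pi))).le h2.le
    rw [add_mul, div_mul_cancel₀ _ h2.ne'] at h3
    linarith
  obtain ⟨μ₁, m1, t1⟩ := intermediate_value_Icc' hAB htp
    (show (n : ℝ) * (2 * Real.pi) ∈ Icc (tp B) (tp (B / 10 ^ 8)) from ⟨n1, by linarith⟩)
  obtain ⟨μ₂, m2, t2⟩ := intermediate_value_Icc' hAB htp
    (show (n : ℝ) * (2 * Real.pi) + Real.pi ∈ Icc (tp B) (tp (B / 10 ^ 8)) from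
      ⟨by linarith, by linarith⟩)
  have hD : ContinuousOn (fun μ => (Y μ (x μ) (tp μ)).1.im) (Icc (B / 10 ^ 8) B) :=
    (continuous_im.comp (continuous_fst.comp hY.cont)).comp_continuousOn
      (continuousOn_id.prodMk (hx.continuousOn.prodMk htp))
  have hpos : ∀ μ ∈ Icc (B / 10 ^ 8) B, 0 ≤ tp μ := fun μ hμ => by
    obtain ⟨a, T, e1, -⟩ := hex μ hμ
    exact e1.up.le
  have hE := (hY.eff {q : ℤ × ℕ | frac q ∈ Icc (B / 10 ^ 8) B} (fun q => frac q)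
    (fun q => tp (frac q)) (fun q => x (frac q)) (CF.frac Computable.id) hcf hcs
    fun q hq => hpos _ hq).2.1
  have d1 : (Y μ₁ (x μ₁) (tp μ₁)).1.im < 0 := by
    obtain ⟨a, T, -, -, -, e⟩ := hex μ₁ m1
    rw [← ex_mul_bb]
    have : ex (tp μ₁) = 1 := by rw [t1]; exact (HOM_ex n).1
    rw [this, one_mul]
    linarith [m1.1]
  have d2 : 0 < (Y μ₂ (x μ₂) (tp μ₂)).1.im := by
    obtain ⟨a, T, -, -, -, e⟩ := hex μ₂ m2
    rw [← ex_mul_bb]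
    have : ex (tp μ₂) = -1 := by rw [t2]; exact (HOM_ex n).2
    rw [this, neg_one_mul, neg_im]
    linarith [m2.1]
  obtain ⟨μ, hμ, hz, hcr⟩ :=
    hROOT (fun μ => (Y μ (x μ) (tp μ)).1.im) _ _ μ₁ μ₂ hD hE m1 m2 d1 d2
  obtain ⟨η, T, e1, e2, e3, e4⟩ := hex μ hμ
  have hμ0 : 0 ≤ μ := hA0.le.trans hμ.1
  refine ⟨μ, Y μ (x μ), T, hcr, ?_, htail μ hμ, ⟨η, tp μ, e1, e2, e3, ?_⟩,
    hSYM μ K₀ _ η (tp μ) T (htail μ hμ) e1 hz⟩
  · have h1 := mul_le_mul_of_nonneg_right (le_abs_self C) hμ0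
    have h2 := mul_le_mul_of_nonneg_left hμ.2 (abs_nonneg C)
    nlinarith
  · rw [← norm_bb]
    linarith [(abs_le.1 (abs_im_le_norm (bb (Y μ (x μ)) (tp μ)))).1]

end Pool.Agent.P.MP_9ae58c_an.B

end

section

/-! Step CFG. -/

namespace Pool.Agent.P.MP_9ae58c_an.B

open Set Filter Topology Complex

theorem CFG_der (ρ z₀ s₀ : ℝ) {s : ℝ} (hs : 0 < s) :
    HasDerivAt (ini ρ z₀ s₀) (ini' ρ z₀ s₀ s) s := by
  have h1 : HasDerivAt (fun s : ℝ => (1 + ρ) * s / s₀ - 1) ((1 + ρ) / s₀) s :=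
    ((((hasDerivAt_id' s).const_mul (1 + ρ)).div_const s₀).sub_const 1).congr_deriv (by ring)
  have h2 : HasDerivAt (fun s : ℝ => z₀ * s₀ / s) (-(z₀ * s₀ / s ^ 2)) s :=
    ((hasDerivAt_const s (z₀ * s₀)).fun_div (hasDerivAt_id' s) hs.ne').congr_deriv (by ring)
  exact h1.ofReal_comp.prodMk (h2.prodMk (hasDerivAt_const s (0 : ℝ)))

theorem CFG_LL {b j : ℕ} (hb : 2 ≤ b) (k c : ℕ) : j ≤ LL b k j c := by
  have h1 : j ≤ (k + 1) * pc j c :=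
    (Nat.le_mul_of_pos_left j (Nat.two_pow_pos _)).trans (Nat.le_mul_of_pos_left _ k.succ_pos)
  exact (Nat.lt_pow_self hb).le.trans (Nat.pow_le_pow_right (by omega) h1)

theorem p_CFG (hVEX : S_VEX) (hAN : S_AN) (hHOM : S_HOM) :
    S_CFG := by
  intro Y hY
  obtain ⟨K₀, hK₀⟩ := hHOM Y hY
  obtain ⟨C₀, -, hC₀⟩ := hAN K₀
  obtain ⟨μ, h, T, hcr, hμ, hh⟩ := hK₀ C₀
  obtain ⟨K, C, m, ω, n, κ, a, k, b₀, l₀, hκ, ha, hl, han⟩ := hC₀ μ h T hμ hh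
  obtain ⟨b, hb⟩ := exists_nat_ge (max (max b₀ (10 ^ 4)) (18 * K ^ 2 * a))
  obtain ⟨j, hj⟩ := exists_nat_ge (max (max (1 / l₀) 5) κ)
  simp only [max_le_iff] at hb hj
  obtain ⟨⟨b1, b2⟩, b3⟩ := hb
  obtain ⟨⟨j1, j2⟩, j3⟩ := hj
  have b4 : 10 ^ 4 ≤ b := by exact_mod_cast b2
  have hL : ∀ c, (j : ℝ) ≤ LL b k j c := fun c => by exact_mod_cast CFG_LL (by omega) k c
  have gl : ∀ i s, Glob μ (orb Y μ κ b k j i s) := fun i s =>
    hY.gl _ _ hh.tail.gl.pos hh.tail.gl.le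
  have sp : ∀ i s, Var μ (orb Y μ κ b k j i s) (orv Y μ κ b k j i s) ∧ orv Y μ κ b k j i s 0 =
      ini' (rh κ b k j i.1) ((yN b k j i.1 : ℝ) ^ 2) (i.2 / (BB b k : ℝ) ^ pc j i.1) s :=
    fun i s => Classical.epsilon_spec (hVEX μ _ (gl i s) 0 _)
  refine ⟨μ, K, C, m, ω, n, κ, a, b, k, j, hY, hcr, hh.tail.gl.pos, hh.tail.gl.le, hκ, ha, b4, b3,
    by exact_mod_cast j2, fun c => ?_, fun c => ?_,
    fun i => ⟨gl i, fun s => (sp i s).1, fun s hs t => ?_, fun s hs => ?_⟩, fun i s => (sp i s).2⟩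
  · have h1 := hL c
    have h0 : (0 : ℝ) < LL b k j c := by linarith
    rw [rh, one_div_pow, mul_one_div, div_le_one (by positivity)]
    exact (j3.trans h1).trans (le_self_pow₀ (by linarith) (by norm_num))
  · have h1 := hL c
    have h0 : (0 : ℝ) < LL b k j c := by linarith
    exact han b _ b1 (by positivity) ((one_div_le h0 hl).2 (j1.trans h1))
  · exact hY.cont.continuousAt.comp (f := fun y : ℝ × ℝ => (μ, ini (rh κ b k j i.1)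
      ((yN b k j i.1 : ℝ) ^ 2) (i.2 / (BB b k : ℝ) ^ pc j i.1) y.1, y.2))
      (continuousAt_const.prodMk (((CFG_der _ _ _ hs).continuousAt.comp_of_eq
        continuousAt_fst rfl).prodMk continuousAt_snd))
  · simp only [orb, hY.init, (sp i s).2]
    exact CFG_der _ _ _ hs

end Pool.Agent.P.MP_9ae58c_an.B

end

section

/-! Step MCA. -/

namespace Pool.Agent.P.MP_9ae58c_an.B

open Set Filter Topology Complex

lemma MCA_pow (b k j c : ℕ) : (BB b k : ℝ) ^ pc j c = (LL b k j c : ℝ) ^ 12 := by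
  simp only [BB, LL, Nat.cast_pow, ← pow_mul]
  congr 1
  ring

lemma MCA_cube (b k j c : ℕ) : (yN b k j c : ℝ) ^ 3 = (b : ℝ) ^ 3 * (BB b k : ℝ) ^ sl j c 0 := by
  simp only [BB, yN, sl, Nat.cast_pow, ← pow_mul, ← pow_add]
  congr 1
  ring

lemma MCA_rng {b j : ℕ} (k c : ℕ) (hb : 1 ≤ b) (hj : 1 ≤ j) :
    (LL b k j c : ℝ) ^ 8 ≤ yN b k j c ∧ (yN b k j c : ℝ) ≤ (LL b k j c : ℝ) ^ 11 := by
  have h1 : (1 : ℝ) ≤ b := by exact_mod_cast hb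
  have h2 : 1 ≤ (k + 1) * 2 ^ c := Nat.mul_pos k.succ_pos (Nat.two_pow_pos c)
  have h3 : (k + 1) * 2 ^ c * 1 ≤ (k + 1) * 2 ^ c * j := Nat.mul_le_mul_left _ hj
  simp only [LL, yN, pc, Nat.cast_pow, ← pow_mul]
  constructor <;> refine pow_le_pow_right₀ h1 ?_ <;> rw [pow_succ] <;> nlinarith

theorem p_MCA (hFAMS : S_FAMS) :
    S_MCA := by
  intro Y μ K C m ω n κ a b k j h
  have hb : (10 : ℝ) ^ 4 ≤ b := by exact_mod_cast h.hb
  have ha : (4 : ℝ) ≤ a := by exact_mod_cast h.ha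
  have a0 : (0 : ℝ) < a := by linarith
  have b1 : 1 ≤ b := le_trans (by norm_num) h.hb
  have j1 : 1 ≤ j := le_trans (by norm_num) h.hj
  have L0 : ∀ c, (0 : ℝ) < LL b k j c := fun c => Nat.cast_pos.2 (Nat.pow_pos b1)
  have inv : ∀ c e, 1 / (1 / (LL b k j c : ℝ)) ^ e = (LL b k j c : ℝ) ^ e := fun c e => by simp
  have dv : ∀ c x, x / (1 / (LL b k j c : ℝ)) ^ 12 = (BB b k : ℝ) ^ pc j c * x := fun c x => by
    rw [MCA_pow, div_eq_mul_one_div, inv, mul_comm]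
  have hZ : ∀ c, 1 / (1 / (LL b k j c : ℝ)) ^ 16 ≤ 10 * (yN b k j c : ℝ) ^ 2 := fun c => by
    have := pow_le_pow_left₀ (pow_pos (L0 c) 8).le (MCA_rng k c b1 j1).1 2
    rw [← pow_mul] at this
    rw [inv]
    exact this.trans (by nlinarith [sq_nonneg (yN b k j c : ℝ)])
  have e1 : 3 / (2 * (a : ℝ)) = 3 / 2 * (1 / a) := by field_simp
  have e2 : 3 / (10 * (a : ℝ)) = 3 / 10 * (1 / a) := by field_simp
  have e3 : 1 / (a : ℝ) ≤ 1 / 4 := one_div_le_one_div_of_le (by norm_num) ha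
  have e4 : 0 < 1 / (a : ℝ) := by positivity
  refine ⟨h.ha, le_trans (by norm_num) h.hb, j1, fun c A hA s hs => ?_, fun i r s g hy => ?_,
    fun i r s g hy => ?_, fun i r s g hy => (h.an i.1).esc _ _ _ _ (hZ _) g.2.2 hy,
    fun i r s₁ s₂ hs g => ?_⟩
  · have B0 : (0 : ℝ) < (BB b k : ℝ) ^ pc j c := MCA_pow b k j c ▸ pow_pos (L0 c) 12
    have v1 : (BB b k : ℝ) ^ pc j c ≤ A := by exact_mod_cast hA.1
    have v2 : (A : ℝ) + 1 ≤ 2 * (BB b k : ℝ) ^ pc j c := by exact_mod_cast hA.2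
    have w1 : (1 : ℝ) ≤ A / (BB b k : ℝ) ^ pc j c := (one_le_div B0).2 v1
    have w2 : ((A : ℝ) + 1) / (BB b k : ℝ) ^ pc j c ≤ 2 := (div_le_iff₀ B0).2 v2
    have hs' : s ∈ Icc (1 : ℝ) 2 := ⟨w1.trans hs.1, hs.2.trans w2⟩
    obtain ⟨i1, i2, i3, -⟩ := (h.an c).ini (yN b k j c) (A / (BB b k : ℝ) ^ pc j c) s _ _
      (inv c 8 ▸ (MCA_rng k c b1 j1).1) (inv c 11 ▸ (MCA_rng k c b1 j1).2)
      ⟨w1, hs.1.trans hs'.2⟩ hs' (by
        rw [abs_of_nonneg (sub_nonneg.2 hs.1), one_div_pow, ← MCA_pow, sub_le_iff_le_add',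
          ← add_div]
        exact hs.2) ((h.fam (c, A)).gl s) ((h.fam (c, A)).var s) (h.fl.init _ _) (h.v0 (c, A) s)
    rw [MCA_cube] at i2 i3
    have p0 : 0 ≤ (b : ℝ) ^ 2 * (BB b k : ℝ) ^ sl j c 0 := by positivity
    have p1 : 0 ≤ (b : ℝ) ^ 3 * (BB b k : ℝ) ^ sl j c 0 := by positivity
    refine ⟨⟨hA, hs', i1⟩, le_trans ?_ i2, i3.trans ?_⟩
    · rw [le_div_iff₀ (by norm_num)]
      nlinarith [mul_le_mul_of_nonneg_left hb p0]
    · nlinarith [mul_le_mul_of_nonneg_left hb p1]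
  · have := abs_le.1 hy
    obtain ⟨n1, -, n2, -⟩ := (h.an i.1).nxt _ _ _ _ (hZ _) g.2.2 (show _ ≤ oy Y μ κ b k j i r s by
      linarith) (show oy Y μ κ b k j i r s ≤ _ by linarith)
    rw [dv] at n2
    exact ⟨⟨g.1, g.2.1, n1⟩, n2 hy⟩
  · have := abs_le.1 hy
    obtain ⟨n1, -, -, n2⟩ := (h.an i.1).nxt _ _ _ _ (hZ _) g.2.2 (show _ ≤ oy Y μ κ b k j i r s by
      linarith) (show oy Y μ κ b k j i r s ≤ _ by linarith)
    rw [dv] at n2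
    exact ⟨⟨g.1, g.2.1, n1⟩, n2 hy⟩
  · have κ0 : (0 : ℝ) < κ := Nat.cast_pos.2 h.hκ
    have l0 := one_div_pos.2 (L0 i.1)
    obtain ⟨f1, f2, f3⟩ := hFAMS μ K C _ (rh κ b k j i.1) _ s₁ s₂ m ω n _ _ r (h.fam i) (h.an i.1).shr
      l0 (mul_pos κ0 (pow_pos l0 4)) (lt_of_lt_of_le one_pos (g s₁ ⟨le_rfl, hs.le⟩).2.1.1) hs
      fun s hs => ⟨(g s hs).2.2, (h.an i.1).dep _ _ _ _ (hZ _) (g s hs).2.2⟩
    refine ⟨f1, fun hi H s h1 s' h2 => (f2 hi H s h1 s' h2).trans ?_, f3⟩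
    have := (abs_nonneg _).trans (H s h1)
    have := (le_div_iff₀ a0).2 h.hK
    gcongr

end Pool.Agent.P.MP_9ae58c_an.B

end
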