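import Pool.Agent.P.MP_9ae58c_an.B.Base

/-! Symmetries of the reduced problem and bounds at admissible points. -/

namespace Pool.Agent.P.MP_9ae58c_an.B

open Set Filter Topology Complex

variable {μ a b c t T F : ℝ} {p q ξ ζ : St} {u w x y : ℝ → St}

/-! ### The reversor and the reflection -/

@[simp] theorem Rv_1 (p : St) : (Rv p).1 = (starRingEnd ℂ) p.1 := rfl

@[simp] theorem Rv_2 (p : St) : (Rv p).2.1 = p.2.1 := rfl

@[simp] theorem Rv_3 (p : St) : (Rv p).2.2 = -p.2.2 := rfl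

@[simp] theorem Fp_1 (p : St) : (Fp p).1 = p.1 := rfl

@[simp] theorem Fp_2 (p : St) : (Fp p).2.1 = -p.2.1 := rfl

@[simp] theorem Fp_3 (p : St) : (Fp p).2.2 = -p.2.2 := rfl

@[simp] theorem Rv_Rv (p : St) : Rv (Rv p) = p := by simp [Rv]

@[simp] theorem Fp_Fp (p : St) : Fp (Fp p) = p := by simp [Fp]

theorem Rv_add (p q : St) : Rv (p + q) = Rv p + Rv q := by simp [Rv, add_comm]

theorem Rv_sub (p q : St) : Rv (p - q) = Rv p - Rv q := by simp [Rv]; ring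

theorem Rv_smul (c : ℝ) (p : St) : Rv (c • p) = c • Rv p := by simp [Rv]

theorem Fp_add (p q : St) : Fp (p + q) = Fp p + Fp q := by simp [Fp, add_comm]

theorem Fp_sub (p q : St) : Fp (p - q) = Fp p - Fp q := by
  simp only [Fp, Prod.mk_sub_mk, Prod.fst_sub, Prod.snd_sub]; congr 2 <;> ring

theorem Fp_smul (c : ℝ) (p : St) : Fp (c • p) = c • Fp p := by simp [Fp]

@[simp] theorem norm_Rv (p : St) : ‖Rv p‖ = ‖p‖ := by simp [Rv, Prod.norm_def]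

@[simp] theorem norm_Fp (p : St) : ‖Fp p‖ = ‖p‖ := by simp [Fp, Prod.norm_def]

theorem ip_conj (a b : ℂ) : ip ((starRingEnd ℂ) a) ((starRingEnd ℂ) b) = ip a b := by simp [ip]

@[simp] theorem rr_Rv (p : St) : rr (Rv p) = rr p := by simp [rr]

@[simp] theorem rr_Fp (p : St) : rr (Fp p) = rr p := rfl

@[simp] theorem WW_Rv (p : St) : WW (Rv p) = WW p := by simp [WW]

@[simp] theorem WW_Fp (p : St) : WW (Fp p) = WW p := by simp [WW]

@[simp] theorem gg_Rv (p : St) : gg (Rv p) = gg p := by simp [gg]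

@[simp] theorem gg_Fp (p : St) : gg (Fp p) = gg p := by simp [gg]

@[simp] theorem eps_Rv (μ : ℝ) (p : St) : eps μ (Rv p) = eps μ p := by simp [eps]

@[simp] theorem eps_Fp (μ : ℝ) (p : St) : eps μ (Fp p) = eps μ p := by simp [eps]

@[simp] theorem Hh_Rv (μ : ℝ) (p : St) : Hh μ (Rv p) = Hh μ p := by simp [Hh]

@[simp] theorem Hh_Fp (μ : ℝ) (p : St) : Hh μ (Fp p) = Hh μ p := by simp [Hh]

@[simp] theorem dW_Rv (p ξ : St) : dW (Rv p) (Rv ξ) = dW p ξ := by simp [dW]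

@[simp] theorem dW_Fp (p ξ : St) : dW (Fp p) (Fp ξ) = dW p ξ := by simp [dW]

@[simp] theorem dg_Rv (p ξ : St) : dg (Rv p) (Rv ξ) = dg p ξ := by simp [dg]

@[simp] theorem dg_Fp (p ξ : St) : dg (Fp p) (Fp ξ) = dg p ξ := by simp [dg]

@[simp] theorem de_Rv (μ : ℝ) (p ξ : St) : de μ (Rv p) (Rv ξ) = de μ p ξ := by simp [de]

@[simp] theorem de_Fp (μ : ℝ) (p ξ : St) : de μ (Fp p) (Fp ξ) = de μ p ξ := by simp [de]

@[simp] theorem dh_Rv (μ : ℝ) (p ξ : St) : dh μ (Rv p) (Rv ξ) = dh μ p ξ := by simp [dh, ip_conj]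

@[simp] theorem dh_Fp (μ : ℝ) (p ξ : St) : dh μ (Fp p) (Fp ξ) = dh μ p ξ := by simp [dh]

@[simp] theorem cz_Rv (p ξ : St) : cz (Rv p) (Rv ξ) = -cz p ξ := by simp [cz, div_neg]

@[simp] theorem cz_Fp (p ξ : St) : cz (Fp p) (Fp ξ) = cz p ξ := by simp [cz, div_neg, neg_div]

theorem fld_Rv (μ : ℝ) (p : St) : fld μ (Rv p) = -Rv (fld μ p) := by
  simp only [fld, gg_Rv, rr_Rv, WW_Rv]
  simp [Rv]

theorem fld_Fp (μ : ℝ) (p : St) : fld μ (Fp p) = Fp (fld μ p) := by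
  simp only [fld, gg_Fp, rr_Fp, WW_Fp]
  simp [Fp]

theorem lin_Rv (μ : ℝ) (p ξ : St) : lin μ (Rv p) (Rv ξ) = -Rv (lin μ p ξ) := by
  simp only [lin, dg_Rv, dW_Rv, rr_Rv, WW_Rv]
  simp only [Rv, Prod.neg_mk, conj_re, map_mul, map_sub, conj_I, conj_ofReal]
  congr 1
  · ring
  · congr 1 <;> ring

theorem lin_Fp (μ : ℝ) (p ξ : St) : lin μ (Fp p) (Fp ξ) = Fp (lin μ p ξ) := by
  simp only [lin, dg_Fp, dW_Fp, rr_Fp, WW_Fp]
  simp only [Fp]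
  congr 2 <;> ring

@[simp] theorem reg_Rv : Reg (Rv p) ↔ Reg p := by simp [Reg]

@[simp] theorem reg_Fp : Reg (Fp p) ↔ Reg p := by simp [Reg]

@[simp] theorem rg_Rv : Rg (Rv p) ↔ Rg p := by simp [Rg]

@[simp] theorem rg_Fp : Rg (Fp p) ↔ Rg p := by simp [Rg]

theorem Adm.rv (h : Adm μ p) : Adm μ (Rv p) := ⟨h.pos, h.le, by simpa using h.na, by simpa using h.nH⟩

theorem Adm.fp (h : Adm μ p) : Adm μ (Fp p) := ⟨h.pos, h.le, h.na, by simpa using h.nH⟩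

@[simp] theorem adm_Rv : Adm μ (Rv p) ↔ Adm μ p := ⟨fun h => by simpa using h.rv, Adm.rv⟩

@[simp] theorem adm_Fp : Adm μ (Fp p) ↔ Adm μ p := ⟨fun h => by simpa using h.fp, Adm.fp⟩

theorem dRv (h : HasDerivAt u ξ t) : HasDerivAt (fun t => Rv (u t)) (Rv ξ) t :=
  (conjCLE.hasFDerivAt.comp_hasDerivAt t (d1 h)).prodMk ((d2 h).prodMk (d3 h).fun_neg)

theorem dFp (h : HasDerivAt u ξ t) : HasDerivAt (fun t => Fp (u t)) (Fp ξ) t :=
  (d1 h).prodMk ((d2 h).fun_neg.prodMk (d3 h).fun_neg)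

theorem drev (h : HasDerivAt u ξ (T - t)) : HasDerivAt (rev u T) (-Rv ξ) t :=
  ((dRv h).scomp t ((hasDerivAt_id t).const_sub T)).congr_deriv (neg_one_smul ℝ _)

theorem dsh (h : HasDerivAt u ξ (t + c)) : HasDerivAt (sh u c) ξ t := h.comp_add_const t c

theorem continuous_Rv : Continuous Rv := by unfold Rv; fun_prop

theorem continuous_Fp : Continuous Fp := by unfold Fp; fun_prop

@[simp] theorem rev_rev (u : ℝ → St) (T : ℝ) : rev (rev u T) T = u := by funext t; simp [rev]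

@[simp] theorem fp_fp (u : ℝ → St) : fp (fp u) = u := by funext t; simp [fp]

@[simp] theorem sh_zero (u : ℝ → St) : sh u 0 = u := by funext t; simp [sh]

theorem sh_sh (u : ℝ → St) (c d : ℝ) : sh (sh u c) d = sh u (d + c) := by
  funext t; simp [sh, add_assoc]

theorem rev_sh (u : ℝ → St) (c T : ℝ) : rev (sh u c) T = rev u (T + c) := by
  funext t; simp only [rev, sh]; congr 2; ring

theorem sh_rev (u : ℝ → St) (c T : ℝ) : sh (rev u T) c = rev u (T - c) := by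
  funext t; simp only [rev, sh]; congr 2; ring

theorem rev_fp (u : ℝ → St) (T : ℝ) : rev (fp u) T = fp (rev u T) := rfl

theorem sh_fp (u : ℝ → St) (c : ℝ) : sh (fp u) c = fp (sh u c) := rfl

theorem Glob.rev (h : Glob μ u) (T : ℝ) : Glob μ (rev u T) :=
  ⟨h.pos, h.le, continuous_Rv.comp (h.cont.comp (continuous_sub_left T)),
    fun t ht => (drev (h.der (T - t) (reg_Rv.1 ht))).congr_deriv (fld_Rv _ _).symm⟩

theorem Glob.fp (h : Glob μ u) : Glob μ (fp u) :=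
  ⟨h.pos, h.le, continuous_Fp.comp h.cont,
    fun t ht => (dFp (h.der t (reg_Fp.1 ht))).congr_deriv (fld_Fp _ _).symm⟩

theorem Glob.sh (h : Glob μ u) (c : ℝ) : Glob μ (sh u c) :=
  ⟨h.pos, h.le, h.cont.comp (continuous_add_right c), fun _ ht => dsh (h.der _ ht)⟩

theorem Var.rev (h : Var μ u x) (T : ℝ) : Var μ (rev u T) (rev x T) :=
  fun t ht => (drev (h (T - t) (reg_Rv.1 ht))).congr_deriv (lin_Rv _ _ _).symm

theorem Var.fp (h : Var μ u x) : Var μ (fp u) (fp x) :=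
  fun t ht => (dFp (h t (reg_Fp.1 ht))).congr_deriv (lin_Fp _ _ _).symm

theorem Var.sh (h : Var μ u x) (c : ℝ) : Var μ (sh u c) (sh x c) := fun _ ht => dsh (h _ ht)

theorem Inh.rev (h : Inh μ u x F a b) (T : ℝ) : Inh μ (rev u T) (rev x T) F (T - b) (T - a) :=
  fun t ht =>
    let ⟨φ, h1, h2⟩ := h (T - t) ⟨by linarith [ht.2], by linarith [ht.1]⟩
    ⟨-Rv φ, (drev h1).congr_deriv (by rw [Rv_add, neg_add, ← lin_Rv]; rfl), by simpa using h2⟩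

theorem Inh.sh (h : Inh μ u x F a b) (c : ℝ) : Inh μ (sh u c) (sh x c) F (a - c) (b - c) :=
  fun t ht =>
    let ⟨φ, h1, h2⟩ := h (t + c) ⟨by linarith [ht.1], by linarith [ht.2]⟩
    ⟨φ, dsh h1, h2⟩

theorem Sol.rev (h : Sol μ u a b) (T : ℝ) : Sol μ (rev u T) (T - b) (T - a) :=
  ⟨h.gl.rev T, fun t ht => (h.adm (T - t) ⟨by linarith [ht.2], by linarith [ht.1]⟩).rv⟩

theorem Sol.fp (h : Sol μ u a b) : Sol μ (fp u) a b := ⟨h.gl.fp, fun t ht => (h.adm t ht).fp⟩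

theorem Sol.sh (h : Sol μ u a b) (c : ℝ) : Sol μ (sh u c) (a - c) (b - c) :=
  ⟨h.gl.sh c, fun t ht => h.adm (t + c) ⟨by linarith [ht.1], by linarith [ht.2]⟩⟩

theorem Sol.mono (h : Sol μ u a b) {a' b' : ℝ} (ha : a ≤ a') (hb : b' ≤ b) : Sol μ u a' b' :=
  ⟨h.gl, fun t ht => h.adm t (Icc_subset_Icc ha hb ht)⟩

theorem Sol.trans (h : Sol μ u a b) (h' : Sol μ u b c) : Sol μ u a c :=
  ⟨h.gl, fun t ht => (le_total t b).elim (fun e => h.adm t ⟨ht.1, e⟩) fun e => h'.adm t ⟨e, ht.2⟩⟩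

theorem rev_syn (μ : ℝ) (u x : ℝ → St) (c T : ℝ) :
    rev (syn μ u x c) T = syn μ (rev u T) (rev x T) (-c) := by
  funext t; simp only [rev, syn, Rv_add, Rv_smul, fld_Rv, smul_neg, neg_smul, neg_neg]

theorem fp_syn (μ : ℝ) (u x : ℝ → St) (c : ℝ) : fp (syn μ u x c) = syn μ (fp u) (fp x) c := by
  funext t; simp only [fp, syn, Fp_add, Fp_smul, fld_Fp]

theorem sh_syn (μ : ℝ) (u x : ℝ → St) (c d : ℝ) :
    sh (syn μ u x c) d = syn μ (sh u d) (sh x d) c := rfl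

@[simp] theorem bb_zero (u : ℝ → St) : bb u 0 = (u 0).1 := by simp [bb]

theorem bb_rev (u : ℝ → St) (T t : ℝ) :
    bb (rev u T) t = (starRingEnd ℂ) (ex T * bb u (T - t)) := by
  simp only [bb, rev, Rv_1, map_mul, conj_ex, ← mul_assoc, ← ex_add]; congr 2; ring

theorem bb_rev0 (u : ℝ → St) (t : ℝ) : bb (rev u 0) t = (starRingEnd ℂ) (bb u (-t)) := by
  simp [bb_rev]

@[simp] theorem bb_fp (u : ℝ → St) : bb (fp u) = bb u := rfl

theorem bb_sh (u : ℝ → St) (c t : ℝ) : bb (sh u c) t = ex c * bb u (t + c) := by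
  simp only [bb, sh, ← mul_assoc, ← ex_add]; congr 2; ring

theorem bb_syn (μ : ℝ) (u x : ℝ → St) (c t : ℝ) :
    bb (syn μ u x c) t = bb x t + c * I * bb u t - c * I * (ex (-t) * (μ * gg (u t) : ℝ)) := by
  simp only [bb, syn_fst]; ring

theorem Glob.dbb (h : Glob μ u) (hp : Reg (u t)) :
    HasDerivAt (bb u) (-(I * ex (-t) * (μ * gg (u t) : ℝ))) t :=
  (B.dbb (h.der t hp)).congr_deriv (by simp only [fld]; ring)

theorem Var.dbb (h : Var μ u x) (hp : Reg (u t)) :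
    HasDerivAt (bb x) (-(I * ex (-t) * (μ * dg (u t) (x t) : ℝ))) t :=
  (B.dbb (h t hp)).congr_deriv (by simp only [lin]; ring)

/-! ### Admissible points -/

theorem Rg.reg (h : Rg p) : Reg p := ⟨h.1.trans (by norm_num), h.2.trans (by norm_num)⟩

theorem v_sq (μ : ℝ) (p : St) : p.2.2 ^ 2 = 16 * (1 + μ) * WW p - eps μ p := by rw [eps]; ring

theorem eps_eq (h : 0 < μ) (p : St) : eps μ p = (1 + μ) / μ * (‖p.1‖ ^ 2 - Hh μ p) := by
  rw [Hh]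
  field_simp
  ring

theorem de_eq (μ : ℝ) (p ξ : St) : de μ p ξ = 2 * (1 + μ) / μ * ip p.1 ξ.1 - dh μ p ξ := by
  rw [dh]; ring

theorem Adm.na' (h : Adm μ p) : ‖p.1‖ ≤ 1 / 10 ^ 6 := by linarith [h.na, h.le]

theorem Adm.re (h : Adm μ p) : |p.1.re| ≤ 1 / 10 ^ 6 := (abs_re_le_norm _).trans h.na'

theorem Adm.r (h : Adm μ p) : 0.99999 ≤ rr p ∧ rr p ≤ 1.00001 := by
  have := abs_le.1 h.re
  rw [rr, le_div_iff₀ (by linarith), div_le_iff₀ (by linarith)]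
  constructor <;> linarith

theorem Adm.eps (h : Adm μ p) : |eps μ p| ≤ 10100 * μ := by
  have h0 := h.pos
  have h1 : ‖p.1‖ ^ 2 ≤ (100 * μ) ^ 2 := by gcongr; exact h.na
  have h2 := abs_le.1 h.nH
  have h3 : |‖p.1‖ ^ 2 - Hh μ p| ≤ 10001 * μ ^ 2 :=
    abs_le.2 ⟨by nlinarith [sq_nonneg ‖p.1‖], by nlinarith⟩
  rw [eps_eq h0, abs_mul, abs_of_pos (by positivity), div_mul_eq_mul_div, div_le_iff₀ h0]
  nlinarith [h.le, abs_nonneg (‖p.1‖ ^ 2 - Hh μ p)]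

theorem Adm.eps' (h : Adm μ p) : |B.eps μ p| ≤ 1.01 / 10 ^ 4 := by linarith [h.eps, h.le]

theorem WW_pos (h : 0 < rr p) : 0 < WW p :=
  one_div_pos.2 (Real.sqrt_pos.2 (by nlinarith [sq_nonneg p.2.1]))

theorem Adm.W_le (h : Adm μ p) : WW p ≤ 1.00002 := by
  have h1 : 0.99999 ≤ √(p.2.1 ^ 2 + rr p ^ 2) :=
    Real.le_sqrt_of_sq_le (by nlinarith [h.r.1, sq_nonneg p.2.1])
  rw [WW, div_le_iff₀ (by linarith)]
  linarith

theorem Adm.v (h : Adm μ p) : |p.2.2| ≤ 4.01 := by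
  refine abs_le_of_sq_le_sq' ?_ (by norm_num) |> abs_le.2
  have := WW_pos (p := p) (by linarith [h.r.1])
  nlinarith [v_sq μ p, h.W_le, abs_le.1 h.eps', h.le, h.pos]

theorem Adm.rg (h : Adm μ p) : Rg p := ⟨h.na'.trans (by norm_num), h.v.trans (by norm_num)⟩

theorem Adm.reg (h : Adm μ p) : Reg p := h.rg.reg

theorem Adm.W (h : Adm μ p) : 0 < WW p := h.reg.W

theorem Adm.g (h : Adm μ p) : 0 < gg p ∧ gg p ≤ 8.001 * WW p ^ 3 := by
  obtain ⟨r1, r2⟩ := h.r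
  have w := pow_pos h.W 3
  have : rr p ^ 3 ≤ 1.00001 ^ 3 := by gcongr
  exact ⟨by unfold gg; positivity, by unfold gg; nlinarith⟩

/-- far from the binary -/
theorem Adm.far (h : Adm μ p) (hz : 3 ≤ |p.2.1|) : WW p ≤ 1 / 3 ∧ 0.94 ≤ |p.2.1| * WW p := by
  obtain ⟨r1, r2⟩ := h.r
  have w := h.W
  have h1 : WW p ≤ 1 / 3 := by nlinarith [h.reg.zW]
  refine ⟨h1, ?_⟩
  have h3 : (|p.2.1| * WW p) ^ 2 + (rr p * WW p) ^ 2 = 1 := by
    rw [mul_pow, sq_abs]; linarith [h.reg.W_sq]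
  have h4 : rr p * WW p ≤ 1.00001 * (1 / 3) := by gcongr
  have h5 : (rr p * WW p) ^ 2 ≤ (1.00001 * (1 / 3)) ^ 2 := by gcongr
  nlinarith [mul_nonneg (abs_nonneg p.2.1) w.le]

/-- near the binary -/
theorem Adm.near (h : Adm μ p) (hz : |p.2.1| ≤ 3) : 0.316 ≤ WW p ∧ 2.2 ≤ |p.2.2| := by
  obtain ⟨r1, r2⟩ := h.r
  have w := h.W
  have h1 : 0.316 ≤ WW p := by
    have : p.2.1 ^ 2 ≤ 9 := by nlinarith [sq_abs p.2.1, abs_nonneg p.2.1]
    have h2 : p.2.1 ^ 2 + rr p ^ 2 ≤ 10.0001 := by nlinarith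
    nlinarith [h.reg.W_sq, mul_le_mul_of_nonneg_left h2 (sq_nonneg (WW p))]
  refine ⟨h1, ?_⟩
  have : 2.2 ^ 2 ≤ |p.2.2| ^ 2 := by
    rw [sq_abs]; nlinarith [v_sq μ p, abs_le.1 h.eps', h.pos]
  nlinarith [abs_nonneg p.2.2]

/-- on the plane of the binary -/
theorem Adm.cross (h : Adm μ p) (hz : p.2.1 = 0) : WW p = 1 + p.1.re ∧ 3.99 ≤ |p.2.2| := by
  have r1 := h.r.1
  have h1 : WW p = 1 + p.1.re := by
    rw [WW, hz, zero_pow two_ne_zero, zero_add, Real.sqrt_sq (by linarith), rr, one_div_one_div]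
  refine ⟨h1, ?_⟩
  have : 3.99 ^ 2 ≤ |p.2.2| ^ 2 := by
    rw [sq_abs]; nlinarith [v_sq μ p, abs_le.1 h.eps', h.pos, abs_le.1 h.re]
  nlinarith [abs_nonneg p.2.2]

/-- the vertical acceleration far from the binary -/
theorem Adm.acc (h : Adm μ p) (hz : 3 ≤ p.2.1) :
    7.5 * WW p ^ 2 ≤ -(fld μ p).2.2 ∧ -(fld μ p).2.2 ≤ 8.001 * WW p ^ 2 := by
  obtain ⟨r1, r2⟩ := h.r
  have e : |p.2.1| = p.2.1 := abs_of_pos (by linarith)
  have h1 := (h.far (e.symm ▸ hz)).2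
  have h2 := h.reg.zW
  rw [e] at h1 h2
  have e2 : -(fld μ p).2.2 = 8 * ((1 + μ) * rr p ^ 2 * (p.2.1 * WW p)) * WW p ^ 2 := by
    simp only [fld]; ring
  have m := h.pos
  have m' := h.le
  have a1 : 1 * 0.99999 ^ 2 * 0.94 ≤ (1 + μ) * rr p ^ 2 * (p.2.1 * WW p) := by
    gcongr; linarith
  have a2 : (1 + μ) * rr p ^ 2 * (p.2.1 * WW p) ≤ (1 + 1 / 10 ^ 8) * 1.00001 ^ 2 * 1 := by
    gcongr
  rw [e2]
  constructor <;> nlinarith [sq_nonneg (WW p)]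

theorem Adm.ip_le (h : Adm μ p) (ξ : St) : |2 * (1 + μ) / μ * ip p.1 ξ.1| ≤ 201 * ‖ξ.1‖ := by
  have m := h.pos
  have h1 : |ip p.1 ξ.1| ≤ 100 * μ * ‖ξ.1‖ := (abs_ip_le _ _).trans (by gcongr; exact h.na)
  rw [abs_mul, abs_of_pos (by positivity), div_mul_eq_mul_div, div_le_iff₀ m]
  nlinarith [h.le, abs_nonneg (ip p.1 ξ.1), mul_nonneg m.le (norm_nonneg ξ.1)]

theorem Adm.de_le (h : Adm μ p) (ξ : St) : |de μ p ξ| ≤ 41 * ‖ξ‖ := by
  obtain ⟨r1, r2⟩ := h.r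
  have w := h.W
  have w1 := h.W_le
  have m := h.pos
  have m' := h.le
  have a1 : |rr p ^ 3 * WW p ^ 3 * ξ.1.re| ≤ 1 ^ 3 * ‖ξ‖ := by
    rw [abs_mul, ← mul_pow, abs_of_pos (by positivity)]
    gcongr
    · exact h.reg.rW
    · exact (abs_re_le_norm _).trans (n1 ξ)
  have a2 : |p.2.1 * WW p ^ 3 * ξ.2.1| ≤ 1 * 1.00002 ^ 2 * ‖ξ‖ := by
    rw [abs_mul, abs_mul, abs_of_pos (pow_pos w 3), pow_succ' _ 2, ← mul_assoc]
    gcongr
    · exact h.reg.zW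
    · exact n2 ξ
  have a3 : |2 * p.2.2 * ξ.2.2| ≤ 2 * 4.01 * ‖ξ‖ := by
    rw [abs_mul, abs_mul, abs_two]
    gcongr
    · exact h.v
    · exact n3 ξ
  have a4 : |dW p ξ| ≤ 2.0001 * ‖ξ‖ := (abs_sub _ _).trans (by nlinarith [norm_nonneg ξ])
  have a5 : |16 * (1 + μ) * dW p ξ| ≤ 16 * (1 + 1 / 10 ^ 8) * (2.0001 * ‖ξ‖) := by
    rw [abs_mul, abs_of_pos (by positivity)]
    gcongr
  exact (abs_sub _ _).trans (by nlinarith [norm_nonneg ξ])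

theorem Adm.dh_le (h : Adm μ p) (ξ : St) : |dh μ p ξ| ≤ 242 * ‖ξ‖ :=
  (abs_sub _ _).trans (by linarith [h.ip_le ξ, h.de_le ξ, n1 ξ])

/-- a variation tangent to the plane is controlled by its first component and by `dh` -/
theorem Adm.cross_norm (h : Adm μ p) (hz : p.2.1 = 0) (hξ : ξ.2.1 = 0) :
    ‖ξ‖ ≤ 28 * (‖ξ.1‖ + |dh μ p ξ|) := by
  obtain ⟨c1, c2⟩ := h.cross hz
  have m := h.pos
  have m' := h.le
  have e : dW p ξ = ξ.1.re := by rw [dW, hξ, ← mul_pow, c1, h.reg.r_mul]; ring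
  have e2 : 2 * p.2.2 * ξ.2.2 = 16 * (1 + μ) * ξ.1.re - (2 * (1 + μ) / μ * ip p.1 ξ.1 - dh μ p ξ) := by
    rw [← de_eq, de, e]; ring
  have a1 : |16 * (1 + μ) * ξ.1.re| ≤ 16 * (1 + 1 / 10 ^ 8) * ‖ξ.1‖ := by
    rw [abs_mul, abs_of_pos (by positivity)]
    gcongr
    exact abs_re_le_norm _
  have a2 : 2 * |p.2.2| * |ξ.2.2| ≤ 218 * ‖ξ.1‖ + |dh μ p ξ| := by
    rw [← abs_two, ← abs_mul, ← abs_mul, e2]
    refine (abs_sub _ _).trans ?_
    linarith [abs_sub (2 * (1 + μ) / μ * ip p.1 ξ.1) (dh μ p ξ), h.ip_le ξ, norm_nonneg ξ.1]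
  have a3 := norm_nonneg ξ.1
  have a4 := abs_nonneg (dh μ p ξ)
  refine norm_le_of (by linarith) (by rw [hξ, abs_zero]; positivity) ?_
  nlinarith [abs_nonneg ξ.2.2]

/-- two points of the plane with the same direction of motion -/
theorem Adm.cross_close (h : Adm μ p) (h' : Adm μ q) (hz : p.2.1 = 0) (hz' : q.2.1 = 0)
    (hv : 0 ≤ p.2.2 * q.2.2) : ‖p - q‖ ≤ 28 * (‖p.1 - q.1‖ + |Hh μ p - Hh μ q| / μ) := by
  obtain ⟨c1, c2⟩ := h.cross hz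
  obtain ⟨c3, c4⟩ := h'.cross hz'
  have m := h.pos
  have m' := h.le
  have a3 := norm_nonneg (p.1 - q.1)
  have a4 : 0 ≤ |Hh μ p - Hh μ q| / μ := by positivity
  have b1 : |‖p.1‖ ^ 2 - ‖q.1‖ ^ 2| / μ ≤ 200 * ‖p.1 - q.1‖ := by
    rw [div_le_iff₀ m, sq_sub_sq, abs_mul, abs_of_nonneg (by positivity)]
    nlinarith [h.na, h'.na, abs_norm_sub_norm_le p.1 q.1, abs_nonneg (‖p.1‖ - ‖q.1‖),
      norm_nonneg p.1, norm_nonneg q.1]
  have e : (p.2.2 + q.2.2) * (p.2.2 - q.2.2) = (1 + μ) * (16 * (p.1 - q.1).re -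
      ((‖p.1‖ ^ 2 - ‖q.1‖ ^ 2) / μ - (Hh μ p - Hh μ q) / μ)) := by
    rw [← sq_sub_sq, v_sq μ p, v_sq μ q, eps_eq m, eps_eq m, c1, c3, sub_re]
    field_simp
    ring
  have b2 : |16 * (p.1 - q.1).re - ((‖p.1‖ ^ 2 - ‖q.1‖ ^ 2) / μ - (Hh μ p - Hh μ q) / μ)| ≤
      216 * ‖p.1 - q.1‖ + |Hh μ p - Hh μ q| / μ := by
    refine (abs_sub _ _).trans ((add_le_add_right (abs_sub _ _) _).trans ?_)
    rw [abs_div, abs_div, abs_of_pos m, abs_mul, abs_of_pos (by norm_num : (0 : ℝ) < 16)]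
    linarith [abs_re_le_norm (p.1 - q.1)]
  have b3 : 7.98 ≤ |p.2.2 + q.2.2| := by
    nlinarith [sq_abs p.2.2, sq_abs q.2.2, sq_abs (p.2.2 + q.2.2), abs_nonneg (p.2.2 + q.2.2),
      abs_mul p.2.2 q.2.2, abs_of_nonneg hv]
  have b4 : |p.2.2 + q.2.2| * |p.2.2 - q.2.2| ≤ (1 + 1 / 10 ^ 8) *
      (216 * ‖p.1 - q.1‖ + |Hh μ p - Hh μ q| / μ) := by
    rw [← abs_mul, e, abs_mul, abs_of_pos (by positivity)]
    gcongr
  refine norm_le_of (by simp only [Prod.fst_sub]; linarith)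
    (by simp only [Prod.snd_sub, Prod.fst_sub, hz, hz', sub_self, abs_zero]; positivity) ?_
  simp only [Prod.snd_sub]
  nlinarith [abs_nonneg (p.2.2 - q.2.2)]

end Pool.Agent.P.MP_9ae58c_an.B
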