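import Pool.Agent.P.MP_9ae58c_an.Basic

/-! Differential inequalities, real induction, rotations, successive zeros. -/

namespace Pool.Agent.P.MP_9ae58c_an.B

open Set Filter Topology

section tools

variable {E : Type*} [NormedAddCommGroup E] [NormedSpace ℝ E] {f f' : ℝ → E} {a b : ℝ}
  {Φ Φ' K K' κ : ℝ → ℝ}

theorem contOn_of (hf : ∀ t ∈ Icc a b, HasDerivAt f (f' t) t) : ContinuousOn f (Icc a b) :=
  fun t ht => (hf t ht).continuousAt.continuousWithinAt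

/-- comparison of increments -/
theorem norm_sub_le_of (hf : ∀ t ∈ Icc a b, HasDerivAt f (f' t) t)
    (hΦ : ∀ t ∈ Icc a b, HasDerivAt Φ (Φ' t) t) (h : ∀ t ∈ Icc a b, ‖f' t‖ ≤ Φ' t) :
    ∀ t ∈ Icc a b, ‖f t - f a‖ ≤ Φ t - Φ a :=
  image_norm_le_of_norm_deriv_right_le_deriv_boundary' (f := fun t => f t - f a) (f' := f')
    (B := fun t => Φ t - Φ a) (B' := Φ') ((contOn_of hf).sub continuousOn_const)
    (fun t ht => ((hf t (Ico_subset_Icc_self ht)).sub_const _).hasDerivWithinAt) (by simp)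
    ((contOn_of hΦ).sub continuousOn_const)
    (fun t ht => ((hΦ t (Ico_subset_Icc_self ht)).sub_const _).hasDerivWithinAt)
    fun t ht => h t (Ico_subset_Icc_self ht)

/-- comparison of increments, from the right end point -/
theorem norm_sub_le_of' (hf : ∀ t ∈ Icc a b, HasDerivAt f (f' t) t)
    (hΦ : ∀ t ∈ Icc a b, HasDerivAt Φ (Φ' t) t) (h : ∀ t ∈ Icc a b, ‖f' t‖ ≤ Φ' t) :
    ∀ t ∈ Icc a b, ‖f t - f b‖ ≤ Φ b - Φ t := fun t ht => by
  have s : Icc t b ⊆ Icc a b := Icc_subset_Icc_left ht.1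
  rw [norm_sub_rev]
  exact norm_sub_le_of (fun u hu => hf u (s hu)) (fun u hu => hΦ u (s hu)) (fun u hu => h u (s hu))
    b ⟨ht.2, le_rfl⟩

/-- a function with nonnegative derivative increases -/
theorem le_of_deriv (hΦ : ∀ t ∈ Icc a b, HasDerivAt Φ (Φ' t) t) (h : ∀ t ∈ Icc a b, 0 ≤ Φ' t)
    {s t : ℝ} (hs : s ∈ Icc a b) (ht : t ∈ Icc a b) (hst : s ≤ t) : Φ s ≤ Φ t := by
  have i : Icc s t ⊆ Icc a b := Icc_subset_Icc hs.1 ht.2
  have := norm_sub_le_of (f := fun _ => (0 : ℝ)) (f' := fun _ => 0)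
    (fun u _ => hasDerivAt_const u _) (fun u hu => hΦ u (i hu)) (fun u hu => by simpa using h u (i hu))
    t ⟨hst, le_rfl⟩
  simpa using this

/-- comparison of increments of real functions -/
theorem sub_le_of (hK : ∀ t ∈ Icc a b, HasDerivAt K (K' t) t)
    (hΦ : ∀ t ∈ Icc a b, HasDerivAt Φ (Φ' t) t) (h : ∀ t ∈ Icc a b, K' t ≤ Φ' t)
    {s t : ℝ} (hs : s ∈ Icc a b) (ht : t ∈ Icc a b) (hst : s ≤ t) : K t - K s ≤ Φ t - Φ s := by
  have := le_of_deriv (fun u hu => (hΦ u hu).fun_sub (hK u hu)) (fun u hu => sub_nonneg.2 (h u hu))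
    hs ht hst
  linarith

/-- Gronwall inequality with a small total rate -/
theorem norm_le_two (hf : ∀ t ∈ Icc a b, HasDerivAt f (f' t) t)
    (hΦ : ∀ t ∈ Icc a b, HasDerivAt Φ (Φ' t) t) (hK : ∀ t ∈ Icc a b, HasDerivAt K (K' t) t)
    (h : ∀ t ∈ Icc a b, ‖f' t‖ ≤ K' t * ‖f t‖ + Φ' t) (h1 : ∀ t ∈ Icc a b, 0 ≤ K' t ∧ 0 ≤ Φ' t)
    (h2 : K b - K a ≤ 1 / 2) : ∀ t ∈ Icc a b, ‖f t‖ ≤ 2 * (‖f a‖ + (Φ t - Φ a)) := by
  intro t ht
  have i : Icc a t ⊆ Icc a b := Icc_subset_Icc_right ht.2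
  obtain ⟨s, hs, hm⟩ := isCompact_Icc.exists_isMaxOn (nonempty_Icc.2 ht.1)
    ((contOn_of hf).mono i).norm
  have h3 := norm_sub_le_of (fun u hu => hf u (i hu))
    (fun u hu => ((hK u (i hu)).mul_const ‖f s‖).fun_add (hΦ u (i hu)))
    (fun u hu => (h u (i hu)).trans (by
      have := mul_le_mul_of_nonneg_left (hm hu) (h1 u (i hu)).1
      simpa using this)) s hs
  have h4 := le_of_deriv hK (fun u hu => (h1 u hu).1) (i hs) ⟨ht.1.trans ht.2, le_rfl⟩ (i hs).2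
  have h5 := le_of_deriv hΦ (fun u hu => (h1 u hu).2) (i hs) ht hs.2
  have h6 : ‖f t‖ ≤ ‖f s‖ := hm ⟨ht.1, le_rfl⟩
  have h7 := norm_le_insert' (f s) (f a)
  nlinarith [norm_nonneg (f s)]

theorem rev_der (hf : ∀ t ∈ Icc a b, HasDerivAt f (f' t) t) :
    ∀ t ∈ Icc (-b) (-a), HasDerivAt (fun t => f (-t)) (-f' (-t)) t := fun t ht =>
  ((hf (-t) ⟨by linarith [ht.2], by linarith [ht.1]⟩).scomp t (hasDerivAt_neg t)).congr_deriv
    (neg_one_smul ℝ _)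

/-- Gronwall inequality with a small total rate, from the right end point -/
theorem norm_le_two' (hf : ∀ t ∈ Icc a b, HasDerivAt f (f' t) t)
    (hΦ : ∀ t ∈ Icc a b, HasDerivAt Φ (Φ' t) t) (hK : ∀ t ∈ Icc a b, HasDerivAt K (K' t) t)
    (h : ∀ t ∈ Icc a b, ‖f' t‖ ≤ K' t * ‖f t‖ + Φ' t) (h1 : ∀ t ∈ Icc a b, 0 ≤ K' t ∧ 0 ≤ Φ' t)
    (h2 : K b - K a ≤ 1 / 2) : ∀ t ∈ Icc a b, ‖f t‖ ≤ 2 * (‖f b‖ + (Φ b - Φ t)) := by
  intro t ht
  have m : ∀ u ∈ Icc (-b) (-a), -u ∈ Icc a b := fun u hu => ⟨by linarith [hu.2], by linarith [hu.1]⟩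
  have := norm_le_two (rev_der hf) (fun u hu => (rev_der hΦ u hu).fun_neg)
    (fun u hu => (rev_der hK u hu).fun_neg) (fun u hu => by simpa using h _ (m u hu))
    (fun u hu => by simpa using h1 _ (m u hu)) (by simp only [neg_neg]; linarith) (-t)
    ⟨by linarith [ht.2], by linarith [ht.1]⟩
  simp only [neg_neg] at this
  linarith

/-- dissipative comparison -/
theorem abs_le_of_diss (hK : ∀ t ∈ Icc a b, HasDerivAt K (K' t) t)
    (hΦ : ∀ t ∈ Icc a b, HasDerivAt Φ (Φ' t) t) (h0 : ∀ t ∈ Icc a b, 0 ≤ Φ' t)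
    (h : ∀ t ∈ Icc a b, (0 < K t → K' t ≤ Φ' t) ∧ (K t < 0 → -Φ' t ≤ K' t)) :
    ∀ t ∈ Icc a b, |K t| ≤ |K a| + (Φ t - Φ a) := by
  have key : ∀ {K K' : ℝ → ℝ}, (∀ t ∈ Icc a b, HasDerivAt K (K' t) t) →
      (∀ t ∈ Icc a b, 0 < K t → K' t ≤ Φ' t) → ∀ t ∈ Icc a b, K t ≤ |K a| + (Φ t - Φ a) := by
    intro K K' hK h t ht
    refine le_of_forall_pos_le_add fun ε hε => ?_
    have e : 0 < ε / (t - a + 1) := div_pos hε (by linarith [ht.1])
    have := image_le_of_deriv_right_lt_deriv_boundary' (f := K) (f' := K')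
      (B := fun u => |K a| + (Φ u - Φ a) + ε / (t - a + 1) * (u - a + 1))
      (B' := fun u => Φ' u + ε / (t - a + 1)) (contOn_of hK)
      (fun u hu => (hK u (Ico_subset_Icc_self hu)).hasDerivWithinAt)
      (by simp only [sub_self, add_zero, zero_add, mul_one]; linarith [le_abs_self (K a)])
      ((continuousOn_const.add ((contOn_of hΦ).sub continuousOn_const)).add (by fun_prop))
      (fun u hu => by
        simpa using ((((hΦ u (Ico_subset_Icc_self hu)).sub_const (Φ a)).const_add |K a|).fun_add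
          ((((hasDerivAt_id' u).sub_const a).add_const 1).const_mul
            (ε / (t - a + 1)))).hasDerivWithinAt)
      (fun u hu e1 => by
        have h3 := le_of_deriv hΦ h0 ⟨le_rfl, hu.1.trans hu.2.le⟩ (Ico_subset_Icc_self hu) hu.1
        have h4 := mul_pos e (show 0 < u - a + 1 by linarith [hu.1])
        linarith [h u (Ico_subset_Icc_self hu) (by linarith [abs_nonneg (K a)])]) ht
    rwa [div_mul_cancel₀ _ (by linarith [ht.1])] at this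
  intro t ht
  have h1 := key hK (fun u hu => (h u hu).1) t ht
  have h2 := key (fun u hu => (hK u hu).fun_neg)
    (fun u hu e => by linarith [(h u hu).2 (by linarith)]) t ht
  rw [abs_neg] at h2
  exact abs_le.2 ⟨by linarith, h1⟩

/-- real induction -/
theorem real_ind {P : ℝ → Prop} (h0 : P a)
    (hc : ∀ t ∈ Ioc a b, (∀ s ∈ Ico a t, P s) → P t)
    (ho : ∀ t ∈ Ico a b, (∀ s ∈ Icc a t, P s) → ∀ᶠ s in 𝓝[>] t, P s) : ∀ t ∈ Icc a b, P t := by
  intro t ht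
  by_contra hn
  have hb : BddBelow {s ∈ Icc a b | ¬ P s} := ⟨a, fun s hs => hs.1.1⟩
  set c := sInf {s ∈ Icc a b | ¬ P s}
  have h1 : a ≤ c := le_csInf ⟨t, ht, hn⟩ fun s hs => hs.1.1
  have h2 : c ≤ t := csInf_le hb ⟨ht, hn⟩
  have h3 : ∀ s ∈ Ico a c, P s := fun s hs => by
    by_contra e
    exact hs.2.not_ge (csInf_le hb ⟨⟨hs.1, hs.2.le.trans (h2.trans ht.2)⟩, e⟩)
  have h4 : P c := h1.eq_or_lt.elim (fun e => e ▸ h0) fun e => hc c ⟨e, h2.trans ht.2⟩ h3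
  have h5 : ∀ s ∈ Icc a c, P s := fun s hs => hs.2.eq_or_lt.elim (fun e => e ▸ h4)
    fun e => h3 s ⟨hs.1, e⟩
  have h6 : c < t := h2.lt_of_ne fun e => hn (e ▸ h4)
  obtain ⟨d, hd, h7⟩ := mem_nhdsGT_iff_exists_Ioo_subset.1 (ho c ⟨h1, h6.trans_le ht.2⟩ h5)
  refine (mem_Ioi.1 hd).not_ge (le_csInf ⟨t, ht, hn⟩ fun s hs => not_lt.1 fun e => hs.2 ?_)
  exact (le_or_gt s c).elim (fun e' => h5 s ⟨hs.1.1, e'⟩) fun e' => h7 ⟨e', e⟩

/-- primitives -/
theorem exists_prim (hab : a ≤ b) (h : ContinuousOn κ (Icc a b)) :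
    ∃ Φ : ℝ → ℝ, Φ a = 0 ∧ ∀ t ∈ Icc a b, HasDerivAt Φ (κ t) t := by
  have hc : Continuous fun t => κ (projIcc a b hab t) :=
    h.comp_continuous (continuous_subtype_val.comp continuous_projIcc) fun t => (projIcc a b hab t).2
  refine ⟨fun t => ∫ s in a..t, κ (projIcc a b hab s), by simp, fun t ht => ?_⟩
  simpa [projIcc_of_mem hab ht] using (hc.integral_hasStrictDerivAt a t).hasDerivAt

omit [NormedSpace ℝ E] in
/-- a pointwise Lipschitz bound gives a Lipschitz bound -/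
theorem lip_of_loc {R : ℝ} (h : ∀ s ∈ Icc a b, ∀ᶠ t in 𝓝 s, ‖f t - f s‖ ≤ R * |t - s|)
    {s t : ℝ} (hs : s ∈ Icc a b) (ht : t ∈ Icc a b) : ‖f t - f s‖ ≤ R * |t - s| := by
  wlog hst : s ≤ t generalizing s t
  · rw [norm_sub_rev, abs_sub_comm]
    exact this ht hs (le_of_not_ge hst)
  have i : Icc s t ⊆ Icc a b := Icc_subset_Icc hs.1 ht.2
  rw [abs_of_nonneg (sub_nonneg.2 hst)]
  refine real_ind (P := fun u => ‖f u - f s‖ ≤ R * (u - s)) (by simp) (fun u hu h1 => ?_)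
    (fun u hu h1 => ?_) t ⟨hst, le_rfl⟩
  · obtain ⟨w, h2, h3⟩ := (((h u (i (Ioc_subset_Icc_self hu))).filter_mono nhdsWithin_le_nhds).and
      (Ioo_mem_nhdsLT hu.1)).exists
    have := norm_sub_le_norm_sub_add_norm_sub (f u) (f w) (f s)
    rw [abs_of_neg (sub_neg.2 h3.2), norm_sub_rev] at h2
    linarith [h1 w ⟨h3.1.le, h3.2⟩]
  · filter_upwards [(h u (i (Ico_subset_Icc_self hu))).filter_mono nhdsWithin_le_nhds,
      self_mem_nhdsWithin] with w h2 h3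
    have := norm_sub_le_norm_sub_add_norm_sub (f w) (f u) (f s)
    rw [abs_of_pos (sub_pos.2 h3)] at h2
    linarith [h1 u ⟨hu.1, le_rfl⟩]

end tools

/-- rotation -/
noncomputable def ex (t : ℝ) : ℂ := Complex.exp (t * Complex.I)

@[simp] theorem norm_ex (t : ℝ) : ‖ex t‖ = 1 := Complex.norm_exp_ofReal_mul_I t

@[simp] theorem ex_zero : ex 0 = 1 := by simp [ex]

theorem ex_add (s t : ℝ) : ex (s + t) = ex s * ex t := by simp [ex, add_mul, Complex.exp_add]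

theorem ex_mul_neg (t : ℝ) : ex t * ex (-t) = 1 := by rw [← ex_add]; simp

theorem conj_ex (t : ℝ) : (starRingEnd ℂ) (ex t) = ex (-t) := by
  simp [ex, ← Complex.exp_conj]

theorem ex_re (t : ℝ) : (ex t).re = Real.cos t := Complex.exp_ofReal_mul_I_re t

theorem ex_im (t : ℝ) : (ex t).im = Real.sin t := Complex.exp_ofReal_mul_I_im t

theorem hasDerivAt_ex (t : ℝ) : HasDerivAt ex (Complex.I * ex t) t :=
  (((hasDerivAt_id t).ofReal_comp).mul_const Complex.I).cexp.congr_deriv (by simp [ex, mul_comm])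

theorem continuous_ex : Continuous ex :=
  continuous_iff_continuousAt.2 fun t => (hasDerivAt_ex t).continuousAt

/-- the Euclidean scalar product of the plane -/
def ip (a b : ℂ) : ℝ := a.re * b.re + a.im * b.im

theorem ip_comm (a b : ℂ) : ip a b = ip b a := by unfold ip; ring

theorem ip_self (a : ℂ) : ip a a = ‖a‖ ^ 2 := by
  rw [Complex.sq_norm, Complex.normSq_apply, ip]

theorem abs_ip_le (a b : ℂ) : |ip a b| ≤ ‖a‖ * ‖b‖ := by
  have := Complex.abs_re_le_norm (a * (starRingEnd ℂ) b)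
  simpa [ip] using this

theorem ip_add (a b c : ℂ) : ip a (b + c) = ip a b + ip a c := by simp [ip]; ring

theorem ip_sub (a b c : ℂ) : ip a (b - c) = ip a b - ip a c := by simp [ip]; ring

theorem ip_real (a b : ℂ) (c : ℝ) : ip a (c * b) = c * ip a b := by simp [ip]; ring

theorem ip_mul (c a b : ℂ) : ip (c * a) (c * b) = ‖c‖ ^ 2 * ip a b := by
  rw [Complex.sq_norm, Complex.normSq_apply]
  simp [ip]; ring

theorem ip_ex (t : ℝ) (a b : ℂ) : ip (ex t * a) (ex t * b) = ip a b := by simp [ip_mul]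

theorem ip_sq (m a : ℂ) : ip m a ^ 2 + ip (Complex.I * m) a ^ 2 = ‖m‖ ^ 2 * ‖a‖ ^ 2 := by
  rw [Complex.sq_norm, Complex.sq_norm, Complex.normSq_apply, Complex.normSq_apply]
  simp [ip]; ring

/-- the next zero -/
noncomputable def nz (Z : ℝ → ℝ) (t₀ : ℝ) : ℝ := sInf {t | t₀ + 1 ≤ t ∧ Z t = 0}

/-- the successive zeros -/
noncomputable def cr (Z : ℝ → ℝ) : ℕ → ℝ
  | 0 => 0
  | k + 1 => nz Z (cr Z k)

theorem nz_eq {Z : ℝ → ℝ} {t₀ T : ℝ} (h : t₀ + 1 ≤ T) (h0 : Z T = 0)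
    (h1 : ∀ t ∈ Ioo t₀ T, Z t ≠ 0) : nz Z t₀ = T :=
  IsLeast.csInf_eq ⟨⟨h, h0⟩, fun t ht => not_lt.1 fun e => h1 t ⟨by linarith [ht.1], e⟩ ht.2⟩

/-- the sign alternates between the first `k` zeros -/
def Alt0 (Z : ℝ → ℝ) (k : ℕ) : Prop := ∀ i < k, cr Z i + 100 ≤ cr Z (i + 1) ∧
  ∀ t ∈ Icc (cr Z i) (cr Z (i + 1)), min 1 (min (t - cr Z i) (cr Z (i + 1) - t)) ≤ (-1) ^ i * Z t

/-- the sign alternates between the first `k` zeros and changes at the last one -/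
def Alt (Z : ℝ → ℝ) (k : ℕ) : Prop :=
  Alt0 Z k ∧ ∀ t ∈ Icc (cr Z k) (cr Z k + 3), min 1 (t - cr Z k) ≤ (-1) ^ k * Z t

theorem Alt0.mono {Z : ℝ → ℝ} {k l : ℕ} (h : Alt0 Z k) (hl : l ≤ k) : Alt0 Z l :=
  fun i hi => h i (hi.trans_le hl)

theorem Alt0.alt {Z : ℝ → ℝ} {k l : ℕ} (h : Alt0 Z k) (hl : l < k) : Alt Z l :=
  ⟨h.mono hl.le, fun t ht => le_trans (le_min (min_le_left _ _) (le_min (min_le_right _ _)
    ((min_le_left _ _).trans (by linarith [(h l hl).1, ht.2])))) ((h l hl).2 t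
      ⟨ht.1, by linarith [(h l hl).1, ht.2]⟩)⟩

theorem Alt0.succ {Z : ℝ → ℝ} {k : ℕ} (h : Alt0 Z k) {T : ℝ} (h1 : cr Z k + 100 ≤ T) (h0 : Z T = 0)
    (h2 : ∀ t ∈ Icc (cr Z k) T, min 1 (min (t - cr Z k) (T - t)) ≤ (-1) ^ k * Z t) :
    cr Z (k + 1) = T ∧ Alt0 Z (k + 1) := by
  have e : cr Z (k + 1) = T := nz_eq (by linarith) h0 fun t ht e => by
    have := h2 t (Ioo_subset_Icc_self ht)
    rw [e, mul_zero] at this
    exact this.not_gt (lt_min one_pos (lt_min (sub_pos.2 ht.1) (sub_pos.2 ht.2)))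
  refine ⟨e, fun i hi => (Nat.lt_succ_iff.1 hi).eq_or_lt.elim (fun e' => ?_) (h i)⟩
  rw [e', e]
  exact ⟨h1, h2⟩

theorem Alt0.le {Z : ℝ → ℝ} {k : ℕ} (h : Alt0 Z k) : 100 * (k : ℝ) ≤ cr Z k := by
  induction k with
  | zero => simp [cr]
  | succ k ih =>
    push_cast
    linarith [ih (h.mono k.le_succ), (h k k.lt_succ_self).1]

end Pool.Agent.P.MP_9ae58c_an.B
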